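import Pool.Agent.FIB.Hyp

/-!
# Part A: differentiation (A1)

`Sv p N r j = (1/N) Σ_{k<N} (rho (p (j + k r)) (p (j + (k+1) r)) / r)^2 - (rho (p j) (p (j + N r)) / (N r))^2`.

`Sv_nonneg`: triangle inequality and Cauchy-Schwarz.

`good_of_var`. `η' = η / 200`, `N1 ≥ 200 K / η`, `N = 16 N1`, `a = N1 r`, so `N r = 16 a`. Put `d_k = rho (p_k) (p_{k+1}) / r`, `p_k = p (j + k r)`,
`d` the mean of the `d_k`, `D = rho p_0 p_N / (N r) ≤ d`. `Sv = (1/N) Σ (d_k - d)^2 + (d^2 - D^2) ≤ η'^2`, so `|d - D| ≤ η'`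
(`(d-D)^2 ≤ d^2 - D^2`), and `|Σ_{k ≤ i < l} (d_i - d)| ≤ N η'` by Cauchy-Schwarz. Then
`rho p_k p_l ≤ Σ_{k≤i<l} r d_i ≤ r (l-k) d + N r η'`, and
`rho p_k p_l ≥ rho p_0 p_N - Σ_{i<k} r d_i - Σ_{i≥l} r d_i = N r D - N r d + Σ_{k≤i<l} r d_i ≥ r (l - k) d - 2 N r η'`. With
`|d - D| ≤ η'`: `|rho p_k p_l - D r (l-k)| ≤ 3 N r η' = 48 a η'`. For general integers `i, i'` in the window replace them by the
nearest multiples (from below) of `r`: changes `rho` by `≤ 2 (K r + K) ≤ 4 K r` and `D |i - i'|` by `≤ 2 K * 2 r` (`D ≤ 2 K`, from the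
Lipschitz bound); `8 K r = 8 K a / N1 ≤ η a / 20`. The speed is `c = D`, `0 ≤ D ≤ (K N r + K)/(N r) ≤ 2K`.

`diff_abs`. `N1 = ⌈200 K/η⌉₊ + 1`, `N = 16 N1`, `r_0 = m0 + 1`, `r_{m+1} = N r_m`, `a_m = N1 r_m`, `m < M`, `M ≥ 8 K^2 * 40000 / η^3 + 1`
(`= 8K²/(η η'^2)`), `R` = the set of the `a_m`, `B = r_M` (bigger than all), `n0` with `n0 ≥ (M + 4) * B`... Let `A_r(i) = (rho (p i) (p (i+r)) / r)^2 ≤ (2K)^2` (for `r ≥ 1`).
For each `ω` and `m`, over the index interval `I = [-B, n + B)`: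
`Σ_{i∈I} (1/N) Σ_{k<N} A_{r_m}(i + k r_m) ≤ Σ_{i∈I} A_{r_m}(i) + N r_m (2K)^2` (shifting the interval by `k r_m ≤ N r_m` changes the sum by at most `k r_m` terms), so
`Σ_{i∈I} Sv_m(i) ≤ Σ_I A_{r_m} - Σ_I A_{r_{m+1}} + r_{m+1} (2K)^2` and `Σ_{m<M} Σ_{i∈I} Sv_m(i) ≤ (n + 2B) (2K)^2 + M B (2K)^2 ≤ 8 K^2 n` for
`n ≥ n0 := (M + 2) B`. As `Sv ≥ 0` and `j - 8 a_m ∈ I` for `0 ≤ j < n`: `Σ_m Σ_{j<n} ∫ Sv_m(j - 8 a_m) dμ ≤ 8 K^2 n μ(Ω)`, so for some `m < M`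
`Σ_{j<n} ∫ Sv_m(j - 8 a_m) ≤ 8 K^2 n μ(Ω)/M ≤ η η'^2 n μ(Ω)`. Markov (`mul_meas_ge_le_lintegral`) for each `j`, with `good_of_var` (window of half
length `8 a_m` around `j` = `[j - 8 a_m, j - 8 a_m + N r_m]`). Work with `lintegral` of `ENNReal.ofReal (Sv ..)` (measurable by hypothesis).
-/

set_option autoImplicit false

namespace Pool.Agent.FIB

open UpperHalfPlane MeasureTheory

/-- The variance functional. -/
noncomputable def Sv (p : ℤ → ℍ) (N r : ℕ) (j : ℤ) : ℝ :=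
  (∑ k ∈ Finset.range N, (rho (p (j + k * r)) (p (j + (k + 1) * r)) / r) ^ 2) / N -
    (rho (p j) (p (j + N * r)) / (N * r)) ^ 2

private theorem ad_chain (q : ℕ → ℍ) {k l : ℕ} (h : k ≤ l) :
    rho (q k) (q l) ≤ ∑ i ∈ Finset.Ico k l, rho (q i) (q (i + 1)) := by
  induction l, h using Nat.le_induction with
  | base => simp [rho_self]
  | succ l hl ih =>
    rw [Finset.sum_Ico_succ_top hl]
    exact (rho_triangle _ (q l) _).trans (by linarith)

/-- the form of `Sv` along the points `q k` -/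
private theorem ad_Sv (p : ℤ → ℍ) (N r : ℕ) (j : ℤ) (q : ℕ → ℍ)
    (hq : ∀ k, q k = p (j + k * r)) :
    Sv p N r j = (∑ k ∈ Finset.range N, (rho (q k) (q (k + 1)) / r) ^ 2) / N -
      (rho (q 0) (q N) / (N * r)) ^ 2 := by
  have h0 : q 0 = p j := by rw [hq]; simp
  have h1 : q N = p (j + N * r) := hq N
  have h2 : ∀ k : ℕ, q (k + 1) = p (j + (k + 1) * r) := fun k => by
    rw [hq]
    push_cast
    rfl
  unfold Sv
  rw [h0, h1]
  simp only [h2, hq]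

private theorem ad_mean (p : ℕ → ℍ) (N r : ℕ) (hN : 1 ≤ N) (hr : 1 ≤ r) :
    rho (p 0) (p N) / (N * r) ≤
      (∑ k ∈ Finset.range N, rho (p k) (p (k + 1)) / r) / N := by
  have h1 := ad_chain p (Nat.zero_le N)
  rw [← Finset.range_eq_Ico] at h1
  rw [← Finset.sum_div, div_div, mul_comm (r : ℝ)]
  exact div_le_div_of_nonneg_right h1 (by positivity)

private theorem ad_cs (N : ℕ) (hN : 1 ≤ N) (d : ℕ → ℝ) :
    ((∑ k ∈ Finset.range N, d k) / N) ^ 2 ≤ (∑ k ∈ Finset.range N, d k ^ 2) / N := by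
  have hN' : (0 : ℝ) < N := by exact_mod_cast hN
  have h1 := sq_sum_le_card_mul_sum_sq (s := Finset.range N) (f := d)
  rw [Finset.card_range] at h1
  rw [div_pow, div_le_div_iff₀ (by positivity) hN']
  calc (∑ k ∈ Finset.range N, d k) ^ 2 * N ≤ (N * ∑ k ∈ Finset.range N, d k ^ 2) * N :=
        mul_le_mul_of_nonneg_right h1 hN'.le
    _ = (∑ k ∈ Finset.range N, d k ^ 2) * N ^ 2 := by ring

theorem Sv_nonneg (p : ℤ → ℍ) (N r : ℕ) (hN : 1 ≤ N) (hr : 1 ≤ r) (j : ℤ) : 0 ≤ Sv p N r j := by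
  obtain ⟨q, hq⟩ : ∃ q : ℕ → ℍ, ∀ k, q k = p (j + k * r) := ⟨_, fun _ => rfl⟩
  rw [ad_Sv p N r j q hq]
  have h1 := ad_mean q N r hN hr
  have h2 := ad_cs N hN fun k => rho (q k) (q (k + 1)) / r
  have h3 : 0 ≤ rho (q 0) (q N) / (N * r) := div_nonneg (rho_nonneg _ _) (by positivity)
  have h4 : (rho (q 0) (q N) / (N * r)) ^ 2 ≤
      ((∑ k ∈ Finset.range N, rho (q k) (q (k + 1)) / r) / N) ^ 2 := pow_le_pow_left₀ h3 h1 2
  linarith

/-- the variance lemma -/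
private theorem ad_var (N : ℕ) (hN : 1 ≤ N) (d : ℕ → ℝ) (D m ε : ℝ) (hε : 0 ≤ ε)
    (hm : m = (∑ k ∈ Finset.range N, d k) / N) (hD : 0 ≤ D) (hDm : D ≤ m)
    (h : (∑ k ∈ Finset.range N, d k ^ 2) / N - D ^ 2 ≤ ε ^ 2) :
    m - D ≤ ε ∧ ∀ I ⊆ Finset.range N, |∑ i ∈ I, (d i - m)| ≤ N * ε := by
  have hN' : (0 : ℝ) < N := by exact_mod_cast hN
  have h1 : ∑ k ∈ Finset.range N, d k = N * m := by
    rw [hm]
    field_simp
  have h2 : ∑ k ∈ Finset.range N, (d k - m) ^ 2 =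
      (∑ k ∈ Finset.range N, d k ^ 2) - N * m ^ 2 := by
    have e : ∀ k ∈ Finset.range N, (d k - m) ^ 2 = d k ^ 2 - 2 * m * d k + m ^ 2 := fun k _ => by
      ring
    rw [Finset.sum_congr rfl e, Finset.sum_add_distrib, Finset.sum_sub_distrib, ← Finset.mul_sum,
      h1, Finset.sum_const, Finset.card_range, nsmul_eq_mul]
    ring
  have h3 : (∑ k ∈ Finset.range N, d k ^ 2) ≤ N * (ε ^ 2 + D ^ 2) := by
    have h4 : (∑ k ∈ Finset.range N, d k ^ 2) / N ≤ ε ^ 2 + D ^ 2 := by linarith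
    rw [div_le_iff₀ hN'] at h4
    linarith
  have h5 : 0 ≤ ∑ k ∈ Finset.range N, (d k - m) ^ 2 := Finset.sum_nonneg fun k _ => sq_nonneg _
  have h6 : N * m ^ 2 ≤ N * (ε ^ 2 + D ^ 2) := by linarith
  have h7 : m ^ 2 ≤ ε ^ 2 + D ^ 2 := le_of_mul_le_mul_left h6 hN'
  have h8 : (m - D) ^ 2 ≤ ε ^ 2 := by nlinarith [mul_nonneg hD (sub_nonneg.2 hDm)]
  have h9 : D ^ 2 ≤ m ^ 2 := pow_le_pow_left₀ hD hDm 2
  have h10 : ∑ k ∈ Finset.range N, (d k - m) ^ 2 ≤ N * ε ^ 2 := by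
    have : (N : ℝ) * D ^ 2 ≤ N * m ^ 2 := mul_le_mul_of_nonneg_left h9 hN'.le
    linarith
  refine ⟨(le_abs_self _).trans (abs_le_of_sq_le_sq h8 hε), fun I hI => ?_⟩
  refine abs_le_of_sq_le_sq ?_ (by positivity)
  have h11 := sq_sum_le_card_mul_sum_sq (s := I) (f := fun i => d i - m)
  have h12 : (I.card : ℝ) ≤ N := by
    have := Finset.card_le_card hI
    rw [Finset.card_range] at this
    exact_mod_cast this
  have h13 : ∑ i ∈ I, (d i - m) ^ 2 ≤ N * ε ^ 2 :=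
    (Finset.sum_le_sum_of_subset_of_nonneg hI fun _ _ _ => sq_nonneg _).trans h10
  calc (∑ i ∈ I, (d i - m)) ^ 2 ≤ I.card * ∑ i ∈ I, (d i - m) ^ 2 := h11
    _ ≤ N * (N * ε ^ 2) := mul_le_mul h12 h13 (Finset.sum_nonneg fun k _ => sq_nonneg _) hN'.le
    _ = (N * ε) ^ 2 := by ring

/-- the estimate at the multiples of `r` -/
private theorem ad_mult (q : ℕ → ℍ) (N r : ℕ) (hN : 1 ≤ N) (hr : 1 ≤ r) (ε D : ℝ) (hε : 0 ≤ ε)
    (hD : D = rho (q 0) (q N) / (N * r))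
    (h : (∑ k ∈ Finset.range N, (rho (q k) (q (k + 1)) / r) ^ 2) / N - D ^ 2 ≤ ε ^ 2)
    {k l : ℕ} (hkl : k ≤ l) (hl : l ≤ N) :
    |rho (q k) (q l) - D * (r * ((l : ℝ) - k))| ≤ 3 * (N * r * ε) := by
  have hN' : (0 : ℝ) < N := by exact_mod_cast hN
  have hr' : (0 : ℝ) < r := by exact_mod_cast hr
  obtain ⟨d, hd⟩ : ∃ d : ℕ → ℝ, ∀ k, d k = rho (q k) (q (k + 1)) / r := ⟨_, fun _ => rfl⟩
  obtain ⟨m, hm⟩ : ∃ m, m = (∑ k ∈ Finset.range N, d k) / N := ⟨_, rfl⟩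
  have hDm : D ≤ m := by
    rw [hD, hm]
    simp only [hd]
    exact ad_mean q N r hN hr
  have hD0 : 0 ≤ D := by
    rw [hD]
    exact div_nonneg (rho_nonneg _ _) (by positivity)
  obtain ⟨h1, h2⟩ := ad_var N hN d D m ε hε hm hD0 hDm (by simp only [hd]; exact h)
  have hrd : ∀ i, rho (q i) (q (i + 1)) = r * d i := fun i => by
    rw [hd]
    field_simp
  -- sums over intervals
  have h3 : ∀ a b : ℕ, a ≤ b → ∑ i ∈ Finset.Ico a b, rho (q i) (q (i + 1)) =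
      r * (((b : ℝ) - a) * m) + r * ∑ i ∈ Finset.Ico a b, (d i - m) := by
    intro a b hab
    rw [Finset.sum_congr rfl fun i _ => hrd i, ← Finset.mul_sum, Finset.sum_sub_distrib,
      Finset.sum_const, Nat.card_Ico, nsmul_eq_mul, Nat.cast_sub hab]
    ring
  have h4 : ∀ a b : ℕ, b ≤ N → |∑ i ∈ Finset.Ico a b, (d i - m)| ≤ N * ε := by
    intro a b hb
    refine h2 _ fun i hi => ?_
    rw [Finset.mem_Ico] at hi
    exact Finset.mem_range.2 (lt_of_lt_of_le hi.2 hb)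
  have h5 := abs_le.1 (h4 k l hl)
  have h6 : rho (q k) (q l) ≤ r * (((l : ℝ) - k) * m) + r * (N * ε) := by
    have h7 := ad_chain q hkl
    rw [h3 k l hkl] at h7
    have h8 := mul_le_mul_of_nonneg_left h5.2 hr'.le
    linarith
  have h7 : r * (((l : ℝ) - k) * m) - 2 * (r * (N * ε)) ≤ rho (q k) (q l) := by
    have h8 : rho (q 0) (q N) ≤ rho (q 0) (q k) + rho (q k) (q l) + rho (q l) (q N) :=
      (rho_triangle _ (q l) _).trans (by linarith [rho_triangle (q 0) (q k) (q l)])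
    have h9 := ad_chain q (Nat.zero_le k)
    have h10 := ad_chain q hl
    have h11 := Finset.sum_Ico_consecutive (fun i => rho (q i) (q (i + 1))) (Nat.zero_le k) hkl
    have h12 := Finset.sum_Ico_consecutive (fun i => rho (q i) (q (i + 1))) (Nat.zero_le l) hl
    have h13 := h3 k l hkl
    have h14 := h3 0 N (Nat.zero_le N)
    have h15 : ∑ i ∈ Finset.Ico 0 N, (d i - m) = 0 := by
      rw [← Finset.range_eq_Ico, Finset.sum_sub_distrib, Finset.sum_const, Finset.card_range,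
        nsmul_eq_mul, hm]
      field_simp
      ring
    rw [h15] at h14
    have h16 : rho (q 0) (q N) = N * r * D := by
      rw [hD]
      field_simp
    have h17 := mul_le_mul_of_nonneg_left h5.1 hr'.le
    have h18 : N * r * m ≤ N * r * D + N * r * ε := by
      have := mul_le_mul_of_nonneg_left h1 (by positivity : (0 : ℝ) ≤ N * r)
      linarith
    have h19 : (r : ℝ) * (((N : ℝ) - (0 : ℕ)) * m) = N * r * m := by
      push_cast
      ring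
    rw [h19] at h14
    nlinarith
  have hkl' : (0 : ℝ) ≤ (l : ℝ) - k := by
    have : (k : ℝ) ≤ l := by exact_mod_cast hkl
    linarith
  have hlN : (l : ℝ) - k ≤ N := by
    have : (l : ℝ) ≤ N := by exact_mod_cast hl
    have : (0 : ℝ) ≤ k := Nat.cast_nonneg k
    linarith
  have h8 : 0 ≤ r * (((l : ℝ) - k) * (m - D)) := by
    have : 0 ≤ m - D := by linarith
    positivity
  have h9 : r * (((l : ℝ) - k) * (m - D)) ≤ r * (N * ε) :=
    mul_le_mul_of_nonneg_left (mul_le_mul hlN h1 (by linarith) hN'.le) hr'.le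
  have h10 : 0 ≤ (r : ℝ) * (N * ε) := by positivity
  rw [abs_le]
  constructor <;> nlinarith

theorem good_of_var (K η : ℝ) (hK : 1 ≤ K) (hη : 0 < η) (hη1 : η ≤ 1) (N1 r : ℕ)
    (hN1 : 200 * K / η ≤ N1) (hr : 1 ≤ r) (p : ℤ → ℍ)
    (hl : ∀ i j : ℤ, rho (p i) (p j) ≤ K * |(i : ℝ) - j| + K) (j : ℤ)
    (h : Sv p (16 * N1) r (j - 8 * (N1 * r : ℕ)) ≤ (η / 200) ^ 2) :
    ∃ c : ℝ, 0 ≤ c ∧ c ≤ 2 * K ∧ ∀ i i' : ℤ, |i| ≤ 8 * (N1 * r : ℕ) → |i'| ≤ 8 * (N1 * r : ℕ) →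
      abs (rho (p (j + i)) (p (j + i')) - c * |(i : ℝ) - i'|) ≤ η * (N1 * r : ℕ) := by
  have hK0 : (0 : ℝ) < K := by linarith
  have hN1' : K ≤ N1 * η / 200 := by
    rw [div_le_iff₀ hη] at hN1
    linarith
  have hN1pos : (0 : ℝ) < N1 := lt_of_lt_of_le (by positivity) hN1
  have hN1n : 1 ≤ N1 := by exact_mod_cast hN1pos
  have hr' : (0 : ℝ) < r := by exact_mod_cast hr
  have hr1 : (1 : ℝ) ≤ r := by exact_mod_cast hr
  obtain ⟨a, ha⟩ : ∃ a : ℕ, a = N1 * r := ⟨_, rfl⟩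
  rw [← ha] at h ⊢
  obtain ⟨j0, hj0⟩ : ∃ j0 : ℤ, j0 = j - 8 * (a : ℤ) := ⟨_, rfl⟩
  rw [← hj0] at h
  obtain ⟨q, hq⟩ : ∃ q : ℕ → ℍ, ∀ k, q k = p (j0 + k * r) := ⟨_, fun _ => rfl⟩
  rw [ad_Sv p (16 * N1) r j0 q hq] at h
  obtain ⟨N, hN⟩ : ∃ N : ℕ, N = 16 * N1 := ⟨_, rfl⟩
  rw [← hN] at h
  have hNn : 1 ≤ N := by omega
  have hN' : (1 : ℝ) ≤ N := by exact_mod_cast hNn
  have hNR : (N : ℝ) = 16 * N1 := by rw [hN]; push_cast; ring
  have haR : (a : ℝ) = N1 * r := by rw [ha]; push_cast; ring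
  have haZ : (a : ℤ) = N1 * r := by rw [ha]; push_cast; ring
  obtain ⟨D, hD⟩ : ∃ D, D = rho (q 0) (q N) / (N * r) := ⟨_, rfl⟩
  rw [← hD] at h
  have hD0 : 0 ≤ D := by
    rw [hD]
    exact div_nonneg (rho_nonneg _ _) (by positivity)
  have hD2 : D ≤ 2 * K := by
    have h1 := hl (j0 + (0 : ℕ) * r) (j0 + N * r)
    rw [← hq, ← hq] at h1
    push_cast at h1
    have h2 : |((j0 : ℝ) + 0 * r) - (j0 + N * r)| = N * r := by
      rw [show ((j0 : ℝ) + 0 * r) - (j0 + N * r) = -(N * r) by ring, abs_neg,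
        abs_of_nonneg (by positivity)]
    rw [h2] at h1
    have h3 : (1 : ℝ) ≤ N * r := one_le_mul_of_one_le_of_one_le hN' hr1
    rw [hD, div_le_iff₀ (by positivity)]
    have h4 : K * 1 ≤ K * (N * r) := mul_le_mul_of_nonneg_left h3 hK0.le
    linarith
  have hmult : ∀ k l : ℕ, k ≤ N → l ≤ N →
      |rho (q k) (q l) - D * (r * |(k : ℝ) - l|)| ≤ 3 * (N * r * (η / 200)) := by
    intro k l hk hl'
    rcases le_total k l with hkl | hkl
    · have h1 := ad_mult q N r hNn hr (η / 200) D (by positivity) hD h hkl hl'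
      have h2 : (k : ℝ) ≤ l := by exact_mod_cast hkl
      rw [abs_sub_comm (k : ℝ), abs_of_nonneg (sub_nonneg.2 h2)]
      exact h1
    · have h1 := ad_mult q N r hNn hr (η / 200) D (by positivity) hD h hkl hk
      have h2 : (l : ℝ) ≤ k := by exact_mod_cast hkl
      rw [rho_comm (q k), abs_of_nonneg (sub_nonneg.2 h2)]
      exact h1
  have hnear : ∀ i : ℤ, |i| ≤ 8 * (a : ℤ) → ∃ k s : ℕ, k ≤ N ∧ s < r ∧
      (i : ℝ) = k * r + s - 8 * a ∧ rho (p (j + i)) (q k) ≤ K * r := by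
    intro i hi
    rw [abs_le] at hi
    obtain ⟨x, hx⟩ := Int.eq_ofNat_of_zero_le (show 0 ≤ i + 8 * (a : ℤ) by linarith)
    have hdm := Nat.div_add_mod x r
    have hxs : (x : ℤ) = r * (x / r : ℕ) + (x % r : ℕ) := by exact_mod_cast hdm.symm
    have hs : x % r < r := Nat.mod_lt _ (by omega)
    have hxle : x ≤ N * r := by
      have h1 : (x : ℤ) ≤ 16 * (N1 * r) := by rw [← hx, ← haZ]; linarith
      have h2 : (x : ℤ) ≤ ((N * r : ℕ) : ℤ) := by
        rw [hN]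
        push_cast
        linarith
      exact_mod_cast h2
    have hk : x / r ≤ N := Nat.div_le_of_le_mul (by rw [mul_comm]; exact hxle)
    refine ⟨x / r, x % r, hk, hs, ?_, ?_⟩
    · have h1 : i = (x / r : ℕ) * r + (x % r : ℕ) - 8 * a := by
        have : i = x - 8 * (a : ℤ) := by linarith
        rw [this, hxs]
        ring
      exact_mod_cast congrArg (Int.cast : ℤ → ℝ) h1
    · rw [hq]
      have h1 := hl (j + i) (j0 + (x / r : ℕ) * r)
      have h2 : (((j + i : ℤ) : ℝ) - ((j0 + (x / r : ℕ) * r : ℤ) : ℝ)) = ((x % r : ℕ) : ℝ) := by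
        have h3 : (j + i : ℤ) - (j0 + (x / r : ℕ) * r : ℤ) = ((x % r : ℕ) : ℤ) := by
          rw [hj0]
          have : i = x - 8 * (a : ℤ) := by linarith
          rw [this, hxs]
          ring
        rw [← Int.cast_sub, h3]
        exact Int.cast_natCast _
      rw [h2, abs_of_nonneg (Nat.cast_nonneg _)] at h1
      have h3 : ((x % r : ℕ) : ℝ) + 1 ≤ r := by exact_mod_cast hs
      have h4 := mul_le_mul_of_nonneg_left h3 hK0.le
      linarith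
  refine ⟨D, hD0, hD2, fun i i' hi hi' => ?_⟩
  obtain ⟨k, s, hk, hs, hik, h1⟩ := hnear i hi
  obtain ⟨k', s', hk', hs', hik', h1'⟩ := hnear i' hi'
  have h2 := hmult k k' hk hk'
  have h3 : rho (p (j + i)) (p (j + i')) ≤ rho (q k) (q k') + 2 * (K * r) := by
    have e1 := rho_triangle (p (j + i)) (q k) (p (j + i'))
    have e2 := rho_triangle (q k) (q k') (p (j + i'))
    rw [rho_comm (q k') (p (j + i'))] at e2
    linarith
  have h4 : rho (q k) (q k') ≤ rho (p (j + i)) (p (j + i')) + 2 * (K * r) := by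
    have e1 := rho_triangle (q k) (p (j + i)) (q k')
    have e2 := rho_triangle (p (j + i)) (p (j + i')) (q k')
    rw [rho_comm (q k) (p (j + i))] at e1
    linarith
  have hsR : (s : ℝ) < r := by exact_mod_cast hs
  have hsR' : (s' : ℝ) < r := by exact_mod_cast hs'
  have hs0 : (0 : ℝ) ≤ s := Nat.cast_nonneg s
  have hs0' : (0 : ℝ) ≤ s' := Nat.cast_nonneg s'
  have h5 : |(i : ℝ) - i'| ≤ r * |(k : ℝ) - k'| + r := by
    rw [hik, hik', show (k : ℝ) * r + s - 8 * a - (k' * r + s' - 8 * a) =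
      r * ((k : ℝ) - k') + (s - s') by ring]
    refine (abs_add_le _ _).trans ?_
    rw [abs_mul, abs_of_pos hr']
    have : |(s : ℝ) - s'| ≤ r := by
      rw [abs_le]
      constructor <;> linarith
    linarith
  have h6 : r * |(k : ℝ) - k'| ≤ |(i : ℝ) - i'| + r := by
    have e1 : (r : ℝ) * |(k : ℝ) - k'| = |((i : ℝ) - i') - (s - s')| := by
      rw [hik, hik', show (k : ℝ) * r + s - 8 * a - (k' * r + s' - 8 * a) - (s - s') =
        r * ((k : ℝ) - k') by ring, abs_mul, abs_of_pos hr']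
    rw [e1]
    refine (abs_sub _ _).trans ?_
    have : |(s : ℝ) - s'| ≤ r := by
      rw [abs_le]
      constructor <;> linarith
    linarith
  have h7 := mul_le_mul_of_nonneg_left h5 hD0
  have h8 := mul_le_mul_of_nonneg_left h6 hD0
  have h9 : D * r ≤ 2 * K * r := mul_le_mul_of_nonneg_right hD2 hr'.le
  have h10 : K * r ≤ N1 * η / 200 * r := mul_le_mul_of_nonneg_right hN1' hr'.le
  have h11 : 3 * (N * r * (η / 200)) = 48 / 200 * (η * (N1 * r)) := by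
    rw [hNR]
    ring
  have h12 : (N1 : ℝ) * η / 200 * r = 1 / 200 * (η * (N1 * r)) := by ring
  rw [h11] at h2
  rw [h12] at h10
  have h13 : (0 : ℝ) ≤ η * (N1 * r) := by positivity
  rw [haR, abs_le]
  rw [abs_le] at h2
  constructor <;> nlinarith

/-- shift by one -/
private theorem ad_shift1 (f : ℤ → ℝ) (C : ℝ) (h0 : ∀ i, 0 ≤ f i) (hC : ∀ i, f i ≤ C) (n : ℕ)
    (x : ℤ) :
    |∑ j ∈ Finset.range n, f (x + 1 + j) - ∑ j ∈ Finset.range n, f (x + j)| ≤ C := by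
  have h1 := Finset.sum_range_succ' (fun j : ℕ => f (x + j)) n
  have h2 := Finset.sum_range_succ (fun j : ℕ => f (x + j)) n
  have h3 : ∑ j ∈ Finset.range n, f (x + ((j + 1 : ℕ) : ℤ)) =
      ∑ j ∈ Finset.range n, f (x + 1 + j) := by
    refine Finset.sum_congr rfl fun j _ => ?_
    congr 1
    push_cast
    ring
  rw [h3] at h1
  have h4 := h0 (x + (0 : ℕ))
  have h5 := hC (x + (0 : ℕ))
  have h6 := h0 (x + n)
  have h7 := hC (x + n)
  rw [abs_le]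
  constructor <;> linarith

private theorem ad_shift (f : ℤ → ℝ) (C : ℝ) (h0 : ∀ i, 0 ≤ f i) (hC : ∀ i, f i ≤ C) (n : ℕ)
    (x : ℤ) (h : ℕ) :
    |∑ j ∈ Finset.range n, f (x + h + j) - ∑ j ∈ Finset.range n, f (x + j)| ≤ h * C := by
  induction h with
  | zero => simp
  | succ h ih =>
    have h1 := ad_shift1 f C h0 hC n (x + h)
    have e : x + ((h + 1 : ℕ) : ℤ) = x + h + 1 := by
      push_cast
      ring
    rw [e]
    have h2 := abs_sub_le (∑ j ∈ Finset.range n, f (x + h + 1 + j))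
      (∑ j ∈ Finset.range n, f (x + h + j)) (∑ j ∈ Finset.range n, f (x + j))
    push_cast
    linarith

private theorem ad_shift' (f : ℤ → ℝ) (C : ℝ) (h0 : ∀ i, 0 ≤ f i) (hC : ∀ i, f i ≤ C) (n : ℕ)
    (x y : ℤ) :
    |∑ j ∈ Finset.range n, f (x + j) - ∑ j ∈ Finset.range n, f (y + j)| ≤ |(x : ℝ) - y| * C := by
  rcases le_total x y with hxy | hxy
  · obtain ⟨h, hh⟩ := Int.eq_ofNat_of_zero_le (sub_nonneg.2 hxy)
    have e : y = x + h := by linarith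
    rw [e, abs_sub_comm]
    refine (ad_shift f C h0 hC n x h).trans (le_of_eq ?_)
    push_cast
    rw [show (x : ℝ) - (x + h) = -h by ring, abs_neg, abs_of_nonneg (Nat.cast_nonneg h)]
  · obtain ⟨h, hh⟩ := Int.eq_ofNat_of_zero_le (sub_nonneg.2 hxy)
    have e : x = y + h := by linarith
    rw [e]
    refine (ad_shift f C h0 hC n y h).trans (le_of_eq ?_)
    push_cast
    rw [show (y : ℝ) + h - y = h by ring, abs_of_nonneg (Nat.cast_nonneg h)]

/-- the squared speeds -/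
private noncomputable def AA (p : ℤ → ℍ) (r : ℕ) (i : ℤ) : ℝ := (rho (p i) (p (i + r)) / r) ^ 2

private theorem AA_nonneg (p : ℤ → ℍ) (r : ℕ) (i : ℤ) : 0 ≤ AA p r i := sq_nonneg _

private theorem AA_le {K : ℝ} (hK : 1 ≤ K) {p : ℤ → ℍ}
    (hl : ∀ i j : ℤ, rho (p i) (p j) ≤ K * |(i : ℝ) - j| + K) {r : ℕ} (hr : 1 ≤ r) (i : ℤ) :
    AA p r i ≤ 4 * K ^ 2 := by
  have hr' : (1 : ℝ) ≤ r := by exact_mod_cast hr
  have h1 := hl i (i + r)
  have h2 : |(i : ℝ) - ((i + r : ℤ) : ℝ)| = r := by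
    push_cast
    rw [show (i : ℝ) - (i + r) = -r by ring, abs_neg, abs_of_nonneg (by linarith)]
  rw [h2] at h1
  have h3 : rho (p i) (p (i + r)) / r ≤ 2 * K := by
    rw [div_le_iff₀ (by linarith)]
    have : K * 1 ≤ K * r := mul_le_mul_of_nonneg_left hr' (by linarith)
    linarith
  have h4 : 0 ≤ rho (p i) (p (i + r)) / r := div_nonneg (rho_nonneg _ _) (by linarith)
  unfold AA
  calc (rho (p i) (p (i + r)) / r) ^ 2 ≤ (2 * K) ^ 2 := pow_le_pow_left₀ h4 h3 2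
    _ = 4 * K ^ 2 := by ring

private theorem Sv_eq (p : ℤ → ℍ) (N r : ℕ) (j : ℤ) :
    Sv p N r j = (∑ k ∈ Finset.range N, AA p r (j + k * r)) / N - AA p (N * r) j := by
  unfold Sv AA
  congr 1
  · congr 1
    refine Finset.sum_congr rfl fun k _ => ?_
    rw [show j + ((k : ℤ) + 1) * r = j + k * r + r by ring]
  · push_cast
    rfl

private theorem ad_step {K : ℝ} (hK : 1 ≤ K) {p : ℤ → ℍ}
    (hl : ∀ i j : ℤ, rho (p i) (p j) ≤ K * |(i : ℝ) - j| + K) {N1 r : ℕ} (hN1 : 1 ≤ N1)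
    (hr : 1 ≤ r) (n : ℕ) :
    ∑ j ∈ Finset.range n, Sv p (16 * N1) r ((j : ℤ) - 8 * (N1 * r : ℕ)) ≤
      ∑ j ∈ Finset.range n, AA p r (0 + j) - ∑ j ∈ Finset.range n, AA p (16 * N1 * r) (0 + j) +
        (16 * (N1 * r : ℕ)) * (4 * K ^ 2) := by
  obtain ⟨a, ha⟩ : ∃ a : ℕ, a = N1 * r := ⟨_, rfl⟩
  rw [← ha]
  have haR : (a : ℝ) = N1 * r := by rw [ha]; push_cast; ring
  have hN1' : (1 : ℝ) ≤ N1 := by exact_mod_cast hN1
  have hr' : (1 : ℝ) ≤ r := by exact_mod_cast hr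
  have hNr : 1 ≤ 16 * N1 * r := Nat.one_le_iff_ne_zero.2 (by positivity)
  have e1 : ∑ j ∈ Finset.range n, Sv p (16 * N1) r ((j : ℤ) - 8 * a) =
      (∑ k ∈ Finset.range (16 * N1), ∑ j ∈ Finset.range n, AA p r ((-8 * a + k * r : ℤ) + j)) /
        (16 * N1 : ℕ) - ∑ j ∈ Finset.range n, AA p (16 * N1 * r) ((-8 * a : ℤ) + j) := by
    rw [Finset.sum_comm, Finset.sum_div, ← Finset.sum_sub_distrib]
    refine Finset.sum_congr rfl fun j _ => ?_
    rw [Sv_eq]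
    congr 1
    · congr 1
      refine Finset.sum_congr rfl fun k _ => ?_
      congr 1
      ring
    · congr 1
      ring
  rw [e1]
  have h1 : ∀ k ∈ Finset.range (16 * N1), ∑ j ∈ Finset.range n, AA p r ((-8 * a + k * r : ℤ) + j) ≤
      ∑ j ∈ Finset.range n, AA p r (0 + j) + 8 * a * (4 * K ^ 2) := by
    intro k hk
    have h2 := ad_shift' (AA p r) (4 * K ^ 2) (AA_nonneg p r) (AA_le hK hl hr) n
      (-8 * a + k * r : ℤ) 0
    have h3 : |((-8 * a + k * r : ℤ) : ℝ) - ((0 : ℤ) : ℝ)| ≤ 8 * a := by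
      have hk' : (k : ℝ) ≤ 16 * N1 := by exact_mod_cast (Finset.mem_range.1 hk).le
      have h4 : (k : ℝ) * r ≤ 16 * N1 * r := mul_le_mul_of_nonneg_right hk' (by linarith)
      have h5 : (0 : ℝ) ≤ (k : ℝ) * r := by positivity
      push_cast
      rw [haR, abs_le]
      constructor <;> linarith
    have h4 := mul_le_mul_of_nonneg_right h3 (by positivity : (0 : ℝ) ≤ 4 * K ^ 2)
    have h5 := (abs_le.1 h2).2
    linarith
  have h2 : (∑ k ∈ Finset.range (16 * N1), ∑ j ∈ Finset.range n,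
      AA p r ((-8 * a + k * r : ℤ) + j)) / (16 * N1 : ℕ) ≤
      ∑ j ∈ Finset.range n, AA p r (0 + j) + 8 * a * (4 * K ^ 2) := by
    rw [div_le_iff₀ (by push_cast; positivity)]
    refine (Finset.sum_le_sum h1).trans (le_of_eq ?_)
    rw [Finset.sum_const, Finset.card_range, nsmul_eq_mul]
    ring
  have h3 := ad_shift' (AA p (16 * N1 * r)) (4 * K ^ 2) (AA_nonneg p _) (AA_le hK hl hNr) n
    (-8 * a : ℤ) 0
  have h4 : |((-8 * a : ℤ) : ℝ) - ((0 : ℤ) : ℝ)| = 8 * a := by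
    push_cast
    rw [show (-8 : ℝ) * a - 0 = -(8 * a) by ring, abs_neg, abs_of_nonneg (by positivity)]
  rw [h4] at h3
  have h5 := (abs_le.1 h3).1
  linarith

/-- the telescoping sum -/
private theorem ad_tele {K : ℝ} (hK : 1 ≤ K) {p : ℤ → ℍ}
    (hl : ∀ i j : ℤ, rho (p i) (p j) ≤ K * |(i : ℝ) - j| + K) {N1 : ℕ} (hN1 : 1 ≤ N1)
    {r : ℕ → ℕ} (hr : ∀ m, 1 ≤ r m) (hrs : ∀ m, r (m + 1) = 16 * N1 * r m) (M n : ℕ)
    (hn : 16 * ∑ m ∈ Finset.range M, N1 * r m ≤ n) :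
    ∑ m ∈ Finset.range M, ∑ j ∈ Finset.range n,
      Sv p (16 * N1) (r m) ((j : ℤ) - 8 * (N1 * r m : ℕ)) ≤ 8 * K ^ 2 * n := by
  have h1 : ∀ m ∈ Finset.range M, ∑ j ∈ Finset.range n,
      Sv p (16 * N1) (r m) ((j : ℤ) - 8 * (N1 * r m : ℕ)) ≤
      (∑ j ∈ Finset.range n, AA p (r m) (0 + j) -
        ∑ j ∈ Finset.range n, AA p (r (m + 1)) (0 + j)) +
        (16 * (N1 * r m : ℕ)) * (4 * K ^ 2) := by
    intro m _
    rw [hrs]
    exact ad_step hK hl hN1 (hr m) n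
  refine (Finset.sum_le_sum h1).trans ?_
  rw [Finset.sum_add_distrib,
    Finset.sum_range_sub' (fun m => ∑ j ∈ Finset.range n, AA p (r m) (0 + j)) M]
  have h2 : ∑ j ∈ Finset.range n, AA p (r 0) (0 + j) ≤ n * (4 * K ^ 2) := by
    have h3 : ∀ j ∈ Finset.range n, AA p (r 0) (0 + (j : ℤ)) ≤ 4 * K ^ 2 := fun j _ =>
      AA_le hK hl (hr 0) _
    refine (Finset.sum_le_sum h3).trans (le_of_eq ?_)
    rw [Finset.sum_const, Finset.card_range, nsmul_eq_mul]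
  have h3 : 0 ≤ ∑ j ∈ Finset.range n, AA p (r M) (0 + j) :=
    Finset.sum_nonneg fun j _ => AA_nonneg p _ _
  have h4 : ∑ m ∈ Finset.range M, (16 * ((N1 * r m : ℕ) : ℝ)) * (4 * K ^ 2) ≤ n * (4 * K ^ 2) := by
    rw [← Finset.sum_mul]
    refine mul_le_mul_of_nonneg_right ?_ (by positivity)
    rw [← Finset.mul_sum]
    exact_mod_cast hn
  linarith

theorem diff_abs (K η : ℝ) (hK : 1 ≤ K) (hη : 0 < η) (hη1 : η ≤ 1) (m0 : ℕ) :
    ∃ (R : Finset ℕ) (n0 : ℕ), (∀ a ∈ R, m0 ≤ a) ∧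
      ∀ (Ω : Type) [MeasurableSpace Ω] (μ : Measure Ω) [IsFiniteMeasure μ] (p : Ω → ℤ → ℍ),
        (∀ i j : ℤ, Measurable fun ω => rho (p ω i) (p ω j)) →
        (∀ (ω : Ω) (i j : ℤ), rho (p ω i) (p ω j) ≤ K * |(i : ℝ) - j| + K) →
        ∀ n : ℕ, n0 ≤ n → ∃ a ∈ R,
          ∑ j ∈ Finset.range n, μ {ω | ¬ ∃ c : ℝ, 0 ≤ c ∧ c ≤ 2 * K ∧ ∀ i i' : ℤ,
            |i| ≤ 8 * (a : ℤ) → |i'| ≤ 8 * (a : ℤ) →
            abs (rho (p ω ((j : ℤ) + i)) (p ω ((j : ℤ) + i')) - c * |(i : ℝ) - i'|) ≤ η * a} ≤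
            ENNReal.ofReal (η * n) * μ Set.univ := by
  obtain ⟨N1, hN1, hN1n⟩ : ∃ N1 : ℕ, 200 * K / η ≤ N1 ∧ 1 ≤ N1 :=
    ⟨⌈200 * K / η⌉₊ + 1, (Nat.le_ceil _).trans (by push_cast; linarith), by omega⟩
  obtain ⟨M, hM, hMn⟩ : ∃ M : ℕ, 8 * K ^ 2 * 40000 / η ^ 3 ≤ M ∧ 1 ≤ M :=
    ⟨⌈8 * K ^ 2 * 40000 / η ^ 3⌉₊ + 1, (Nat.le_ceil _).trans (by push_cast; linarith), by omega⟩
  obtain ⟨r, hr0⟩ : ∃ r : ℕ → ℕ, ∀ m, r m = (m0 + 1) * (16 * N1) ^ m := ⟨_, fun _ => rfl⟩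
  have hrs : ∀ m, r (m + 1) = 16 * N1 * r m := fun m => by
    rw [hr0, hr0, pow_succ]
    ring
  have hrm : ∀ m, m0 + 1 ≤ r m := fun m => by
    rw [hr0]
    exact Nat.le_mul_of_pos_right _ (Nat.pow_pos (by omega))
  have hr : ∀ m, 1 ≤ r m := fun m => (Nat.le_add_left 1 m0).trans (hrm m)
  refine ⟨(Finset.range M).image fun m => N1 * r m, 16 * ∑ m ∈ Finset.range M, N1 * r m, ?_, ?_⟩
  · intro a ha
    obtain ⟨m, -, rfl⟩ := Finset.mem_image.1 ha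
    exact (Nat.le_succ m0).trans ((hrm m).trans (Nat.le_mul_of_pos_left _ (by omega)))
  intro Ω _ μ _ p hmeas hl n hn
  by_contra hcon
  obtain ⟨bad, hbad⟩ : ∃ bad : ℕ → ℕ → Set Ω, ∀ m j, bad m j =
      {ω | ¬ ∃ c : ℝ, 0 ≤ c ∧ c ≤ 2 * K ∧ ∀ i i' : ℤ,
            |i| ≤ 8 * ((N1 * r m : ℕ) : ℤ) → |i'| ≤ 8 * ((N1 * r m : ℕ) : ℤ) →
            abs (rho (p ω ((j : ℤ) + i)) (p ω ((j : ℤ) + i')) - c * |(i : ℝ) - i'|) ≤
              η * (N1 * r m : ℕ)} := ⟨_, fun _ _ => rfl⟩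
  have hcon' : ∀ m ∈ Finset.range M, ENNReal.ofReal (η * n) * μ Set.univ <
      ∑ j ∈ Finset.range n, μ (bad m j) := by
    intro m hm
    rw [← not_le]
    intro h
    apply hcon
    refine ⟨N1 * r m, Finset.mem_image.2 ⟨m, hm, rfl⟩, ?_⟩
    simp only [hbad] at h
    exact h
  have hsum := ENNReal.sum_lt_sum_of_nonempty (Finset.nonempty_range_iff.2 (by omega)) hcon'
  rw [Finset.sum_const, Finset.card_range, nsmul_eq_mul] at hsum
  -- the functions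
  obtain ⟨F, hF⟩ : ∃ F : ℕ → ℕ → Ω → ENNReal, ∀ m j ω, F m j ω =
      ENNReal.ofReal (Sv (p ω) (16 * N1) (r m) ((j : ℤ) - 8 * (N1 * r m : ℕ))) :=
    ⟨_, fun _ _ _ => rfl⟩
  have hFm : ∀ m j, Measurable (F m j) := by
    intro m j
    have h1 : F m j = fun ω =>
        ENNReal.ofReal (Sv (p ω) (16 * N1) (r m) ((j : ℤ) - 8 * (N1 * r m : ℕ))) := by
      funext ω
      exact hF m j ω
    rw [h1]
    refine ENNReal.measurable_ofReal.comp ?_
    unfold Sv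
    exact ((Finset.measurable_sum _ fun k _ => ((hmeas _ _).div_const _).pow_const 2).div_const
      _).sub (((hmeas _ _).div_const _).pow_const 2)
  have hpt : ∀ ω, ∑ m ∈ Finset.range M, ∑ j ∈ Finset.range n, F m j ω ≤
      ENNReal.ofReal (8 * K ^ 2 * n) := by
    intro ω
    have h1 : ∑ m ∈ Finset.range M, ∑ j ∈ Finset.range n, F m j ω =
        ENNReal.ofReal (∑ m ∈ Finset.range M, ∑ j ∈ Finset.range n,
          Sv (p ω) (16 * N1) (r m) ((j : ℤ) - 8 * (N1 * r m : ℕ))) := by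
      rw [ENNReal.ofReal_sum_of_nonneg fun m _ => Finset.sum_nonneg fun j _ =>
        Sv_nonneg (p ω) (16 * N1) (r m) (by omega) (hr m) _]
      refine Finset.sum_congr rfl fun m _ => ?_
      rw [ENNReal.ofReal_sum_of_nonneg fun j _ =>
        Sv_nonneg (p ω) (16 * N1) (r m) (by omega) (hr m) _]
      exact Finset.sum_congr rfl fun j _ => hF m j ω
    rw [h1]
    exact ENNReal.ofReal_le_ofReal (ad_tele hK (hl ω) hN1n hr hrs M n hn)
  have hint : ∑ m ∈ Finset.range M, ∑ j ∈ Finset.range n, ∫⁻ ω, F m j ω ∂μ ≤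
      ENNReal.ofReal (8 * K ^ 2 * n) * μ Set.univ := by
    have h1 : ∑ m ∈ Finset.range M, ∑ j ∈ Finset.range n, ∫⁻ ω, F m j ω ∂μ =
        ∫⁻ ω, ∑ m ∈ Finset.range M, ∑ j ∈ Finset.range n, F m j ω ∂μ := by
      rw [lintegral_finsetSum _ fun m _ => Finset.measurable_sum _ fun j _ => hFm m j]
      refine Finset.sum_congr rfl fun m _ => ?_
      rw [lintegral_finsetSum _ fun j _ => hFm m j]
    rw [h1, ← lintegral_const]
    exact lintegral_mono hpt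
  have hmarkov : ∀ m j, ENNReal.ofReal ((η / 200) ^ 2) * μ (bad m j) ≤ ∫⁻ ω, F m j ω ∂μ := by
    intro m j
    refine le_trans ?_ (mul_meas_ge_le_lintegral (hFm m j) (ENNReal.ofReal ((η / 200) ^ 2)))
    refine mul_le_mul_right (measure_mono ?_) _
    intro ω hω
    rw [hbad] at hω
    show ENNReal.ofReal ((η / 200) ^ 2) ≤ F m j ω
    rw [hF]
    refine ENNReal.ofReal_le_ofReal ?_
    by_contra hlt
    exact hω (good_of_var K η hK hη hη1 N1 (r m) hN1 (hr m) (p ω) (hl ω) j (not_le.1 hlt).le)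
  have he0 : ENNReal.ofReal ((η / 200) ^ 2) ≠ 0 := by
    rw [ne_eq, ENNReal.ofReal_eq_zero, not_le]
    positivity
  have h1 : ENNReal.ofReal ((η / 200) ^ 2) *
      ∑ m ∈ Finset.range M, ∑ j ∈ Finset.range n, μ (bad m j) ≤
      ENNReal.ofReal (8 * K ^ 2 * n) * μ Set.univ := by
    rw [Finset.mul_sum]
    refine le_trans (Finset.sum_le_sum fun m _ => ?_) hint
    rw [Finset.mul_sum]
    exact Finset.sum_le_sum fun j _ => hmarkov m j
  have h2 : ENNReal.ofReal (8 * K ^ 2 * n) * μ Set.univ ≤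
      ENNReal.ofReal ((η / 200) ^ 2) * (M * (ENNReal.ofReal (η * n) * μ Set.univ)) := by
    rw [← mul_assoc, ← mul_assoc]
    refine mul_le_mul_left ?_ _
    rw [← ENNReal.ofReal_natCast M, ← ENNReal.ofReal_mul (by positivity),
      ← ENNReal.ofReal_mul (by positivity)]
    refine ENNReal.ofReal_le_ofReal ?_
    rw [div_le_iff₀ (by positivity)] at hM
    have h3 : (η / 200) ^ 2 * M * (η * n) = (M * η ^ 3 / 40000) * n := by ring
    rw [h3]
    refine mul_le_mul_of_nonneg_right ?_ (Nat.cast_nonneg n)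
    linarith
  have h3 := h1.trans h2
  rw [ENNReal.mul_le_mul_iff_right he0 ENNReal.ofReal_ne_top] at h3
  exact absurd hsum (not_lt.2 h3)

end Pool.Agent.FIB
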