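import Pool.Agent.FIB.Tree

/-!
# Increments along a path, and the growth lemma

`inc_sum`: `nm z (U n - U m) ≤ Σ nm z (U (k+1) - U k) ≤ Σ exp (rho z (p k)) nm (p k) (..)` (`nm_le`, `nm_add_le`;
induction on `n`).

`growth`. Write `W k = U k - U' k`, `y = p n`. `C1 ≪ C2 ≪ C` depend on `K` only; `log (4 n + 4) ≤ e` and
`K ≤ e` absorb all constants and the number of steps. In particular `nm (p' k) v ≤ A` gives
`nm (p k) v ≤ e^{e} A`.
0. Third claim: `W n = W 0 + Σ_{k<n} ((U (k+1) - U k) - (U' (k+1) - U' k))`, every term has norm `≤ e^{2K + e}` at `p k`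
   (for `U'`: norm `≤ e^{2K}` at `p' k`, `rho (p k) (p' k) ≤ e`), so `nm z (W n) ≤ (2 n + 1) e^{M + 2K + e} ≤ e^{M + 4 e}`. The same for `W m - W l`
   (sum over `l ≤ k < m`), and for `W m` with `m ≤ n`.
1. `l = ⌈C1 e⌉ ≤ n / 4`. Separation at `l`: `l ≤ K (e + log (1 + nm (p l) (W l))) + K e`, so
   `log (1 + nm (p l) (W l)) ≥ l / K - 2 e ≥ C2 e`, `nm (p l) (W l) ≥ e^{C2 e}/2`. With `h = ⌊l/2⌋`, `x = p h`: by 0 `nm x (W l) ≤ e^{c l / 2 + 8 e}`
   (all `p k`, `k ≤ l`, are at distance `≤ c (l/2 + 1) + e` from `x`, `c ≤ 2 K ≤ 2 e`). `four_vec_or` for `x, p l, p m` (`m ≥ l`) and `W l`. Second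
   alternative: `e^{rho x (p m)} nm (p l) (W l) ≤ 4 e^{rho (p l) (p m)} nm x (W l)`: as `rho x (p m) - rho (p l) (p m) ≥ c l/2 - 4 e` this gives
   `nm (p l) (W l) ≤ e^{16 e}`, excluded by the choice of `C2`. First alternative: `nm (p m) (W l) ≥ (1/4) e^{rho x (p m) - rho x (p l)} nm (p l) (W l)
   ≥ e^{c (m - l) - 4 e} e^{C2 e}/8`. By 0, `nm (p m) (W m - W l) ≤ e^{c (m - l) + 6 e}` (the points `p k`, `l ≤ k < m`, are at distance `≤ c (m-l) + e` from `p m`).
   So `nm (p m) (W m) ≥ e^{c (m-l)}` (`C2 ≥ 20`) for all `m ≥ l`; in particular `nm y (W n) ≥ e^{c n - 2 K (C1 e + 1)}`: first claim. (To avoid a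
   product `K * e` in the constant take `C` depending on `K`.)
2. Second claim. `h = ⌊n/2⌋`, `x = p h`; by 0 `nm x (W n) ≤ e^{c n/2 + 8 e}`. `gp (p 0) x y ≥ c n / 2 - 4 e > gp (p 0) z y + 1/2` (as `C e ≤ n`, `c ≥ 1/(4K)`), so
   `gp x z y ≤ gp (p 0) z y + 1/2` by `gp_min`. `four_vec_or` for `x, y, z`, `W n`: second alternative
   `e^{rho x z} nm y (W n) ≤ 4 e^{rho y z} nm x (W n)`; with `rho x z = rho x y + rho y z - 2 gp x z y` this gives
   `c n - C' e ≤ log nm y (W n) ≤ c n/2 + 8 e - (c n/2 - 4e) + 2 gp x z y + 2 ≤ c n / 2 + C'' e`, excluded (`C e ≤ n`). First alternative: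
   `nm z (W n) ≥ (1/4) e^{rho x z - rho x y} nm y (W n) ≥ e^{rho y z - 2 gp x z y - 2} e^{c n - C' e}`.
-/

set_option autoImplicit false

namespace Pool.Agent.FIB

open UpperHalfPlane

theorem inc_sum (p : ℕ → ℍ) (U : ℕ → V) (m n : ℕ) (E M : ℝ) (z : ℍ) (hmn : m ≤ n)
    (h : ∀ k, m ≤ k → k < n → nm (p k) (U (k + 1) - U k) ≤ E)
    (hM : ∀ k, m ≤ k → k < n → rho z (p k) ≤ M) :
    nm z (U n - U m) ≤ ((n : ℝ) - m) * (E * Real.exp M) := by
  induction n, hmn using Nat.le_induction with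
  | base => simp [nm_zero]
  | succ n hmn ih =>
    have h1 := ih (fun k hk hk' => h k hk (by omega)) (fun k hk hk' => hM k hk (by omega))
    have h2 := nm_le (p n) z (U (n + 1) - U n)
    have h3 := h n hmn (by omega)
    have h4 := hM n hmn (by omega)
    rw [rho_comm] at h4
    have h5 : nm z (U (n + 1) - U n) ≤ E * Real.exp M := by
      refine h2.trans ?_
      rw [mul_comm]
      exact mul_le_mul h3 (Real.exp_le_exp.2 h4) (Real.exp_pos _).le
        ((nm_nonneg _ _).trans h3)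
    have h6 := nm_sub_le' z (U (n + 1)) (U n) (U m)
    push_cast
    linarith

private lemma Vec_two_le {e : ℝ} (he : 1 ≤ e) : 2 ≤ Real.exp e := by
  have := Real.add_one_le_exp e
  linarith

private lemma Vec_four_le {e : ℝ} (he : 1 ≤ e) : 4 ≤ Real.exp (2 * e) := by
  have h := Vec_two_le he
  have h1 : Real.exp (2 * e) = Real.exp e * Real.exp e := by
    rw [← Real.exp_add]
    congr 1
    ring
  rw [h1]
  nlinarith

private lemma Vec_inc {K : ℝ} {p p' : ℕ → ℍ} {U U' : ℕ → V} {n : ℕ} {e : ℝ} (hKe : K ≤ e)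
    (h1 : ∀ k, k < n → nm (p k) (U (k + 1) - U k) ≤ Real.exp (2 * K))
    (h2 : ∀ k, k < n → nm (p' k) (U' (k + 1) - U' k) ≤ Real.exp (2 * K))
    (hp : ∀ k, k ≤ n → rho (p k) (p' k) ≤ e) (he : 1 ≤ e) {l m : ℕ} (hlm : l ≤ m) (hmn : m ≤ n)
    {z : ℍ} {M : ℝ} (hM : ∀ k, l ≤ k → k < m → rho z (p k) ≤ M) :
    nm z ((U m - U' m) - (U l - U' l)) ≤ 2 * n * Real.exp (M + 3 * e) := by
  have a1 := inc_sum p U l m (Real.exp (2 * K)) M z hlm (fun k _ hk => h1 k (by omega)) hM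
  have a2 := inc_sum p' U' l m (Real.exp (2 * K)) (M + e) z hlm (fun k _ hk => h2 k (by omega))
    (fun k hk hk' => by
      have b1 := hM k hk hk'
      have b2 := hp k (by omega)
      have b3 := rho_triangle z (p k) (p' k)
      linarith)
  have a3 : (U m - U' m) - (U l - U' l) = (U m - U l) - (U' m - U' l) := by abel
  have a4 := nm_sub_le z (U m - U l) (U' m - U' l)
  rw [a3]
  have a5 : Real.exp (2 * K) * Real.exp M ≤ Real.exp (M + 3 * e) := by
    rw [← Real.exp_add]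
    exact Real.exp_le_exp.2 (by linarith)
  have a6 : Real.exp (2 * K) * Real.exp (M + e) ≤ Real.exp (M + 3 * e) := by
    rw [← Real.exp_add]
    exact Real.exp_le_exp.2 (by linarith)
  have a7 : (0 : ℝ) ≤ (m : ℝ) - l := by
    have : (l : ℝ) ≤ m := by exact_mod_cast hlm
    linarith
  have a8 : (m : ℝ) - l ≤ n := by
    have b1 : (m : ℝ) ≤ n := by exact_mod_cast hmn
    have b2 : (0 : ℝ) ≤ l := Nat.cast_nonneg l
    linarith
  have a9 := mul_le_mul a8 a5 (by positivity) (Nat.cast_nonneg n)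
  have a10 := mul_le_mul a8 a6 (by positivity) (Nat.cast_nonneg n)
  linarith

private lemma Vec_exp {n : ℕ} {e : ℝ} (hn : Real.log (4 * n + 4) ≤ e) :
    4 * (n : ℝ) + 4 ≤ Real.exp e := by
  have : (0 : ℝ) < 4 * n + 4 := by positivity
  exact (Real.log_le_iff_le_exp this).1 hn

private lemma Vec_inc' {K : ℝ} {p p' : ℕ → ℍ} {U U' : ℕ → V} {n : ℕ} {e : ℝ} (hKe : K ≤ e)
    (h1 : ∀ k, k < n → nm (p k) (U (k + 1) - U k) ≤ Real.exp (2 * K))
    (h2 : ∀ k, k < n → nm (p' k) (U' (k + 1) - U' k) ≤ Real.exp (2 * K))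
    (hp : ∀ k, k ≤ n → rho (p k) (p' k) ≤ e) (he : 1 ≤ e) (hn : Real.log (4 * n + 4) ≤ e)
    {l m : ℕ} (hlm : l ≤ m) (hmn : m ≤ n)
    {z : ℍ} {M : ℝ} (hM : ∀ k, l ≤ k → k < m → rho z (p k) ≤ M) :
    nm z ((U m - U' m) - (U l - U' l)) ≤ Real.exp (M + 4 * e) := by
  have a1 := Vec_inc hKe h1 h2 hp he hlm hmn hM
  have a2 := Vec_exp hn
  have a3 : Real.exp (M + 4 * e) = Real.exp e * Real.exp (M + 3 * e) := by
    rw [← Real.exp_add]
    congr 1
    ring
  rw [a3]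
  refine a1.trans (mul_le_mul_of_nonneg_right ?_ (Real.exp_pos _).le)
  have : (0 : ℝ) ≤ n := Nat.cast_nonneg n
  linarith

private lemma Vec_all {K : ℝ} {p p' : ℕ → ℍ} {U U' : ℕ → V} {n : ℕ} {e : ℝ} (hKe : K ≤ e)
    (h1 : ∀ k, k < n → nm (p k) (U (k + 1) - U k) ≤ Real.exp (2 * K))
    (h2 : ∀ k, k < n → nm (p' k) (U' (k + 1) - U' k) ≤ Real.exp (2 * K))
    (h0 : nm (p 0) (U 0 - U' 0) ≤ Real.exp e)
    (hp : ∀ k, k ≤ n → rho (p k) (p' k) ≤ e) (he : 1 ≤ e) (hn : Real.log (4 * n + 4) ≤ e)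
    {m : ℕ} (hmn : m ≤ n)
    {z : ℍ} {M : ℝ} (hM : ∀ k, k ≤ m → rho z (p k) ≤ M) :
    nm z (U m - U' m) ≤ Real.exp (M + 4 * e) := by
  have a1 := Vec_inc (l := 0) hKe h1 h2 hp he (Nat.zero_le m) hmn
    (fun k _ hk => hM k (by omega))
  have a2 := Vec_exp hn
  have a3 : Real.exp (M + 4 * e) = Real.exp e * Real.exp (M + 3 * e) := by
    rw [← Real.exp_add]
    congr 1
    ring
  have a4 := nm_le (p 0) z (U 0 - U' 0)
  have a5 := hM 0 (Nat.zero_le m)
  rw [rho_comm] at a5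
  have a6 : nm z (U 0 - U' 0) ≤ Real.exp (M + 3 * e) := by
    refine a4.trans ((mul_le_mul (Real.exp_le_exp.2 a5) h0 (nm_nonneg _ _)
      (Real.exp_pos _).le).trans ?_)
    rw [← Real.exp_add]
    exact Real.exp_le_exp.2 (by linarith)
  have a7 := nm_add_le z ((U m - U' m) - (U 0 - U' 0)) (U 0 - U' 0)
  rw [sub_add_cancel] at a7
  rw [a3]
  have a8 : (2 * (n : ℝ) + 1) * Real.exp (M + 3 * e) ≤ Real.exp e * Real.exp (M + 3 * e) := by
    refine mul_le_mul_of_nonneg_right ?_ (Real.exp_pos _).le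
    have : (0 : ℝ) ≤ n := Nat.cast_nonneg n
    linarith
  linarith

/-- The middle point of `0, .., l`. -/
private lemma Vec_mid {K : ℝ} {p p' : ℕ → ℍ} {U U' : ℕ → V} {n : ℕ} {c e : ℝ} (hKe : K ≤ e)
    (h1 : ∀ k, k < n → nm (p k) (U (k + 1) - U k) ≤ Real.exp (2 * K))
    (h2 : ∀ k, k < n → nm (p' k) (U' (k + 1) - U' k) ≤ Real.exp (2 * K))
    (h0 : nm (p 0) (U 0 - U' 0) ≤ Real.exp e)
    (hp : ∀ k, k ≤ n → rho (p k) (p' k) ≤ e) (he : 1 ≤ e) (hn : Real.log (4 * n + 4) ≤ e)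
    (hc : c ≤ 2 * K) (hc0 : 0 ≤ c)
    (hr : ∀ k l, k ≤ n → l ≤ n → abs (rho (p k) (p l) - c * |(k : ℝ) - l|) ≤ e)
    {l : ℕ} (hln : l ≤ n) :
    nm (p (l / 2)) (U l - U' l) ≤ Real.exp (c * l / 2 + 6 * e) := by
  have a1 : ∀ k, k ≤ l → rho (p (l / 2)) (p k) ≤ c * l / 2 + 2 * e := by
    intro k hk
    have b1 := (abs_le.1 (hr (l / 2) k (by omega) (by omega))).2
    have b2 : |((l / 2 : ℕ) : ℝ) - k| ≤ l / 2 + 1 / 2 := by
      have c1 : 2 * ((l / 2 : ℕ) : ℝ) ≤ l := by exact_mod_cast (by omega : 2 * (l / 2) ≤ l)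
      have c2 : (l : ℝ) ≤ 2 * ((l / 2 : ℕ) : ℝ) + 1 := by
        exact_mod_cast (by omega : l ≤ 2 * (l / 2) + 1)
      have c3 : (k : ℝ) ≤ l := by exact_mod_cast hk
      have c4 : (0 : ℝ) ≤ k := Nat.cast_nonneg k
      rw [abs_le]
      constructor <;> linarith
    have b3 := mul_le_mul_of_nonneg_left b2 hc0
    linarith
  have a2 := Vec_all hKe h1 h2 h0 hp he hn hln a1
  refine a2.trans (Real.exp_le_exp.2 ?_)
  linarith

/-- The growth at every `m ≥ l`. -/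
private lemma Vec_grow {K : ℝ} {p p' : ℕ → ℍ} {U U' : ℕ → V} {n : ℕ} {c e : ℝ} (hK : 1 ≤ K)
    (hKe : K ≤ e)
    (h1 : ∀ k, k < n → nm (p k) (U (k + 1) - U k) ≤ Real.exp (2 * K))
    (h2 : ∀ k, k < n → nm (p' k) (U' (k + 1) - U' k) ≤ Real.exp (2 * K))
    (h0 : nm (p 0) (U 0 - U' 0) ≤ Real.exp e)
    (hp : ∀ k, k ≤ n → rho (p k) (p' k) ≤ e) (he : 1 ≤ e) (hn : Real.log (4 * n + 4) ≤ e)
    (hc : c ≤ 2 * K) (hc0 : 0 ≤ c)
    (hr : ∀ k l, k ≤ n → l ≤ n → abs (rho (p k) (p l) - c * |(k : ℝ) - l|) ≤ e)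
    (hs : ∀ k, k ≤ n → (k : ℝ) ≤
        K * (rho (p k) (p' k) + Real.log (1 + nm (p k) (U k - U' k))) + K * e)
    {l m : ℕ} (hlm : l ≤ m) (hmn : m ≤ n) (hl : 16 * K * e ≤ l) :
    Real.exp (c * ((m : ℝ) - l)) ≤ nm (p m) (U m - U' m) := by
  have hln : l ≤ n := hlm.trans hmn
  have hK0 : 0 < K := by linarith
  -- separation
  have a1 : Real.exp (13 * e) ≤ nm (p l) (U l - U' l) := by
    have b1 := hs l hln
    have b2 := hp l hln
    have b3 : 14 * e ≤ Real.log (1 + nm (p l) (U l - U' l)) := by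
      by_contra hcon
      rw [not_le] at hcon
      have b4 : K * (rho (p l) (p' l) + Real.log (1 + nm (p l) (U l - U' l))) <
          K * (15 * e) := by
        refine mul_lt_mul_of_pos_left ?_ hK0
        linarith
      nlinarith
    have b5 := nm_nonneg (p l) (U l - U' l)
    have b6 : Real.exp (14 * e) ≤ 1 + nm (p l) (U l - U' l) :=
      (Real.le_log_iff_exp_le (by linarith)).1 b3
    have b7 : Real.exp (14 * e) = Real.exp e * Real.exp (13 * e) := by
      rw [← Real.exp_add]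
      congr 1
      ring
    have b8 := Vec_two_le he
    have b9 := Vec_two_le (by linarith : 1 ≤ 13 * e)
    rw [b7] at b6
    nlinarith
  have a2 := Vec_mid hKe h1 h2 h0 hp he hn hc hc0 hr hln
  have hcast1 : 2 * ((l / 2 : ℕ) : ℝ) ≤ l := by exact_mod_cast (by omega : 2 * (l / 2) ≤ l)
  have hcast2 : ((l / 2 : ℕ) : ℝ) ≤ l := by
    have : (0 : ℝ) ≤ ((l / 2 : ℕ) : ℝ) := Nat.cast_nonneg _
    linarith
  have hcast3 : (l : ℝ) ≤ m := by exact_mod_cast hlm
  have r1 := abs_le.1 (hr l m hln hmn)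
  have r2 := abs_le.1 (hr (l / 2) m (by omega) hmn)
  have r3 := abs_le.1 (hr (l / 2) l (by omega) hln)
  have q1 : |(l : ℝ) - m| = m - l := by
    rw [abs_sub_comm]
    exact abs_of_nonneg (by linarith)
  have q2 : |((l / 2 : ℕ) : ℝ) - m| = m - ((l / 2 : ℕ) : ℝ) := by
    rw [abs_sub_comm]
    exact abs_of_nonneg (by linarith)
  have q3 : |((l / 2 : ℕ) : ℝ) - l| = l - ((l / 2 : ℕ) : ℝ) := by
    rw [abs_sub_comm]
    exact abs_of_nonneg (by linarith)
  rw [q1] at r1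
  rw [q2] at r2
  rw [q3] at r3
  have hcl : c * (2 * ((l / 2 : ℕ) : ℝ)) ≤ c * l := mul_le_mul_of_nonneg_left hcast1 hc0
  have a3 : Real.exp (c * ((m : ℝ) - l) + 9 * e) ≤ nm (p m) (U l - U' l) := by
    rcases four_vec_or (p (l / 2)) (p l) (p m) (U l - U' l) with h | h
    · have b1 : Real.exp (rho (p (l / 2)) (p m)) * Real.exp (13 * e) ≤
          4 * (Real.exp (rho (p (l / 2)) (p l)) * nm (p m) (U l - U' l)) :=
        (mul_le_mul_of_nonneg_left a1 (Real.exp_pos _).le).trans h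
      have b2 := Vec_four_le he
      have b3 : 4 * (Real.exp (rho (p (l / 2)) (p l)) * nm (p m) (U l - U' l)) ≤
          Real.exp (2 * e) * (Real.exp (rho (p (l / 2)) (p l)) * nm (p m) (U l - U' l)) :=
        mul_le_mul_of_nonneg_right b2 (mul_nonneg (Real.exp_pos _).le (nm_nonneg _ _))
      have b4 := b1.trans b3
      rw [← Real.exp_add, ← mul_assoc, ← Real.exp_add] at b4
      have b5 : Real.exp (rho (p (l / 2)) (p m) + 13 * e) =
          Real.exp (2 * e + rho (p (l / 2)) (p l)) *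
            Real.exp (rho (p (l / 2)) (p m) - rho (p (l / 2)) (p l) + 11 * e) := by
        rw [← Real.exp_add]
        congr 1
        ring
      rw [b5] at b4
      have b6 := le_of_mul_le_mul_left b4 (Real.exp_pos _)
      refine le_trans (Real.exp_le_exp.2 ?_) b6
      linarith [r2.1, r3.2]
    · exfalso
      have b1 : Real.exp (rho (p (l / 2)) (p m)) * Real.exp (13 * e) ≤
          4 * (Real.exp (rho (p l) (p m)) * nm (p (l / 2)) (U l - U' l)) :=
        (mul_le_mul_of_nonneg_left a1 (Real.exp_pos _).le).trans h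
      have b2 := Vec_four_le he
      have b3 : 4 * (Real.exp (rho (p l) (p m)) * nm (p (l / 2)) (U l - U' l)) ≤
          Real.exp (2 * e) * (Real.exp (rho (p l) (p m)) * Real.exp (c * l / 2 + 6 * e)) := by
        refine mul_le_mul b2 (mul_le_mul_of_nonneg_left a2 (Real.exp_pos _).le)
          (mul_nonneg (Real.exp_pos _).le (nm_nonneg _ _)) (Real.exp_pos _).le
      have b4 := b1.trans b3
      rw [← Real.exp_add, ← Real.exp_add, ← Real.exp_add, Real.exp_le_exp] at b4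
      linarith [r1.2, r2.1]
  have a4 : nm (p m) ((U m - U' m) - (U l - U' l)) ≤
      Real.exp (c * ((m : ℝ) - l) + e + 4 * e) := by
    refine Vec_inc' hKe h1 h2 hp he hn hlm hmn ?_
    intro k hk hk'
    have b1 := (abs_le.1 (hr m k hmn (by omega))).2
    have b2 : (l : ℝ) ≤ k := by exact_mod_cast hk
    have b3 : (k : ℝ) ≤ m := by exact_mod_cast hk'.le
    rw [abs_of_nonneg (by linarith : (0 : ℝ) ≤ (m : ℝ) - k)] at b1
    have b4 := mul_le_mul_of_nonneg_left (by linarith : (m : ℝ) - k ≤ (m : ℝ) - l) hc0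
    linarith
  have a5 := nm_sub_le (p m) (U m - U' m) ((U m - U' m) - (U l - U' l))
  rw [sub_sub_cancel] at a5
  have a6 : Real.exp (c * ((m : ℝ) - l) + 9 * e) =
      Real.exp (c * ((m : ℝ) - l)) * Real.exp (9 * e) := by
    rw [← Real.exp_add]
  have a7 : Real.exp (c * ((m : ℝ) - l) + e + 4 * e) =
      Real.exp (c * ((m : ℝ) - l)) * Real.exp (5 * e) := by
    rw [← Real.exp_add]
    congr 1
    ring
  have a8 : Real.exp (9 * e) = Real.exp (4 * e) * Real.exp (5 * e) := by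
    rw [← Real.exp_add]
    congr 1
    ring
  have a9 := Vec_two_le (by linarith : 1 ≤ 4 * e)
  have a10 : 1 ≤ Real.exp (5 * e) := by
    have := Vec_two_le (by linarith : 1 ≤ 5 * e)
    linarith
  have a11 : 0 < Real.exp (c * ((m : ℝ) - l)) := Real.exp_pos _
  have a12 : 1 ≤ Real.exp (9 * e) - Real.exp (5 * e) := by
    rw [a8]
    nlinarith
  have a13 : Real.exp (c * ((m : ℝ) - l)) ≤
      Real.exp (c * ((m : ℝ) - l)) * (Real.exp (9 * e) - Real.exp (5 * e)) := by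
    nlinarith
  rw [a6] at a3
  rw [a7] at a4
  linarith

theorem growth (K : ℝ) (hK : 1 ≤ K) : ∃ C : ℝ, 1 ≤ C ∧
    ∀ (p p' : ℕ → ℍ) (U U' : ℕ → V) (n : ℕ) (c e : ℝ),
      K ≤ e → Real.log (4 * n + 4) ≤ e → C * e ≤ n → 1 / (4 * K) ≤ c → c ≤ 2 * K →
      (∀ k, k < n → nm (p k) (U (k + 1) - U k) ≤ Real.exp (2 * K)) →
      (∀ k, k < n → nm (p' k) (U' (k + 1) - U' k) ≤ Real.exp (2 * K)) →
      nm (p 0) (U 0 - U' 0) ≤ Real.exp e →
      (∀ k, k ≤ n → rho (p k) (p' k) ≤ e) →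
      (∀ k l, k ≤ n → l ≤ n → abs (rho (p k) (p l) - c * |(k : ℝ) - l|) ≤ e) →
      (∀ k, k ≤ n → (k : ℝ) ≤
        K * (rho (p k) (p' k) + Real.log (1 + nm (p k) (U k - U' k))) + K * e) →
      Real.exp (c * n - C * e) ≤ nm (p n) (U n - U' n) ∧
      (∀ z, gp (p 0) z (p n) ≤ c * n / 4 →
        Real.exp (c * n + rho (p n) z - 2 * gp (p 0) z (p n) - C * e) ≤ nm z (U n - U' n)) ∧
      (∀ z M, (∀ k, k ≤ n → rho z (p k) ≤ M) →
        nm z (U n - U' n) ≤ Real.exp (M + C * e)) := by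
  have hK0 : 0 < K := by linarith
  obtain ⟨C₀, hC₀⟩ : ∃ C₀ : ℝ, C₀ = 2 * K * (16 * K + 1) := ⟨_, rfl⟩
  have hC₀' : 34 ≤ C₀ := by
    rw [hC₀]
    nlinarith
  obtain ⟨C, hC⟩ : ∃ C : ℝ, C = 8 * K * (C₀ + 11) := ⟨_, rfl⟩
  have hC1 : C₀ + 11 ≤ C := by
    rw [hC]
    nlinarith
  refine ⟨C, by linarith, ?_⟩
  intro p p' U U' n c e hKe hn hCn hc1 hc2 h1 h2 h0 hp hr hs
  have he : 1 ≤ e := by linarith
  have hc0 : 0 < c := lt_of_lt_of_le (by positivity) hc1
  have hcn : 2 * (C₀ + 11) * e ≤ c * n := by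
    have b1 : 1 / (4 * K) * (C * e) ≤ c * n :=
      mul_le_mul hc1 hCn (by rw [hC]; positivity) hc0.le
    have b2 : 1 / (4 * K) * (C * e) = 2 * (C₀ + 11) * e := by
      rw [hC]
      field_simp
      ring
    linarith
  -- the first claim with the constant `C₀`
  have main1 : Real.exp (c * n - C₀ * e) ≤ nm (p n) (U n - U' n) := by
    have b1 : 16 * K * e ≤ (⌈16 * K * e⌉₊ : ℝ) := Nat.le_ceil _
    have b2 : (⌈16 * K * e⌉₊ : ℝ) < 16 * K * e + 1 := Nat.ceil_lt_add_one (by positivity)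
    have b3 : (⌈16 * K * e⌉₊ : ℝ) ≤ n := by
      have c1 : 16 * K * e + 1 ≤ C * e := by
        have d1 : 16 * K + 1 ≤ C := by
          rw [hC]
          nlinarith
        nlinarith
      linarith
    have b4 : ⌈16 * K * e⌉₊ ≤ n := by exact_mod_cast b3
    have b5 := Vec_grow hK hKe h1 h2 h0 hp he hn hc2 hc0.le hr hs b4 le_rfl b1
    refine le_trans (Real.exp_le_exp.2 ?_) b5
    have b6 : c * (⌈16 * K * e⌉₊ : ℝ) ≤ 2 * K * ((16 * K + 1) * e) := by
      refine mul_le_mul hc2 ?_ (Nat.cast_nonneg _) (by positivity)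
      nlinarith
    rw [hC₀]
    linarith
  refine ⟨?_, ?_, ?_⟩
  · refine le_trans (Real.exp_le_exp.2 ?_) main1
    nlinarith
  · intro z hz
    have a2 := Vec_mid hKe h1 h2 h0 hp he hn hc2 hc0.le hr (le_refl n)
    have hcast1 : 2 * ((n / 2 : ℕ) : ℝ) ≤ n := by exact_mod_cast (by omega : 2 * (n / 2) ≤ n)
    have hcast2 : ((n / 2 : ℕ) : ℝ) ≤ n := by
      have : (0 : ℝ) ≤ ((n / 2 : ℕ) : ℝ) := Nat.cast_nonneg _
      linarith
    have r1 := abs_le.1 (hr n 0 le_rfl (Nat.zero_le n))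
    have r2 := abs_le.1 (hr n (n / 2) le_rfl (by omega))
    have r3 := abs_le.1 (hr 0 (n / 2) (Nat.zero_le n) (by omega))
    have q1 : |(n : ℝ) - ((0 : ℕ) : ℝ)| = n := by
      rw [Nat.cast_zero, sub_zero]
      exact abs_of_nonneg (Nat.cast_nonneg n)
    have q2 : |(n : ℝ) - ((n / 2 : ℕ) : ℝ)| = n - ((n / 2 : ℕ) : ℝ) :=
      abs_of_nonneg (by linarith)
    have q3 : |((0 : ℕ) : ℝ) - ((n / 2 : ℕ) : ℝ)| = ((n / 2 : ℕ) : ℝ) := by
      rw [Nat.cast_zero, zero_sub, abs_neg]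
      exact abs_of_nonneg (Nat.cast_nonneg _)
    rw [q1] at r1
    rw [q2] at r2
    rw [q3] at r3
    have hcl : c * (2 * ((n / 2 : ℕ) : ℝ)) ≤ c * n := mul_le_mul_of_nonneg_left hcast1 hc0.le
    have g1 : c * n / 2 - 2 * e ≤ gp (p 0) (p (n / 2)) (p n) := by
      unfold gp
      linarith [r1.1, r2.1, r3.2]
    have g2 := gp_min (p 0) (p (n / 2)) z (p n)
    have g3 : gp (p (n / 2)) z (p n) ≤ gp (p 0) z (p n) + 1 / 2 := by
      rcases min_le_iff.1 g2 with h | h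
      · exfalso
        nlinarith
      · exact h
    have g4 : rho (p (n / 2)) z = rho (p n) (p (n / 2)) + rho (p n) z -
        2 * gp (p (n / 2)) z (p n) := by
      unfold gp
      ring
    have g5 := rho_comm (p (n / 2)) (p n)
    rcases four_vec_or (p (n / 2)) (p n) z (U n - U' n) with h | h
    · have b1 : Real.exp (rho (p (n / 2)) z) * Real.exp (c * n - C₀ * e) ≤
          4 * (Real.exp (rho (p (n / 2)) (p n)) * nm z (U n - U' n)) :=
        (mul_le_mul_of_nonneg_left main1 (Real.exp_pos _).le).trans h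
      have b2 := Vec_four_le he
      have b3 : 4 * (Real.exp (rho (p (n / 2)) (p n)) * nm z (U n - U' n)) ≤
          Real.exp (2 * e) * (Real.exp (rho (p (n / 2)) (p n)) * nm z (U n - U' n)) :=
        mul_le_mul_of_nonneg_right b2 (mul_nonneg (Real.exp_pos _).le (nm_nonneg _ _))
      have b4 := b1.trans b3
      rw [← Real.exp_add, ← mul_assoc, ← Real.exp_add] at b4
      have b5 : Real.exp (rho (p (n / 2)) z + (c * n - C₀ * e)) =
          Real.exp (2 * e + rho (p (n / 2)) (p n)) *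
            Real.exp (rho (p (n / 2)) z - rho (p (n / 2)) (p n) + (c * n - C₀ * e) - 2 * e) := by
        rw [← Real.exp_add]
        congr 1
        ring
      rw [b5] at b4
      have b6 := le_of_mul_le_mul_left b4 (Real.exp_pos _)
      refine le_trans (Real.exp_le_exp.2 ?_) b6
      have b7 : (C₀ + 11) * e ≤ C * e := mul_le_mul_of_nonneg_right hC1 (by linarith)
      linarith
    · exfalso
      have b1 : Real.exp (rho (p (n / 2)) z) * Real.exp (c * n - C₀ * e) ≤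
          4 * (Real.exp (rho (p n) z) * nm (p (n / 2)) (U n - U' n)) :=
        (mul_le_mul_of_nonneg_left main1 (Real.exp_pos _).le).trans h
      have b2 := Vec_four_le he
      have b3 : 4 * (Real.exp (rho (p n) z) * nm (p (n / 2)) (U n - U' n)) ≤
          Real.exp (2 * e) * (Real.exp (rho (p n) z) * Real.exp (c * n / 2 + 6 * e)) := by
        refine mul_le_mul b2 (mul_le_mul_of_nonneg_left a2 (Real.exp_pos _).le)
          (mul_nonneg (Real.exp_pos _).le (nm_nonneg _ _)) (Real.exp_pos _).le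
      have b4 := b1.trans b3
      rw [← Real.exp_add, ← Real.exp_add, ← Real.exp_add, Real.exp_le_exp] at b4
      linarith [r2.1]
  · intro z M hM
    refine (Vec_all hKe h1 h2 h0 hp he hn (le_refl n) hM).trans (Real.exp_le_exp.2 ?_)
    nlinarith

end Pool.Agent.FIB
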