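import Pool.Agent.FIB.ADefs
import Pool.Agent.FIB.ADiff
import Pool.Agent.FIB.Vec

/-!
# Part A: lower bound for the speed (A2), and good windows in planes (A1)

`speed_lb`. `n = 16 a` unit steps from `pt b (j - 8a)` to `pt b (j + 8a)`; all the points of the path are within `16 a c + η a` of the first one,
each step changes `U` by `≤ exp (2K)` (norm at the image of the starting point of the step, `U_vert`). `inc_sum`: the total change has norm
`≤ 16 a exp (2K + 16 a c + η a)`. `sep_vert`: `16 a ≤ K (16 a c + η a + log (1 + 16 a exp (..))) + K ≤ K (32 a c + 2 η a + 2 K + 2 + log (16 a + 1)) + K`.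
With `η ≤ η0 = 1/K` and `a ≥ a0`: `c ≥ 1/(4K)`.

`diff_QM`. Apply `diff_abs` with `Ω = V × ℝ`, `μ = volume` restricted to `box 32 × [-32, 32]` (measure `64^3`), the path
`i ↦ F.f (exp n • u) (pt b i)`, and `η / 64^3` (`≤ η0(K)` as well) in place of `η`, `m0 ⊔ a0` in place of `m0`; measurability by `QM.meas`, Lipschitz by `f_vert`; `speed_lb`
gives the lower bound of the speed. (The exponent `n` does not influence `R, n0`.)
-/

set_option autoImplicit false

namespace Pool.Agent.FIB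

open UpperHalfPlane MeasureTheory Set

theorem speed_lb (K : ℝ) (hK : 1 ≤ K) : ∃ (η0 : ℝ) (a0 : ℕ), 0 < η0 ∧
    ∀ (F : QM K) (w : V) (b j : ℝ) (a : ℕ) (η c : ℝ), a0 ≤ a → 0 < η → η ≤ η0 → 0 ≤ c →
      GC F w b j (8 * a) c (η * a) → 1 / (4 * K) ≤ c := by
  have hK0 : 0 < K := by linarith
  refine ⟨1 / K, ⌈20 * K ^ 2⌉₊, by positivity, ?_⟩
  intro F w b j a η c ha hη hη0 hc hG
  have ha1 : 20 * K ^ 2 ≤ (a : ℝ) := (Nat.le_ceil _).trans (by exact_mod_cast ha)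
  have ha0 : 0 < (a : ℝ) := by nlinarith
  obtain ⟨M, hM⟩ : ∃ M : ℝ, M = 16 * a * c + η * a := ⟨_, rfl⟩
  have hMpos : 0 ≤ M := by rw [hM]; positivity
  -- distances from the first point
  have hdist : ∀ k : ℕ, k ≤ 16 * a →
      rho (F.f w (pt b (j + (((-(8 * a : ℕ) : ℤ) + (0 : ℕ) : ℤ) : ℝ))))
        (F.f w (pt b (j + (((-(8 * a : ℕ) : ℤ) + (k : ℕ) : ℤ) : ℝ)))) ≤ M := by
    intro k hk
    have h1 := hG (-(8 * a : ℕ) + (0 : ℕ)) (-(8 * a : ℕ) + (k : ℕ))
      (by rw [abs_le]; constructor <;> push_cast <;> omega)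
      (by rw [abs_le]; constructor <;> push_cast <;> omega)
    have h2 := (abs_le.1 h1).2
    have h3 : |(((-(8 * a : ℕ) + (0 : ℕ) : ℤ)) : ℝ) - ((-(8 * a : ℕ) + (k : ℕ) : ℤ) : ℝ)| ≤ 16 * a := by
      have : (((-(8 * a : ℕ) + (0 : ℕ) : ℤ)) : ℝ) - ((-(8 * a : ℕ) + (k : ℕ) : ℤ) : ℝ) = -(k : ℝ) := by
        push_cast
        ring
      rw [this, abs_neg, abs_of_nonneg (Nat.cast_nonneg k)]
      exact_mod_cast hk
    have h4 := mul_le_mul_of_nonneg_left h3 hc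
    rw [hM]
    linarith
  -- the increments
  have hinc := inc_sum (fun k : ℕ => F.f w (pt b (j + (((-(8 * a : ℕ) : ℤ) + (k : ℕ) : ℤ) : ℝ))))
    (fun k : ℕ => F.U w (pt b (j + (((-(8 * a : ℕ) : ℤ) + (k : ℕ) : ℤ) : ℝ)))) 0 (16 * a)
    (Real.exp (2 * K)) M (F.f w (pt b (j + (((-(8 * a : ℕ) : ℤ) + (0 : ℕ) : ℤ) : ℝ)))) (Nat.zero_le _)
    (by
      intro k _ _
      have h1 := F.U_vert w b (j + (((-(8 * a : ℕ) : ℤ) + (k : ℕ) : ℤ) : ℝ))
        (j + (((-(8 * a : ℕ) : ℤ) + ((k + 1 : ℕ) : ℤ) : ℤ) : ℝ))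
      rw [nm_sub_comm] at h1
      refine h1.trans (Real.exp_le_exp.2 ?_)
      have : j + (((-(8 * a : ℕ) : ℤ) + (k : ℕ) : ℤ) : ℝ) -
          (j + (((-(8 * a : ℕ) : ℤ) + ((k + 1 : ℕ) : ℤ) : ℤ) : ℝ)) = -1 := by
        push_cast
        ring
      rw [this, abs_neg, abs_one]
      linarith)
    (by
      intro k _ hk
      exact hdist k hk.le)
  have hsep := F.sep_vert w b (j + (((-(8 * a : ℕ) : ℤ) + (0 : ℕ) : ℤ) : ℝ))
    (j + (((-(8 * a : ℕ) : ℤ) + ((16 * a : ℕ) : ℤ) : ℤ) : ℝ))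
  have h16 : |j + (((-(8 * a : ℕ) : ℤ) + (0 : ℕ) : ℤ) : ℝ) -
      (j + (((-(8 * a : ℕ) : ℤ) + ((16 * a : ℕ) : ℤ) : ℤ) : ℝ))| = 16 * a := by
    have : j + (((-(8 * a : ℕ) : ℤ) + (0 : ℕ) : ℤ) : ℝ) -
        (j + (((-(8 * a : ℕ) : ℤ) + ((16 * a : ℕ) : ℤ) : ℤ) : ℝ)) = -(16 * a) := by
      push_cast
      ring
    rw [this, abs_neg, abs_of_nonneg (by positivity)]
  rw [h16, nm_sub_comm] at hsep
  have hd := hdist (16 * a) le_rfl
  have hlog : Real.log (1 + nm (F.f w (pt b (j + (((-(8 * a : ℕ) : ℤ) + (0 : ℕ) : ℤ) : ℝ))))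
      (F.U w (pt b (j + (((-(8 * a : ℕ) : ℤ) + ((16 * a : ℕ) : ℤ) : ℤ) : ℝ))) -
        F.U w (pt b (j + (((-(8 * a : ℕ) : ℤ) + (0 : ℕ) : ℤ) : ℝ))))) ≤
      Real.log (16 * a + 1) + (2 * K + M) := by
    have h1 : Real.log (16 * a + 1) + (2 * K + M) =
        Real.log ((16 * a + 1) * Real.exp (2 * K + M)) := by
      rw [Real.log_mul (by positivity) (Real.exp_ne_zero _), Real.log_exp]
    rw [h1]
    have h2 := nm_nonneg (F.f w (pt b (j + (((-(8 * a : ℕ) : ℤ) + (0 : ℕ) : ℤ) : ℝ))))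
      (F.U w (pt b (j + (((-(8 * a : ℕ) : ℤ) + ((16 * a : ℕ) : ℤ) : ℤ) : ℝ))) -
        F.U w (pt b (j + (((-(8 * a : ℕ) : ℤ) + (0 : ℕ) : ℤ) : ℝ))))
    refine Real.log_le_log (by linarith) ?_
    have h3 : (((16 * a : ℕ) : ℝ) - ((0 : ℕ) : ℝ)) * (Real.exp (2 * K) * Real.exp M) =
        16 * a * Real.exp (2 * K + M) := by
      rw [Real.exp_add]
      push_cast
      ring
    rw [h3] at hinc
    have h4 : 1 ≤ Real.exp (2 * K + M) := Real.one_le_exp (by linarith)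
    nlinarith [hinc]
  have hlog2 : Real.log (16 * a + 1) ≤ (16 * a + 1) / (16 * K) + 16 * K := by
    have h1 : (16 * (a : ℝ) + 1) = (16 * a + 1) / (16 * K) * (16 * K) := by
      field_simp
    have h2 : Real.log (16 * a + 1) = Real.log ((16 * a + 1) / (16 * K)) + Real.log (16 * K) := by
      rw [← Real.log_mul (by positivity) (by positivity), ← h1]
    rw [h2]
    have h3 := Real.log_le_sub_one_of_pos (show 0 < (16 * (a : ℝ) + 1) / (16 * K) by positivity)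
    have h4 := Real.log_le_sub_one_of_pos (show 0 < 16 * K by positivity)
    linarith
  have hKlog : K * Real.log (16 * a + 1) ≤ a + 1 / 16 + 16 * K ^ 2 := by
    have h1 := mul_le_mul_of_nonneg_left hlog2 hK0.le
    have h2 : K * ((16 * a + 1) / (16 * K) + 16 * K) = a + 1 / 16 + 16 * K ^ 2 := by
      field_simp
    rw [h2] at h1
    exact h1
  have hη2 : K * (η * a) ≤ a := by
    have h1 : K * η ≤ 1 := by
      have := mul_le_mul_of_nonneg_left hη0 hK0.le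
      rwa [mul_one_div_cancel hK0.ne'] at this
    nlinarith
  -- conclusion
  have hsum : 16 * (a : ℝ) ≤ K * (M + (Real.log (16 * a + 1) + (2 * K + M))) + K := by
    refine hsep.trans ?_
    have := mul_le_mul_of_nonneg_left (add_le_add hd hlog) hK0.le
    linarith
  have hfin : 8 * (a : ℝ) ≤ 32 * a * c * K := by
    have e1 : K * (M + (Real.log (16 * a + 1) + (2 * K + M))) + K =
        32 * a * c * K + 2 * (K * (η * a)) + K * Real.log (16 * a + 1) + 2 * K ^ 2 + K := by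
      rw [hM]
      ring
    rw [e1] at hsum
    nlinarith [hsum, hKlog, hη2, ha1, hK]
  rw [div_le_iff₀ (by positivity)]
  nlinarith [hfin, ha0]

private lemma ASpeed_meas_rho {K : ℝ} (F : QM K) (s x y : ℝ) :
    Measurable fun q : V × ℝ => rho (F.f (s • q.1) (pt q.2 x)) (F.f (s • q.1) (pt q.2 y)) := by
  have h := F.meas (ι := Bool) (fun _ (q : V × ℝ) => s • q.1)
    (fun i (q : V × ℝ) => pt q.2 (if i then x else y))
    (fun _ => measurable_fst.const_smul s)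
    (fun i => measurable_pt' measurable_snd measurable_const)
    (fun v => rho (v true).2 (v false).2)
  exact h

private lemma ASpeed_vol :
    volume (box 32 ×ˢ Icc (-32 : ℝ) 32 : Set (V × ℝ)) = ENNReal.ofReal (64 ^ 3) := by
  have h1 : (volume : Measure (V × ℝ)) (box 32 ×ˢ Icc (-32 : ℝ) 32) =
      volume (box 32) * volume (Icc (-32 : ℝ) 32) := Measure.prod_prod _ _
  have h2 : (volume : Measure V) (box 32) = volume (Icc (-32 : ℝ) 32) * volume (Icc (-32 : ℝ) 32) :=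
    Measure.prod_prod _ _
  rw [h1, h2, Real.volume_Icc, ← ENNReal.ofReal_mul (by norm_num), ← ENNReal.ofReal_mul (by norm_num)]
  norm_num

theorem diff_QM (K η : ℝ) (hK : 1 ≤ K) (hη : 0 < η) (m0 : ℕ) :
    ∃ (R : Finset ℕ) (n0 : ℕ), (∀ a ∈ R, m0 ≤ a) ∧
      ∀ (F : QM K) (n : ℕ), n0 ≤ n → ∃ a ∈ R,
        ∑ j ∈ Finset.range n, volume {q : V × ℝ | q.1 ∈ box 32 ∧ q.2 ∈ Icc (-32) 32 ∧
          ¬ GG F (Real.exp n • q.1) q.2 j (8 * a) (η * a)} ≤ ENNReal.ofReal (η * n) := by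
  obtain ⟨η0, a0, hη0, hsp⟩ := speed_lb K hK
  set η' : ℝ := min (min 1 η0) (η / 64 ^ 3) with hη'
  have hpos : 0 < η' := lt_min (lt_min one_pos hη0) (by positivity)
  have hη1 : η' ≤ 1 := (min_le_left _ _).trans (min_le_left _ _)
  have hη2 : η' ≤ η0 := (min_le_left _ _).trans (min_le_right _ _)
  have hη3 : η' ≤ η / 64 ^ 3 := min_le_right _ _
  have hη4 : η' ≤ η := by
    have : η / 64 ^ 3 ≤ η := by
      rw [div_le_iff₀ (by positivity)]
      nlinarith
    linarith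
  obtain ⟨R, n0, hR, H⟩ := diff_abs K η' hK hpos hη1 (max m0 a0)
  refine ⟨R, n0, fun a ha => (le_max_left _ _).trans (hR a ha), ?_⟩
  intro F n hn
  have hboxm : MeasurableSet (box 32 ×ˢ Icc (-32 : ℝ) 32 : Set (V × ℝ)) :=
    (measurableSet_Icc.prod measurableSet_Icc).prod measurableSet_Icc
  have hfin : IsFiniteMeasure ((volume : Measure (V × ℝ)).restrict (box 32 ×ˢ Icc (-32 : ℝ) 32)) := by
    refine ⟨?_⟩
    rw [Measure.restrict_apply_univ, ASpeed_vol]
    exact ENNReal.ofReal_lt_top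
  obtain ⟨a, haR, ha⟩ := H (V × ℝ) ((volume : Measure (V × ℝ)).restrict (box 32 ×ˢ Icc (-32 : ℝ) 32))
    (fun q i => F.f (Real.exp n • q.1) (pt q.2 (i : ℝ)))
    (fun i j => ASpeed_meas_rho F (Real.exp n) i j)
    (fun q i j => F.f_vert _ _ _ _) n hn
  refine ⟨a, haR, ?_⟩
  have haa : a0 ≤ a := (le_max_right _ _).trans (hR a haR)
  rw [Measure.restrict_apply_univ, ASpeed_vol, ← ENNReal.ofReal_mul (by positivity)] at ha
  refine (Finset.sum_le_sum ?_).trans (ha.trans (ENNReal.ofReal_le_ofReal ?_))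
  · intro j _
    rw [Measure.restrict_apply' hboxm]
    refine measure_mono ?_
    rintro q ⟨h1, h2, h3⟩
    refine ⟨?_, ⟨h1, h2⟩⟩
    rintro ⟨c, hc0, hc1, hc2⟩
    apply h3
    have hGC : GC F (Real.exp n • q.1) q.2 j (8 * a) c (η' * a) := by
      intro i i' hi hi'
      have := hc2 i i' (by push_cast at hi; exact hi) (by push_cast at hi'; exact hi')
      push_cast at this
      exact this
    refine ⟨c, hsp F _ _ _ a η' c haa hpos hη2 hc0 hGC, hc1, ?_⟩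
    exact GC_mono F _ _ _ _ _ _ _ hGC (mul_le_mul_of_nonneg_right hη4 (Nat.cast_nonneg a))
  · have h1 : η' * 64 ^ 3 ≤ η := by
      rwa [le_div_iff₀ (by positivity)] at hη3
    have h2 : (0 : ℝ) ≤ n := Nat.cast_nonneg n
    nlinarith

end Pool.Agent.FIB
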