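import Pool.Agent.FIB.AUnit
import Pool.Agent.FIB.ASpeed

/-!
# Part A: assembly (A6)

Fix `F : QM K`, `n`, a depth `j < n` with `j + 4 a + 10 ≤ n`, and `η`, `e = η a`. `Bd` = the set of `(u, b) ∈ box 32 × [-32, 32]` with `¬ GG F (exp n • u) b j (8a) e`.

`unit_avg`: for `θ > 0`: `volume {(u,b) ∈ box 8 × [-8,8] : ¬ ∃ c, |c - 1| ≤ C e / a ∧ GC F (exp n • u) b j (8a) c e} ≤ C (θ + volume Bd / θ)`.
Proof. For fixed `b ∈ [-8,8]` let `D(b)` be the measure of `{u ∈ box 32 : ¬ GG F (exp n • u) b j .. or ¬ GG F (exp n • u) (b + e^{-2j}) j ..}`; `∫_b D(b) ≤ 2 volume Bd` (`b + e^{-2j} ∈ [-8, 9]`).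
For `u0 ∈ box 16` let `F0 = F.tr (exp n • u0) (fr b j)`, so `GG F0 v κ 0 ↔ GG F (exp n • (u0 + e^{-n} act (fr b j) v)) (b + κ e^{-2j}) j`. For `v` with `|v| ≤ e^{4a}`: `e^{-n} act (fr b j) v ∈ box 16`, since `act (fr b j) v = (e^{-j} v1 + b e^{j} v2, e^j v2)`,
`(8+1) e^{j + 4a - n} ≤ 1`. The offsets `d` and `box (2 e^a)` are in this range. Hence for each offset `d`: `∫_{u0 ∈ box 16} volume {v ∈ box (2e^a) : ¬ (GG F0 (d+v) 0 0 ∧ GG F0 (d+v) 1 0)} du0 =
∫_v volume {u0 ∈ box 16 : u0 + e^{-n} act (fr b j) (d + v) ∈ bad_b} ≤ 16 e^{2a} D(b)`. So (Markov, 4 offsets) `Dens F0 a e θ` holds for all `u0 ∈ box 16` outside a set of measure `≤ 64 D(b)/θ`. For such `u0`, `unit_local`: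
`volume {v ∈ box (e^a/32) : bad'(u0 + e^{-n} act (fr b j) v)} ≤ C θ e^{2a}`, where `bad'` (for `u`) is `¬ ∃ c, |c-1| ≤ C e/a ∧ GC F (exp n • u) b j (8a) c e` (`GC_tr`). Therefore
`∫_{u0 ∈ box 16} volume {v ∈ box (e^a/32) : bad'(..)} ≤ 32^2 C θ e^{2a} + (64 D(b)/θ) e^{2a}/256`, while it is at least `volume (box (e^a/32)) * volume {u ∈ box 8 : bad'(u)}` (for each `v`: `u = u0 + e^{-n} act v`, `u ∈ box 8 → u0 ∈ box 16`).
So `volume {u ∈ box 8 : bad' u} ≤ C (θ + D(b)/θ)`; integrate over `b ∈ [-8,8]`. (`θ ≤ θ0` is needed.) Measurability: `GG_meas`, `GC1_meas`.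

`spread_avg`: for `ε > 0`: `volume {(u,b) ∈ box 8 × [-8,8] : ¬ SpreadP F (exp n • u) b j a (C e) ε} ≤ (C / ε) (volume Bd + exp (-e))`. Proof: for fixed `κ ∈ [exp (-e), 1]` the eight windows of `spread_local` (half length `2a ≤ 8a`, `GC_sub` with `d = 0`) are
good for all `(u,b) ∈ box 8 × [-8, 8]` outside a set of measure `≤ 8 volume Bd` (each of the shifts `e^{-n} e^{j+a} ev b`, `e^{-n} e^{j+a} ev (b + κ e^{-2j})`, `e^{-n} κ e^{a-j} e1` is in `box 10`; the shift `b ↦ b + κ e^{-2j}`; both measure preserving).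
So the set of `(u, b, κ)`, `κ ∈ [0,1]`, for which the spread condition fails has measure `≤ 8 volume Bd + 16^3 exp (-e)`; `markov_fubini`.

`partA`. Given `ε` (`≤ 1` WLOG) and `m0`: choose `θ` small (`C θ * .. ≤ ε/8`, `θ ≤ θ0`), `η` so small that `C η ≤ ε` for all the constants, `C η ≤ 1` (so `C e ≤ a`), and `C η/θ, C η/ε ≤ ε/8`; `m1 ≥ m0` such that for `a ≥ m1`: `K ≤ η a`, `log (100 a + 100) ≤ η a`,
`(C/ε) exp (- η a) ≤ ε/8`. `diff_QM` for `η`, `m1`. For the scale `a ∈ R`: the depths `j < n` with `j + 4a + 10 > n` are at most `4a + 10 ≤ 4 max R + 10`, each contributes at most `16^3`: `≤ ε n/8` for `n ≥ n0`. For the others: if `(u,b)` is in neither bad set,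
`UnitP F (exp n • u) b j a (ε a)`: `|rho - |i - i'|| ≤ e + |c - 1| a ≤ (1 + C) η a ≤ ε a` (natural numbers `i, i' ≤ a` are integers in `[-8a, 8a]`), and `SpreadP .. (ε a) ε` from `SpreadP .. (C e) ε`, `C η ≤ ε` (monotone). Sum over `j`:
`Σ_j C (θ + volume Bd_j / θ) + (C/ε)(volume Bd_j + exp (-e)) ≤ C θ n + C η n/θ + (C/ε) η n + ε n/8`.
-/

set_option autoImplicit false

namespace Pool.Agent.FIB

open UpperHalfPlane MeasureTheory Set

private lemma AAsm_shear {S : Set (V × ℝ)} (hS : MeasurableSet S) (y : ℝ → V) (hy : Measurable y)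
    (d : ℝ) : volume {q : V × ℝ | (q.1 + y q.2, q.2 + d) ∈ S} = volume S := by
  have hm : Measurable fun q : V × ℝ => (q.1 + y q.2, q.2 + d) :=
    (measurable_fst.add (hy.comp measurable_snd)).prodMk (measurable_snd.add_const d)
  have h1 : volume {q : V × ℝ | (q.1 + y q.2, q.2 + d) ∈ S} =
      ∫⁻ b : ℝ, volume {u : V | (u + y b, b + d) ∈ S} := Measure.prod_apply_symm (hm hS)
  have h2 : volume S = ∫⁻ b : ℝ, volume {u : V | (u, b) ∈ S} := Measure.prod_apply_symm hS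
  have h3 : ∀ b : ℝ, volume {u : V | (u + y b, b + d) ∈ S} = volume {u : V | (u, b + d) ∈ S} := by
    intro b
    exact measure_preimage_add_right volume (y b) {u : V | (u, b + d) ∈ S}
  rw [h1, h2]
  simp only [h3]
  exact lintegral_add_right_eq_self (fun b : ℝ => volume {u : V | (u, b) ∈ S}) d

private lemma AAsm_box {M : ℝ} {v : V} : v ∈ box M ↔ |v.1| ≤ M ∧ |v.2| ≤ M := by
  rw [box, Set.mem_prod, Set.mem_Icc, Set.mem_Icc, abs_le, abs_le]

private lemma AAsm_box_meas (M : ℝ) : MeasurableSet (box M) :=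
  measurableSet_Icc.prod measurableSet_Icc

private lemma AAsm_box_vol {M : ℝ} (hM : 0 ≤ M) : volume (box M) = ENNReal.ofReal ((2 * M) ^ 2) := by
  have h1 : volume (box M) = volume (Icc (-M) M) * volume (Icc (-M) M) := Measure.prod_prod _ _
  rw [h1, Real.volume_Icc, ← ENNReal.ofReal_mul (by linarith)]
  congr 1
  ring

private lemma AAsm_box_add {M M' : ℝ} {v w : V} (hv : v ∈ box M) (hw : w ∈ box M') :
    v + w ∈ box (M + M') := by
  rw [AAsm_box] at *
  refine ⟨?_, ?_⟩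
  · rw [Prod.fst_add]; exact (abs_add_le _ _).trans (add_le_add hv.1 hw.1)
  · rw [Prod.snd_add]; exact (abs_add_le _ _).trans (add_le_add hv.2 hw.2)

private lemma AAsm_box_sub {M M' : ℝ} {v w : V} (hv : v ∈ box M) (hw : w ∈ box M') :
    v - w ∈ box (M + M') := by
  rw [AAsm_box] at *
  refine ⟨?_, ?_⟩
  · rw [Prod.fst_sub]; exact (abs_sub _ _).trans (add_le_add hv.1 hw.1)
  · rw [Prod.snd_sub]; exact (abs_sub _ _).trans (add_le_add hv.2 hw.2)

private lemma AAsm_box_mono {M M' : ℝ} (h : M ≤ M') {v : V} (hv : v ∈ box M) : v ∈ box M' := by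
  rw [AAsm_box] at *
  exact ⟨hv.1.trans h, hv.2.trans h⟩

private lemma AAsm_exp10 : (30 : ℝ) ≤ Real.exp 10 := by
  have h1 := Real.quadratic_le_exp_of_nonneg (show (0 : ℝ) ≤ 10 by norm_num)
  linarith

/-- `27 e^{j + 4a - n} ≤ 1` and similar. -/
private lemma AAsm_small {x : ℝ} (h : x ≤ -10) : 27 * Real.exp x ≤ 1 := by
  have h1 : Real.exp x ≤ Real.exp (-10) := Real.exp_le_exp.2 h
  have h2 : Real.exp (-10) * Real.exp 10 = 1 := by rw [← Real.exp_add]; simp
  have h3 := AAsm_exp10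
  have h4 := Real.exp_pos (-10 : ℝ)
  nlinarith

/-- The shifts. -/
private lemma AAsm_y {n j a : ℕ} (hn : j + 4 * a + 10 ≤ n) {b : ℝ} (hb : |b| ≤ 8) {v : V}
    (hv : v ∈ box (3 * Real.exp (4 * a))) :
    Real.exp (-(n : ℝ)) • act (fr b j) v ∈ box 1 := by
  rw [AAsm_box] at hv
  obtain ⟨h1, h2⟩ := hv
  have hn' : (j : ℝ) + 4 * a + 10 ≤ n := by exact_mod_cast hn
  have hj : (0 : ℝ) ≤ j := Nat.cast_nonneg j
  have h3 := AAsm_small (show (j : ℝ) + 4 * a - n ≤ -10 by linarith)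
  have e1' : Real.exp ((j : ℝ) + 4 * a - n) =
      Real.exp (-(n : ℝ)) * (Real.exp j * Real.exp (4 * a)) := by
    rw [← Real.exp_add, ← Real.exp_add]; congr 1; ring
  have hpn := Real.exp_pos (-(n : ℝ))
  have hpj := Real.exp_pos (j : ℝ)
  have hpa := Real.exp_pos (4 * a : ℝ)
  have hj1 : Real.exp (-(j : ℝ)) ≤ Real.exp j := Real.exp_le_exp.2 (by linarith)
  have hjp := Real.exp_pos (-(j : ℝ))
  rw [act_fr, AAsm_box]
  simp only [Prod.smul_mk, smul_eq_mul]
  rw [e1'] at h3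
  set P := Real.exp (-(n : ℝ))
  set J := Real.exp (j : ℝ)
  set A := Real.exp (4 * a : ℝ)
  have h4 : |J * v.2| ≤ J * (3 * A) := by
    rw [abs_mul, abs_of_pos hpj]
    exact mul_le_mul_of_nonneg_left h2 hpj.le
  constructor
  · rw [abs_mul, abs_of_pos hpn]
    have h5 : |Real.exp (-(j : ℝ)) * v.1 + b * J * v.2| ≤ 27 * (J * A) := by
      refine (abs_add_le _ _).trans ?_
      have h6 : |Real.exp (-(j : ℝ)) * v.1| ≤ J * (3 * A) := by
        rw [abs_mul, abs_of_pos hjp]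
        exact mul_le_mul hj1 h1 (abs_nonneg _) hpj.le
      have h7 : |b * J * v.2| ≤ 8 * (J * (3 * A)) := by
        rw [mul_assoc, abs_mul]
        exact mul_le_mul hb h4 (abs_nonneg _) (by norm_num)
      linarith
    calc P * |Real.exp (-(j : ℝ)) * v.1 + b * J * v.2| ≤ P * (27 * (J * A)) :=
          mul_le_mul_of_nonneg_left h5 hpn.le
      _ = 27 * (P * (J * A)) := by ring
      _ ≤ 1 := h3
  · rw [abs_mul, abs_of_pos hpn]
    calc P * |J * v.2| ≤ P * (J * (3 * A)) := mul_le_mul_of_nonneg_left h4 hpn.le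
      _ = 3 * (P * (J * A)) := by ring
      _ ≤ 27 * (P * (J * A)) := by
          have : 0 ≤ P * (J * A) := by positivity
          linarith
      _ ≤ 1 := h3

private lemma AAsm_resc (n : ℕ) (u x : V) :
    Real.exp (n : ℝ) • u + x = Real.exp (n : ℝ) • (u + Real.exp (-(n : ℝ)) • x) := by
  rw [smul_add, smul_smul, ← Real.exp_add]
  simp

section tools2

variable {α β : Type*} [MeasureSpace α] [MeasureSpace β] [SigmaFinite (volume : Measure α)]
  [SigmaFinite (volume : Measure β)]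

private lemma AAsm_fib {S : Set (α × β)} (hS : MeasurableSet S) {A : Set β} (hA : MeasurableSet A)
    {c : ENNReal} (h : ∀ b ∈ A, volume {a : α | (a, b) ∈ S} ≤ c)
    (h0 : ∀ a b, (a, b) ∈ S → b ∈ A) : volume S ≤ c * volume A := by
  have h1 : volume S = ∫⁻ b : β, volume {a : α | (a, b) ∈ S} := Measure.prod_apply_symm hS
  rw [h1]
  have h2 : ∀ b : β, volume {a : α | (a, b) ∈ S} ≤ A.indicator (fun _ => c) b := by
    intro b
    by_cases hb : b ∈ A
    · rw [Set.indicator_of_mem hb]; exact h b hb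
    · have h3 : {a : α | (a, b) ∈ S} = ∅ := by
        ext a
        simp only [Set.mem_ofPred_eq, Set.mem_empty_iff_false, iff_false]
        exact fun h4 => hb (h0 a b h4)
      rw [h3, measure_empty]
      exact bot_le
  refine (lintegral_mono h2).trans ?_
  rw [lintegral_indicator hA, lintegral_const, Measure.restrict_apply_univ]

omit [SigmaFinite (volume : Measure α)] in
private lemma AAsm_fib2 {S : Set (α × β)} (hS : MeasurableSet S) {A B : Set α}
    (hA : MeasurableSet A) {c1 c2 : ENNReal}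
    (h : ∀ a ∈ A, a ∉ B → volume {b : β | (a, b) ∈ S} ≤ c1)
    (h' : ∀ a ∈ A, volume {b : β | (a, b) ∈ S} ≤ c2)
    (h0 : ∀ a b, (a, b) ∈ S → a ∈ A) : volume S ≤ c1 * volume A + c2 * volume B := by
  set B' := toMeasurable volume B with hB'
  have hBm : MeasurableSet B' := measurableSet_toMeasurable _ _
  have h1 : volume S = ∫⁻ a : α, volume {b : β | (a, b) ∈ S} := Measure.prod_apply hS
  rw [h1]
  have h2 : ∀ a : α, volume {b : β | (a, b) ∈ S} ≤
      A.indicator (fun _ => c1) a + B'.indicator (fun _ => c2) a := by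
    intro a
    by_cases ha : a ∈ A
    · rw [Set.indicator_of_mem ha]
      by_cases hb : a ∈ B'
      · rw [Set.indicator_of_mem hb]
        exact (h' a ha).trans (self_le_add_left _ _)
      · exact (h a ha (fun hb' => hb (subset_toMeasurable _ _ hb'))).trans (self_le_add_right _ _)
    · have h3 : {b : β | (a, b) ∈ S} = ∅ := by
        ext b
        simp only [Set.mem_ofPred_eq, Set.mem_empty_iff_false, iff_false]
        exact fun h4 => ha (h0 a b h4)
      rw [h3, measure_empty]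
      exact bot_le
  refine (lintegral_mono h2).trans ?_
  rw [lintegral_add_left (measurable_const.indicator hA), lintegral_indicator hA,
    lintegral_indicator hBm, lintegral_const, lintegral_const, Measure.restrict_apply_univ,
    Measure.restrict_apply_univ, hB', measure_toMeasurable]

private lemma AAsm_low {S : Set (α × β)} (hS : MeasurableSet S) {A : Set β} (hA : MeasurableSet A)
    {c : ENNReal} (h : ∀ b ∈ A, c ≤ volume {a : α | (a, b) ∈ S}) : c * volume A ≤ volume S := by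
  have h1 : volume S = ∫⁻ b : β, volume {a : α | (a, b) ∈ S} := Measure.prod_apply_symm hS
  rw [h1]
  have h2 : ∀ b : β, A.indicator (fun _ => c) b ≤ volume {a : α | (a, b) ∈ S} := by
    intro b
    by_cases hb : b ∈ A
    · rw [Set.indicator_of_mem hb]; exact h b hb
    · rw [Set.indicator_of_notMem hb]; exact bot_le
  refine le_trans ?_ (lintegral_mono h2)
  rw [lintegral_indicator hA, lintegral_const, Measure.restrict_apply_univ]

end tools2

private lemma AAsm_off {a : ℕ} {d v : V}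
    (hd : d = 0 ∨ d = (Real.exp (3 * a) / 2) • e1 ∨ d = (Real.exp (3 * a) / 2) • ev 0 ∨
      d = (Real.exp (3 * a) / 2) • ev 1) (hv : v ∈ box (2 * Real.exp a)) :
    d + v ∈ box (3 * Real.exp (4 * a)) := by
  have ha : (0 : ℝ) ≤ a := Nat.cast_nonneg a
  have h1 : Real.exp (3 * a : ℝ) ≤ Real.exp (4 * a) := Real.exp_le_exp.2 (by linarith)
  have h2 : Real.exp (a : ℝ) ≤ Real.exp (4 * a) := Real.exp_le_exp.2 (by linarith)
  have h3 := Real.exp_pos (3 * a : ℝ)
  have hd' : d ∈ box (Real.exp (3 * a) / 2) := by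
    rw [AAsm_box]
    rcases hd with rfl | rfl | rfl | rfl
    · simp only [Prod.fst_zero, Prod.snd_zero, abs_zero]
      constructor <;> linarith
    · simp only [e1, Prod.smul_mk, smul_eq_mul, mul_one, mul_zero, abs_zero]
      rw [abs_of_pos (by linarith)]
      constructor <;> linarith
    · simp only [ev, Prod.smul_mk, smul_eq_mul, mul_one, mul_zero, abs_zero]
      rw [abs_of_pos (by linarith)]
      constructor <;> linarith
    · simp only [ev, Prod.smul_mk, smul_eq_mul, mul_one]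
      rw [abs_of_pos (by linarith)]
      constructor <;> linarith
  exact AAsm_box_mono (by linarith) (AAsm_box_add hd' hv)

/-- The sections for fixed `b`. -/
private lemma AAsm_unit_fix (K : ℝ) (hK : 1 ≤ K) : ∃ C θ0 : ℝ, 1 ≤ C ∧ 0 < θ0 ∧
    ∀ (F : QM K) (n j a : ℕ) (e θ b : ℝ), K ≤ e → Real.log (100 * a + 100) ≤ e → C * e ≤ a →
      0 < θ → θ ≤ θ0 → |b| ≤ 8 → j + 4 * a + 10 ≤ n →
      volume {u : V | u ∈ box 8 ∧
        ¬ ∃ c : ℝ, |c - 1| ≤ C * e / a ∧ GC F (Real.exp n • u) b j (8 * a) c e} ≤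
        ENNReal.ofReal (2 ^ 18 * C * θ) + ENNReal.ofReal (64 / θ) *
          volume {u : V | u ∈ box 32 ∧ ¬ (GG F (Real.exp n • u) b j (8 * a) e ∧
            GG F (Real.exp n • u) (b + Real.exp (-2 * j)) j (8 * a) e)} := by
  obtain ⟨C, θ0, hC, hθ0, hU⟩ := unit_local K hK
  refine ⟨C, θ0, hC, hθ0, fun F n j a e θ b he hlog hCe hθ hθ' hb hn => ?_⟩
  set T : Set V := {u : V | u ∈ box 32 ∧ ¬ (GG F (Real.exp n • u) b j (8 * a) e ∧
            GG F (Real.exp n • u) (b + Real.exp (-2 * j)) j (8 * a) e)} with hT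
  have hms : Measurable fun u : V => Real.exp (n : ℝ) • u := measurable_const_smul _
  have hTm : MeasurableSet T := by
    refine (AAsm_box_meas 32).inter ?_
    refine MeasurableSet.compl ?_
    exact (GG_meas F (8 * a) e (fun u : V => Real.exp (n : ℝ) • u) (fun _ => b) (fun _ => (j : ℝ))
      hms measurable_const measurable_const).inter
      (GG_meas F (8 * a) e (fun u : V => Real.exp (n : ℝ) • u)
        (fun _ => b + Real.exp (-2 * j)) (fun _ => (j : ℝ)) hms measurable_const measurable_const)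
  have hTfin : volume T ≠ ⊤ := by
    have h1 : volume T ≤ volume (box 32) := measure_mono fun u hu => hu.1
    rw [AAsm_box_vol (by norm_num)] at h1
    exact (h1.trans_lt ENNReal.ofReal_lt_top).ne
  set D : ℝ := (volume T).toReal with hD
  have hDT : volume T = ENNReal.ofReal D := (ENNReal.ofReal_toReal hTfin).symm
  have hD0 : 0 ≤ D := ENNReal.toReal_nonneg
  set y : V → V := fun v => Real.exp (-(n : ℝ)) • act (fr b j) v with hy
  have hym : Measurable y := (measurable_const_smul (Real.exp (-(n : ℝ)))).comp (measurable_act (fr b j))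
  have hea := Real.exp_pos (a : ℝ)
  have he2 : Real.exp (2 * a : ℝ) = Real.exp a ^ 2 := by
    rw [← Real.exp_nat_mul]; push_cast; rfl
  -- the bad offsets
  set Off : Set V := {d : V | d = 0 ∨ d = (Real.exp (3 * a) / 2) • e1 ∨
    d = (Real.exp (3 * a) / 2) • ev 0 ∨ d = (Real.exp (3 * a) / 2) • ev 1} with hOff
  set Sd : V → Set (V × V) := fun d => {p : V × V | p.1 ∈ box 16 ∧ p.2 ∈ box (2 * Real.exp a) ∧
    p.1 + y (d + p.2) ∈ T} with hSd
  have hSdm : ∀ d, MeasurableSet (Sd d) := by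
    intro d
    refine (measurable_fst (AAsm_box_meas 16)).inter ((measurable_snd (AAsm_box_meas _)).inter ?_)
    exact (measurable_fst.add (hym.comp (measurable_snd.const_add d))) hTm
  have hSdv : ∀ d, volume (Sd d) ≤ ENNReal.ofReal (16 * D / θ * (θ * Real.exp (2 * a))) := by
    intro d
    have h1 := AAsm_fib (hSdm d) (AAsm_box_meas (2 * Real.exp a)) (c := volume T)
      (fun v _ => by
        refine le_trans (measure_mono (t := {u : V | u + y (d + v) ∈ T}) fun u hu => hu.2.2) ?_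
        exact (measure_preimage_add_right volume (y (d + v)) T).le)
      (fun u v huv => huv.2.1)
    refine h1.trans ?_
    rw [AAsm_box_vol (by positivity), hDT, ← ENNReal.ofReal_mul hD0]
    apply ENNReal.ofReal_le_ofReal
    rw [he2]
    field_simp
    ring_nf
    rfl
  set Ub : V → Set V := fun d => {u : V | ENNReal.ofReal (θ * Real.exp (2 * a)) <
    volume {v : V | (u, v) ∈ Sd d}} with hUb
  have hUbv : ∀ d, volume (Ub d) ≤ ENNReal.ofReal (16 * D / θ) := by
    intro d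
    exact markov_fubini (hSdm d) (by positivity) (by positivity) (hSdv d)
  set U0 : Set V := Ub 0 ∪ (Ub ((Real.exp (3 * a) / 2) • e1) ∪
    (Ub ((Real.exp (3 * a) / 2) • ev 0) ∪ Ub ((Real.exp (3 * a) / 2) • ev 1))) with hU0
  have hU0v : volume U0 ≤ ENNReal.ofReal (64 * D / θ) := by
    have h1 := measure_union_le (μ := volume) (Ub 0) (Ub ((Real.exp (3 * a) / 2) • e1) ∪
      (Ub ((Real.exp (3 * a) / 2) • ev 0) ∪ Ub ((Real.exp (3 * a) / 2) • ev 1)))
    have h2 := measure_union_le (μ := volume) (Ub ((Real.exp (3 * a) / 2) • e1))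
      (Ub ((Real.exp (3 * a) / 2) • ev 0) ∪ Ub ((Real.exp (3 * a) / 2) • ev 1))
    have h3 := measure_union_le (μ := volume) (Ub ((Real.exp (3 * a) / 2) • ev 0))
      (Ub ((Real.exp (3 * a) / 2) • ev 1))
    refine h1.trans ((add_le_add (hUbv _) (h2.trans (add_le_add (hUbv _)
      (h3.trans (add_le_add (hUbv _) (hUbv _)))))).trans ?_)
    rw [← ENNReal.ofReal_add (by positivity) (by positivity),
      ← ENNReal.ofReal_add (by positivity) (by positivity),
      ← ENNReal.ofReal_add (by positivity) (by positivity)]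
    apply ENNReal.ofReal_le_ofReal
    apply le_of_eq
    ring
  have hUmem : ∀ u, u ∉ U0 → ∀ d ∈ Off, u ∉ Ub d := by
    intro u hu d hd hud
    apply hu
    rcases hd with rfl | rfl | rfl | rfl
    · exact Or.inl hud
    · exact Or.inr (Or.inl hud)
    · exact Or.inr (Or.inr (Or.inl hud))
    · exact Or.inr (Or.inr (Or.inr hud))
  have hDens : ∀ u ∈ box 16, u ∉ U0 → Dens (F.tr (Real.exp n • u) (fr b j)) a e θ := by
    intro u hu huU d hd
    have h1 := hUmem u huU d hd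
    simp only [hUb, Set.mem_ofPred_eq, not_lt] at h1
    refine le_trans (measure_mono ?_) h1
    intro v hv
    obtain ⟨hv1, hv2⟩ := hv
    have hyb : y (d + v) ∈ box 1 := AAsm_y hn hb (AAsm_off hd hv1)
    refine ⟨hu, hv1, AAsm_box_mono (by norm_num) (AAsm_box_add hu hyb), ?_⟩
    intro hg
    apply hv2
    have hres : Real.exp (n : ℝ) • u + act (fr b j) (d + v) = Real.exp (n : ℝ) • (u + y (d + v)) :=
      AAsm_resc n u _
    rw [GG_tr, GG_tr, hres]
    simpa using hg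
  -- the target
  set B' : Set V := {u : V | ¬ ∃ c : ℝ, |c - 1| ≤ C * e / a ∧
    GC F (Real.exp n • u) b j (8 * a) c e} with hB'
  have hB'm : MeasurableSet B' :=
    (GC1_meas F (8 * a) e (C * e / a) (fun u : V => Real.exp (n : ℝ) • u) (fun _ => b)
      (fun _ => (j : ℝ)) hms measurable_const measurable_const).compl
  set Q : Set (V × V) := {p : V × V | p.1 ∈ box 16 ∧ p.2 ∈ box (Real.exp a / 32) ∧
    p.1 + y p.2 ∈ B'} with hQ
  have hQm : MeasurableSet Q := by
    refine (measurable_fst (AAsm_box_meas 16)).inter ((measurable_snd (AAsm_box_meas _)).inter ?_)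
    exact (measurable_fst.add (hym.comp measurable_snd)) hB'm
  have hQup := AAsm_fib2 hQm (A := box 16) (B := U0) (AAsm_box_meas 16)
    (c1 := ENNReal.ofReal (C * θ * Real.exp (2 * a))) (c2 := volume (box (Real.exp a / 32)))
    (fun u hu huU => by
      refine le_trans (measure_mono ?_)
        (hU (F.tr (Real.exp n • u) (fr b j)) a e θ he hlog hCe hθ.le hθ' (hDens u hu huU))
      rintro v ⟨-, hv2, hv3⟩
      refine ⟨hv2, fun hc => hv3 ?_⟩
      obtain ⟨c, hc1, hc2⟩ := hc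
      refine ⟨c, hc1, ?_⟩
      rw [GC_tr, AAsm_resc] at hc2
      simpa using hc2)
    (fun u _ => measure_mono fun v hv => hv.2.1)
    (fun u v huv => huv.1)
  have hQlow := AAsm_low hQm (A := box (Real.exp a / 32)) (AAsm_box_meas _)
    (c := volume {u : V | u ∈ box 8 ∧ u ∈ B'})
    (fun v hv => by
      have hyb : y v ∈ box 1 := by
        apply AAsm_y hn hb
        refine AAsm_box_mono ?_ hv
        have h2 : Real.exp (a : ℝ) ≤ Real.exp (4 * a) :=
          Real.exp_le_exp.2 (by have := Nat.cast_nonneg (α := ℝ) a; linarith)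
        linarith
      rw [← measure_preimage_add_right volume (y v) {u : V | u ∈ box 8 ∧ u ∈ B'}]
      refine measure_mono ?_
      rintro u ⟨hu1, hu2⟩
      refine ⟨?_, hv, hu2⟩
      have h3 := AAsm_box_sub hu1 hyb
      rw [add_sub_cancel_right] at h3
      exact AAsm_box_mono (by norm_num) h3)
  have hfin8 : volume {u : V | u ∈ box 8 ∧ u ∈ B'} ≠ ⊤ := by
    have h1 : volume {u : V | u ∈ box 8 ∧ u ∈ B'} ≤ volume (box 8) := measure_mono fun u hu => hu.1
    rw [AAsm_box_vol (by norm_num)] at h1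
    exact (h1.trans_lt ENNReal.ofReal_lt_top).ne
  change volume {u : V | u ∈ box 8 ∧ u ∈ B'} ≤ _
  set m : ℝ := (volume {u : V | u ∈ box 8 ∧ u ∈ B'}).toReal with hm
  have hmv : volume {u : V | u ∈ box 8 ∧ u ∈ B'} = ENNReal.ofReal m :=
    (ENNReal.ofReal_toReal hfin8).symm
  have hm0 : 0 ≤ m := ENNReal.toReal_nonneg
  have hfinal := hQlow.trans (hQup.trans (add_le_add le_rfl (mul_le_mul_right hU0v _)))
  rw [hmv, AAsm_box_vol (by positivity), AAsm_box_vol (by norm_num),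
    ← ENNReal.ofReal_mul hm0, ← ENNReal.ofReal_mul (by positivity),
    ← ENNReal.ofReal_mul (by positivity), ← ENNReal.ofReal_add (by positivity) (by positivity),
    ENNReal.ofReal_le_ofReal_iff (by positivity)] at hfinal
  rw [hmv, hDT, ← ENNReal.ofReal_mul (by positivity),
    ← ENNReal.ofReal_add (by positivity) (by positivity)]
  apply ENNReal.ofReal_le_ofReal
  rw [he2] at hfinal
  have hE : (0 : ℝ) < Real.exp a ^ 2 / 256 := by positivity
  have e3 : m * (2 * (Real.exp a / 32)) ^ 2 = m * (Real.exp (a : ℝ) ^ 2 / 256) := by ring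
  have e4 : C * θ * Real.exp a ^ 2 * (2 * 16) ^ 2 +
      (2 * (Real.exp a / 32)) ^ 2 * (64 * D / θ) =
      (2 ^ 18 * C * θ + 64 / θ * D) * (Real.exp (a : ℝ) ^ 2 / 256) := by ring
  rw [e3, e4] at hfinal
  exact le_of_mul_le_mul_right hfinal hE

private lemma AAsm_ms (n : ℕ) : Measurable fun q : V × ℝ => Real.exp (n : ℝ) • q.1 :=
  (measurable_const_smul (Real.exp (n : ℝ))).comp measurable_fst

private lemma AAsm_Bd_meas {K : ℝ} (F : QM K) (n j a : ℕ) (e : ℝ) :
    MeasurableSet {q : V × ℝ | q.1 ∈ box 32 ∧ q.2 ∈ Icc (-32) 32 ∧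
        ¬ GG F (Real.exp n • q.1) q.2 j (8 * a) e} := by
  refine (measurable_fst (AAsm_box_meas 32)).inter ((measurable_snd measurableSet_Icc).inter ?_)
  exact (GG_meas F (8 * a) e (fun q : V × ℝ => Real.exp (n : ℝ) • q.1) (fun q => q.2)
    (fun _ => (j : ℝ)) (AAsm_ms n) measurable_snd measurable_const).compl

theorem unit_avg (K : ℝ) (hK : 1 ≤ K) : ∃ C θ0 : ℝ, 1 ≤ C ∧ 0 < θ0 ∧
    ∀ (F : QM K) (n j a : ℕ) (e θ β : ℝ), K ≤ e → Real.log (100 * a + 100) ≤ e → C * e ≤ a →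
      0 < θ → θ ≤ θ0 → 0 ≤ β → j + 4 * a + 10 ≤ n →
      volume {q : V × ℝ | q.1 ∈ box 32 ∧ q.2 ∈ Icc (-32) 32 ∧
        ¬ GG F (Real.exp n • q.1) q.2 j (8 * a) e} ≤ ENNReal.ofReal β →
      volume {q : V × ℝ | q.1 ∈ box 8 ∧ q.2 ∈ Icc (-8) 8 ∧
        ¬ ∃ c : ℝ, |c - 1| ≤ C * e / a ∧ GC F (Real.exp n • q.1) q.2 j (8 * a) c e} ≤
        ENNReal.ofReal (C * (θ + β / θ)) := by
  obtain ⟨C, θ0, hC, hθ0, hU⟩ := AAsm_unit_fix K hK
  refine ⟨2 ^ 23 * C, θ0, by linarith, hθ0, fun F n j a e θ β he hlog hCe hθ hθ' hβ hn hB => ?_⟩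
  have he0 : 0 ≤ e := by linarith
  have hCe' : C * e ≤ a := by
    refine le_trans ?_ hCe
    have : 0 ≤ C * e := by positivity
    nlinarith
  set Bd : Set (V × ℝ) := {q : V × ℝ | q.1 ∈ box 32 ∧ q.2 ∈ Icc (-32) 32 ∧
        ¬ GG F (Real.exp n • q.1) q.2 j (8 * a) e} with hBd
  have hBdm : MeasurableSet Bd := AAsm_Bd_meas F n j a e
  set W : Set (V × ℝ) := {q : V × ℝ | q.1 ∈ box 8 ∧ q.2 ∈ Icc (-8) 8 ∧
    ¬ ∃ c : ℝ, |c - 1| ≤ C * e / a ∧ GC F (Real.exp n • q.1) q.2 j (8 * a) c e} with hW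
  have hms : Measurable fun q : V × ℝ => Real.exp (n : ℝ) • q.1 := AAsm_ms n
  have hWm : MeasurableSet W := by
    refine (measurable_fst (AAsm_box_meas 8)).inter ((measurable_snd measurableSet_Icc).inter ?_)
    exact (GC1_meas F (8 * a) e (C * e / a) (fun q : V × ℝ => Real.exp (n : ℝ) • q.1)
      (fun q => q.2) (fun _ => (j : ℝ)) hms measurable_snd measurable_const).compl
  set TT : Set (V × ℝ) := {q : V × ℝ | q.2 ∈ Icc (-8) 8 ∧ (q.1 ∈ box 32 ∧
    ¬ (GG F (Real.exp n • q.1) q.2 j (8 * a) e ∧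
      GG F (Real.exp n • q.1) (q.2 + Real.exp (-2 * j)) j (8 * a) e))} with hTT
  have hTTm : MeasurableSet TT := by
    refine (measurable_snd measurableSet_Icc).inter ((measurable_fst (AAsm_box_meas 32)).inter ?_)
    refine MeasurableSet.compl ?_
    exact (GG_meas F (8 * a) e (fun q : V × ℝ => Real.exp (n : ℝ) • q.1) (fun q => q.2)
      (fun _ => (j : ℝ)) hms measurable_snd measurable_const).inter
      (GG_meas F (8 * a) e (fun q : V × ℝ => Real.exp (n : ℝ) • q.1)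
        (fun q => q.2 + Real.exp (-2 * j)) (fun _ => (j : ℝ)) hms (measurable_snd.add_const _)
        measurable_const)
  have hexp1 : Real.exp (-2 * (j : ℝ)) ≤ 1 := by
    rw [Real.exp_le_one_iff]
    have := Nat.cast_nonneg (α := ℝ) j
    linarith
  have hexp0 := Real.exp_pos (-2 * (j : ℝ))
  have hTTv : volume TT ≤ ENNReal.ofReal (2 * β) := by
    have h1 : TT ⊆ Bd ∪ {q : V × ℝ | (q.1 + (fun _ : ℝ => (0 : V)) q.2,
        q.2 + Real.exp (-2 * j)) ∈ Bd} := by
      rintro q ⟨hq1, hq2, hq3⟩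
      obtain ⟨h5, h6⟩ := hq1
      by_cases hg : GG F (Real.exp n • q.1) q.2 j (8 * a) e
      · right
        refine ⟨?_, ⟨?_, ?_⟩, ?_⟩
        · simpa using hq2
        · change -32 ≤ q.2 + Real.exp (-2 * j); linarith
        · change q.2 + Real.exp (-2 * j) ≤ 32; linarith
        · simpa using fun h7 => hq3 ⟨hg, h7⟩
      · left
        exact ⟨hq2, ⟨by linarith, by linarith⟩, hg⟩
    refine (measure_mono h1).trans ((measure_union_le _ _).trans ?_)
    rw [AAsm_shear hBdm (fun _ => 0) measurable_const]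
    refine (add_le_add hB hB).trans ?_
    rw [← ENNReal.ofReal_add hβ hβ]
    apply ENNReal.ofReal_le_ofReal
    linarith
  have hWv : volume W ≤ ENNReal.ofReal (2 ^ 18 * C * θ) * volume (Icc (-8 : ℝ) 8) +
      ENNReal.ofReal (64 / θ) * volume TT := by
    have h1 : volume W = ∫⁻ b : ℝ, volume {u : V | (u, b) ∈ W} := Measure.prod_apply_symm hWm
    have h2 : volume TT = ∫⁻ b : ℝ, volume {u : V | (u, b) ∈ TT} := Measure.prod_apply_symm hTTm
    have h3 : Measurable fun b : ℝ => volume {u : V | (u, b) ∈ TT} :=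
      measurable_measure_prodMk_right hTTm
    have h4 : ∀ b : ℝ, volume {u : V | (u, b) ∈ W} ≤
        (Icc (-8 : ℝ) 8).indicator (fun _ => ENNReal.ofReal (2 ^ 18 * C * θ)) b +
          ENNReal.ofReal (64 / θ) * volume {u : V | (u, b) ∈ TT} := by
      intro b
      by_cases hb : b ∈ Icc (-8 : ℝ) 8
      · rw [Set.indicator_of_mem hb]
        have h5 := hU F n j a e θ b he hlog hCe' hθ hθ' (abs_le.2 hb) hn
        refine (measure_mono ?_).trans (h5.trans (add_le_add le_rfl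
          (mul_le_mul_right (measure_mono ?_) _)))
        · rintro u ⟨hu1, -, hu3⟩
          exact ⟨hu1, hu3⟩
        · rintro u hu
          exact ⟨hb, hu⟩
      · have h6 : {u : V | (u, b) ∈ W} = ∅ := by
          ext u
          simp only [Set.mem_ofPred_eq, Set.mem_empty_iff_false, iff_false]
          exact fun h7 => hb h7.2.1
        rw [h6, measure_empty]
        exact bot_le
    rw [h1]
    refine (lintegral_mono h4).trans ?_
    rw [lintegral_add_left (measurable_const.indicator measurableSet_Icc),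
      lintegral_indicator measurableSet_Icc, lintegral_const, Measure.restrict_apply_univ,
      lintegral_const_mul _ h3, ← h2]
  refine (measure_mono (t := W) ?_).trans (hWv.trans ?_)
  · rintro q ⟨hq1, hq2, hq3⟩
    refine ⟨hq1, hq2, fun hc => hq3 ?_⟩
    obtain ⟨c, hc1, hc2⟩ := hc
    refine ⟨c, hc1.trans ?_, hc2⟩
    apply div_le_div_of_nonneg_right _ (Nat.cast_nonneg a)
    have : 0 ≤ C * e := by positivity
    nlinarith
  · refine (add_le_add le_rfl (mul_le_mul_right hTTv _)).trans ?_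
    rw [Real.volume_Icc, ← ENNReal.ofReal_mul (by positivity), ← ENNReal.ofReal_mul (by positivity),
      ← ENNReal.ofReal_add (by positivity) (by positivity)]
    apply ENNReal.ofReal_le_ofReal
    have h1 : 0 ≤ β / θ := by positivity
    have h2 : 64 / θ * (2 * β) = 128 * (β / θ) := by ring
    rw [h2]
    have h3 : 0 ≤ C * θ := by positivity
    have h4 : β / θ ≤ C * (β / θ) := by nlinarith
    nlinarith

private lemma AAsm_GG_sub {K : ℝ} (F : QM K) (w : V) (b j : ℝ) {a : ℕ} {e : ℝ}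
    (h : GG F w b j (8 * a) e) : GG F w b j (2 * a) e := by
  obtain ⟨c, h1, h2, h3⟩ := h
  refine ⟨c, h1, h2, ?_⟩
  have h4 := GC_sub F w b j (8 * a) (2 * a) 0 c e h3 (by simp only [abs_zero]; push_cast; omega)
  simpa using h4

/-- The good windows for a shift. -/
private lemma AAsm_shift {K : ℝ} (F : QM K) {n j a : ℕ} {e β : ℝ}
    (hB : volume {q : V × ℝ | q.1 ∈ box 32 ∧ q.2 ∈ Icc (-32) 32 ∧
        ¬ GG F (Real.exp n • q.1) q.2 j (8 * a) e} ≤ ENNReal.ofReal β)
    (x : ℝ → V) (hx : Measurable x) (d : ℝ) (hd : |d| ≤ 1)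
    (hxb : ∀ b ∈ Icc (-8 : ℝ) 8, Real.exp (-(n : ℝ)) • x b ∈ box 1) :
    volume {q : V × ℝ | q.1 ∈ box 8 ∧ q.2 ∈ Icc (-8) 8 ∧
      ¬ GG F (Real.exp n • q.1 + x q.2) (q.2 + d) j (2 * a) e} ≤ ENNReal.ofReal β := by
  refine le_trans (measure_mono ?_)
    ((AAsm_shear (AAsm_Bd_meas F n j a e) (fun b => Real.exp (-(n : ℝ)) • x b)
      ((measurable_const_smul (Real.exp (-(n : ℝ)))).comp hx) d).le.trans hB)
  rintro q ⟨hq1, hq2, hq3⟩
  obtain ⟨h5, h6⟩ := hq2
  obtain ⟨h7, h8⟩ := abs_le.1 hd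
  refine ⟨AAsm_box_mono (by norm_num) (AAsm_box_add hq1 (hxb q.2 ⟨h5, h6⟩)), ⟨?_, ?_⟩, ?_⟩
  · change -32 ≤ q.2 + d; linarith
  · change q.2 + d ≤ 32; linarith
  · intro hg
    apply hq3
    rw [AAsm_resc]
    exact AAsm_GG_sub F _ _ _ hg

private lemma AAsm_un8 {α : Type*} [MeasurableSpace α] {μ : Measure α} {c : ENNReal}
    {A1 A2 A3 A4 A5 A6 A7 A8 : Set α} (h1 : μ A1 ≤ c) (h2 : μ A2 ≤ c) (h3 : μ A3 ≤ c)
    (h4 : μ A4 ≤ c) (h5 : μ A5 ≤ c) (h6 : μ A6 ≤ c) (h7 : μ A7 ≤ c) (h8 : μ A8 ≤ c) :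
    μ (A1 ∪ (A2 ∪ (A3 ∪ (A4 ∪ (A5 ∪ (A6 ∪ (A7 ∪ A8))))))) ≤ 8 * c := by
  have e8 : 8 * c = c + (c + (c + (c + (c + (c + (c + c)))))) := by ring
  rw [e8]
  refine (measure_union_le _ _).trans (add_le_add h1 ?_)
  refine (measure_union_le _ _).trans (add_le_add h2 ?_)
  refine (measure_union_le _ _).trans (add_le_add h3 ?_)
  refine (measure_union_le _ _).trans (add_le_add h4 ?_)
  refine (measure_union_le _ _).trans (add_le_add h5 ?_)
  refine (measure_union_le _ _).trans (add_le_add h6 ?_)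
  exact (measure_union_le _ _).trans (add_le_add h7 h8)

private lemma AAsm_ev_meas : Measurable ev := measurable_id.prodMk measurable_const

private lemma AAsm_evbox {n j a : ℕ} (hn : j + 4 * a + 10 ≤ n) {b : ℝ} (hb : |b| ≤ 9) :
    Real.exp (-(n : ℝ)) • (Real.exp ((j : ℝ) + a) • ev b) ∈ box 1 := by
  have hn' : (j : ℝ) + 4 * a + 10 ≤ n := by exact_mod_cast hn
  have ha : (0 : ℝ) ≤ a := Nat.cast_nonneg a
  have h3 := AAsm_small (show -(n : ℝ) + (j + a) ≤ -10 by linarith)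
  have hp := Real.exp_pos (-(n : ℝ) + (j + a))
  rw [smul_smul, ← Real.exp_add, AAsm_box]
  simp only [ev, Prod.smul_mk, smul_eq_mul, mul_one]
  rw [abs_mul, abs_of_pos hp]
  refine ⟨?_, by linarith⟩
  calc Real.exp (-(n : ℝ) + (j + a)) * |b| ≤ Real.exp (-(n : ℝ) + (j + a)) * 9 :=
        mul_le_mul_of_nonneg_left hb hp.le
    _ ≤ 1 := by linarith

private lemma AAsm_e1box {n j a : ℕ} (hn : j + 4 * a + 10 ≤ n) {κ : ℝ} (hκ : |κ| ≤ 1) :
    Real.exp (-(n : ℝ)) • ((κ * Real.exp ((a : ℝ) - j)) • e1) ∈ box 1 := by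
  have hn' : (j : ℝ) + 4 * a + 10 ≤ n := by exact_mod_cast hn
  have ha : (0 : ℝ) ≤ a := Nat.cast_nonneg a
  have hj : (0 : ℝ) ≤ j := Nat.cast_nonneg j
  have h3 := AAsm_small (show -(n : ℝ) + (a - j) ≤ -10 by linarith)
  have hp := Real.exp_pos (-(n : ℝ) + (a - j))
  have h4 : Real.exp (-(n : ℝ)) * (κ * Real.exp ((a : ℝ) - j)) =
      κ * Real.exp (-(n : ℝ) + (a - j)) := by
    rw [Real.exp_add]; ring
  rw [smul_smul, h4, AAsm_box]
  simp only [e1, Prod.smul_mk, smul_eq_mul, mul_one, mul_zero, abs_zero]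
  rw [abs_mul, abs_of_pos hp]
  refine ⟨?_, by norm_num⟩
  calc |κ| * Real.exp (-(n : ℝ) + (a - j)) ≤ 1 * Real.exp (-(n : ℝ) + (a - j)) :=
        mul_le_mul_of_nonneg_right hκ hp.le
    _ ≤ 1 := by linarith

theorem spread_avg (K : ℝ) (hK : 1 ≤ K) : ∃ C : ℝ, 1 ≤ C ∧
    ∀ (F : QM K) (n j a : ℕ) (e ε β : ℝ), K ≤ e → Real.log (100 * a + 100) ≤ e → C * e ≤ a →
      0 < ε → 0 ≤ β → j + 4 * a + 10 ≤ n →
      volume {q : V × ℝ | q.1 ∈ box 32 ∧ q.2 ∈ Icc (-32) 32 ∧
        ¬ GG F (Real.exp n • q.1) q.2 j (8 * a) e} ≤ ENNReal.ofReal β →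
      volume {q : V × ℝ | q.1 ∈ box 8 ∧ q.2 ∈ Icc (-8) 8 ∧
        ¬ SpreadP F (Real.exp n • q.1) q.2 j a (C * e) ε} ≤
        ENNReal.ofReal (C / ε * (β + Real.exp (-e))) := by
  obtain ⟨C, hC, hS⟩ := spread_local K hK
  refine ⟨4096 * C, by linarith, fun F n j a e ε β he hlog hCe hε hβ hn hB => ?_⟩
  have he0 : 0 ≤ e := by linarith
  have hCe0 : 0 ≤ C * e := by positivity
  have hCe' : C * e ≤ a := by
    refine le_trans ?_ hCe
    nlinarith
  have hlog' : Real.log (8 * a + 8) ≤ e := by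
    refine le_trans (Real.log_le_log (by positivity) ?_) hlog
    have : (0 : ℝ) ≤ a := Nat.cast_nonneg a
    linarith
  have hexp1 : Real.exp (-2 * (j : ℝ)) ≤ 1 := by
    rw [Real.exp_le_one_iff]
    have := Nat.cast_nonneg (α := ℝ) j
    linarith
  have hexp0 := Real.exp_pos (-2 * (j : ℝ))
  have hexpe := Real.exp_pos (-e)
  set Z : Set ((V × ℝ) × ℝ) := {p : (V × ℝ) × ℝ | (p.1.1 ∈ box 8 ∧ p.1.2 ∈ Icc (-8) 8) ∧
    p.2 ∈ Icc (0 : ℝ) 1 ∧
    4096 * C * e < gp (F.f (Real.exp (n : ℝ) • p.1.1) (pt p.1.2 (j + a)))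
      (F.f (Real.exp (n : ℝ) • p.1.1) (pt (p.1.2 + p.2 * Real.exp (-2 * j)) (j + a)))
      (F.f (Real.exp (n : ℝ) • p.1.1) (pt p.1.2 j))} with hZ
  have hwm : Measurable fun p : (V × ℝ) × ℝ => Real.exp (n : ℝ) • p.1.1 :=
    (measurable_const_smul (Real.exp (n : ℝ))).comp (measurable_fst.comp measurable_fst)
  have hbm : Measurable fun p : (V × ℝ) × ℝ => p.1.2 := measurable_snd.comp measurable_fst
  have hZ1 : MeasurableSet {p : (V × ℝ) × ℝ | p.1.1 ∈ box 8 ∧ p.1.2 ∈ Icc (-8) 8} :=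
    ((measurable_fst.comp measurable_fst) (AAsm_box_meas 8)).inter (hbm measurableSet_Icc)
  have hZ2 : MeasurableSet {p : (V × ℝ) × ℝ | p.2 ∈ Icc (0 : ℝ) 1} :=
    measurable_snd measurableSet_Icc
  have hZ3 : MeasurableSet {p : (V × ℝ) × ℝ |
    4096 * C * e < gp (F.f (Real.exp (n : ℝ) • p.1.1) (pt p.1.2 (j + a)))
      (F.f (Real.exp (n : ℝ) • p.1.1) (pt (p.1.2 + p.2 * Real.exp (-2 * j)) (j + a)))
      (F.f (Real.exp (n : ℝ) • p.1.1) (pt p.1.2 j))} := by
    have h := F.measSet (Ω := (V × ℝ) × ℝ) (ι := Fin 3) (fun _ p => Real.exp (n : ℝ) • p.1.1)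
        (fun i p => ![pt p.1.2 (j + a), pt (p.1.2 + p.2 * Real.exp (-2 * j)) (j + a),
          pt p.1.2 j] i)
        (fun _ => hwm)
        (fun i => by
          fin_cases i
          · exact measurable_pt' hbm measurable_const
          · exact measurable_pt' (hbm.add (measurable_snd.mul_const _)) measurable_const
          · exact measurable_pt' hbm measurable_const)
        (fun Φ => 4096 * C * e < gp (Φ 0).2 (Φ 1).2 (Φ 2).2)
    exact h
  have hZm : MeasurableSet Z := hZ1.inter (hZ2.inter hZ3)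
  -- sections for fixed `κ`
  have hsec : ∀ κ : ℝ, Real.exp (-e) ≤ κ → κ ≤ 1 →
      volume {q : V × ℝ | (q, κ) ∈ Z} ≤ ENNReal.ofReal (8 * β) := by
    intro κ hκ1 hκ2
    have hκ0 : 0 < κ := hexpe.trans_le hκ1
    have hd0 : |(0 : ℝ)| ≤ 1 := by simp
    have hd1 : |κ * Real.exp (-2 * (j : ℝ))| ≤ 1 := by
      rw [abs_of_pos (by positivity)]
      nlinarith
    have hκa : |κ| ≤ 1 := by rw [abs_of_pos hκ0]; exact hκ2
    have hb9 : ∀ b ∈ Icc (-8 : ℝ) 8, |b| ≤ 9 := fun b hb =>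
      (abs_le.2 hb).trans (by norm_num)
    have hb9' : ∀ b ∈ Icc (-8 : ℝ) 8, |b + κ * Real.exp (-2 * (j : ℝ))| ≤ 9 := fun b hb =>
      (abs_add_le _ _).trans (by have := abs_le.2 hb; linarith)
    have hx0 : ∀ b ∈ Icc (-8 : ℝ) 8, Real.exp (-(n : ℝ)) • (fun _ : ℝ => (0 : V)) b ∈ box 1 := by
      intro b _
      simp only [smul_zero]
      rw [AAsm_box]
      simp
    have hx1 : ∀ b ∈ Icc (-8 : ℝ) 8,
        Real.exp (-(n : ℝ)) • (fun b : ℝ => Real.exp ((j : ℝ) + a) • ev b) b ∈ box 1 :=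
      fun b hb => AAsm_evbox hn (hb9 b hb)
    have hx2 : ∀ b ∈ Icc (-8 : ℝ) 8, Real.exp (-(n : ℝ)) •
        (fun b : ℝ => Real.exp ((j : ℝ) + a) • ev (b + κ * Real.exp (-2 * (j : ℝ)))) b ∈ box 1 :=
      fun b hb => AAsm_evbox hn (hb9' b hb)
    have hx3 : ∀ b ∈ Icc (-8 : ℝ) 8, Real.exp (-(n : ℝ)) •
        (fun _ : ℝ => (κ * Real.exp ((a : ℝ) - j)) • e1) b ∈ box 1 :=
      fun b _ => AAsm_e1box hn hκa
    have hx4 : ∀ b ∈ Icc (-8 : ℝ) 8, Real.exp (-(n : ℝ)) •
        (fun _ : ℝ => (-κ * Real.exp ((a : ℝ) - j)) • e1) b ∈ box 1 :=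
      fun b _ => AAsm_e1box hn (by rw [abs_neg]; exact hκa)
    have m1 : Measurable fun b : ℝ => Real.exp ((j : ℝ) + a) • ev b :=
      (measurable_const_smul (Real.exp ((j : ℝ) + a))).comp AAsm_ev_meas
    have m2 : Measurable fun b : ℝ =>
        Real.exp ((j : ℝ) + a) • ev (b + κ * Real.exp (-2 * (j : ℝ))) :=
      m1.comp (measurable_id.add_const _)
    have key := AAsm_un8
      (AAsm_shift F hB _ measurable_const 0 hd0 hx0) (AAsm_shift F hB _ m1 0 hd0 hx1)
      (AAsm_shift F hB _ m2 0 hd0 hx2) (AAsm_shift F hB _ measurable_const 0 hd0 hx3)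
      (AAsm_shift F hB _ measurable_const _ hd1 hx0) (AAsm_shift F hB _ m1 _ hd1 hx1)
      (AAsm_shift F hB _ m2 _ hd1 hx2) (AAsm_shift F hB _ measurable_const _ hd1 hx4)
    rw [ENNReal.ofReal_mul (by norm_num : (0 : ℝ) ≤ 8), ENNReal.ofReal_ofNat]
    refine (measure_mono ?_).trans key
    rintro q ⟨⟨hq1, hq2⟩, -, hq4⟩
    by_contra hcon
    simp only [Set.mem_union, Set.mem_ofPred_eq, not_or, not_and, not_not] at hcon
    obtain ⟨g1, g2, g3, g4, g5, g6, g7, g8⟩ := hcon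
    have g1' := g1 hq1 hq2
    have g2' := g2 hq1 hq2
    have g3' := g3 hq1 hq2
    have g4' := g4 hq1 hq2
    have g5' := g5 hq1 hq2
    have g6' := g6 hq1 hq2
    have g7' := g7 hq1 hq2
    have g8' := g8 hq1 hq2
    simp only [add_zero] at g1' g2' g3' g4' g5'
    have e8 : Real.exp (n : ℝ) • q.1 + (-κ * Real.exp ((a : ℝ) - j)) • e1 =
        Real.exp (n : ℝ) • q.1 - (κ * Real.exp ((a : ℝ) - j)) • e1 := by
      apply Prod.ext
      · simp only [e1, Prod.fst_add, Prod.fst_sub, Prod.smul_fst, smul_eq_mul]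
        ring
      · simp only [e1, Prod.snd_add, Prod.snd_sub, Prod.smul_snd, smul_eq_mul]
        ring
    rw [e8] at g8'
    have hfin := hS F (Real.exp (n : ℝ) • q.1) q.2 j κ e a he hlog' hCe' hκ1 hκ2
      g1' g2' g3' g4' g5' g6' g7' g8'
    have hq4' : 4096 * C * e < gp (F.f (Real.exp (n : ℝ) • q.1) (pt q.2 (j + a)))
      (F.f (Real.exp (n : ℝ) • q.1) (pt (q.2 + κ * Real.exp (-2 * j)) (j + a)))
      (F.f (Real.exp (n : ℝ) • q.1) (pt q.2 j)) := hq4
    nlinarith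
  have hZv : volume Z ≤ ENNReal.ofReal ((4096 * (β + Real.exp (-e)) / ε) * ε) := by
    have h1 : volume Z = ∫⁻ κ : ℝ, volume {q : V × ℝ | (q, κ) ∈ Z} := Measure.prod_apply_symm hZm
    have h16 : volume {q : V × ℝ | q.1 ∈ box 8 ∧ q.2 ∈ Icc (-8) 8} = ENNReal.ofReal 4096 := by
      have h2 : volume {q : V × ℝ | q.1 ∈ box 8 ∧ q.2 ∈ Icc (-8) 8} =
          volume (box 8) * volume (Icc (-8 : ℝ) 8) := Measure.prod_prod _ _
      rw [h2, AAsm_box_vol (by norm_num), Real.volume_Icc, ← ENNReal.ofReal_mul (by norm_num)]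
      congr 1
      norm_num
    have h3 : ∀ κ : ℝ, volume {q : V × ℝ | (q, κ) ∈ Z} ≤
        (Icc (0 : ℝ) 1).indicator (fun _ => ENNReal.ofReal (8 * β)) κ +
          (Icc (0 : ℝ) (Real.exp (-e))).indicator (fun _ => ENNReal.ofReal 4096) κ := by
      intro κ
      by_cases hκ : κ ∈ Icc (0 : ℝ) 1
      · rw [Set.indicator_of_mem hκ]
        by_cases hκ' : κ ∈ Icc (0 : ℝ) (Real.exp (-e))
        · rw [Set.indicator_of_mem hκ', ← h16]
          exact (measure_mono fun q hq => hq.1).trans (self_le_add_left _ _)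
        · refine (hsec κ ?_ hκ.2).trans (self_le_add_right _ _)
          by_contra hlt
          exact hκ' ⟨hκ.1, (not_le.1 hlt).le⟩
      · have h6 : {q : V × ℝ | (q, κ) ∈ Z} = ∅ := by
          ext q
          simp only [Set.mem_ofPred_eq, Set.mem_empty_iff_false, iff_false]
          exact fun h7 => hκ h7.2.1
        rw [h6, measure_empty]
        exact bot_le
    rw [h1]
    refine (lintegral_mono h3).trans ?_
    rw [lintegral_add_left (measurable_const.indicator measurableSet_Icc),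
      lintegral_indicator measurableSet_Icc, lintegral_indicator measurableSet_Icc,
      lintegral_const, lintegral_const, Measure.restrict_apply_univ, Measure.restrict_apply_univ,
      Real.volume_Icc, Real.volume_Icc, ← ENNReal.ofReal_mul (by positivity),
      ← ENNReal.ofReal_mul (by positivity),
      ← ENNReal.ofReal_add (by linarith) (by simp only [sub_zero]; positivity)]
    apply ENNReal.ofReal_le_ofReal
    rw [div_mul_cancel₀ _ hε.ne']
    linarith
  have hfin := markov_fubini hZm hε (by positivity) hZv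
  refine (measure_mono ?_).trans (hfin.trans ?_)
  · rintro q ⟨hq1, hq2, hq3⟩
    rw [SpreadP, not_le] at hq3
    refine lt_of_lt_of_le hq3 (measure_mono ?_)
    rintro κ ⟨hκ1, hκ2⟩
    exact ⟨⟨hq1, hq2⟩, hκ1, hκ2⟩
  · apply ENNReal.ofReal_le_ofReal
    have h1 : 0 ≤ (β + Real.exp (-e)) / ε := by positivity
    have h2 : 4096 * (β + Real.exp (-e)) / ε = 4096 * ((β + Real.exp (-e)) / ε) := by ring
    have h3 : 4096 * C / ε * (β + Real.exp (-e)) = 4096 * C * ((β + Real.exp (-e)) / ε) := by ring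
    rw [h2, h3]
    nlinarith

private lemma AAsm_large (η K ε C : ℝ) (hη : 0 < η) (hε : 0 < ε) (hC : 0 < C) (m0 : ℕ) :
    ∃ m1 : ℕ, m0 ≤ m1 ∧ 1 ≤ m1 ∧ ∀ a : ℕ, m1 ≤ a → K ≤ η * a ∧ Real.log (100 * a + 100) ≤ η * a ∧
      C / ε * Real.exp (-(η * a)) ≤ ε / 8 := by
  have ht : Filter.Tendsto (fun a : ℕ => η * (a : ℝ)) Filter.atTop Filter.atTop :=
    tendsto_natCast_atTop_atTop.const_mul_atTop hη
  have h1 := ht.eventually_ge_atTop K
  have h2 : ∀ᶠ a : ℕ in Filter.atTop, Real.exp (-(η * a)) < ε * ε / (8 * C) :=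
    (Real.tendsto_exp_neg_atTop_nhds_zero.comp ht).eventually (gt_mem_nhds (by positivity))
  have h3 : ∀ᶠ x : ℝ in Filter.atTop, ‖Real.log x‖ ≤ η / 200 * ‖x‖ := by
    have := Real.isLittleO_log_id_atTop.bound (show 0 < η / 200 by positivity)
    exact this
  have h4 : Filter.Tendsto (fun a : ℕ => 100 * (a : ℝ) + 100) Filter.atTop Filter.atTop :=
    (tendsto_natCast_atTop_atTop.const_mul_atTop (by norm_num : (0 : ℝ) < 100)).atTop_add
      tendsto_const_nhds
  have h5 := h4.eventually h3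
  obtain ⟨m, hm⟩ := Filter.eventually_atTop.1 (h1.and (h2.and h5))
  refine ⟨max m (max m0 1), le_max_of_le_right (le_max_left _ _),
    le_max_of_le_right (le_max_right _ _), fun a ha => ?_⟩
  obtain ⟨g1, g2, g3⟩ := hm a (le_trans (le_max_left _ _) ha)
  have ha1 : 1 ≤ a := le_trans (le_max_of_le_right (le_max_right _ _)) ha
  have ha1' : (1 : ℝ) ≤ a := by exact_mod_cast ha1
  refine ⟨g1, ?_, ?_⟩
  · have h6 : Real.log (100 * (a : ℝ) + 100) ≤ η / 200 * (100 * a + 100) := by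
      have h7 := (le_abs_self _).trans g3
      rwa [Real.norm_eq_abs, abs_of_pos (by positivity)] at h7
    refine h6.trans ?_
    nlinarith
  · have h8 : C / ε * Real.exp (-(η * a)) ≤ C / ε * (ε * ε / (8 * C)) :=
      mul_le_mul_of_nonneg_left g2.le (by positivity)
    refine h8.trans (le_of_eq ?_)
    field_simp

private lemma AAsm_unitP {K : ℝ} (F : QM K) (w : V) (b j : ℝ) (a : ℕ) (η ε C c : ℝ) (ha : 1 ≤ a)
    (hc : |c - 1| ≤ C * (η * a) / a) (hC : (1 + C) * η ≤ ε)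
    (h : GC F w b j (8 * a) c (η * a)) : UnitP F w b j a (ε * a) := by
  intro i i' hi hi'
  have ha' : (0 : ℝ) < a := by exact_mod_cast ha
  have hi0 : (0 : ℝ) ≤ i := Nat.cast_nonneg i
  have hi0' : (0 : ℝ) ≤ i' := Nat.cast_nonneg i'
  have hin : i ≤ a := by exact_mod_cast hi
  have hin' : i' ≤ a := by exact_mod_cast hi'
  have h1 := h (i : ℤ) (i' : ℤ) (by rw [Nat.abs_cast]; push_cast; omega)
    (by rw [Nat.abs_cast]; push_cast; omega)
  simp only [Int.cast_natCast] at h1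
  have h2 : |(i : ℝ) - i'| ≤ a := by
    rw [abs_le]; constructor <;> linarith
  have h3 : C * (η * a) / a = C * η := by field_simp
  rw [h3] at hc
  have h4 : rho (F.f w (pt b (j + i))) (F.f w (pt b (j + i'))) - |(i : ℝ) - i'| =
      (rho (F.f w (pt b (j + i))) (F.f w (pt b (j + i'))) - c * |(i : ℝ) - i'|) +
        (c - 1) * |(i : ℝ) - i'| := by ring
  rw [h4]
  refine (abs_add_le _ _).trans ?_
  rw [abs_mul, abs_abs]
  have h5 : |c - 1| * |(i : ℝ) - i'| ≤ C * η * a :=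
    mul_le_mul hc h2 (abs_nonneg _) ((abs_nonneg _).trans hc)
  have h6 : (1 + C) * η * a ≤ ε * a := mul_le_mul_of_nonneg_right hC ha'.le
  nlinarith

private lemma AAsm_spreadP {K : ℝ} (F : QM K) (w : V) (b j a : ℝ) {e e' ε : ℝ} (h : e ≤ e')
    (hs : SpreadP F w b j a e ε) : SpreadP F w b j a e' ε := by
  refine (measure_mono ?_).trans hs
  rintro κ ⟨h1, h2⟩
  exact ⟨h1, h.trans_lt h2⟩

theorem partA (K : ℝ) (hK : 1 ≤ K) : StT K := by
  intro ε hε m0
  obtain ⟨Cu, θ0, hCu, hθ0, hU⟩ := unit_avg K hK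
  obtain ⟨Cs, hCs, hS⟩ := spread_avg K hK
  have hCu0 : 0 < Cu := by linarith
  have hCs0 : 0 < Cs := by linarith
  set θ : ℝ := min θ0 (ε / (8 * Cu)) with hθ
  have hθpos : 0 < θ := lt_min hθ0 (by positivity)
  have hθ1 : θ ≤ θ0 := min_le_left _ _
  have hθ2 : Cu * θ ≤ ε / 8 := by
    have h1 : θ ≤ ε / (8 * Cu) := min_le_right _ _
    rw [le_div_iff₀ (by positivity)] at h1
    linarith
  obtain ⟨η, hη, c1, c2, c3, c4, c5, c6⟩ : ∃ η : ℝ, 0 < η ∧ (1 + Cu) * η ≤ ε ∧ Cu * η ≤ 1 ∧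
      Cs * η ≤ 1 ∧ Cs * η ≤ ε ∧ Cu / θ * η ≤ ε / 8 ∧ Cs / ε * η ≤ ε / 8 := by
    have hp : ∀ c b : ℝ, 0 < c → 0 < b → ∀ η : ℝ, η ≤ b / c → c * η ≤ b := by
      intro c b hc hb η h
      rw [le_div_iff₀ hc] at h
      linarith
    refine ⟨min (min (min (ε / (1 + Cu)) (1 / Cu)) (min (1 / Cs) (ε / Cs)))
      (min (ε / 8 / (Cu / θ)) (ε / 8 / (Cs / ε))), ?_, ?_, ?_, ?_, ?_, ?_, ?_⟩
    · refine lt_min (lt_min (lt_min ?_ ?_) (lt_min ?_ ?_)) (lt_min ?_ ?_) <;> positivity
    · exact hp _ _ (by positivity) hε _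
        ((min_le_left _ _).trans ((min_le_left _ _).trans (min_le_left _ _)))
    · exact hp _ _ hCu0 one_pos _
        ((min_le_left _ _).trans ((min_le_left _ _).trans (min_le_right _ _)))
    · exact hp _ _ hCs0 one_pos _
        ((min_le_left _ _).trans ((min_le_right _ _).trans (min_le_left _ _)))
    · exact hp _ _ hCs0 hε _
        ((min_le_left _ _).trans ((min_le_right _ _).trans (min_le_right _ _)))
    · exact hp _ _ (by positivity) (by positivity) _
        ((min_le_right _ _).trans (min_le_left _ _))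
    · exact hp _ _ (by positivity) (by positivity) _
        ((min_le_right _ _).trans (min_le_right _ _))
  obtain ⟨m1, hm0, hm1, hm⟩ := AAsm_large η K ε Cs hη hε hCs0 m0
  obtain ⟨R, n0, hR, hD⟩ := diff_QM K η hK hη m1
  refine ⟨R, max n0 ⌈((4 * (R.sup id : ℕ) + 10) * 4096 * 8 / ε : ℝ)⌉₊,
    fun a ha => hm0.trans (hR a ha), fun F n hn => ?_⟩
  obtain ⟨a, haR, hsum⟩ := hD F n (le_trans (le_max_left _ _) hn)
  refine ⟨a, haR, ?_⟩
  have ham := hR a haR
  obtain ⟨g1, g2, g3⟩ := hm a ham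
  have ha1 : 1 ≤ a := hm1.trans ham
  have ha1' : (0 : ℝ) < a := by exact_mod_cast ha1
  have hasup : a ≤ R.sup id := Finset.le_sup (f := id) haR
  have hn2 : ((4 * (a : ℝ) + 10) * 4096 * 8 / ε : ℝ) ≤ n := by
    have h1 : ((4 * (R.sup id : ℕ) + 10) * 4096 * 8 / ε : ℝ) ≤ n :=
      (Nat.le_ceil _).trans (by exact_mod_cast (le_trans (le_max_right _ _) hn))
    refine le_trans ?_ h1
    have h2 : (a : ℝ) ≤ (R.sup id : ℕ) := by exact_mod_cast hasup
    apply div_le_div_of_nonneg_right _ hε.le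
    linarith
  set Bd : ℕ → Set (V × ℝ) := fun j => {q : V × ℝ | q.1 ∈ box 32 ∧ q.2 ∈ Icc (-32) 32 ∧
          ¬ GG F (Real.exp n • q.1) q.2 j (8 * a) (η * a)} with hBd
  have hBfin : ∀ j, volume (Bd j) ≠ ⊤ := by
    intro j
    have h1 : volume (Bd j) ≤ volume ((box 32) ×ˢ (Icc (-32 : ℝ) 32)) :=
      measure_mono fun q hq => ⟨hq.1, hq.2.1⟩
    have h2 : volume ((box 32) ×ˢ (Icc (-32 : ℝ) 32)) =
        volume (box 32) * volume (Icc (-32 : ℝ) 32) := Measure.prod_prod _ _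
    rw [h2, AAsm_box_vol (by norm_num), Real.volume_Icc,
      ← ENNReal.ofReal_mul (by norm_num)] at h1
    exact (h1.trans_lt ENNReal.ofReal_lt_top).ne
  set β : ℕ → ℝ := fun j => (volume (Bd j)).toReal with hβ
  have hβ0 : ∀ j, 0 ≤ β j := fun j => ENNReal.toReal_nonneg
  have hβv : ∀ j, volume (Bd j) = ENNReal.ofReal (β j) := fun j =>
    (ENNReal.ofReal_toReal (hBfin j)).symm
  have hβsum : ∑ j ∈ Finset.range n, β j ≤ η * n := by
    have h1 : ∑ j ∈ Finset.range n, ENNReal.ofReal (β j) ≤ ENNReal.ofReal (η * n) := by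
      refine le_trans (le_of_eq ?_) hsum
      exact Finset.sum_congr rfl fun j _ => (hβv j).symm
    rw [← ENNReal.ofReal_sum_of_nonneg fun j _ => hβ0 j,
      ENNReal.ofReal_le_ofReal_iff (by positivity)] at h1
    exact h1
  have h16 : volume {q : V × ℝ | q.1 ∈ box 8 ∧ q.2 ∈ Icc (-8) 8} = ENNReal.ofReal 4096 := by
    have h2 : volume {q : V × ℝ | q.1 ∈ box 8 ∧ q.2 ∈ Icc (-8) 8} =
        volume (box 8) * volume (Icc (-8 : ℝ) 8) := Measure.prod_prod _ _
    rw [h2, AAsm_box_vol (by norm_num), Real.volume_Icc, ← ENNReal.ofReal_mul (by norm_num)]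
    congr 1
    norm_num
  set f : ℕ → ℝ := fun j => Cu * (θ + β j / θ) + Cs / ε * (β j + Real.exp (-(η * a))) +
    (if j + 4 * a + 10 ≤ n then 0 else 4096) with hf
  have hf0 : ∀ j, 0 ≤ f j := by
    intro j
    have h1 := hβ0 j
    have h2 : (0 : ℝ) ≤ if j + 4 * a + 10 ≤ n then 0 else 4096 := by split_ifs <;> norm_num
    have h3 : 0 ≤ Cu * (θ + β j / θ) := by positivity
    have h4 : 0 ≤ Cs / ε * (β j + Real.exp (-(η * a))) := by positivity
    simp only [hf]
    linarith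
  have hterm : ∀ j ∈ Finset.range n, volume {q : V × ℝ | q.1 ∈ box 8 ∧ q.2 ∈ Icc (-8) 8 ∧
        ¬ (UnitP F (Real.exp n • q.1) q.2 j a (ε * a) ∧
          SpreadP F (Real.exp n • q.1) q.2 j a (ε * a) ε)} ≤ ENNReal.ofReal (f j) := by
    intro j _
    have h1 := hβ0 j
    by_cases hj : j + 4 * a + 10 ≤ n
    · have hfj : f j = Cu * (θ + β j / θ) + Cs / ε * (β j + Real.exp (-(η * a))) := by
        simp only [hf, if_pos hj, add_zero]
      rw [hfj, ENNReal.ofReal_add (by positivity) (by positivity)]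
      have e1' : Cu * (η * a) ≤ a := by nlinarith
      have e2' : Cs * (η * a) ≤ a := by nlinarith
      have u1 := hU F n j a (η * a) θ (β j) g1 g2 e1' hθpos hθ1 h1 hj (hβv j).le
      have s1 := hS F n j a (η * a) ε (β j) g1 g2 e2' hε h1 hj (hβv j).le
      refine le_trans (measure_mono ?_) ((measure_union_le _ _).trans (add_le_add u1 s1))
      rintro q ⟨hq1, hq2, hq3⟩
      by_cases hc : ∃ c : ℝ, |c - 1| ≤ Cu * (η * a) / a ∧
          GC F (Real.exp n • q.1) q.2 j (8 * a) c (η * a)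
      · obtain ⟨c, hc1, hc2⟩ := hc
        have hup := AAsm_unitP F _ _ _ a η ε Cu c ha1 hc1 c1 hc2
        right
        refine ⟨hq1, hq2, fun hs => hq3 ⟨hup, AAsm_spreadP F _ _ _ _ ?_ hs⟩⟩
        nlinarith
      · left
        exact ⟨hq1, hq2, hc⟩
    · refine (measure_mono (t := {q : V × ℝ | q.1 ∈ box 8 ∧ q.2 ∈ Icc (-8) 8})
        (fun q hq => ⟨hq.1, hq.2.1⟩)).trans (h16.le.trans ?_)
      apply ENNReal.ofReal_le_ofReal
      have h3 : 0 ≤ Cu * (θ + β j / θ) := by positivity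
      have h4 : 0 ≤ Cs / ε * (β j + Real.exp (-(η * a))) := by positivity
      simp only [hf, if_neg hj]
      linarith
  refine (Finset.sum_le_sum hterm).trans ?_
  rw [← ENNReal.ofReal_sum_of_nonneg fun j _ => hf0 j]
  apply ENNReal.ofReal_le_ofReal
  have hcount : ((Finset.range n).filter fun j => ¬ (j + 4 * a + 10 ≤ n)).card ≤ 4 * a + 10 := by
    refine le_trans (Finset.card_le_card (t := Finset.Ico (n - (4 * a + 10)) n) ?_) ?_
    · intro j hj
      rw [Finset.mem_filter, Finset.mem_range] at hj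
      rw [Finset.mem_Ico]
      omega
    · rw [Nat.card_Ico]; omega
  have hite : ∑ j ∈ Finset.range n, (if j + 4 * a + 10 ≤ n then (0 : ℝ) else 4096) ≤
      (4 * a + 10) * 4096 := by
    rw [Finset.sum_ite, Finset.sum_const_zero, zero_add, Finset.sum_const, nsmul_eq_mul]
    have h2 : ((((Finset.range n).filter fun j => ¬ (j + 4 * a + 10 ≤ n)).card : ℕ) : ℝ) ≤
        4 * a + 10 := by exact_mod_cast hcount
    linarith
  have hexp : ∑ j ∈ Finset.range n, f j = n * (Cu * θ) + (Cu / θ + Cs / ε) *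
      ∑ j ∈ Finset.range n, β j + n * (Cs / ε * Real.exp (-(η * a))) +
      ∑ j ∈ Finset.range n, (if j + 4 * a + 10 ≤ n then (0 : ℝ) else 4096) := by
    have h2 : ∀ j, f j = Cu * θ + (Cu / θ + Cs / ε) * β j + Cs / ε * Real.exp (-(η * a)) +
        (if j + 4 * a + 10 ≤ n then (0 : ℝ) else 4096) := by
      intro j
      simp only [hf]
      ring
    simp only [h2]
    rw [Finset.sum_add_distrib, Finset.sum_add_distrib, Finset.sum_add_distrib,
      Finset.sum_const, Finset.sum_const, Finset.card_range, nsmul_eq_mul,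
      nsmul_eq_mul, Finset.mul_sum]
  rw [hexp]
  have hn0 : (0 : ℝ) ≤ n := Nat.cast_nonneg n
  have t1 : n * (Cu * θ) ≤ n * (ε / 8) := mul_le_mul_of_nonneg_left hθ2 hn0
  have t2 : n * (Cs / ε * Real.exp (-(η * a))) ≤ n * (ε / 8) :=
    mul_le_mul_of_nonneg_left g3 hn0
  have t3 : (Cu / θ + Cs / ε) * ∑ j ∈ Finset.range n, β j ≤ n * (ε / 8) + n * (ε / 8) := by
    have h2 : (Cu / θ + Cs / ε) * ∑ j ∈ Finset.range n, β j ≤ (Cu / θ + Cs / ε) * (η * n) :=
      mul_le_mul_of_nonneg_left hβsum (by positivity)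
    refine h2.trans ?_
    have h3 : (Cu / θ + Cs / ε) * (η * n) = n * (Cu / θ * η) + n * (Cs / ε * η) := by ring
    rw [h3]
    exact add_le_add (mul_le_mul_of_nonneg_left c5 hn0) (mul_le_mul_of_nonneg_left c6 hn0)
  have t4 : (4 * (a : ℝ) + 10) * 4096 ≤ n * (ε / 8) := by
    rw [div_le_iff₀ hε] at hn2
    linarith
  have t5 : 0 ≤ n * ε := by positivity
  linarith

end Pool.Agent.FIB
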