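import Pool.Agent.FIB.ATree

/-!
# Part A: the four-cycle (A3)

Four sheets `(i, j)`, `i, j ∈ {0, 1}`, over a window with times `k ∈ [-2a, 2a]` (`k` increases downwards). The sheets `(i,0)` and `(i,1)`
coincide at the top (`k ≤ -a`), the sheets `(0,j)` and `(1,j)` at the bottom (`k ≥ a`).

`Cyc` collects the hypotheses. `C` depends on `K` only; `K ≤ e`, `log (8a+8) ≤ e`, `C e ≤ a`.

`cyc_speed`: `c i 0 * a = rho (p i 0 (-2a)) (p i 0 (-a)) ± e`, and the same points for `(i, 1)` are `e`-close: `|c i 0 - c i 1| a ≤ 4 e`. Same at the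
bottom for `(0,j), (1,j)`. So all speeds differ from `c = c 0 0` by `≤ 8 e / a`, and
`|rho (p i j k) (p i j l) - c |k-l|| ≤ e + 32 e`.

`cyc_top`: CLAIM `rho P_0 P_1 ≤ 2 c a + C e` where `P_i = p i 0 (-a)` (`e`-close to `p i 1 (-a)`). Let `Q_j = p 0 j a` (`e`-close to
`p 1 j a`). `rho P_i Q_j = 2 c a ± 40 e`. Suppose `rho P_0 P_1 = 2p > 2 c a + C1 e`. `2p ≤ rho P_0 Q_0 + rho Q_0 P_1 ≤ 4 c a + 80 e`. Let `m ∈ [-a, a]` be an integer with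
`|c (m + a) - p| ≤ C e` (`m = ⌊p/c⌋ - a`, at most `a`). By `fourpt P_0 Q_0 P_1 Q_1`: `rho P_0 P_1 + rho Q_0 Q_1 ≤ 4 c a + C e`, so
`rho Q_0 Q_1 ≤ 4 c a - 2 p + C e`.
(a) For `k ∈ [m, a]`: `rho (p 0 j k) (p 1 j k) ≤ C e`: `branch_close` with `q = Q_j`, `P = P_0`, `P' = P_1`: `gp P_0 P_1 Q_j = (4 c a - 2p)/2 ± Ce = c (a - m) ± C e ≥ rho Q_j (p 0 j k) - C e`.
(b) For `k ∈ [-a, m]`: `rho (p i 0 k) (p i 1 k) ≤ C e`: `branch_close` with `q = P_i`, `P = Q_0`, `P' = Q_1`: `gp Q_0 Q_1 P_i ≥ (4 c a - (4 c a - 2p))/2 - Ce = p - C e ≥ rho P_i (p i 0 k) - C e`.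
So all `p i j m` are within `C e` of `t = p 0 0 m`. `gp P_0 P_1 t ≤ C e` (`rho t P_0 = p ± Ce`, `rho t P_1 = p ± C e`).
Vectors at time `m`: `B_i = U i 0 m - U i 1 m`, `C_j = U 0 j m - U 1 j m`, `B_0 - B_1 = C_0 - C_1`.
* `growth` for `k' ↦ p 0 0 (-a + k')`, `p 0 1 (-a + k')`, `n = m + a` (`≥ p/c - C e ≥ a - C e`, so `n ≥ a/2 ≥ C' e`), second claim with `z = P_1`:
  `nm P_1 B_0 ≥ exp (c n + rho t P_1 - 2 gp P_0 P_1 t - C e) ≥ exp (2p - C e)`. (The steps: `hst` gives them for increasing `k`; the separation is `hsept`.)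
* `upper2` for `k' ↦ p 1 0 (-a + k')`, `p 1 1 (-a+k')`: all within `p + C e` of `P_1`: `nm P_1 B_1 ≤ exp (p + C e)`.
* `upper2` for the reversed paths `k' ↦ p 0 j (a - k')`, `p 1 j (a - k')`, `k' ≤ a - m` : all points within `rho P_1 t + c (a - m) + C e ≤ 2 c a + C e` of `P_1`:
  `nm P_1 C_j ≤ exp (2 c a + C e)`.
So `exp (2p - C e) ≤ exp (p + C e) + 2 exp (2 c a + C e)`: either `2 p ≤ p + C e` (false: `p ≥ c a ≥ a/(4K) ≥ C' e`), or `2p ≤ 2 c a + C e`: contradiction if `C1` is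
large.
`cyc_low`: for `k ∈ [0, a]`: `rho (p 0 j k) (p 1 j k) ≤ C e`: `gp P_0 P_1 Q_j = (4 c a - rho P_0 P_1)/2 ± C e ≥ c a - C e`, `branch_close`.
`four_cycle`: `cyc_low` for the hypotheses and for the reversed ones (`Cyc.rev`: `p' i j k = p j i (-k)`).
-/

set_option autoImplicit false

namespace Pool.Agent.FIB

open UpperHalfPlane

/-- The hypotheses of the four-cycle lemma. -/
structure Cyc (K : ℝ) (a : ℕ) (e : ℝ) (p : Fin 2 → Fin 2 → ℤ → ℍ) (U : Fin 2 → Fin 2 → ℤ → V)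
    (c : Fin 2 → Fin 2 → ℝ) : Prop where
  hc : ∀ i j, 1 / (4 * K) ≤ c i j ∧ c i j ≤ 2 * K
  hst : ∀ i j (k : ℤ), nm (p i j k) (U i j (k + 1) - U i j k) ≤ Real.exp (2 * K)
  hst' : ∀ i j (k : ℤ), nm (p i j (k + 1)) (U i j k - U i j (k + 1)) ≤ Real.exp (2 * K)
  good : ∀ i j (k l : ℤ), |k| ≤ 2 * (a : ℤ) → |l| ≤ 2 * (a : ℤ) →
    abs (rho (p i j k) (p i j l) - c i j * |(k : ℝ) - l|) ≤ e
  top : ∀ i (k : ℤ), -(2 * (a : ℤ)) ≤ k → k ≤ -(a : ℤ) → rho (p i 0 k) (p i 1 k) ≤ e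
  topU : ∀ i, nm (p i 0 (-(a : ℤ))) (U i 0 (-(a : ℤ)) - U i 1 (-(a : ℤ))) ≤ Real.exp e
  bot : ∀ j (k : ℤ), (a : ℤ) ≤ k → k ≤ 2 * (a : ℤ) → rho (p 0 j k) (p 1 j k) ≤ e
  botU : ∀ j, nm (p 0 j a) (U 0 j a - U 1 j a) ≤ Real.exp e
  sept : ∀ i (k : ℤ), |k| ≤ (a : ℤ) → (k : ℝ) + a ≤
    K * (rho (p i 0 k) (p i 1 k) + Real.log (1 + nm (p i 0 k) (U i 0 k - U i 1 k))) + K * e
  sepb : ∀ j (k : ℤ), |k| ≤ (a : ℤ) → (a : ℝ) - k ≤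
    K * (rho (p 0 j k) (p 1 j k) + Real.log (1 + nm (p 0 j k) (U 0 j k - U 1 j k))) + K * e

theorem Cyc.rev {K : ℝ} {a : ℕ} {e : ℝ} {p : Fin 2 → Fin 2 → ℤ → ℍ} {U : Fin 2 → Fin 2 → ℤ → V}
    {c : Fin 2 → Fin 2 → ℝ} (h : Cyc K a e p U c) :
    Cyc K a e (fun i j k => p j i (-k)) (fun i j k => U j i (-k)) (fun i j => c j i) := by
  refine ⟨fun i j => h.hc j i, fun i j k => ?_, fun i j k => ?_, fun i j k l hk hl => ?_,
    fun i k h1 h2 => ?_, fun i => ?_, fun j k h1 h2 => ?_, fun j => ?_, fun i k hk => ?_,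
    fun j k hk => ?_⟩
  · have h1 := h.hst' j i (-(k + 1))
    rw [show -(k + 1) + 1 = -k by ring] at h1
    exact h1
  · have h1 := h.hst j i (-(k + 1))
    rw [show -(k + 1) + 1 = -k by ring] at h1
    exact h1
  · have h1 := h.good j i (-k) (-l) (by rwa [abs_neg]) (by rwa [abs_neg])
    have h2 : |((-k : ℤ) : ℝ) - ((-l : ℤ) : ℝ)| = |(k : ℝ) - l| := by
      push_cast
      rw [← abs_neg]
      congr 1
      ring
    rw [h2] at h1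
    exact h1
  · exact h.bot i (-k) (by omega) (by omega)
  · have h1 := h.botU i
    rw [← neg_neg (a : ℤ)] at h1
    exact h1
  · exact h.top j (-k) (by omega) (by omega)
  · exact h.topU j
  · have h1 := h.sepb i (-k) (by rwa [abs_neg])
    push_cast at h1
    rw [sub_neg_eq_add, add_comm] at h1
    exact h1
  · have h1 := h.sept j (-k) (by rwa [abs_neg])
    push_cast at h1
    rw [neg_add_eq_sub] at h1
    exact h1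

private lemma ACyc_fin (i : Fin 2) : i = 0 ∨ i = 1 := by
  fin_cases i
  · exact Or.inl rfl
  · exact Or.inr rfl

private lemma ACyc_e0 {K : ℝ} {a : ℕ} {e : ℝ} {p : Fin 2 → Fin 2 → ℤ → ℍ} {U : Fin 2 → Fin 2 → ℤ → V}
    {c : Fin 2 → Fin 2 → ℝ} (h : Cyc K a e p U c) : 0 ≤ e :=
  (rho_nonneg _ _).trans (h.top 0 (-(a : ℤ)) (by omega) (by omega))

private lemma ACyc_sp1 {K : ℝ} {a : ℕ} {e : ℝ} {p : Fin 2 → Fin 2 → ℤ → ℍ} {U : Fin 2 → Fin 2 → ℤ → V}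
    {c : Fin 2 → Fin 2 → ℝ} (h : Cyc K a e p U c) (i : Fin 2) :
    |c i 1 - c i 0| * a ≤ 4 * e := by
  have g0 := h.good i 0 (-(2 * (a : ℤ))) (-(a : ℤ)) (by rw [abs_neg, abs_of_nonneg (by omega)])
    (by rw [abs_neg, abs_of_nonneg (by omega)]; omega)
  have g1 := h.good i 1 (-(2 * (a : ℤ))) (-(a : ℤ)) (by rw [abs_neg, abs_of_nonneg (by omega)])
    (by rw [abs_neg, abs_of_nonneg (by omega)]; omega)
  have ha0 : (0 : ℝ) ≤ (a : ℝ) := Nat.cast_nonneg a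
  have hd : |((-(2 * (a : ℤ)) : ℤ) : ℝ) - ((-(a : ℤ) : ℤ) : ℝ)| = a := by
    push_cast
    rw [show -(2 * (a : ℝ)) - -(a : ℝ) = -a by ring, abs_neg, abs_of_nonneg ha0]
  rw [hd] at g0 g1
  have t1 := h.top i (-(2 * (a : ℤ))) (by omega) (by omega)
  have t2 := h.top i (-(a : ℤ)) (by omega) (by omega)
  obtain ⟨g0a, g0b⟩ := abs_le.1 g0
  obtain ⟨g1a, g1b⟩ := abs_le.1 g1
  have q1 := rho_triangle (p i 0 (-(2 * (a : ℤ)))) (p i 1 (-(2 * (a : ℤ)))) (p i 0 (-(a : ℤ)))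
  have q2 := rho_triangle (p i 1 (-(2 * (a : ℤ)))) (p i 1 (-(a : ℤ))) (p i 0 (-(a : ℤ)))
  have q3 := rho_triangle (p i 1 (-(2 * (a : ℤ)))) (p i 0 (-(2 * (a : ℤ)))) (p i 1 (-(a : ℤ)))
  have q4 := rho_triangle (p i 0 (-(2 * (a : ℤ)))) (p i 0 (-(a : ℤ))) (p i 1 (-(a : ℤ)))
  rw [rho_comm (p i 1 (-(a : ℤ))) (p i 0 (-(a : ℤ)))] at q2
  rw [rho_comm (p i 1 (-(2 * (a : ℤ)))) (p i 0 (-(2 * (a : ℤ))))] at q3
  have hab : |c i 1 - c i 0| * a = |(c i 1 - c i 0) * a| := by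
    rw [abs_mul, abs_of_nonneg ha0]
  rw [hab, abs_le]
  constructor
  · nlinarith
  · nlinarith

theorem cyc_speed {K : ℝ} {a : ℕ} {e : ℝ} {p : Fin 2 → Fin 2 → ℤ → ℍ} {U : Fin 2 → Fin 2 → ℤ → V}
    {c : Fin 2 → Fin 2 → ℝ} (h : Cyc K a e p U c) (i j : Fin 2) :
    |c i j - c 0 0| * a ≤ 8 * e := by
  have h1 := ACyc_sp1 h i
  have h2 := ACyc_sp1 h.rev 0
  have ha0 : (0 : ℝ) ≤ (a : ℝ) := Nat.cast_nonneg a
  have he := ACyc_e0 h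
  have k1 : |c i j - c i 0| * a ≤ 4 * e := by
    rcases ACyc_fin j with rfl | rfl
    · rw [sub_self, abs_zero, zero_mul]
      linarith
    · exact h1
  have k2 : |c i 0 - c 0 0| * a ≤ 4 * e := by
    rcases ACyc_fin i with rfl | rfl
    · rw [sub_self, abs_zero, zero_mul]
      linarith
    · exact h2
  have k3 : |c i j - c 0 0| ≤ |c i j - c i 0| + |c i 0 - c 0 0| := abs_sub_le _ _ _
  nlinarith

private lemma ACyc_good {K : ℝ} {a : ℕ} {e : ℝ} {p : Fin 2 → Fin 2 → ℤ → ℍ} {U : Fin 2 → Fin 2 → ℤ → V}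
    {c : Fin 2 → Fin 2 → ℝ} (h : Cyc K a e p U c) (i j : Fin 2)
    (k l : ℤ) (hk : |k| ≤ (a : ℤ)) (hl : |l| ≤ (a : ℤ)) :
    abs (rho (p i j k) (p i j l) - c 0 0 * |(k : ℝ) - l|) ≤ 17 * e := by
  have g := h.good i j k l (hk.trans (by omega)) (hl.trans (by omega))
  have sp := cyc_speed h i j
  have hk' : |(k : ℝ)| ≤ a := by exact_mod_cast hk
  have hl' : |(l : ℝ)| ≤ a := by exact_mod_cast hl
  have hs : |(k : ℝ) - l| ≤ 2 * a := by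
    have := abs_sub (k : ℝ) l
    linarith
  have h0 : 0 ≤ |(k : ℝ) - l| := abs_nonneg _
  have hd : abs ((c i j - c 0 0) * |(k : ℝ) - l|) ≤ 16 * e := by
    rw [abs_mul, abs_abs]
    have h1 := mul_le_mul_of_nonneg_left hs (abs_nonneg (c i j - c 0 0))
    linarith
  obtain ⟨d1, d2⟩ := abs_le.1 hd
  obtain ⟨g1, g2⟩ := abs_le.1 g
  rw [abs_le]
  constructor
  · linarith
  · linarith

private lemma ACyc_topc {K : ℝ} {a : ℕ} {e : ℝ} {p : Fin 2 → Fin 2 → ℤ → ℍ} {U : Fin 2 → Fin 2 → ℤ → V}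
    {c : Fin 2 → Fin 2 → ℝ} (h : Cyc K a e p U c) (i j : Fin 2) :
    rho (p i 0 (-(a : ℤ))) (p i j (-(a : ℤ))) ≤ e := by
  rcases ACyc_fin j with rfl | rfl
  · rw [rho_self]
    exact ACyc_e0 h
  · exact h.top i (-(a : ℤ)) (by omega) (by omega)

private lemma ACyc_botc {K : ℝ} {a : ℕ} {e : ℝ} {p : Fin 2 → Fin 2 → ℤ → ℍ} {U : Fin 2 → Fin 2 → ℤ → V}
    {c : Fin 2 → Fin 2 → ℝ} (h : Cyc K a e p U c) (i j : Fin 2) :
    rho (p 0 j (a : ℤ)) (p i j (a : ℤ)) ≤ e := by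
  rcases ACyc_fin i with rfl | rfl
  · rw [rho_self]
    exact ACyc_e0 h
  · exact h.bot j (a : ℤ) (by omega) (by omega)

private lemma ACyc_dP {K : ℝ} {a : ℕ} {e : ℝ} {p : Fin 2 → Fin 2 → ℤ → ℍ} {U : Fin 2 → Fin 2 → ℤ → V}
    {c : Fin 2 → Fin 2 → ℝ} (h : Cyc K a e p U c) (i j : Fin 2)
    (k : ℤ) (hk : |k| ≤ (a : ℤ)) :
    c 0 0 * ((k : ℝ) + a) - 18 * e ≤ rho (p i 0 (-(a : ℤ))) (p i j k) ∧
      rho (p i 0 (-(a : ℤ))) (p i j k) ≤ c 0 0 * ((k : ℝ) + a) + 18 * e := by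
  have g := ACyc_good h i j (-(a : ℤ)) k (by rw [abs_neg, abs_of_nonneg (by omega)]) hk
  have t := ACyc_topc h i j
  have hk' : |(k : ℝ)| ≤ a := by exact_mod_cast hk
  obtain ⟨k1, k2⟩ := abs_le.1 hk'
  have hd : |((-(a : ℤ) : ℤ) : ℝ) - k| = (k : ℝ) + a := by
    push_cast
    rw [abs_sub_comm, sub_neg_eq_add, abs_of_nonneg (by linarith)]
  rw [hd] at g
  obtain ⟨g1, g2⟩ := abs_le.1 g
  have q1 := rho_triangle (p i 0 (-(a : ℤ))) (p i j (-(a : ℤ))) (p i j k)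
  have q2 := rho_triangle (p i j (-(a : ℤ))) (p i 0 (-(a : ℤ))) (p i j k)
  rw [rho_comm (p i j (-(a : ℤ))) (p i 0 (-(a : ℤ)))] at q2
  constructor
  · linarith
  · linarith

private lemma ACyc_dQ {K : ℝ} {a : ℕ} {e : ℝ} {p : Fin 2 → Fin 2 → ℤ → ℍ} {U : Fin 2 → Fin 2 → ℤ → V}
    {c : Fin 2 → Fin 2 → ℝ} (h : Cyc K a e p U c) (i j : Fin 2)
    (k : ℤ) (hk : |k| ≤ (a : ℤ)) :
    c 0 0 * ((a : ℝ) - k) - 18 * e ≤ rho (p 0 j (a : ℤ)) (p i j k) ∧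
      rho (p 0 j (a : ℤ)) (p i j k) ≤ c 0 0 * ((a : ℝ) - k) + 18 * e := by
  have g := ACyc_good h i j (a : ℤ) k (by rw [abs_of_nonneg (by omega)]) hk
  have t := ACyc_botc h i j
  have hk' : |(k : ℝ)| ≤ a := by exact_mod_cast hk
  obtain ⟨k1, k2⟩ := abs_le.1 hk'
  have hd : |(((a : ℤ) : ℤ) : ℝ) - k| = (a : ℝ) - k := by
    push_cast
    rw [abs_of_nonneg (by linarith)]
  rw [hd] at g
  obtain ⟨g1, g2⟩ := abs_le.1 g
  have q1 := rho_triangle (p 0 j (a : ℤ)) (p i j (a : ℤ)) (p i j k)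
  have q2 := rho_triangle (p i j (a : ℤ)) (p 0 j (a : ℤ)) (p i j k)
  rw [rho_comm (p i j (a : ℤ)) (p 0 j (a : ℤ))] at q2
  constructor
  · linarith
  · linarith

private lemma ACyc_dPQ {K : ℝ} {a : ℕ} {e : ℝ} {p : Fin 2 → Fin 2 → ℤ → ℍ} {U : Fin 2 → Fin 2 → ℤ → V}
    {c : Fin 2 → Fin 2 → ℝ} (h : Cyc K a e p U c) (i j : Fin 2) :
    2 * c 0 0 * a - 19 * e ≤ rho (p i 0 (-(a : ℤ))) (p 0 j (a : ℤ)) ∧
      rho (p i 0 (-(a : ℤ))) (p 0 j (a : ℤ)) ≤ 2 * c 0 0 * a + 19 * e := by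
  obtain ⟨g1, g2⟩ := ACyc_dP h i j (a : ℤ) (by rw [abs_of_nonneg (by omega)])
  have t := ACyc_botc h i j
  have q1 := rho_triangle (p i 0 (-(a : ℤ))) (p i j (a : ℤ)) (p 0 j (a : ℤ))
  have q2 := rho_triangle (p i 0 (-(a : ℤ))) (p 0 j (a : ℤ)) (p i j (a : ℤ))
  rw [rho_comm (p i j (a : ℤ)) (p 0 j (a : ℤ))] at q1
  push_cast at g1 g2
  constructor
  · linarith
  · linarith

private lemma ACyc_gp {K : ℝ} {a : ℕ} {e : ℝ} {p : Fin 2 → Fin 2 → ℤ → ℍ} {U : Fin 2 → Fin 2 → ℤ → V}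
    {c : Fin 2 → Fin 2 → ℝ} (h : Cyc K a e p U c) (i j : Fin 2)
    (k : ℤ) (hk : |k| ≤ (a : ℤ)) :
    gp (p 0 j (a : ℤ)) (p i 0 (-(a : ℤ))) (p i j k) ≤ 28 * e := by
  have d1 := (ACyc_dP h i j k hk).2
  have d2 := (ACyc_dQ h i j k hk).2
  have d3 := (ACyc_dPQ h i j).1
  have he := ACyc_e0 h
  unfold gp
  rw [rho_comm (p i j k) (p 0 j (a : ℤ)), rho_comm (p i j k) (p i 0 (-(a : ℤ))),
    rho_comm (p 0 j (a : ℤ)) (p i 0 (-(a : ℤ)))]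
  linarith

private lemma ACyc_bra {K : ℝ} {a : ℕ} {e : ℝ} {p : Fin 2 → Fin 2 → ℤ → ℍ} {U : Fin 2 → Fin 2 → ℤ → V}
    {c : Fin 2 → Fin 2 → ℝ} (h : Cyc K a e p U c) (j : Fin 2)
    (k : ℤ) (hk : |k| ≤ (a : ℤ)) (G : ℝ) (hG : 60 * e ≤ G)
    (hg : c 0 0 * ((a : ℝ) - k) + 18 * e - G ≤
      gp (p 0 0 (-(a : ℤ))) (p 1 0 (-(a : ℤ))) (p 0 j (a : ℤ))) :
    rho (p 0 j k) (p 1 j k) ≤ 7 * G + 2 := by
  have he := ACyc_e0 h
  have g0 := ACyc_gp h 0 j k hk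
  have g1 := ACyc_gp h 1 j k hk
  obtain ⟨q0a, q0b⟩ := ACyc_dQ h 0 j k hk
  obtain ⟨q1a, q1b⟩ := ACyc_dQ h 1 j k hk
  refine branch_close (q := p 0 j (a : ℤ)) (P := p 0 0 (-(a : ℤ))) (P' := p 1 0 (-(a : ℤ)))
    (by linarith) (by linarith) ?_ (by linarith)
  rw [abs_le]
  constructor
  · linarith
  · linarith

private lemma ACyc_rho4 {K : ℝ} {a : ℕ} {e : ℝ} {p : Fin 2 → Fin 2 → ℤ → ℍ} {U : Fin 2 → Fin 2 → ℤ → V}
    {c : Fin 2 → Fin 2 → ℝ} (h : Cyc K a e p U c) (he1 : 1 ≤ e) :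
    rho (p 0 0 (-(a : ℤ))) (p 1 0 (-(a : ℤ))) + rho (p 0 0 (a : ℤ)) (p 0 1 (a : ℤ)) ≤
      4 * c 0 0 * a + 39 * e := by
  have f := fourpt (p 0 0 (-(a : ℤ))) (p 0 0 (a : ℤ)) (p 1 0 (-(a : ℤ))) (p 0 1 (a : ℤ))
  have d1 := (ACyc_dPQ h 0 0).2
  have d2 := (ACyc_dPQ h 1 1).2
  have d3 := (ACyc_dPQ h 1 0).2
  have d4 := (ACyc_dPQ h 0 1).2
  rw [rho_comm (p 0 0 (a : ℤ)) (p 1 0 (-(a : ℤ)))] at f
  have m : max (rho (p 0 0 (-(a : ℤ))) (p 0 0 (a : ℤ)) + rho (p 1 0 (-(a : ℤ))) (p 0 1 (a : ℤ)))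
      (rho (p 1 0 (-(a : ℤ))) (p 0 0 (a : ℤ)) + rho (p 0 0 (-(a : ℤ))) (p 0 1 (a : ℤ))) ≤
      4 * c 0 0 * a + 38 * e := by
    apply max_le
    · linarith
    · linarith
  linarith

private lemma ACyc_low {K : ℝ} {a : ℕ} {e : ℝ} {p : Fin 2 → Fin 2 → ℤ → ℍ} {U : Fin 2 → Fin 2 → ℤ → V}
    {c : Fin 2 → Fin 2 → ℝ} (h : Cyc K a e p U c) (he1 : 1 ≤ e) (hc0 : 0 < c 0 0)
    {y : ℝ} (hy : rho (p 0 0 (-(a : ℤ))) (p 1 0 (-(a : ℤ))) = 2 * y)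
    {n : ℕ} (hn : n ≤ 2 * a) (hn2 : y - 21 * e ≤ c 0 0 * n) (j : Fin 2)
    (k : ℤ) (hk1 : -(a : ℤ) + n ≤ k) (hk2 : k ≤ a) :
    rho (p 0 j k) (p 1 j k) ≤ 422 * e := by
  have d1 := (ACyc_dPQ h 0 j).1
  have d2 := (ACyc_dPQ h 1 j).1
  have hk : (-(a : ℝ)) + n ≤ (k : ℝ) := by exact_mod_cast hk1
  have key := ACyc_bra h j k (abs_le.2 ⟨by omega, hk2⟩) (60 * e) le_rfl (by
    unfold gp
    rw [rho_comm (p 0 j (a : ℤ)) (p 0 0 (-(a : ℤ))), rho_comm (p 0 j (a : ℤ)) (p 1 0 (-(a : ℤ)))]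
    have h1 : c 0 0 * ((a : ℝ) - k) ≤ c 0 0 * (2 * (a : ℝ) - n) :=
      mul_le_mul_of_nonneg_left (by linarith) hc0.le
    have h2 : c 0 0 * (2 * (a : ℝ) - n) = 2 * c 0 0 * a - c 0 0 * n := by ring
    linarith)
  linarith

private lemma ACyc_up {K : ℝ} {a : ℕ} {e : ℝ} {p : Fin 2 → Fin 2 → ℤ → ℍ} {U : Fin 2 → Fin 2 → ℤ → V}
    {c : Fin 2 → Fin 2 → ℝ} (h : Cyc K a e p U c) (he1 : 1 ≤ e) (hc0 : 0 < c 0 0)
    {y : ℝ} (hy : rho (p 0 0 (-(a : ℤ))) (p 1 0 (-(a : ℤ))) = 2 * y)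
    {n : ℕ} (hn : n ≤ 2 * a) (hn1 : c 0 0 * n ≤ y) (i : Fin 2)
    (k : ℤ) (hk1 : -(a : ℤ) ≤ k) (hk2 : k ≤ -(a : ℤ) + n) :
    rho (p i 0 k) (p i 1 k) ≤ 422 * e := by
  have r4 := ACyc_rho4 h he1
  have d1 := (ACyc_dPQ h i 0).1
  have d2 := (ACyc_dPQ h i 1).1
  have hk : (k : ℝ) ≤ (-(a : ℝ)) + n := by exact_mod_cast hk2
  have key := ACyc_bra h.rev i (-k) (by rw [abs_neg]; exact abs_le.2 ⟨hk1, by omega⟩) (60 * e)
    le_rfl (by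
    unfold gp
    rw [neg_neg, rho_comm (p i 0 (-(a : ℤ))) (p 0 0 (a : ℤ))]
    rw [rho_comm (p i 0 (-(a : ℤ))) (p 0 1 (a : ℤ))]
    rw [rho_comm (p i 0 (-(a : ℤ))) (p 0 0 (a : ℤ))] at d1
    rw [rho_comm (p i 0 (-(a : ℤ))) (p 0 1 (a : ℤ))] at d2
    have h1 : c 0 0 * ((k : ℝ) + a) ≤ c 0 0 * n :=
      mul_le_mul_of_nonneg_left (by linarith) hc0.le
    push_cast
    rw [sub_neg_eq_add, add_comm (a : ℝ)]
    linarith)
  rw [neg_neg] at key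
  linarith

private lemma ACyc_B1 {K : ℝ} (hK : 1 ≤ K) {a : ℕ} {e : ℝ} {p : Fin 2 → Fin 2 → ℤ → ℍ}
    {U : Fin 2 → Fin 2 → ℤ → V}
    {c : Fin 2 → Fin 2 → ℝ} (h : Cyc K a e p U c) (hKe : K ≤ e) (hlog : Real.log (8 * a + 8) ≤ e)
    (hc0 : 0 < c 0 0) {y : ℝ} {n : ℕ} (hn : n ≤ 2 * a) (hn1 : c 0 0 * n ≤ y) :
    nm (p 1 0 (-(a : ℤ))) (U 1 0 (-(a : ℤ) + n) - U 1 1 (-(a : ℤ) + n)) ≤
      Real.exp (y + 22 * e) := by
  have hna : (n : ℝ) ≤ 2 * a := by exact_mod_cast hn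
  have hl : Real.log (4 * n + 4) ≤ e := by
    refine (Real.log_le_log (by positivity) ?_).trans hlog
    linarith
  have hcast : ∀ k : ℕ, -(a : ℤ) + k + 1 = -(a : ℤ) + ((k + 1 : ℕ) : ℤ) := by
    intro k
    push_cast
    ring
  have hd : ∀ (j : Fin 2) (k : ℕ), k ≤ n →
      rho (p 1 0 (-(a : ℤ))) (p 1 j (-(a : ℤ) + k)) ≤ y + 18 * e := by
    intro j k hk
    have h1 := (ACyc_dP h 1 j (-(a : ℤ) + k) (abs_le.2 ⟨by omega, by omega⟩)).2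
    push_cast at h1
    have hkn : (k : ℝ) ≤ n := by exact_mod_cast hk
    have h2 : c 0 0 * (-(a : ℝ) + k + a) ≤ c 0 0 * n :=
      mul_le_mul_of_nonneg_left (by linarith) hc0.le
    linarith
  have key := upper2 K hK (fun k : ℕ => p 1 0 (-(a : ℤ) + k)) (fun k : ℕ => p 1 1 (-(a : ℤ) + k))
    (fun k : ℕ => U 1 0 (-(a : ℤ) + k)) (fun k : ℕ => U 1 1 (-(a : ℤ) + k)) n e (y + 18 * e)
    (p 1 0 (-(a : ℤ))) hKe hl
    (fun k _ => by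
      have h1 := h.hst 1 0 (-(a : ℤ) + k)
      rw [hcast k] at h1
      exact h1)
    (fun k _ => by
      have h1 := h.hst 1 1 (-(a : ℤ) + k)
      rw [hcast k] at h1
      exact h1)
    (by simpa using h.topU 1) (fun k hk => hd 0 k hk) (fun k hk => hd 1 k hk)
  rw [show y + 22 * e = y + 18 * e + 4 * e by ring]
  exact key

private lemma ACyc_C {K : ℝ} (hK : 1 ≤ K) {a : ℕ} {e : ℝ} {p : Fin 2 → Fin 2 → ℤ → ℍ}
    {U : Fin 2 → Fin 2 → ℤ → V}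
    {c : Fin 2 → Fin 2 → ℝ} (h : Cyc K a e p U c) (hKe : K ≤ e) (hlog : Real.log (8 * a + 8) ≤ e)
    (hc0 : 0 < c 0 0) {y : ℝ} (hy : rho (p 0 0 (-(a : ℤ))) (p 1 0 (-(a : ℤ))) = 2 * y)
    {n : ℕ} (hn : n ≤ 2 * a) (hn2 : y - 21 * e ≤ c 0 0 * n) (j : Fin 2) :
    nm (p 1 0 (-(a : ℤ))) (U 0 j (-(a : ℤ) + n) - U 1 j (-(a : ℤ) + n)) ≤
      Real.exp (2 * c 0 0 * a + 444 * e) := by
  have he1 : 1 ≤ e := by linarith
  have hna : (n : ℝ) ≤ 2 * a := by exact_mod_cast hn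
  have hcn : ((2 * a - n : ℕ) : ℤ) = 2 * (a : ℤ) - n := by omega
  have hcr : ((2 * a - n : ℕ) : ℝ) = 2 * (a : ℝ) - n := by
    have : ((2 * a - n : ℕ) : ℝ) = (((2 * a - n : ℕ) : ℤ) : ℝ) := by norm_cast
    rw [this, hcn]
    push_cast
    ring
  have hl : Real.log (4 * ((2 * a - n : ℕ) : ℝ) + 4) ≤ e := by
    refine (Real.log_le_log (by positivity) ?_).trans hlog
    rw [hcr]
    have : (0 : ℝ) ≤ n := Nat.cast_nonneg n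
    linarith
  have hcast : ∀ k : ℕ, (a : ℤ) - ((k + 1 : ℕ) : ℤ) + 1 = (a : ℤ) - k := by
    intro k
    push_cast
    ring
  have hd1 : ∀ k : ℕ, k ≤ 2 * a - n →
      rho (p 1 0 (-(a : ℤ))) (p 1 j ((a : ℤ) - k)) ≤ 2 * c 0 0 * a + 18 * e := by
    intro k hk
    have h1 := (ACyc_dP h 1 j ((a : ℤ) - k) (abs_le.2 ⟨by omega, by omega⟩)).2
    push_cast at h1
    have h2 : c 0 0 * ((a : ℝ) - k + a) ≤ c 0 0 * (2 * a) :=
      mul_le_mul_of_nonneg_left (by linarith [(Nat.cast_nonneg k : (0 : ℝ) ≤ k)]) hc0.le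
    linarith
  have hd0 : ∀ k : ℕ, k ≤ 2 * a - n →
      rho (p 1 0 (-(a : ℤ))) (p 0 j ((a : ℤ) - k)) ≤ 2 * c 0 0 * a + 440 * e := by
    intro k hk
    have h1 := hd1 k hk
    have h2 := ACyc_low h he1 hc0 hy hn hn2 j ((a : ℤ) - k) (by omega) (by omega)
    have h3 := rho_triangle (p 1 0 (-(a : ℤ))) (p 1 j ((a : ℤ) - k)) (p 0 j ((a : ℤ) - k))
    rw [rho_comm (p 1 j ((a : ℤ) - k)) (p 0 j ((a : ℤ) - k))] at h3
    linarith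
  have key := upper2 K hK (fun k : ℕ => p 0 j ((a : ℤ) - k)) (fun k : ℕ => p 1 j ((a : ℤ) - k))
    (fun k : ℕ => U 0 j ((a : ℤ) - k)) (fun k : ℕ => U 1 j ((a : ℤ) - k)) (2 * a - n) e
    (2 * c 0 0 * a + 440 * e) (p 1 0 (-(a : ℤ))) hKe hl
    (fun k _ => by
      have h1 := h.hst' 0 j ((a : ℤ) - ((k + 1 : ℕ) : ℤ))
      rw [hcast k] at h1
      exact h1)
    (fun k _ => by
      have h1 := h.hst' 1 j ((a : ℤ) - ((k + 1 : ℕ) : ℤ))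
      rw [hcast k] at h1
      exact h1)
    (by simpa using h.botU j) (fun k hk => hd0 k hk) (fun k hk => by
      have h1 := hd1 k hk
      show rho (p 1 0 (-(a : ℤ))) (p 1 j ((a : ℤ) - k)) ≤ _
      linarith)
  have key' : nm (p 1 0 (-(a : ℤ))) (U 0 j ((a : ℤ) - ((2 * a - n : ℕ) : ℤ)) -
      U 1 j ((a : ℤ) - ((2 * a - n : ℕ) : ℤ))) ≤ Real.exp (2 * c 0 0 * a + 440 * e + 4 * e) := key
  rw [hcn, show (a : ℤ) - (2 * (a : ℤ) - n) = -(a : ℤ) + n by ring] at key'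
  rw [show 2 * c 0 0 * a + 444 * e = 2 * c 0 0 * a + 440 * e + 4 * e by ring]
  exact key'

private lemma ACyc_B0 {K : ℝ} (hK : 1 ≤ K) {Cg : ℝ} (hCg1 : 1 ≤ Cg)
    (hgr : ∀ (p p' : ℕ → ℍ) (U U' : ℕ → V) (n : ℕ) (c e : ℝ),
      K ≤ e → Real.log (4 * n + 4) ≤ e → Cg * e ≤ n → 1 / (4 * K) ≤ c → c ≤ 2 * K →
      (∀ k, k < n → nm (p k) (U (k + 1) - U k) ≤ Real.exp (2 * K)) →
      (∀ k, k < n → nm (p' k) (U' (k + 1) - U' k) ≤ Real.exp (2 * K)) →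
      nm (p 0) (U 0 - U' 0) ≤ Real.exp e →
      (∀ k, k ≤ n → rho (p k) (p' k) ≤ e) →
      (∀ k l, k ≤ n → l ≤ n → abs (rho (p k) (p l) - c * |(k : ℝ) - l|) ≤ e) →
      (∀ k, k ≤ n → (k : ℝ) ≤
        K * (rho (p k) (p' k) + Real.log (1 + nm (p k) (U k - U' k))) + K * e) →
      Real.exp (c * n - Cg * e) ≤ nm (p n) (U n - U' n) ∧
      (∀ z, gp (p 0) z (p n) ≤ c * n / 4 →
        Real.exp (c * n + rho (p n) z - 2 * gp (p 0) z (p n) - Cg * e) ≤ nm z (U n - U' n)) ∧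
      (∀ z M, (∀ k, k ≤ n → rho z (p k) ≤ M) →
        nm z (U n - U' n) ≤ Real.exp (M + Cg * e))) {a : ℕ} {e : ℝ} {p : Fin 2 → Fin 2 → ℤ → ℍ}
    {U : Fin 2 → Fin 2 → ℤ → V}
    {c : Fin 2 → Fin 2 → ℝ} (h : Cyc K a e p U c) (hKe : K ≤ e) (hlog : Real.log (8 * a + 8) ≤ e)
    (hc0 : 0 < c 0 0) {y : ℝ} (hy : rho (p 0 0 (-(a : ℤ))) (p 1 0 (-(a : ℤ))) = 2 * y)
    {n : ℕ} (hn : n ≤ 2 * a) (hn1 : c 0 0 * n ≤ y) (hn2 : y - 21 * e ≤ c 0 0 * n)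
    (hCn : Cg * (422 * e) ≤ n) (hDn : 4 * (422 * e) ≤ c 0 0 * n) :
    Real.exp (2 * y - (3 + Cg) * (422 * e)) ≤
      nm (p 1 0 (-(a : ℤ))) (U 0 0 (-(a : ℤ) + n) - U 0 1 (-(a : ℤ) + n)) := by
  have he1 : 1 ≤ e := by linarith
  have hna : (n : ℝ) ≤ 2 * a := by exact_mod_cast hn
  have hl : Real.log (4 * n + 4) ≤ 422 * e := by
    refine (Real.log_le_log (by positivity) ?_).trans (hlog.trans (by linarith))
    linarith
  have hcast : ∀ k : ℕ, -(a : ℤ) + k + 1 = -(a : ℤ) + ((k + 1 : ℕ) : ℤ) := by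
    intro k
    push_cast
    ring
  have key := (hgr (fun k : ℕ => p 0 0 (-(a : ℤ) + k)) (fun k : ℕ => p 0 1 (-(a : ℤ) + k))
    (fun k : ℕ => U 0 0 (-(a : ℤ) + k)) (fun k : ℕ => U 0 1 (-(a : ℤ) + k)) n (c 0 0) (422 * e)
    (by linarith) hl hCn (h.hc 0 0).1 (h.hc 0 0).2
    (fun k _ => by
      have h1 := h.hst 0 0 (-(a : ℤ) + k)
      rw [hcast k] at h1
      exact h1)
    (fun k _ => by
      have h1 := h.hst 0 1 (-(a : ℤ) + k)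
      rw [hcast k] at h1
      exact h1)
    (by
      have h1 := h.topU 0
      have h2 : Real.exp e ≤ Real.exp (422 * e) := Real.exp_le_exp.2 (by linarith)
      simpa using h1.trans h2)
    (fun k hk => ACyc_up h he1 hc0 hy hn hn1 0 (-(a : ℤ) + k) (by omega) (by omega))
    (fun k l hk hl => by
      have h1 := h.good 0 0 (-(a : ℤ) + k) (-(a : ℤ) + l) (abs_le.2 ⟨by omega, by omega⟩)
        (abs_le.2 ⟨by omega, by omega⟩)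
      push_cast at h1
      rw [add_sub_add_left_eq_sub] at h1
      exact h1.trans (by linarith))
    (fun k hk => by
      have h1 := h.sept 0 (-(a : ℤ) + k) (abs_le.2 ⟨by omega, by omega⟩)
      push_cast at h1
      rw [show -(a : ℝ) + k + a = k by ring] at h1
      have h2 : K * e ≤ K * (422 * e) := by nlinarith
      show (k : ℝ) ≤ K * (rho (p 0 0 (-(a : ℤ) + k)) (p 0 1 (-(a : ℤ) + k)) +
        Real.log (1 + nm (p 0 0 (-(a : ℤ) + k)) (U 0 0 (-(a : ℤ) + k) - U 0 1 (-(a : ℤ) + k)))) +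
          K * (422 * e)
      linarith)).2.1 (p 1 0 (-(a : ℤ)))
  have d0 := (ACyc_dP h 0 0 (-(a : ℤ) + n) (abs_le.2 ⟨by omega, by omega⟩)).2
  have d1 := (ACyc_dP h 1 0 (-(a : ℤ) + n) (abs_le.2 ⟨by omega, by omega⟩)).2
  push_cast at d0 d1
  rw [show -(a : ℝ) + n + a = n by ring] at d0 d1
  have d2 := ACyc_low h he1 hc0 hy hn hn2 0 (-(a : ℤ) + n) le_rfl (by omega)
  have t1 := rho_triangle (p 0 0 (-(a : ℤ) + n)) (p 1 0 (-(a : ℤ) + n)) (p 1 0 (-(a : ℤ)))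
  rw [rho_comm (p 1 0 (-(a : ℤ) + n)) (p 1 0 (-(a : ℤ)))] at t1
  have t2 := rho_triangle (p 0 0 (-(a : ℤ))) (p 0 0 (-(a : ℤ) + n)) (p 1 0 (-(a : ℤ)))
  have hz : (fun k : ℕ => p 0 0 (-(a : ℤ) + k)) 0 = p 0 0 (-(a : ℤ)) := by simp
  rw [show (-(a : ℤ) + ((0 : ℕ) : ℤ)) = -(a : ℤ) by simp] at key
  have hgp : gp (p 0 0 (-(a : ℤ))) (p 1 0 (-(a : ℤ))) (p 0 0 (-(a : ℤ) + n)) ≤ 422 * e := by
    unfold gp
    rw [rho_comm (p 0 0 (-(a : ℤ) + n)) (p 0 0 (-(a : ℤ))), hy]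
    linarith
  have key2 := key (by linarith)
  refine (Real.exp_le_exp.2 ?_).trans key2
  have e1 : (3 + Cg) * (422 * e) = 3 * (422 * e) + Cg * (422 * e) := by ring
  rw [e1]
  linarith

theorem cyc_top (K : ℝ) (hK : 1 ≤ K) : ∃ C : ℝ, 1 ≤ C ∧
    ∀ (a : ℕ) (e : ℝ) (p : Fin 2 → Fin 2 → ℤ → ℍ) (U : Fin 2 → Fin 2 → ℤ → V)
      (c : Fin 2 → Fin 2 → ℝ), K ≤ e → Real.log (8 * a + 8) ≤ e → C * e ≤ a →
      Cyc K a e p U c →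
      rho (p 0 0 (-(a : ℤ))) (p 1 0 (-(a : ℤ))) ≤ 2 * c 0 0 * a + C * e := by
  obtain ⟨Cg, hCg1, hgr⟩ := growth K hK
  obtain ⟨C, hC⟩ : ∃ C : ℝ, C = 422 * (8 + Cg) * (16 * K) := ⟨_, rfl⟩
  have hK0 : 0 < K := by linarith
  have hC0 : 422 * (8 + Cg) * 16 ≤ C := by
    rw [hC]
    nlinarith
  refine ⟨C, by linarith, ?_⟩
  intro a e p U c hKe hlog hCa h
  have he1 : 1 ≤ e := by linarith
  have he0 : 0 < e := by linarith
  have hCg0 : 0 < Cg := by linarith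
  by_contra hcon
  rw [not_le] at hcon
  obtain ⟨y, hy⟩ : ∃ y : ℝ, y = rho (p 0 0 (-(a : ℤ))) (p 1 0 (-(a : ℤ))) / 2 := ⟨_, rfl⟩
  have hy2 : rho (p 0 0 (-(a : ℤ))) (p 1 0 (-(a : ℤ))) = 2 * y := by
    rw [hy]
    ring
  have hc1 := (h.hc 0 0).1
  have hc2 := (h.hc 0 0).2
  have hc0 : 0 < c 0 0 := lt_of_lt_of_le (by positivity) hc1
  have ha0 : (0 : ℝ) ≤ (a : ℝ) := Nat.cast_nonneg a
  have hCe : 422 * (8 + Cg) * 16 * e ≤ C * e := mul_le_mul_of_nonneg_right hC0 (by linarith)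
  -- bound for y
  have hyl : c 0 0 * a + 211 * (8 + Cg) * 16 * e ≤ y := by
    rw [hy2] at hcon
    nlinarith
  have hyu : y ≤ 2 * c 0 0 * a + 19 * e := by
    have d1 := (ACyc_dPQ h 0 0).2
    have d2 := (ACyc_dPQ h 1 0).2
    have t := rho_triangle (p 0 0 (-(a : ℤ))) (p 0 0 (a : ℤ)) (p 1 0 (-(a : ℤ)))
    rw [rho_comm (p 0 0 (a : ℤ)) (p 1 0 (-(a : ℤ)))] at t
    linarith
  have hy0 : 0 ≤ y := by
    have : 0 ≤ 211 * (8 + Cg) * 16 * e := by positivity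
    have : 0 ≤ c 0 0 * a := by positivity
    linarith
  obtain ⟨n, hn, hn1, hn2⟩ : ∃ n : ℕ, n ≤ 2 * a ∧ c 0 0 * n ≤ y ∧ y - 21 * e ≤ c 0 0 * n := by
    refine ⟨min ⌊y / c 0 0⌋₊ (2 * a), min_le_right _ _, ?_, ?_⟩
    · have h1 : ((min ⌊y / c 0 0⌋₊ (2 * a) : ℕ) : ℝ) ≤ y / c 0 0 := by
        refine le_trans ?_ (Nat.floor_le (div_nonneg hy0 hc0.le))
        exact_mod_cast min_le_left _ _
      rw [le_div_iff₀ hc0] at h1
      linarith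
    · rcases le_total ⌊y / c 0 0⌋₊ (2 * a) with h1 | h1
      · rw [min_eq_left h1]
        have h2 := Nat.lt_floor_add_one (y / c 0 0)
        rw [div_lt_iff₀ hc0] at h2
        linarith
      · rw [min_eq_right h1]
        push_cast
        linarith
  have hna : (a : ℝ) ≤ n := by
    have h1 : c 0 0 * a ≤ c 0 0 * n := by
      have h2 : 21 * e ≤ 211 * (8 + Cg) * 16 * e := by nlinarith
      linarith
    exact le_of_mul_le_mul_left h1 hc0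
  have hca : 422 * (8 + Cg) * 4 * e ≤ c 0 0 * a := by
    have h1 : 1 / (4 * K) * (C * e) ≤ c 0 0 * a := by
      have hC00 : 0 ≤ C := by nlinarith
      apply mul_le_mul hc1 hCa (mul_nonneg hC00 he0.le) hc0.le
    have h2 : 1 / (4 * K) * (C * e) = 422 * (8 + Cg) * 4 * e := by
      rw [hC]
      field_simp
      ring
    linarith
  have hcna : c 0 0 * a ≤ c 0 0 * n := mul_le_mul_of_nonneg_left hna hc0.le
  have q0 := ACyc_B0 hK hCg1 hgr h hKe hlog hc0 hy2 hn hn1 hn2 (by nlinarith) (by nlinarith)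
  have q1 := ACyc_B1 hK h hKe hlog hc0 hn hn1
  have q2 := ACyc_C hK h hKe hlog hc0 hy2 hn hn2 0
  have q3 := ACyc_C hK h hKe hlog hc0 hy2 hn hn2 1
  have hv : U 0 0 (-(a : ℤ) + n) - U 0 1 (-(a : ℤ) + n) =
      (U 1 0 (-(a : ℤ) + n) - U 1 1 (-(a : ℤ) + n)) +
      ((U 0 0 (-(a : ℤ) + n) - U 1 0 (-(a : ℤ) + n)) -
        (U 0 1 (-(a : ℤ) + n) - U 1 1 (-(a : ℤ) + n))) := by
    abel
  rw [hv] at q0
  have s1 := nm_add_le (p 1 0 (-(a : ℤ))) (U 1 0 (-(a : ℤ) + n) - U 1 1 (-(a : ℤ) + n))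
      ((U 0 0 (-(a : ℤ) + n) - U 1 0 (-(a : ℤ) + n)) -
        (U 0 1 (-(a : ℤ) + n) - U 1 1 (-(a : ℤ) + n)))
  have s2 := nm_sub_le (p 1 0 (-(a : ℤ))) (U 0 0 (-(a : ℤ) + n) - U 1 0 (-(a : ℤ) + n))
        (U 0 1 (-(a : ℤ) + n) - U 1 1 (-(a : ℤ) + n))
  have s3 : Real.exp (2 * y - (3 + Cg) * (422 * e)) ≤
      Real.exp (y + 22 * e) + 2 * Real.exp (2 * c 0 0 * a + 444 * e) := by linarith
  obtain ⟨M, hM⟩ : ∃ M : ℝ, M = max (y + 22 * e) (2 * c 0 0 * a + 444 * e) := ⟨_, rfl⟩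
  have m1 : Real.exp (y + 22 * e) ≤ Real.exp M := Real.exp_le_exp.2 (by rw [hM]; exact le_max_left _ _)
  have m2 : Real.exp (2 * c 0 0 * a + 444 * e) ≤ Real.exp M :=
    Real.exp_le_exp.2 (by rw [hM]; exact le_max_right _ _)
  have m3 : (3 : ℝ) ≤ Real.exp 2 := by
    have := Real.add_one_le_exp (2 : ℝ)
    linarith
  have m4 : Real.exp (2 * y - (3 + Cg) * (422 * e)) ≤ Real.exp (2 + M) := by
    rw [Real.exp_add]
    have := mul_le_mul_of_nonneg_right m3 (Real.exp_pos M).le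
    linarith
  rw [Real.exp_le_exp] at m4
  have e1 : (3 + Cg) * (422 * e) = 1266 * e + 422 * (Cg * e) := by ring
  have e2 : 0 ≤ Cg * e := by positivity
  have e3 : 422 * (8 + Cg) * 4 * e = 13504 * e + 1688 * (Cg * e) := by ring
  have e4 : 211 * (8 + Cg) * 16 * e = 27008 * e + 3376 * (Cg * e) := by ring
  rw [e1] at m4
  rw [e3] at hca
  rw [e4] at hyl
  rcases le_total (y + 22 * e) (2 * c 0 0 * a + 444 * e) with h1 | h1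
  · rw [hM, max_eq_right h1] at m4
    linarith
  · rw [hM, max_eq_left h1] at m4
    linarith

theorem cyc_low (K : ℝ) (hK : 1 ≤ K) : ∃ C : ℝ, 1 ≤ C ∧
    ∀ (a : ℕ) (e : ℝ) (p : Fin 2 → Fin 2 → ℤ → ℍ) (U : Fin 2 → Fin 2 → ℤ → V)
      (c : Fin 2 → Fin 2 → ℝ), K ≤ e → Real.log (8 * a + 8) ≤ e → C * e ≤ a →
      Cyc K a e p U c → ∀ j (k : ℤ), 0 ≤ k → k ≤ a → rho (p 0 j k) (p 1 j k) ≤ C * e := by
  obtain ⟨C, hC1, hC⟩ := cyc_top K hK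
  refine ⟨7 * (60 + C) + 2, by linarith, ?_⟩
  intro a e p U c hKe hlog hCa h j k hk0 hka
  have he1 : 1 ≤ e := by linarith
  have hCe : 0 ≤ C * e := by positivity
  have ht := hC a e p U c hKe hlog (by nlinarith) h
  have hc1 := (h.hc 0 0).1
  have hK0 : 0 < K := by linarith
  have hc0 : 0 < c 0 0 := lt_of_lt_of_le (by positivity) hc1
  have d1 := (ACyc_dPQ h 0 j).1
  have d2 := (ACyc_dPQ h 1 j).1
  have hk : (0 : ℝ) ≤ (k : ℝ) := by exact_mod_cast hk0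
  have key := ACyc_bra h j k (abs_le.2 ⟨by omega, hka⟩) ((60 + C) * e) (by nlinarith) (by
    unfold gp
    rw [rho_comm (p 0 j (a : ℤ)) (p 0 0 (-(a : ℤ))), rho_comm (p 0 j (a : ℤ)) (p 1 0 (-(a : ℤ)))]
    have h1 : c 0 0 * ((a : ℝ) - k) ≤ c 0 0 * a :=
      mul_le_mul_of_nonneg_left (by linarith) hc0.le
    have h2 : (60 + C) * e = 60 * e + C * e := by ring
    rw [h2]
    linarith)
  nlinarith

theorem four_cycle (K : ℝ) (hK : 1 ≤ K) : ∃ C : ℝ, 1 ≤ C ∧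
    ∀ (a : ℕ) (e : ℝ) (p : Fin 2 → Fin 2 → ℤ → ℍ) (U : Fin 2 → Fin 2 → ℤ → V)
      (c : Fin 2 → Fin 2 → ℝ), K ≤ e → Real.log (8 * a + 8) ≤ e → C * e ≤ a →
      Cyc K a e p U c →
      (∀ i j, |c i j - c 0 0| * a ≤ C * e) ∧
      (∀ i (k : ℤ), -(a : ℤ) ≤ k → k ≤ 0 → rho (p i 0 k) (p i 1 k) ≤ C * e) ∧
      (∀ j (k : ℤ), 0 ≤ k → k ≤ a → rho (p 0 j k) (p 1 j k) ≤ C * e) := by
  obtain ⟨C, hC1, hC⟩ := cyc_low K hK
  refine ⟨C + 8, by linarith, ?_⟩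
  intro a e p U c hKe hlog hCa h
  have he1 : 1 ≤ e := by linarith
  have hCa' : C * e ≤ a := by nlinarith
  have hle : C * e ≤ (C + 8) * e := by nlinarith
  refine ⟨fun i j => (cyc_speed h i j).trans (by nlinarith), fun i k h1 h2 => ?_,
    fun j k h1 h2 => (hC a e p U c hKe hlog hCa' h j k h1 h2).trans hle⟩
  have key := hC a e _ _ _ hKe hlog hCa' h.rev i (-k) (by omega) (by omega)
  simp only [neg_neg] at key
  exact key.trans hle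

end Pool.Agent.FIB
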