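import Pool.Agent.FIB.Step

/-!
# Measurability, and measure theoretic tools

Proofs.
* `meas`: let `c` be the map of `F.fac`. The map `ω ↦ (i ↦ c (w i ω, x i ω))` into the countable
  discrete space `ι → ℕ` is measurable (`measurable_pi_iff`), and the given function is the composition
  of it with an arbitrary function of `ι → ℕ` (choose for each value a representative; on the range
  it does not depend on the choice), which is measurable (`measurable_of_countable` or
  `measurable_from_top`-style).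
* `measSet` is the case `β = Prop`.
* `markov_fubini`: `∫⁻ a, volume {b | (a, b) ∈ S} = volume S` (`Measure.prod_apply`) and
  `mul_meas_ge_le_lintegral`.
* `fiber_le`: `Measure.prod_apply` for `S ∩ (A ×ˢ univ)`.
* `square_le`: `A ×ˢ A ⊆ S`, `Measure.prod_prod`.
* `scale_le`, `shift_le`: `Real.volume_preimage_mul_left`, `measure_preimage_add`.
* `pairs_to_all`: if `A = {b ∈ B | e + 1 < gp q (g b) t}` then for `b, b' ∈ A`,
  `gp (g b) (g b') t ≥ min (gp q (g b) t) (gp q (g b') t) - 1/2 > e` (`gp_min`), so `square_le`.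
  `hS` is the measurability of the two sets (for `A` it is a hypothesis as well).
-/

set_option autoImplicit false

namespace Pool.Agent.FIB

open UpperHalfPlane MeasureTheory Set
open scoped MatrixGroups

theorem measurable_pt : Measurable fun p : ℝ × ℝ => pt p.1 p.2 := by
  have h : Continuous fun p : ℝ × ℝ => pt p.1 p.2 := by
    rw [UpperHalfPlane.isEmbedding_coe.continuous_iff]
    change Continuous fun p : ℝ × ℝ => (⟨p.1, Real.exp (-2 * p.2)⟩ : ℂ)
    have h1 : (fun p : ℝ × ℝ => (⟨p.1, Real.exp (-2 * p.2)⟩ : ℂ)) = fun p : ℝ × ℝ =>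
        Complex.equivRealProdCLM.symm (p.1, Real.exp (-2 * p.2)) := by
      funext p
      rfl
    rw [h1]
    exact Complex.equivRealProdCLM.symm.continuous.comp
      (continuous_fst.prodMk (Real.continuous_exp.comp (continuous_const.mul continuous_snd)))
  exact h.measurable

theorem measurable_pt' {Ω : Type*} [MeasurableSpace Ω] {b j : Ω → ℝ} (hb : Measurable b)
    (hj : Measurable j) : Measurable fun ω => pt (b ω) (j ω) := by
  exact measurable_pt.comp (hb.prodMk hj)

namespace QM

variable {K : ℝ}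

/-- Any function of finitely many values of `F` is measurable. -/
theorem meas (F : QM K) {Ω : Type*} [MeasurableSpace Ω] {ι : Type} [Finite ι]
    (w : ι → Ω → V) (x : ι → Ω → ℍ) (hw : ∀ i, Measurable (w i)) (hx : ∀ i, Measurable (x i))
    {β : Type*} [MeasurableSpace β] (Φ : (ι → V × ℍ) → β) :
    Measurable fun ω => Φ (fun i => (F.U (w i ω) (x i ω), F.f (w i ω) (x i ω))) := by
  obtain ⟨c, hc, hfac⟩ := F.fac
  have hG : Measurable (fun (ω : Ω) (i : ι) => c (w i ω, x i ω)) := by
    rw [measurable_pi_iff]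
    intro i
    exact hc.comp ((hw i).prodMk (hx i))
  intro T _
  have h1 : (fun ω => Φ (fun i => (F.U (w i ω) (x i ω), F.f (w i ω) (x i ω)))) ⁻¹' T =
      (fun (ω : Ω) (i : ι) => c (w i ω, x i ω)) ⁻¹' ((fun (ω : Ω) (i : ι) => c (w i ω, x i ω)) ''
        ((fun ω => Φ (fun i => (F.U (w i ω) (x i ω), F.f (w i ω) (x i ω)))) ⁻¹' T)) := by
    refine Set.Subset.antisymm (Set.subset_preimage_image _ _) ?_
    rintro ω ⟨ω', hω', h2⟩
    have h3 : (fun i => (F.U (w i ω) (x i ω), F.f (w i ω) (x i ω))) =
        fun i => (F.U (w i ω') (x i ω'), F.f (w i ω') (x i ω')) := by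
      funext i
      obtain ⟨h4, h5⟩ := hfac (w i ω, x i ω) (w i ω', x i ω') (congrFun h2 i).symm
      exact Prod.ext h4 h5
    rw [Set.mem_preimage, h3]
    exact hω'
  rw [h1]
  exact hG (Set.to_countable _).measurableSet

/-- Any condition on finitely many values of `F` defines a measurable set. -/
theorem measSet (F : QM K) {Ω : Type*} [MeasurableSpace Ω] {ι : Type} [Finite ι]
    (w : ι → Ω → V) (x : ι → Ω → ℍ) (hw : ∀ i, Measurable (w i)) (hx : ∀ i, Measurable (x i))
    (P : (ι → V × ℍ) → Prop) :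
    MeasurableSet {ω | P (fun i => (F.U (w i ω) (x i ω), F.f (w i ω) (x i ω)))} := by
  exact measurableSet_setOfPred.2 (F.meas w x hw hx P)

end QM

section tools

variable {α β : Type*} [MeasureSpace α] [MeasureSpace β] [SigmaFinite (volume : Measure α)]
  [SigmaFinite (volume : Measure β)]

theorem markov_fubini {S : Set (α × β)} (hS : MeasurableSet S) {ε δ : ℝ} (hδ : 0 < δ) (hε : 0 ≤ ε)
    (h : volume S ≤ ENNReal.ofReal (ε * δ)) :
    volume {a : α | ENNReal.ofReal δ < volume {b : β | (a, b) ∈ S}} ≤ ENNReal.ofReal ε := by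
  have h1 : volume S = ∫⁻ a, volume {b : β | (a, b) ∈ S} := Measure.prod_apply hS
  have h2 : Measurable fun a : α => volume {b : β | (a, b) ∈ S} := measurable_measure_prodMk_left hS
  have h3 := mul_meas_ge_le_lintegral (μ := (volume : Measure α)) h2 (ENNReal.ofReal δ)
  rw [← h1] at h3
  have h4 := h3.trans h
  rw [mul_comm ε δ, ENNReal.ofReal_mul hδ.le] at h4
  have h5 : ENNReal.ofReal δ ≠ 0 := by
    rw [Ne, ENNReal.ofReal_eq_zero, not_le]
    exact hδ
  have h6 := (ENNReal.mul_le_mul_iff_right h5 ENNReal.ofReal_ne_top).1 h4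
  refine (measure_mono ?_).trans h6
  intro a ha
  have ha' : ENNReal.ofReal δ < volume {b : β | (a, b) ∈ S} := ha
  exact ha'.le

theorem fiber_le {S : Set (α × β)} (hS : MeasurableSet S) {A : Set α} (hA : MeasurableSet A)
    {ε : ℝ} (h : ∀ a ∈ A, volume {b : β | (a, b) ∈ S} ≤ ENNReal.ofReal ε) :
    volume {p : α × β | p.1 ∈ A ∧ p ∈ S} ≤ ENNReal.ofReal ε * volume A := by
  have hm : MeasurableSet {p : α × β | p.1 ∈ A ∧ p ∈ S} := (measurable_fst hA).inter hS
  have h1 : volume {p : α × β | p.1 ∈ A ∧ p ∈ S} =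
      ∫⁻ a, volume {b : β | a ∈ A ∧ (a, b) ∈ S} := Measure.prod_apply hm
  rw [h1]
  have h2 : ∀ a : α, volume {b : β | a ∈ A ∧ (a, b) ∈ S} ≤
      A.indicator (fun _ => ENNReal.ofReal ε) a := by
    intro a
    by_cases ha : a ∈ A
    · rw [Set.indicator_of_mem ha]
      refine (measure_mono ?_).trans (h a ha)
      intro b hb
      exact hb.2
    · have h3 : {b : β | a ∈ A ∧ (a, b) ∈ S} = ∅ := by
        ext b
        simp [ha]
      rw [h3, measure_empty]
      exact bot_le
  refine (lintegral_mono h2).trans ?_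
  rw [lintegral_indicator hA, lintegral_const, Measure.restrict_apply_univ]

theorem square_le {S : Set (α × α)} {A : Set α} (h : ∀ a ∈ A, ∀ b ∈ A, (a, b) ∈ S) :
    volume A * volume A ≤ volume S := by
  have h1 : (volume : Measure (α × α)) (A ×ˢ A) = volume A * volume A := Measure.prod_prod A A
  rw [← h1]
  refine measure_mono ?_
  rintro ⟨a, b⟩ ⟨ha, hb⟩
  exact h a ha b hb

end tools

theorem shift_le (S : Set ℝ) (c : ℝ) : volume {x : ℝ | c + x ∈ S} = volume S := by
  exact measure_preimage_add volume c S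

theorem scale_le (S : Set ℝ) {c : ℝ} (hc : c ≠ 0) (d : ℝ) :
    volume {x : ℝ | d + c * x ∈ S} = ENNReal.ofReal |c⁻¹| * volume S := by
  have h1 := Real.volume_preimage_mul_left hc {x : ℝ | d + x ∈ S}
  rw [shift_le S d] at h1
  exact h1

theorem shiftV_le (S : Set V) (c : V) : volume {x : V | c + x ∈ S} = volume S := by
  exact measure_preimage_add volume c S

theorem scaleV_le (S : Set V) {c : ℝ} (hc : c ≠ 0) (d : V) :
    volume {x : V | d + c • x ∈ S} = ENNReal.ofReal (c⁻¹ ^ 2) * volume S := by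
  have h1 := Measure.addHaar_preimage_smul (volume : Measure V) hc {x : V | d + x ∈ S}
  rw [shiftV_le S d] at h1
  have h2 : Module.finrank ℝ V = 2 := by simp [V]
  have h3 : |(c ^ Module.finrank ℝ V)⁻¹| = c⁻¹ ^ 2 := by
    rw [h2, ← inv_pow, abs_of_nonneg (sq_nonneg _)]
  rw [h3] at h1
  exact h1

/-- An affine change of variables by an element of `SL₂(ℝ)` preserves the area. -/
theorem actV_le (S : Set V) (g : SL(2, ℝ)) (d : V) :
    volume {x : V | d + act g x ∈ S} = volume S := by
  have hL : ∀ x : V, Matrix.toLin (Module.Basis.finTwoProd ℝ) (Module.Basis.finTwoProd ℝ)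
      !![g 0 0, g 0 1; g 1 0, g 1 1] x = act g x := by
    intro x
    rw [Matrix.toLin_finTwoProd_apply]
    rfl
  have hdet : LinearMap.det (Matrix.toLin (Module.Basis.finTwoProd ℝ) (Module.Basis.finTwoProd ℝ)
      !![g 0 0, g 0 1; g 1 0, g 1 1]) = 1 := by
    rw [LinearMap.det_toLin, Matrix.det_fin_two_of]
    have h1 := g.det_coe
    rw [Matrix.det_fin_two] at h1
    exact h1
  have h1 := Measure.addHaar_preimage_linearMap (volume : Measure V)
    (f := Matrix.toLin (Module.Basis.finTwoProd ℝ) (Module.Basis.finTwoProd ℝ)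
      !![g 0 0, g 0 1; g 1 0, g 1 1]) (by rw [hdet]; exact one_ne_zero) {x : V | d + x ∈ S}
  rw [hdet, inv_one, abs_one, ENNReal.ofReal_one, one_mul, shiftV_le S d] at h1
  rw [← h1]
  refine congrArg volume ?_
  ext x
  rw [Set.mem_preimage, Set.mem_ofPred_eq, Set.mem_ofPred_eq, hL]

end Pool.Agent.FIB
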