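import Pool.Agent.FIB.Iface
import Pool.Agent.FIB.Meas

/-!
# Part A: good windows

* `GC F w b j r c e`: on the window of half length `r` around depth `j` in direction `b` the path of
  the sheet `w` is a geodesic of speed `c`, up to `e`.
* `GG F w b j r e`: `GC` for some speed `c ∈ [1/(4K), 2K]`.

`GC_sub`: substitute `i + d`, `i' + d`. `GC_near`: two sheets whose paths are `e'`-close on the window.
`GG_meas`: `GG` is a condition on the finitely many values `F.f (w q) (pt (b q) (j + i))`, `|i| ≤ r`: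
`QM.measSet` with `ι = Finset.Icc (-r : ℤ) r` (as a type) and `measurable_pt'`.
`UnitP_meas`, `SpreadP_meas` (measurability of the conditions of `StT`): the first as for `GG`; for the second,
`SpreadP F w b j a e ε` says that a section of a measurable set has measure `≤ ofReal ε`:
`measurable_measure_prodMk_left` (or `Measurable.lintegral_prod_right'`) for the set of `((u, b), κ)`.
-/

set_option autoImplicit false

namespace Pool.Agent.FIB

open UpperHalfPlane MeasureTheory Set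

variable {K : ℝ}

/-- Constant speed `c` (up to `e`) on the window of half length `r` around depth `j`. -/
def GC (F : QM K) (w : V) (b j : ℝ) (r : ℕ) (c e : ℝ) : Prop :=
  ∀ i i' : ℤ, |i| ≤ r → |i'| ≤ r →
    abs (rho (F.f w (pt b (j + i))) (F.f w (pt b (j + i'))) - c * |(i : ℝ) - i'|) ≤ e

/-- A good window. -/
def GG (F : QM K) (w : V) (b j : ℝ) (r : ℕ) (e : ℝ) : Prop :=
  ∃ c, 1 / (4 * K) ≤ c ∧ c ≤ 2 * K ∧ GC F w b j r c e

theorem GC_sub (F : QM K) (w : V) (b j : ℝ) (r r' : ℕ) (d : ℤ) (c e : ℝ)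
    (h : GC F w b j r c e) (hr : |d| + r' ≤ r) : GC F w b (j + d) r' c e := by
  intro i i' hi hi'
  have h1 : |d + i| ≤ (r : ℤ) := by
    have := abs_add_le d i
    omega
  have h2 : |d + i'| ≤ (r : ℤ) := by
    have := abs_add_le d i'
    omega
  have h3 := h (d + i) (d + i') h1 h2
  push_cast at h3
  have e1 : j + (d + i : ℝ) = j + d + i := by ring
  have e2 : j + (d + i' : ℝ) = j + d + i' := by ring
  have e3 : (d + i : ℝ) - (d + i') = i - i' := by ring
  rw [e1, e2, e3] at h3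
  exact h3

theorem GC_mono (F : QM K) (w : V) (b j : ℝ) (r : ℕ) (c e e' : ℝ)
    (h : GC F w b j r c e) (he : e ≤ e') : GC F w b j r c e' := by
  exact fun i i' hi hi' => (h i i' hi hi').trans he

private theorem tr_f_pt (F : QM K) (w0 v : V) (b j κ τ : ℝ) :
    (F.tr w0 (fr b j)).f v (pt κ τ) =
      F.f (w0 + act (fr b j) v) (pt (b + κ * Real.exp (-2 * j)) (j + τ)) := by
  rw [QM.tr_f, fr_smul]

/-- Passing to a frame. -/
theorem GC_tr (F : QM K) (w0 v : V) (b j κ τ : ℝ) (r : ℕ) (c e : ℝ) :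
    GC (F.tr w0 (fr b j)) v κ τ r c e ↔
      GC F (w0 + act (fr b j) v) (b + κ * Real.exp (-2 * j)) (j + τ) r c e := by
  unfold GC
  simp only [tr_f_pt, ← add_assoc]

theorem GG_tr (F : QM K) (w0 v : V) (b j κ τ : ℝ) (r : ℕ) (e : ℝ) :
    GG (F.tr w0 (fr b j)) v κ τ r e ↔
      GG F (w0 + act (fr b j) v) (b + κ * Real.exp (-2 * j)) (j + τ) r e := by
  unfold GG
  simp only [GC_tr]

private theorem meas_win (F : QM K) (r : ℕ) {Ω : Type*} [MeasurableSpace Ω] (w : Ω → V)
    (b j : Ω → ℝ) (hw : Measurable w) (hb : Measurable b) (hj : Measurable j)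
    (P : ((ℤ → ℍ)) → Prop)
    (hP : ∀ x y : ℤ → ℍ, (∀ i : ℤ, |i| ≤ r → x i = y i) → P x → P y) :
    MeasurableSet {q : Ω | P (fun i => F.f (w q) (pt (b q) (j q + i)))} := by
  have h1 := F.measSet (ι := (Finset.Icc (-(r : ℤ)) r : Finset ℤ))
    (fun _ => w) (fun i q => pt (b q) (j q + (i : ℤ)))
    (fun _ => hw) (fun i => measurable_pt' hb (hj.add_const _))
    (fun y => P (fun i => if h : i ∈ Finset.Icc (-(r : ℤ)) r then (y ⟨i, h⟩).2 else o))
  convert h1 using 1
  ext q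
  rw [mem_ofPred_eq, mem_ofPred_eq]
  have hmem : ∀ i : ℤ, |i| ≤ r → i ∈ Finset.Icc (-(r : ℤ)) r := fun i hi => by
    rw [Finset.mem_Icc]; exact abs_le.1 hi
  constructor
  · refine hP _ _ fun i hi => ?_
    rw [dif_pos (hmem i hi)]
  · refine hP _ _ fun i hi => ?_
    rw [dif_pos (hmem i hi)]

theorem GG_meas (F : QM K) (r : ℕ) (e : ℝ) {Ω : Type*} [MeasurableSpace Ω] (w : Ω → V)
    (b j : Ω → ℝ) (hw : Measurable w) (hb : Measurable b) (hj : Measurable j) :
    MeasurableSet {q : Ω | GG F (w q) (b q) (j q) r e} := by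
  refine meas_win F r w b j hw hb hj (fun x => ∃ c, 1 / (4 * K) ≤ c ∧ c ≤ 2 * K ∧
    ∀ i i' : ℤ, |i| ≤ r → |i'| ≤ r → abs (rho (x i) (x i') - c * |(i : ℝ) - i'|) ≤ e) ?_
  rintro x y hxy ⟨c, h1, h2, h3⟩
  refine ⟨c, h1, h2, fun i i' hi hi' => ?_⟩
  rw [← hxy i hi, ← hxy i' hi']
  exact h3 i i' hi hi'

/-- The condition good with speed close to `1`. -/
theorem GC1_meas (F : QM K) (r : ℕ) (e e' : ℝ) {Ω : Type*} [MeasurableSpace Ω] (w : Ω → V)
    (b j : Ω → ℝ) (hw : Measurable w) (hb : Measurable b) (hj : Measurable j) :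
    MeasurableSet {q : Ω | ∃ c, |c - 1| ≤ e' ∧ GC F (w q) (b q) (j q) r c e} := by
  refine meas_win F r w b j hw hb hj (fun x => ∃ c, |c - 1| ≤ e' ∧
    ∀ i i' : ℤ, |i| ≤ r → |i'| ≤ r → abs (rho (x i) (x i') - c * |(i : ℝ) - i'|) ≤ e) ?_
  rintro x y hxy ⟨c, h1, h3⟩
  refine ⟨c, h1, fun i i' hi hi' => ?_⟩
  rw [← hxy i hi, ← hxy i' hi']
  exact h3 i i' hi hi'

theorem UnitP_meas (F : QM K) (s e : ℝ) {Ω : Type*} [MeasurableSpace Ω] (w : Ω → V)
    (b j : Ω → ℝ) (hw : Measurable w) (hb : Measurable b) (hj : Measurable j) :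
    MeasurableSet {q : Ω | UnitP F (w q) (b q) (j q) s e} := by
  refine meas_win F ⌊s⌋₊ w b j hw hb hj (fun x => ∀ i i' : ℕ, (i : ℝ) ≤ s → (i' : ℝ) ≤ s →
    abs (rho (x i) (x i') - |(i : ℝ) - i'|) ≤ e) ?_
  intro x y hxy h i i' hi hi'
  have hfl : ∀ k : ℕ, (k : ℝ) ≤ s → |(k : ℤ)| ≤ (⌊s⌋₊ : ℤ) := by
    intro k hk
    rw [Nat.abs_cast]
    exact_mod_cast Nat.le_floor hk
  rw [← hxy i (hfl i hi), ← hxy i' (hfl i' hi')]
  exact h i i' hi hi'

theorem SpreadP_meas (F : QM K) (a e ε : ℝ) {Ω : Type*} [MeasurableSpace Ω] (w : Ω → V)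
    (b j : Ω → ℝ) (hw : Measurable w) (hb : Measurable b) (hj : Measurable j) :
    MeasurableSet {q : Ω | SpreadP F (w q) (b q) (j q) a e ε} := by
  have hb' : Measurable fun p : Ω × ℝ => b p.1 := hb.comp measurable_fst
  have hj' : Measurable fun p : Ω × ℝ => j p.1 := hj.comp measurable_fst
  have hw' : Measurable fun p : Ω × ℝ => w p.1 := hw.comp measurable_fst
  have h1 := F.measSet (Ω := Ω × ℝ) (ι := Fin 3) (fun _ p => w p.1)
    (fun i p => if i = 0 then pt (b p.1) (j p.1 + a) else if i = 1 then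
      pt (b p.1 + p.2 * Real.exp (-2 * j p.1)) (j p.1 + a) else pt (b p.1) (j p.1))
    (fun _ => hw') (by
      intro i
      fin_cases i
      · exact measurable_pt' hb' (hj'.add_const a)
      · refine measurable_pt' ?_ (hj'.add_const a)
        exact hb'.add (measurable_snd.mul (Real.measurable_exp.comp (hj'.const_mul _)))
      · exact measurable_pt' hb' hj')
    (fun y => e < gp (y 0).2 (y 1).2 (y 2).2)
  have h2 : MeasurableSet {p : Ω × ℝ | p.2 ∈ Icc (0 : ℝ) 1 ∧
      e < gp (F.f (w p.1) (pt (b p.1) (j p.1 + a)))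
        (F.f (w p.1) (pt (b p.1 + p.2 * Real.exp (-2 * j p.1)) (j p.1 + a)))
        (F.f (w p.1) (pt (b p.1) (j p.1)))} := by
    exact (measurable_snd measurableSet_Icc).inter h1
  have h3 := measurable_measure_prodMk_left (ν := (volume : Measure ℝ)) h2
  exact h3 measurableSet_Iic

end Pool.Agent.FIB
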