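import Pool.Agent.FIB.AShift

/-!
# Part A: the increments `B(v, α) = U(v + α e1) - U(v)` over `o` do not depend on `v` (most `v`)

`Dens F a e θ`: in the boxes of half side `2 e^a` around the four offsets `0, H e1, H ev 0, H ev 1` (`H = e^{3a}/2`) the sheets whose
windows (half length `8a`, directions `0` and `1`, around `o`) are not both good have measure `≤ θ e^{2a}`.

Most `v` = all `v ∈ box (..)` outside a set of measure `≤ C θ e^{2a}`. If `S` is a bad set from `Dens` (offset `d`) and `x` a fixed vector with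
`box M + x ⊆ box (2 e^a)`, then `{v ∈ box M : d + (v + x) ∈ bad}` has measure `≤ θ e^{2a}` (`shiftV_le`). So all of a fixed finite list of sheets
`v + x_i + d_i` are good in both directions holds for most `v`.

`close_local` (`|α|, |β| ≤ e^a / 2`, `v ∈ box (e^a / 2)`): for most `v` the windows of `v`, `v + α e1`, `v + β ev 0` are good, with speeds differing from the one of `v` by `≤ C e/a`, and their
images coincide up to `C e` at depths in `[-a, a]`: `shift_e1` needs the sheets `v, v + α e1, v + α1 e1` (`α1 = e^a/2 + α/2`, `|α1| ≤ 3 e^a/4`) with offset `0`, and `v, v + α1 e1, v + α e1` with offset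
`H ev 0`; `shift_ev` needs `v, v + β ev 0, v + β1 ev 0` with offset `0` and the same with offset `H e1`.

`inv_ev0`: for `|α|, |β| ≤ e^a / 8`, most `v ∈ box (3 e^a/8)`: `nm (F.f v o) (B(v + β ev 0, α) - B(v, α)) ≤ exp (C e)`: `close_local` for `(v, α, β)` and for
`(v + β ev 0, α)`, and `parallelogram` (with the error `C e`).

`inv_ev1`: the same for `ev 1`: apply `inv_ev0` to `F' = F.tr 0 (fr 1 0)`: `act (fr 1 0) (x, y) = (x + y, y)`, `act (fr 1 0) e1 = e1`, `act (fr 1 0) (ev 0) = ev 1`,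
`F'.f v (pt 0 k) = F.f (act (fr 1 0) v) (pt 1 k)`, and `fr 1 0 • o = pt 1 0`. But `Dens` for `F'` is not literally `Dens` for `F`; what is needed for `F'` in direction `0` is (as in
`close_local`) only: for most `v'` the windows in direction `0` of `F'` for the sheets `v' + x + d`, `d ∈ {0, H e1, H ev 0}`, i.e. the windows in direction `1` of `F` for the sheets `v + act x + act d`, `act d ∈ {0, H e1, H ev 1}`: this is in
`Dens F`. (So state `close_local` with the hypothesis `Dens0 F a e θ`: for `d ∈ {0, H e1, H ev 0}`,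
`volume {v ∈ box (3/2 e^a) : ¬ GG F (d + v) 0 0 (8a) e} ≤ ofReal (θ e^{2a})`; `Dens F` implies `Dens0 F` and also `Dens0 (F.tr 0 (fr 1 0))` up to the fact that
`act (fr 1 0)` maps `box M` into `box (2M)`; to have room the shifts are `≤ e^a/8`.) Finally the vectors over `pt 1 0` and over `o` differ by at most `exp (2K)` (`U_hor`, norm at the position of the same sheet), positions by `2K`
(`near_vert`); the positions over `o` of the four sheets `v, v + α e1, v + β ev 1, v + β ev 1 + α e1` are within `C e` of each other (`close_local` for `F` at `v` and at `v + β ev 1`, and the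
second part of `inv_ev0` for `F'`). Area is preserved by `act` (`actV_le`).

`inv_local`: `u = u.1 • ev 1 + (u.2 - u.1) • ev 0`; `inv_ev1` for `v`, then `inv_ev0` for `v + u.1 • ev 1`; the positions by `close_local`.
-/

set_option autoImplicit false

namespace Pool.Agent.FIB

open UpperHalfPlane MeasureTheory Set

variable {K : ℝ}

/-- The increment over `o`. -/
noncomputable def Bv (F : QM K) (v : V) (α : ℝ) : V := F.U (v + α • e1) o - F.U v o

/-- Windows in direction `0` are good with high density around three offsets. -/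
def Dens0 (F : QM K) (a : ℕ) (e θ : ℝ) : Prop :=
  ∀ d : V, d = 0 ∨ d = (Real.exp (3 * a) / 2) • e1 ∨ d = (Real.exp (3 * a) / 2) • ev 0 →
    volume {v : V | v ∈ box (Real.exp a) ∧ ¬ GG F (d + v) 0 0 (8 * a) e} ≤
      ENNReal.ofReal (θ * Real.exp (2 * a))

/-- Windows in the directions `0` and `1` are good with high density around four offsets. -/
def Dens (F : QM K) (a : ℕ) (e θ : ℝ) : Prop :=
  ∀ d : V, d = 0 ∨ d = (Real.exp (3 * a) / 2) • e1 ∨ d = (Real.exp (3 * a) / 2) • ev 0 ∨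
      d = (Real.exp (3 * a) / 2) • ev 1 →
    volume {v : V | v ∈ box (2 * Real.exp a) ∧
      ¬ (GG F (d + v) 0 0 (8 * a) e ∧ GG F (d + v) 1 0 (8 * a) e)} ≤
      ENNReal.ofReal (θ * Real.exp (2 * a))

private lemma AInv_mem_box {M : ℝ} {v : V} : v ∈ box M ↔ |v.1| ≤ M ∧ |v.2| ≤ M := by
  unfold box
  rw [mem_prod, mem_Icc, mem_Icc, abs_le, abs_le]

private lemma AInv_box_mono {M M' : ℝ} (h : M' ≤ M) {v : V} (hv : v ∈ box M') : v ∈ box M := by
  rw [AInv_mem_box] at hv ⊢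
  exact ⟨hv.1.trans h, hv.2.trans h⟩

private lemma AInv_box_add {M M' : ℝ} {x v : V} (hv : v ∈ box M') (h1 : |x.1| + M' ≤ M)
    (h2 : |x.2| + M' ≤ M) : v + x ∈ box M := by
  rw [AInv_mem_box] at hv ⊢
  have h3 := abs_add_le v.1 x.1
  have h4 := abs_add_le v.2 x.2
  constructor
  · rw [Prod.fst_add]
    linarith [hv.1]
  · rw [Prod.snd_add]
    linarith [hv.2]

/-- Most elements of the box `box M` satisfy `P`. -/
private def AInv_Most (a : ℕ) (θ M n : ℝ) (P : V → Prop) : Prop :=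
  volume {v : V | v ∈ box M ∧ ¬ P v} ≤ ENNReal.ofReal (n * θ * Real.exp (2 * a))

private lemma AInv_and {a : ℕ} {θ M m n : ℝ} {P Q : V → Prop} (hθ : 0 ≤ θ) (hm : 0 ≤ m)
    (hn : 0 ≤ n) (hP : AInv_Most a θ M m P) (hQ : AInv_Most a θ M n Q) :
    AInv_Most a θ M (m + n) (fun v => P v ∧ Q v) := by
  unfold AInv_Most at *
  have h1 : {v : V | v ∈ box M ∧ ¬ (P v ∧ Q v)} ⊆
      {v | v ∈ box M ∧ ¬ P v} ∪ {v | v ∈ box M ∧ ¬ Q v} := by
    rintro v ⟨hv, h⟩
    by_cases h2 : P v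
    · exact Or.inr ⟨hv, fun h3 => h ⟨h2, h3⟩⟩
    · exact Or.inl ⟨hv, h2⟩
  refine (measure_mono h1).trans ((measure_union_le _ _).trans
    ((add_le_add hP hQ).trans (le_of_eq ?_)))
  rw [← ENNReal.ofReal_add (by positivity) (by positivity)]
  congr 1
  ring

private lemma AInv_mono {a : ℕ} {θ M M' m n : ℝ} {P Q : V → Prop} (hθ : 0 ≤ θ) (hmn : m ≤ n)
    (hM : M' ≤ M) (hP : AInv_Most a θ M m P) (hPQ : ∀ v ∈ box M', P v → Q v) :
    AInv_Most a θ M' n Q := by
  unfold AInv_Most at *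
  refine (measure_mono ?_).trans (hP.trans (ENNReal.ofReal_le_ofReal ?_))
  · rintro v ⟨hv, h⟩
    exact ⟨AInv_box_mono hM hv, fun h2 => h (hPQ v hv h2)⟩
  · gcongr

private lemma AInv_shift {a : ℕ} {θ M M' n : ℝ} {P : V → Prop} (x : V)
    (hx : ∀ v ∈ box M', v + x ∈ box M) (hP : AInv_Most a θ M n P) :
    AInv_Most a θ M' n (fun v => P (v + x)) := by
  unfold AInv_Most at *
  refine le_trans ?_ hP
  rw [← shiftV_le {v : V | v ∈ box M ∧ ¬ P v} x]
  apply measure_mono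
  rintro v ⟨hv, h⟩
  rw [mem_ofPred_eq, add_comm x v]
  exact ⟨hx v hv, h⟩

private lemma AInv_two_le {e : ℝ} (he : 1 ≤ e) : 2 ≤ Real.exp e := by
  have := Real.add_one_le_exp e
  linarith

private lemma AInv_fr (v : V) : act (fr 1 0) v = (v.1 + v.2, v.2) := by
  have h00 : (fr 1 0) 0 0 = Real.exp (-0) := rfl
  have h01 : (fr 1 0) 0 1 = 1 * Real.exp 0 := rfl
  have h10 : (fr 1 0) 1 0 = 0 := rfl
  have h11 : (fr 1 0) 1 1 = Real.exp 0 := rfl
  unfold act
  rw [h00, h01, h10, h11, neg_zero, Real.exp_zero]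
  ext <;> simp

private lemma AInv_GG_tr (F : QM K) (v : V) (r : ℕ) (e : ℝ) :
    GG (F.tr 0 (fr 1 0)) v 0 0 r e ↔ GG F (act (fr 1 0) v) 1 0 r e := by
  have h := GG_tr F 0 v 1 0 0 0 r e
  rw [zero_add, zero_mul, add_zero, add_zero] at h
  exact h

theorem Dens.dens0 {F : QM K} {a : ℕ} {e θ : ℝ} (h : Dens F a e θ) : Dens0 F a e θ := by

  intro d hd
  refine (measure_mono ?_).trans (h d (by tauto))
  rintro v ⟨hv, hv2⟩
  refine ⟨AInv_box_mono ?_ hv, fun h2 => hv2 h2.1⟩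
  have := Real.exp_pos (a : ℝ)
  linarith

theorem Dens.dens0' {F : QM K} {a : ℕ} {e θ : ℝ} (h : Dens F a e θ) :
    Dens0 (F.tr 0 (fr 1 0)) a e θ := by

  intro d hd
  have hd' : act (fr 1 0) d = 0 ∨ act (fr 1 0) d = (Real.exp (3 * a) / 2) • e1 ∨
      act (fr 1 0) d = (Real.exp (3 * a) / 2) • ev 0 ∨
      act (fr 1 0) d = (Real.exp (3 * a) / 2) • ev 1 := by
    rcases hd with h | h | h
    · left
      rw [h, AInv_fr]
      ext <;> simp
    · right
      left
      rw [h, AInv_fr]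
      ext <;> simp [e1]
    · right
      right
      right
      rw [h, AInv_fr]
      ext <;> simp [ev]
  refine le_trans ?_ (h _ hd')
  rw [← actV_le {v : V | v ∈ box (2 * Real.exp a) ∧
      ¬ (GG F (act (fr 1 0) d + v) 0 0 (8 * a) e ∧ GG F (act (fr 1 0) d + v) 1 0 (8 * a) e)}
      (fr 1 0) 0]
  apply measure_mono
  rintro v ⟨hv, hv2⟩
  rw [mem_ofPred_eq, zero_add]
  constructor
  · rw [AInv_fr]
    rw [AInv_mem_box] at hv ⊢
    have h3 := abs_add_le v.1 v.2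
    have := Real.exp_pos (a : ℝ)
    constructor
    · show |v.1 + v.2| ≤ _
      linarith [hv.1, hv.2]
    · show |v.2| ≤ _
      linarith [hv.2]
  · intro h2
    apply hv2
    rw [AInv_GG_tr, act_add]
    exact h2.2

/-- Note the small shifts: `|α|, |β| ≤ e^a / 8`, and `α1 = e^a/2 + α/2 ≤ 9 e^a/16`. -/
theorem close_local (K : ℝ) (hK : 1 ≤ K) : ∃ C : ℝ, 1 ≤ C ∧
    ∀ (F : QM K) (a : ℕ) (e θ : ℝ), K ≤ e → Real.log (100 * a + 100) ≤ e → C * e ≤ a → 0 ≤ θ →
      Dens0 F a e θ → ∀ α β : ℝ, |α| ≤ Real.exp a / 8 → |β| ≤ Real.exp a / 8 →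
      volume {v : V | v ∈ box (3 * Real.exp a / 8) ∧ ¬ ∃ c, 1 / (4 * K) ≤ c ∧ c ≤ 2 * K ∧
        GC F v 0 0 (8 * a) c e ∧
        (∃ c', |c - c'| * a ≤ C * e ∧ GC F (v + α • e1) 0 0 (8 * a) c' e) ∧
        (∃ c', |c - c'| * a ≤ C * e ∧ GC F (v + β • ev 0) 0 0 (8 * a) c' e) ∧
        ∀ k : ℤ, |k| ≤ (a : ℤ) →
          rho (F.f v (pt 0 k)) (F.f (v + α • e1) (pt 0 k)) ≤ C * e ∧
          rho (F.f v (pt 0 k)) (F.f (v + β • ev 0) (pt 0 k)) ≤ C * e} ≤
        ENNReal.ofReal (C * θ * Real.exp (2 * a)) := by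

  obtain ⟨C1, hC1, H1⟩ := shift_e1 K hK
  obtain ⟨C2, hC2, H2⟩ := shift_ev K hK
  refine ⟨C1 + C2 + 11, by linarith, ?_⟩
  intro F a e θ hKe hlog hCe hθ D α β hα hβ
  have he : 1 ≤ e := by linarith
  have hE := Real.exp_pos (a : ℝ)
  have hC1e : C1 * e ≤ a := by nlinarith
  have hC2e : C2 * e ≤ a := by nlinarith
  have hd0 : ∀ d x : V, (d = 0 ∨ d = (Real.exp (3 * a) / 2) • e1 ∨
      d = (Real.exp (3 * a) / 2) • ev 0) →
      |x.1| ≤ 9 * Real.exp a / 16 → |x.2| ≤ 9 * Real.exp a / 16 →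
      AInv_Most a θ (3 * Real.exp a / 8) 1 (fun v => GG F (v + x + d) 0 0 (8 * a) e) := by
    intro d x hd hx1 hx2
    have h1 : AInv_Most a θ (Real.exp a) 1 (fun v => GG F (d + v) 0 0 (8 * a) e) := by
      unfold AInv_Most
      rw [one_mul]
      exact D d hd
    have h2 := AInv_shift (M' := 3 * Real.exp a / 8) x
      (fun v hv => AInv_box_add hv (by linarith) (by linarith)) h1
    refine AInv_mono hθ le_rfl le_rfl h2 ?_
    intro v _ h
    rw [add_comm]
    exact h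
  have hα1 : |Real.exp a / 2 + α / 2| ≤ 9 * Real.exp a / 16 := by
    have := abs_le.1 hα
    rw [abs_le]
    constructor <;> linarith
  have hβ1 : |Real.exp a / 2 + β / 2| ≤ 9 * Real.exp a / 16 := by
    have := abs_le.1 hβ
    rw [abs_le]
    constructor <;> linarith
  have hα2 : |α| ≤ 9 * Real.exp a / 16 := by linarith
  have hβ2 : |β| ≤ 9 * Real.exp a / 16 := by linarith
  have h90 : |(0 : ℝ)| ≤ 9 * Real.exp a / 16 := by
    rw [abs_zero]
    positivity
  have x1 : ∀ t : ℝ, (t • e1).1 = t ∧ (t • e1).2 = 0 := by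
    intro t
    simp [e1]
  have x2 : ∀ t : ℝ, (t • ev 0).1 = 0 ∧ (t • ev 0).2 = t := by
    intro t
    simp [ev]
  have k1 : ∀ t : ℝ, |t| ≤ 9 * Real.exp a / 16 →
      |(t • e1).1| ≤ 9 * Real.exp a / 16 ∧ |(t • e1).2| ≤ 9 * Real.exp a / 16 := by
    intro t ht
    rw [(x1 t).1, (x1 t).2]
    exact ⟨ht, h90⟩
  have k2 : ∀ t : ℝ, |t| ≤ 9 * Real.exp a / 16 →
      |(t • ev 0).1| ≤ 9 * Real.exp a / 16 ∧ |(t • ev 0).2| ≤ 9 * Real.exp a / 16 := by
    intro t ht
    rw [(x2 t).1, (x2 t).2]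
    exact ⟨h90, ht⟩
  have q1 := hd0 0 0 (Or.inl rfl) h90 h90
  have q2 := hd0 0 (α • e1) (Or.inl rfl) (k1 α hα2).1 (k1 α hα2).2
  have q3 := hd0 0 ((Real.exp a / 2 + α / 2) • e1) (Or.inl rfl) (k1 _ hα1).1 (k1 _ hα1).2
  have q4 := hd0 _ 0 (Or.inr (Or.inr rfl)) h90 h90
  have q5 := hd0 _ ((Real.exp a / 2 + α / 2) • e1) (Or.inr (Or.inr rfl)) (k1 _ hα1).1
    (k1 _ hα1).2
  have q6 := hd0 _ (α • e1) (Or.inr (Or.inr rfl)) (k1 α hα2).1 (k1 α hα2).2
  have q7 := hd0 0 (β • ev 0) (Or.inl rfl) (k2 β hβ2).1 (k2 β hβ2).2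
  have q8 := hd0 0 ((Real.exp a / 2 + β / 2) • ev 0) (Or.inl rfl) (k2 _ hβ1).1 (k2 _ hβ1).2
  have q9 := hd0 _ 0 (Or.inr (Or.inl rfl)) h90 h90
  have q10 := hd0 _ ((Real.exp a / 2 + β / 2) • ev 0) (Or.inr (Or.inl rfl)) (k2 _ hβ1).1
    (k2 _ hβ1).2
  have q11 := hd0 _ (β • ev 0) (Or.inr (Or.inl rfl)) (k2 β hβ2).1 (k2 β hβ2).2
  have Q := AInv_and hθ (by norm_num) zero_le_one (AInv_and hθ (by norm_num) zero_le_one
    (AInv_and hθ (by norm_num) zero_le_one (AInv_and hθ (by norm_num) zero_le_one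
    (AInv_and hθ (by norm_num) zero_le_one (AInv_and hθ (by norm_num) zero_le_one
    (AInv_and hθ (by norm_num) zero_le_one (AInv_and hθ (by norm_num) zero_le_one
    (AInv_and hθ (by norm_num) zero_le_one (AInv_and hθ zero_le_one zero_le_one
    q1 q2) q3) q4) q5) q6) q7) q8) q9) q10) q11
  change AInv_Most a θ (3 * Real.exp a / 8) (C1 + C2 + 11) _
  refine AInv_mono hθ (by linarith) le_rfl Q ?_
  clear Q q1 q2 q3 q4 q5 q6 q7 q8 q9 q10 q11
  rintro v _ ⟨⟨⟨⟨⟨⟨⟨⟨⟨⟨g1, g2⟩, g3⟩, g4⟩, g5⟩, g6⟩, g7⟩, g8⟩, g9⟩, g10⟩, g11⟩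
  simp only [add_zero] at g1 g2 g3 g4 g5 g6 g7 g8 g9 g10 g11
  obtain ⟨c, hc1, hc2, hc⟩ := g1
  obtain ⟨c', hc1', hc2', hc'⟩ := g2
  obtain ⟨c'', hc1'', hc2'', hc''⟩ := g7
  obtain ⟨r1, r2⟩ := H1 F v a α e c c' hKe hlog hC1e (by linarith) hc1 hc2 hc1' hc2' hc hc'
    g3 g4 g5 g6
  obtain ⟨r3, r4⟩ := H2 F v a β e c c'' hKe hlog hC2e (by linarith) hc1 hc2 hc1'' hc2'' hc hc''
    g8 g9 g10 g11
  have m1 : C1 * e ≤ (C1 + C2 + 11) * e := by nlinarith
  have m2 : C2 * e ≤ (C1 + C2 + 11) * e := by nlinarith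
  exact ⟨c, hc1, hc2, hc, ⟨c', r1.trans m1, hc'⟩, ⟨c'', r3.trans m2, hc''⟩,
    fun k hk => ⟨(r2 k hk).trans m1, (r4 k hk).trans m2⟩⟩

theorem inv_ev0 (K : ℝ) (hK : 1 ≤ K) : ∃ C : ℝ, 1 ≤ C ∧
    ∀ (F : QM K) (a : ℕ) (e θ : ℝ), K ≤ e → Real.log (100 * a + 100) ≤ e → C * e ≤ a → 0 ≤ θ →
      Dens0 F a e θ → ∀ α β : ℝ, |α| ≤ Real.exp a / 8 → |β| ≤ Real.exp a / 8 →
      volume {v : V | v ∈ box (Real.exp a / 4) ∧
        ¬ (nm (F.f v o) (Bv F (v + β • ev 0) α - Bv F v α) ≤ Real.exp (C * e) ∧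
          rho (F.f v o) (F.f (v + β • ev 0) o) ≤ C * e)} ≤
        ENNReal.ofReal (C * θ * Real.exp (2 * a)) := by

  obtain ⟨C0, hC0, H0⟩ := close_local K hK
  obtain ⟨Cp, hCp, Hp⟩ := parallelogram K hK
  refine ⟨Cp * (2 * C0) + 2 * C0, by nlinarith, ?_⟩
  intro F a e θ hKe hlog hCe hθ D α β hα hβ
  have he : 1 ≤ e := by linarith
  have hE := Real.exp_pos (a : ℝ)
  have hCpos : 0 ≤ Cp * (2 * C0) := by positivity
  have hCpe : 0 ≤ Cp * (2 * C0) * e := by positivity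
  have hC0e : C0 * e ≤ a := by nlinarith
  have q1 := H0 F a e θ hKe hlog hC0e hθ D α β hα hβ
  change AInv_Most a θ (3 * Real.exp a / 8) C0 _ at q1
  have x2 : (β • ev 0).1 = 0 ∧ (β • ev 0).2 = β := by simp [ev]
  have q2 := AInv_shift (M' := Real.exp a / 4) (β • ev 0)
    (fun v hv => AInv_box_add hv (by rw [x2.1, abs_zero]; linarith)
      (by rw [x2.2]; linarith)) q1
  have q3 : AInv_Most a θ (Real.exp a / 4) C0 _ :=
    AInv_mono hθ le_rfl (by linarith) q1 (fun v _ h => h)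
  have Q := AInv_and hθ (by linarith) (by linarith) q3 q2
  change AInv_Most a θ (Real.exp a / 4) (Cp * (2 * C0) + 2 * C0) _
  refine AInv_mono hθ (by linarith) le_rfl Q ?_
  clear Q q1 q2 q3
  rintro v _ ⟨⟨c, hc1, hc2, hc, _, _, h1⟩, ⟨_, _, _, _, _, _, h2⟩⟩
  have hC01 : (1 : ℝ) ≤ 2 * C0 := by linarith
  have he' : e ≤ 2 * C0 * e := by nlinarith
  have hC0e' : C0 * e ≤ 2 * C0 * e := by nlinarith
  have m1 : 2 * C0 * e ≤ (Cp * (2 * C0) + 2 * C0) * e := by nlinarith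
  have hcomm : v + β • ev 0 + α • e1 = v + α • e1 + β • ev 0 := by abel
  have P := Hp F v a α β (2 * C0 * e) c (hKe.trans he') (hlog.trans he') (by nlinarith)
    (by linarith) (by linarith) hc1 hc2 (GC_mono F v 0 0 _ c e _ hc he') (by
      intro k hk
      obtain ⟨a1, a2⟩ := h1 k hk
      obtain ⟨a3, _⟩ := h2 k hk
      refine ⟨a1.trans hC0e', a2.trans hC0e', ?_⟩
      rw [hcomm] at a3
      have a4 := rho_triangle (F.f v (pt 0 k)) (F.f (v + β • ev 0) (pt 0 k))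
        (F.f (v + α • e1 + β • ev 0) (pt 0 k))
      linarith)
  constructor
  · have e2 : Bv F (v + β • ev 0) α - Bv F v α = F.U (v + α • e1 + β • ev 0) o -
        F.U (v + β • ev 0) o - (F.U (v + α • e1) o - F.U v o) := by
      unfold Bv
      rw [hcomm]
    rw [e2]
    refine P.trans (Real.exp_le_exp.2 ?_)
    nlinarith
  · have a1 := (h1 0 (by simp)).2
    rw [Int.cast_zero] at a1
    have a2 : F.f v o = F.f v (pt 0 0) := rfl
    have a3 : F.f (v + β • ev 0) o = F.f (v + β • ev 0) (pt 0 0) := rfl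
    rw [a2, a3]
    linarith

theorem inv_ev1 (K : ℝ) (hK : 1 ≤ K) : ∃ C : ℝ, 1 ≤ C ∧
    ∀ (F : QM K) (a : ℕ) (e θ : ℝ), K ≤ e → Real.log (100 * a + 100) ≤ e → C * e ≤ a → 0 ≤ θ →
      Dens F a e θ → ∀ α β : ℝ, |α| ≤ Real.exp a / 8 → |β| ≤ Real.exp a / 8 →
      volume {v : V | v ∈ box (Real.exp a / 8) ∧
        ¬ (nm (F.f v o) (Bv F (v + β • ev 1) α - Bv F v α) ≤ Real.exp (C * e) ∧
          rho (F.f v o) (F.f (v + β • ev 1) o) ≤ C * e)} ≤
        ENNReal.ofReal (C * θ * Real.exp (2 * a)) := by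

  obtain ⟨C0, hC0, H0⟩ := close_local K hK
  obtain ⟨C1, hC1, H1⟩ := inv_ev0 K hK
  refine ⟨3 * C0 + 3 * C1 + 20, by linarith, ?_⟩
  intro F a e θ hKe hlog hCe hθ D α β hα hβ
  have he : 1 ≤ e := by linarith
  have hE := Real.exp_pos (a : ℝ)
  have hC0e : C0 * e ≤ a := by nlinarith
  have hC1e : C1 * e ≤ a := by nlinarith
  have hC0p : 0 ≤ C0 * e := by positivity
  have hC1p : 0 ≤ C1 * e := by positivity
  -- the direction `0`: the sheets `v, v + α e1`
  have q1 := H0 F a e θ hKe hlog hC0e hθ D.dens0 α 0 hα (by rw [abs_zero]; positivity)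
  change AInv_Most a θ (3 * Real.exp a / 8) C0 _ at q1
  have x2 : (β • ev 1).1 = β ∧ (β • ev 1).2 = β := by simp [ev]
  have q2 := AInv_shift (M' := Real.exp a / 8) (β • ev 1)
    (fun v hv => AInv_box_add hv (by rw [x2.1]; linarith)
      (by rw [x2.2]; linarith)) q1
  have q3 : AInv_Most a θ (Real.exp a / 8) C0 _ :=
    AInv_mono hθ le_rfl (by linarith) q1 (fun v _ h => h)
  -- the direction `1`
  have q4 := H1 (F.tr 0 (fr 1 0)) a e θ hKe hlog hC1e hθ D.dens0' α β hα hβ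
  have hpt : fr 1 0 • o = pt 1 0 := by
    have h := fr_smul 1 0 0 0
    rw [zero_mul, add_zero, add_zero] at h
    exact h
  have q5 : AInv_Most a θ (Real.exp a / 8) C1 (fun v =>
      nm (F.f v (pt 1 0)) (F.U (v + β • ev 1 + α • e1) (pt 1 0) - F.U (v + β • ev 1) (pt 1 0) -
        (F.U (v + α • e1) (pt 1 0) - F.U v (pt 1 0))) ≤ Real.exp (C1 * e) ∧
      rho (F.f v (pt 1 0)) (F.f (v + β • ev 1) (pt 1 0)) ≤ C1 * e) := by
    unfold AInv_Most
    refine le_trans ?_ q4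
    rw [← actV_le _ (fr 1 0) 0]
    apply measure_mono
    rintro v ⟨hv, hv2⟩
    rw [zero_add] at hv hv2
    constructor
    · rw [AInv_fr, AInv_mem_box] at hv
      have b1 : |v.1 + v.2| ≤ Real.exp a / 8 := hv.1
      have b2 : |v.2| ≤ Real.exp a / 8 := hv.2
      rw [AInv_mem_box]
      have b3 := abs_le.1 b1
      have b4 := abs_le.1 b2
      constructor
      · rw [abs_le]
        constructor <;> linarith
      · linarith
    · intro h2
      apply hv2
      have c0 : act (fr 1 0) (β • ev 0) = β • ev 1 := by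
        rw [AInv_fr]
        ext <;> simp [ev]
      have c1 : act (fr 1 0) (α • e1) = α • e1 := by
        rw [AInv_fr]
        ext <;> simp [e1]
      have c2 : ∀ w : V, (F.tr 0 (fr 1 0)).f w o = F.f (act (fr 1 0) w) (pt 1 0) := by
        intro w
        rw [QM.tr_f, hpt, zero_add]
      have c3 : ∀ w : V, (F.tr 0 (fr 1 0)).U w o = F.U (act (fr 1 0) w) (pt 1 0) := by
        intro w
        rw [QM.tr_U, hpt, zero_add]
      unfold Bv at h2
      rw [c2, c2, c3, c3, c3, c3, act_add, act_add, act_add, c0, c1] at h2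
      exact h2
  have Q := AInv_and hθ (by linarith) (by linarith) (AInv_and hθ (by linarith) (by linarith)
    q3 q2) q5
  change AInv_Most a θ (Real.exp a / 8) (3 * C0 + 3 * C1 + 20) _
  refine AInv_mono hθ (by linarith) le_rfl Q ?_
  clear Q q1 q2 q3 q4 q5
  rintro v _ ⟨⟨⟨_, _, _, _, _, _, h1⟩, ⟨_, _, _, _, _, _, h2⟩⟩, h3, h4⟩
  have a1 := (h1 0 (by simp)).1
  have a2 := (h2 0 (by simp)).1
  rw [Int.cast_zero] at a1 a2
  have ho : pt 0 0 = o := rfl
  rw [ho] at a1 a2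
  have hv : ∀ w : V, rho (F.f w o) (F.f w (pt 1 0)) ≤ 2 * K :=
    fun w => near_vert hK F w 0 1 0 (by norm_num)
  have hu : ∀ w : V, nm (F.f w o) (F.U w o - F.U w (pt 1 0)) ≤ Real.exp (2 * e) := by
    intro w
    refine (F.U_hor (by linarith) w 0 1 0).trans (Real.exp_le_exp.2 ?_)
    rw [mul_zero, Real.exp_zero]
    have : |(0 : ℝ) - 1| = 1 := by norm_num
    rw [this]
    linarith
  have a3 : rho (F.f v o) (F.f (v + β • ev 1) o) ≤ C1 * e + 4 * e := by
    have b1 := rho_triangle (F.f v o) (F.f v (pt 1 0)) (F.f (v + β • ev 1) o)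
    have b2 := rho_triangle (F.f v (pt 1 0)) (F.f (v + β • ev 1) (pt 1 0))
      (F.f (v + β • ev 1) o)
    have b3 := hv v
    have b4 := hv (v + β • ev 1)
    rw [rho_comm (F.f (v + β • ev 1) o)] at b4
    linarith
  have a4 : rho (F.f v o) (F.f (v + β • ev 1 + α • e1) o) ≤ C0 * e + C1 * e + 4 * e := by
    have b1 := rho_triangle (F.f v o) (F.f (v + β • ev 1) o) (F.f (v + β • ev 1 + α • e1) o)
    linarith
  have herr : ∀ w : V, rho (F.f v o) (F.f w o) ≤ C0 * e + C1 * e + 4 * e →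
      nm (F.f v o) (F.U w o - F.U w (pt 1 0)) ≤ Real.exp (C0 * e + C1 * e + 6 * e) := by
    intro w hw
    have b1 := nm_le (F.f w o) (F.f v o) (F.U w o - F.U w (pt 1 0))
    rw [rho_comm] at b1
    refine b1.trans ?_
    have b2 : Real.exp (C0 * e + C1 * e + 6 * e) =
        Real.exp (C0 * e + C1 * e + 4 * e) * Real.exp (2 * e) := by
      rw [← Real.exp_add]
      congr 1
      ring
    rw [b2]
    exact mul_le_mul (Real.exp_le_exp.2 hw) (hu w) (nm_nonneg _ _) (Real.exp_pos _).le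
  constructor
  · have d1 := herr v (by rw [rho_self]; positivity)
    have d2 := herr (v + α • e1) (by linarith)
    have d3 := herr (v + β • ev 1) (by linarith)
    have d4 := herr (v + β • ev 1 + α • e1) a4
    have d5 : nm (F.f v o) (F.U (v + β • ev 1 + α • e1) (pt 1 0) -
        F.U (v + β • ev 1) (pt 1 0) - (F.U (v + α • e1) (pt 1 0) - F.U v (pt 1 0))) ≤
        Real.exp (C0 * e + C1 * e + 6 * e) := by
      have b1 := nm_le (F.f v (pt 1 0)) (F.f v o) (F.U (v + β • ev 1 + α • e1) (pt 1 0) -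
        F.U (v + β • ev 1) (pt 1 0) - (F.U (v + α • e1) (pt 1 0) - F.U v (pt 1 0)))
      refine b1.trans ?_
      have b3 := hv v
      rw [rho_comm] at b3
      refine (mul_le_mul (Real.exp_le_exp.2 b3) h3 (nm_nonneg _ _) (Real.exp_pos _).le).trans ?_
      rw [← Real.exp_add]
      exact Real.exp_le_exp.2 (by linarith)
    have e2 : Bv F (v + β • ev 1) α - Bv F v α =
        (F.U (v + β • ev 1 + α • e1) (pt 1 0) - F.U (v + β • ev 1) (pt 1 0) -
          (F.U (v + α • e1) (pt 1 0) - F.U v (pt 1 0))) +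
        ((F.U (v + β • ev 1 + α • e1) o - F.U (v + β • ev 1 + α • e1) (pt 1 0)) +
          (F.U v o - F.U v (pt 1 0)) -
          ((F.U (v + β • ev 1) o - F.U (v + β • ev 1) (pt 1 0)) +
            (F.U (v + α • e1) o - F.U (v + α • e1) (pt 1 0)))) := by
      unfold Bv
      abel
    rw [e2]
    refine (nm_add_le _ _ _).trans ?_
    have n1 := nm_sub_le (F.f v o) ((F.U (v + β • ev 1 + α • e1) o -
      F.U (v + β • ev 1 + α • e1) (pt 1 0)) + (F.U v o - F.U v (pt 1 0)))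
      ((F.U (v + β • ev 1) o - F.U (v + β • ev 1) (pt 1 0)) +
            (F.U (v + α • e1) o - F.U (v + α • e1) (pt 1 0)))
    have n2 := nm_add_le (F.f v o) (F.U (v + β • ev 1 + α • e1) o -
      F.U (v + β • ev 1 + α • e1) (pt 1 0)) (F.U v o - F.U v (pt 1 0))
    have n3 := nm_add_le (F.f v o) (F.U (v + β • ev 1) o - F.U (v + β • ev 1) (pt 1 0))
      (F.U (v + α • e1) o - F.U (v + α • e1) (pt 1 0))
    have n4 : 5 * Real.exp (C0 * e + C1 * e + 6 * e) ≤
        Real.exp ((3 * C0 + 3 * C1 + 20) * e) := by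
      have b1 : Real.exp ((3 * C0 + 3 * C1 + 20) * e) =
          Real.exp ((2 * C0 + 2 * C1 + 14) * e) * Real.exp (C0 * e + C1 * e + 6 * e) := by
        rw [← Real.exp_add]
        congr 1
        ring
      rw [b1]
      refine mul_le_mul_of_nonneg_right ?_ (Real.exp_pos _).le
      have b2 := Real.add_one_le_exp ((2 * C0 + 2 * C1 + 14) * e)
      nlinarith
    linarith
  · refine a3.trans ?_
    nlinarith

theorem inv_local (K : ℝ) (hK : 1 ≤ K) : ∃ C : ℝ, 1 ≤ C ∧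
    ∀ (F : QM K) (a : ℕ) (e θ : ℝ), K ≤ e → Real.log (100 * a + 100) ≤ e → C * e ≤ a → 0 ≤ θ →
      Dens F a e θ → ∀ (α : ℝ) (u : V), |α| ≤ Real.exp a / 8 → u ∈ box (Real.exp a / 16) →
      volume {v : V | v ∈ box (Real.exp a / 8) ∧
        ¬ (nm (F.f v o) (Bv F (v + u) α - Bv F v α) ≤ Real.exp (C * e) ∧
          rho (F.f v o) (F.f (v + u) o) ≤ C * e)} ≤
        ENNReal.ofReal (C * θ * Real.exp (2 * a)) := by

  obtain ⟨C0, hC0, H0⟩ := inv_ev0 K hK
  obtain ⟨C1, hC1, H1⟩ := inv_ev1 K hK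
  refine ⟨C0 + C1 + 1, by linarith, ?_⟩
  intro F a e θ hKe hlog hCe hθ D α u hα hu
  have he : 1 ≤ e := by linarith
  have hE := Real.exp_pos (a : ℝ)
  have hC0e : C0 * e ≤ a := by nlinarith
  have hC1e : C1 * e ≤ a := by nlinarith
  have hC0p : 0 ≤ C0 * e := by positivity
  have hC1p : 0 ≤ C1 * e := by positivity
  rw [AInv_mem_box] at hu
  obtain ⟨hu1, hu2⟩ := hu
  have hu1' := abs_le.1 hu1
  have hu2' := abs_le.1 hu2
  have q1 := H1 F a e θ hKe hlog hC1e hθ D α u.1 hα (by linarith)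
  have q2 := H0 F a e θ hKe hlog hC0e hθ D.dens0 α (u.2 - u.1) hα (by
    rw [abs_le]
    constructor <;> linarith)
  change AInv_Most a θ (Real.exp a / 8) C1 _ at q1
  change AInv_Most a θ (Real.exp a / 4) C0 _ at q2
  have x2 : (u.1 • ev 1).1 = u.1 ∧ (u.1 • ev 1).2 = u.1 := by simp [ev]
  have q3 := AInv_shift (M' := Real.exp a / 8) (u.1 • ev 1)
    (fun v hv => AInv_box_add hv (by rw [x2.1]; linarith)
      (by rw [x2.2]; linarith)) q2
  have Q := AInv_and hθ (by linarith) (by linarith) q1 q3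
  change AInv_Most a θ (Real.exp a / 8) (C0 + C1 + 1) _
  refine AInv_mono hθ (by linarith) le_rfl Q ?_
  clear Q q1 q2 q3
  rintro v _ ⟨⟨h1, h2⟩, h3, h4⟩
  have hveq : v + u.1 • ev 1 + (u.2 - u.1) • ev 0 = v + u := by
    ext
    · simp [ev]
    · simp [ev]
  rw [hveq] at h3 h4
  constructor
  · have e1' : Bv F (v + u) α - Bv F v α =
        (Bv F (v + u) α - Bv F (v + u.1 • ev 1) α) +
          (Bv F (v + u.1 • ev 1) α - Bv F v α) := by abel
    rw [e1']
    refine (nm_add_le _ _ _).trans ?_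
    have b1 := nm_le (F.f (v + u.1 • ev 1) o) (F.f v o)
      (Bv F (v + u) α - Bv F (v + u.1 • ev 1) α)
    rw [rho_comm] at b1
    have b2 := b1.trans (mul_le_mul (Real.exp_le_exp.2 h2) h3 (nm_nonneg _ _)
      (Real.exp_pos _).le)
    rw [← Real.exp_add] at b2
    have b3 : Real.exp (C1 * e) ≤ Real.exp (C1 * e + C0 * e) :=
      Real.exp_le_exp.2 (by linarith)
    have b4 : Real.exp ((C0 + C1 + 1) * e) = Real.exp e * Real.exp (C1 * e + C0 * e) := by
      rw [← Real.exp_add]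
      congr 1
      ring
    have b5 := AInv_two_le he
    have b6 := Real.exp_pos (C1 * e + C0 * e)
    rw [b4]
    nlinarith
  · have b1 := rho_triangle (F.f v o) (F.f (v + u.1 • ev 1) o) (F.f (v + u) o)
    nlinarith

end Pool.Agent.FIB
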