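import Pool.Agent.FIB.Tree
import Pool.Agent.FIB.Meas

/-!
# Telescoping, and pairs to all

* `tele_rho`: `rho q (p (k+1)) = rho q (p k) + rho (p k) (p (k+1)) - 2 gp q (p (k+1)) (p k)` by the definition of `gp`; sum.
* `tele_gp`: from `tele_rho` and `rho (p 0) (p m) ≤ Σ rho (p k) (p (k+1))`.
* `pairs_to_all`: for `A = {b ∈ B | e + 1 < gp q (g b) t}` and `b, b' ∈ A`, `gp_min` gives
  `gp (g b) (g b') t ≥ min .. - 1/2 > e`; `square_le`; `ENNReal`: `x * x ≤ ofReal (ε^2)` implies `x ≤ ofReal ε`.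
* `near_vert`: `rho (pt b j) (pt b' j) ≤ κ / 2` and `F.f_rho`.
-/

set_option autoImplicit false

namespace Pool.Agent.FIB

open UpperHalfPlane MeasureTheory Set

theorem tele_rho (p : ℕ → ℍ) (m : ℕ) (q : ℍ) :
    rho q (p m) = rho q (p 0) + ∑ k ∈ Finset.range m, rho (p k) (p (k + 1)) -
      2 * ∑ k ∈ Finset.range m, gp q (p (k + 1)) (p k) := by
  induction m with
  | zero => simp
  | succ m ih =>
    rw [Finset.sum_range_succ, Finset.sum_range_succ]
    have h : 2 * gp q (p (m + 1)) (p m) =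
        rho (p m) q + rho (p m) (p (m + 1)) - rho q (p (m + 1)) := by
      unfold gp
      ring
    have h1 := rho_comm (p m) q
    linarith

theorem tele_gp (p : ℕ → ℍ) (m : ℕ) (q : ℍ) :
    gp q (p m) (p 0) ≤ ∑ k ∈ Finset.range m, gp q (p (k + 1)) (p k) := by
  have h := tele_rho p m q
  have h1 : rho (p 0) (p m) ≤ ∑ k ∈ Finset.range m, rho (p k) (p (k + 1)) := by
    clear h
    induction m with
    | zero => simp [rho_self]
    | succ m ih =>
      rw [Finset.sum_range_succ]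
      have := rho_triangle (p 0) (p m) (p (m + 1))
      linarith
  have h2 : 2 * gp q (p m) (p 0) = rho (p 0) q + rho (p 0) (p m) - rho q (p m) := by
    unfold gp
    ring
  have h3 := rho_comm (p 0) q
  linarith

theorem pairs_to_all {B : Set ℝ} (g : ℝ → ℍ) (t : ℍ) {e ε : ℝ} (hε : 0 ≤ ε)
    (h : volume {q : ℝ × ℝ | q.1 ∈ B ∧ q.2 ∈ B ∧ e < gp (g q.1) (g q.2) t} ≤
      ENNReal.ofReal (ε ^ 2)) (q : ℍ) :
    volume {b : ℝ | b ∈ B ∧ e + 1 < gp q (g b) t} ≤ ENNReal.ofReal ε := by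
  have h1 : ∀ a ∈ {b : ℝ | b ∈ B ∧ e + 1 < gp q (g b) t},
      ∀ b ∈ {b : ℝ | b ∈ B ∧ e + 1 < gp q (g b) t},
      ((a, b) : ℝ × ℝ) ∈ {q : ℝ × ℝ | q.1 ∈ B ∧ q.2 ∈ B ∧ e < gp (g q.1) (g q.2) t} := by
    rintro a ⟨ha, ha'⟩ b ⟨hb, hb'⟩
    refine ⟨ha, hb, ?_⟩
    have h2 := gp_min (g a) q (g b) t
    have h3 : e + 1 ≤ min (gp (g a) q t) (gp q (g b) t) := by
      refine le_min ?_ hb'.le
      rw [gp_comm]
      exact ha'.le
    show e < gp (g a) (g b) t
    linarith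
  have h2 := (square_le h1).trans h
  by_contra h3
  rw [not_le] at h3
  have h4 := ENNReal.mul_lt_mul h3 h3
  have h5 : ENNReal.ofReal ε * ENNReal.ofReal ε = ENNReal.ofReal (ε ^ 2) := by
    rw [← ENNReal.ofReal_mul hε, sq]
  rw [h5] at h4
  exact absurd h2 (not_le.2 h4)

/-- Images over two points at the same depth in close directions. -/
theorem near_vert {K : ℝ} (hK : 1 ≤ K) (F : QM K) (w : V) (b b' j : ℝ)
    (h : |b - b'| ≤ Real.exp (-2 * j)) :
    rho (F.f w (pt b j)) (F.f w (pt b' j)) ≤ 2 * K := by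
  have h0 : (0 : ℝ) ≤ K := by linarith
  have h1 := F.f_hor h0 w b b' j
  have h2 : |b - b'| * Real.exp (2 * j) ≤ 1 := by
    have h3 := mul_le_mul_of_nonneg_right h (Real.exp_pos (2 * j)).le
    rw [← Real.exp_add] at h3
    have h4 : -2 * j + 2 * j = 0 := by ring
    rw [h4, Real.exp_zero] at h3
    exact h3
  have h3 := mul_le_mul_of_nonneg_left (by linarith : |b - b'| * Real.exp (2 * j) / 2 ≤ 1) h0
  linarith

/-- Images of two sheets which coincide (up to norm `1`) over a point. -/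
theorem near_sheet {K : ℝ} (hK : 1 ≤ K) (F : QM K) (w w' : V) (x : ℍ) (h : nm x (w - w') ≤ 1) :
    rho (F.f w x) (F.f w' x) ≤ 2 * K ∧
      nm (F.f w x) (F.U w x - F.U w' x) ≤ Real.exp (2 * K) := by
  exact ⟨F.f_near (by linarith) w w' x h, F.U_near (by linarith) w w' x h⟩

end Pool.Agent.FIB
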