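import Pool.Agent.FIB.ACyc
import Pool.Agent.FIB.ADefs
import Pool.Agent.FIB.Tel

/-!
# Part A: the four-cycle for sheets of `F`, and the spread of the downward directions

`par_local`: `four_cycle` with error `2 e`, for `p i j k = F.f (s i j) (pt b (j0 + k))`, `U i j k = F.U (s i j) (pt b (j0 + k))`,
`s i j = w + (if j = 1 then α • e1 else 0) + (if i = 1 then β • ev b else 0)` (so `(i,0), (i,1)` differ by `α e1`, `(0,j), (1,j)` by `β ev b`).
The hypotheses: `hst, hst'` by `U_vert` (`|k + 1 - k| = 1`, `exp (2K)`); `top`: `nm (pt b (j0 + k)) (α e1) = |α| e^{j0+k} ≤ 1` for `k ≤ -a`, `f_near`, `2K ≤ 2e`;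
`topU`, `botU`: `U_near`; `bot`: `nm (pt b (j0+k)) (β ev b) = |β| e^{-j0-k} ≤ 1` for `k ≥ a`; `sept`: `sep_fib`, `log (1 + |α| e^{j0+k}) ≥ log (|α| e^{j0-a}) + a + k ≥ a + k - e`
and `K + e ≤ K (2 e)`; `sepb` the same.

`spread_local`. `b' = b + κ e^{-2j}`, `β = e^{j+a}`, `α = κ e^{a-j} = β κ e^{-2j}`; `β • ev b' = β • ev b + α • e1`. `w2 = w`, `w1 = w + β • ev b`, `w3 = w + β • ev b' = w1 + α • e1`,
`w4 = w + α • e1 = w2 + w3 - w1`, `w5 = w - α • e1 = w1 + w2 - w3`.
* `par_local` in direction `b` for the base sheet `w2`, shifts `α e1`, `β ev b`: sheets `w2, w4, w1, w3` (`w2 + α e1 + β ev b = w3`). Gives: `w2 ~ w1` (same image) at depths `j + k`, `0 ≤ k ≤ a` in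
  direction `b`; also apply it with base `w1`, shifts `α e1`, `-β ev b` (sheets `w1, w3, w2, w4`): `w1 ~ w3` at depths `j + k`, `-a ≤ k ≤ 0` in direction `b`.
* `par_local` in direction `b'` for base `w2`, shifts `-α e1`, `β ev b'`: sheets `w2, w5, w3, w3 - α e1 = w1`: `w2 ~ w3` at depths `j + k`, `0 ≤ k ≤ a` in direction `b'`.
All speeds agree up to `C e / a` (for `w2` the windows in the directions `b` and `b'` have the same upper half up to `2K`, `near_vert`, as `|b - b'| ≤ e^{-2j}`). Let `c` be the speed of `w2` in direction `b`.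
`t = F.f w (pt b j)`, `λ = gp p2 p3 t`, `p2 = F.f w (pt b (j+a))`, `p3 = F.f w (pt b' (j + a))`, `k = ⌊λ/c⌋₊` (`≤ a`, up to `C e`; take the minimum with `a`), `z = F.f w (pt b (j+k))`. For `0 ≤ l ≤ k` the points
`F.f w (pt b (j+l))`, `F.f w (pt b' (j+l))` are within `C e` (`branch_close`).
Vectors over `m = pt b j`: `U1 - U3 = (U1 - U2) + (U2 - U3)`.
* `growth` for `k' ↦` sheets `w1, w3` at depth `j - a + k'` in direction `b`, `n = a`: second claim: `nm z (U1 - U3) ≥ exp (c a + rho t z - 2 gp p_up z t - C e)`, `p_up = F.f w1 (pt b (j-a))`; `z` is within `C e` of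
  `F.f w1 (pt b (j+k))`, so `gp p_up z t ≤ C e` by the window of `w1`, and `rho t z ≥ c k - C e`.
* `upper2` for the sheets `w1, w2` in direction `b`, from depth `j + a` (where they coincide) up to `j`: all points within `max (c k) (c (a - k)) + C e` of `z`: `nm z (U1 - U2) ≤ exp (max (c k) (c (a-k)) + C e)`.
* The same for `w2, w3` in direction `b'` over `pt b' j` (points at depth `j + l`: distance to `z` at most `|c k - c l| + C e`, since `F.f w (pt b' (j+k))` is within `C e` of `z`); passing from `pt b' j` to `pt b j` changes the vectors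
  by at most `e^{2K}` (`U_hor`).
So `exp (c a + c k - C e) ≤ 3 exp (max (c k) (c (a - k)) + C e)`: `c a + c k ≤ c a - c k + C e` or `c a ≤ C e` (false), so `c k ≤ C e`, `λ ≤ c k + c + C e ≤ C e`. If `k` is the minimum with `a` the same argument
gives a contradiction.
-/

set_option autoImplicit false

namespace Pool.Agent.FIB

open UpperHalfPlane

private lemma APar_e1 {b j a α : ℝ} {k : ℤ} (hk : (k : ℝ) ≤ -a) (h : |α| * Real.exp (j - a) ≤ 1) :
    nm (pt b (j + k)) (-(α • e1)) ≤ 1 := by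
  rw [nm_neg, nm_pt_e1]
  refine le_trans (mul_le_mul_of_nonneg_left (Real.exp_le_exp.2 ?_) (abs_nonneg α)) h
  linarith

private lemma APar_ev {b j a β : ℝ} {k : ℤ} (hk : a ≤ (k : ℝ)) (h : |β| * Real.exp (-j - a) ≤ 1) :
    nm (pt b (j + k)) (-(β • ev b)) ≤ 1 := by
  rw [nm_neg, nm_pt_ev]
  refine le_trans (mul_le_mul_of_nonneg_left (Real.exp_le_exp.2 ?_) (abs_nonneg β)) h
  linarith

private lemma APar_log {x y e : ℝ} (hy : Real.exp (-e + x) ≤ y) :
    x - e ≤ Real.log (1 + y) := by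
  have h1 : Real.exp (-e + x) ≤ 1 + y := by linarith
  have h2 := (Real.le_log_iff_exp_le (lt_of_lt_of_le (Real.exp_pos _) h1)).2 h1
  linarith

private lemma APar_e1' {b j a α e : ℝ} (k : ℤ) (h : Real.exp (-e) ≤ |α| * Real.exp (j - a)) :
    (k : ℝ) + a - e ≤ Real.log (1 + nm (pt b (j + k)) (-(α • e1))) := by
  apply APar_log
  rw [nm_neg, nm_pt_e1, Real.exp_add]
  have h1 := mul_le_mul_of_nonneg_right h (Real.exp_pos ((k : ℝ) + a)).le
  rw [mul_assoc, ← Real.exp_add (j - a)] at h1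
  have h2 : j - a + ((k : ℝ) + a) = j + k := by ring
  rwa [h2] at h1

private lemma APar_ev' {b j a β e : ℝ} (k : ℤ) (h : Real.exp (-e) ≤ |β| * Real.exp (-j - a)) :
    a - (k : ℝ) - e ≤ Real.log (1 + nm (pt b (j + k)) (-(β • ev b))) := by
  apply APar_log
  rw [nm_neg, nm_pt_ev, Real.exp_add]
  have h1 := mul_le_mul_of_nonneg_right h (Real.exp_pos (a - (k : ℝ))).le
  rw [mul_assoc, ← Real.exp_add (-j - a)] at h1
  have h2 : -j - a + (a - (k : ℝ)) = -(j + k) := by ring
  rwa [h2] at h1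

private lemma APar_KE {K e x y : ℝ} (hK : 1 ≤ K) (he : K ≤ e) (h : x - e ≤ K * y + K) :
    x ≤ K * y + K * (2 * e) := by
  nlinarith

theorem par_local (K : ℝ) (hK : 1 ≤ K) : ∃ C : ℝ, 1 ≤ C ∧
    ∀ (F : QM K) (w : V) (b j : ℝ) (a : ℕ) (α β e c1 c2 c3 c4 : ℝ),
      K ≤ e → Real.log (8 * a + 8) ≤ e → C * e ≤ a →
      Real.exp (-e) ≤ |α| * Real.exp (j - a) → |α| * Real.exp (j - a) ≤ 1 →
      Real.exp (-e) ≤ |β| * Real.exp (-j - a) → |β| * Real.exp (-j - a) ≤ 1 →
      1 / (4 * K) ≤ c1 → c1 ≤ 2 * K → 1 / (4 * K) ≤ c2 → c2 ≤ 2 * K →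
      1 / (4 * K) ≤ c3 → c3 ≤ 2 * K → 1 / (4 * K) ≤ c4 → c4 ≤ 2 * K →
      GC F w b j (2 * a) c1 e → GC F (w + α • e1) b j (2 * a) c2 e →
      GC F (w + β • ev b) b j (2 * a) c3 e → GC F (w + α • e1 + β • ev b) b j (2 * a) c4 e →
      |c1 - c2| * a ≤ C * e ∧ |c1 - c3| * a ≤ C * e ∧ |c1 - c4| * a ≤ C * e ∧
      (∀ k : ℤ, -(a : ℤ) ≤ k → k ≤ 0 →
        rho (F.f w (pt b (j + k))) (F.f (w + α • e1) (pt b (j + k))) ≤ C * e) ∧
      (∀ k : ℤ, 0 ≤ k → k ≤ (a : ℤ) →
        rho (F.f w (pt b (j + k))) (F.f (w + β • ev b) (pt b (j + k))) ≤ C * e) := by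
  obtain ⟨C0, hC0, h4⟩ := four_cycle K hK
  refine ⟨2 * C0, by linarith, ?_⟩
  intro F w b j a α β e c1 c2 c3 c4 he hlog hCa hα1 hα2 hβ1 hβ2 hc1 hc1' hc2 hc2' hc3 hc3' hc4
    hc4' g1 g2 g3 g4
  have hK0 : (0 : ℝ) ≤ K := by linarith
  have he0 : 1 ≤ e := by linarith
  obtain ⟨s, hs00, hs01, hs10, hs11⟩ : ∃ s : Fin 2 → Fin 2 → V, s 0 0 = w ∧ s 0 1 = w + α • e1 ∧
      s 1 0 = w + β • ev b ∧ s 1 1 = w + α • e1 + β • ev b :=
    ⟨![![w, w + α • e1], ![w + β • ev b, w + α • e1 + β • ev b]], rfl, rfl, rfl, rfl⟩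
  obtain ⟨c, hc00, hc01, hc10, hc11⟩ : ∃ c : Fin 2 → Fin 2 → ℝ, c 0 0 = c1 ∧ c 0 1 = c2 ∧
      c 1 0 = c3 ∧ c 1 1 = c4 := ⟨![![c1, c2], ![c3, c4]], rfl, rfl, rfl, rfl⟩
  have hd1 : ∀ i, s i 0 - s i 1 = -(α • e1) := by
    rw [Fin.forall_fin_two, hs00, hs01, hs10, hs11]
    constructor <;> abel
  have hd2 : ∀ i, s 0 i - s 1 i = -(β • ev b) := by
    rw [Fin.forall_fin_two, hs00, hs01, hs10, hs11]
    constructor <;> abel
  have hg : ∀ i i', GC F (s i i') b j (2 * a) (c i i') e := by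
    rw [Fin.forall_fin_two]
    constructor
    · rw [Fin.forall_fin_two, hs00, hs01, hc00, hc01]
      exact ⟨g1, g2⟩
    · rw [Fin.forall_fin_two, hs10, hs11, hc10, hc11]
      exact ⟨g3, g4⟩
  have hcc : ∀ i i', 1 / (4 * K) ≤ c i i' ∧ c i i' ≤ 2 * K := by
    rw [Fin.forall_fin_two]
    constructor
    · rw [Fin.forall_fin_two, hc00, hc01]
      exact ⟨⟨hc1, hc1'⟩, ⟨hc2, hc2'⟩⟩
    · rw [Fin.forall_fin_two, hc10, hc11]
      exact ⟨⟨hc3, hc3'⟩, ⟨hc4, hc4'⟩⟩
  have hcyc : Cyc K a (2 * e) (fun i i' (k : ℤ) => F.f (s i i') (pt b (j + k)))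
      (fun i i' (k : ℤ) => F.U (s i i') (pt b (j + k))) c := by
    refine ⟨hcc, ?_, ?_, ?_, ?_, ?_, ?_, ?_, ?_, ?_⟩
    · intro i i' k
      rw [nm_sub_comm]
      refine (F.U_vert (s i i') b _ _).trans (Real.exp_le_exp.2 ?_)
      have h1 : |j + (k : ℝ) - (j + ((k + 1 : ℤ) : ℝ))| = 1 := by
        push_cast
        rw [show j + (k : ℝ) - (j + ((k : ℝ) + 1)) = -1 by ring]
        norm_num
      rw [h1]
      linarith
    · intro i i' k
      rw [nm_sub_comm]
      refine (F.U_vert (s i i') b _ _).trans (Real.exp_le_exp.2 ?_)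
      have h1 : |j + ((k + 1 : ℤ) : ℝ) - (j + (k : ℝ))| = 1 := by
        push_cast
        rw [show j + ((k : ℝ) + 1) - (j + (k : ℝ)) = 1 by ring]
        norm_num
      rw [h1]
      linarith
    · intro i i' k l hk hl
      refine (hg i i' k l ?_ ?_).trans (by linarith)
      · push_cast; exact hk
      · push_cast; exact hl
    · intro i k _ hk
      refine (F.f_near hK0 _ _ _ ?_).trans (by linarith)
      rw [hd1]
      refine APar_e1 (a := a) ?_ hα2
      exact_mod_cast hk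
    · intro i
      refine (F.U_near hK0 _ _ _ ?_).trans (Real.exp_le_exp.2 (by linarith))
      rw [hd1]
      refine APar_e1 (a := a) ?_ hα2
      push_cast
      exact le_refl _
    · intro i k hk _
      refine (F.f_near hK0 _ _ _ ?_).trans (by linarith)
      rw [hd2]
      refine APar_ev (a := a) ?_ hβ2
      exact_mod_cast hk
    · intro i
      refine (F.U_near hK0 _ _ _ ?_).trans (Real.exp_le_exp.2 (by linarith))
      rw [hd2]
      refine APar_ev (a := a) ?_ hβ2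
      push_cast
      exact le_refl _
    · intro i k _
      have h1 := F.sep_fib (s i 0) (s i 1) (pt b (j + k))
      rw [hd1] at h1
      have h2 := APar_e1' (b := b) k hα1
      exact APar_KE hK he (h2.trans h1)
    · intro i k _
      have h1 := F.sep_fib (s 0 i) (s 1 i) (pt b (j + k))
      rw [hd2] at h1
      have h2 := APar_ev' (b := b) k hβ1
      exact APar_KE hK he (h2.trans h1)
  obtain ⟨h1, h2, h3⟩ := h4 a (2 * e) _ _ c (by linarith) (by linarith) (by linarith) hcyc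
  have h5 := h1 0 1
  have h6 := h1 1 0
  have h7 := h1 1 1
  rw [abs_sub_comm, hc00, hc01] at h5
  rw [abs_sub_comm, hc00, hc10] at h6
  rw [abs_sub_comm, hc00, hc11] at h7
  refine ⟨by linarith, by linarith, by linarith, ?_, ?_⟩
  · intro k hk hk'
    have h8 := h2 0 k hk hk'
    simp only [hs00, hs01] at h8
    linarith
  · intro k hk hk'
    have h8 := h3 0 k hk hk'
    simp only [hs00, hs10] at h8
    linarith

private lemma APar_win {K : ℝ} {F : QM K} {w : V} {b j c e : ℝ} {r : ℕ} (h : GC F w b j r c e)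
    (m : ℤ) (l l' : ℕ) (hl : |m + l| ≤ r) (hl' : |m + l'| ≤ r) (x : ℝ) (hx : x = j + m) :
    abs (rho (F.f w (pt b (x + l))) (F.f w (pt b (x + l'))) - c * |(l : ℝ) - l'|) ≤ e := by
  have h1 := h (m + l) (m + l') hl hl'
  have e1 : j + ((m + l : ℤ) : ℝ) = x + l := by
    push_cast
    rw [hx]
    ring
  have e2 : j + ((m + l' : ℤ) : ℝ) = x + l' := by
    push_cast
    rw [hx]
    ring
  have e3 : ((m + l : ℤ) : ℝ) - ((m + l' : ℤ) : ℝ) = (l : ℝ) - l' := by
    push_cast
    ring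
  rw [e1, e2, e3] at h1
  exact h1

private lemma APar_step {K : ℝ} (F : QM K) (w : V) (b : ℝ) {x x' : ℝ} (h : |x - x'| = 1) :
    nm (F.f w (pt b x)) (F.U w (pt b x') - F.U w (pt b x)) ≤ Real.exp (2 * K) := by
  rw [nm_sub_comm]
  refine (F.U_vert w b x x').trans (Real.exp_le_exp.2 ?_)
  rw [h]
  linarith

private lemma APar_castsub {a k : ℕ} (hk : k < a) (j : ℝ) :
    |j + ((a - k : ℕ) : ℝ) - (j + ((a - (k + 1) : ℕ) : ℝ))| = 1 := by
  have h1 : a - k = a - (k + 1) + 1 := by omega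
  rw [h1]
  push_cast
  rw [show j + (((a - (k + 1) : ℕ) : ℝ) + 1) - (j + ((a - (k + 1) : ℕ) : ℝ)) = 1 by ring]
  norm_num

/-- The two branches of the sheet are close up to the branching point. -/
private lemma APar_branch {K : ℝ} (hK : 1 ≤ K) (F : QM K) (w : V) (b b' j c d e : ℝ) (a k : ℕ)
    (he : K ≤ e) (hbb : |b - b'| ≤ Real.exp (-2 * j)) (hc0 : 0 ≤ c)
    (g : GC F w b j (2 * a) c e) (g' : GC F w b' j (2 * a) d e) (hcd : |c - d| * a ≤ 3 * e)
    (hka : k ≤ a) (hk : c * k ≤ gp (F.f w (pt b (j + a))) (F.f w (pt b' (j + a))) (F.f w (pt b j)))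
    (l : ℕ) (hl : l ≤ k) :
    rho (F.f w (pt b (j + l))) (F.f w (pt b' (j + l))) ≤ 51 * e := by
  have hla : l ≤ a := hl.trans hka
  have hlR : (l : ℝ) ≤ a := by exact_mod_cast hla
  have hlk : (l : ℝ) ≤ k := by exact_mod_cast hl
  have hl0 : (0 : ℝ) ≤ l := Nat.cast_nonneg l
  have q1 := APar_win g 0 0 l (by simp) (by simp only [zero_add, Nat.abs_cast]; omega) j (by simp)
  have q2 := APar_win g 0 l a (by simp only [zero_add, Nat.abs_cast]; omega)
    (by simp only [zero_add, Nat.abs_cast]; omega) j (by simp)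
  have q3 := APar_win g 0 0 a (by simp) (by simp only [zero_add, Nat.abs_cast]; omega) j (by simp)
  have q1' := APar_win g' 0 0 l (by simp) (by simp only [zero_add, Nat.abs_cast]; omega) j
    (by simp)
  have q2' := APar_win g' 0 l a (by simp only [zero_add, Nat.abs_cast]; omega)
    (by simp only [zero_add, Nat.abs_cast]; omega) j (by simp)
  have q3' := APar_win g' 0 0 a (by simp) (by simp only [zero_add, Nat.abs_cast]; omega) j
    (by simp)
  have r1 : |((0 : ℕ) : ℝ) - l| = l := by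
    rw [Nat.cast_zero, zero_sub, abs_neg, abs_of_nonneg hl0]
  have r2 : |(l : ℝ) - a| = a - l := by
    rw [abs_sub_comm, abs_of_nonneg (by linarith)]
  have r3 : |((0 : ℕ) : ℝ) - a| = a := by
    rw [Nat.cast_zero, zero_sub, abs_neg, abs_of_nonneg (by linarith)]
  rw [r1, Nat.cast_zero, add_zero] at q1 q1'
  rw [r2] at q2 q2'
  rw [r3, Nat.cast_zero, add_zero] at q3 q3'
  have n0 := near_vert hK F w b b' j hbb
  obtain ⟨a1, a2⟩ := abs_le.1 q1
  obtain ⟨a3, a4⟩ := abs_le.1 q2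
  obtain ⟨a5, a6⟩ := abs_le.1 q3
  obtain ⟨b1, b2⟩ := abs_le.1 q1'
  obtain ⟨b3, b4⟩ := abs_le.1 q2'
  obtain ⟨b5, b6⟩ := abs_le.1 q3'
  have hcdl : |c - d| * l ≤ 3 * e := (mul_le_mul_of_nonneg_left hlR (abs_nonneg _)).trans hcd
  have hcdl' : |c * l - d * l| ≤ 3 * e := by
    rw [← sub_mul, abs_mul, abs_of_nonneg hl0]
    exact hcdl
  obtain ⟨c1, c2⟩ := abs_le.1 hcdl'
  have t1 := rho_triangle (F.f w (pt b j)) (F.f w (pt b' j)) (F.f w (pt b' (j + l)))
  have t2 := rho_triangle (F.f w (pt b' j)) (F.f w (pt b j)) (F.f w (pt b' (j + l)))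
  have t3 := rho_triangle (F.f w (pt b' j)) (F.f w (pt b j)) (F.f w (pt b' (j + a)))
  rw [rho_comm (F.f w (pt b' j)) (F.f w (pt b j))] at t2 t3
  have s1 := rho_comm (F.f w (pt b (j + l))) (F.f w (pt b j))
  have s2 := rho_comm (F.f w (pt b' (j + l))) (F.f w (pt b j))
  have hkl : c * l ≤ c * k := mul_le_mul_of_nonneg_left hlk hc0
  have h := branch_close (q := F.f w (pt b j)) (P := F.f w (pt b (j + a)))
    (P' := F.f w (pt b' (j + a))) (x := F.f w (pt b (j + l))) (x' := F.f w (pt b' (j + l)))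
    (e := 7 * e) ?_ ?_ ?_ ?_
  · linarith
  · unfold gp
    linarith
  · unfold gp
    linarith
  · rw [abs_le]
    constructor <;> linarith
  · linarith

/-- The speeds in two close directions agree. -/
private lemma APar_speed {K : ℝ} (hK : 1 ≤ K) (F : QM K) (w : V) (b b' j c d e : ℝ) (a : ℕ)
    (he : K ≤ e) (hbb : |b - b'| ≤ Real.exp (-2 * j))
    (g : GC F w b j (2 * a) c e) (g' : GC F w b' j (2 * a) d e) : |c - d| * a ≤ 3 * e := by
  have q1 := APar_win g (-(2 * a : ℕ)) 0 (2 * a) (by simp) (by simp) (j - 2 * a)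
    (by push_cast; ring)
  have q2 := APar_win g' (-(2 * a : ℕ)) 0 (2 * a) (by simp) (by simp) (j - 2 * a)
    (by push_cast; ring)
  have ha0 : (0 : ℝ) ≤ a := Nat.cast_nonneg a
  have r3 : |((0 : ℕ) : ℝ) - ((2 * a : ℕ) : ℝ)| = 2 * a := by
    rw [Nat.cast_zero, zero_sub, abs_neg]
    push_cast
    rw [abs_of_nonneg (by linarith)]
  have r4 : j - 2 * (a : ℝ) + ((2 * a : ℕ) : ℝ) = j := by
    push_cast
    ring
  rw [r3, r4, Nat.cast_zero, add_zero] at q1 q2
  have n0 := near_vert hK F w b b' j hbb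
  have n1 := near_vert hK F w b b' (j - 2 * a) (hbb.trans (Real.exp_le_exp.2 (by linarith)))
  obtain ⟨a1, a2⟩ := abs_le.1 q1
  obtain ⟨b1, b2⟩ := abs_le.1 q2
  have t1 := rho_triangle (F.f w (pt b (j - 2 * a))) (F.f w (pt b' (j - 2 * a)))
    (F.f w (pt b j))
  have t2 := rho_triangle (F.f w (pt b' (j - 2 * a))) (F.f w (pt b' j)) (F.f w (pt b j))
  have t3 := rho_triangle (F.f w (pt b' (j - 2 * a))) (F.f w (pt b (j - 2 * a)))
    (F.f w (pt b' j))
  have t4 := rho_triangle (F.f w (pt b (j - 2 * a))) (F.f w (pt b j)) (F.f w (pt b' j))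
  have s1 := rho_comm (F.f w (pt b' j)) (F.f w (pt b j))
  have s2 := rho_comm (F.f w (pt b' (j - 2 * a))) (F.f w (pt b (j - 2 * a)))
  have h : |(c - d) * (2 * a)| ≤ 6 * e := by
    rw [abs_le]
    constructor <;> linarith
  rw [abs_mul, abs_of_nonneg (by linarith : (0 : ℝ) ≤ 2 * a)] at h
  linarith

private lemma APar_e1r {b j a α x : ℝ} (hx : x ≤ j - a) (h : |α| * Real.exp (j - a) ≤ 1) :
    nm (pt b x) (-(α • e1)) ≤ 1 := by
  rw [nm_neg, nm_pt_e1]
  exact le_trans (mul_le_mul_of_nonneg_left (Real.exp_le_exp.2 hx) (abs_nonneg α)) h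

private lemma APar_evr {b j a β x : ℝ} (hx : j + a ≤ x) (h : |β| * Real.exp (-j - a) ≤ 1) :
    nm (pt b x) (-(β • ev b)) ≤ 1 := by
  rw [nm_neg, nm_pt_ev]
  refine le_trans (mul_le_mul_of_nonneg_left (Real.exp_le_exp.2 ?_) (abs_nonneg β)) h
  linarith

private lemma APar_e1r' {b j a α e : ℝ} (x : ℝ) (h : Real.exp (-e) ≤ |α| * Real.exp (j - a)) :
    x - (j - a) - e ≤ Real.log (1 + nm (pt b x) (-(α • e1))) := by
  apply APar_log
  rw [nm_neg, nm_pt_e1, Real.exp_add]
  have h1 := mul_le_mul_of_nonneg_right h (Real.exp_pos (x - (j - a))).le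
  rw [mul_assoc, ← Real.exp_add (j - a)] at h1
  have h2 : j - a + (x - (j - a)) = x := by ring
  rwa [h2] at h1

/-- The lower bound for the difference of two sheets which are parallel above `pt b j`. -/
private lemma APar_grow {K : ℝ} (hK : 1 ≤ K) : ∃ Cg : ℝ, 1 ≤ Cg ∧
    ∀ (F : QM K) (w1 w3 : V) (b j α c1 e E : ℝ) (a k : ℕ) (z : ℍ),
      1 ≤ e → e + K ≤ E → 2 * K ≤ E → Real.log (8 * a + 8) ≤ E → Cg * E ≤ a → 64 * K * E ≤ a →
      1 / (4 * K) ≤ c1 → c1 ≤ 2 * K → w1 - w3 = -(α • e1) →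
      Real.exp (-e) ≤ |α| * Real.exp (j - a) → |α| * Real.exp (j - a) ≤ 1 → k ≤ a →
      (∀ l : ℕ, l ≤ a →
        rho (F.f w1 (pt b (j - a + l))) (F.f w3 (pt b (j - a + l))) ≤ E) →
      (∀ l l' : ℕ, l ≤ 2 * a → l' ≤ 2 * a →
        abs (rho (F.f w1 (pt b (j - a + l))) (F.f w1 (pt b (j - a + l'))) -
          c1 * |(l : ℝ) - l'|) ≤ E) →
      rho z (F.f w1 (pt b (j + k))) ≤ E →
      Real.exp (c1 * a + rho (F.f w1 (pt b j)) z - (5 + Cg) * E) ≤
        nm z (F.U w1 (pt b j) - F.U w3 (pt b j)) := by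
  obtain ⟨Cg, hCg, hgr⟩ := growth K hK
  refine ⟨Cg, hCg, ?_⟩
  intro F w1 w3 b j α c1 e E a k z he1 heK hE hlog hCa hKa hc1 hc1' hw hα1 hα2 hka hcl hsp hz
  have hK0 : (0 : ℝ) ≤ K := by linarith
  have hE0 : 2 ≤ E := by linarith
  have ha0 : (0 : ℝ) ≤ a := Nat.cast_nonneg a
  have hk0 : (0 : ℝ) ≤ k := Nat.cast_nonneg k
  have hst : ∀ (s : V) (k' : ℕ), k' < a → nm (F.f s (pt b (j - a + k')))
      (F.U s (pt b (j - a + ((k' + 1 : ℕ) : ℝ))) - F.U s (pt b (j - a + k'))) ≤
        Real.exp (2 * K) := by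
    intro s k' _
    apply APar_step
    push_cast
    rw [show j - a + (k' : ℝ) - (j - a + ((k' : ℝ) + 1)) = -1 by ring]
    norm_num
  obtain ⟨_, hg2, _⟩ := hgr (fun k' => F.f w1 (pt b (j - a + k')))
    (fun k' => F.f w3 (pt b (j - a + k'))) (fun k' => F.U w1 (pt b (j - a + k')))
    (fun k' => F.U w3 (pt b (j - a + k'))) a c1 E (by linarith)
    (by
      refine (Real.log_le_log (by positivity) ?_).trans hlog
      linarith)
    hCa hc1 hc1' (hst w1) (hst w3)
    (by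
      refine (F.U_near hK0 _ _ _ ?_).trans (Real.exp_le_exp.2 (by linarith))
      rw [hw]
      refine APar_e1r (j := j) (a := a) ?_ hα2
      simp)
    hcl (fun k' l' hk' hl' => hsp k' l' (by omega) (by omega))
    (by
      intro k' _
      have h1 := F.sep_fib w1 w3 (pt b (j - a + k'))
      rw [hw] at h1
      have h2 := APar_e1r' (b := b) (j - a + k') hα1
      have h3 := h2.trans h1
      have h4 : E ≤ K * E := by nlinarith
      linarith)
  have s1 := hsp 0 a (by omega) (by omega)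
  have s2 := hsp a (a + k) (by omega) (by omega)
  have s3 := hsp 0 (a + k) (by omega) (by omega)
  have r1 : |((0 : ℕ) : ℝ) - a| = a := by
    rw [Nat.cast_zero, zero_sub, abs_neg, abs_of_nonneg ha0]
  have r2 : |(a : ℝ) - ((a + k : ℕ) : ℝ)| = k := by
    push_cast
    rw [show (a : ℝ) - (a + k) = -k by ring, abs_neg, abs_of_nonneg hk0]
  have r3 : |((0 : ℕ) : ℝ) - ((a + k : ℕ) : ℝ)| = a + k := by
    push_cast
    rw [zero_sub, abs_neg, abs_of_nonneg (by linarith)]
  have r4 : j - (a : ℝ) + a = j := by ring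
  have r5 : j - (a : ℝ) + ((a + k : ℕ) : ℝ) = j + k := by
    push_cast
    ring
  rw [r1, r4, Nat.cast_zero, add_zero] at s1
  rw [r2, r4, r5] at s2
  rw [r3, r5, Nat.cast_zero, add_zero] at s3
  simp only [r4, Nat.cast_zero, add_zero] at hg2
  obtain ⟨a1, a2⟩ := abs_le.1 s1
  obtain ⟨a3, a4⟩ := abs_le.1 s2
  obtain ⟨a5, a6⟩ := abs_le.1 s3
  have t1 := rho_triangle (F.f w1 (pt b j)) (F.f w1 (pt b (j + k))) z
  have t2 := rho_triangle (F.f w1 (pt b (j - a))) z (F.f w1 (pt b (j + k)))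
  have t3 := rho_comm (F.f w1 (pt b (j + k))) z
  have t4 := rho_comm (F.f w1 (pt b j)) (F.f w1 (pt b (j - a)))
  have hgp : gp (F.f w1 (pt b (j - a))) z (F.f w1 (pt b j)) ≤ 5 / 2 * E := by
    unfold gp
    rw [t4]
    rw [t3] at t1
    have e1 : c1 * ((a : ℝ) + k) = c1 * a + c1 * k := by ring
    rw [e1] at a5
    linarith only [a2, a4, a5, t1, t2, hz]
  have hc1a : 4 * E ≤ c1 * a / 4 := by
    have h1 := mul_le_mul_of_nonneg_right hc1 ha0
    have h2 : 1 / (4 * K) * (64 * K * E) ≤ 1 / (4 * K) * (a : ℝ) :=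
      mul_le_mul_of_nonneg_left hKa (by positivity)
    have h3 : 1 / (4 * K) * (64 * K * E) = 16 * E := by
      field_simp
      ring
    linarith
  have h := hg2 z (hgp.trans (by linarith))
  refine le_trans (Real.exp_le_exp.2 ?_) h
  linarith

/-- The upper bound for the difference of two sheets which coincide at depth `j + a`. -/
private lemma APar_upper {K : ℝ} (hK : 1 ≤ K) (F : QM K) (w s : V) (b j β E M : ℝ) (a : ℕ) (z : ℍ)
    (hE : 2 * K ≤ E) (hlog : Real.log (8 * a + 8) ≤ E) (hw : w - s = -(β • ev b))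
    (hβ : |β| * Real.exp (-j - a) ≤ 1)
    (h1 : ∀ l : ℕ, l ≤ a → rho z (F.f w (pt b (j + l))) ≤ M)
    (h2 : ∀ l : ℕ, l ≤ a → rho z (F.f s (pt b (j + l))) ≤ M) :
    nm z (F.U w (pt b j) - F.U s (pt b j)) ≤ Real.exp (M + 4 * E) := by
  have hK0 : (0 : ℝ) ≤ K := by linarith
  have ha0 : (0 : ℝ) ≤ a := Nat.cast_nonneg a
  have h := upper2 K hK (fun k => F.f w (pt b (j + ((a - k : ℕ) : ℝ))))
    (fun k => F.f s (pt b (j + ((a - k : ℕ) : ℝ))))
    (fun k => F.U w (pt b (j + ((a - k : ℕ) : ℝ))))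
    (fun k => F.U s (pt b (j + ((a - k : ℕ) : ℝ)))) a E M z (by linarith)
    (by
      refine (Real.log_le_log (by positivity) ?_).trans hlog
      linarith)
    (fun k hk => APar_step F w b (APar_castsub hk j))
    (fun k hk => APar_step F s b (APar_castsub hk j))
    (by
      refine (F.U_near hK0 _ _ _ ?_).trans (Real.exp_le_exp.2 (by linarith))
      rw [hw]
      refine APar_evr (j := j) (a := a) ?_ hβ
      simp)
    (fun k _ => h1 (a - k) (Nat.sub_le a k)) (fun k _ => h2 (a - k) (Nat.sub_le a k))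
  simp only [Nat.sub_self, Nat.cast_zero, add_zero] at h
  exact h

private lemma APar_absle {k l a : ℕ} (hk : k ≤ a) (hl : l ≤ a) :
    |(k : ℝ) - l| ≤ max (k : ℝ) ((a : ℝ) - k) := by
  have h1 : (l : ℝ) ≤ a := by exact_mod_cast hl
  have h3 : (0 : ℝ) ≤ l := Nat.cast_nonneg l
  have h4 := le_max_left (k : ℝ) ((a : ℝ) - k)
  have h5 := le_max_right (k : ℝ) ((a : ℝ) - k)
  rw [abs_le]
  constructor <;> linarith

/-- The end of the computation. -/
private lemma APar_end {K c Cg E lam : ℝ} {a k : ℕ} (hK : 1 ≤ K) (hCg : 1 ≤ Cg) (hE : 2 * K ≤ E)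
    (hc : 1 / (4 * K) ≤ c) (hc' : c ≤ 2 * K) (ha : 64 * K * (14 + Cg) * E ≤ a)
    (hk : k = min ⌊lam / c⌋₊ a)
    (h : c * a + c * k ≤ max (c * k) (c * (a - k)) + (14 + Cg) * E) :
    lam ≤ 64 * K * (14 + Cg) * E := by
  have hK0 : 0 < K := by linarith
  have hc0 : 0 < c := lt_of_lt_of_le (by positivity) hc
  have hk0 : (0 : ℝ) ≤ k := Nat.cast_nonneg k
  have ha0 : (0 : ℝ) ≤ a := Nat.cast_nonneg a
  have hE0 : 0 < E := by linarith
  have hca : 16 * (14 + Cg) * E ≤ c * a := by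
    have h1 := mul_le_mul_of_nonneg_right hc ha0
    have h2 : 1 / (4 * K) * (64 * K * (14 + Cg) * E) ≤ 1 / (4 * K) * (a : ℝ) :=
      mul_le_mul_of_nonneg_left ha (by positivity)
    have h3 : 1 / (4 * K) * (64 * K * (14 + Cg) * E) = 16 * (14 + Cg) * E := by
      field_simp
      ring
    linarith
  have hCE : 0 < Cg * E := by positivity
  have hbig : (14 + Cg) * E < c * a := by
    have h1 : 0 < (14 + Cg) * E := by positivity
    linarith
  rcases le_total (c * k) (c * (a - k)) with hm | hm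
  · rw [max_eq_right hm] at h
    have h1 : 2 * (c * k) ≤ (14 + Cg) * E := by linarith
    rcases le_total ⌊lam / c⌋₊ a with hka | hka
    · rw [min_eq_left hka] at hk
      have h2 := (Nat.lt_floor_add_one (lam / c)).le
      rw [← hk, div_le_iff₀ hc0] at h2
      have h3 : (14 + Cg) * E ≤ K * ((14 + Cg) * E) :=
        le_mul_of_one_le_left (by positivity) hK
      linarith
    · rw [min_eq_right hka] at hk
      rw [hk] at h1
      linarith
  · rw [max_eq_left hm] at h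
    linarith

theorem spread_local (K : ℝ) (hK : 1 ≤ K) : ∃ C : ℝ, 1 ≤ C ∧
    ∀ (F : QM K) (w : V) (b j κ e : ℝ) (a : ℕ),
      K ≤ e → Real.log (8 * a + 8) ≤ e → C * e ≤ a → Real.exp (-e) ≤ κ → κ ≤ 1 →
      GG F w b j (2 * a) e → GG F (w + Real.exp (j + a) • ev b) b j (2 * a) e →
      GG F (w + Real.exp (j + a) • ev (b + κ * Real.exp (-2 * j))) b j (2 * a) e →
      GG F (w + (κ * Real.exp (a - j)) • e1) b j (2 * a) e →
      GG F w (b + κ * Real.exp (-2 * j)) j (2 * a) e →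
      GG F (w + Real.exp (j + a) • ev b) (b + κ * Real.exp (-2 * j)) j (2 * a) e →
      GG F (w + Real.exp (j + a) • ev (b + κ * Real.exp (-2 * j)))
        (b + κ * Real.exp (-2 * j)) j (2 * a) e →
      GG F (w - (κ * Real.exp (a - j)) • e1) (b + κ * Real.exp (-2 * j)) j (2 * a) e →
      gp (F.f w (pt b (j + a))) (F.f w (pt (b + κ * Real.exp (-2 * j)) (j + a)))
        (F.f w (pt b j)) ≤ C * e := by
  obtain ⟨C1, hC1, hpar⟩ := par_local K hK
  obtain ⟨Cg, hCg, hgr⟩ := APar_grow hK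
  refine ⟨64 * K * (14 + Cg) * (C1 + 60), ?_, ?_⟩
  · have h1 : 1 ≤ K * (14 + Cg) := by nlinarith
    nlinarith
  intro F w b j κ e a he hlog hCa hκ1 hκ2 G2 G1 G3 G4 G2' G1' G3' G5'
  have hK0 : (0 : ℝ) ≤ K := by linarith
  have he1 : 1 ≤ e := by linarith
  have hκ0 : 0 < κ := lt_of_lt_of_le (Real.exp_pos _) hκ1
  have ha0 : (0 : ℝ) ≤ a := Nat.cast_nonneg a
  obtain ⟨b', hb'⟩ : ∃ b', b' = b + κ * Real.exp (-2 * j) := ⟨_, rfl⟩
  obtain ⟨β, hβ⟩ : ∃ β, β = Real.exp (j + a) := ⟨_, rfl⟩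
  obtain ⟨α, hα⟩ : ∃ α, α = κ * Real.exp (a - j) := ⟨_, rfl⟩
  rw [← hb', ← hβ] at G3 G3'
  rw [← hb', ← hα] at G5'
  rw [← hβ] at G1
  rw [← hβ, ← hb'] at G1'
  rw [← hα] at G4
  rw [← hb'] at G2'
  rw [← hb']
  have hαβ : α = β * (κ * Real.exp (-2 * j)) := by
    rw [hα, hβ, show (a : ℝ) - j = (j + a) + (-2 * j) by ring, Real.exp_add]
    ring
  have hev : β • ev b' = β • ev b + α • e1 := by
    rw [hb', hαβ]
    ext
    · simp only [ev, e1, Prod.smul_fst, Prod.fst_add, smul_eq_mul]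
      ring
    · simp only [ev, e1, Prod.smul_snd, Prod.snd_add, smul_eq_mul]
      ring
  have hβa : |β| * Real.exp (-j - a) = 1 := by
    rw [hβ, abs_of_pos (Real.exp_pos _), ← Real.exp_add, show j + (a : ℝ) + (-j - a) = 0 by ring,
      Real.exp_zero]
  have hαa : |α| * Real.exp (j - a) = κ := by
    rw [hα, abs_of_pos (mul_pos hκ0 (Real.exp_pos _)), mul_assoc, ← Real.exp_add,
      show (a : ℝ) - j + (j - a) = 0 by ring, Real.exp_zero, mul_one]
  have hexp1 : Real.exp (-e) ≤ 1 := by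
    rw [Real.exp_le_one_iff]
    linarith
  have hbb : |b - b'| ≤ Real.exp (-2 * j) := by
    rw [hb', show b - (b + κ * Real.exp (-2 * j)) = -(κ * Real.exp (-2 * j)) by ring, abs_neg,
      abs_of_pos (mul_pos hκ0 (Real.exp_pos _))]
    exact mul_le_of_le_one_left (Real.exp_pos (-2 * j)).le hκ2
  obtain ⟨c, hc, hc', g2⟩ := G2
  obtain ⟨c1, hc1, hc1', g1⟩ := G1
  obtain ⟨c3, hc3, hc3', g3⟩ := G3
  obtain ⟨c4, hc4, hc4', g4⟩ := G4
  obtain ⟨d, hd, hd', g2'⟩ := G2'
  obtain ⟨d1, hd1, hd1', g1'⟩ := G1'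
  obtain ⟨d3, hd3, hd3', g3'⟩ := G3'
  obtain ⟨d5, hd5, hd5', g5'⟩ := G5'
  have hKC : 14 + Cg ≤ K * (14 + Cg) := le_mul_of_one_le_left (by linarith only [hCg]) hK
  have hC1a : C1 * e ≤ a := by
    refine le_trans ?_ hCa
    refine mul_le_mul_of_nonneg_right ?_ (by linarith only [he1])
    have h1 : C1 + 60 ≤ 64 * K * (14 + Cg) * (C1 + 60) :=
      le_mul_of_one_le_left (by linarith only [hC1]) (by linarith only [hKC, hCg])
    linarith only [h1]
  have hA := hpar F w b j a α β e c c4 c1 c3 he hlog hC1a (by rw [hαa]; exact hκ1)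
    (by rw [hαa]; exact hκ2) (by rw [hβa]; exact hexp1) hβa.le hc hc' hc4 hc4' hc1 hc1' hc3 hc3'
    g2 g4 g1 (by
      rw [show w + α • e1 + β • ev b = w + β • ev b' by rw [hev]; abel]
      exact g3)
  have hB := hpar F (w + β • ev b) b j a α (-β) e c1 c3 c c4 he hlog hC1a
    (by rw [hαa]; exact hκ1) (by rw [hαa]; exact hκ2)
    (by rw [abs_neg, hβa]; exact hexp1) (by rw [abs_neg, hβa]) hc1 hc1' hc3 hc3' hc hc' hc4 hc4'
    g1 (by
      rw [show w + β • ev b + α • e1 = w + β • ev b' by rw [hev]; abel]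
      exact g3)
    (by
      rw [_root_.neg_smul, add_neg_cancel_right]
      exact g2)
    (by
      rw [show w + β • ev b + α • e1 + -β • ev b = w + α • e1 by rw [_root_.neg_smul]; abel]
      exact g4)
  have hC := hpar F w b' j a (-α) β e d d5 d3 d1 he hlog hC1a
    (by rw [abs_neg, hαa]; exact hκ1) (by rw [abs_neg, hαa]; exact hκ2)
    (by rw [hβa]; exact hexp1) hβa.le hd hd' hd5 hd5' hd3 hd3' hd1 hd1'
    g2' (by
      rw [_root_.neg_smul, ← sub_eq_add_neg]
      exact g5') g3'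
    (by
      rw [show w + -α • e1 + β • ev b' = w + β • ev b by rw [_root_.neg_smul, hev]; abel]
      exact g1')
  have hcd := APar_speed hK F w b b' j c d e a he hbb g2 g2'
  obtain ⟨E, hE⟩ : ∃ E, E = (C1 + 60) * e := ⟨_, rfl⟩
  have hCe : 0 < C1 * e := by positivity
  have hE1 : E = C1 * e + 60 * e := by rw [hE]; ring
  have hCa' : 64 * K * (14 + Cg) * E ≤ a := by
    rw [hE, ← mul_assoc]
    exact hCa
  have hE0 : 0 < E := by linarith
  have hCgE : 0 < Cg * E := by positivity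
  have h64 : 64 * K * E ≤ a := by
    refine le_trans (mul_le_mul_of_nonneg_right ?_ hE0.le) hCa'
    exact le_mul_of_one_le_right (by positivity) (by linarith only [hCg])
  have hCga : Cg * E ≤ a := by
    refine le_trans (mul_le_mul_of_nonneg_right ?_ hE0.le) hCa'
    have h1 : 14 + Cg ≤ K * (14 + Cg) := le_mul_of_one_le_left (by linarith only [hCg]) hK
    linarith only [h1, hCg]
  obtain ⟨lam, hlam⟩ : ∃ lam, lam = gp (F.f w (pt b (j + a))) (F.f w (pt b' (j + a)))
    (F.f w (pt b j)) := ⟨_, rfl⟩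
  have hlam0 : 0 ≤ lam := by
    rw [hlam]
    exact gp_nonneg _ _ _
  have hc0 : 0 < c := lt_of_lt_of_le (by positivity) hc
  obtain ⟨k, hk⟩ : ∃ k, k = min ⌊lam / c⌋₊ a := ⟨_, rfl⟩
  have hka : k ≤ a := by rw [hk]; exact min_le_right _ _
  have hkaR : (k : ℝ) ≤ a := by exact_mod_cast hka
  have hk0 : (0 : ℝ) ≤ k := Nat.cast_nonneg k
  have hklam : c * k ≤ lam := by
    have h1 : (k : ℝ) ≤ lam / c := by
      refine le_trans ?_ (Nat.floor_le (div_nonneg hlam0 hc0.le))
      rw [hk]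
      exact_mod_cast min_le_left _ _
    rw [le_div_iff₀ hc0] at h1
    linarith only [h1]
  have hbr := APar_branch hK F w b b' j c d e a k he hbb hc0.le g2 g2' hcd hka
    (by rw [← hlam]; exact hklam)
  -- windows
  have hX : ∀ l l' : ℕ, l ≤ a → l' ≤ a → abs (rho (F.f w (pt b (j + l)))
      (F.f w (pt b (j + l'))) - c * |(l : ℝ) - l'|) ≤ e := fun l l' hl hl' =>
    APar_win g2 0 l l' (by simp only [zero_add, Nat.abs_cast]; omega)
      (by simp only [zero_add, Nat.abs_cast]; omega) j (by simp)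
  have hX' : ∀ l l' : ℕ, l ≤ a → l' ≤ a → abs (rho (F.f w (pt b' (j + l)))
      (F.f w (pt b' (j + l'))) - d * |(l : ℝ) - l'|) ≤ e := fun l l' hl hl' =>
    APar_win g2' 0 l l' (by simp only [zero_add, Nat.abs_cast]; omega)
      (by simp only [zero_add, Nat.abs_cast]; omega) j (by simp)
  have hAn : ∀ l : ℕ, l ≤ a →
      rho (F.f w (pt b (j + l))) (F.f (w + β • ev b) (pt b (j + l))) ≤ C1 * e := by
    intro l hl
    have h1 := hA.2.2.2.2 (l : ℤ) (by omega) (by exact_mod_cast hl)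
    rw [Int.cast_natCast] at h1
    exact h1
  have hCn : ∀ l : ℕ, l ≤ a →
      rho (F.f w (pt b' (j + l))) (F.f (w + β • ev b') (pt b' (j + l))) ≤ C1 * e := by
    intro l hl
    have h1 := hC.2.2.2.2 (l : ℤ) (by omega) (by exact_mod_cast hl)
    rw [Int.cast_natCast] at h1
    exact h1
  have hBn : ∀ l : ℕ, l ≤ a → rho (F.f (w + β • ev b) (pt b (j - a + l)))
      (F.f (w + β • ev b') (pt b (j - a + l))) ≤ C1 * e := by
    intro l hl
    have h1 := hB.2.2.2.1 ((l : ℤ) - a) (by omega) (by omega)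
    rw [show w + β • ev b + α • e1 = w + β • ev b' by rw [hev]; abel,
      show j + (((l : ℤ) - a : ℤ) : ℝ) = j - a + l by push_cast; ring] at h1
    exact h1
  have hY : ∀ l l' : ℕ, l ≤ 2 * a → l' ≤ 2 * a →
      abs (rho (F.f (w + β • ev b) (pt b (j - a + l))) (F.f (w + β • ev b) (pt b (j - a + l'))) -
        c1 * |(l : ℝ) - l'|) ≤ E := by
    intro l l' hl hl'
    refine (APar_win g1 (-(a : ℤ)) l l' ?_ ?_ (j - a) (by push_cast; ring)).trans
      (by linarith only [hE1, hCe, he1])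
    · rw [abs_le]
      constructor <;> push_cast <;> omega
    · rw [abs_le]
      constructor <;> push_cast <;> omega
  -- lower bound
  have hCE : C1 * e ≤ E := by linarith only [hE1, he1]
  have hlow := hgr F (w + β • ev b) (w + β • ev b') b j α c1 e E a k (F.f w (pt b (j + k))) he1
    (by linarith only [hE1, hCe, he1, he]) (by linarith only [hE1, hCe, he1, he])
    (by linarith only [hE1, hCe, he1, hlog]) hCga h64 hc1 hc1'
    (by rw [hev]; abel) (by rw [hαa]; exact hκ1) (by rw [hαa]; exact hκ2) hka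
    (fun l hl => (hBn l hl).trans hCE) hY ((hAn k hka).trans hCE)
  -- upper bounds
  obtain ⟨M, hM⟩ : ∃ M, M = max (c * k) (c * (a - k)) := ⟨_, rfl⟩
  have hMk : c * k ≤ M := by rw [hM]; exact le_max_left _ _
  have hMl : ∀ l : ℕ, l ≤ a → c * |(k : ℝ) - l| ≤ M := by
    intro l hl
    rw [hM, ← mul_max_of_nonneg _ _ hc0.le]
    exact mul_le_mul_of_nonneg_left (APar_absle hka hl) hc0.le
  have hcdl : ∀ l : ℕ, l ≤ a → d * |(k : ℝ) - l| ≤ M + 3 * e := by
    intro l hl
    have h1 := hMl l hl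
    have h2 : |(k : ℝ) - l| ≤ a := by
      have h3 : (l : ℝ) ≤ a := by exact_mod_cast hl
      have h4 : (0 : ℝ) ≤ l := Nat.cast_nonneg l
      rw [abs_le]
      constructor <;> linarith only [h3, h4, hkaR, hk0]
    have h3 : (d - c) * |(k : ℝ) - l| ≤ |c - d| * a := by
      refine (mul_le_mul_of_nonneg_right ?_ (abs_nonneg _)).trans
        (mul_le_mul_of_nonneg_left h2 (abs_nonneg _))
      rw [abs_sub_comm]
      exact le_abs_self _
    linarith only [h1, h3, hcd]
  have h2KE : 2 * K ≤ E := by linarith only [hE1, hCe, he1, he]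
  have hlogE : Real.log (8 * a + 8) ≤ E := by linarith only [hE1, hCe, he1, hlog]
  have hu1 := APar_upper hK F w (w + β • ev b) b j β E (M + E) a (F.f w (pt b (j + k)))
    h2KE hlogE (by abel) hβa.le
    (by
      intro l hl
      have h1 := (abs_le.1 (hX k l hka hl)).2
      have h2 := hMl l hl
      linarith only [h1, h2, hE1, hCe, he1])
    (by
      intro l hl
      have h1 := (abs_le.1 (hX k l hka hl)).2
      have h2 := hMl l hl
      have h3 := hAn l hl
      have h4 := rho_triangle (F.f w (pt b (j + k))) (F.f w (pt b (j + l)))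
        (F.f (w + β • ev b) (pt b (j + l)))
      linarith only [h1, h2, h3, h4, hE1, hCe, he1])
  have hz' : ∀ l : ℕ, l ≤ a →
      rho (F.f w (pt b (j + k))) (F.f w (pt b' (j + l))) ≤ M + 55 * e := by
    intro l hl
    have h1 := (abs_le.1 (hX' k l hka hl)).2
    have h2 := hcdl l hl
    have h3 := hbr k le_rfl
    have h4 := rho_triangle (F.f w (pt b (j + k))) (F.f w (pt b' (j + k)))
      (F.f w (pt b' (j + l)))
    linarith only [h1, h2, h3, h4]
  have hu2 := APar_upper hK F w (w + β • ev b') b' j β E (M + E) a (F.f w (pt b (j + k)))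
    h2KE hlogE (by abel) hβa.le
    (by
      intro l hl
      have h1 := hz' l hl
      linarith only [h1, hE1, hCe, he1])
    (by
      intro l hl
      have h1 := hz' l hl
      have h3 := hCn l hl
      have h4 := rho_triangle (F.f w (pt b (j + k))) (F.f w (pt b' (j + l)))
        (F.f (w + β • ev b') (pt b' (j + l)))
      linarith only [h1, h3, h4, hE1, hCe, he1])
  have hbbx : K * (|b - b'| * Real.exp (2 * j) / 2) + K ≤ 2 * K := by
    have h1 : |b - b'| * Real.exp (2 * j) ≤ 1 := by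
      have h2 := mul_le_mul_of_nonneg_right hbb (Real.exp_pos (2 * j)).le
      rw [← Real.exp_add, show -2 * j + 2 * j = 0 by ring, Real.exp_zero] at h2
      exact h2
    have h3 := mul_le_mul_of_nonneg_left h1 hK0
    linarith only [h3, hK0]
  have hX0 := (abs_le.1 (hX 0 k (Nat.zero_le a) hka))
  have r0 : |((0 : ℕ) : ℝ) - k| = k := by
    rw [Nat.cast_zero, zero_sub, abs_neg, abs_of_nonneg hk0]
  rw [r0, Nat.cast_zero, add_zero] at hX0
  have hv1 : nm (F.f w (pt b (j + k))) (F.U w (pt b j) - F.U w (pt b' j)) ≤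
      Real.exp (M + E) := by
    have h1 := (F.U_hor hK0 w b b' j).trans (Real.exp_le_exp.2 hbbx)
    have h2 := nm_le (F.f w (pt b j)) (F.f w (pt b (j + k))) (F.U w (pt b j) - F.U w (pt b' j))
    have h3 := h2.trans (mul_le_mul_of_nonneg_left h1 (Real.exp_pos _).le)
    rw [← Real.exp_add] at h3
    refine h3.trans (Real.exp_le_exp.2 ?_)
    linarith only [hX0.2, hMk, hE1, hCe, he1, he]
  have n0 := near_vert hK F w b b' j hbb
  have n3 := near_vert hK F (w + β • ev b') b b' j hbb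
  have hC0 := hCn 0 (Nat.zero_le a)
  rw [Nat.cast_zero, add_zero] at hC0
  have hA0 := hAn 0 (Nat.zero_le a)
  rw [Nat.cast_zero, add_zero] at hA0
  have hv3 : nm (F.f w (pt b (j + k))) (F.U (w + β • ev b') (pt b j) -
      F.U (w + β • ev b') (pt b' j)) ≤ Real.exp (M + E) := by
    have h1 := (F.U_hor hK0 (w + β • ev b') b b' j).trans (Real.exp_le_exp.2 hbbx)
    have h2 := nm_le (F.f (w + β • ev b') (pt b j)) (F.f w (pt b (j + k)))
      (F.U (w + β • ev b') (pt b j) - F.U (w + β • ev b') (pt b' j))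
    have h3 := h2.trans (mul_le_mul_of_nonneg_left h1 (Real.exp_pos _).le)
    rw [← Real.exp_add] at h3
    refine h3.trans (Real.exp_le_exp.2 ?_)
    have t1 := rho_triangle (F.f (w + β • ev b') (pt b j)) (F.f (w + β • ev b') (pt b' j))
      (F.f w (pt b (j + k)))
    have t2 := rho_triangle (F.f (w + β • ev b') (pt b' j)) (F.f w (pt b' j))
      (F.f w (pt b (j + k)))
    have t3 := rho_triangle (F.f w (pt b' j)) (F.f w (pt b j)) (F.f w (pt b (j + k)))
    have t4 := rho_comm (F.f (w + β • ev b') (pt b' j)) (F.f w (pt b' j))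
    have t5 := rho_comm (F.f w (pt b' j)) (F.f w (pt b j))
    linarith only [hX0.2, hMk, hE1, hCe, he1, he, t1, t2, t3, t4, t5, n0, n3, hC0]
  have hsum : nm (F.f w (pt b (j + k))) (F.U (w + β • ev b) (pt b j) -
      F.U (w + β • ev b') (pt b j)) ≤ 4 * Real.exp (M + 5 * E) := by
    have e0 : F.U (w + β • ev b) (pt b j) - F.U (w + β • ev b') (pt b j) =
        -(F.U w (pt b j) - F.U (w + β • ev b) (pt b j)) +
        ((F.U w (pt b j) - F.U w (pt b' j)) +
          ((F.U w (pt b' j) - F.U (w + β • ev b') (pt b' j)) +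
            -(F.U (w + β • ev b') (pt b j) - F.U (w + β • ev b') (pt b' j)))) := by abel
    rw [e0]
    refine (nm_add_le _ _ _).trans ?_
    rw [nm_neg]
    have q1 := nm_add_le (F.f w (pt b (j + k))) (F.U w (pt b j) - F.U w (pt b' j))
      ((F.U w (pt b' j) - F.U (w + β • ev b') (pt b' j)) +
            -(F.U (w + β • ev b') (pt b j) - F.U (w + β • ev b') (pt b' j)))
    have q2 := nm_add_le (F.f w (pt b (j + k))) (F.U w (pt b' j) - F.U (w + β • ev b') (pt b' j))
      (-(F.U (w + β • ev b') (pt b j) - F.U (w + β • ev b') (pt b' j)))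
    rw [nm_neg] at q2
    have m1 : Real.exp (M + E) ≤ Real.exp (M + 5 * E) := Real.exp_le_exp.2 (by linarith)
    have m2 : Real.exp (M + E + 4 * E) = Real.exp (M + 5 * E) := by
      congr 1
      ring
    rw [m2] at hu1 hu2
    linarith only [hu1, hu2, hv1, hv3, q1, q2, m1]
  have hfour : 4 * Real.exp (M + 5 * E) ≤ Real.exp (M + 7 * E) := by
    have h1 : (2 : ℝ) ≤ Real.exp E := by
      have := Real.add_one_le_exp E
      linarith only [this, h2KE, hK]
    have h2 : Real.exp (M + 7 * E) = Real.exp E * Real.exp E * Real.exp (M + 5 * E) := by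
      rw [← Real.exp_add, ← Real.exp_add]
      congr 1
      ring
    rw [h2]
    refine mul_le_mul_of_nonneg_right ?_ (Real.exp_pos _).le
    nlinarith only [h1]
  have hfin := Real.exp_le_exp.1 (hlow.trans (hsum.trans hfour))
  have t6 := rho_triangle (F.f w (pt b j)) (F.f (w + β • ev b) (pt b j)) (F.f w (pt b (j + k)))
  have hc1c : (c - c1) * a ≤ C1 * e := by
    have h1 := hA.2.1
    have h2 : (c - c1) * (a : ℝ) ≤ |c - c1| * a :=
      mul_le_mul_of_nonneg_right (le_abs_self _) ha0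
    linarith only [h1, h2]
  have hend := APar_end (K := K) (c := c) (Cg := Cg) (E := E) (lam := lam) (a := a) (k := k) hK hCg
    h2KE hc hc' hCa' hk
    (by
      rw [← hM]
      have h1 := hX0.1
      linarith only [h1, hfin, hc1c, t6, hA0, hE1, hCe, he1])
  rw [← hlam]
  refine hend.trans (le_of_eq ?_)
  rw [hE]
  ring

end Pool.Agent.FIB
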