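import Pool.Agent.FIB.APar

/-!
# Part A: nearby sheets have the same image, and the parallelogram law (A5)

All windows are around `o` (depth `0`, direction `0`), half length `8a`. `H = e^{3a}/2`.

`shift_e1`: `α1 = e^a/2 + α/2`, `α1 - α = e^a/2 - α/2`, both in `[e^a/4, 3e^a/4]`. `par_local` with centre `j = a` and half length `2a` (in the place of
`a`; the windows of half length `4a` around `a` are in `[-8a, 8a]`: `GC_sub`), `|α1| e^{j - 2a} = α1 e^{-a} ∈ [1/4, 3/4]`, `H e^{-j - 2a} = 1/2`: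
first for the base sheet `w` and the shifts `α1 e1`, `H ev 0`, then for the base sheet `w + α e1` and the shifts `(α1 - α) e1`, `H ev 0`. Conclusion at depths `a + k`,
`-2a ≤ k ≤ 0`, i.e. in `[-a, a]`: `w ~ w + α1 e1 ~ w + α e1`. (`exp (-e) ≤ 1/4` since `e ≥ log 100`.) Speeds: two applications as well.

`shift_ev`: the same with centre `j = -a`: `β1 = e^a/2 + β/2`, shifts `H e1` (`H e^{j-2a} = 1/2`) and `β1 ev 0` (`β1 e^{-j-2a} = β1 e^{-a}`); the conclusion at depths `-a + k`, `0 ≤ k ≤ 2a`.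

`parallelogram`. `t = F.f w o`, `z = F.f w (pt 0 (-a))`, `x = F.f w (pt 0 a)`, `Z` the vector. The sheets `w, w + α e1` meet at depth `-a` (`|α| e^{-a} ≤ 1`, `near_sheet`); `upper2` from depth `-a` to `0`:
all points within `c a + 3 e` of `z`: `nm z (U (w + α e1) - U w) ≤ exp (c a + C e)`, same for `w + β ev 0, w + β ev 0 + α e1`: `nm z Z ≤ exp (c a + C e)`. The sheets `w, w + β ev 0` and
`w + α e1, w + α e1 + β ev 0` meet at depth `a`: `nm x Z ≤ exp (c a + C e)`. `four_vec_or x t z`: `rho x z ≥ 2 c a - e`, `rho x t, rho t z ≤ c a + e`: in both cases `nm t Z ≤ exp (C e)`.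

`size_e1`: `growth` (first and third claim) for the sheets `w, w + α e1`, `k' ↦` depth `-a + k'`, `n = a`; separation by `sep_fib`: `log (1 + |α| e^{-a+k'}) ≥ k' - e`.
-/

set_option autoImplicit false

namespace Pool.Agent.FIB

open UpperHalfPlane

private lemma ash_log {a : ℕ} {e : ℝ} (h : Real.log (100 * a + 100) ≤ e) :
    Real.log (8 * ((2 * a : ℕ) : ℝ) + 8) ≤ e ∧ Real.log (4 * (a : ℝ) + 4) ≤ e ∧ 4 ≤ Real.exp e := by
  have ha : (0 : ℝ) ≤ a := Nat.cast_nonneg a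
  refine ⟨?_, ?_, ?_⟩
  · refine (Real.log_le_log (by positivity) ?_).trans h
    push_cast
    linarith
  · refine (Real.log_le_log (by positivity) ?_).trans h
    linarith
  · have h1 : 100 * (a : ℝ) + 100 ≤ Real.exp e := (Real.log_le_iff_le_exp (by positivity)).1 h
    linarith

private lemma ash_exp {e : ℝ} (h : 4 ≤ Real.exp e) : Real.exp (-e) ≤ 1 / 4 := by
  rw [Real.exp_neg, one_div]
  exact inv_anti₀ (by norm_num) h

/-- The half sums `(e^a + α) / 2`. -/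
private lemma ash_half {a : ℕ} {α : ℝ} (h : |α| ≤ Real.exp a / 2) :
    1 / 4 ≤ |Real.exp a / 2 + α / 2| * Real.exp (-(a : ℝ)) ∧
      |Real.exp a / 2 + α / 2| * Real.exp (-(a : ℝ)) ≤ 1 := by
  have h1 := abs_le.1 h
  have hp := Real.exp_pos (a : ℝ)
  have hq := Real.exp_pos (-(a : ℝ))
  have hpq : Real.exp (a : ℝ) * Real.exp (-(a : ℝ)) = 1 := by
    rw [← Real.exp_add]
    simp
  rw [abs_of_nonneg (by linarith)]
  constructor
  · have : Real.exp (a : ℝ) / 4 * Real.exp (-(a : ℝ)) ≤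
        (Real.exp (a : ℝ) / 2 + α / 2) * Real.exp (-(a : ℝ)) :=
      mul_le_mul_of_nonneg_right (by linarith) hq.le
    linarith
  · have : (Real.exp (a : ℝ) / 2 + α / 2) * Real.exp (-(a : ℝ)) ≤
        Real.exp (a : ℝ) * Real.exp (-(a : ℝ)) :=
      mul_le_mul_of_nonneg_right (by linarith) hq.le
    linarith

private lemma ash_H (a : ℕ) (t : ℝ) (ht : t = -(3 * (a : ℝ))) :
    |Real.exp (3 * a) / 2| * Real.exp t = 1 / 2 := by
  rw [abs_of_nonneg (by positivity), ht]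
  have hpq : Real.exp (3 * (a : ℝ)) * Real.exp (-(3 * (a : ℝ))) = 1 := by
    rw [← Real.exp_add]
    simp
  linarith

private lemma ash_GC {K : ℝ} {F : QM K} {w : V} {a : ℕ} {c e : ℝ} (h : GC F w 0 0 (8 * a) c e) :
    GC F w 0 (a : ℝ) (2 * (2 * a)) c e ∧ GC F w 0 (-(a : ℝ)) (2 * (2 * a)) c e := by
  constructor
  · have h1 := GC_sub F w 0 0 (8 * a) (2 * (2 * a)) (a : ℤ) c e h (by
      rw [abs_of_nonneg (by positivity)]
      push_cast
      linarith [(Int.natCast_nonneg a : (0 : ℤ) ≤ a)])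
    rw [show (0 : ℝ) + ((a : ℤ) : ℝ) = a by push_cast; ring] at h1
    exact h1
  · have h1 := GC_sub F w 0 0 (8 * a) (2 * (2 * a)) (-(a : ℤ)) c e h (by
      rw [abs_neg, abs_of_nonneg (by positivity)]
      push_cast
      linarith [(Int.natCast_nonneg a : (0 : ℤ) ≤ a)])
    rw [show (0 : ℝ) + ((-(a : ℤ) : ℤ) : ℝ) = -(a : ℝ) by push_cast; ring] at h1
    exact h1

theorem shift_e1 (K : ℝ) (hK : 1 ≤ K) : ∃ C : ℝ, 1 ≤ C ∧
    ∀ (F : QM K) (w : V) (a : ℕ) (α e c c' : ℝ),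
      K ≤ e → Real.log (100 * a + 100) ≤ e → C * e ≤ a → |α| ≤ Real.exp a / 2 →
      1 / (4 * K) ≤ c → c ≤ 2 * K → 1 / (4 * K) ≤ c' → c' ≤ 2 * K →
      GC F w 0 0 (8 * a) c e → GC F (w + α • e1) 0 0 (8 * a) c' e →
      GG F (w + (Real.exp a / 2 + α / 2) • e1) 0 0 (8 * a) e →
      GG F (w + (Real.exp (3 * a) / 2) • ev 0) 0 0 (8 * a) e →
      GG F (w + (Real.exp a / 2 + α / 2) • e1 + (Real.exp (3 * a) / 2) • ev 0) 0 0 (8 * a) e →
      GG F (w + α • e1 + (Real.exp (3 * a) / 2) • ev 0) 0 0 (8 * a) e →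
      |c - c'| * a ≤ C * e ∧ ∀ k : ℤ, |k| ≤ (a : ℤ) →
        rho (F.f w (pt 0 k)) (F.f (w + α • e1) (pt 0 k)) ≤ C * e := by
  obtain ⟨C0, hC0, hpar⟩ := par_local K hK
  refine ⟨2 * C0, by linarith, ?_⟩
  intro F w a α e c c' hKe hlog hCe hα hc1 hc2 hc1' hc2' hG hG' hg1 hg2 hg3 hg4
  obtain ⟨hl8, -, h4⟩ := ash_log hlog
  have he0 : 0 ≤ e := by linarith
  have ha0 : (0 : ℝ) ≤ a := Nat.cast_nonneg a
  have hexp := ash_exp h4
  obtain ⟨c2, hc2a, hc2b, hG2⟩ := hg1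
  obtain ⟨c3, hc3a, hc3b, hG3⟩ := hg2
  obtain ⟨c4, hc4a, hc4b, hG4⟩ := hg3
  obtain ⟨c5, hc5a, hc5b, hG5⟩ := hg4
  have hCe' : C0 * e ≤ ((2 * a : ℕ) : ℝ) := by
    push_cast
    have : C0 * e ≤ 2 * C0 * e := by nlinarith
    linarith
  have hja : (a : ℝ) - ((2 * a : ℕ) : ℝ) = -(a : ℝ) := by push_cast; ring
  have hjb : -(a : ℝ) - ((2 * a : ℕ) : ℝ) = -(3 * (a : ℝ)) := by push_cast; ring
  have hH := ash_H a (-(a : ℝ) - ((2 * a : ℕ) : ℝ)) hjb
  have hh1 := ash_half hα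
  have hh2 := ash_half (a := a) (α := -α) (by rw [abs_neg]; exact hα)
  have hα2 : Real.exp a / 2 + -α / 2 = Real.exp a / 2 + α / 2 - α := by ring
  rw [hα2] at hh2
  have P1 := hpar F w 0 (a : ℝ) (2 * a) (Real.exp a / 2 + α / 2) (Real.exp (3 * a) / 2) e c c2 c3 c4
    hKe hl8 hCe' (by rw [hja]; linarith) (by rw [hja]; linarith) (by rw [hH]; linarith)
    (by rw [hH]; norm_num) hc1 hc2 hc2a hc2b hc3a hc3b hc4a hc4b (ash_GC hG).1 (ash_GC hG2).1
    (ash_GC hG3).1 (ash_GC hG4).1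
  have e1' : w + α • e1 + (Real.exp a / 2 + α / 2 - α) • e1 =
      w + (Real.exp a / 2 + α / 2) • e1 := by
    rw [add_assoc, ← add_smul]
    congr 2
    ring
  have P2 := hpar F (w + α • e1) 0 (a : ℝ) (2 * a) (Real.exp a / 2 + α / 2 - α)
    (Real.exp (3 * a) / 2) e c' c2 c5 c4
    hKe hl8 hCe' (by rw [hja]; linarith) (by rw [hja]; linarith) (by rw [hH]; linarith)
    (by rw [hH]; norm_num) hc1' hc2' hc2a hc2b hc5a hc5b hc4a hc4b (ash_GC hG').1
    (by rw [e1']; exact (ash_GC hG2).1) (ash_GC hG5).1 (by rw [e1']; exact (ash_GC hG4).1)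
  obtain ⟨p1, -, -, p2, -⟩ := P1
  obtain ⟨q1, -, -, q2, -⟩ := P2
  constructor
  · have h1 := abs_sub_le c c2 c'
    have h2 := abs_sub_comm c' c2
    push_cast at p1 q1
    have h3 := mul_le_mul_of_nonneg_right h1 ha0
    rw [h2] at q1
    nlinarith
  · intro k hk
    have hk' := abs_le.1 hk
    have h1 := p2 (k - a) (by push_cast; linarith) (by linarith)
    have h2 := q2 (k - a) (by push_cast; linarith) (by linarith)
    have h3 : (a : ℝ) + ((k - (a : ℤ) : ℤ) : ℝ) = k := by push_cast; ring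
    rw [h3] at h1 h2
    rw [e1'] at h2
    have h4 := rho_triangle (F.f w (pt 0 k)) (F.f (w + (Real.exp a / 2 + α / 2) • e1) (pt 0 k))
      (F.f (w + α • e1) (pt 0 k))
    rw [rho_comm] at h2
    linarith

theorem shift_ev (K : ℝ) (hK : 1 ≤ K) : ∃ C : ℝ, 1 ≤ C ∧
    ∀ (F : QM K) (w : V) (a : ℕ) (β e c c' : ℝ),
      K ≤ e → Real.log (100 * a + 100) ≤ e → C * e ≤ a → |β| ≤ Real.exp a / 2 →
      1 / (4 * K) ≤ c → c ≤ 2 * K → 1 / (4 * K) ≤ c' → c' ≤ 2 * K →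
      GC F w 0 0 (8 * a) c e → GC F (w + β • ev 0) 0 0 (8 * a) c' e →
      GG F (w + (Real.exp a / 2 + β / 2) • ev 0) 0 0 (8 * a) e →
      GG F (w + (Real.exp (3 * a) / 2) • e1) 0 0 (8 * a) e →
      GG F (w + (Real.exp a / 2 + β / 2) • ev 0 + (Real.exp (3 * a) / 2) • e1) 0 0 (8 * a) e →
      GG F (w + β • ev 0 + (Real.exp (3 * a) / 2) • e1) 0 0 (8 * a) e →
      |c - c'| * a ≤ C * e ∧ ∀ k : ℤ, |k| ≤ (a : ℤ) →
        rho (F.f w (pt 0 k)) (F.f (w + β • ev 0) (pt 0 k)) ≤ C * e := by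
  obtain ⟨C0, hC0, hpar⟩ := par_local K hK
  refine ⟨2 * C0, by linarith, ?_⟩
  intro F w a β e c c' hKe hlog hCe hβ hc1 hc2 hc1' hc2' hG hG' hg1 hg2 hg3 hg4
  obtain ⟨hl8, -, h4⟩ := ash_log hlog
  have he0 : 0 ≤ e := by linarith
  have ha0 : (0 : ℝ) ≤ a := Nat.cast_nonneg a
  have hexp := ash_exp h4
  obtain ⟨c2, hc2a, hc2b, hG2⟩ := hg1
  obtain ⟨c3, hc3a, hc3b, hG3⟩ := hg2
  obtain ⟨c4, hc4a, hc4b, hG4⟩ := hg3
  obtain ⟨c5, hc5a, hc5b, hG5⟩ := hg4
  have hCe' : C0 * e ≤ ((2 * a : ℕ) : ℝ) := by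
    push_cast
    have : C0 * e ≤ 2 * C0 * e := by nlinarith
    linarith
  have hja : -(-(a : ℝ)) - ((2 * a : ℕ) : ℝ) = -(a : ℝ) := by push_cast; ring
  have hjb : -(a : ℝ) - ((2 * a : ℕ) : ℝ) = -(3 * (a : ℝ)) := by push_cast; ring
  have hH := ash_H a (-(a : ℝ) - ((2 * a : ℕ) : ℝ)) hjb
  have hh1 := ash_half hβ
  have hh2 := ash_half (a := a) (α := -β) (by rw [abs_neg]; exact hβ)
  have hβ2 : Real.exp a / 2 + -β / 2 = Real.exp a / 2 + β / 2 - β := by ring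
  rw [hβ2] at hh2
  have e4 : w + (Real.exp (3 * a) / 2) • e1 + (Real.exp a / 2 + β / 2) • ev 0 =
      w + (Real.exp a / 2 + β / 2) • ev 0 + (Real.exp (3 * a) / 2) • e1 := by
    rw [add_right_comm]
  have P1 := hpar F w 0 (-(a : ℝ)) (2 * a) (Real.exp (3 * a) / 2) (Real.exp a / 2 + β / 2) e
    c c3 c2 c4 hKe hl8 hCe' (by rw [hH]; linarith)
    (by rw [hH]; norm_num) (by rw [hja]; linarith) (by rw [hja]; linarith)
    hc1 hc2 hc3a hc3b hc2a hc2b hc4a hc4b (ash_GC hG).2 (ash_GC hG3).2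
    (ash_GC hG2).2 (by rw [e4]; exact (ash_GC hG4).2)
  have e1' : w + β • ev 0 + (Real.exp a / 2 + β / 2 - β) • ev 0 =
      w + (Real.exp a / 2 + β / 2) • ev 0 := by
    rw [add_assoc, ← add_smul]
    congr 2
    ring
  have e5 : w + β • ev 0 + (Real.exp (3 * a) / 2) • e1 + (Real.exp a / 2 + β / 2 - β) • ev 0 =
      w + (Real.exp a / 2 + β / 2) • ev 0 + (Real.exp (3 * a) / 2) • e1 := by
    rw [add_right_comm, e1']
  have P2 := hpar F (w + β • ev 0) 0 (-(a : ℝ)) (2 * a) (Real.exp (3 * a) / 2)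
    (Real.exp a / 2 + β / 2 - β) e c' c5 c2 c4
    hKe hl8 hCe' (by rw [hH]; linarith)
    (by rw [hH]; norm_num) (by rw [hja]; linarith) (by rw [hja]; linarith)
    hc1' hc2' hc5a hc5b hc2a hc2b hc4a hc4b (ash_GC hG').2
    (ash_GC hG5).2 (by rw [e1']; exact (ash_GC hG2).2) (by rw [e5]; exact (ash_GC hG4).2)
  obtain ⟨-, p1, -, -, p2⟩ := P1
  obtain ⟨-, q1, -, -, q2⟩ := P2
  constructor
  · have h1 := abs_sub_le c c2 c'
    have h2 := abs_sub_comm c' c2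
    push_cast at p1 q1
    have h3 := mul_le_mul_of_nonneg_right h1 ha0
    rw [h2] at q1
    nlinarith
  · intro k hk
    have hk' := abs_le.1 hk
    have h1 := p2 (k + a) (by linarith) (by push_cast; linarith)
    have h2 := q2 (k + a) (by linarith) (by push_cast; linarith)
    have h3 : -(a : ℝ) + ((k + (a : ℤ) : ℤ) : ℝ) = k := by push_cast; ring
    rw [h3] at h1 h2
    rw [e1'] at h2
    have h4 := rho_triangle (F.f w (pt 0 k)) (F.f (w + (Real.exp a / 2 + β / 2) • ev 0) (pt 0 k))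
      (F.f (w + β • ev 0) (pt 0 k))
    rw [rho_comm] at h2
    linarith

private lemma ash_step {K : ℝ} (F : QM K) (w : V) (j j' : ℝ) (h : |j - j'| = 1) :
    nm (F.f w (pt 0 j)) (F.U w (pt 0 j') - F.U w (pt 0 j)) ≤ Real.exp (2 * K) := by
  have h1 := F.U_vert w 0 j j'
  rw [h, nm_sub_comm] at h1
  refine h1.trans (Real.exp_le_exp.2 ?_)
  linarith

/-- `upper2` for two sheets along the path `k ↦ j0 + σ k`, `σ = ± 1`. -/
private lemma ash_upper {K : ℝ} (hK : 1 ≤ K) (F : QM K) (s s' : V) (a : ℕ) (j0 σ e M : ℝ) (z : ℍ)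
    (hσ : |σ| = 1) (he : K ≤ e) (hn : Real.log (4 * (a : ℝ) + 4) ≤ e)
    (h0 : nm (pt 0 j0) (s - s') ≤ 1)
    (hM : ∀ k : ℕ, k ≤ a → rho z (F.f s (pt 0 (j0 + σ * k))) ≤ M)
    (hM' : ∀ k : ℕ, k ≤ a → rho z (F.f s' (pt 0 (j0 + σ * k))) ≤ M) :
    nm z (F.U s (pt 0 (j0 + σ * a)) - F.U s' (pt 0 (j0 + σ * a))) ≤ Real.exp (M + 8 * e) := by
  have hst : ∀ (v : V) (k : ℕ), nm (F.f v (pt 0 (j0 + σ * k)))
      (F.U v (pt 0 (j0 + σ * ((k + 1 : ℕ) : ℝ))) - F.U v (pt 0 (j0 + σ * k))) ≤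
        Real.exp (2 * K) := by
    intro v k
    apply ash_step
    push_cast
    rw [show j0 + σ * (k : ℝ) - (j0 + σ * ((k : ℝ) + 1)) = -σ by ring, abs_neg, hσ]
  have h1 := upper2 K hK (fun k => F.f s (pt 0 (j0 + σ * k))) (fun k => F.f s' (pt 0 (j0 + σ * k)))
    (fun k => F.U s (pt 0 (j0 + σ * k))) (fun k => F.U s' (pt 0 (j0 + σ * k))) a (2 * e) M z
    (by linarith) (by linarith) (fun k _ => hst s k) (fun k _ => hst s' k)
    (by
      have h2 := (near_sheet hK F s s' (pt 0 j0) h0).2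
      have h3 : j0 + σ * ((0 : ℕ) : ℝ) = j0 := by simp
      simp only [h3]
      exact h2.trans (Real.exp_le_exp.2 (by linarith)))
    hM hM'
  refine h1.trans (Real.exp_le_exp.2 ?_)
  linarith

private lemma ash_two_le {e : ℝ} (he : 1 ≤ e) : 2 ≤ Real.exp e := by
  have := Real.add_one_le_exp e
  linarith

theorem parallelogram (K : ℝ) (hK : 1 ≤ K) : ∃ C : ℝ, 1 ≤ C ∧
    ∀ (F : QM K) (w : V) (a : ℕ) (α β e c : ℝ),
      K ≤ e → Real.log (100 * a + 100) ≤ e → C * e ≤ a → |α| ≤ Real.exp a →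
      |β| ≤ Real.exp a → 1 / (4 * K) ≤ c → c ≤ 2 * K → GC F w 0 0 (8 * a) c e →
      (∀ k : ℤ, |k| ≤ (a : ℤ) →
        rho (F.f w (pt 0 k)) (F.f (w + α • e1) (pt 0 k)) ≤ e ∧
        rho (F.f w (pt 0 k)) (F.f (w + β • ev 0) (pt 0 k)) ≤ e ∧
        rho (F.f w (pt 0 k)) (F.f (w + α • e1 + β • ev 0) (pt 0 k)) ≤ e) →
      nm (F.f w o) (F.U (w + α • e1 + β • ev 0) o - F.U (w + β • ev 0) o -
        (F.U (w + α • e1) o - F.U w o)) ≤ Real.exp (C * e) := by
  refine ⟨16, by norm_num, ?_⟩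
  intro F w a α β e c hKe hlog _ hα hβ hc1 hc2 hG hcl
  obtain ⟨-, hl4, h4⟩ := ash_log hlog
  have he1 : 1 ≤ e := by linarith
  have ha0 : (0 : ℝ) ≤ a := Nat.cast_nonneg a
  have hc0 : 0 ≤ c := le_trans (by positivity) hc1
  have hpq : Real.exp (a : ℝ) * Real.exp (-(a : ℝ)) = 1 := by
    rw [← Real.exp_add]
    simp
  have hq := Real.exp_pos (-(a : ℝ))
  have hα1 : |α| * Real.exp (-(a : ℝ)) ≤ 1 := by
    have := mul_le_mul_of_nonneg_right hα hq.le
    linarith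
  have hβ1 : |β| * Real.exp (-(a : ℝ)) ≤ 1 := by
    have := mul_le_mul_of_nonneg_right hβ hq.le
    linarith
  -- distances in the base sheet
  have hGr : ∀ i i' : ℤ, |i| ≤ (a : ℤ) → |i'| ≤ (a : ℤ) →
      abs (rho (F.f w (pt 0 i)) (F.f w (pt 0 i')) - c * |(i : ℝ) - i'|) ≤ e := by
    intro i i' hi hi'
    have h1 := hG i i' (by push_cast; linarith [abs_nonneg i]) (by push_cast; linarith [abs_nonneg i'])
    simpa using h1
  -- the bound of the distances of all four sheets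
  have hall : ∀ (i0 : ℤ), |i0| = (a : ℤ) → ∀ i : ℤ, |i| ≤ (a : ℤ) → |(i0 : ℝ) - i| ≤ a →
      rho (F.f w (pt 0 i0)) (F.f w (pt 0 i)) ≤ c * a + 2 * e ∧
      rho (F.f w (pt 0 i0)) (F.f (w + α • e1) (pt 0 i)) ≤ c * a + 2 * e ∧
      rho (F.f w (pt 0 i0)) (F.f (w + β • ev 0) (pt 0 i)) ≤ c * a + 2 * e ∧
      rho (F.f w (pt 0 i0)) (F.f (w + α • e1 + β • ev 0) (pt 0 i)) ≤ c * a + 2 * e := by
    intro i0 hi0 i hi hd
    have h1 := (abs_le.1 (hGr i0 i hi0.le hi)).2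
    have h2 := mul_le_mul_of_nonneg_left hd hc0
    obtain ⟨k1, k2, k3⟩ := hcl i hi
    have t1 := rho_triangle (F.f w (pt 0 i0)) (F.f w (pt 0 i)) (F.f (w + α • e1) (pt 0 i))
    have t2 := rho_triangle (F.f w (pt 0 i0)) (F.f w (pt 0 i)) (F.f (w + β • ev 0) (pt 0 i))
    have t3 := rho_triangle (F.f w (pt 0 i0)) (F.f w (pt 0 i))
      (F.f (w + α • e1 + β • ev 0) (pt 0 i))
    refine ⟨by linarith, by linarith, by linarith, by linarith⟩
  -- the path from the top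
  have htop : ∀ k : ℕ, k ≤ a → ∃ i : ℤ, |i| ≤ (a : ℤ) ∧ |((-(a : ℤ) : ℤ) : ℝ) - i| ≤ a ∧
      (-(a : ℝ) + 1 * k) = (i : ℝ) := by
    intro k hk
    have hk' : (k : ℤ) ≤ a := by exact_mod_cast hk
    have hk2 : (k : ℝ) ≤ a := by exact_mod_cast hk
    have hk3 : (0 : ℝ) ≤ k := Nat.cast_nonneg k
    refine ⟨-(a : ℤ) + k, ?_, ?_, ?_⟩
    · rw [abs_le]
      constructor <;> linarith [(Int.natCast_nonneg a : (0 : ℤ) ≤ a), (Int.natCast_nonneg k : (0 : ℤ) ≤ k)]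
    · push_cast
      rw [abs_le]
      constructor <;> linarith
    · push_cast
      ring
  have hbot : ∀ k : ℕ, k ≤ a → ∃ i : ℤ, |i| ≤ (a : ℤ) ∧ |(((a : ℤ) : ℤ) : ℝ) - i| ≤ a ∧
      ((a : ℝ) + (-1) * k) = (i : ℝ) := by
    intro k hk
    have hk' : (k : ℤ) ≤ a := by exact_mod_cast hk
    have hk2 : (k : ℝ) ≤ a := by exact_mod_cast hk
    have hk3 : (0 : ℝ) ≤ k := Nat.cast_nonneg k
    refine ⟨(a : ℤ) - k, ?_, ?_, ?_⟩
    · rw [abs_le]
      constructor <;> linarith [(Int.natCast_nonneg a : (0 : ℤ) ≤ a), (Int.natCast_nonneg k : (0 : ℤ) ≤ k)]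
    · push_cast
      rw [abs_le]
      constructor <;> linarith
    · push_cast
      ring
  have hia : |(-(a : ℤ))| = (a : ℤ) := by rw [abs_neg, Nat.abs_cast]
  have hia' : |((a : ℤ))| = (a : ℤ) := Nat.abs_cast a
  have ho1 : pt 0 (-(a : ℝ) + 1 * (a : ℝ)) = o := by
    unfold o
    congr 1
    ring
  have ho2 : pt 0 ((a : ℝ) + (-1) * (a : ℝ)) = o := by
    unfold o
    congr 1
    ring
  have hz0 : ((-(a : ℤ) : ℤ) : ℝ) = -(a : ℝ) := by push_cast; ring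
  have hx0 : ((a : ℤ) : ℝ) = (a : ℝ) := by push_cast; ring
  -- the four vectors
  have A1 : nm (F.f w (pt 0 (-(a : ℤ) : ℤ))) (F.U (w + α • e1) o - F.U w o) ≤
      Real.exp (c * a + 2 * e + 8 * e) := by
    have h := ash_upper hK F (w + α • e1) w a (-(a : ℝ)) 1 e (c * a + 2 * e)
      (F.f w (pt 0 (-(a : ℤ) : ℤ))) (by norm_num) hKe hl4
      (by rw [add_sub_cancel_left, nm_pt_e1]; exact hα1)
      (fun k hk => by
        obtain ⟨i, h1, h2, h3⟩ := htop k hk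
        rw [h3]
        exact (hall _ hia i h1 h2).2.1)
      (fun k hk => by
        obtain ⟨i, h1, h2, h3⟩ := htop k hk
        rw [h3]
        exact (hall _ hia i h1 h2).1)
    rw [ho1] at h
    exact h
  have A2 : nm (F.f w (pt 0 (-(a : ℤ) : ℤ))) (F.U (w + α • e1 + β • ev 0) o -
      F.U (w + β • ev 0) o) ≤ Real.exp (c * a + 2 * e + 8 * e) := by
    have h := ash_upper hK F (w + α • e1 + β • ev 0) (w + β • ev 0) a (-(a : ℝ)) 1 e
      (c * a + 2 * e) (F.f w (pt 0 (-(a : ℤ) : ℤ))) (by norm_num) hKe hl4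
      (by
        rw [show w + α • e1 + β • ev 0 - (w + β • ev 0) = α • e1 by abel, nm_pt_e1]
        exact hα1)
      (fun k hk => by
        obtain ⟨i, h1, h2, h3⟩ := htop k hk
        rw [h3]
        exact (hall _ hia i h1 h2).2.2.2)
      (fun k hk => by
        obtain ⟨i, h1, h2, h3⟩ := htop k hk
        rw [h3]
        exact (hall _ hia i h1 h2).2.2.1)
    rw [ho1] at h
    exact h
  have B1 : nm (F.f w (pt 0 (a : ℤ))) (F.U (w + β • ev 0) o - F.U w o) ≤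
      Real.exp (c * a + 2 * e + 8 * e) := by
    have h := ash_upper hK F (w + β • ev 0) w a (a : ℝ) (-1) e (c * a + 2 * e)
      (F.f w (pt 0 (a : ℤ))) (by norm_num) hKe hl4
      (by rw [add_sub_cancel_left, nm_pt_ev]; exact hβ1)
      (fun k hk => by
        obtain ⟨i, h1, h2, h3⟩ := hbot k hk
        rw [h3]
        exact (hall _ hia' i h1 h2).2.2.1)
      (fun k hk => by
        obtain ⟨i, h1, h2, h3⟩ := hbot k hk
        rw [h3]
        exact (hall _ hia' i h1 h2).1)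
    rw [ho2] at h
    exact h
  have B2 : nm (F.f w (pt 0 (a : ℤ))) (F.U (w + α • e1 + β • ev 0) o -
      F.U (w + α • e1) o) ≤ Real.exp (c * a + 2 * e + 8 * e) := by
    have h := ash_upper hK F (w + α • e1 + β • ev 0) (w + α • e1) a (a : ℝ) (-1) e
      (c * a + 2 * e) (F.f w (pt 0 (a : ℤ))) (by norm_num) hKe hl4
      (by
        rw [show w + α • e1 + β • ev 0 - (w + α • e1) = β • ev 0 by abel, nm_pt_ev]
        exact hβ1)
      (fun k hk => by
        obtain ⟨i, h1, h2, h3⟩ := hbot k hk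
        rw [h3]
        exact (hall _ hia' i h1 h2).2.2.2)
      (fun k hk => by
        obtain ⟨i, h1, h2, h3⟩ := hbot k hk
        rw [h3]
        exact (hall _ hia' i h1 h2).2.1)
    rw [ho2] at h
    exact h
  set Z : V := F.U (w + α • e1 + β • ev 0) o - F.U (w + β • ev 0) o -
        (F.U (w + α • e1) o - F.U w o) with hZ
  have h2e := ash_two_le he1
  have hx2 : ∀ t : ℝ, t ≤ 2 * Real.exp (c * a + 2 * e + 8 * e) →
      t ≤ Real.exp (c * a + 11 * e) := by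
    intro t ht
    have : Real.exp (c * a + 11 * e) = Real.exp e * Real.exp (c * a + 2 * e + 8 * e) := by
      rw [← Real.exp_add]
      congr 1
      ring
    rw [this]
    refine ht.trans (mul_le_mul_of_nonneg_right h2e (Real.exp_pos _).le)
  have hZz : nm (F.f w (pt 0 (-(a : ℤ) : ℤ))) Z ≤ Real.exp (c * a + 11 * e) := by
    apply hx2
    have := nm_sub_le (F.f w (pt 0 (-(a : ℤ) : ℤ))) (F.U (w + α • e1 + β • ev 0) o -
      F.U (w + β • ev 0) o) (F.U (w + α • e1) o - F.U w o)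
    rw [← hZ] at this
    linarith
  have hZx : nm (F.f w (pt 0 (a : ℤ))) Z ≤ Real.exp (c * a + 11 * e) := by
    apply hx2
    have := nm_sub_le (F.f w (pt 0 (a : ℤ))) (F.U (w + α • e1 + β • ev 0) o -
      F.U (w + α • e1) o) (F.U (w + β • ev 0) o - F.U w o)
    have h3 : F.U (w + α • e1 + β • ev 0) o - F.U (w + α • e1) o -
      (F.U (w + β • ev 0) o - F.U w o) = Z := by
      rw [hZ]
      abel
    rw [h3] at this
    linarith
  have ho : o = pt 0 ((0 : ℤ) : ℝ) := by simp [o]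
  have r1 := abs_le.1 (hGr (a : ℤ) (-(a : ℤ)) hia'.le hia.le)
  have r2 := abs_le.1 (hGr (a : ℤ) 0 hia'.le (by simp))
  have r3 := abs_le.1 (hGr 0 (-(a : ℤ)) (by simp) hia.le)
  rw [← ho] at r2 r3
  have q1 : |((a : ℤ) : ℝ) - ((-(a : ℤ) : ℤ) : ℝ)| = 2 * a := by
    push_cast
    rw [abs_of_nonneg (by linarith)]
    ring
  have q2 : |((a : ℤ) : ℝ) - ((0 : ℤ) : ℝ)| = a := by
    push_cast
    rw [sub_zero, abs_of_nonneg ha0]
  have q3 : |((0 : ℤ) : ℝ) - ((-(a : ℤ) : ℤ) : ℝ)| = a := by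
    push_cast
    rw [abs_of_nonneg (by linarith)]
    ring
  rw [q1] at r1
  rw [q2] at r2
  rw [q3] at r3
  have h4e : 4 ≤ Real.exp (2 * e) := by
    have : Real.exp (2 * e) = Real.exp e * Real.exp e := by
      rw [← Real.exp_add]
      congr 1
      ring
    rw [this]
    nlinarith
  have hfin : ∀ R N : ℝ, 0 ≤ N → R ≤ c * a + e → N ≤ Real.exp (c * a + 11 * e) →
      Real.exp (rho (F.f w (pt 0 (a : ℤ))) (F.f w (pt 0 (-(a : ℤ) : ℤ)))) * nm (F.f w o) Z ≤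
        4 * (Real.exp R * N) → nm (F.f w o) Z ≤ Real.exp (16 * e) := by
    intro R N hN hR hNe h
    have k1 : 4 * (Real.exp R * N) ≤ Real.exp (2 * e) *
        (Real.exp (c * a + e) * Real.exp (c * a + 11 * e)) := by
      refine mul_le_mul h4e (mul_le_mul (Real.exp_le_exp.2 hR) hNe hN (Real.exp_pos _).le)
        (mul_nonneg (Real.exp_pos _).le hN) (Real.exp_pos _).le
    rw [← Real.exp_add, ← Real.exp_add] at k1
    have k2 : Real.exp (2 * c * a - e) * nm (F.f w o) Z ≤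
        Real.exp (2 * e + (c * a + e + (c * a + 11 * e))) := by
      refine le_trans (mul_le_mul_of_nonneg_right (Real.exp_le_exp.2 ?_) (nm_nonneg _ _))
        (h.trans k1)
      linarith [r1.1]
    have k3 : Real.exp (2 * e + (c * a + e + (c * a + 11 * e))) =
        Real.exp (2 * c * a - e) * Real.exp (15 * e) := by
      rw [← Real.exp_add]
      congr 1
      ring
    rw [k3] at k2
    have k4 := le_of_mul_le_mul_left k2 (Real.exp_pos _)
    refine k4.trans (Real.exp_le_exp.2 ?_)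
    linarith
  rcases four_vec_or (F.f w (pt 0 (a : ℤ))) (F.f w o) (F.f w (pt 0 (-(a : ℤ) : ℤ))) Z with h | h
  · exact hfin _ _ (nm_nonneg _ _) (by linarith [r2.2]) hZz h
  · exact hfin _ _ (nm_nonneg _ _) (by linarith [r3.2]) hZx h

theorem size_e1 (K : ℝ) (hK : 1 ≤ K) : ∃ C : ℝ, 1 ≤ C ∧
    ∀ (F : QM K) (w : V) (a : ℕ) (α e c : ℝ),
      K ≤ e → Real.log (100 * a + 100) ≤ e → C * e ≤ a → Real.exp (a - e) ≤ |α| →
      |α| ≤ Real.exp a → 1 / (4 * K) ≤ c → c ≤ 2 * K → GC F w 0 0 (8 * a) c e →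
      (∀ k : ℤ, |k| ≤ (a : ℤ) →
        rho (F.f w (pt 0 k)) (F.f (w + α • e1) (pt 0 k)) ≤ e) →
      Real.exp (c * a - C * e) ≤ nm (F.f w o) (F.U (w + α • e1) o - F.U w o) ∧
      nm (F.f w o) (F.U (w + α • e1) o - F.U w o) ≤ Real.exp (c * a + C * e) := by
  obtain ⟨C0, hC0, hgr⟩ := growth K hK
  refine ⟨2 * C0 + 1, by linarith, ?_⟩
  intro F w a α e c hKe hlog hCe hα hα' hc1 hc2 hG hcl
  obtain ⟨-, hl4, h4⟩ := ash_log hlog
  have he1 : 1 ≤ e := by linarith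
  have ha0 : (0 : ℝ) ≤ a := Nat.cast_nonneg a
  have hc0 : 0 ≤ c := le_trans (by positivity) hc1
  have hpq : Real.exp (a : ℝ) * Real.exp (-(a : ℝ)) = 1 := by
    rw [← Real.exp_add]
    simp
  have hα1 : |α| * Real.exp (-(a : ℝ)) ≤ 1 := by
    have := mul_le_mul_of_nonneg_right hα' (Real.exp_pos (-(a : ℝ))).le
    linarith
  have hidx : ∀ k : ℕ, k ≤ a → ∃ i : ℤ, |i| ≤ (a : ℤ) ∧ (-(a : ℝ) + k) = (i : ℝ) := by
    intro k hk
    have hk' : (k : ℤ) ≤ a := by exact_mod_cast hk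
    refine ⟨-(a : ℤ) + k, ?_, ?_⟩
    · rw [abs_le]
      constructor <;> linarith [(Int.natCast_nonneg a : (0 : ℤ) ≤ a), (Int.natCast_nonneg k : (0 : ℤ) ≤ k)]
    · push_cast
      ring
  have hst : ∀ (v : V) (k : ℕ), nm (F.f v (pt 0 (-(a : ℝ) + k)))
      (F.U v (pt 0 (-(a : ℝ) + ((k + 1 : ℕ) : ℝ))) - F.U v (pt 0 (-(a : ℝ) + k))) ≤
        Real.exp (2 * K) := by
    intro v k
    apply ash_step
    push_cast
    rw [show -(a : ℝ) + (k : ℝ) - (-(a : ℝ) + ((k : ℝ) + 1)) = -1 by ring, abs_neg, abs_one]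
  have hrr : ∀ k l : ℕ, k ≤ a → l ≤ a → abs (rho (F.f w (pt 0 (-(a : ℝ) + k)))
      (F.f w (pt 0 (-(a : ℝ) + l))) - c * |(k : ℝ) - l|) ≤ e := by
    intro k l hk hl
    obtain ⟨i, hi, hi'⟩ := hidx k hk
    obtain ⟨i2, hi2, hi2'⟩ := hidx l hl
    have h1 := hG i i2 (by push_cast; linarith [abs_nonneg i])
      (by push_cast; linarith [abs_nonneg i2])
    rw [hi', hi2']
    have h2 : (k : ℝ) - l = (i : ℝ) - i2 := by linarith
    rw [h2]
    simpa using h1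
  have hcc : ∀ k : ℕ, k ≤ a → rho (F.f w (pt 0 (-(a : ℝ) + k)))
      (F.f (w + α • e1) (pt 0 (-(a : ℝ) + k))) ≤ e := by
    intro k hk
    obtain ⟨i, hi, hi'⟩ := hidx k hk
    rw [hi']
    exact hcl i hi
  have h := hgr (fun k => F.f w (pt 0 (-(a : ℝ) + k))) (fun k => F.f (w + α • e1) (pt 0 (-(a : ℝ) + k)))
    (fun k => F.U w (pt 0 (-(a : ℝ) + k))) (fun k => F.U (w + α • e1) (pt 0 (-(a : ℝ) + k))) a c (2 * e)
    (by linarith) (by linarith) (by nlinarith) hc1 hc2 (fun k _ => hst w k)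
    (fun k _ => hst (w + α • e1) k)
    (by
      have h2 := (near_sheet hK F w (w + α • e1) (pt 0 (-(a : ℝ)))
        (by rw [nm_sub_comm, add_sub_cancel_left, nm_pt_e1]; exact hα1)).2
      have h3 : -(a : ℝ) + ((0 : ℕ) : ℝ) = -(a : ℝ) := by simp
      simp only [h3]
      exact h2.trans (Real.exp_le_exp.2 (by linarith)))
    (fun k hk => (hcc k hk).trans (by linarith))
    (fun k l hk hl => (hrr k l hk hl).trans (by linarith))
    (by
      intro k hk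
      have h2 := F.sep_fib w (w + α • e1) (pt 0 (-(a : ℝ) + k))
      rw [nm_sub_comm (pt 0 (-(a : ℝ) + k)), add_sub_cancel_left, nm_pt_e1] at h2
      have h3 : (k : ℝ) - e ≤ Real.log (1 + |α| * Real.exp (-(a : ℝ) + k)) := by
        have h5 : 0 ≤ |α| * Real.exp (-(a : ℝ) + k) := by positivity
        rw [Real.le_log_iff_exp_le (by linarith)]
        have h6 : Real.exp ((k : ℝ) - e) = Real.exp ((a : ℝ) - e) * Real.exp (-(a : ℝ) + k) := by
          rw [← Real.exp_add]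
          congr 1
          ring
        have h7 := mul_le_mul_of_nonneg_right hα (Real.exp_pos (-(a : ℝ) + k)).le
        rw [h6]
        linarith
      have h8 : e + K ≤ K * (2 * e) := by nlinarith
      linarith)
  obtain ⟨g1, -, g3⟩ := h
  have ho1 : pt 0 (-(a : ℝ) + (a : ℝ)) = o := by
    unfold o
    congr 1
    ring
  simp only [ho1] at g1 g3
  constructor
  · rw [nm_sub_comm]
    refine le_trans (Real.exp_le_exp.2 ?_) g1
    nlinarith
  · rw [nm_sub_comm]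
    refine (g3 (F.f w o) (c * a + e) ?_).trans (Real.exp_le_exp.2 ?_)
    · intro k hk
      have h1 := (abs_le.1 (hrr a k le_rfl hk)).2
      rw [ho1] at h1
      have h2 : (k : ℝ) ≤ a := by exact_mod_cast hk
      have h3 : (0 : ℝ) ≤ k := Nat.cast_nonneg k
      rw [abs_of_nonneg (by linarith)] at h1
      have h4 := mul_nonneg hc0 h3
      nlinarith
    · linarith

end Pool.Agent.FIB
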