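import Pool.Agent.FIB.Vec

/-!
# Part A: some more geometry

`branch_close`. Two points `x ∈ [q, P]`, `x' ∈ [q, P']` at the same distance (up to `e`) from `q`, not beyond the branch point of
`[q, P]` and `[q, P']`: `gp x P q ≥ rho q x - e` (as `gp q P x ≤ e`: `gp x P q = rho q x - gp q P x`), `gp P P' q ≥ rho q x - e`,
`gp P' x' q ≥ rho q x' - e`; `gp_min` twice: `gp x x' q ≥ rho q x - 2 e - 1`, and
`rho x x' = rho q x + rho q x' - 2 gp x x' q ≤ 6 e + 2`.

`upper2`. `W n = W 0 + Σ_{k<n} (U (k+1) - U k) - Σ_{k<n} (U' (k+1) - U' k)`, `inc_sum` twice;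
`(2n + 1) exp (M + 2K) ≤ exp (M + 4 e)`; `nm z (W 0) ≤ exp (rho z (p 0)) nm (p 0) (W 0)`.
-/

set_option autoImplicit false

namespace Pool.Agent.FIB

open UpperHalfPlane

theorem branch_close {q P P' x x' : ℍ} {e : ℝ} (hx : gp q P x ≤ e) (hx' : gp q P' x' ≤ e)
    (hd : |rho q x - rho q x'| ≤ e) (hb : rho q x - e ≤ gp P P' q) :
    rho x x' ≤ 7 * e + 2 := by
  have he : 0 ≤ e := (abs_nonneg _).trans hd
  rw [abs_le] at hd
  have h1 := gp_add_gp P q x
  have h2 := gp_add_gp P' q x'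
  rw [gp_comm P q x, gp_comm P x q] at h1
  rw [gp_comm P' q x'] at h2
  have h3 := gp_min x P P' q
  have h4 := gp_min x P' x' q
  have h5 : rho x x' = rho q x + rho q x' - 2 * gp x x' q := by
    unfold gp
    ring
  have h6 : rho q x - e - 1 / 2 ≤ gp x P' q := by
    rcases min_le_iff.1 h3 with h | h <;> linarith
  rcases min_le_iff.1 h4 with h | h <;> linarith [hd.1, hd.2]

theorem upper2 (K : ℝ) (hK : 1 ≤ K) (p p' : ℕ → ℍ) (U U' : ℕ → V) (n : ℕ) (e M : ℝ) (z : ℍ)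
    (he : K ≤ e) (hn : Real.log (4 * n + 4) ≤ e)
    (hU : ∀ k, k < n → nm (p k) (U (k + 1) - U k) ≤ Real.exp (2 * K))
    (hU' : ∀ k, k < n → nm (p' k) (U' (k + 1) - U' k) ≤ Real.exp (2 * K))
    (h0 : nm (p 0) (U 0 - U' 0) ≤ Real.exp e)
    (hM : ∀ k, k ≤ n → rho z (p k) ≤ M) (hM' : ∀ k, k ≤ n → rho z (p' k) ≤ M) :
    nm z (U n - U' n) ≤ Real.exp (M + 4 * e) := by
  have a1 := inc_sum p U 0 n (Real.exp (2 * K)) M z (Nat.zero_le n) (fun k _ hk => hU k hk)
    (fun k _ hk => hM k hk.le)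
  have a2 := inc_sum p' U' 0 n (Real.exp (2 * K)) M z (Nat.zero_le n) (fun k _ hk => hU' k hk)
    (fun k _ hk => hM' k hk.le)
  rw [Nat.cast_zero, sub_zero] at a1 a2
  have a3 := nm_le (p 0) z (U 0 - U' 0)
  have a4 := hM 0 (Nat.zero_le n)
  rw [rho_comm] at a4
  have a5 : nm z (U 0 - U' 0) ≤ Real.exp M * Real.exp e :=
    a3.trans (mul_le_mul (Real.exp_le_exp.2 a4) h0 (nm_nonneg _ _) (Real.exp_pos _).le)
  have a6 := nm_add_le z ((U n - U 0) - (U' n - U' 0)) (U 0 - U' 0)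
  have a7 : (U n - U 0) - (U' n - U' 0) + (U 0 - U' 0) = U n - U' n := by abel
  rw [a7] at a6
  have a8 := nm_sub_le z (U n - U 0) (U' n - U' 0)
  have a9 : 4 * (n : ℝ) + 4 ≤ Real.exp e :=
    (Real.log_le_iff_le_exp (by positivity)).1 hn
  have hn0 : (0 : ℝ) ≤ n := Nat.cast_nonneg n
  have a10 : Real.exp (2 * K) ≤ Real.exp (2 * e) := Real.exp_le_exp.2 (by linarith)
  have a11 : Real.exp e ≤ Real.exp (2 * e) := Real.exp_le_exp.2 (by linarith)
  have a12 : Real.exp (3 * e) ≤ Real.exp (4 * e) := Real.exp_le_exp.2 (by linarith)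
  have a13 : Real.exp (3 * e) = Real.exp e * Real.exp (2 * e) := by
    rw [← Real.exp_add]
    congr 1
    ring
  have a14 : Real.exp (M + 4 * e) = Real.exp M * Real.exp (4 * e) := Real.exp_add _ _
  have hM0 : 0 < Real.exp M := Real.exp_pos M
  have h2e : 0 < Real.exp (2 * e) := Real.exp_pos _
  have a15 : (2 * (n : ℝ) + 1) * Real.exp (2 * e) ≤ Real.exp (4 * e) := by
    refine le_trans ?_ a12
    rw [a13]
    exact mul_le_mul_of_nonneg_right (by linarith) h2e.le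
  have a16 : (n : ℝ) * (Real.exp (2 * K) * Real.exp M) ≤ n * (Real.exp (2 * e) * Real.exp M) :=
    mul_le_mul_of_nonneg_left (mul_le_mul_of_nonneg_right a10 hM0.le) hn0
  have a17 : Real.exp M * Real.exp e ≤ Real.exp M * Real.exp (2 * e) :=
    mul_le_mul_of_nonneg_left a11 hM0.le
  rw [a14]
  have a18 := mul_le_mul_of_nonneg_left a15 hM0.le
  linarith

end Pool.Agent.FIB
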