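import Pool.Agent.FIB.AInv

/-!
# Part A: the speed is `1` (A5)

`box (e^a/32)` has measure `e^{2a}/256`.

`maj_pos`: by `inv_local` (with `α = 0`) for every `u ∈ box (e^a/16)` the set of `v ∈ box (e^a/8)` with `rho (F.f v o) (F.f (v+u) o) > C e` has measure `≤ Cθ e^{2a}`. So
(Fubini; the set is measurable by `QM.measSet`; change of variables `(v, v') ↔ (v, u = v' - v)`) the set of pairs `(v, v') ∈ box (e^a/32)²` with `rho > C e` has measure `≤ C θ e^{4a}`; for some `v`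
its section has measure `≤ 256 C θ e^{2a}`: `t = F.f v o`.

`maj_psi`: same with the pairs for which `nm (F.f v o) (B(v', α) - B(v, α)) ≤ exp (C e)` fails; choose `v` in addition with `rho (F.f v o) t ≤ C e` (possible if `θ ≤ θ0`): `ψ = B(v, α)`,
`nm t x ≤ exp (C e) nm (F.f v o) x`.

`unit_local`. Let `E(α)` be the good set of `maj_psi`. (1) `0 < α ≤ e^a/128`: `E(α) ∩ (E(α) - α e1) ∩ E(2α)` is not empty (`box ∩ (box - α e1)` has at least 7/8 of the measure), and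
`B(v, 2α) = B(v, α) + B(v + α e1, α)`: `nm t (ψ(2α) - 2 ψ(α)) ≤ 3 exp (C e)`. With `α_0 = e^a/128`, `α_k = 2^{-k} α_0`:
`|nm t ψ(α_0) - 2^k nm t ψ(α_k)| ≤ 2^k * 3 exp (C e)` (induction).
(2) Upper bound: `k` with `1/2 < α_k ≤ 1`: `nm (F.f v o) B(v, α_k) ≤ exp (2K)` (`near_sheet`), so `nm t ψ(α_k) ≤ exp (C e)`, `nm t ψ(α_0) ≤ 2^k exp (C e) ≤ exp (a + C e)`.
(3) Lower bound: `k` with `λ ≤ log α_k ≤ λ + 1`, `λ = C1 e`: for some `v ∈ E(α_k)` also `rho (F.f v o) (F.f (v + α_k e1) o) ≤ C e` (`close_local`), so by `sep_fib`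
`λ ≤ log (1 + α_k) ≤ K (C e + log (1 + nm (F.f v o) B(v, α_k))) + K`: `nm t ψ(α_k) ≥ exp (λ/K - C e) ≥ 4 exp (C e)` (`C1` large), and `nm t ψ(α_0) ≥ 2^k exp (C e) ≥ α_0/α_k ≥ exp (a - 5 - λ - 1)`.
(4) For most `v ∈ E(α_0)` (`close_local`) `size_e1` applies with `α = α_0` (`log α_0 ≥ a - 5 ≥ a - e`), with the speed `c` of the window of `v`: `exp (c a - C e) ≤ nm (F.f v o) B(v, α_0) ≤ exp (c a + C e)`,
and `nm t (B(v,α_0) - ψ(α_0)) ≤ exp (C e)`. So `|c a - a| ≤ C e` (for the lower bound of `c a`: `exp (a - C e) ≤ nm t ψ ≤ exp(c a + C e) + exp (C e)`, and `c a ≥ 0`).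
-/

set_option autoImplicit false

namespace Pool.Agent.FIB

open UpperHalfPlane MeasureTheory Set

private lemma AUnit_volbox {M : ℝ} (hM : 0 ≤ M) :
    volume (box M) = ENNReal.ofReal (4 * M ^ 2) := by
  unfold box
  rw [Measure.volume_eq_prod, Measure.prod_prod, Real.volume_Icc,
    ← ENNReal.ofReal_mul (by linarith)]
  congr 1
  ring

private lemma AUnit_measbox (M : ℝ) : MeasurableSet (box M) :=
  measurableSet_Icc.prod measurableSet_Icc

private lemma AUnit_mem_box {M : ℝ} {v : V} : v ∈ box M ↔ |v.1| ≤ M ∧ |v.2| ≤ M := by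
  unfold box
  rw [Set.mem_prod, Set.mem_Icc, Set.mem_Icc, abs_le, abs_le]

private lemma AUnit_sect {M M' ε : ℝ} (hM : 0 < M) (hMM : M ≤ M') (hε : 0 ≤ ε) (P : Set (V × V))
    (hP : MeasurableSet P)
    (h : ∀ u ∈ box (2 * M), volume {v : V | v ∈ box M' ∧ (v, v + u) ∉ P} ≤ ENNReal.ofReal ε)
    (G : Set V) (hGM : G ⊆ box M) (hGv : ENNReal.ofReal (2 * M ^ 2) ≤ volume G) :
    ∃ v ∈ G, volume {v' : V | v' ∈ box M ∧ (v, v') ∉ P} ≤ ENNReal.ofReal (8 * ε) := by
  set S : Set (V × V) := {q : V × V | q.1 ∈ box M ∧ q.2 ∈ box M ∧ q ∉ P} with hSdef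
  have hS : MeasurableSet S :=
    (measurable_fst (AUnit_measbox M)).inter ((measurable_snd (AUnit_measbox M)).inter hP.compl)
  have hM2 : (0 : ℝ) < M ^ 2 := by positivity
  -- the measure of `S`
  have hmap : Measurable fun q : V × V => (q.2, q.2 + q.1) :=
    measurable_snd.prodMk (measurable_snd.add measurable_fst)
  have hT' : MeasurableSet {q : V × V | q.2 ∈ box M' ∧ (q.2, q.2 + q.1) ∉ P} :=
    (measurable_snd (AUnit_measbox M')).inter (hmap hP.compl)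
  have h1 := fiber_le (α := V) (β := V) hT' (AUnit_measbox (2 * M)) (ε := ε) h
  have h2 : volume S ≤ ENNReal.ofReal ε * volume (box (2 * M)) := by
    refine le_trans ?_ h1
    have mp : MeasurePreserving (fun q : V × V => (q.2, q.2 + q.1)) (volume.prod volume)
        (volume.prod volume) := measurePreserving_prod_add_swap (volume : Measure V) volume
    have h3 : (volume : Measure (V × V)) ((fun q : V × V => (q.2, q.2 + q.1)) ⁻¹' S) = volume S :=
      mp.measure_preimage hS.nullMeasurableSet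
    rw [← h3]
    refine measure_mono ?_
    rintro ⟨u, v⟩ ⟨ha, hb, hc⟩
    have ha' : v ∈ box M := ha
    have hb' : v + u ∈ box M := hb
    have hc' : (v, v + u) ∉ P := hc
    rw [AUnit_mem_box] at ha' hb'
    refine ⟨?_, ?_, hc'⟩
    · rw [AUnit_mem_box]
      simp only [Prod.fst_add, Prod.snd_add] at hb'
      obtain ⟨a1, a2⟩ := ha'
      obtain ⟨b1, b2⟩ := hb'
      rw [abs_le] at a1 a2 b1 b2
      constructor <;> rw [abs_le] <;> constructor <;> simp only <;> linarith [a1.1, a1.2, a2.1, a2.2, b1.1, b1.2, b2.1, b2.2]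
    · change v ∈ box M'
      rw [AUnit_mem_box]
      exact ⟨ha'.1.trans hMM, ha'.2.trans hMM⟩
  rw [AUnit_volbox (by linarith), ← ENNReal.ofReal_mul hε] at h2
  -- the average
  have hG0 : volume G ≠ 0 := by
    intro h0
    rw [h0] at hGv
    have := ENNReal.ofReal_eq_zero.1 (le_antisymm hGv bot_le)
    linarith
  have hGtop : volume G ≠ ⊤ := by
    have h5 : volume G ≤ volume (box M) := measure_mono hGM
    rw [AUnit_volbox hM.le] at h5
    exact ne_top_of_le_ne_top ENNReal.ofReal_ne_top h5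
  have hf : Measurable fun v : V => volume {v' : V | (v, v') ∈ S} :=
    measurable_measure_prodMk_left hS
  obtain ⟨v, hv, hle⟩ := exists_le_setLAverage (μ := (volume : Measure V)) hG0 hGtop
    hf.aemeasurable
  refine ⟨v, hv, ?_⟩
  have hvM : v ∈ box M := hGM hv
  have h6 : {v' : V | v' ∈ box M ∧ (v, v') ∉ P} = {v' : V | (v, v') ∈ S} := by
    ext v'
    constructor
    · rintro ⟨x1, x2⟩
      exact ⟨hvM, x1, x2⟩
    · rintro ⟨-, x1, x2⟩
      exact ⟨x1, x2⟩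
  rw [h6]
  refine hle.trans ?_
  rw [setLAverage_eq]
  have h7 : ∫⁻ a in G, volume {v' : V | (a, v') ∈ S} ≤ volume S := by
    refine (setLIntegral_le_lintegral G _).trans ?_
    exact (Measure.prod_apply hS).ge
  refine ENNReal.div_le_of_le_mul ?_
  refine (h7.trans h2).trans ?_
  have h8 : ENNReal.ofReal (ε * (4 * (2 * M) ^ 2)) =
      ENNReal.ofReal (8 * ε) * ENNReal.ofReal (2 * M ^ 2) := by
    rw [← ENNReal.ofReal_mul (by linarith)]
    congr 1
    ring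
  rw [h8]
  gcongr

private lemma AUnit_measP {K : ℝ} (F : QM K) (α A B : ℝ) :
    MeasurableSet {q : V × V | nm (F.f q.1 o) (Bv F q.2 α - Bv F q.1 α) ≤ A ∧
      rho (F.f q.1 o) (F.f q.2 o) ≤ B} := by
  have h := F.measSet (Ω := V × V) (ι := Fin 4)
    (fun i q => if i = 0 then q.1 else if i = 1 then q.1 + α • e1 else if i = 2 then q.2 else
      q.2 + α • e1) (fun _ _ => o)
    (by
      intro i
      by_cases h0 : i = 0
      · simp only [h0, if_true]; exact measurable_fst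
      by_cases h1 : i = 1
      · simp only [h0, h1, if_false, if_true]
        exact measurable_fst.add_const _
      by_cases h2 : i = 2
      · simp only [h0, h1, h2, if_false, if_true]; exact measurable_snd
      · simp only [h0, h1, h2, if_false]; exact measurable_snd.add_const _)
    (fun _ => measurable_const)
    (fun g => nm (g 0).2 ((g 3).1 - (g 2).1 - ((g 1).1 - (g 0).1)) ≤ A ∧
      rho (g 0).2 (g 2).2 ≤ B)
  exact h

private lemma AUnit_measQ {K : ℝ} (F : QM K) (t : ℍ) (B : ℝ) :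
    MeasurableSet {v : V | rho (F.f v o) t ≤ B} := by
  have h := F.measSet (Ω := V) (ι := Unit) (fun _ q => q) (fun _ _ => o) (fun _ => measurable_id)
    (fun _ => measurable_const) (fun g => rho (g ()).2 t ≤ B)
  exact h

private lemma AUnit_exp_sq (a : ℕ) : Real.exp a ^ 2 = Real.exp (2 * a) := by
  rw [← Real.exp_nat_mul]
  norm_num

theorem maj_pos (K : ℝ) (hK : 1 ≤ K) : ∃ C : ℝ, 1 ≤ C ∧
    ∀ (F : QM K) (a : ℕ) (e θ : ℝ), K ≤ e → Real.log (100 * a + 100) ≤ e → C * e ≤ a → 0 ≤ θ →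
      Dens F a e θ → ∃ t : ℍ,
        volume {v : V | v ∈ box (Real.exp a / 32) ∧ ¬ rho (F.f v o) t ≤ C * e} ≤
          ENNReal.ofReal (C * θ * Real.exp (2 * a)) := by
  obtain ⟨C1, hC1, H1⟩ := inv_local K hK
  refine ⟨8 * C1, by linarith, ?_⟩
  intro F a e θ hKe hlog hCe hθ hD
  have he : 1 ≤ e := hK.trans hKe
  have hC1e : 0 ≤ C1 * e := by positivity
  have hexp : 0 < Real.exp (a : ℝ) := Real.exp_pos _
  have hexp2 : 0 < Real.exp (2 * (a : ℝ)) := Real.exp_pos _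
  obtain ⟨v, -, hv⟩ := AUnit_sect (M := Real.exp a / 32) (M' := Real.exp a / 8)
    (ε := C1 * θ * Real.exp (2 * a)) (by positivity) (by linarith) (by positivity)
    {q : V × V | nm (F.f q.1 o) (Bv F q.2 0 - Bv F q.1 0) ≤ Real.exp (C1 * e) ∧
      rho (F.f q.1 o) (F.f q.2 o) ≤ C1 * e} (AUnit_measP F 0 _ _)
    (fun u hu => H1 F a e θ hKe hlog (by linarith) hθ hD 0 u (by rw [abs_zero]; positivity) (by
      have : Real.exp (a : ℝ) / 16 = 2 * (Real.exp a / 32) := by ring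
      rw [this]
      exact hu)) (box (Real.exp a / 32)) subset_rfl (by
        rw [AUnit_volbox (by positivity)]
        exact ENNReal.ofReal_le_ofReal (by nlinarith [sq_nonneg (Real.exp (a : ℝ) / 32)]))
  refine ⟨F.f v o, ?_⟩
  refine (measure_mono ?_).trans (hv.trans (le_of_eq ?_))
  · rintro v' ⟨h1, h2⟩
    refine ⟨h1, ?_⟩
    rintro ⟨-, h3⟩
    apply h2
    have h4 : rho (F.f v o) (F.f v' o) ≤ C1 * e := h3
    rw [rho_comm]
    linarith
  · congr 1
    ring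

theorem maj_psi (K : ℝ) (hK : 1 ≤ K) : ∃ C θ0 : ℝ, 1 ≤ C ∧ 0 < θ0 ∧
    ∀ (F : QM K) (a : ℕ) (e θ : ℝ), K ≤ e → Real.log (100 * a + 100) ≤ e → C * e ≤ a → 0 ≤ θ →
      θ ≤ θ0 → Dens F a e θ → ∃ t : ℍ, ∀ α : ℝ, |α| ≤ Real.exp a / 8 → ∃ ψ : V,
        volume {v : V | v ∈ box (Real.exp a / 32) ∧
          ¬ (nm t (Bv F v α - ψ) ≤ Real.exp (C * e) ∧ rho (F.f v o) t ≤ C * e)} ≤
          ENNReal.ofReal (C * θ * Real.exp (2 * a)) := by
  obtain ⟨C1, hC1, H1⟩ := inv_local K hK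
  obtain ⟨C2, hC2, H2⟩ := maj_pos K hK
  refine ⟨8 * C1 + C2, 1 / (512 * C2), by linarith, by positivity, ?_⟩
  intro F a e θ hKe hlog hCe hθ hθ0 hD
  have he : 1 ≤ e := hK.trans hKe
  have hC1e : 0 ≤ C1 * e := by positivity
  have hC2e : 0 ≤ C2 * e := by positivity
  have hexp : 0 < Real.exp (a : ℝ) := Real.exp_pos _
  have hexp2 : 0 < Real.exp (2 * (a : ℝ)) := Real.exp_pos _
  obtain ⟨t, ht⟩ := H2 F a e θ hKe hlog (by nlinarith) hθ hD
  refine ⟨t, ?_⟩
  intro α hα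
  -- the good set
  set G : Set V := {v : V | v ∈ box (Real.exp a / 32) ∧ rho (F.f v o) t ≤ C2 * e} with hG
  have hGv : ENNReal.ofReal (2 * (Real.exp (a : ℝ) / 32) ^ 2) ≤ volume G := by
    have h1 : volume (box (Real.exp (a : ℝ) / 32)) ≤ volume G +
        volume {v : V | v ∈ box (Real.exp a / 32) ∧ ¬ rho (F.f v o) t ≤ C2 * e} := by
      refine (measure_mono ?_).trans (measure_union_le _ _)
      intro v hv
      by_cases hr : rho (F.f v o) t ≤ C2 * e
      · exact Or.inl ⟨hv, hr⟩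
      · exact Or.inr ⟨hv, hr⟩
    rw [AUnit_volbox (by positivity)] at h1
    have h2 : C2 * θ * Real.exp (2 * (a : ℝ)) ≤ 2 * (Real.exp (a : ℝ) / 32) ^ 2 := by
      have h3 : C2 * θ ≤ 1 / 512 := by
        have h4 := mul_le_mul_of_nonneg_left hθ0 (by linarith : (0 : ℝ) ≤ C2)
        have h5 : C2 * (1 / (512 * C2)) = 1 / 512 := by
          field_simp
        linarith
      have h6 : 2 * (Real.exp (a : ℝ) / 32) ^ 2 = 1 / 512 * Real.exp (2 * a) := by
        rw [div_pow, AUnit_exp_sq]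
        ring
      rw [h6]
      exact mul_le_mul_of_nonneg_right h3 hexp2.le
    have h7 := ht.trans (ENNReal.ofReal_le_ofReal h2)
    have h8 : ENNReal.ofReal (4 * (Real.exp (a : ℝ) / 32) ^ 2) =
        ENNReal.ofReal (2 * (Real.exp (a : ℝ) / 32) ^ 2) +
        ENNReal.ofReal (2 * (Real.exp (a : ℝ) / 32) ^ 2) := by
      rw [← ENNReal.ofReal_add (by positivity) (by positivity)]
      congr 1
      ring
    rw [h8] at h1
    exact (ENNReal.add_le_add_iff_right ENNReal.ofReal_ne_top).1 (h1.trans (by gcongr))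
  obtain ⟨v, hvG, hv⟩ := AUnit_sect (M := Real.exp a / 32) (M' := Real.exp a / 8)
    (ε := C1 * θ * Real.exp (2 * a)) (by positivity) (by linarith) (by positivity)
    {q : V × V | nm (F.f q.1 o) (Bv F q.2 α - Bv F q.1 α) ≤ Real.exp (C1 * e) ∧
      rho (F.f q.1 o) (F.f q.2 o) ≤ C1 * e} (AUnit_measP F α _ _)
    (fun u hu => H1 F a e θ hKe hlog (by nlinarith) hθ hD α u hα (by
      have : Real.exp (a : ℝ) / 16 = 2 * (Real.exp a / 32) := by ring
      rw [this]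
      exact hu)) G (fun v hv => hv.1) hGv
  refine ⟨Bv F v α, ?_⟩
  have hsub : {v' : V | v' ∈ box (Real.exp a / 32) ∧
      ¬ (nm t (Bv F v' α - Bv F v α) ≤ Real.exp ((8 * C1 + C2) * e) ∧
        rho (F.f v' o) t ≤ (8 * C1 + C2) * e)} ⊆
      {v' : V | v' ∈ box (Real.exp a / 32) ∧ (v, v') ∉ {q : V × V |
        nm (F.f q.1 o) (Bv F q.2 α - Bv F q.1 α) ≤ Real.exp (C1 * e) ∧
        rho (F.f q.1 o) (F.f q.2 o) ≤ C1 * e}} ∪
      {v' : V | v' ∈ box (Real.exp a / 32) ∧ ¬ rho (F.f v' o) t ≤ C2 * e} := by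
    rintro v' ⟨h1, h2⟩
    by_contra h3
    rw [Set.mem_union, not_or] at h3
    obtain ⟨h3, h4⟩ := h3
    have h5 : rho (F.f v' o) t ≤ C2 * e := by
      by_contra h5
      exact h4 ⟨h1, h5⟩
    have h6 : nm (F.f v o) (Bv F v' α - Bv F v α) ≤ Real.exp (C1 * e) ∧
        rho (F.f v o) (F.f v' o) ≤ C1 * e := by
      by_contra h6
      exact h3 ⟨h1, h6⟩
    apply h2
    refine ⟨?_, by nlinarith⟩
    have h7 := nm_le (F.f v o) t (Bv F v' α - Bv F v α)
    have h8 : Real.exp (rho (F.f v o) t) ≤ Real.exp (C2 * e) := Real.exp_le_exp.2 hvG.2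
    calc nm t (Bv F v' α - Bv F v α) ≤ Real.exp (rho (F.f v o) t) *
        nm (F.f v o) (Bv F v' α - Bv F v α) := h7
      _ ≤ Real.exp (C2 * e) * Real.exp (C1 * e) :=
        mul_le_mul h8 h6.1 (nm_nonneg _ _) (Real.exp_pos _).le
      _ = Real.exp (C2 * e + C1 * e) := (Real.exp_add _ _).symm
      _ ≤ Real.exp ((8 * C1 + C2) * e) := Real.exp_le_exp.2 (by nlinarith)
  refine ((measure_mono hsub).trans (measure_union_le _ _)).trans ?_
  refine (add_le_add hv ht).trans (le_of_eq ?_)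
  rw [← ENNReal.ofReal_add (by positivity) (by positivity)]
  congr 1
  ring

private lemma AUnit_exists {a : ℕ} {ε : ℝ} (hε : 0 ≤ ε)
    (h : 3 * ε < Real.exp (2 * a) / 1024) (S1 S2 S3 : Set V)
    (h1 : volume S1 ≤ ENNReal.ofReal ε) (h2 : volume S2 ≤ ENNReal.ofReal ε)
    (h3 : volume S3 ≤ ENNReal.ofReal ε) :
    ∃ v ∈ box (Real.exp a / 64), v ∉ S1 ∧ v ∉ S2 ∧ v ∉ S3 := by
  by_contra hcon
  push Not at hcon
  have hsub : box (Real.exp (a : ℝ) / 64) ⊆ S1 ∪ S2 ∪ S3 := by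
    intro v hv
    by_cases hv1 : v ∈ S1
    · exact Or.inl (Or.inl hv1)
    by_cases hv2 : v ∈ S2
    · exact Or.inl (Or.inr hv2)
    · exact Or.inr (hcon v hv hv1 hv2)
  have hexp : 0 < Real.exp (a : ℝ) := Real.exp_pos _
  have h4 : volume (box (Real.exp (a : ℝ) / 64)) ≤
      ENNReal.ofReal ε + ENNReal.ofReal ε + ENNReal.ofReal ε :=
    ((measure_mono hsub).trans (measure_union_le _ _)).trans
      (add_le_add ((measure_union_le _ _).trans (add_le_add h1 h2)) h3)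
  rw [AUnit_volbox (by positivity), ← ENNReal.ofReal_add hε hε,
    ← ENNReal.ofReal_add (by linarith) hε,
    ENNReal.ofReal_le_ofReal_iff (by linarith)] at h4
  have h5 : 4 * (Real.exp (a : ℝ) / 64) ^ 2 = Real.exp (2 * a) / 1024 := by
    rw [div_pow, AUnit_exp_sq]
    ring
  linarith

private lemma AUnit_Bv_add {K : ℝ} (F : QM K) (v : V) (α : ℝ) :
    Bv F v (2 * α) = Bv F (v + α • e1) α + Bv F v α := by
  unfold Bv
  have h : v + (2 * α) • e1 = v + α • e1 + α • e1 := by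
    rw [two_mul, add_smul, add_assoc]
  rw [h]
  abel

/-- Telescoping. -/
private lemma AUnit_tele (N : ℕ → ℝ) (D : ℝ) (h : ∀ k, |N k - 2 * N (k + 1)| ≤ D) (k : ℕ) :
    |N 0 - 2 ^ k * N k| ≤ (2 ^ k - 1) * D := by
  induction k with
  | zero => simp
  | succ k ih =>
    have h2 := h k
    have h3 : (0 : ℝ) < 2 ^ k := by positivity
    have h4 : |2 ^ k * (N k - 2 * N (k + 1))| ≤ 2 ^ k * D := by
      rw [abs_mul, abs_of_pos h3]
      exact mul_le_mul_of_nonneg_left h2 h3.le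
    rw [abs_le] at ih h4 ⊢
    rw [pow_succ]
    constructor <;> nlinarith [ih.1, ih.2, h4.1, h4.2]

private lemma AUnit_nm_abs (x : ℍ) (u v : V) : |nm x u - nm x v| ≤ nm x (u - v) := by
  rw [abs_le]
  have h1 := nm_add_le x (u - v) v
  rw [sub_add_cancel] at h1
  have h2 := nm_add_le x (v - u) u
  rw [sub_add_cancel, nm_sub_comm] at h2
  constructor <;> linarith

private lemma AUnit_nm_o (v : V) (α : ℝ) : nm o (v - (v + α • e1)) = |α| := by
  have h : v - (v + α • e1) = -(α • e1) := by abel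
  rw [h, nm_neg]
  have h1 := nm_pt_e1 0 0 α
  rw [Real.exp_zero, mul_one] at h1
  exact h1

/-- The hypotheses on `t` and `ψ`. -/
private def AUnit_H {K : ℝ} (F : QM K) (a : ℕ) (e C1 ε : ℝ) (t : ℍ) (ψ : ℝ → V) : Prop :=
  ∀ α : ℝ, |α| ≤ Real.exp a / 8 → volume {v : V | v ∈ box (Real.exp a / 32) ∧
    ¬ (nm t (Bv F v α - ψ α) ≤ Real.exp (C1 * e) ∧ rho (F.f v o) t ≤ C1 * e)} ≤
      ENNReal.ofReal ε

private lemma AUnit_double {K : ℝ} (F : QM K) {a : ℕ} {e C1 ε : ℝ} {t : ℍ} {ψ : ℝ → V}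
    (hε : 0 ≤ ε) (hs : 3 * ε < Real.exp (2 * a) / 1024) (H : AUnit_H F a e C1 ε t ψ)
    (α : ℝ) (h0 : 0 < α) (h1 : α ≤ Real.exp a / 128) :
    |nm t (ψ (2 * α)) - 2 * nm t (ψ α)| ≤ 3 * Real.exp (C1 * e) := by
  have hexp : 0 < Real.exp (a : ℝ) := Real.exp_pos _
  have hA := H α (by rw [abs_of_pos h0]; linarith)
  have hB := H (2 * α) (by rw [abs_of_pos (by linarith)]; linarith)
  set S : Set V := {v : V | v ∈ box (Real.exp a / 32) ∧
    ¬ (nm t (Bv F v α - ψ α) ≤ Real.exp (C1 * e) ∧ rho (F.f v o) t ≤ C1 * e)} with hS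
  have hA' : volume {v : V | α • e1 + v ∈ S} ≤ ENNReal.ofReal ε := by
    rw [shiftV_le]
    exact hA
  obtain ⟨v, hv, v1, v2, v3⟩ := AUnit_exists hε hs _ _ _ hA hA' hB
  rw [AUnit_mem_box] at hv
  have hvb : v ∈ box (Real.exp (a : ℝ) / 32) := by
    rw [AUnit_mem_box]
    exact ⟨by linarith [hv.1], by linarith [hv.2]⟩
  have hvb' : α • e1 + v ∈ box (Real.exp (a : ℝ) / 32) := by
    rw [AUnit_mem_box]
    have e2 : (α • e1 + v).1 = α + v.1 := by simp [e1]
    have e3 : (α • e1 + v).2 = v.2 := by simp [e1]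
    rw [e2, e3]
    obtain ⟨a1, a2⟩ := hv
    refine ⟨?_, by linarith⟩
    rw [abs_le] at a1 ⊢
    constructor <;> linarith [a1.1, a1.2]
  have E1 : nm t (Bv F v α - ψ α) ≤ Real.exp (C1 * e) := by
    by_contra hc
    exact v1 ⟨hvb, fun h => hc h.1⟩
  have E2 : nm t (Bv F (v + α • e1) α - ψ α) ≤ Real.exp (C1 * e) := by
    by_contra hc
    refine v2 ⟨hvb', fun h => hc ?_⟩
    rw [add_comm v]
    exact h.1
  have E3 : nm t (Bv F v (2 * α) - ψ (2 * α)) ≤ Real.exp (C1 * e) := by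
    by_contra hc
    exact v3 ⟨hvb, fun h => hc h.1⟩
  have h2 : nm t (ψ (2 * α) - (2 : ℝ) • ψ α) ≤ 3 * Real.exp (C1 * e) := by
    have h3 : ψ (2 * α) - (2 : ℝ) • ψ α = (ψ (2 * α) - Bv F v (2 * α)) +
        ((Bv F (v + α • e1) α - ψ α) + (Bv F v α - ψ α)) := by
      rw [AUnit_Bv_add, two_smul]
      abel
    rw [h3]
    have h4 := nm_add_le t (ψ (2 * α) - Bv F v (2 * α))
      ((Bv F (v + α • e1) α - ψ α) + (Bv F v α - ψ α))
    have h5 := nm_add_le t (Bv F (v + α • e1) α - ψ α) (Bv F v α - ψ α)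
    rw [nm_sub_comm] at E3
    linarith
  have h6 := AUnit_nm_abs t (ψ (2 * α)) ((2 : ℝ) • ψ α)
  rw [nm_smul, abs_of_pos (by norm_num : (0 : ℝ) < 2)] at h6
  exact h6.trans h2

private lemma AUnit_tele' {K : ℝ} (F : QM K) {a : ℕ} {e C1 ε : ℝ} {t : ℍ} {ψ : ℝ → V}
    (hε : 0 ≤ ε) (hs : 3 * ε < Real.exp (2 * a) / 1024) (H : AUnit_H F a e C1 ε t ψ) (k : ℕ) :
    |nm t (ψ (Real.exp a / 128)) - 2 ^ k * nm t (ψ (Real.exp a / 128 / 2 ^ k))| ≤
      (2 ^ k - 1) * (3 * Real.exp (C1 * e)) := by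
  have h := AUnit_tele (fun k => nm t (ψ (Real.exp a / 128 / 2 ^ k))) (3 * Real.exp (C1 * e))
    (by
      intro k
      have hexp : 0 < Real.exp (a : ℝ) := Real.exp_pos _
      have h1 := AUnit_double F hε hs H (Real.exp a / 128 / 2 ^ (k + 1)) (by positivity)
        (div_le_self (by positivity) (one_le_pow₀ (by norm_num)))
      have h2 : 2 * (Real.exp (a : ℝ) / 128 / 2 ^ (k + 1)) = Real.exp a / 128 / 2 ^ k := by
        rw [pow_succ]
        field_simp
      rw [h2] at h1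
      exact h1) k
  simp only [pow_zero, div_one] at h
  exact h

private lemma AUnit_128 : (128 : ℝ) ≤ Real.exp 5 := by
  have h := Real.exp_one_gt_d9
  have h1 : Real.exp 5 = Real.exp 1 ^ 5 := by
    rw [← Real.exp_nat_mul]; norm_num
  rw [h1]
  have h2 : (2.7 : ℝ) ^ 5 ≤ Real.exp 1 ^ 5 := pow_le_pow_left₀ (by norm_num) (by linarith) 5
  refine le_trans (by norm_num) h2

private lemma AUnit_256 : (256 : ℝ) ≤ Real.exp 6 := by
  have h := Real.exp_one_gt_d9
  have h1 : Real.exp 6 = Real.exp 1 ^ 6 := by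
    rw [← Real.exp_nat_mul]; norm_num
  rw [h1]
  have h2 : (2.7 : ℝ) ^ 6 ≤ Real.exp 1 ^ 6 := pow_le_pow_left₀ (by norm_num) (by linarith) 6
  refine le_trans (by norm_num) h2

private lemma AUnit_20 : (20 : ℝ) ≤ Real.exp 3 := by
  have h := Real.exp_one_gt_d9
  have h1 : Real.exp 3 = Real.exp 1 ^ 3 := by
    rw [← Real.exp_nat_mul]; norm_num
  rw [h1]
  have h2 : (2.718 : ℝ) ^ 3 ≤ Real.exp 1 ^ 3 := pow_le_pow_left₀ (by norm_num) (by linarith) 3
  refine le_trans (by norm_num) h2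

private lemma AUnit_two_exp (x : ℝ) : 2 * Real.exp x ≤ Real.exp (x + 1) := by
  rw [Real.exp_add]
  have h := Real.exp_one_gt_d9
  nlinarith [Real.exp_pos x]

private lemma AUnit_upper {K : ℝ} (hK : 1 ≤ K) (F : QM K) {a : ℕ} {e C1 ε : ℝ} {t : ℍ}
    {ψ : ℝ → V} (hKe : K ≤ e) (ha : (5 : ℝ) ≤ a)
    (hε : 0 ≤ ε) (hs : 3 * ε < Real.exp (2 * a) / 1024) (H : AUnit_H F a e C1 ε t ψ) :
    nm t (ψ (Real.exp a / 128)) ≤ Real.exp (a + (C1 + 2) * e) := by
  have he : 1 ≤ e := hK.trans hKe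
  have hexp : 0 < Real.exp (a : ℝ) := Real.exp_pos _
  have hα0 : 1 ≤ Real.exp (a : ℝ) / 128 := by
    rw [le_div_iff₀ (by norm_num), one_mul]
    exact AUnit_128.trans (Real.exp_le_exp.2 ha)
  obtain ⟨n, hn1, hn2⟩ := exists_nat_pow_near hα0 (one_lt_two)
  set α : ℝ := Real.exp a / 128 / 2 ^ (n + 1) with hα
  have hpow : (0 : ℝ) < 2 ^ (n + 1) := by positivity
  have hαpos : 0 < α := by positivity
  have hα1 : α ≤ 1 := by
    rw [hα, div_le_one hpow]
    exact hn2.le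
  have hαb : |α| ≤ Real.exp a / 8 := by
    rw [abs_of_pos hαpos]
    linarith
  have hS := H α hαb
  obtain ⟨v, hv, v1, -, -⟩ := AUnit_exists hε hs _ _ _ hS hS hS
  rw [AUnit_mem_box] at hv
  have hvb : v ∈ box (Real.exp (a : ℝ) / 32) := by
    rw [AUnit_mem_box]
    exact ⟨by linarith [hv.1], by linarith [hv.2]⟩
  have hE : nm t (Bv F v α - ψ α) ≤ Real.exp (C1 * e) ∧ rho (F.f v o) t ≤ C1 * e := by
    by_contra hc
    exact v1 ⟨hvb, hc⟩
  have h1 := (near_sheet hK F v (v + α • e1) o (by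
    rw [AUnit_nm_o, abs_of_pos hαpos]; exact hα1)).2
  rw [nm_sub_comm] at h1
  have h2 : nm (F.f v o) (Bv F v α) ≤ Real.exp (2 * K) := h1
  have h3 : nm t (Bv F v α) ≤ Real.exp ((C1 + 2) * e) := by
    calc nm t (Bv F v α) ≤ Real.exp (rho (F.f v o) t) * nm (F.f v o) (Bv F v α) :=
        nm_le _ _ _
      _ ≤ Real.exp (C1 * e) * Real.exp (2 * K) :=
        mul_le_mul (Real.exp_le_exp.2 hE.2) h2 (nm_nonneg _ _) (Real.exp_pos _).le
      _ = Real.exp (C1 * e + 2 * K) := (Real.exp_add _ _).symm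
      _ ≤ Real.exp ((C1 + 2) * e) := Real.exp_le_exp.2 (by linarith)
  have h4 : Real.exp (C1 * e) ≤ Real.exp ((C1 + 2) * e) := Real.exp_le_exp.2 (by linarith)
  have h5 : nm t (ψ α) ≤ 2 * Real.exp ((C1 + 2) * e) := by
    have h6 := AUnit_nm_abs t (Bv F v α) (ψ α)
    rw [abs_le] at h6
    linarith [h6.1, h6.2, hE.1]
  have h7 := AUnit_tele' F hε hs H (n + 1)
  rw [abs_le] at h7
  have h8 : (2 : ℝ) ^ (n + 1) ≤ 2 * (Real.exp a / 128) := by
    rw [pow_succ]
    linarith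
  have h9 : nm t (ψ (Real.exp a / 128)) ≤ 2 ^ (n + 1) * (5 * Real.exp ((C1 + 2) * e)) := by
    have h10 : (2 : ℝ) ^ (n + 1) * nm t (ψ α) ≤ 2 ^ (n + 1) * (2 * Real.exp ((C1 + 2) * e)) :=
      mul_le_mul_of_nonneg_left h5 hpow.le
    have h11 : ((2 : ℝ) ^ (n + 1) - 1) * (3 * Real.exp (C1 * e)) ≤
        2 ^ (n + 1) * (3 * Real.exp ((C1 + 2) * e)) := by
      apply mul_le_mul (by linarith) (by linarith) (by positivity) hpow.le
    have h12 := h7.2
    linarith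
  refine h9.trans ?_
  rw [Real.exp_add]
  have h13 : (2 : ℝ) ^ (n + 1) * (5 * Real.exp ((C1 + 2) * e)) ≤
      2 * (Real.exp a / 128) * (5 * Real.exp ((C1 + 2) * e)) :=
    mul_le_mul_of_nonneg_right h8 (by positivity)
  refine h13.trans ?_
  have h14 : 0 < Real.exp (a : ℝ) * Real.exp ((C1 + 2) * e) := by positivity
  nlinarith

/-- The hypothesis from `close_local`. -/
private def AUnit_Cl {K : ℝ} (F : QM K) (a : ℕ) (e C2 ε : ℝ) : Prop :=
  ∀ α : ℝ, |α| ≤ Real.exp a / 8 → volume {v : V | v ∈ box (Real.exp a / 32) ∧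
    ¬ ∃ c, 1 / (4 * K) ≤ c ∧ c ≤ 2 * K ∧ GC F v 0 0 (8 * a) c e ∧
      ∀ k : ℤ, |k| ≤ (a : ℤ) →
        rho (F.f v (pt 0 k)) (F.f (v + α • e1) (pt 0 k)) ≤ C2 * e} ≤ ENNReal.ofReal ε

private lemma AUnit_lower {K : ℝ} (hK : 1 ≤ K) (F : QM K) {a : ℕ} {e C1 C2 ε : ℝ} {t : ℍ}
    {ψ : ℝ → V} (hKe : K ≤ e) (hC1 : 1 ≤ C1) (hC2 : 1 ≤ C2)
    (ha : K * (C2 + 2 * C1 + 4) * e + 5 ≤ a)
    (hε : 0 ≤ ε) (hs : 3 * ε < Real.exp (2 * a) / 1024) (H : AUnit_H F a e C1 ε t ψ)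
    (H' : AUnit_Cl F a e C2 ε) :
    Real.exp (a - (K * (C2 + 2 * C1 + 4) + 6) * e) ≤ nm t (ψ (Real.exp a / 128)) := by
  have he : 1 ≤ e := hK.trans hKe
  have hK0 : 0 < K := by linarith
  have hexp : 0 < Real.exp (a : ℝ) := Real.exp_pos _
  set L : ℝ := K * (C2 + 2 * C1 + 4) with hL
  have hx : 1 ≤ Real.exp (a : ℝ) / 128 / Real.exp (L * e) := by
    rw [le_div_iff₀ (Real.exp_pos _), one_mul, le_div_iff₀ (by norm_num)]
    calc Real.exp (L * e) * 128 ≤ Real.exp (L * e) * Real.exp 5 :=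
        mul_le_mul_of_nonneg_left AUnit_128 (Real.exp_pos _).le
      _ = Real.exp (L * e + 5) := (Real.exp_add _ _).symm
      _ ≤ Real.exp a := Real.exp_le_exp.2 ha
  obtain ⟨n, hn1, hn2⟩ := exists_nat_pow_near hx (one_lt_two)
  set α : ℝ := Real.exp a / 128 / 2 ^ n with hα
  have hpow : (0 : ℝ) < 2 ^ n := by positivity
  have hpow1 : (1 : ℝ) ≤ 2 ^ n := one_le_pow₀ (by norm_num)
  have hαpos : 0 < α := by positivity
  have hαL : Real.exp (L * e) ≤ α := by
    rw [hα, le_div_iff₀ hpow]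
    rw [le_div_iff₀ (Real.exp_pos _)] at hn1
    linarith
  have hαb : |α| ≤ Real.exp a / 8 := by
    rw [abs_of_pos hαpos]
    have : α ≤ Real.exp a / 128 := div_le_self (by positivity) hpow1
    linarith
  have hS := H α hαb
  have hS' := H' α hαb
  obtain ⟨v, hv, v1, v2, -⟩ := AUnit_exists hε hs _ _ _ hS hS' hS'
  rw [AUnit_mem_box] at hv
  have hvb : v ∈ box (Real.exp (a : ℝ) / 32) := by
    rw [AUnit_mem_box]
    exact ⟨by linarith [hv.1], by linarith [hv.2]⟩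
  have hE : nm t (Bv F v α - ψ α) ≤ Real.exp (C1 * e) ∧ rho (F.f v o) t ≤ C1 * e := by
    by_contra hc
    exact v1 ⟨hvb, hc⟩
  obtain ⟨c, -, -, -, hcl⟩ : ∃ c, 1 / (4 * K) ≤ c ∧ c ≤ 2 * K ∧ GC F v 0 0 (8 * a) c e ∧
      ∀ k : ℤ, |k| ≤ (a : ℤ) →
        rho (F.f v (pt 0 k)) (F.f (v + α • e1) (pt 0 k)) ≤ C2 * e := by
    by_contra hc
    exact v2 ⟨hvb, hc⟩
  have hr : rho (F.f v o) (F.f (v + α • e1) o) ≤ C2 * e := by
    have h := hcl 0 (by rw [abs_zero]; exact Int.natCast_nonneg a)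
    rw [Int.cast_zero] at h
    exact h
  have h1 := F.sep_fib v (v + α • e1) o
  rw [AUnit_nm_o, abs_of_pos hαpos, nm_sub_comm] at h1
  have h2 : L * e ≤ Real.log (1 + α) := by
    rw [Real.le_log_iff_exp_le (by linarith)]
    linarith
  set B : V := F.U (v + α • e1) o - F.U v o with hB
  have hBv : Bv F v α = B := rfl
  have hB0 := nm_nonneg (F.f v o) B
  set G : ℝ := Real.log (1 + nm (F.f v o) B) with hG
  have h3 : (C2 + 2 * C1 + 4) * e ≤ rho (F.f v o) (F.f (v + α • e1) o) + G + 1 := by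
    have h4 : K * ((C2 + 2 * C1 + 4) * e) ≤
        K * (rho (F.f v o) (F.f (v + α • e1) o) + G + 1) := by
      calc K * ((C2 + 2 * C1 + 4) * e) = L * e := by rw [hL]; ring
        _ ≤ _ := h2
        _ ≤ _ := h1
        _ = _ := by ring
    exact le_of_mul_le_mul_left h4 hK0
  have h5 : (2 * C1 + 3) * e ≤ G := by nlinarith
  have h6 : Real.exp ((2 * C1 + 3) * e) ≤ 1 + nm (F.f v o) B := by
    rw [← Real.le_log_iff_exp_le (by linarith)]
    exact h5
  have h7 : nm (F.f v o) B ≤ Real.exp (C1 * e) * nm t B := by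
    refine (nm_le t (F.f v o) B).trans (mul_le_mul_of_nonneg_right (Real.exp_le_exp.2 ?_)
      (nm_nonneg _ _))
    rw [rho_comm]
    exact hE.2
  have h8 : nm t B ≤ nm t (ψ α) + Real.exp (C1 * e) := by
    have h9 := AUnit_nm_abs t B (ψ α)
    rw [abs_le] at h9
    have h10 := hE.1
    rw [hBv] at h10
    linarith [h9.1, h9.2]
  set y : ℝ := Real.exp (C1 * e) with hy
  have hy1 : 1 ≤ y := Real.one_le_exp (by positivity)
  have hz : 20 ≤ Real.exp (3 * e) := AUnit_20.trans (Real.exp_le_exp.2 (by linarith))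
  have h11 : Real.exp ((2 * C1 + 3) * e) = y * y * Real.exp (3 * e) := by
    rw [hy, ← Real.exp_add, ← Real.exp_add]
    congr 1
    ring
  rw [h11] at h6
  have h12 : 3 * y + 1 ≤ nm t (ψ α) := by
    have h13 : y * y * 20 ≤ y * y * Real.exp (3 * e) :=
      mul_le_mul_of_nonneg_left hz (by positivity)
    have h14 : y * nm t B ≤ y * (nm t (ψ α) + y) :=
      mul_le_mul_of_nonneg_left h8 (by linarith)
    have h15 : y * (18 * y) ≤ y * nm t (ψ α) := by nlinarith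
    have h16 : 18 * y ≤ nm t (ψ α) := le_of_mul_le_mul_left h15 (by linarith)
    linarith
  have h17 := AUnit_tele' F hε hs H n
  rw [abs_le] at h17
  have h18 : (2 : ℝ) ^ n ≤ nm t (ψ (Real.exp a / 128)) := by
    have h19 : (2 : ℝ) ^ n * (3 * y + 1) ≤ 2 ^ n * nm t (ψ α) :=
      mul_le_mul_of_nonneg_left h12 hpow.le
    have h20 := h17.1
    have h21 : 0 ≤ 3 * y := by linarith
    nlinarith
  refine le_trans ?_ h18
  have h22 : Real.exp (a : ℝ) / 128 / Real.exp (L * e) ≤ 2 ^ n * 2 := by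
    rw [← pow_succ]
    exact hn2.le
  have h23 : Real.exp (a - (L + 6) * e) ≤ Real.exp (a : ℝ) / 128 / Real.exp (L * e) / 2 := by
    have h24 : Real.exp (a - (L + 6) * e) ≤ Real.exp (a - L * e - 6) :=
      Real.exp_le_exp.2 (by linarith)
    refine h24.trans ?_
    rw [Real.exp_sub, Real.exp_sub]
    have h25 := AUnit_256
    rw [div_div, div_div, div_div]
    apply div_le_div_of_nonneg_left hexp.le (by positivity)
    nlinarith [Real.exp_pos (L * e)]
  linarith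

theorem unit_local (K : ℝ) (hK : 1 ≤ K) : ∃ C θ0 : ℝ, 1 ≤ C ∧ 0 < θ0 ∧
    ∀ (F : QM K) (a : ℕ) (e θ : ℝ), K ≤ e → Real.log (100 * a + 100) ≤ e → C * e ≤ a → 0 ≤ θ →
      θ ≤ θ0 → Dens F a e θ →
      volume {v : V | v ∈ box (Real.exp a / 32) ∧
        ¬ ∃ c : ℝ, |c - 1| ≤ C * e / a ∧ GC F v 0 0 (8 * a) c e} ≤
        ENNReal.ofReal (C * θ * Real.exp (2 * a)) := by
  obtain ⟨C1, θ1, hC1, hθ1, H1⟩ := maj_psi K hK
  obtain ⟨C2, hC2, H2⟩ := close_local K hK
  obtain ⟨C3, hC3, H3⟩ := size_e1 K hK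
  have hK0 : 0 < K := by linarith
  set L : ℝ := K * (C2 + 2 * C1 + 4) with hL
  have hL0 : 0 < L := by positivity
  set C : ℝ := 3 * C1 + C2 + 10 * (C3 * C2) + L + 12 with hC
  have hC32 : 1 ≤ C3 * C2 := by nlinarith
  refine ⟨C, min θ1 (1 / (4096 * (C1 + C2))), by linarith, by positivity, ?_⟩
  intro F a e θ hKe hlog hCe hθ hθ0 hD
  have he : 1 ≤ e := hK.trans hKe
  have hexp : 0 < Real.exp (a : ℝ) := Real.exp_pos _
  have hexp2 : 0 < Real.exp (2 * (a : ℝ)) := Real.exp_pos _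
  have hθ1' : θ ≤ θ1 := hθ0.trans (min_le_left _ _)
  have hθ2 : (C1 + C2) * θ ≤ 1 / 4096 := by
    have h1 := hθ0.trans (min_le_right _ _)
    have h2 := mul_le_mul_of_nonneg_left h1 (by linarith : (0 : ℝ) ≤ C1 + C2)
    have h3 : (C1 + C2) * (1 / (4096 * (C1 + C2))) = 1 / 4096 := by
      have : C1 + C2 ≠ 0 := by linarith
      field_simp
    linarith
  have p1 : 0 ≤ C1 * e := by positivity
  have p2 : 0 ≤ C2 * e := by positivity
  have p3 : 0 ≤ (C3 * C2) * e := by positivity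
  have p4 : 0 ≤ L * e := by positivity
  have hCe' : C * e = 3 * (C1 * e) + C2 * e + 10 * ((C3 * C2) * e) + L * e + 12 * e := by
    rw [hC]; ring
  obtain ⟨t, ht⟩ := H1 F a e θ hKe hlog (by linarith) hθ hθ1' hD
  choose! ψ hψ using ht
  set ε : ℝ := (C1 + C2) * θ * Real.exp (2 * a) with hεdef
  have hε : 0 ≤ ε := by positivity
  have hs : 3 * ε < Real.exp (2 * a) / 1024 := by
    have h1 : ε ≤ 1 / 4096 * Real.exp (2 * a) := mul_le_mul_of_nonneg_right hθ2 hexp2.le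
    linarith
  have hH : AUnit_H F a e C1 ε t ψ := by
    intro α hα
    refine (hψ α hα).trans (ENNReal.ofReal_le_ofReal ?_)
    have : C1 * θ ≤ (C1 + C2) * θ := mul_le_mul_of_nonneg_right (by linarith) hθ
    exact mul_le_mul_of_nonneg_right this hexp2.le
  have hCl0 : ∀ α : ℝ, |α| ≤ Real.exp a / 8 → volume {v : V | v ∈ box (Real.exp a / 32) ∧
      ¬ ∃ c, 1 / (4 * K) ≤ c ∧ c ≤ 2 * K ∧ GC F v 0 0 (8 * a) c e ∧
        ∀ k : ℤ, |k| ≤ (a : ℤ) →
          rho (F.f v (pt 0 k)) (F.f (v + α • e1) (pt 0 k)) ≤ C2 * e} ≤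
        ENNReal.ofReal (C2 * θ * Real.exp (2 * a)) := by
    intro α hα
    refine (measure_mono ?_).trans (H2 F a e θ hKe hlog (by linarith) hθ hD.dens0 α 0 hα
      (by rw [abs_zero]; positivity))
    rintro v ⟨hv, hn⟩
    refine ⟨?_, ?_⟩
    · rw [AUnit_mem_box] at hv ⊢
      exact ⟨by linarith [hv.1], by linarith [hv.2]⟩
    · rintro ⟨c, c1, c2, c3, -, -, c4⟩
      exact hn ⟨c, c1, c2, c3, fun k hk => (c4 k hk).1⟩
  have hCl : AUnit_Cl F a e C2 ε := by
    intro α hα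
    refine (hCl0 α hα).trans (ENNReal.ofReal_le_ofReal ?_)
    have : C2 * θ ≤ (C1 + C2) * θ := mul_le_mul_of_nonneg_right (by linarith) hθ
    exact mul_le_mul_of_nonneg_right this hexp2.le
  have ha5 : (5 : ℝ) ≤ a := by linarith
  have hup := AUnit_upper hK F hKe ha5 hε hs hH
  have hlo := AUnit_lower hK F hKe hC1 hC2 (by linarith) hε hs hH hCl
  rw [← hL] at hlo
  set α : ℝ := Real.exp a / 128 with hα
  have hαpos : 0 < α := by positivity
  have hαb : |α| ≤ Real.exp a / 8 := by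
    rw [abs_of_pos hαpos, hα]
    linarith
  have hsub : {v : V | v ∈ box (Real.exp a / 32) ∧
      ¬ ∃ c : ℝ, |c - 1| ≤ C * e / a ∧ GC F v 0 0 (8 * a) c e} ⊆
      {v : V | v ∈ box (Real.exp a / 32) ∧
        ¬ (nm t (Bv F v α - ψ α) ≤ Real.exp (C1 * e) ∧ rho (F.f v o) t ≤ C1 * e)} ∪
      {v : V | v ∈ box (Real.exp a / 32) ∧
        ¬ ∃ c, 1 / (4 * K) ≤ c ∧ c ≤ 2 * K ∧ GC F v 0 0 (8 * a) c e ∧
          ∀ k : ℤ, |k| ≤ (a : ℤ) →
            rho (F.f v (pt 0 k)) (F.f (v + α • e1) (pt 0 k)) ≤ C2 * e} := by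
    rintro v ⟨hv, hn⟩
    by_contra hcon
    rw [Set.mem_union, not_or] at hcon
    obtain ⟨n1, n2⟩ := hcon
    have hE : nm t (Bv F v α - ψ α) ≤ Real.exp (C1 * e) ∧ rho (F.f v o) t ≤ C1 * e := by
      by_contra hc
      exact n1 ⟨hv, hc⟩
    obtain ⟨c, c1, c2, c3, hcl⟩ : ∃ c, 1 / (4 * K) ≤ c ∧ c ≤ 2 * K ∧
        GC F v 0 0 (8 * a) c e ∧ ∀ k : ℤ, |k| ≤ (a : ℤ) →
          rho (F.f v (pt 0 k)) (F.f (v + α • e1) (pt 0 k)) ≤ C2 * e := by
      by_contra hc
      exact n2 ⟨hv, hc⟩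
    apply hn
    refine ⟨c, ?_, c3⟩
    have hc0 : 0 < c := lt_of_lt_of_le (by positivity) c1
    -- the size
    have hC2e : e ≤ C2 * e := by nlinarith
    obtain ⟨s1, s2⟩ := H3 F v a α (5 * C2 * e) c (by nlinarith) (by nlinarith)
      (by nlinarith) (by
        rw [abs_of_pos hαpos, hα, Real.exp_sub]
        apply div_le_div_of_nonneg_left hexp.le (by norm_num)
        exact AUnit_128.trans (Real.exp_le_exp.2 (by nlinarith)))
      (by rw [abs_of_pos hαpos, hα]; linarith) c1 c2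
      (GC_mono F v 0 0 (8 * a) c e _ c3 (by nlinarith))
      (fun k hk => (hcl k hk).trans (by nlinarith))
    set B : V := F.U (v + α • e1) o - F.U v o with hB
    have hBv : Bv F v α = B := rfl
    rw [hBv] at hE
    have q1 := AUnit_nm_abs t B (ψ α)
    rw [abs_le] at q1
    have q2 : nm (F.f v o) B ≤ Real.exp (C1 * e) * nm t B := by
      refine (nm_le t (F.f v o) B).trans (mul_le_mul_of_nonneg_right (Real.exp_le_exp.2 ?_)
        (nm_nonneg _ _))
      rw [rho_comm]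
      exact hE.2
    have q3 : nm t B ≤ Real.exp (C1 * e) * nm (F.f v o) B :=
      (nm_le (F.f v o) t B).trans (mul_le_mul_of_nonneg_right (Real.exp_le_exp.2 hE.2)
        (nm_nonneg _ _))
    -- upper bound
    have u1 : c * a - C3 * (5 * C2 * e) ≤ (a + (2 * C1 + 2) * e) + 1 := by
      rw [← Real.exp_le_exp]
      refine s1.trans (q2.trans ?_)
      have u2 : nm t B ≤ 2 * Real.exp (a + (C1 + 2) * e) := by
        have u3 : Real.exp (C1 * e) ≤ Real.exp (a + (C1 + 2) * e) :=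
          Real.exp_le_exp.2 (by linarith)
        linarith [q1.1, q1.2, hE.1, hup]
      calc Real.exp (C1 * e) * nm t B ≤ Real.exp (C1 * e) * (2 * Real.exp (a + (C1 + 2) * e)) :=
          mul_le_mul_of_nonneg_left u2 (Real.exp_pos _).le
        _ = 2 * Real.exp (a + (2 * C1 + 2) * e) := by
          have : a + (2 * C1 + 2) * e = C1 * e + (a + (C1 + 2) * e) := by ring
          rw [this, Real.exp_add (C1 * e)]
          ring
        _ ≤ _ := AUnit_two_exp _
    -- lower bound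
    have l1 : a - (L + 6) * e ≤ (c * a + C3 * (5 * C2 * e) + C1 * e) + 1 := by
      rw [← Real.exp_le_exp]
      refine hlo.trans ?_
      have hca : 0 ≤ c * a := by positivity
      have l2 : Real.exp (C1 * e) ≤ Real.exp (c * a + C3 * (5 * C2 * e) + C1 * e) :=
        Real.exp_le_exp.2 (by nlinarith)
      have l3 : nm t B ≤ Real.exp (c * a + C3 * (5 * C2 * e) + C1 * e) := by
        refine q3.trans ?_
        rw [Real.exp_add (c * a + C3 * (5 * C2 * e)), mul_comm]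
        exact mul_le_mul_of_nonneg_right s2 (Real.exp_pos _).le
      have l4 := AUnit_two_exp (c * a + C3 * (5 * C2 * e) + C1 * e)
      linarith [q1.1, q1.2, hE.1]
    have ha0 : (0 : ℝ) < a := by linarith
    rw [le_div_iff₀ ha0]
    have hfin : |(c - 1) * a| ≤ C * e := by
      have r1 : C3 * (5 * C2 * e) = 5 * ((C3 * C2) * e) := by ring
      rw [r1] at u1 l1
      rw [abs_le]
      constructor <;> nlinarith
    rwa [abs_mul, abs_of_pos ha0] at hfin
  refine ((measure_mono hsub).trans (measure_union_le _ _)).trans ?_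
  refine (add_le_add (hψ α hαb) (hCl0 α hαb)).trans ?_
  rw [← ENNReal.ofReal_add (by positivity) (by positivity)]
  apply ENNReal.ofReal_le_ofReal
  have : C1 * θ + C2 * θ ≤ C * θ := by
    rw [← add_mul]
    exact mul_le_mul_of_nonneg_right (by linarith) hθ
  nlinarith

end Pool.Agent.FIB
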