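import Pool.Agent.FIB.Defs

/-!
# The statements of the main steps

Each is a statement about ALL `F : QM K`. The parts of the proof are
`StT K` (Part A), `StT K → StB K` (Part B), `StB K → StP K` (Part C1), `StB K → StP K → StL K`
(Part C2), `StL K → StA K` (Part D1), `StL K → StA K → StS K` (Part D2), `StA K → StS K → StF K`
(Part D3), for every `K ≥ 1`.
-/

set_option autoImplicit false

namespace Pool.Agent.FIB

open UpperHalfPlane MeasureTheory Set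

/-- The path of the sheet `w` over the vertical segment from `pt b j` to `pt b (j + s)` is (up to `e`)
a geodesic of unit speed. -/
def UnitP {K : ℝ} (F : QM K) (w : V) (b j s e : ℝ) : Prop :=
  ∀ i i' : ℕ, (i : ℝ) ≤ s → (i' : ℝ) ≤ s →
    abs (rho (F.f w (pt b (j + i))) (F.f w (pt b (j + i'))) - |(i : ℝ) - i'|) ≤ e

/-- The downward directions at `pt b j` are spread at distance `a` (in the sheet `w`). -/
def SpreadP {K : ℝ} (F : QM K) (w : V) (b j a e ε : ℝ) : Prop :=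
  volume {κ : ℝ | κ ∈ Icc 0 1 ∧
    e < gp (F.f w (pt b (j + a))) (F.f w (pt (b + κ * Real.exp (-2 * j)) (j + a)))
      (F.f w (pt b j))} ≤ ENNReal.ofReal ε

/-- Part A: in every plane there is a scale `a` (in a finite list) at which most windows have unit
speed and are spread. -/
def StT (K : ℝ) : Prop :=
  ∀ ε : ℝ, 0 < ε → ∀ m0 : ℕ, ∃ (R : Finset ℕ) (n0 : ℕ), (∀ a ∈ R, m0 ≤ a) ∧
    ∀ (F : QM K) (n : ℕ), n0 ≤ n → ∃ a ∈ R,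
      ∑ j ∈ Finset.range n, volume {q : V × ℝ | q.1 ∈ box 8 ∧ q.2 ∈ Icc (-8) 8 ∧
        ¬ (UnitP F (Real.exp n • q.1) q.2 j a (ε * a) ∧
          SpreadP F (Real.exp n • q.1) q.2 j a (ε * a) ε)} ≤ ENNReal.ofReal (ε * n)

/-- Part B: the typical structure of planes. -/
def StB (K : ℝ) : Prop :=
  ∀ ε : ℝ, 0 < ε → ∃ s0 : ℝ, 0 < s0 ∧ ∀ (F : QM K) (s : ℝ), s0 ≤ s → ∃ t : ℍ,
    volume {u : V | u ∈ box 8 ∧ ε * s < rho (F.f (Real.exp s • u) o) t} ≤ ENNReal.ofReal ε ∧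
    volume {q : V × ℝ | q.1 ∈ box 8 ∧ q.2 ∈ Icc (-8) 8 ∧
      ¬ UnitP F (Real.exp s • q.1) q.2 0 s (ε * s)} ≤ ENNReal.ofReal ε ∧
    (∀ L : ℝ, 0 ≤ L → L ≤ s →
      volume {q : V × ℝ × ℝ | q.1 ∈ box 8 ∧ q.2.1 ∈ Icc (-8) 8 ∧ q.2.2 ∈ Icc (-8) 8 ∧
        ε * s < gp (F.f (Real.exp s • q.1) (pt q.2.1 L)) (F.f (Real.exp s • q.1) (pt q.2.2 L)) t}
        ≤ ENNReal.ofReal ε) ∧
    volume {q : V × V | q.1 ∈ box 8 ∧ q.2 ∈ box 8 ∧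
      ¬ (Real.exp ((1 - ε) * s) ≤ nm t (F.U (Real.exp s • q.1) o - F.U (Real.exp s • q.2) o) ∧
        nm t (F.U (Real.exp s • q.1) o - F.U (Real.exp s • q.2) o) ≤ Real.exp ((1 + ε) * s))}
      ≤ ENNReal.ofReal ε

/-- Part C1: typical sheets of a plane of size `s` have the same image over `pt b (ν s)`. -/
def StP (K : ℝ) : Prop :=
  ∃ ν : ℝ, 0 < ν ∧ ν ≤ 1 / 2 ∧ ∀ ε : ℝ, 0 < ε → ∃ s0 : ℝ, 0 < s0 ∧
    ∀ (F : QM K) (s : ℝ), s0 ≤ s →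
      volume {q : V × V × ℝ | q.1 ∈ box 4 ∧ q.2.1 ∈ box 4 ∧ q.2.2 ∈ Icc (-1) 1 ∧
        ε * s < rho (F.f (Real.exp s • q.1) (pt q.2.2 (ν * s)))
          (F.f (Real.exp s • q.2.1) (pt q.2.2 (ν * s)))} ≤ ENNReal.ofReal ε

/-- Part C2: on every horizontal line of a plane the typical sheets are typical. -/
def StL (K : ℝ) : Prop :=
  ∀ ε : ℝ, 0 < ε → ∃ s0 : ℝ, 0 < s0 ∧ ∀ (F : QM K) (s : ℝ), s0 ≤ s → ∃ t : ℍ,
    volume {u : V | u ∈ box 8 ∧ ε * s < rho (F.f (Real.exp s • u) o) t} ≤ ENNReal.ofReal ε ∧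
    ∀ c ∈ Icc (-2 : ℝ) 2,
      volume {a : ℝ | a ∈ Icc (-2) 2 ∧ ε * s < rho (F.f (Real.exp s • ((a, c) : V)) o) t}
        ≤ ENNReal.ofReal ε ∧
      volume {q : ℝ × ℝ | q.1 ∈ Icc (-2) 2 ∧ q.2 ∈ Icc (-1) 1 ∧
        ε * s < |rho (F.f (Real.exp s • ((q.1, c) : V)) (pt q.2 s)) t - s|} ≤ ENNReal.ofReal ε ∧
      volume {q : ℝ × ℝ × ℝ | q.1 ∈ Icc (-2) 2 ∧ q.2.1 ∈ Icc (-1) 1 ∧ q.2.2 ∈ Icc (-1) 1 ∧
        ε * s < gp (F.f (Real.exp s • ((q.1, c) : V)) (pt q.2.1 s))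
          (F.f (Real.exp s • ((q.1, c) : V)) (pt q.2.2 s)) t} ≤ ENNReal.ofReal ε

/-- Part D1: unit speed and spread from EVERY point. -/
def StA (K : ℝ) : Prop :=
  ∀ ε : ℝ, 0 < ε → ∃ C : ℝ, 0 < C ∧ ∀ (F : QM K) (L : ℝ), 0 ≤ L →
    (∀ q : ℍ, volume {p : ℝ × ℝ | p.1 ∈ Icc (-1) 1 ∧ p.2 ∈ Icc (-2) 2 ∧
      ε * L + C < gp q (F.f ((p.1, 0) : V) (pt p.2 L)) (F.f 0 o)} ≤ ENNReal.ofReal ε) ∧
    volume {p : ℝ × ℝ | p.1 ∈ Icc (-1) 1 ∧ p.2 ∈ Icc (-2) 2 ∧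
      ε * L + C < |rho (F.f ((p.1, 0) : V) (pt p.2 L)) (F.f 0 o) - L|} ≤ ENNReal.ofReal ε

/-- Part D2: sublinear preservation of the fibres. -/
def StS (K : ℝ) : Prop :=
  ∀ ε : ℝ, 0 < ε → ∃ C : ℝ, 0 < C ∧ ∀ (F : QM K) (w w' : V) (x : ℍ),
    rho (F.f w x) (F.f w' x) ≤ ε * Real.log (1 + nm x (w - w')) + C

/-- Part D3: preservation of the fibres. -/
def StF (K : ℝ) : Prop :=
  ∃ C : ℝ, ∀ (F : QM K) (w w' : V) (x : ℍ), rho (F.f w x) (F.f w' x) ≤ C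

end Pool.Agent.FIB
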