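import Pool.Agent.FIB.Meas
import Pool.Agent.FIB.Iface

/-!
# Pairs of points of the plane in a cone

A pair `(u, v)` of points of `V` with `v.2 ≠ u.2` determines the direction `slp (u, v) = b` with
`v - u = β • ev b`, `β = v.2 - u.2`. The change of variables `(u, v) ↔ (u, b, β)` has Jacobian `|β|`.
-/

set_option autoImplicit false

namespace Pool.Agent.FIB

open UpperHalfPlane MeasureTheory Set
open scoped MatrixGroups

/-- The direction of the pair. -/
noncomputable def slp (p : V × V) : ℝ := (p.2.1 - p.1.1) / (p.2.2 - p.1.2)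

theorem measurable_slp : Measurable slp := by
  unfold slp
  fun_prop

theorem slp_swap (p : V × V) : slp (p.2, p.1) = slp p := by
  unfold slp
  rw [← neg_sub p.2.1 p.1.1, ← neg_sub p.2.2 p.1.2, neg_div_neg_eq]

theorem slp_spec (p : V × V) (h : p.2.2 ≠ p.1.2) : p.2 - p.1 = (p.2.2 - p.1.2) • ev (slp p) := by
  have h1 : p.2.2 - p.1.2 ≠ 0 := sub_ne_zero.2 h
  unfold slp ev
  ext
  · simp only [Prod.fst_sub, Prod.smul_fst, smul_eq_mul]
    field_simp
  · simp only [Prod.snd_sub, Prod.smul_snd, smul_eq_mul]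
    ring

private theorem line_le {A : Set ℝ} {u1 β M : ℝ} (hβ : β ≠ 0) (hM : |β| ≤ M) :
    volume {x : ℝ | (x - u1) / β ∈ A} ≤ ENNReal.ofReal M * volume A := by
  have h1 := scale_le A (inv_ne_zero hβ) (-u1 / β)
  rw [inv_inv] at h1
  have h2 : {x : ℝ | -u1 / β + β⁻¹ * x ∈ A} = {x : ℝ | (x - u1) / β ∈ A} := by
    ext x
    have h3 : -u1 / β + β⁻¹ * x = (x - u1) / β := by
      field_simp
      ring
    rw [Set.mem_ofPred_eq, Set.mem_ofPred_eq, h3]
  rw [h2] at h1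
  rw [h1]
  gcongr

theorem cone_fst {S : Set (V × ℝ)} (hS : MeasurableSet S) {M : ℝ} (hM : 0 ≤ M) :
    volume {p : V × V | p.2.2 ≠ p.1.2 ∧ |p.2.2 - p.1.2| ≤ M ∧ (p.1, slp p) ∈ S} ≤
      ENNReal.ofReal (2 * M ^ 2) * volume S := by
  have hT : MeasurableSet {p : V × V | p.2.2 ≠ p.1.2 ∧ |p.2.2 - p.1.2| ≤ M ∧ (p.1, slp p) ∈ S} := by
    refine MeasurableSet.inter ?_ (MeasurableSet.inter ?_ ?_)
    · exact (measurableSet_eq_fun (f := fun p : V × V => p.2.2) (g := fun p : V × V => p.1.2)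
        (by fun_prop) (by fun_prop)).compl
    · exact measurableSet_le (f := fun p : V × V => |p.2.2 - p.1.2|) (g := fun _ : V × V => M)
        (by fun_prop) (by fun_prop)
    · exact (measurable_fst.prodMk measurable_slp) hS
  have h0 : volume {p : V × V | p.2.2 ≠ p.1.2 ∧ |p.2.2 - p.1.2| ≤ M ∧ (p.1, slp p) ∈ S} =
      ∫⁻ u : V, volume {v : V | v.2 ≠ u.2 ∧ |v.2 - u.2| ≤ M ∧ (u, slp (u, v)) ∈ S} :=
    Measure.prod_apply hT
  have h1 : volume S = ∫⁻ u : V, volume {b : ℝ | (u, b) ∈ S} := Measure.prod_apply hS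
  rw [h0, h1, ← lintegral_const_mul]
  swap
  · exact measurable_measure_prodMk_left hS
  refine lintegral_mono ?_
  intro u
  show volume {v : V | v.2 ≠ u.2 ∧ |v.2 - u.2| ≤ M ∧ (u, slp (u, v)) ∈ S} ≤
    ENNReal.ofReal (2 * M ^ 2) * volume {b : ℝ | (u, b) ∈ S}
  have hTu : MeasurableSet {v : V | v.2 ≠ u.2 ∧ |v.2 - u.2| ≤ M ∧ (u, slp (u, v)) ∈ S} :=
    measurable_prodMk_left hT
  have h2 : volume {v : V | v.2 ≠ u.2 ∧ |v.2 - u.2| ≤ M ∧ (u, slp (u, v)) ∈ S} =
      ∫⁻ y : ℝ, volume {x : ℝ | y ≠ u.2 ∧ |y - u.2| ≤ M ∧ (u, slp (u, (x, y))) ∈ S} :=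
    Measure.prod_apply_symm hTu
  rw [h2]
  have h3 : ∀ y : ℝ, volume {x : ℝ | y ≠ u.2 ∧ |y - u.2| ≤ M ∧ (u, slp (u, (x, y))) ∈ S} ≤
      (Icc (u.2 - M) (u.2 + M)).indicator
        (fun _ => ENNReal.ofReal M * volume {b : ℝ | (u, b) ∈ S}) y := by
    intro y
    by_cases hy : y ≠ u.2 ∧ |y - u.2| ≤ M
    · have hy' : y ∈ Icc (u.2 - M) (u.2 + M) := by
        have := abs_le.1 hy.2
        constructor <;> linarith [this.1, this.2]
      rw [Set.indicator_of_mem hy']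
      refine (measure_mono ?_).trans (line_le (A := {b : ℝ | (u, b) ∈ S}) (u1 := u.1)
        (sub_ne_zero.2 hy.1) hy.2)
      rintro x ⟨_, _, hx⟩
      exact hx
    · have h4 : {x : ℝ | y ≠ u.2 ∧ |y - u.2| ≤ M ∧ (u, slp (u, (x, y))) ∈ S} = ∅ := by
        ext x
        simp only [Set.mem_ofPred_eq, Set.mem_empty_iff_false, iff_false]
        rintro ⟨a, b, _⟩
        exact hy ⟨a, b⟩
      rw [h4, measure_empty]
      exact bot_le
  refine (lintegral_mono h3).trans ?_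
  rw [lintegral_indicator measurableSet_Icc, lintegral_const, Measure.restrict_apply_univ,
    Real.volume_Icc]
  have h5 : u.2 + M - (u.2 - M) = 2 * M := by ring
  rw [h5, mul_right_comm, ← ENNReal.ofReal_mul hM]
  have h6 : M * (2 * M) = 2 * M ^ 2 := by ring
  rw [h6]

theorem cone_snd {S : Set (V × ℝ)} (hS : MeasurableSet S) {M : ℝ} (hM : 0 ≤ M) :
    volume {p : V × V | p.2.2 ≠ p.1.2 ∧ |p.2.2 - p.1.2| ≤ M ∧ (p.2, slp p) ∈ S} ≤
      ENNReal.ofReal (2 * M ^ 2) * volume S := by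
  have h1 := cone_fst hS hM
  have hT : MeasurableSet {p : V × V | p.2.2 ≠ p.1.2 ∧ |p.2.2 - p.1.2| ≤ M ∧ (p.1, slp p) ∈ S} := by
    refine MeasurableSet.inter ?_ (MeasurableSet.inter ?_ ?_)
    · exact (measurableSet_eq_fun (f := fun p : V × V => p.2.2) (g := fun p : V × V => p.1.2)
        (by fun_prop) (by fun_prop)).compl
    · exact measurableSet_le (f := fun p : V × V => |p.2.2 - p.1.2|) (g := fun _ : V × V => M)
        (by fun_prop) (by fun_prop)
    · exact (measurable_fst.prodMk measurable_slp) hS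
  have h2 : volume (Prod.swap ⁻¹'
      {p : V × V | p.2.2 ≠ p.1.2 ∧ |p.2.2 - p.1.2| ≤ M ∧ (p.1, slp p) ∈ S}) =
      volume {p : V × V | p.2.2 ≠ p.1.2 ∧ |p.2.2 - p.1.2| ≤ M ∧ (p.1, slp p) ∈ S} :=
    (Measure.measurePreserving_swap (μ := (volume : Measure V))
      (ν := (volume : Measure V))).measure_preimage hT.nullMeasurableSet
  rw [← h2] at h1
  refine le_trans (measure_mono ?_) h1
  rintro p ⟨a, b, c⟩
  refine ⟨fun h => a h.symm, ?_, ?_⟩
  · show |p.1.2 - p.2.2| ≤ M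
    rw [abs_sub_comm]
    exact b
  · show (p.2, slp (p.2, p.1)) ∈ S
    rw [slp_swap]
    exact c

end Pool.Agent.FIB
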