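import Pool.Agent.FIB.Iface
import Pool.Agent.FIB.Vec
import Pool.Agent.FIB.Tel

/-!
# Two sheets of a plane which meet in a typical direction

`B4_pos`: the sheets have nearly the same image over `o`, if both images are seen from a point `q`
on the path to the meeting point (`same_pos`).
`B5_det`: the difference of the vectors over `o` (the growth lemma with `c = 1`).
-/

set_option autoImplicit false

namespace Pool.Agent.FIB

open UpperHalfPlane MeasureTheory Set
open scoped MatrixGroups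

theorem near_o {K : ℝ} (hK : 1 ≤ K) (F : QM K) (w : V) {b : ℝ} (hb : |b| ≤ 1) :
    rho (F.f w o) (F.f w (pt b 0)) ≤ 2 * K := by
  unfold o
  refine near_vert hK F w 0 b 0 ?_
  rw [zero_sub, abs_neg, mul_zero, Real.exp_zero]
  exact hb

theorem near_o_U {K : ℝ} (hK : 1 ≤ K) (F : QM K) (w : V) {b : ℝ} (hb : |b| ≤ 1) :
    nm (F.f w o) (F.U w o - F.U w (pt b 0)) ≤ Real.exp (2 * K) := by
  unfold o
  refine (F.U_hor (by linarith) w 0 b 0).trans (Real.exp_le_exp.2 ?_)
  rw [zero_sub, abs_neg, mul_zero, Real.exp_zero, mul_one]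
  have : K * (|b| / 2) ≤ K * 1 := mul_le_mul_of_nonneg_left (by linarith) (by linarith)
  linarith

theorem UnitP.mono {K : ℝ} {F : QM K} {w : V} {b j s s' e e' : ℝ} (h : UnitP F w b j s e)
    (hs : s' ≤ s) (he : e ≤ e') : UnitP F w b j s' e' := by
  intro i i' hi hi'
  exact (h i i' (hi.trans hs) (hi'.trans hs)).trans he

theorem UnitP.dist0 {K : ℝ} {F : QM K} {w : V} {b s e : ℝ} (h : UnitP F w b 0 s e) {i i' : ℕ}
    (hi : (i : ℝ) ≤ s) (hi' : (i' : ℝ) ≤ s) :
    abs (rho (F.f w (pt b i)) (F.f w (pt b i')) - |(i : ℝ) - i'|) ≤ e := by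
  have := h i i' hi hi'
  rwa [zero_add, zero_add] at this

theorem B4_pos {K : ℝ} (hK : 1 ≤ K) (F : QM K) {w w' : V} {b : ℝ} {D : ℕ} {s e : ℝ} {q : ℍ}
    (hb : |b| ≤ 1) (hD : (D : ℝ) ≤ s) (hm : nm (pt b D) (w - w') ≤ 1)
    (hu : UnitP F w b 0 s e) (hu' : UnitP F w' b 0 s e)
    (hq : gp q (F.f w (pt b D)) (F.f w o) ≤ e) (hq' : gp q (F.f w' (pt b D)) (F.f w' o) ≤ e) :
    rho (F.f w o) (F.f w' o) ≤ 4 * e + 10 * K + 1 := by
  have h0 : ((0 : ℕ) : ℝ) ≤ s := by
    rw [Nat.cast_zero]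
    exact (Nat.cast_nonneg D).trans hD
  have h1 := near_o hK F w hb
  have h1' := near_o hK F w' hb
  have h2 := (near_sheet hK F w w' (pt b D) hm).1
  have h3 := hu.dist0 h0 hD
  have h3' := hu'.dist0 h0 hD
  have hD0 : (0 : ℝ) ≤ (D : ℝ) := Nat.cast_nonneg D
  rw [Nat.cast_zero, zero_sub, abs_neg, abs_of_nonneg hD0, abs_le] at h3 h3'
  have h4 := gp_change (F.f w (pt b D)) (F.f w' (pt b D)) q (F.f w' o)
  rw [gp_comm q] at hq hq'
  have h5 : gp (F.f w (pt b D)) q (F.f w o) ≤ e + 2 * K := by linarith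
  have h5' : gp (F.f w (pt b D)) q (F.f w' o) ≤ e + 2 * K := by linarith
  have h6 : |rho (F.f w (pt b D)) (F.f w o) - rho (F.f w (pt b D)) (F.f w' o)| ≤ 2 * e + 6 * K := by
    have a1 := rho_triangle (F.f w o) (F.f w (pt b 0)) (F.f w (pt b D))
    have a2 := rho_triangle (F.f w (pt b 0)) (F.f w o) (F.f w (pt b D))
    have a3 := rho_triangle (F.f w' o) (F.f w' (pt b 0)) (F.f w' (pt b D))
    have a4 := rho_triangle (F.f w' (pt b 0)) (F.f w' o) (F.f w' (pt b D))
    have a5 := rho_triangle (F.f w (pt b D)) (F.f w' (pt b D)) (F.f w' o)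
    have a6 := rho_triangle (F.f w' (pt b D)) (F.f w (pt b D)) (F.f w' o)
    rw [rho_comm (F.f w (pt b 0)) (F.f w o)] at a2
    rw [rho_comm (F.f w' (pt b 0)) (F.f w' o)] at a4
    rw [rho_comm (F.f w' (pt b D)) (F.f w' o)] at a5 a6
    rw [rho_comm (F.f w' (pt b D)) (F.f w (pt b D))] at a6
    rw [rho_comm (F.f w (pt b D)) (F.f w o), abs_le]
    constructor <;> linarith [h3.1, h3.2, h3'.1, h3'.2]
  have h7 := same_pos h5 h5' h6
  linarith

theorem B5_det (K : ℝ) (hK : 1 ≤ K) : ∃ C : ℝ, 1 ≤ C ∧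
    ∀ (F : QM K) (w w' : V) (b : ℝ) (D : ℕ) (s e : ℝ) (t : ℍ),
      |b| ≤ 1 → (D : ℝ) ≤ s → K ≤ e → Real.log (4 * D + 4) ≤ e → C * e ≤ D →
      nm (pt b D) (w - w') ≤ 1 →
      (∀ k : ℕ, k ≤ D → (k : ℝ) ≤ Real.log (1 + nm (pt b ((D : ℝ) - k)) (w - w')) + e) →
      UnitP F w b 0 s e → UnitP F w' b 0 s e →
      rho (F.f w o) t ≤ e → rho (F.f w' o) t ≤ e →
      Real.exp (D - C * e) ≤ nm t (F.U w o - F.U w' o) ∧
        nm t (F.U w o - F.U w' o) ≤ Real.exp (D + C * e) := by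
  obtain ⟨C, hC, hG⟩ := growth K hK
  refine ⟨18 * C + 8, by linarith, ?_⟩
  intro F w w' b D s e t hb hDs hKe hlog hCD hm hsep hu hu' ht ht'
  have he : 1 ≤ e := by linarith
  have hK0 : 0 ≤ K := by linarith
  have hCe : 18 ≤ 18 * C := by linarith
  have h0 : ((0 : ℕ) : ℝ) ≤ s := by
    rw [Nat.cast_zero]
    exact (Nat.cast_nonneg D).trans hDs
  -- endpoints
  have h1 := near_o hK F w hb
  have h1' := near_o hK F w' hb
  have hU1 := near_o_U hK F w hb
  have hU1' := near_o_U hK F w' hb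
  obtain ⟨h2, h2U⟩ := near_sheet hK F w w' (pt b D) hm
  have ht0 : rho (F.f w (pt b 0)) t ≤ 3 * e := by
    have := rho_triangle (F.f w (pt b 0)) (F.f w o) t
    rw [rho_comm (F.f w (pt b 0)) (F.f w o)] at this
    linarith
  have ht0' : rho (F.f w' (pt b 0)) t ≤ 3 * e := by
    have := rho_triangle (F.f w' (pt b 0)) (F.f w' o) t
    rw [rho_comm (F.f w' (pt b 0)) (F.f w' o)] at this
    linarith
  -- the paths
  have hidx : ∀ k : ℕ, k ≤ D → (D : ℝ) - k = ((D - k : ℕ) : ℝ) := by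
    intro k hk
    rw [Nat.cast_sub hk]
  have hidx' : ∀ k : ℕ, k ≤ D → ((D - k : ℕ) : ℝ) ≤ s := by
    intro k _
    refine le_trans ?_ hDs
    exact_mod_cast Nat.sub_le D k
  have hpp : ∀ {w : V}, UnitP F w b 0 s e → ∀ k l : ℕ, k ≤ D → l ≤ D →
      abs (rho (F.f w (pt b ((D : ℝ) - k))) (F.f w (pt b ((D : ℝ) - l))) - |(k : ℝ) - l|) ≤ e := by
    intro w hu k l hk hl
    have h3 := hu.dist0 (hidx' k hk) (hidx' l hl)
    rw [← hidx k hk, ← hidx l hl] at h3
    have h4 : (D : ℝ) - k - ((D : ℝ) - l) = -((k : ℝ) - l) := by ring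
    rw [h4, abs_neg] at h3
    exact h3
  have hpos : ∀ k : ℕ, k ≤ D →
      rho (F.f w (pt b ((D : ℝ) - k))) (F.f w' (pt b ((D : ℝ) - k))) ≤ 18 * e := by
    intro k hk
    have b1 := hpp hu 0 k (Nat.zero_le D) hk
    have b2 := hpp hu k D hk le_rfl
    have b3 := hpp hu 0 D (Nat.zero_le D) le_rfl
    have b1' := hpp hu' 0 k (Nat.zero_le D) hk
    have b2' := hpp hu' k D hk le_rfl
    have b3' := hpp hu' 0 D (Nat.zero_le D) le_rfl
    have hkD : (k : ℝ) ≤ D := by exact_mod_cast hk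
    have hk0 : (0 : ℝ) ≤ k := Nat.cast_nonneg k
    rw [Nat.cast_zero, sub_zero, zero_sub, abs_neg, abs_of_nonneg hk0, abs_le] at b1 b1'
    rw [sub_self, abs_of_nonpos (by linarith : (k : ℝ) - D ≤ 0), abs_le] at b2 b2'
    rw [Nat.cast_zero, sub_zero, sub_self, zero_sub, abs_neg, abs_of_nonneg (hk0.trans hkD),
      abs_le] at b3 b3'
    set a := F.f w (pt b D)
    set a' := F.f w' (pt b D)
    set t0 := F.f w (pt b 0)
    set t0' := F.f w' (pt b 0)
    set p := F.f w (pt b ((D : ℝ) - k))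
    set p' := F.f w' (pt b ((D : ℝ) - k))
    have c1 : gp a t0 p ≤ 3 / 2 * e := by
      unfold gp
      rw [rho_comm p a]
      linarith [b1.1, b1.2, b2.1, b2.2, b3.1, b3.2]
    have c1' : gp a' t0' p' ≤ 3 / 2 * e := by
      unfold gp
      rw [rho_comm p' a']
      linarith [b1'.1, b1'.2, b2'.1, b2'.2, b3'.1, b3'.2]
    have c2 := gp_change t t0 a p
    have c2' := gp_change t t0' a' p'
    have c3 := gp_change a a' t p'
    rw [gp_comm t a, gp_comm t0 a, rho_comm t t0] at c2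
    rw [gp_comm t a', gp_comm t0' a', rho_comm t t0'] at c2'
    have c4 : gp a t p ≤ 13 / 2 * e := by linarith
    have c4' : gp a t p' ≤ 13 / 2 * e := by linarith
    have c5 : |rho a p - rho a p'| ≤ 4 * e := by
      have d1 := rho_triangle a a' p'
      have d2 := rho_triangle a' a p'
      rw [rho_comm a' a] at d2
      rw [abs_le]
      constructor <;> linarith [b1.1, b1.2, b1'.1, b1'.2]
    have c6 := same_pos c4 c4' c5
    linarith
  have hsteps : ∀ w : V, ∀ k : ℕ, k < D →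
      nm (F.f w (pt b ((D : ℝ) - k)))
        (F.U w (pt b ((D : ℝ) - (k + 1 : ℕ))) - F.U w (pt b ((D : ℝ) - k))) ≤ Real.exp (2 * K) := by
    intro w k _
    rw [nm_sub_comm]
    refine (F.U_vert w b _ _).trans (Real.exp_le_exp.2 ?_)
    have h4 : (D : ℝ) - k - ((D : ℝ) - (k + 1 : ℕ)) = 1 := by
      push_cast
      ring
    rw [h4, abs_one]
    linarith
  obtain ⟨g1, -, g3⟩ := hG (fun k => F.f w (pt b ((D : ℝ) - k)))
    (fun k => F.f w' (pt b ((D : ℝ) - k))) (fun k => F.U w (pt b ((D : ℝ) - k)))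
    (fun k => F.U w' (pt b ((D : ℝ) - k))) D 1 (18 * e) (by linarith) (by linarith)
    (by nlinarith)
    (by
      rw [div_le_one (by linarith)]
      linarith)
    (by linarith) (hsteps w) (hsteps w')
    (by
      simp only [Nat.cast_zero, sub_zero]
      exact h2U.trans (Real.exp_le_exp.2 (by linarith)))
    hpos
    (by
      intro k l hk hl
      rw [one_mul]
      exact (hpp hu k l hk hl).trans (by linarith))
    (by
      intro k hk
      have s1 := hsep k hk
      have s2 := F.sep_fib w w' (pt b ((D : ℝ) - k))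
      have s3 : K + e ≤ K * (18 * e) := by nlinarith
      linarith)
  simp only [sub_self] at g1 g3
  set W := F.U w (pt b 0) - F.U w' (pt b 0) with hW
  set W0 := F.U w o - F.U w' o with hW0
  have hR : rho t (F.f w (pt b 0)) ≤ 3 * e := by
    rw [rho_comm]
    exact ht0
  have g4 : Real.exp (D - (18 * C + 3) * e) ≤ nm t W := by
    have a1 := nm_le t (F.f w (pt b 0)) W
    have a2 : Real.exp (rho t (F.f w (pt b 0))) * nm t W ≤ Real.exp (3 * e) * nm t W :=
      mul_le_mul_of_nonneg_right (Real.exp_le_exp.2 hR) (nm_nonneg _ _)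
    have a3 : Real.exp (1 * (D : ℝ) - C * (18 * e)) =
        Real.exp (3 * e) * Real.exp (D - (18 * C + 3) * e) := by
      rw [← Real.exp_add]
      congr 1
      ring
    rw [a3] at g1
    exact le_of_mul_le_mul_left (g1.trans (a1.trans a2)) (Real.exp_pos _)
  have g5 : nm t W ≤ Real.exp (D + (18 * C + 4) * e) := by
    refine (g3 t (D + 4 * e) ?_).trans (le_of_eq ?_)
    · intro k hk
      have a1 := rho_triangle t (F.f w (pt b 0)) (F.f w (pt b ((D : ℝ) - k)))
      have a2 := hpp hu k D hk le_rfl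
      have hkD : (k : ℝ) ≤ D := by exact_mod_cast hk
      have hk0 : (0 : ℝ) ≤ k := Nat.cast_nonneg k
      rw [sub_self, abs_of_nonpos (by linarith : (k : ℝ) - D ≤ 0), abs_le, rho_comm] at a2
      linarith [a2.1, a2.2]
    · congr 1
      ring
  have hinc : ∀ w : V, rho (F.f w o) t ≤ e →
      nm (F.f w o) (F.U w o - F.U w (pt b 0)) ≤ Real.exp (2 * K) →
      nm t (F.U w o - F.U w (pt b 0)) ≤ Real.exp (3 * e) := by
    intro w h5 h6
    have a1 := nm_le (F.f w o) t (F.U w o - F.U w (pt b 0))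
    refine a1.trans ?_
    have a2 : Real.exp (3 * e) = Real.exp e * Real.exp (2 * e) := by
      rw [← Real.exp_add]
      congr 1
      ring
    rw [a2]
    exact mul_le_mul (Real.exp_le_exp.2 h5) (h6.trans (Real.exp_le_exp.2 (by linarith)))
      (nm_nonneg _ _) (Real.exp_pos _).le
  have i1 := hinc w ht hU1
  have i2 := hinc w' ht' hU1'
  have hdec : W0 = W + ((F.U w o - F.U w (pt b 0)) - (F.U w' o - F.U w' (pt b 0))) := by
    rw [hW, hW0]
    abel
  have hdec' : W = W0 - ((F.U w o - F.U w (pt b 0)) - (F.U w' o - F.U w' (pt b 0))) := by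
    rw [hW, hW0]
    abel
  have j1 := nm_add_le t W ((F.U w o - F.U w (pt b 0)) - (F.U w' o - F.U w' (pt b 0)))
  have j2 := nm_sub_le t W0 ((F.U w o - F.U w (pt b 0)) - (F.U w' o - F.U w' (pt b 0)))
  have j3 := nm_sub_le t (F.U w o - F.U w (pt b 0)) (F.U w' o - F.U w' (pt b 0))
  rw [← hdec] at j1
  rw [← hdec'] at j2
  have k1 : 2 * Real.exp (3 * e) ≤ Real.exp (4 * e) := by
    have a1 : Real.exp (4 * e) = Real.exp e * Real.exp (3 * e) := by
      rw [← Real.exp_add]
      congr 1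
      ring
    have a2 : 2 ≤ Real.exp e := by
      have := Real.add_one_le_exp e
      linarith
    rw [a1]
    exact mul_le_mul_of_nonneg_right a2 (Real.exp_pos _).le
  have two_le : ∀ x : ℝ, 2 * Real.exp x ≤ Real.exp (x + e) := by
    intro x
    have a2 : 2 ≤ Real.exp e := by
      have := Real.add_one_le_exp e
      linarith
    rw [add_comm x e, Real.exp_add]
    exact mul_le_mul_of_nonneg_right a2 (Real.exp_pos _).le
  constructor
  · have l1 := two_le (D - (18 * C + 4) * e)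
    have l2 : (D : ℝ) - (18 * C + 4) * e + e = D - (18 * C + 3) * e := by ring
    rw [l2] at l1
    have l3 : Real.exp (4 * e) ≤ Real.exp (D - (18 * C + 4) * e) :=
      Real.exp_le_exp.2 (by nlinarith)
    have l4 : Real.exp (D - (18 * C + 8) * e) ≤ Real.exp (D - (18 * C + 4) * e) :=
      Real.exp_le_exp.2 (by nlinarith)
    linarith
  · have l1 := two_le (D + (18 * C + 4) * e)
    have l3 : Real.exp (4 * e) ≤ Real.exp (D + (18 * C + 4) * e) :=
      Real.exp_le_exp.2 (by nlinarith)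
    have l4 : Real.exp (D + (18 * C + 4) * e + e) ≤ Real.exp (D + (18 * C + 8) * e) :=
      Real.exp_le_exp.2 (by nlinarith)
    linarith

end Pool.Agent.FIB
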