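import Pool.Agent.FIB.BDefs
import Pool.Agent.FIB.B4Cone
import Pool.Agent.FIB.B5Det

/-!
# Part B, item B4: the centre of a plane

`PlaneT`: the output of `StB0` for one plane of size `S = s + 5`, in the scale `s` (sheets
`exp s • u`, `u ∈ box 40`). `b4_center`: existence of the centre.
-/

set_option autoImplicit false

namespace Pool.Agent.FIB

open UpperHalfPlane MeasureTheory Set
open scoped MatrixGroups

/-- Scaling the first variable. -/
theorem b_scale {β : Type*} [MeasureSpace β] [SFinite (volume : Measure β)] {T : Set (V × β)}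
    (hT : MeasurableSet T) {c : ℝ} (hc : 0 < c) :
    volume T = ENNReal.ofReal (c ^ 2) * volume {p : V × β | (c • p.1, p.2) ∈ T} := by
  have hT' : MeasurableSet {p : V × β | (c • p.1, p.2) ∈ T} := by
    have : Measurable fun p : V × β => (c • p.1, p.2) :=
      (measurable_fst.const_smul c).prodMk measurable_snd
    exact this hT
  have h1 : volume T = ∫⁻ y : β, volume {u : V | (u, y) ∈ T} := Measure.prod_apply_symm hT
  have h2 : volume {p : V × β | (c • p.1, p.2) ∈ T} = ∫⁻ y : β, volume {u : V | (c • u, y) ∈ T} :=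
    Measure.prod_apply_symm hT'
  rw [h1, h2, ← lintegral_const_mul]
  swap
  · exact measurable_measure_prodMk_right hT'
  refine lintegral_congr fun y => ?_
  have h3 := scaleV_le {u : V | (u, y) ∈ T} hc.ne' 0
  have h4 : {x : V | (0 : V) + c • x ∈ {u : V | (u, y) ∈ T}} = {u : V | (c • u, y) ∈ T} := by
    ext x
    rw [Set.mem_ofPred_eq, zero_add]
    rfl
  rw [h4] at h3
  rw [h3, ← mul_assoc, ← ENNReal.ofReal_mul (sq_nonneg c)]
  have h5 : c ^ 2 * c⁻¹ ^ 2 = 1 := by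
    field_simp
  rw [h5, ENNReal.ofReal_one, one_mul]

theorem b_box (M : ℝ) (hM : 0 ≤ M) : volume (box M) = ENNReal.ofReal (4 * M ^ 2) := by
  unfold box
  rw [Measure.volume_eq_prod, Measure.prod_prod, Real.volume_Icc,
    ← ENNReal.ofReal_mul (by linarith)]
  congr 1
  ring

theorem b_box_meas (M : ℝ) : MeasurableSet (box M) :=
  measurableSet_Icc.prod measurableSet_Icc

theorem mem_box {M : ℝ} {u : V} : u ∈ box M ↔ |u.1| ≤ M ∧ |u.2| ≤ M := by
  unfold box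
  rw [Set.mem_prod, Set.mem_Icc, Set.mem_Icc, abs_le, abs_le]

theorem b_transfer {β : Type*} [MeasureSpace β] [SFinite (volume : Measure β)]
    {T0 : Set (V × β)} {δ : ℝ} (h : volume T0 ≤ ENNReal.ofReal δ) :
    ∃ T : Set (V × β), MeasurableSet T ∧ volume T ≤ ENNReal.ofReal (Real.exp 10 * δ) ∧
      ∀ (u : V) (y : β), (u, y) ∉ T → (Real.exp (-5) • u, y) ∉ T0 := by
  have hm : Measurable fun p : V × β => (Real.exp (-5) • p.1, p.2) :=
    (measurable_fst.const_smul (Real.exp (-5))).prodMk measurable_snd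
  have hM : MeasurableSet {p : V × β | (Real.exp (-5) • p.1, p.2) ∈ toMeasurable volume T0} :=
    hm (measurableSet_toMeasurable _ _)
  refine ⟨{p : V × β | (Real.exp (-5) • p.1, p.2) ∈ toMeasurable volume T0}, hM, ?_, ?_⟩
  · rw [b_scale hM (Real.exp_pos 5)]
    have h1 : {p : V × β | (Real.exp 5 • p.1, p.2) ∈
        {p : V × β | (Real.exp (-5) • p.1, p.2) ∈ toMeasurable volume T0}} =
        toMeasurable volume T0 := by
      ext p
      rw [Set.mem_ofPred_eq, Set.mem_ofPred_eq, smul_smul, ← Real.exp_add]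
      have h2 : (-5 : ℝ) + 5 = 0 := by norm_num
      rw [h2, Real.exp_zero, one_smul]
    rw [h1, measure_toMeasurable, ← Real.exp_nat_mul]
    have h3 : ((2 : ℕ) : ℝ) * 5 = 10 := by norm_num
    rw [h3, ENNReal.ofReal_mul (Real.exp_pos _).le]
    exact mul_le_mul_right h _
  · intro u y hu h0
    exact hu (subset_toMeasurable _ _ h0)

theorem b_five {u : V} (hu : u ∈ box 40) : Real.exp (-5) • u ∈ box 8 := by
  rw [mem_box] at hu ⊢
  have h1 : Real.exp (-5) ≤ 1 / 5 := by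
    rw [Real.exp_neg, ← one_div]
    have := Real.add_one_le_exp (5 : ℝ)
    exact one_div_le_one_div_of_le (by norm_num) (by linarith)
  have h0 := Real.exp_pos (-5)
  rw [Prod.smul_fst, Prod.smul_snd, smul_eq_mul, smul_eq_mul, abs_mul, abs_mul, abs_of_pos h0]
  constructor
  · nlinarith [hu.1, abs_nonneg u.1]
  · nlinarith [hu.2, abs_nonneg u.2]

theorem b_five' (s : ℝ) (u : V) : Real.exp (s + 5) • Real.exp (-5) • u = Real.exp s • u := by
  rw [smul_smul, ← Real.exp_add]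
  congr 2
  ring

/-- `StB0` for the plane of size `s + 5`: a small measurable set of bad pairs `(u, b)`, for the unit
speed. -/
theorem b_plane1 {K : ℝ} (F : QM K) (s e δ : ℝ)
    (h : volume {q : V × ℝ | q.1 ∈ box 8 ∧ q.2 ∈ Icc (-8) 8 ∧
      ¬ UnitP F (Real.exp (s + 5) • q.1) q.2 0 (s + 5) e} ≤ ENNReal.ofReal δ) :
    ∃ T : Set (V × ℝ), MeasurableSet T ∧ volume T ≤ ENNReal.ofReal (Real.exp 10 * δ) ∧
      ∀ (u : V) (b : ℝ), u ∈ box 40 → b ∈ Icc (-8) 8 → (u, b) ∉ T →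
        UnitP F (Real.exp s • u) b 0 (s + 5) e := by
  obtain ⟨T, h1, h2, h3⟩ := b_transfer h
  refine ⟨T, h1, h2, ?_⟩
  intro u b hu hb hT
  have h4 := h3 u b hT
  by_contra h5
  apply h4
  refine ⟨b_five hu, hb, ?_⟩
  show ¬ UnitP F (Real.exp (s + 5) • Real.exp (-5) • u) b 0 (s + 5) e
  rw [b_five']
  exact h5

/-- The pairs clause of `StB0` for the plane of size `s + 5`. -/
theorem b_plane2 {K : ℝ} (F : QM K) (s e δ L : ℝ)
    (h : volume {q : V × ℝ × ℝ | q.1 ∈ box 8 ∧ q.2.1 ∈ Icc (-8) 8 ∧ q.2.2 ∈ Icc (-8) 8 ∧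
      e < gp (F.f (Real.exp (s + 5) • q.1) (pt q.2.1 L))
        (F.f (Real.exp (s + 5) • q.1) (pt q.2.2 L)) (F.f (Real.exp (s + 5) • q.1) o)} ≤
      ENNReal.ofReal δ) :
    ∃ T : Set (V × ℝ × ℝ), MeasurableSet T ∧ volume T ≤ ENNReal.ofReal (Real.exp 10 * δ) ∧
      ∀ (u : V) (b b' : ℝ), u ∈ box 40 → b ∈ Icc (-8) 8 → b' ∈ Icc (-8) 8 → (u, b, b') ∉ T →
        gp (F.f (Real.exp s • u) (pt b L)) (F.f (Real.exp s • u) (pt b' L))
          (F.f (Real.exp s • u) o) ≤ e := by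
  obtain ⟨T, h1, h2, h3⟩ := b_transfer h
  refine ⟨T, h1, h2, ?_⟩
  intro u b b' hu hb hb' hT
  have h4 := h3 u (b, b') hT
  by_contra h5
  apply h4
  refine ⟨b_five hu, hb, hb', ?_⟩
  show e < gp (F.f (Real.exp (s + 5) • Real.exp (-5) • u) (pt b L))
    (F.f (Real.exp (s + 5) • Real.exp (-5) • u) (pt b' L))
    (F.f (Real.exp (s + 5) • Real.exp (-5) • u) o)
  rw [b_five']
  exact not_le.1 h5

private theorem b_meas2 {K : ℝ} (F : QM K) {Ω : Type*} [MeasurableSpace Ω] {w w' : Ω → V}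
    {x x' : Ω → ℍ} (hw : Measurable w) (hx : Measurable x) (hw' : Measurable w')
    (hx' : Measurable x') (P : ℍ → ℍ → Prop) :
    MeasurableSet {ω | P (F.f (w ω) (x ω)) (F.f (w' ω) (x' ω))} := by
  have h := F.measSet (ι := Bool) (fun i => bif i then w else w') (fun i => bif i then x else x')
    (by intro i; cases i <;> assumption) (by intro i; cases i <;> assumption)
    (fun z => P (z true).2 (z false).2)
  exact h

/-- From the pairs clause to every point `q`. -/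
theorem b_plane3 {K : ℝ} (F : QM K) (s e ε2 L : ℝ) (hε0 : 0 < ε2) (hε1 : ε2 ≤ 1) (A : ℝ)
    (hA : 0 ≤ A) {T : Set (V × ℝ × ℝ)} (hT : MeasurableSet T)
    (hv : volume T ≤ ENNReal.ofReal (A * ε2 ^ 4))
    (h : ∀ (u : V) (b b' : ℝ), u ∈ box 40 → b ∈ Icc (-8) 8 → b' ∈ Icc (-8) 8 → (u, b, b') ∉ T →
        gp (F.f (Real.exp s • u) (pt b L)) (F.f (Real.exp s • u) (pt b' L))
          (F.f (Real.exp s • u) o) ≤ e) (q : ℍ) :
    volume {p : V × ℝ | p.1 ∈ box 40 ∧ p.2 ∈ Icc (-8) 8 ∧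
      e + 1 < gp q (F.f (Real.exp s • p.1) (pt p.2 L)) (F.f (Real.exp s • p.1) o)} ≤
      ENNReal.ofReal ((16 * A + 6400) * ε2) := by
  -- the bad sheets
  have hN : volume {u : V | ENNReal.ofReal (ε2 ^ 2) < volume {y : ℝ × ℝ | (u, y) ∈ T}} ≤
      ENNReal.ofReal (A * ε2 ^ 2) := by
    refine markov_fubini hT (by positivity) (by positivity) ?_
    have h1 : A * ε2 ^ 2 * ε2 ^ 2 = A * ε2 ^ 4 := by ring
    rw [h1]
    exact hv
  have hNm : MeasurableSet {u : V | ENNReal.ofReal (ε2 ^ 2) < volume {y : ℝ × ℝ | (u, y) ∈ T}} :=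
    measurableSet_lt measurable_const (measurable_measure_prodMk_left hT)
  set N := {u : V | ENNReal.ofReal (ε2 ^ 2) < volume {y : ℝ × ℝ | (u, y) ∈ T}} with hNdef
  have hPm : MeasurableSet {p : V × ℝ |
      e + 1 < gp q (F.f (Real.exp s • p.1) (pt p.2 L)) (F.f (Real.exp s • p.1) o)} :=
    b_meas2 F (w := fun p : V × ℝ => Real.exp s • p.1) (x := fun p : V × ℝ => pt p.2 L)
      (w' := fun p : V × ℝ => Real.exp s • p.1) (x' := fun _ : V × ℝ => o)
      (by fun_prop) (measurable_pt' measurable_snd measurable_const)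
      (by fun_prop) measurable_const (fun x y => e + 1 < gp q x y)
  have hQm : MeasurableSet {p : V × ℝ | p.2 ∈ Icc (-8) 8 ∧
      e + 1 < gp q (F.f (Real.exp s • p.1) (pt p.2 L)) (F.f (Real.exp s • p.1) o)} :=
    (measurable_snd measurableSet_Icc).inter hPm
  have h1 : volume {p : V × ℝ | p.1 ∈ box 40 \ N ∧ p ∈ {p : V × ℝ | p.2 ∈ Icc (-8) 8 ∧
      e + 1 < gp q (F.f (Real.exp s • p.1) (pt p.2 L)) (F.f (Real.exp s • p.1) o)}} ≤
      ENNReal.ofReal ε2 * volume (box 40 \ N) := by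
    refine fiber_le hQm ((b_box_meas 40).diff hNm) ?_
    intro u hu
    have h2 : volume {y : ℝ × ℝ | (u, y) ∈ T} ≤ ENNReal.ofReal (ε2 ^ 2) := not_lt.1 hu.2
    have h3 := pairs_to_all (B := Icc (-8) 8) (fun b => F.f (Real.exp s • u) (pt b L))
      (F.f (Real.exp s • u) o) (e := e) hε0.le ((measure_mono ?_).trans h2) q
    · exact h3
    · rintro y ⟨hy1, hy2, hy3⟩
      by_contra hy4
      exact absurd (h u y.1 y.2 hu.1 hy1 hy2 hy4) (not_le.2 hy3)
  have h2 : volume ((N : Set V) ×ˢ Icc (-8 : ℝ) 8) ≤ ENNReal.ofReal (A * ε2 ^ 2 * 16) := by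
    rw [Measure.volume_eq_prod, Measure.prod_prod, Real.volume_Icc,
      ENNReal.ofReal_mul (by positivity : 0 ≤ A * ε2 ^ 2)]
    have h3 : (8 : ℝ) - -8 = 16 := by norm_num
    rw [h3]
    exact mul_le_mul' hN le_rfl
  have h3 : ENNReal.ofReal ε2 * volume (box 40 \ N) ≤ ENNReal.ofReal (ε2 * 6400) := by
    rw [ENNReal.ofReal_mul hε0.le]
    refine mul_le_mul_right ?_ _
    refine (measure_mono Set.sdiff_subset).trans ?_
    rw [b_box 40 (by norm_num)]
    norm_num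
  refine (measure_mono (t := (N ×ˢ Icc (-8 : ℝ) 8) ∪ {p : V × ℝ | p.1 ∈ box 40 \ N ∧
    p ∈ {p : V × ℝ | p.2 ∈ Icc (-8) 8 ∧
      e + 1 < gp q (F.f (Real.exp s • p.1) (pt p.2 L)) (F.f (Real.exp s • p.1) o)}}) ?_).trans ?_
  · rintro p ⟨hp1, hp2, hp3⟩
    by_cases hp4 : p.1 ∈ N
    · left
      exact ⟨hp4, hp2⟩
    · right
      exact ⟨⟨hp1, hp4⟩, hp2, hp3⟩
  · refine (measure_union_le _ _).trans ?_
    refine (add_le_add h2 (h1.trans h3)).trans ?_
    rw [← ENNReal.ofReal_add (by positivity) (by positivity)]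
    refine ENNReal.ofReal_le_ofReal ?_
    have h4 : ε2 ^ 2 ≤ ε2 := by nlinarith
    have h5 : A * ε2 ^ 2 ≤ A * ε2 := mul_le_mul_of_nonneg_left h4 hA
    linarith

/-- The bad set for a fixed point `q`: measurable, small, and outside of it the sheet `u` has unit
speed in the direction `b` and its end is seen from `q` through its beginning. -/
theorem b_bad {K : ℝ} (F : QM K) (s e ε2 : ℝ) (D : ℕ) (hε0 : 0 < ε2) (hε1 : ε2 ≤ 1)
    (h1 : volume {q : V × ℝ | q.1 ∈ box 8 ∧ q.2 ∈ Icc (-8) 8 ∧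
      ¬ UnitP F (Real.exp (s + 5) • q.1) q.2 0 (s + 5) e} ≤ ENNReal.ofReal (ε2 ^ 4))
    (h2 : volume {q : V × ℝ × ℝ | q.1 ∈ box 8 ∧ q.2.1 ∈ Icc (-8) 8 ∧ q.2.2 ∈ Icc (-8) 8 ∧
      e < gp (F.f (Real.exp (s + 5) • q.1) (pt q.2.1 D))
        (F.f (Real.exp (s + 5) • q.1) (pt q.2.2 D)) (F.f (Real.exp (s + 5) • q.1) o)} ≤
      ENNReal.ofReal (ε2 ^ 4)) (q : ℍ) :
    ∃ T : Set (V × ℝ), MeasurableSet T ∧
      volume T ≤ ENNReal.ofReal ((17 * Real.exp 10 + 6400) * ε2) ∧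
      ∀ (u : V) (b : ℝ), u ∈ box 40 → b ∈ Icc (-8) 8 → (u, b) ∉ T →
        UnitP F (Real.exp s • u) b 0 (s + 5) e ∧
        gp q (F.f (Real.exp s • u) (pt b D)) (F.f (Real.exp s • u) o) ≤ e + 1 := by
  obtain ⟨T1, a1, a2, a3⟩ := b_plane1 F s e _ h1
  obtain ⟨T2, b1, b2, b3⟩ := b_plane2 F s e _ D h2
  have c1 := b_plane3 F s e ε2 D hε0 hε1 (Real.exp 10) (Real.exp_pos _).le b1 b2 b3 q
  refine ⟨T1 ∪ toMeasurable volume {p : V × ℝ | p.1 ∈ box 40 ∧ p.2 ∈ Icc (-8) 8 ∧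
      e + 1 < gp q (F.f (Real.exp s • p.1) (pt p.2 D)) (F.f (Real.exp s • p.1) o)},
      a1.union (measurableSet_toMeasurable _ _), ?_, ?_⟩
  · refine (measure_union_le _ _).trans ?_
    rw [measure_toMeasurable]
    refine (add_le_add a2 c1).trans ?_
    have h0 := Real.exp_pos 10
    rw [← ENNReal.ofReal_add (by positivity) (by positivity)]
    refine ENNReal.ofReal_le_ofReal ?_
    have h4 : ε2 ^ 4 ≤ ε2 := by
      calc ε2 ^ 4 = ε2 * ε2 ^ 3 := by ring
        _ ≤ ε2 * 1 := mul_le_mul_of_nonneg_left (pow_le_one₀ hε0.le hε1) hε0.le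
        _ = ε2 := mul_one _
    nlinarith
  · intro u b hu hb hT
    rw [Set.mem_union, not_or] at hT
    refine ⟨a3 u b hu hb hT.1, ?_⟩
    by_contra h5
    exact hT.2 (subset_toMeasurable _ _ ⟨hu, hb, not_le.1 h5⟩)

/-- Typical pairs in a cone. -/
theorem b_pairs {T : Set (V × ℝ)} (hT : MeasurableSet T) {A : ℝ} (hA : 0 ≤ A)
    (hv : volume T ≤ ENNReal.ofReal A) {M : ℝ} (hM : 0 ≤ M) :
    ∃ P : Set (V × V), MeasurableSet P ∧ volume P ≤ ENNReal.ofReal (4 * M ^ 2 * A) ∧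
      ∀ u v : V, v.2 ≠ u.2 → |v.2 - u.2| ≤ M → (u, v) ∉ P →
        (u, slp (u, v)) ∉ T ∧ (v, slp (u, v)) ∉ T := by
  have h1 := cone_fst hT hM
  have h2 := cone_snd hT hM
  refine ⟨toMeasurable volume {p : V × V | p.2.2 ≠ p.1.2 ∧ |p.2.2 - p.1.2| ≤ M ∧
    (p.1, slp p) ∈ T} ∪ toMeasurable volume {p : V × V | p.2.2 ≠ p.1.2 ∧ |p.2.2 - p.1.2| ≤ M ∧
    (p.2, slp p) ∈ T}, (measurableSet_toMeasurable _ _).union (measurableSet_toMeasurable _ _),
    ?_, ?_⟩
  · refine (measure_union_le _ _).trans ?_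
    rw [measure_toMeasurable, measure_toMeasurable]
    have h3 : ENNReal.ofReal (2 * M ^ 2) * volume T ≤ ENNReal.ofReal (2 * M ^ 2 * A) := by
      rw [ENNReal.ofReal_mul (p := 2 * M ^ 2) (by positivity)]
      exact mul_le_mul_right hv _
    refine (add_le_add (h1.trans h3) (h2.trans h3)).trans ?_
    rw [← ENNReal.ofReal_add (by positivity) (by positivity)]
    exact ENNReal.ofReal_le_ofReal (by linarith)
  · intro u v huv hM' hP
    rw [Set.mem_union, not_or] at hP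
    constructor
    · intro h
      exact hP.1 (subset_toMeasurable _ _ ⟨huv, hM', h⟩)
    · intro h
      exact hP.2 (subset_toMeasurable _ _ ⟨huv, hM', h⟩)

/-- The sheets of a pair meet at depth `D`. -/
theorem b_meet {s : ℝ} {D : ℕ} (hD : s + 4 ≤ D) {u v : V} (huv : v.2 ≠ u.2)
    (hM : |v.2 - u.2| ≤ 40) :
    nm (pt (slp (u, v)) D) (Real.exp s • u - Real.exp s • v) ≤ 1 := by
  have h1 : v - u = (v.2 - u.2) • ev (slp (u, v)) := slp_spec (u, v) huv
  have h2 : Real.exp s • u - Real.exp s • v =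
      (-(Real.exp s * (v.2 - u.2))) • ev (slp (u, v)) := by
    rw [← smul_sub, ← neg_sub v u, h1, smul_neg, smul_smul]
    exact (neg_smul (Real.exp s * (v.2 - u.2)) (ev (slp (u, v)))).symm
  rw [h2, nm_pt_ev, abs_neg, abs_mul, abs_of_pos (Real.exp_pos s)]
  have h3 : Real.exp (-(D : ℝ)) ≤ Real.exp (-(s + 4)) := Real.exp_le_exp.2 (by linarith)
  have h4 : (40 : ℝ) ≤ Real.exp 4 := by
    have h5 : Real.exp 4 = Real.exp 1 ^ 4 := by
      rw [← Real.exp_nat_mul]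
      norm_num
    rw [h5]
    have h6 := Real.exp_one_gt_d9
    have h7 : (2.7 : ℝ) ^ 4 ≤ Real.exp 1 ^ 4 := pow_le_pow_left₀ (by norm_num) (by linarith) 4
    norm_num at h7
    linarith
  calc Real.exp s * |v.2 - u.2| * Real.exp (-(D : ℝ))
      ≤ Real.exp s * 40 * Real.exp (-(s + 4)) := by gcongr
    _ = 40 * Real.exp (-4) := by
        have : Real.exp (-(s + 4)) = Real.exp (-s) * Real.exp (-4) := by
          rw [← Real.exp_add]
          congr 1
          ring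
        rw [this, Real.exp_neg s]
        have := (Real.exp_pos s).ne'
        field_simp
    _ ≤ 1 := by
        rw [Real.exp_neg, ← div_eq_mul_inv, div_le_one (Real.exp_pos 4)]
        exact h4

/-- B4: the centre of a plane. -/
theorem b4_center {K : ℝ} (hK : 1 ≤ K) (F : QM K) (s e ε2 : ℝ) (D : ℕ) (hε0 : 0 < ε2)
    (hε1 : ε2 ≤ 1) (hD : s + 4 ≤ D) (hD' : (D : ℝ) ≤ s + 5)
    (h1 : volume {q : V × ℝ | q.1 ∈ box 8 ∧ q.2 ∈ Icc (-8) 8 ∧
      ¬ UnitP F (Real.exp (s + 5) • q.1) q.2 0 (s + 5) e} ≤ ENNReal.ofReal (ε2 ^ 4))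
    (h2 : volume {q : V × ℝ × ℝ | q.1 ∈ box 8 ∧ q.2.1 ∈ Icc (-8) 8 ∧ q.2.2 ∈ Icc (-8) 8 ∧
      e < gp (F.f (Real.exp (s + 5) • q.1) (pt q.2.1 D))
        (F.f (Real.exp (s + 5) • q.1) (pt q.2.2 D)) (F.f (Real.exp (s + 5) • q.1) o)} ≤
      ENNReal.ofReal (ε2 ^ 4)) :
    ∃ t : ℍ, volume {u : V | u ∈ box 8 ∧ 4 * e + 10 * K + 5 < rho (F.f (Real.exp s • u) o) t} ≤
      ENNReal.ofReal (6400 * (17 * Real.exp 10 + 6400) * ε2) := by
  obtain ⟨T, a1, a2, a3⟩ := b_bad F s e ε2 D hε0 hε1 h1 h2 o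
  have h0 := Real.exp_pos 10
  obtain ⟨P, p1, p2, p3⟩ := b_pairs a1 (by positivity) a2 (M := 40) (by norm_num)
  -- a good point far away
  have hsw : MeasurableSet {p : V × V | (p.2, p.1) ∈ P} :=
    (measurable_snd.prodMk measurable_fst) p1
  have hsv : volume {p : V × V | (p.2, p.1) ∈ P} = volume P :=
    (Measure.measurePreserving_swap (μ := (volume : Measure V))
      (ν := (volume : Measure V))).measure_preimage p1.nullMeasurableSet
  have m1 := markov_fubini hsw (ε := 1) (δ := 6400 * (17 * Real.exp 10 + 6400) * ε2)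
    (by positivity) zero_le_one (by
      rw [hsv, one_mul]
      refine p2.trans (ENNReal.ofReal_le_ofReal (le_of_eq ?_))
      ring)
  have hbox : volume {v : V | (0, -30) + v ∈ box 1} = ENNReal.ofReal 4 := by
    rw [shiftV_le, b_box 1 zero_le_one]
    norm_num
  obtain ⟨v, hv1, hv2⟩ : ∃ v : V, (0, -30) + v ∈ box 1 ∧
      volume {u : V | (u, v) ∈ P} ≤ ENNReal.ofReal (6400 * (17 * Real.exp 10 + 6400) * ε2) := by
    by_contra hn
    push Not at hn
    have h3 : volume {v : V | (0, -30) + v ∈ box 1} ≤ ENNReal.ofReal 1 :=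
      (measure_mono (fun v hv => hn v hv)).trans m1
    rw [hbox] at h3
    have := (ENNReal.ofReal_le_ofReal_iff zero_le_one).1 h3
    norm_num at this
  rw [mem_box, Prod.fst_add, Prod.snd_add, abs_le, abs_le] at hv1
  obtain ⟨⟨hv3, hv4⟩, hv5, hv6⟩ := hv1
  simp only at hv3 hv4 hv5 hv6
  refine ⟨F.f (Real.exp s • v) o, (measure_mono ?_).trans hv2⟩
  rintro u ⟨hu1, hu2⟩
  by_contra hP
  rw [mem_box, abs_le, abs_le] at hu1
  obtain ⟨⟨hu3, hu4⟩, hu5, hu6⟩ := hu1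
  have huv : v.2 ≠ u.2 := by
    intro h
    linarith
  have hM : |v.2 - u.2| ≤ 40 := by
    rw [abs_le]
    constructor <;> linarith
  obtain ⟨g1, g2⟩ := p3 u v huv hM hP
  have hu40 : u ∈ box 40 := by
    rw [mem_box, abs_le, abs_le]
    exact ⟨⟨by linarith, by linarith⟩, by linarith, by linarith⟩
  have hv40 : v ∈ box 40 := by
    rw [mem_box, abs_le, abs_le]
    exact ⟨⟨by linarith, by linarith⟩, by linarith, by linarith⟩
  have hb : |slp (u, v)| ≤ 1 := by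
    unfold slp
    rw [abs_div]
    have h5 : 0 < v.2 - u.2 := by linarith
    rw [abs_of_pos h5, div_le_one h5, abs_le]
    constructor <;> linarith
  have hb8 : slp (u, v) ∈ Icc (-8 : ℝ) 8 := by
    rw [abs_le] at hb
    exact ⟨by linarith [hb.1], by linarith [hb.2]⟩
  obtain ⟨u1, u2⟩ := a3 u _ hu40 hb8 g1
  obtain ⟨w1, w2⟩ := a3 v _ hv40 hb8 g2
  have h6 := B4_pos hK F hb hD' (b_meet hD huv hM) (u1.mono le_rfl (by linarith : e ≤ e + 1))
    (w1.mono le_rfl (by linarith : e ≤ e + 1)) u2 w2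
  linarith

end Pool.Agent.FIB
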