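import Pool.Agent.FIB.B4Ctr

/-!
# Part B, item B5: the vectors of two typical sheets of a plane
-/

set_option autoImplicit false

namespace Pool.Agent.FIB

open UpperHalfPlane MeasureTheory Set
open scoped MatrixGroups

/-- The last clause of `StB` for one pair. -/
def VGood {K : ℝ} (F : QM K) (s ε : ℝ) (t : ℍ) (u v : V) : Prop :=
  Real.exp ((1 - ε) * s) ≤ nm t (F.U (Real.exp s • u) o - F.U (Real.exp s • v) o) ∧
    nm t (F.U (Real.exp s • u) o - F.U (Real.exp s • v) o) ≤ Real.exp ((1 + ε) * s)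

theorem b_sep {s δ e : ℝ} {D : ℕ} (hD' : (D : ℝ) ≤ s + 5) {u v : V} (huv : v.2 ≠ u.2)
    (hδ : 0 < δ) (hM : δ ≤ |v.2 - u.2|) (he : 5 - Real.log δ ≤ e) (k : ℕ) :
    (k : ℝ) ≤ Real.log (1 + nm (pt (slp (u, v)) ((D : ℝ) - k))
      (Real.exp s • u - Real.exp s • v)) + e := by
  have h1 : v - u = (v.2 - u.2) • ev (slp (u, v)) := slp_spec (u, v) huv
  have h2 : Real.exp s • u - Real.exp s • v =
      (-(Real.exp s * (v.2 - u.2))) • ev (slp (u, v)) := by
    rw [← smul_sub, ← neg_sub v u, h1, smul_neg, smul_smul]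
    exact (neg_smul (Real.exp s * (v.2 - u.2)) (ev (slp (u, v)))).symm
  rw [h2, nm_pt_ev, abs_neg, abs_mul, abs_of_pos (Real.exp_pos s)]
  have h3 : δ * Real.exp (k - 5) ≤ Real.exp s * |v.2 - u.2| * Real.exp (-((D : ℝ) - k)) := by
    have h4 : Real.exp (k - 5) ≤ Real.exp s * Real.exp (-((D : ℝ) - k)) := by
      rw [← Real.exp_add]
      exact Real.exp_le_exp.2 (by linarith)
    calc δ * Real.exp (k - 5) ≤ |v.2 - u.2| * (Real.exp s * Real.exp (-((D : ℝ) - k))) :=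
          mul_le_mul hM h4 (Real.exp_pos _).le (abs_nonneg _)
      _ = Real.exp s * |v.2 - u.2| * Real.exp (-((D : ℝ) - k)) := by ring
  have h5 : Real.log (δ * Real.exp (k - 5)) = Real.log δ + (k - 5) := by
    rw [Real.log_mul hδ.ne' (Real.exp_pos _).ne', Real.log_exp]
  have h6 := Real.log_le_log (by positivity : 0 < δ * Real.exp ((k : ℝ) - 5))
    (by linarith : δ * Real.exp ((k : ℝ) - 5) ≤
      1 + Real.exp s * |v.2 - u.2| * Real.exp (-((D : ℝ) - k)))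
  rw [h5] at h6
  linarith

theorem b5_half (K : ℝ) (hK : 1 ≤ K) : ∃ C : ℝ, 1 ≤ C ∧
    ∀ (F : QM K) (s e e2 ε ε2 δ c1 : ℝ) (D : ℕ) (t : ℍ), 0 < ε2 → ε2 ≤ 1 → 0 < δ → 0 ≤ c1 →
      s + 4 ≤ D → (D : ℝ) ≤ s + 5 → e ≤ e2 → K ≤ e2 → Real.log (4 * D + 4) ≤ e2 →
      C * e2 ≤ D → 5 - Real.log δ ≤ e2 → C * e2 + 5 ≤ ε * s →
      volume {q : V × ℝ | q.1 ∈ box 8 ∧ q.2 ∈ Icc (-8) 8 ∧
        ¬ UnitP F (Real.exp (s + 5) • q.1) q.2 0 (s + 5) e} ≤ ENNReal.ofReal (ε2 ^ 4) →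
      volume {u : V | u ∈ box 8 ∧ e2 < rho (F.f (Real.exp s • u) o) t} ≤ ENNReal.ofReal c1 →
      volume {p : V × V | p.1 ∈ box 8 ∧ p.2 ∈ box 8 ∧ δ ≤ |p.2.2 - p.1.2| ∧
        |p.2.1 - p.1.1| ≤ |p.2.2 - p.1.2| ∧ ¬ VGood F s ε t p.1 p.2} ≤
        ENNReal.ofReal (1024 * (Real.exp 10 * ε2 + 2 * c1)) := by
  obtain ⟨C, hC, hdet⟩ := B5_det K hK
  refine ⟨C, hC, ?_⟩
  intro F s e e2 ε ε2 δ c1 D t hε0 hε1 hδ hc1 hD hD' hee2 hKe hlog hCD hsep hCs h1 ht
  obtain ⟨T1, a1, a2, a3⟩ := b_plane1 F s e _ h1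
  have h0 := Real.exp_pos 10
  set N := toMeasurable volume {u : V | u ∈ box 8 ∧ e2 < rho (F.f (Real.exp s • u) o) t} with hN
  have hNm : MeasurableSet N := measurableSet_toMeasurable _ _
  have hNv : volume N ≤ ENNReal.ofReal c1 := by
    rw [hN, measure_toMeasurable]
    exact ht
  have hTv : volume (T1 ∪ N ×ˢ Icc (-1 : ℝ) 1) ≤
      ENNReal.ofReal (Real.exp 10 * ε2 + 2 * c1) := by
    refine (measure_union_le _ _).trans ?_
    have b1 : volume (N ×ˢ Icc (-1 : ℝ) 1) ≤ ENNReal.ofReal (c1 * 2) := by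
      rw [Measure.volume_eq_prod, Measure.prod_prod, Real.volume_Icc, ENNReal.ofReal_mul hc1]
      have h3 : (1 : ℝ) - -1 = 2 := by norm_num
      rw [h3]
      exact mul_le_mul' hNv le_rfl
    refine (add_le_add a2 b1).trans ?_
    rw [← ENNReal.ofReal_add (by positivity) (by positivity)]
    refine ENNReal.ofReal_le_ofReal ?_
    have h4 : ε2 ^ 4 ≤ ε2 := by
      calc ε2 ^ 4 = ε2 * ε2 ^ 3 := by ring
        _ ≤ ε2 * 1 := mul_le_mul_of_nonneg_left (pow_le_one₀ hε0.le hε1) hε0.le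
        _ = ε2 := mul_one _
    nlinarith
  obtain ⟨P, p1, p2, p3⟩ := b_pairs (a1.union (hNm.prod measurableSet_Icc)) (by positivity) hTv
    (M := 16) (by norm_num)
  refine (measure_mono (t := P) ?_).trans (p2.trans (ENNReal.ofReal_le_ofReal (le_of_eq ?_)))
  swap
  · ring
  rintro ⟨u, v⟩ ⟨hu, hv, hd, hcone, hbad⟩
  simp only at hu hv hd hcone hbad
  by_contra hP
  apply hbad
  have hu' := hu
  have hv' := hv
  rw [mem_box, abs_le, abs_le] at hu hv
  obtain ⟨⟨hu3, hu4⟩, hu5, hu6⟩ := hu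
  obtain ⟨⟨hv3, hv4⟩, hv5, hv6⟩ := hv
  have hpos : 0 < |v.2 - u.2| := lt_of_lt_of_le hδ hd
  have huv : v.2 ≠ u.2 := sub_ne_zero.1 (abs_pos.1 hpos)
  have hM : |v.2 - u.2| ≤ 16 := by
    rw [abs_le]
    constructor <;> linarith
  obtain ⟨g1, g2⟩ := p3 u v huv hM hP
  have hb : |slp (u, v)| ≤ 1 := by
    unfold slp
    rw [abs_div, div_le_one hpos]
    exact hcone
  have hb1 : slp (u, v) ∈ Icc (-1 : ℝ) 1 := abs_le.1 hb
  have hb8 : slp (u, v) ∈ Icc (-8 : ℝ) 8 := ⟨by linarith [hb1.1], by linarith [hb1.2]⟩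
  have hu40 : u ∈ box 40 := by
    rw [mem_box, abs_le, abs_le]
    exact ⟨⟨by linarith, by linarith⟩, by linarith, by linarith⟩
  have hv40 : v ∈ box 40 := by
    rw [mem_box, abs_le, abs_le]
    exact ⟨⟨by linarith, by linarith⟩, by linarith, by linarith⟩
  rw [Set.mem_union, not_or, Set.mem_prod] at g1 g2
  have u1 := (a3 u _ hu40 hb8 g1.1).mono le_rfl hee2
  have v1 := (a3 v _ hv40 hb8 g2.1).mono le_rfl hee2
  have u2 : rho (F.f (Real.exp s • u) o) t ≤ e2 := by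
    by_contra h5
    exact g1.2 ⟨subset_toMeasurable _ _ ⟨hu', not_le.1 h5⟩, hb1⟩
  have v2 : rho (F.f (Real.exp s • v) o) t ≤ e2 := by
    by_contra h5
    exact g2.2 ⟨subset_toMeasurable _ _ ⟨hv', not_le.1 h5⟩, hb1⟩
  obtain ⟨r1, r2⟩ := hdet F (Real.exp s • u) (Real.exp s • v) (slp (u, v)) D (s + 5) e2 t hb hD'
    hKe hlog hCD (b_meet hD huv (by linarith)) (fun k _ => b_sep hD' huv hδ hd hsep k) u1 v1 u2 v2
  constructor
  · refine le_trans (Real.exp_le_exp.2 ?_) r1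
    linarith
  · refine le_trans r2 (Real.exp_le_exp.2 ?_)
    linarith

/-- The quarter turn on pairs. -/
theorem b_rot_pairs (S : Set (V × V)) (hS : MeasurableSet S) :
    volume {p : V × V | (act rot p.1, act rot p.2) ∈ S} = volume S := by
  have h1 : MeasurePreserving (act rot) (volume : Measure V) volume := by
    refine ⟨measurable_act rot, Measure.ext fun A hA => ?_⟩
    rw [Measure.map_apply (measurable_act rot) hA]
    have h2 := actV_le A rot 0
    simp only [zero_add] at h2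
    exact h2
  have h3 : MeasurePreserving (Prod.map (act rot) (act rot))
      ((volume : Measure V).prod (volume : Measure V))
      ((volume : Measure V).prod (volume : Measure V)) := h1.prod h1
  exact h3.measure_preimage hS.nullMeasurableSet

end Pool.Agent.FIB
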