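import Mathlib

/-!
# Part B: the choice of the offset, and of the constants

* `b_pig`: the pairs `(j0, k)`, `j0 < a`, `k < (n - j0) / a`, are mapped injectively by `j0 + k a` into `range n` (`j0 + (k+1) a ≤ n`;
  `j0 = (j0 + k a) % a`), so `Σ_{j0 < a} Σ_k c (j0 + k a) ≤ Σ_{j < n} c j` (`Finset.sum_sigma'`, `Finset.sum_le_sum_of_injOn`-style or
  `Finset.sum_fiberwise`); one of the `a` inner sums is at most the average: `Finset.exists_le_of_sum_le` or by
  contradiction, or take the minimum (`Finset.exists_min_image`): `a * min ≤ sum` (`Finset.card_nsmul_le_sum`).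
* `b_num`: choose `δ = τ / (256 * 8 * K * 8)` (or smaller, `≤ 1`), then `m0 ≥ 256 * 2 * (4K+1) * 8 / τ`, then `ε` so small that
  `256 (4 ε + 2K * 4 ε / δ²) + (3K + 4K/δ²) ε ≤ τ/4`; use `K a + K ≤ 2 K a`, `K a + K + a ≤ 3 K a`, `1 ≤ a / m0`.
-/

set_option autoImplicit false

namespace Pool.Agent.FIB

theorem b_pig (c : ℕ → ENNReal) (n a : ℕ) (ha : 0 < a) :
    ∃ j0, j0 < a ∧ (a : ENNReal) * ∑ k ∈ Finset.range ((n - j0) / a), c (j0 + k * a) ≤
      ∑ j ∈ Finset.range n, c j := by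
  classical
  set f : ℕ → ENNReal := fun j0 => ∑ k ∈ Finset.range ((n - j0) / a), c (j0 + k * a) with hf
  obtain ⟨j0, hj0, hmin⟩ := Finset.exists_min_image (Finset.range a) f ⟨0, Finset.mem_range.mpr ha⟩
  refine ⟨j0, Finset.mem_range.mp hj0, ?_⟩
  have h1 : (a : ENNReal) * f j0 ≤ ∑ j ∈ Finset.range a, f j := by
    have h := Finset.card_nsmul_le_sum (Finset.range a) f (f j0) (fun j hj => hmin j hj)
    rwa [Finset.card_range, nsmul_eq_mul] at h
  refine h1.trans ?_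
  have h2 : ∑ j ∈ Finset.range a, f j
      = ∑ x ∈ (Finset.range a).sigma (fun j => Finset.range ((n - j) / a)), c (x.1 + x.2 * a) := by
    rw [Finset.sum_sigma]
  rw [h2]
  have h3 : Set.InjOn (fun x : (Σ _ : ℕ, ℕ) => x.1 + x.2 * a)
      ((Finset.range a).sigma (fun j => Finset.range ((n - j) / a)) : Set (Σ _ : ℕ, ℕ)) := by
    rintro ⟨x1, x2⟩ hx ⟨y1, y2⟩ hy hxy
    simp only [Finset.coe_sigma, Set.mem_sigma_iff, Finset.mem_coe, Finset.mem_range] at hx hy
    simp only at hxy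
    have e1 : (x1 + x2 * a) % a = x1 := by
      rw [Nat.add_mul_mod_self_right, Nat.mod_eq_of_lt hx.1]
    have e2 : (y1 + y2 * a) % a = y1 := by
      rw [Nat.add_mul_mod_self_right, Nat.mod_eq_of_lt hy.1]
    have e3 : x1 = y1 := by rw [← e1, ← e2, hxy]
    subst e3
    have e4 : x2 * a = y2 * a := by omega
    have e5 : x2 = y2 := Nat.eq_of_mul_eq_mul_right ha e4
    subst e5
    rfl
  rw [← Finset.sum_image (f := c) h3]
  refine Finset.sum_le_sum_of_subset ?_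
  intro j hj
  rw [Finset.mem_image] at hj
  obtain ⟨⟨x1, x2⟩, hx, rfl⟩ := hj
  rw [Finset.mem_sigma, Finset.mem_range, Finset.mem_range] at hx
  rw [Finset.mem_range]
  have h4 : (x2 + 1) * a ≤ n - x1 := (Nat.le_div_iff_mul_le ha).mp hx.2
  have h5 : (x2 + 1) * a = x2 * a + a := by ring
  simp only
  omega

theorem b_num (K τ : ℝ) (hK : 1 ≤ K) (hτ : 0 < τ) :
    ∃ (δ ε : ℝ) (m0 : ℕ), 0 < δ ∧ 0 < ε ∧ 1 ≤ m0 ∧ ∀ a : ℕ, m0 ≤ a →
      256 * (2 * (ε * a) + 2 * (ε * a + 4 * K + 1) +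
          (K * a + K) * (4 * δ + 2 / δ ^ 2 * (2 * ε))) +
        ((K * a + K + a) + (K * a + K) * (2 / δ ^ 2)) * ε ≤ τ * a := by
  have hK0 : 0 < K := by linarith
  set δ : ℝ := τ / (8192 * K) with hδ
  have hδ0 : 0 < δ := by positivity
  set W : ℝ := 1 / δ ^ 2 with hW
  have hW0 : 0 < W := by positivity
  set ε : ℝ := (τ / 4) / (1024 + 3 * K + 2052 * K * W) with hε
  have hden : 0 < 1024 + 3 * K + 2052 * K * W := by positivity
  have hε0 : 0 < ε := by positivity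
  obtain ⟨m, hm⟩ := exists_nat_ge (10240 * K / τ)
  refine ⟨δ, ε, m + 1, hδ0, hε0, Nat.le_add_left 1 m, ?_⟩
  intro a ha
  have ha1 : (1 : ℝ) ≤ (a : ℝ) := by
    exact_mod_cast le_trans (Nat.le_add_left 1 m) ha
  have ham : (m : ℝ) ≤ (a : ℝ) := by
    exact_mod_cast le_trans (Nat.le_succ m) ha
  have h1 : 10240 * K ≤ τ * a := by
    have h := hm.trans ham
    rw [div_le_iff₀ hτ] at h
    linarith
  have h2 : 2048 * K * δ = τ / 4 := by
    rw [hδ]
    field_simp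
    norm_num
  have h3 : ε * (1024 + 3 * K + 2052 * K * W) = τ / 4 := by
    rw [hε]
    exact div_mul_cancel₀ _ hden.ne'
  have h4 : (2 : ℝ) / δ ^ 2 = 2 * W := by
    rw [hW]
    ring
  rw [h4]
  have hKa : K ≤ K * a := by nlinarith
  have h5 : (K * a + K) ≤ 2 * (K * a) := by linarith
  have h6 : (K * a + K + a) ≤ 3 * (K * a) := by nlinarith
  have h7 : (K * a + K) * (4 * δ + 2 * W * (2 * ε)) ≤ 2 * (K * a) * (4 * δ + 2 * W * (2 * ε)) :=
    mul_le_mul_of_nonneg_right h5 (by positivity)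
  have h8 : (K * a + K) * (2 * W) ≤ 2 * (K * a) * (2 * W) :=
    mul_le_mul_of_nonneg_right h5 (by positivity)
  have h9 : ((K * a + K + a) + (K * a + K) * (2 * W)) * ε ≤ (3 * (K * a) + 2 * (K * a) * (2 * W)) * ε :=
    mul_le_mul_of_nonneg_right (by linarith) hε0.le
  have h10 : 256 * (2 * (ε * a) + 2 * (ε * a + 4 * K + 1) + 2 * (K * a) * (4 * δ + 2 * W * (2 * ε))) +
      (3 * (K * a) + 2 * (K * a) * (2 * W)) * ε
      = a * (ε * (1024 + 3 * K + 2052 * K * W)) + a * (2048 * K * δ) + (2048 * K + 512) := by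
    ring
  calc 256 * (2 * (ε * a) + 2 * (ε * a + 4 * K + 1) + (K * a + K) * (4 * δ + 2 * W * (2 * ε))) +
        ((K * a + K + a) + (K * a + K) * (2 * W)) * ε
      ≤ 256 * (2 * (ε * a) + 2 * (ε * a + 4 * K + 1) + 2 * (K * a) * (4 * δ + 2 * W * (2 * ε))) +
        (3 * (K * a) + 2 * (K * a) * (2 * W)) * ε := by linarith
    _ = a * (ε * (1024 + 3 * K + 2052 * K * W)) + a * (2048 * K * δ) + (2048 * K + 512) := h10
    _ = a * (τ / 4) + a * (τ / 4) + (2048 * K + 512) := by rw [h2, h3]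
    _ ≤ τ * a := by nlinarith

end Pool.Agent.FIB
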