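import Pool.Agent.FIB.BStep
import Pool.Agent.FIB.BPig

/-!
# Part B: the telescoping estimate

`b_core`. Given `τ` take `δ, ε, m0` from `b_num`, `R, n00` from `StT` for `ε, m0`, `N = max R` (`R.sup id`, at least `1`), `n0 = max n00 (N + 1)`.
For `F, n` let `a ∈ R` be the scale of `StT`, `1 ≤ m0 ≤ a ≤ N`, `c j` the volume in `StT` for `j < n`, `j0` from `b_pig`, `m = (n - j0) / a`
(so `j0 + m a ≤ n < j0 + (m+1) a`, `Nat.div_add_mod`, `Nat.mod_lt`; `j0 < a ≤ N ≤ n`). With `w = e^n u` put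
`β k u = vol (Bd F (e^n • u) (j0 + k a) a ε)` (measurable in `u`: `b_Bdj_meas`, `measurable_measure_prodMk_left`),
`A = 2 (ε a) + 2 (ε a + 4K + 1) + (K a + K) (4δ + 2/δ² (2ε))`, `B = (K a + K + a) + (K a + K) (2/δ²)`,
`Y u = Σ_{k < m} (ofReal A + ofReal B * β k u)`.
* lengths: `lintegral_finset_sum` (measurable by `QM.meas`) and `b_len` with `j = j0 + k a`; `((j0 + (k+1) a : ℕ) : ℝ) = ((j0 + k a : ℕ) : ℝ) + a`.
* products: `b_step` with `e = ε a`, and `b_W_le`; `|b - b'| ≤ e^{-2(j0 + k a)}` implies `|b - b'| ≤ e^{-2 j0}`.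
* `∫⁻_{u ∈ box 8} β k u = volume {x : V × ℝ | x.1 ∈ box 8 ∧ x.2 ∈ Bd ..} ≤ c (j0 + k a)` (`Measure.prod_apply`; `[-1,1] ⊆ [-8,8]`), and
  `j0 + k a < n`; `vol (box 8) = 256`. So `∫⁻ Y ≤ m * 256 * ofReal A + ofReal B * Σ_k c (j0 + k a)`, and
  `a * ∫⁻ Y ≤ ofReal (n * 256 * A + B * ε * n) ≤ ofReal (a * τ * n)` (`a m ≤ n`, `b_pig`, `StT`, `b_num`); cancel `a`.
-/

set_option autoImplicit false

namespace Pool.Agent.FIB

open UpperHalfPlane MeasureTheory Set

private lemma BCore_meas1 {K : ℝ} (F : QM K) (w : V) (x y a : ℝ) :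
    Measurable fun b : ℝ => ENNReal.ofReal |rho (F.f w (pt b x)) (F.f w (pt b y)) - a| :=
  F.meas (ι := Bool) (fun _ _ => w) (fun i b => pt b (if i then x else y))
    (fun _ => measurable_const)
    (fun _ => measurable_pt' measurable_id measurable_const)
    (fun p => ENNReal.ofReal |rho (p true).2 (p false).2 - a|)

private lemma BCore_alg (p q r s t : ℝ) (hp : 0 ≤ p) (hq : 0 ≤ q) (hr : 0 ≤ r) (hs : 0 ≤ s)
    (ht : 0 ≤ t) (β : ENNReal) :
    ENNReal.ofReal p + ENNReal.ofReal q * (ENNReal.ofReal r + ENNReal.ofReal s *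
      (ENNReal.ofReal t + β)) =
    ENNReal.ofReal (p + q * (r + s * t)) + ENNReal.ofReal (q * s) * β := by
  rw [ENNReal.ofReal_add hp (by positivity), ENNReal.ofReal_mul hq, ENNReal.ofReal_mul hq,
    ENNReal.ofReal_add hr (by positivity), ENNReal.ofReal_mul hs]
  ring

private lemma BCore_box : volume (box 8) = 256 := by
  unfold box
  rw [Measure.volume_eq_prod, Measure.prod_prod, Real.volume_Icc, ← ENNReal.ofReal_mul (by norm_num)]
  norm_num

private lemma BCore_c {K : ℝ} (F : QM K) (n : ℕ) (j a : ℕ) (ε : ℝ) :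
    ∫⁻ u in box 8, volume (Bd F (Real.exp n • u) j a ε) ≤
      volume {q : V × ℝ | q.1 ∈ box 8 ∧ q.2 ∈ Icc (-8) 8 ∧
          ¬ (UnitP F (Real.exp n • q.1) q.2 j a (ε * a) ∧
            SpreadP F (Real.exp n • q.1) q.2 j a (ε * a) ε)} := by
  have hbox : MeasurableSet (box 8) := measurableSet_Icc.prod measurableSet_Icc
  have hS := b_Bdj_meas F (Real.exp n) j a ε
  have hS' : MeasurableSet {x : V × ℝ | x.1 ∈ box 8 ∧ x.2 ∈ Bd F (Real.exp n • x.1) j a ε} :=
    (measurable_fst hbox).inter hS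
  refine le_trans (le_of_eq ?_) (measure_mono (μ := volume)
    (s := {x : V × ℝ | x.1 ∈ box 8 ∧ x.2 ∈ Bd F (Real.exp n • x.1) j a ε}) ?_)
  · change _ = ((volume : Measure V).prod (volume : Measure ℝ)) _
    rw [Measure.prod_apply hS', ← lintegral_indicator hbox]
    apply lintegral_congr
    intro u
    by_cases hu : u ∈ box 8
    · rw [indicator_of_mem hu]
      congr 1
      ext b
      simp only [mem_preimage, mem_ofPred_eq, hu, true_and]
    · rw [indicator_of_notMem hu]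
      symm
      have : (Prod.mk u ⁻¹' {x : V × ℝ | x.1 ∈ box 8 ∧ x.2 ∈ Bd F (Real.exp n • x.1) j a ε}) =
          ∅ := by
        ext b
        simp only [mem_preimage, mem_ofPred_eq, hu, false_and, mem_empty_iff_false]
      rw [this, measure_empty]
  · rintro x ⟨h1, h2, h3⟩
    exact ⟨h1, ⟨by linarith [h2.1], by linarith [h2.2]⟩, h3⟩

theorem b_core (K : ℝ) (hK : 1 ≤ K) (hT : StT K) (τ : ℝ) (hτ : 0 < τ) :
    ∃ N n0 : ℕ, ∀ (F : QM K) (n : ℕ), n0 ≤ n → ∃ a j0 m : ℕ, 1 ≤ a ∧ a ≤ N ∧ j0 < a ∧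
      j0 + m * a ≤ n ∧ n < j0 + (m + 1) * a ∧
      ∃ Y : V → ENNReal, Measurable Y ∧ ∫⁻ u in box 8, Y u ≤ ENNReal.ofReal (τ * n) ∧
      ∀ u : V,
        (∫⁻ b in Icc (-1 : ℝ) 1, ∑ k ∈ Finset.range m, ENNReal.ofReal
          |rho (pj F (Real.exp n • u) j0 a k b) (pj F (Real.exp n • u) j0 a (k + 1) b) - a| ≤ Y u) ∧
        ∀ q : ℝ → ℍ,
          (∀ b b' : ℝ, |b - b'| ≤ Real.exp (-2 * (j0 : ℝ)) → rho (q b) (q b') ≤ 2 * K) →
          (∀ k, Measurable fun b => gp (q b) (pj F (Real.exp n • u) j0 a (k + 1) b)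
            (pj F (Real.exp n • u) j0 a k b)) →
          ∫⁻ b in Icc (-1 : ℝ) 1, ∑ k ∈ Finset.range m, ENNReal.ofReal
            (gp (q b) (pj F (Real.exp n • u) j0 a (k + 1) b) (pj F (Real.exp n • u) j0 a k b)) ≤
            Y u := by
  obtain ⟨δ, ε, m0, hδ, hε, hm0, hnum⟩ := b_num K τ hK hτ
  obtain ⟨R, n00, hR, hT'⟩ := hT ε hε m0
  refine ⟨max 1 (R.sup id), max n00 (max 1 (R.sup id) + 1), ?_⟩
  intro F n hn
  obtain ⟨a, haR, hsum⟩ := hT' F n ((le_max_left _ _).trans hn)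
  have ham0 := hR a haR
  have ha1 : 1 ≤ a := hm0.trans ham0
  have haN : a ≤ max 1 (R.sup id) := (Finset.le_sup (f := id) haR).trans (le_max_right _ _)
  have hNn : max 1 (R.sup id) + 1 ≤ n := (le_max_right _ _).trans hn
  obtain ⟨j0, hj0, hpig⟩ := b_pig (fun j : ℕ => volume {q : V × ℝ | q.1 ∈ box 8 ∧
    q.2 ∈ Icc (-8) 8 ∧ ¬ (UnitP F (Real.exp n • q.1) q.2 j a (ε * a) ∧
            SpreadP F (Real.exp n • q.1) q.2 j a (ε * a) ε)}) n a ha1
  obtain ⟨m, hm⟩ : ∃ m, m = (n - j0) / a := ⟨_, rfl⟩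
  rw [← hm] at hpig
  have hj0n : j0 ≤ n := by omega
  have h1 := Nat.div_add_mod (n - j0) a
  have h2 := Nat.mod_lt (n - j0) ha1
  rw [← hm] at h1
  have hma : m * a = a * m := mul_comm m a
  have hma1 : (m + 1) * a = a * m + a := by ring
  refine ⟨a, j0, m, ha1, haN, hj0, by omega, by omega, ?_⟩
  have hK0 : (0 : ℝ) ≤ K := by linarith
  have ha0 : (0 : ℝ) ≤ a := Nat.cast_nonneg a
  have haR1 : (1 : ℝ) ≤ a := by exact_mod_cast ha1
  obtain ⟨A1, hA1⟩ : ∃ A1, A1 = 2 * (ε * a) := ⟨_, rfl⟩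
  obtain ⟨A2, hA2⟩ : ∃ A2, A2 = 2 * (ε * a + 4 * K + 1) +
    (K * a + K) * (4 * δ + 2 / δ ^ 2 * (2 * ε)) := ⟨_, rfl⟩
  obtain ⟨B1, hB1⟩ : ∃ B1, B1 = K * a + K + a := ⟨_, rfl⟩
  obtain ⟨B2, hB2⟩ : ∃ B2, B2 = (K * a + K) * (2 / δ ^ 2) := ⟨_, rfl⟩
  have hA1' : 0 ≤ A1 := by rw [hA1]; positivity
  have hA2' : 0 ≤ A2 := by rw [hA2]; positivity
  have hB1' : 0 ≤ B1 := by rw [hB1]; positivity
  have hB2' : 0 ≤ B2 := by rw [hB2]; positivity
  have hnum' : 256 * (A1 + A2) + (B1 + B2) * ε ≤ τ * a := by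
    rw [hA1, hA2, hB1, hB2]
    have := hnum a ham0
    linarith
  have hmeas : ∀ k : ℕ, Measurable fun u : V =>
      volume (Bd F (Real.exp n • u) (j0 + k * a) a ε) := fun k =>
    measurable_measure_prodMk_left (b_Bdj_meas F (Real.exp n) (j0 + k * a) a ε)
  have hterm : ∀ k : ℕ, Measurable fun u : V => ENNReal.ofReal (A1 + A2) +
      ENNReal.ofReal (B1 + B2) * volume (Bd F (Real.exp n • u) (j0 + k * a) a ε) := fun k =>
    ((hmeas k).const_mul _).const_add _
  refine ⟨fun u => ∑ k ∈ Finset.range m, (ENNReal.ofReal (A1 + A2) + ENNReal.ofReal (B1 + B2) *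
    volume (Bd F (Real.exp n • u) (j0 + k * a) a ε)), ?_, ?_, ?_⟩
  · exact Finset.measurable_sum _ (fun k _ => hterm k)
  · have hint : ∫⁻ u in box 8, ∑ k ∈ Finset.range m, (ENNReal.ofReal (A1 + A2) +
        ENNReal.ofReal (B1 + B2) * volume (Bd F (Real.exp n • u) (j0 + k * a) a ε)) ≤
        m * (ENNReal.ofReal (A1 + A2) * 256) + ENNReal.ofReal (B1 + B2) *
          ∑ k ∈ Finset.range m, volume {q : V × ℝ | q.1 ∈ box 8 ∧
    q.2 ∈ Icc (-8) 8 ∧ ¬ (UnitP F (Real.exp n • q.1) q.2 (j0 + k * a : ℕ) a (ε * a) ∧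
            SpreadP F (Real.exp n • q.1) q.2 (j0 + k * a : ℕ) a (ε * a) ε)} := by
      rw [lintegral_finsetSum _ (fun k _ => hterm k)]
      have hk : ∀ k ∈ Finset.range m, ∫⁻ u in box 8, (ENNReal.ofReal (A1 + A2) +
          ENNReal.ofReal (B1 + B2) * volume (Bd F (Real.exp n • u) (j0 + k * a) a ε)) ≤
          ENNReal.ofReal (A1 + A2) * 256 + ENNReal.ofReal (B1 + B2) *
            volume {q : V × ℝ | q.1 ∈ box 8 ∧
    q.2 ∈ Icc (-8) 8 ∧ ¬ (UnitP F (Real.exp n • q.1) q.2 (j0 + k * a : ℕ) a (ε * a) ∧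
            SpreadP F (Real.exp n • q.1) q.2 (j0 + k * a : ℕ) a (ε * a) ε)} := by
        intro k _
        rw [lintegral_add_left measurable_const, lintegral_const, Measure.restrict_apply_univ,
          BCore_box, lintegral_const_mul _ (hmeas k)]
        gcongr
        exact BCore_c F n (j0 + k * a) a ε
      refine (Finset.sum_le_sum hk).trans (le_of_eq ?_)
      rw [Finset.sum_add_distrib, Finset.sum_const, Finset.card_range, nsmul_eq_mul,
        Finset.mul_sum]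
    have haE : (a : ENNReal) ≠ 0 := by
      rw [Nat.cast_ne_zero]
      omega
    have haT : (a : ENNReal) ≠ ⊤ := ENNReal.natCast_ne_top a
    refine hint.trans ?_
    rw [← ENNReal.mul_le_mul_iff_right haE haT, mul_add]
    have e1 : (a : ENNReal) * (ENNReal.ofReal (B1 + B2) *
        ∑ k ∈ Finset.range m, volume {q : V × ℝ | q.1 ∈ box 8 ∧
    q.2 ∈ Icc (-8) 8 ∧ ¬ (UnitP F (Real.exp n • q.1) q.2 (j0 + k * a : ℕ) a (ε * a) ∧
            SpreadP F (Real.exp n • q.1) q.2 (j0 + k * a : ℕ) a (ε * a) ε)}) ≤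
        ENNReal.ofReal ((B1 + B2) * (ε * n)) := by
      rw [ENNReal.ofReal_mul (by positivity), mul_left_comm]
      gcongr
      exact hpig.trans hsum
    have e2 : (a : ENNReal) * (m * (ENNReal.ofReal (A1 + A2) * 256)) ≤
        ENNReal.ofReal (n * ((A1 + A2) * 256)) := by
      rw [ENNReal.ofReal_mul (by positivity), ENNReal.ofReal_natCast, ← mul_assoc,
        ENNReal.ofReal_mul (by positivity), ENNReal.ofReal_ofNat]
      gcongr
      have : a * m ≤ n := by omega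
      exact_mod_cast this
    refine (add_le_add e2 e1).trans ?_
    rw [← ENNReal.ofReal_natCast a, ← ENNReal.ofReal_mul ha0,
      ← ENNReal.ofReal_add (by positivity) (by positivity)]
    apply ENNReal.ofReal_le_ofReal
    have hn0 : (0 : ℝ) ≤ n := Nat.cast_nonneg n
    have := mul_le_mul_of_nonneg_left hnum' hn0
    linarith
  · intro u
    have hstep : ∀ k : ℕ, ((j0 + (k + 1) * a : ℕ) : ℝ) = ((j0 + k * a : ℕ) : ℝ) + a := by
      intro k
      push_cast
      ring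
    constructor
    · simp only [pj]
      rw [lintegral_finsetSum _ (fun k _ => BCore_meas1 F _ _ _ _)]
      refine Finset.sum_le_sum (fun k _ => ?_)
      rw [hstep k]
      refine (b_len hK F (Real.exp n • u) (j0 + k * a) a hε.le).trans ?_
      rw [← hA1, ← hB1]
      exact add_le_add (ENNReal.ofReal_le_ofReal (by linarith))
        (mul_le_mul' (ENNReal.ofReal_le_ofReal (by linarith)) le_rfl)
    · intro q hq hqm
      rw [lintegral_finsetSum _ (fun k _ => (hqm k).ennreal_ofReal)]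
      refine Finset.sum_le_sum (fun k _ => ?_)
      have hjk : (j0 : ℝ) ≤ ((j0 + k * a : ℕ) : ℝ) := by
        exact_mod_cast Nat.le_add_right j0 (k * a)
      have hqm' := hqm k
      simp only [pj] at hqm' ⊢
      rw [hstep k] at hqm' ⊢
      refine (b_step hK F (Real.exp n • u) ((j0 + k * a : ℕ) : ℝ) a (ε * a) δ (Nat.cast_nonneg _)
        ha0 (by positivity) hδ q (fun b b' hb => hq b b' (hb.trans (Real.exp_le_exp.2
          (by linarith)))) hqm').trans ?_
      have hW := b_W_le F (Real.exp n • u) (j0 + k * a) a hε.le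
      have h3 : ENNReal.ofReal (2 * (ε * a + 4 * K + 1)) + ENNReal.ofReal (K * a + K) *
          (ENNReal.ofReal (4 * δ) + ENNReal.ofReal (2 / δ ^ 2) *
            volume (Wd F (Real.exp n • u) ((j0 + k * a : ℕ) : ℝ) a (ε * a))) ≤
          ENNReal.ofReal (2 * (ε * a + 4 * K + 1)) + ENNReal.ofReal (K * a + K) *
          (ENNReal.ofReal (4 * δ) + ENNReal.ofReal (2 / δ ^ 2) *
            (ENNReal.ofReal (2 * ε) + volume (Bd F (Real.exp n • u) (j0 + k * a) a ε))) := by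
        gcongr
      refine h3.trans ?_
      rw [BCore_alg _ _ _ _ _ (by positivity) (by positivity) (by positivity) (by positivity)
        (by positivity), ← hA2, ← hB2]
      exact add_le_add (ENNReal.ofReal_le_ofReal (by linarith))
        (mul_le_mul' (ENNReal.ofReal_le_ofReal (by linarith)) le_rfl)

end Pool.Agent.FIB
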