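import Pool.Agent.FIB.Iface
import Pool.Agent.FIB.Tel

/-!
# Part B: definitions  (COMPLETE FILE)

`StT K → StB2 K` (modules `BZ, BStep, BPig, BNum, BCore, BUnit, BPair`), `StB2 K → StB0 K` (`BEnl`),
`StB0 K → StB K` (B4, B5).
-/

set_option autoImplicit false

namespace Pool.Agent.FIB

open UpperHalfPlane MeasureTheory Set

/-- Typical sheets of a plane have unit speed and spread directions (all directions in `[-8, 8]`). -/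
def StB0 (K : ℝ) : Prop :=
  ∀ ε : ℝ, 0 < ε → ∃ s0 : ℝ, 0 < s0 ∧ ∀ (F : QM K) (s : ℝ), s0 ≤ s →
    volume {q : V × ℝ | q.1 ∈ box 8 ∧ q.2 ∈ Icc (-8) 8 ∧
      ¬ UnitP F (Real.exp s • q.1) q.2 0 s (ε * s)} ≤ ENNReal.ofReal ε ∧
    ∀ L : ℝ, 0 ≤ L → L ≤ s →
      volume {q : V × ℝ × ℝ | q.1 ∈ box 8 ∧ q.2.1 ∈ Icc (-8) 8 ∧ q.2.2 ∈ Icc (-8) 8 ∧
        ε * s < gp (F.f (Real.exp s • q.1) (pt q.2.1 L)) (F.f (Real.exp s • q.1) (pt q.2.2 L))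
          (F.f (Real.exp s • q.1) o)} ≤ ENNReal.ofReal ε

/-- The same for natural sizes and depths, directions in `[-1, 1]`. -/
def StB2 (K : ℝ) : Prop :=
  ∀ ε : ℝ, 0 < ε → ∃ n0 : ℕ, 0 < n0 ∧ ∀ (F : QM K) (n : ℕ), n0 ≤ n →
    volume {q : V × ℝ | q.1 ∈ box 8 ∧ q.2 ∈ Icc (-1) 1 ∧
      ¬ UnitP F (Real.exp n • q.1) q.2 0 n (ε * n)} ≤ ENNReal.ofReal ε ∧
    ∀ l : ℕ, l ≤ n →
      volume {q : V × ℝ × ℝ | q.1 ∈ box 8 ∧ q.2.1 ∈ Icc (-1) 1 ∧ q.2.2 ∈ Icc (-1) 1 ∧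
        ε * n < gp (F.f (Real.exp n • q.1) (pt q.2.1 l)) (F.f (Real.exp n • q.1) (pt q.2.2 l))
          (F.f (Real.exp n • q.1) o)} ≤ ENNReal.ofReal ε

/-- The pairs (direction `b`, shift `κ`) for which the directions `b` and `b + κ e^{-2j}` are not spread. -/
def Wd {K : ℝ} (F : QM K) (w : V) (j a e : ℝ) : Set (ℝ × ℝ) :=
  {x | x.1 ∈ Icc (-1) 1 ∧ x.2 ∈ Icc 0 1 ∧
    e < gp (F.f w (pt x.1 (j + a))) (F.f w (pt (x.1 + x.2 * Real.exp (-2 * j)) (j + a)))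
      (F.f w (pt x.1 j))}

/-- The image of the sheet `w` in the direction `b` at the depth `j0 + k a`. -/
noncomputable def pj {K : ℝ} (F : QM K) (w : V) (j0 a k : ℕ) (b : ℝ) : ℍ :=
  F.f w (pt b ((j0 + k * a : ℕ) : ℝ))

/-- The bad set of a window in `StT`, for one sheet, directions in `[-1, 1]`. -/
def Bd {K : ℝ} (F : QM K) (w : V) (j a : ℕ) (ε : ℝ) : Set ℝ :=
  {b | b ∈ Icc (-1) 1 ∧ ¬ (UnitP F w b j a (ε * a) ∧ SpreadP F w b j a (ε * a) ε)}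

end Pool.Agent.FIB
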