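import Pool.Agent.FIB.BDefs

/-!
# Part B: from natural sizes and depths, directions in `[-1, 1]`, to the general case

`F' = F.tr 0 (fr 0 (-2))`, `n = ⌈s⌉₊ + 2`; `F.f (e^s u) (pt b j) = F'.f (e^n u') (pt κ (j + 2))` with
`u' = (e^{s-n-2} u.1, e^{s-n+2} u.2)`, `κ = e^{-4} b`.
-/

set_option autoImplicit false

namespace Pool.Agent.FIB

open UpperHalfPlane MeasureTheory Set

/-- The linear change of variables of `V × ℝ`. -/
private theorem BEnl_vol2 (S : Set (V × ℝ)) {a c d : ℝ} (ha : a ≠ 0) (hc : c ≠ 0) (hd : d ≠ 0) :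
    volume {q : V × ℝ | ((((a * q.1.1, c * q.1.2) : V), d * q.2) : V × ℝ) ∈ S} =
      ENNReal.ofReal |(a * c * d)⁻¹| * volume S := by
  set L : (V × ℝ) →ₗ[ℝ] (V × ℝ) :=
    (((a • LinearMap.id : ℝ →ₗ[ℝ] ℝ).prodMap (c • LinearMap.id : ℝ →ₗ[ℝ] ℝ)).prodMap
      (d • LinearMap.id : ℝ →ₗ[ℝ] ℝ)) with hL
  have hdet : LinearMap.det L = a * c * d := by
    rw [hL, LinearMap.det_prodMap, LinearMap.det_prodMap]
    simp
  have : (volume : Measure (V × ℝ)).IsAddHaarMeasure :=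
    inferInstanceAs (((volume : Measure V).prod (volume : Measure ℝ)).IsAddHaarMeasure)
  have h1 := Measure.addHaar_preimage_linearMap (volume : Measure (V × ℝ)) (f := L)
    (by rw [hdet]; exact mul_ne_zero (mul_ne_zero ha hc) hd) S
  rw [hdet] at h1
  rw [← h1]
  rfl

/-- The linear change of variables of `V × ℝ × ℝ`. -/
private theorem BEnl_vol3 (S : Set (V × ℝ × ℝ)) {a c d : ℝ} (ha : a ≠ 0) (hc : c ≠ 0)
    (hd : d ≠ 0) :
    volume {q : V × ℝ × ℝ | ((((a * q.1.1, c * q.1.2) : V), d * q.2.1, d * q.2.2) :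
      V × ℝ × ℝ) ∈ S} = ENNReal.ofReal |(a * c * (d * d))⁻¹| * volume S := by
  set L : (V × ℝ × ℝ) →ₗ[ℝ] (V × ℝ × ℝ) :=
    (((a • LinearMap.id : ℝ →ₗ[ℝ] ℝ).prodMap (c • LinearMap.id : ℝ →ₗ[ℝ] ℝ)).prodMap
      ((d • LinearMap.id : ℝ →ₗ[ℝ] ℝ).prodMap (d • LinearMap.id : ℝ →ₗ[ℝ] ℝ))) with hL
  have hdet : LinearMap.det L = a * c * (d * d) := by
    rw [hL, LinearMap.det_prodMap, LinearMap.det_prodMap, LinearMap.det_prodMap]
    simp
  have : (volume : Measure (V × ℝ × ℝ)).IsAddHaarMeasure :=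
    inferInstanceAs (((volume : Measure V).prod (volume : Measure (ℝ × ℝ))).IsAddHaarMeasure)
  have h1 := Measure.addHaar_preimage_linearMap (volume : Measure (V × ℝ × ℝ)) (f := L)
    (by rw [hdet]; exact mul_ne_zero (mul_ne_zero ha hc) (mul_ne_zero hd hd)) S
  rw [hdet] at h1
  rw [← h1]
  rfl

/-- The transformed plane. -/
private noncomputable def Ftr {K : ℝ} (F : QM K) : QM K := F.tr 0 (fr 0 (-2))

private theorem BEnl_f {K : ℝ} (F : QM K) (s n : ℝ) (u : V) (b j : ℝ) :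
    F.f (Real.exp s • u) (pt b j) = (Ftr F).f (Real.exp n •
      ((Real.exp (s - n - 2) * u.1, Real.exp (s - n + 2) * u.2) : V))
        (pt (Real.exp (-4) * b) (j + 2)) := by
  unfold Ftr
  rw [QM.tr_f, fr_smul, act_fr]
  have h1 : (0 : V) + (Real.exp (-(-2 : ℝ)) * (Real.exp n •
      ((Real.exp (s - n - 2) * u.1, Real.exp (s - n + 2) * u.2) : V)).1 +
        0 * Real.exp (-2) * (Real.exp n •
      ((Real.exp (s - n - 2) * u.1, Real.exp (s - n + 2) * u.2) : V)).2,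
        Real.exp (-2) * (Real.exp n •
      ((Real.exp (s - n - 2) * u.1, Real.exp (s - n + 2) * u.2) : V)).2) = Real.exp s • u := by
    have e1 : Real.exp (-(-2 : ℝ)) * (Real.exp n * (Real.exp (s - n - 2) * u.1)) =
        Real.exp s * u.1 := by
      rw [← mul_assoc, ← mul_assoc, ← Real.exp_add, ← Real.exp_add]
      congr 2
      ring
    have e2 : Real.exp (-2 : ℝ) * (Real.exp n * (Real.exp (s - n + 2) * u.2)) =
        Real.exp s * u.2 := by
      rw [← mul_assoc, ← mul_assoc, ← Real.exp_add, ← Real.exp_add]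
      congr 2
      ring
    refine Prod.ext ?_ ?_
    · simp only [Prod.fst_add, Prod.fst_zero, Prod.smul_fst, Prod.smul_snd, smul_eq_mul]
      rw [zero_add, zero_mul, zero_mul, add_zero, e1]
    · simp only [Prod.snd_add, Prod.snd_zero, Prod.smul_snd, smul_eq_mul]
      rw [zero_add, e2]
  rw [h1]
  have h2 : (0 : ℝ) + Real.exp (-4) * b * Real.exp (-2 * -2) = b := by
    have e3 : Real.exp (-4) * b * Real.exp (-2 * -2) = b * (Real.exp (-4) * Real.exp (-2 * -2)) := by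
      ring
    rw [zero_add, e3, ← Real.exp_add]
    norm_num
  have h3 : (-2 : ℝ) + (j + 2) = j := by ring
  rw [h2, h3]

private theorem BEnl_o {K : ℝ} (F : QM K) (s n : ℝ) (u : V) :
    rho (F.f (Real.exp s • u) o) ((Ftr F).f (Real.exp n •
      ((Real.exp (s - n - 2) * u.1, Real.exp (s - n + 2) * u.2) : V)) o) ≤ 3 * K := by
  have h1 := BEnl_f F s n u 0 (-2)
  have h2 : pt (Real.exp (-4) * 0) (-2 + 2) = o := by
    unfold o
    norm_num
  rw [h2] at h1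
  rw [← h1]
  have h3 := F.f_vert (Real.exp s • u) 0 0 (-2)
  have h4 : |(0 : ℝ) - -2| = 2 := by norm_num
  rw [h4] at h3
  change rho (F.f (Real.exp s • u) (pt 0 0)) _ ≤ _
  linarith

private theorem BEnl_box {s n : ℝ} (h : s + 2 ≤ n) {u : V} (hu : u ∈ box 8) :
    ((Real.exp (s - n - 2) * u.1, Real.exp (s - n + 2) * u.2) : V) ∈ box 8 := by
  obtain ⟨⟨h1, h2⟩, h3, h4⟩ := hu
  have a1 := Real.exp_pos (s - n - 2)
  have a2 := Real.exp_pos (s - n + 2)
  have a3 : Real.exp (s - n - 2) ≤ 1 := by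
    rw [← Real.exp_zero]
    exact Real.exp_le_exp.2 (by linarith)
  have a4 : Real.exp (s - n + 2) ≤ 1 := by
    rw [← Real.exp_zero]
    exact Real.exp_le_exp.2 (by linarith)
  refine ⟨⟨?_, ?_⟩, ?_, ?_⟩
  · change -8 ≤ Real.exp (s - n - 2) * u.1
    nlinarith
  · change Real.exp (s - n - 2) * u.1 ≤ 8
    nlinarith
  · change -8 ≤ Real.exp (s - n + 2) * u.2
    nlinarith
  · change Real.exp (s - n + 2) * u.2 ≤ 8
    nlinarith

private theorem BEnl_e4 : Real.exp (-4) ≤ 1 / 8 := by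
  have h1 : Real.exp (-4) = (Real.exp 1 ^ 4)⁻¹ := by
    rw [← Real.exp_nat_mul, ← Real.exp_neg]
    norm_num
  rw [h1, one_div]
  have h2 : (2 : ℝ) ≤ Real.exp 1 := by
    have := Real.add_one_le_exp (1 : ℝ)
    linarith
  have h3 : (2 : ℝ) ^ 4 ≤ Real.exp 1 ^ 4 := by gcongr
  refine inv_anti₀ (by norm_num) ?_
  linarith

private theorem BEnl_dir {b : ℝ} (hb : b ∈ Icc (-8 : ℝ) 8) :
    Real.exp (-4) * b ∈ Icc (-1 : ℝ) 1 := by
  have h1 := BEnl_e4
  have h2 := Real.exp_pos (-4)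
  obtain ⟨h3, h4⟩ := hb
  constructor <;> nlinarith

private theorem BEnl_unit {K : ℝ} (F : QM K) {s n : ℝ} (hn : s + 2 ≤ n) (u : V) (b : ℝ)
    {e e' : ℝ} (he : e ≤ e')
    (h : UnitP (Ftr F) (Real.exp n •
      ((Real.exp (s - n - 2) * u.1, Real.exp (s - n + 2) * u.2) : V)) (Real.exp (-4) * b) 0 n e) :
    UnitP F (Real.exp s • u) b 0 s e' := by
  intro i i' hi hi'
  have h1 := h (i + 2) (i' + 2) (by push_cast; linarith) (by push_cast; linarith)
  have h2 : (0 : ℝ) + ((i + 2 : ℕ) : ℝ) = (0 + (i : ℝ)) + 2 := by push_cast; ring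
  have h3 : (0 : ℝ) + ((i' + 2 : ℕ) : ℝ) = (0 + (i' : ℝ)) + 2 := by push_cast; ring
  rw [h2, h3, ← BEnl_f, ← BEnl_f] at h1
  have h4 : ((i + 2 : ℕ) : ℝ) - ((i' + 2 : ℕ) : ℝ) = (i : ℝ) - i' := by push_cast; ring
  rw [h4] at h1
  exact h1.trans he

private theorem BEnl_const {s n : ℝ} (h : n ≤ s + 3) :
    |(Real.exp (s - n - 2) * Real.exp (s - n + 2) * Real.exp (-4))⁻¹| ≤ Real.exp 14 ∧
    |(Real.exp (s - n - 2) * Real.exp (s - n + 2) * (Real.exp (-4) * Real.exp (-4)))⁻¹| ≤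
      Real.exp 14 := by
  constructor
  · rw [← Real.exp_add, ← Real.exp_add, ← Real.exp_neg, abs_of_pos (Real.exp_pos _)]
    exact Real.exp_le_exp.2 (by linarith)
  · rw [← Real.exp_add, ← Real.exp_add, ← Real.exp_add, ← Real.exp_neg,
      abs_of_pos (Real.exp_pos _)]
    exact Real.exp_le_exp.2 (by linarith)

private theorem BEnl_eps {c ε : ℝ} (hε : 0 < ε) (hc : c ≤ Real.exp 14) {v : ENNReal}
    (hv : v ≤ ENNReal.ofReal (ε * Real.exp (-14) / 8)) :
    ENNReal.ofReal c * v ≤ ENNReal.ofReal ε := by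
  refine (mul_le_mul' (ENNReal.ofReal_le_ofReal hc) hv).trans ?_
  rw [← ENNReal.ofReal_mul (Real.exp_pos _).le]
  refine ENNReal.ofReal_le_ofReal ?_
  have h1 : Real.exp 14 * (ε * Real.exp (-14) / 8) = ε / 8 * (Real.exp 14 * Real.exp (-14)) := by
    ring
  rw [h1, ← Real.exp_add]
  norm_num
  linarith

private theorem BEnl_gp {K : ℝ} (x x' y y' t t' : ℍ) (h1 : rho x x' ≤ 2 * K)
    (h2 : rho y y' ≤ 2 * K) (h3 : rho t t' ≤ 3 * K) : gp x y t ≤ gp x' y' t' + 7 * K := by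
  have b1 := gp_change x x' y t
  have b2 := gp_change y y' x' t
  have b3 := gp_change_base x' y' t t'
  rw [gp_comm y x', gp_comm y' x'] at b2
  linarith

theorem b_enl (K : ℝ) (hK : 1 ≤ K) : StB2 K → StB0 K := by
  intro h ε hε
  obtain ⟨n0, hn0, h⟩ := h (ε * Real.exp (-14) / 8)
    (div_pos (mul_pos hε (Real.exp_pos _)) (by norm_num))
  have hK0 : 0 ≤ 14 * K / ε := div_nonneg (by linarith) hε.le
  have hn0' : (0 : ℝ) ≤ n0 := Nat.cast_nonneg n0
  refine ⟨(n0 : ℝ) + 1 + 14 * K / ε, by linarith, ?_⟩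
  intro F s hs
  have hs1 : 1 ≤ s := by linarith
  have hs2 : 14 * K ≤ ε * s := by
    have h1 : 14 * K / ε ≤ s := by linarith
    rw [div_le_iff₀ hε] at h1
    linarith
  obtain ⟨n, hn⟩ : ∃ n : ℕ, n = ⌈s⌉₊ + 2 := ⟨_, rfl⟩
  have hn1 : s + 2 ≤ (n : ℝ) := by
    rw [hn]
    push_cast
    linarith [Nat.le_ceil s]
  have hn2 : (n : ℝ) ≤ s + 3 := by
    rw [hn]
    push_cast
    linarith [Nat.ceil_lt_add_one (by linarith : (0 : ℝ) ≤ s)]
  have hn3 : n0 ≤ n := by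
    have : (n0 : ℝ) ≤ n := by linarith
    exact_mod_cast this
  have hen : Real.exp (-14) ≤ 1 := by
    rw [← Real.exp_zero]
    exact Real.exp_le_exp.2 (by norm_num)
  have hen' : ε * Real.exp (-14) / 8 * n ≤ ε * s / 2 := by
    have h1 : (n : ℝ) ≤ 4 * s := by linarith
    have h2 : ε * Real.exp (-14) / 8 * n ≤ ε * 1 / 8 * (4 * s) := by
      gcongr
    linarith
  have hes : 0 < ε * s := mul_pos hε (by linarith)
  obtain ⟨hA, hB⟩ := h (Ftr F) n hn3
  have c1 := (Real.exp_pos (s - n - 2)).ne'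
  have c2 := (Real.exp_pos (s - n + 2)).ne'
  have c3 := (Real.exp_pos (-4)).ne'
  obtain ⟨hc1, hc2⟩ := BEnl_const hn2
  constructor
  · refine (measure_mono ?_).trans ((BEnl_vol2 _ c1 c2 c3).le.trans
      (BEnl_eps hε hc1 hA))
    rintro q ⟨hq1, hq2, hq3⟩
    refine ⟨BEnl_box hn1 hq1, BEnl_dir hq2, ?_⟩
    intro hu
    exact hq3 (BEnl_unit F hn1 q.1 q.2 (by linarith) hu)
  · intro L hL0 hLs
    have hl : ⌊L⌋₊ + 2 ≤ n := by
      rw [hn]
      have := (Nat.floor_le_floor hLs).trans (Nat.floor_le_ceil s)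
      omega
    refine (measure_mono ?_).trans ((BEnl_vol3 _ c1 c2 c3).le.trans
      (BEnl_eps hε hc2 (hB (⌊L⌋₊ + 2) hl)))
    rintro q ⟨hq1, hq2, hq3, hq4⟩
    refine ⟨BEnl_box hn1 hq1, BEnl_dir hq2, BEnl_dir hq3, ?_⟩
    have hfl : |L - (⌊L⌋₊ : ℝ)| ≤ 1 := by
      rw [abs_le]
      constructor
      · linarith [Nat.floor_le hL0]
      · linarith [(Nat.lt_floor_add_one L).le]
    have hc : (((⌊L⌋₊ + 2 : ℕ)) : ℝ) = (⌊L⌋₊ : ℝ) + 2 := by push_cast; ring
    have a1 : ∀ b : ℝ, rho (F.f (Real.exp s • q.1) (pt b L))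
        ((Ftr F).f (Real.exp (n : ℝ) • ((Real.exp (s - n - 2) * q.1.1,
          Real.exp (s - n + 2) * q.1.2) : V)) (pt (Real.exp (-4) * b) ((⌊L⌋₊ + 2 : ℕ) : ℝ))) ≤
        2 * K := by
      intro b
      rw [hc, ← BEnl_f]
      have := F.f_vert (Real.exp s • q.1) b L (⌊L⌋₊ : ℝ)
      nlinarith
    have a2 := BEnl_o F s n q.1
    have a3 := a1 q.2.1
    have a4 := a1 q.2.2
    have b1 := BEnl_gp _ _ _ _ _ _ a3 a4 a2
    change ε * s < _ at hq4
    change ε * Real.exp (-14) / 8 * n < _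
    linarith

end Pool.Agent.FIB
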