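import Pool.Agent.FIB.BDefs

/-!
# Part B: measurability

The condition on the value of `gp` is one on three values of `F` (`QM.measSet` with `ι = Fin 3`, or `QM.meas`), with
measurable parameters (`measurable_pt'`). `UnitP .. a ..` is a countable intersection over `i, i'` of such conditions
(`i, i' ≤ a`); `SpreadP` says that the measurable function `(u,b) ↦ vol {κ | ..}` (`measurable_measure_prodMk_left` for a
measurable subset of `(V × ℝ) × ℝ`) is `≤ ofReal ε`. `b_W_meas`, `b_Bd_meas` are the sections of the joint versions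
(or proved in the same way).
-/

set_option autoImplicit false

namespace Pool.Agent.FIB

open UpperHalfPlane MeasureTheory Set

variable {K : ℝ}

/-- The condition `e < gp` on three values of `F` with measurable parameters is measurable. -/
theorem b_gp_meas (F : QM K) {Ω : Type*} [MeasurableSpace Ω] {w : Ω → V} (hw : Measurable w)
    {b₁ b₂ b₃ : Ω → ℝ} (h₁ : Measurable b₁) (h₂ : Measurable b₂) (h₃ : Measurable b₃)
    (j₁ j₂ j₃ e : ℝ) :
    MeasurableSet {ω | e < gp (F.f (w ω) (pt (b₁ ω) j₁)) (F.f (w ω) (pt (b₂ ω) j₂))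
      (F.f (w ω) (pt (b₃ ω) j₃))} := by
  have h := F.measSet (Ω := Ω) (ι := Fin 3) (fun _ => w)
    ![fun ω => pt (b₁ ω) j₁, fun ω => pt (b₂ ω) j₂, fun ω => pt (b₃ ω) j₃]
    (fun _ => hw)
    (by
      intro i
      fin_cases i
      · exact measurable_pt' h₁ measurable_const
      · exact measurable_pt' h₂ measurable_const
      · exact measurable_pt' h₃ measurable_const)
    (fun v => e < gp (v 0).2 (v 1).2 (v 2).2)
  exact h

/-- The condition of unit speed is measurable. -/
theorem b_unit_meas (F : QM K) {Ω : Type*} [MeasurableSpace Ω] {w : Ω → V} (hw : Measurable w)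
    {b : Ω → ℝ} (hb : Measurable b) (j s e : ℝ) :
    MeasurableSet {ω | UnitP F (w ω) (b ω) j s e} := by
  have h1 : {ω | UnitP F (w ω) (b ω) j s e} =
      ⋂ (i : ℕ) (i' : ℕ), {ω | (i : ℝ) ≤ s → (i' : ℝ) ≤ s →
        abs (rho (F.f (w ω) (pt (b ω) (j + i))) (F.f (w ω) (pt (b ω) (j + i'))) -
          |(i : ℝ) - i'|) ≤ e} := by
    ext ω
    simp only [Set.mem_iInter, Set.mem_ofPred_eq, UnitP]
  rw [h1]
  refine MeasurableSet.iInter fun i => MeasurableSet.iInter fun i' => ?_
  have h := F.measSet (Ω := Ω) (ι := Fin 2) (fun _ => w)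
    ![fun ω => pt (b ω) (j + i), fun ω => pt (b ω) (j + i')]
    (fun _ => hw)
    (by
      intro k
      fin_cases k
      · exact measurable_pt' hb measurable_const
      · exact measurable_pt' hb measurable_const)
    (fun v => (i : ℝ) ≤ s → (i' : ℝ) ≤ s →
        abs (rho (v 0).2 (v 1).2 - |(i : ℝ) - i'|) ≤ e)
  exact h

/-- The condition of spread is measurable. -/
theorem b_spread_meas (F : QM K) {Ω : Type*} [MeasurableSpace Ω] {w : Ω → V} (hw : Measurable w)
    {b : Ω → ℝ} (hb : Measurable b) (j a e ε : ℝ) :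
    MeasurableSet {ω | SpreadP F (w ω) (b ω) j a e ε} := by
  have hS : MeasurableSet {p : Ω × ℝ | p.2 ∈ Icc (0 : ℝ) 1 ∧
      e < gp (F.f (w p.1) (pt (b p.1) (j + a)))
        (F.f (w p.1) (pt (b p.1 + p.2 * Real.exp (-2 * j)) (j + a)))
        (F.f (w p.1) (pt (b p.1) j))} := by
    refine (measurable_snd measurableSet_Icc).inter ?_
    exact b_gp_meas F (hw.comp measurable_fst) (hb.comp measurable_fst)
      ((hb.comp measurable_fst).add (measurable_snd.mul_const _)) (hb.comp measurable_fst)
      (j + a) (j + a) j e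
  have hm := measurable_measure_prodMk_left (ν := (volume : Measure ℝ)) hS
  have h2 : MeasurableSet {ω : Ω | volume (Prod.mk ω ⁻¹' {p : Ω × ℝ | p.2 ∈ Icc (0 : ℝ) 1 ∧
      e < gp (F.f (w p.1) (pt (b p.1) (j + a)))
        (F.f (w p.1) (pt (b p.1 + p.2 * Real.exp (-2 * j)) (j + a)))
        (F.f (w p.1) (pt (b p.1) j))}) ≤ ENNReal.ofReal ε} :=
    measurableSet_le hm measurable_const
  exact h2

theorem b_W_meas (F : QM K) (w : V) (j a e : ℝ) : MeasurableSet (Wd F w j a e) := by
  have h := b_gp_meas F (Ω := ℝ × ℝ) (w := fun _ => w) measurable_const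
    (measurable_fst : Measurable fun x : ℝ × ℝ => x.1)
    (measurable_fst.add (measurable_snd.mul_const (Real.exp (-2 * j))))
    (measurable_fst : Measurable fun x : ℝ × ℝ => x.1)
    (j + a) (j + a) j e
  exact (measurable_fst measurableSet_Icc).inter ((measurable_snd measurableSet_Icc).inter h)

theorem b_Wj_meas (F : QM K) (c j a e : ℝ) :
    MeasurableSet {x : V × (ℝ × ℝ) | x.2 ∈ Wd F (c • x.1) j a e} := by
  have hb : Measurable fun x : V × (ℝ × ℝ) => x.2.1 := measurable_fst.comp measurable_snd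
  have hk : Measurable fun x : V × (ℝ × ℝ) => x.2.2 := measurable_snd.comp measurable_snd
  have hw : Measurable fun x : V × (ℝ × ℝ) => c • x.1 := measurable_fst.const_smul c
  have h := b_gp_meas F (Ω := V × (ℝ × ℝ)) hw hb
    (hb.add (hk.mul_const (Real.exp (-2 * j)))) hb (j + a) (j + a) j e
  exact (hb measurableSet_Icc).inter ((hk measurableSet_Icc).inter h)

/-- The general form of the measurability of the bad set. -/
theorem b_Bdg_meas (F : QM K) {Ω : Type*} [MeasurableSpace Ω] {w : Ω → V} (hw : Measurable w)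
    {b : Ω → ℝ} (hb : Measurable b) (j a : ℕ) (ε : ℝ) :
    MeasurableSet {ω | b ω ∈ Bd F (w ω) j a ε} := by
  have h1 := b_unit_meas F hw hb j a (ε * a)
  have h2 := b_spread_meas F hw hb j a (ε * a) ε
  exact (hb measurableSet_Icc).inter (h1.inter h2).compl

theorem b_Bdj_meas (F : QM K) (c : ℝ) (j a : ℕ) (ε : ℝ) :
    MeasurableSet {x : V × ℝ | x.2 ∈ Bd F (c • x.1) j a ε} :=
  b_Bdg_meas F (measurable_fst.const_smul c) measurable_snd j a ε

theorem b_Bd_meas (F : QM K) (w : V) (j a : ℕ) (ε : ℝ) : MeasurableSet (Bd F w j a ε) :=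
  b_Bdg_meas F (w := fun _ : ℝ => w) measurable_const measurable_id j a ε

end Pool.Agent.FIB
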