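import Pool.Agent.FIB.BCore

/-!
# Part B: pairs of directions

* `b_det_pair` (deterministic). `k = (l - j0) / a ≤ m` (natural subtraction and division), `|l - (j0 + k a)| ≤ a`, `P i = pj F w j0 a i b`, `z = pj F w j0 a k b'`. `tele_gp P k z` : `gp z (P k) (P 0) ≤ Σ_{i<k} gp z (P (i+1)) (P i)`
  `≤ Σ_{i<m}` (nonnegative terms). Then `gp_change` twice (`gp_comm`), `gp_change_base`: `rho (F.f w (pt b l)) (P k) ≤ K a + K`, same for `b'` (`F.f_vert`), and
  `rho (F.f w o) (P 0) ≤ (K |b| / 2 + K) + (K j0 + K) ≤ 2K + K a + K` (`o = pt 0 0`, `F.f_hor` at depth `0`, `F.f_vert`, `j0 < a`).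
  The statement is with the `k` chosen: for all `l ≤ n` there is `k ≤ m` (depending on `l, j0, a` only) with the inequality for all `b, b' ∈ [-1,1]`.
* `b_pair`. Given `ε ≤ 1` take `τ = ε²/8` in `b_core`; `n0 ≥ 2 (3 (K N + K) + 3 K) / ε`, `ρ = ε n / 2`. For fixed `u` and `b'` the constant function `q = z(b')` is admissible, so `∫⁻_{b ∈ [-1,1]} Σ_k ofReal (gp z ..) ≤ Y u`; integrate over
  `b' ∈ [-1,1]` (`≤ 2 Y u`) and over `u ∈ box 8` (`≤ 2 τ n`); Markov: the set `{(u,b,b') | ρ < Σ_k gp ..}` has measure `≤ 2 τ n / ρ = ε / 2`. In the statement the first direction is `q.2.1 = b` and the second `q.2.2 = b'`.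
  Measurability: `QM.meas`, `ι = Fin 3`, finite sums.
-/

set_option autoImplicit false

namespace Pool.Agent.FIB

open UpperHalfPlane MeasureTheory Set

private lemma BPair_meas3 {K : ℝ} (F : QM K) {Ω : Type*} [MeasurableSpace Ω] {w : Ω → V}
    {x y z : Ω → ℍ} (hw : Measurable w) (hx : Measurable x) (hy : Measurable y)
    (hz : Measurable z) :
    Measurable fun ω => gp (F.f (w ω) (x ω)) (F.f (w ω) (y ω)) (F.f (w ω) (z ω)) := by
  have h := F.meas (ι := Fin 3) (fun _ => w) ![x, y, z] (fun _ => hw) (by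
    intro i
    fin_cases i
    · exact hx
    · exact hy
    · exact hz) (fun v => gp (v 0).2 (v 1).2 (v 2).2)
  exact h

private lemma BPair_meas2 {K : ℝ} (F : QM K) {Ω : Type*} [MeasurableSpace Ω] {w : Ω → V}
    {y z : Ω → ℍ} (x : ℍ) (hw : Measurable w) (hy : Measurable y) (hz : Measurable z) :
    Measurable fun ω => gp x (F.f (w ω) (y ω)) (F.f (w ω) (z ω)) := by
  have h := F.meas (ι := Fin 2) (fun _ => w) ![y, z] (fun _ => hw) (by
    intro i
    fin_cases i
    · exact hy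
    · exact hz) (fun v => gp x (v 0).2 (v 1).2)
  exact h

theorem b_det_pair {K : ℝ} (hK : 1 ≤ K) (F : QM K) (w : V) (n a j0 m l : ℕ) (ha : 1 ≤ a)
    (hj : j0 < a) (h1 : j0 + m * a ≤ n) (h2 : n < j0 + (m + 1) * a) (hl : l ≤ n) (b b' : ℝ)
    (hb : b ∈ Icc (-1 : ℝ) 1) (hb' : b' ∈ Icc (-1 : ℝ) 1) :
    gp (F.f w (pt b l)) (F.f w (pt b' l)) (F.f w o) ≤
      ∑ i ∈ Finset.range m, gp (pj F w j0 a ((l - j0) / a) b') (pj F w j0 a (i + 1) b)
        (pj F w j0 a i b) + 3 * (K * a + K) + 3 * K := by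
  have hK0 : (0 : ℝ) ≤ K := by linarith
  have hkm : (l - j0) / a ≤ m := by
    have h3 : l - j0 < (m + 1) * a := by omega
    have h4 := (Nat.div_lt_iff_lt_mul (by omega : 0 < a)).2 h3
    omega
  obtain ⟨k, hk⟩ : ∃ k, k = (l - j0) / a := ⟨_, rfl⟩
  rw [← hk] at hkm ⊢
  have hka1 : k * a ≤ l - j0 := by
    rw [hk]
    exact Nat.div_mul_le_self _ _
  have hka2 : l - j0 < k * a + a := by
    rw [hk]
    exact Nat.lt_div_mul_add (by omega)
  have hdist : |(l : ℝ) - ((j0 + k * a : ℕ) : ℝ)| ≤ a := by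
    have c1 : j0 + k * a ≤ l + a := by
      rcases Nat.lt_or_ge l j0 with h | h
      · have : k * a = 0 := by omega
        omega
      · omega
    have c2 : l ≤ j0 + k * a + a := by omega
    have c1' : ((j0 + k * a : ℕ) : ℝ) ≤ l + a := by exact_mod_cast c1
    have c2' : (l : ℝ) ≤ ((j0 + k * a : ℕ) : ℝ) + a := by exact_mod_cast c2
    rw [abs_le]
    constructor <;> linarith
  have hv : ∀ β : ℝ, rho (F.f w (pt β l)) (pj F w j0 a k β) ≤ K * a + K := by
    intro β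
    have h3 := F.f_vert w β l ((j0 + k * a : ℕ) : ℝ)
    have h4 := mul_le_mul_of_nonneg_left hdist hK0
    unfold pj
    linarith
  have h0 : rho (F.f w o) (pj F w j0 a 0 b) ≤ K * a + K + 3 * K := by
    have h3 := F.f_hor hK0 w 0 b 0
    have h4 := F.f_vert w b 0 ((j0 + 0 * a : ℕ) : ℝ)
    have h5 := rho_triangle (F.f w (pt 0 0)) (F.f w (pt b 0)) (pj F w j0 a 0 b)
    have h6 : |(0 : ℝ) - ((j0 + 0 * a : ℕ) : ℝ)| ≤ a := by
      rw [zero_mul, add_zero, zero_sub, abs_neg, abs_of_nonneg (Nat.cast_nonneg _)]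
      exact_mod_cast hj.le
    have h7 := mul_le_mul_of_nonneg_left h6 hK0
    have h8 : |(0 : ℝ) - b| * Real.exp (2 * 0) / 2 ≤ 1 / 2 := by
      rw [mul_zero, Real.exp_zero, mul_one, zero_sub, abs_neg]
      have : |b| ≤ 1 := abs_le.2 ⟨hb.1, hb.2⟩
      linarith
    have h9 := mul_le_mul_of_nonneg_left h8 hK0
    have h10 : F.f w o = F.f w (pt 0 0) := rfl
    rw [h10]
    have h11 : rho (F.f w (pt b 0)) (pj F w j0 a 0 b) ≤ K * a + K := by
      unfold pj
      linarith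
    linarith
  have t1 := gp_change (F.f w (pt b l)) (pj F w j0 a k b) (F.f w (pt b' l)) (F.f w o)
  have t2 := gp_change (F.f w (pt b' l)) (pj F w j0 a k b') (pj F w j0 a k b) (F.f w o)
  rw [gp_comm (F.f w (pt b' l))] at t2
  have t3 := gp_change_base (pj F w j0 a k b') (pj F w j0 a k b) (F.f w o) (pj F w j0 a 0 b)
  have t4 := tele_gp (fun i => pj F w j0 a i b) k (pj F w j0 a k b')
  beta_reduce at t4
  have t5 : ∑ i ∈ Finset.range k, gp (pj F w j0 a k b') (pj F w j0 a (i + 1) b)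
        (pj F w j0 a i b) ≤ ∑ i ∈ Finset.range m, gp (pj F w j0 a k b')
        (pj F w j0 a (i + 1) b) (pj F w j0 a i b) :=
    Finset.sum_le_sum_of_subset_of_nonneg (Finset.range_mono hkm) fun i _ _ => gp_nonneg _ _ _
  have t6 := hv b
  have t7 := hv b'
  linarith

theorem b_pair (K : ℝ) (hK : 1 ≤ K) (hT : StT K) (ε : ℝ) (hε : 0 < ε) :
    ∃ n0 : ℕ, ∀ (F : QM K) (n : ℕ), n0 ≤ n → ∀ l : ℕ, l ≤ n →
      volume {q : V × ℝ × ℝ | q.1 ∈ box 8 ∧ q.2.1 ∈ Icc (-1) 1 ∧ q.2.2 ∈ Icc (-1) 1 ∧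
        ε * n < gp (F.f (Real.exp n • q.1) (pt q.2.1 l)) (F.f (Real.exp n • q.1) (pt q.2.2 l))
          (F.f (Real.exp n • q.1) o)} ≤ ENNReal.ofReal ε := by
  obtain ⟨N, n1, H⟩ := b_core K hK hT (ε ^ 2 / 8) (by positivity)
  obtain ⟨n2, hn2⟩ := exists_nat_ge (2 * (3 * (K * N + K) + 3 * K) / ε)
  refine ⟨max (max n1 n2) 1, ?_⟩
  intro F n hn l hl
  have hn1 : n1 ≤ n := le_trans (le_trans (le_max_left _ _) (le_max_left _ _)) hn
  have hn2' : n2 ≤ n := le_trans (le_trans (le_max_right _ _) (le_max_left _ _)) hn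
  have hn3 : 1 ≤ n := le_trans (le_max_right _ _) hn
  have hnpos : (0 : ℝ) < n := by exact_mod_cast hn3
  obtain ⟨a, j0, m, ha, haN, hj, hm1, hm2, Y, hYm, hYi, hY⟩ := H F n hn1
  have hbig : 3 * (K * N + K) + 3 * K ≤ ε * n / 2 := by
    have h1 : 2 * (3 * (K * N + K) + 3 * K) / ε ≤ n := hn2.trans (by exact_mod_cast hn2')
    rw [div_le_iff₀ hε] at h1
    linarith
  have haN' : (a : ℝ) ≤ N := by exact_mod_cast haN
  have hKa : K * a ≤ K * N := mul_le_mul_of_nonneg_left haN' (by linarith)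
  obtain ⟨G, hG⟩ : ∃ G : V × ℝ × ℝ → ENNReal, G = fun q => ∑ i ∈ Finset.range m,
      ENNReal.ofReal (gp (pj F (Real.exp n • q.1) j0 a ((l - j0) / a) q.2.2)
        (pj F (Real.exp n • q.1) j0 a (i + 1) q.2.1)
        (pj F (Real.exp n • q.1) j0 a i q.2.1)) := ⟨_, rfl⟩
  have hGm : Measurable G := by
    rw [hG]
    apply Finset.measurable_sum
    intro i _
    apply Measurable.ennreal_ofReal
    unfold pj
    have hw : Measurable fun q : V × ℝ × ℝ => Real.exp (n : ℝ) • q.1 := by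
      fun_prop
    exact BPair_meas3 F hw
      (measurable_pt' (measurable_snd.comp measurable_snd) measurable_const)
      (measurable_pt' (measurable_fst.comp measurable_snd) measurable_const)
      (measurable_pt' (measurable_fst.comp measurable_snd) measurable_const)
  have hin : ∀ u : V, ∀ b' : ℝ, ∫⁻ b in Icc (-1 : ℝ) 1, G (u, (b, b')) ≤ Y u := by
    intro u b'
    rw [hG]
    refine (hY u).2 (fun _ => pj F (Real.exp n • u) j0 a ((l - j0) / a) b') ?_ ?_
    · intro _ _ _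
      rw [rho_self]
      linarith
    · intro k
      unfold pj
      exact BPair_meas2 F _ measurable_const (measurable_pt' measurable_id measurable_const)
        (measurable_pt' measurable_id measurable_const)
  have hvI : volume (Icc (-1 : ℝ) 1) = ENNReal.ofReal 2 := by
    rw [Real.volume_Icc]
    norm_num
  have hint : ∫⁻ q in box 8 ×ˢ (Icc (-1 : ℝ) 1 ×ˢ Icc (-1 : ℝ) 1), G q ≤
      (∫⁻ u in box 8, Y u) * ENNReal.ofReal 2 := by
    have h1 : (volume : Measure (V × ℝ × ℝ)).restrict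
        (box 8 ×ˢ (Icc (-1 : ℝ) 1 ×ˢ Icc (-1 : ℝ) 1)) =
        ((volume : Measure V).restrict (box 8)).prod
          (((volume : Measure ℝ).restrict (Icc (-1 : ℝ) 1)).prod
            ((volume : Measure ℝ).restrict (Icc (-1 : ℝ) 1))) := by
      rw [Measure.prod_restrict, Measure.prod_restrict]
      rfl
    rw [h1, lintegral_prod _ hGm.aemeasurable, ← lintegral_mul_const _ hYm]
    refine lintegral_mono fun u => ?_
    have hGu : Measurable fun y : ℝ × ℝ => G (u, y) := hGm.comp measurable_prodMk_left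
    rw [lintegral_prod_symm (fun y : ℝ × ℝ => G (u, y)) hGu.aemeasurable]
    refine (lintegral_mono (fun b' => hin u b')).trans (le_of_eq ?_)
    rw [lintegral_const, Measure.restrict_apply_univ, hvI]
  have hsub : {q : V × ℝ × ℝ | q.1 ∈ box 8 ∧ q.2.1 ∈ Icc (-1) 1 ∧ q.2.2 ∈ Icc (-1) 1 ∧
        ε * n < gp (F.f (Real.exp n • q.1) (pt q.2.1 l)) (F.f (Real.exp n • q.1) (pt q.2.2 l))
          (F.f (Real.exp n • q.1) o)} ⊆ {q | ENNReal.ofReal (ε * n / 2) ≤ G q} ∩
        (box 8 ×ˢ (Icc (-1 : ℝ) 1 ×ˢ Icc (-1 : ℝ) 1)) := by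
    rintro ⟨u, b, b'⟩ ⟨hu, hb, hb', hgp⟩
    refine ⟨?_, hu, hb, hb'⟩
    have h1 := b_det_pair hK F (Real.exp n • u) n a j0 m l ha hj hm1 hm2 hl b b' hb hb'
    have h2 : G (u, b, b') = ENNReal.ofReal (∑ i ∈ Finset.range m,
        gp (pj F (Real.exp n • u) j0 a ((l - j0) / a) b')
        (pj F (Real.exp n • u) j0 a (i + 1) b)
        (pj F (Real.exp n • u) j0 a i b)) := by
      rw [hG, ENNReal.ofReal_sum_of_nonneg (fun i _ => gp_nonneg _ _ _)]
    rw [mem_ofPred_eq, h2]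
    apply ENNReal.ofReal_le_ofReal
    have h3 : ε * n < gp (F.f (Real.exp n • u) (pt b l)) (F.f (Real.exp n • u) (pt b' l))
          (F.f (Real.exp n • u) o) := hgp
    linarith
  refine (measure_mono hsub).trans ?_
  have hSm : MeasurableSet {q | ENNReal.ofReal (ε * n / 2) ≤ G q} :=
    measurableSet_le measurable_const hGm
  rw [← Measure.restrict_apply hSm]
  have h3 := mul_meas_ge_le_lintegral (μ := (volume : Measure (V × ℝ × ℝ)).restrict
    (box 8 ×ˢ (Icc (-1 : ℝ) 1 ×ˢ Icc (-1 : ℝ) 1))) hGm (ENNReal.ofReal (ε * n / 2))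
  have h4 := (h3.trans hint).trans (mul_le_mul_left hYi (ENNReal.ofReal 2))
  have h5 : ENNReal.ofReal (ε ^ 2 / 8 * n) * ENNReal.ofReal 2 =
      ENNReal.ofReal (ε * n / 2) * ENNReal.ofReal (ε / 2) := by
    rw [← ENNReal.ofReal_mul (by positivity), ← ENNReal.ofReal_mul (by positivity)]
    congr 1
    ring
  rw [h5] at h4
  have h6 : ENNReal.ofReal (ε * n / 2) ≠ 0 := by
    rw [Ne, ENNReal.ofReal_eq_zero, not_le]
    positivity
  have h7 := (ENNReal.mul_le_mul_iff_right h6 ENNReal.ofReal_ne_top).1 h4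
  exact h7.trans (ENNReal.ofReal_le_ofReal (by linarith))

end Pool.Agent.FIB
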