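import Pool.Agent.FIB.BUnit
import Pool.Agent.FIB.BPair

/-!
# Part B: `StT K → StB2 K`  (COMPLETE FILE)
-/

set_option autoImplicit false

namespace Pool.Agent.FIB

open UpperHalfPlane MeasureTheory Set

theorem b_nat (K : ℝ) (hK : 1 ≤ K) (hT : StT K) : StB2 K := by
  intro ε hε
  obtain ⟨n1, h1⟩ := b_unit K hK hT ε hε
  obtain ⟨n2, h2⟩ := b_pair K hK hT ε hε
  refine ⟨max (max n1 n2) 1, lt_of_lt_of_le Nat.one_pos (le_max_right _ _), ?_⟩
  intro F n hn
  have h3 : n1 ≤ n := le_trans (le_trans (le_max_left _ _) (le_max_left _ _)) hn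
  have h4 : n2 ≤ n := le_trans (le_trans (le_max_right _ _) (le_max_left _ _)) hn
  exact ⟨h1 F n h3, h2 F n h4⟩

end Pool.Agent.FIB
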