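import Mathlib

/-!
# Part B: the set lemma

`Z ⊆ [-1,1]`, `0 < h ≤ 1`, and `(b, κ) ∈ W` whenever `b ∈ Z`, `0 ≤ κ ≤ 1`, `b + κ h ∈ Z`.
Then `vol Z ≤ 4 δ + (2/δ²) vol W`.

PROOF. `A b = {κ ∈ [0,1] | b + κ h ∈ Z}`. `S = {(b,κ) | b ∈ [-2,2], κ ∈ [0,1], b + κ h ∈ Z}` is measurable
and `vol S = ∫⁻_{κ ∈ [0,1]} vol {b ∈ [-2,2] | b + κ h ∈ Z} = vol Z` (`Measure.prod_apply_symm`; for
`κ ∈ [0,1]` the condition `b ∈ [-2,2]` follows from `b + κ h ∈ Z ⊆ [-1,1]`; translation invariance),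
and also `vol S = ∫⁻_{b ∈ [-2,2]} vol (A b) ≤ ∫⁻_{b ∈ [-2,2]} (δ + 1_{vol (A b) > δ}) ≤ 4 δ + vol {b ∈ [-2,2] | vol (A b) > δ}`
(`vol (A b) ≤ 1`). By Markov `δ² vol {b | vol (A b) > δ} ≤ ∫⁻_b vol (A b)² = vol T`, `T = {(b,(κ,κ')) | κ, κ' ∈ A b}`, and
by symmetry `vol T ≤ 2 vol {(b,(κ,κ')) ∈ T | κ ≤ κ'} ≤ 2 ∫⁻_{κ ∈ [0,1]} vol {(b,κ') | (b + κ h, κ' - κ) ∈ W} = 2 vol W`
(translation of `ℝ × ℝ` by `(κ h, -κ)`): for `κ ≤ κ'` in `A b` the pair `(b + κ h, κ' - κ)` is in `W` by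
hypothesis, as `(b + κ h) + (κ' - κ) h = b + κ' h ∈ Z`.
-/

set_option autoImplicit false

namespace Pool.Agent.FIB

open MeasureTheory Set

private lemma bz_fiber {Z : Set ℝ} {h : ℝ} {W : Set (ℝ × ℝ)} (hW : MeasurableSet W)
    (hZW : ∀ b ∈ Z, ∀ κ ∈ Icc (0 : ℝ) 1, b + κ * h ∈ Z → (b, κ) ∈ W) {κ : ℝ}
    (hκ : κ ∈ Icc (0 : ℝ) 1) :
    ∫⁻ b in Icc (-2 : ℝ) 2, (volume.restrict (Icc (0 : ℝ) 1))
      {κ' | κ ≤ κ' ∧ b + κ * h ∈ Z ∧ b + κ' * h ∈ Z} ≤ volume W := by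
  have h1 : ∀ b : ℝ, (volume.restrict (Icc (0 : ℝ) 1))
      {κ' | κ ≤ κ' ∧ b + κ * h ∈ Z ∧ b + κ' * h ∈ Z} ≤
      volume (Prod.mk (b + κ * h) ⁻¹' W) := by
    intro b
    have e1 : volume (Prod.mk (b + κ * h) ⁻¹' W) =
        volume ((fun x : ℝ => x + (-κ)) ⁻¹' (Prod.mk (b + κ * h) ⁻¹' W)) :=
      (measure_preimage_add_right volume (-κ) _).symm
    rw [e1]
    rw [Measure.restrict_apply' measurableSet_Icc]
    apply measure_mono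
    rintro κ' ⟨⟨hle, hb, hb'⟩, hκ'⟩
    have h2 := hZW (b + κ * h) hb (κ' - κ) ⟨by linarith, by linarith [hκ.1, hκ'.2]⟩
      (by convert hb' using 1; ring)
    simpa [sub_eq_add_neg] using h2
  refine le_trans (lintegral_mono h1) ?_
  refine le_trans (setLIntegral_le_lintegral _ _) ?_
  rw [lintegral_add_right_eq_self (fun b : ℝ => volume (Prod.mk b ⁻¹' W)) (κ * h),
    Measure.volume_eq_prod, Measure.prod_apply hW]

private lemma bz_num {δ : ℝ} (hδ : 0 < δ) {a : ENNReal} (ha : a ≤ 1) :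
    a ≤ ENNReal.ofReal δ + ENNReal.ofReal (1 / δ ^ 2) * (a * a) := by
  have ha' : a ≠ ⊤ := ne_top_of_le_ne_top ENNReal.one_ne_top ha
  lift a to NNReal using ha'
  have ha1 : (a : ℝ) ≤ 1 := by exact_mod_cast ha
  have e : (a : ENNReal) = ENNReal.ofReal (a : ℝ) := by simp
  rw [e, ← ENNReal.ofReal_mul (NNReal.coe_nonneg a), ← ENNReal.ofReal_mul (by positivity),
    ← ENNReal.ofReal_add hδ.le (by positivity)]
  apply ENNReal.ofReal_le_ofReal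
  rcases le_or_gt (a : ℝ) δ with h | h
  · have : 0 ≤ 1 / δ ^ 2 * ((a : ℝ) * a) := by positivity
    linarith
  · have h3 : 1 ≤ 1 / δ ^ 2 * ((a : ℝ) * a) := by
      rw [div_mul_eq_mul_div, one_mul, le_div_iff₀ (by positivity)]
      nlinarith
    linarith

private lemma bz_sq {Z : Set ℝ} (hZm : MeasurableSet Z) {h : ℝ} (b : ℝ) :
    (volume.restrict (Icc (0 : ℝ) 1)) {κ | b + κ * h ∈ Z} *
      (volume.restrict (Icc (0 : ℝ) 1)) {κ | b + κ * h ∈ Z} ≤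
    2 * ∫⁻ κ in Icc (0 : ℝ) 1, (volume.restrict (Icc (0 : ℝ) 1))
      {κ' | κ ≤ κ' ∧ b + κ * h ∈ Z ∧ b + κ' * h ∈ Z} := by
  set ν : Measure ℝ := volume.restrict (Icc (0 : ℝ) 1) with hν
  set A : Set ℝ := {κ | b + κ * h ∈ Z} with hA
  have hAm : MeasurableSet A := by
    have : Measurable fun κ : ℝ => b + κ * h := by fun_prop
    exact this hZm
  set Q : Set (ℝ × ℝ) := {p | p.1 ≤ p.2 ∧ p.1 ∈ A ∧ p.2 ∈ A} with hQ
  have hQm : MeasurableSet Q := by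
    have h1 : MeasurableSet {p : ℝ × ℝ | p.1 ≤ p.2} := measurableSet_le measurable_fst measurable_snd
    exact h1.inter ((measurable_fst hAm).inter (measurable_snd hAm))
  have h1 : ν A * ν A = (ν.prod ν) (A ×ˢ A) := (Measure.prod_prod A A).symm
  have h2 : A ×ˢ A ⊆ Q ∪ Prod.swap ⁻¹' Q := by
    rintro ⟨x, y⟩ ⟨hx, hy⟩
    rcases le_total x y with hxy | hxy
    · exact Or.inl ⟨hxy, hx, hy⟩
    · exact Or.inr ⟨hxy, hy, hx⟩
  have h3 : (ν.prod ν) (Prod.swap ⁻¹' Q) = (ν.prod ν) Q := by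
    rw [← Measure.map_apply measurable_swap hQm, Measure.prod_swap]
  have h4 : (ν.prod ν) Q = ∫⁻ κ, ν (Prod.mk κ ⁻¹' Q) ∂ν := Measure.prod_apply hQm
  calc ν A * ν A = (ν.prod ν) (A ×ˢ A) := h1
    _ ≤ (ν.prod ν) (Q ∪ Prod.swap ⁻¹' Q) := measure_mono h2
    _ ≤ (ν.prod ν) Q + (ν.prod ν) (Prod.swap ⁻¹' Q) := measure_union_le _ _
    _ = 2 * (ν.prod ν) Q := by rw [h3, two_mul]
    _ = 2 * ∫⁻ κ, ν (Prod.mk κ ⁻¹' Q) ∂ν := by rw [h4]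
    _ = _ := rfl

theorem b_zset {Z : Set ℝ} (hZm : MeasurableSet Z) (hZ : Z ⊆ Icc (-1) 1) {h : ℝ} (h0 : 0 < h)
    (h1 : h ≤ 1) {W : Set (ℝ × ℝ)} (hW : MeasurableSet W)
    (hZW : ∀ b ∈ Z, ∀ κ ∈ Icc (0 : ℝ) 1, b + κ * h ∈ Z → (b, κ) ∈ W) {δ : ℝ} (hδ : 0 < δ) :
    volume Z ≤ ENNReal.ofReal (4 * δ) + ENNReal.ofReal (2 / δ ^ 2) * volume W := by
  set μ : Measure ℝ := volume.restrict (Icc (-2 : ℝ) 2) with hμ
  set ν : Measure ℝ := volume.restrict (Icc (0 : ℝ) 1) with hν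
  have hν1 : ν univ = 1 := by simp [hν]
  have hμ4 : μ univ = ENNReal.ofReal 4 := by
    rw [hμ, Measure.restrict_apply_univ, Real.volume_Icc]; norm_num
  have : IsFiniteMeasure μ := by rw [hμ]; infer_instance
  have : IsFiniteMeasure ν := by rw [hν]; infer_instance
  set E : Set (ℝ × ℝ) := {p | p.1 + p.2 * h ∈ Z} with hE
  have hEm : MeasurableSet E := by
    have : Measurable fun p : ℝ × ℝ => p.1 + p.2 * h := by fun_prop
    exact this hZm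
  -- first Fubini
  have f1 : (μ.prod ν) E = volume Z := by
    rw [Measure.prod_apply_symm hEm]
    have : ∀ κ ∈ Icc (0 : ℝ) 1, μ ((fun x => (x, κ)) ⁻¹' E) = volume Z := by
      intro κ hκ
      rw [hμ, Measure.restrict_apply' measurableSet_Icc]
      have e : (fun x : ℝ => (x, κ)) ⁻¹' E ∩ Icc (-2 : ℝ) 2 = (fun x : ℝ => x + κ * h) ⁻¹' Z := by
        ext x
        constructor
        · rintro ⟨hx, -⟩
          exact hx
        · intro hx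
          refine ⟨hx, ?_⟩
          have hx' : x + κ * h ∈ Icc (-1 : ℝ) 1 := hZ hx
          have k1 : 0 ≤ κ * h := mul_nonneg hκ.1 h0.le
          have k2 : κ * h ≤ 1 := by nlinarith [hκ.1, hκ.2]
          exact ⟨by linarith [hx'.1], by linarith [hx'.2]⟩
      rw [e, measure_preimage_add_right]
    calc ∫⁻ κ, μ ((fun x => (x, κ)) ⁻¹' E) ∂ν = ∫⁻ κ, volume Z ∂ν := by
          rw [hν]
          exact setLIntegral_congr_fun measurableSet_Icc this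
      _ = volume Z := by rw [lintegral_const, hν1, mul_one]
  have f2 : (μ.prod ν) E = ∫⁻ b, ν {κ | b + κ * h ∈ Z} ∂μ := by
    rw [Measure.prod_apply hEm]; rfl
  have a1 : ∀ b : ℝ, ν {κ | b + κ * h ∈ Z} ≤ 1 := fun b =>
    hν1 ▸ measure_mono (subset_univ _)
  -- joint measurability
  have mS : MeasurableSet {p : (ℝ × ℝ) × ℝ | p.1.2 ≤ p.2 ∧ p.1.1 + p.1.2 * h ∈ Z ∧
      p.1.1 + p.2 * h ∈ Z} := by
    have m1 : MeasurableSet {p : (ℝ × ℝ) × ℝ | p.1.2 ≤ p.2} :=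
      measurableSet_le (by fun_prop) (by fun_prop)
    have m2 : Measurable fun p : (ℝ × ℝ) × ℝ => p.1.1 + p.1.2 * h := by fun_prop
    have m3 : Measurable fun p : (ℝ × ℝ) × ℝ => p.1.1 + p.2 * h := by fun_prop
    exact m1.inter ((m2 hZm).inter (m3 hZm))
  have mf : Measurable fun p : ℝ × ℝ =>
      ν {κ' | p.2 ≤ κ' ∧ p.1 + p.2 * h ∈ Z ∧ p.1 + κ' * h ∈ Z} :=
    measurable_measure_prodMk_left mS
  have f3 : ∫⁻ b, (∫⁻ κ, ν {κ' | κ ≤ κ' ∧ b + κ * h ∈ Z ∧ b + κ' * h ∈ Z} ∂ν) ∂μ ≤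
      volume W := by
    rw [lintegral_lintegral_swap (f := fun b κ =>
      ν {κ' | κ ≤ κ' ∧ b + κ * h ∈ Z ∧ b + κ' * h ∈ Z}) mf.aemeasurable]
    calc ∫⁻ κ, ∫⁻ b, ν {κ' | κ ≤ κ' ∧ b + κ * h ∈ Z ∧ b + κ' * h ∈ Z} ∂μ ∂ν
        ≤ ∫⁻ κ, volume W ∂ν := by
          rw [hν]
          exact setLIntegral_mono' measurableSet_Icc
            fun κ hκ => by simpa [hμ, hν] using bz_fiber hW hZW hκ
      _ = volume W := by rw [lintegral_const, hν1, mul_one]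
  calc volume Z = ∫⁻ b, ν {κ | b + κ * h ∈ Z} ∂μ := by rw [← f1, f2]
    _ ≤ ∫⁻ b, (ENNReal.ofReal δ + ENNReal.ofReal (1 / δ ^ 2) *
          (ν {κ | b + κ * h ∈ Z} * ν {κ | b + κ * h ∈ Z})) ∂μ :=
        lintegral_mono fun b => bz_num hδ (a1 b)
    _ ≤ ∫⁻ b, (ENNReal.ofReal δ + ENNReal.ofReal (1 / δ ^ 2) *
          (2 * ∫⁻ κ, ν {κ' | κ ≤ κ' ∧ b + κ * h ∈ Z ∧ b + κ' * h ∈ Z} ∂ν)) ∂μ :=
        lintegral_mono fun b => add_le_add le_rfl (mul_le_mul' le_rfl (bz_sq (h := h) hZm b))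
    _ = ENNReal.ofReal δ * ENNReal.ofReal 4 + ENNReal.ofReal (1 / δ ^ 2) *
          (2 * ∫⁻ b, (∫⁻ κ, ν {κ' | κ ≤ κ' ∧ b + κ * h ∈ Z ∧ b + κ' * h ∈ Z} ∂ν) ∂μ) := by
        have mg : Measurable fun b : ℝ =>
            ∫⁻ κ, ν {κ' | κ ≤ κ' ∧ b + κ * h ∈ Z ∧ b + κ' * h ∈ Z} ∂ν :=
          mf.lintegral_prod_right'
        rw [lintegral_add_left measurable_const, lintegral_const, hμ4,
          lintegral_const_mul _ (mg.const_mul 2), lintegral_const_mul _ mg]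
    _ ≤ ENNReal.ofReal δ * ENNReal.ofReal 4 + ENNReal.ofReal (1 / δ ^ 2) * (2 * volume W) := by
        gcongr
    _ = ENNReal.ofReal (4 * δ) + ENNReal.ofReal (2 / δ ^ 2) * volume W := by
        rw [← ENNReal.ofReal_mul hδ.le, ← mul_assoc]
        congr 1
        · congr 1; ring
        · congr 1
          have : (2 : ENNReal) = ENNReal.ofReal 2 := by simp
          rw [this, ← ENNReal.ofReal_mul (by positivity)]
          congr 1; ring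

end Pool.Agent.FIB
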