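import Pool.Agent.FIB.BMeas
import Pool.Agent.FIB.BZ

/-!
# Part B: one step of the telescoping, for one sheet

* `b_W_le`: Fubini (`Measure.prod_apply`): for `b ∈ [-1,1] ∖ Bd` the fibre `{κ | (b,κ) ∈ Wd}` has measure `≤ ofReal ε`
  (`SpreadP`), for `b ∈ Bd` it is contained in `[0,1]`, for `b ∉ [-1,1]` it is empty.
* `b_step`: `X b = gp (q b) (F.f w (pt b (j+a))) (F.f w (pt b j)) ≤ rho (F.f w (pt b j)) (F.f w (pt b (j+a))) ≤ K a + K`
  (`gp_comm`, `gp_le`, `F.f_vert`). `Z = {b ∈ [-1,1] | e + 4K + 1 < X b}`, `h = exp (-2j)`. If `b, b + κ h ∈ Z`, `κ ∈ [0,1]`, then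
  (`gp_change`, `gp_change_base`, `hq`, `near_vert` at depth `j`) `gp (q b) (F.f w (pt (b + κ h) (j+a))) (F.f w (pt b j)) ≥ X (b + κ h) - 4K > e + 1`,
  so by `gp_min` (with `q b` in the middle) `(b,κ) ∈ Wd F w j a e`. Apply `b_zset`; finally
  `∫⁻_{[-1,1]} ofReal X ≤ ∫⁻_{[-1,1]} (ofReal (e+4K+1) + 1_Z ofReal (K a + K)) = ofReal (2 (e+4K+1)) + ofReal (K a + K) vol Z`.
* `b_len`: `|rho .. - a| ≤ ε a` for `b ∈ [-1,1] ∖ Bd` (`UnitP` with `i = 0`, `i' = a`), and `≤ K a + K + a` always.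
-/

set_option autoImplicit false

namespace Pool.Agent.FIB

open UpperHalfPlane MeasureTheory Set

variable {K : ℝ}

private lemma BStep_Icc : volume (Icc (-1 : ℝ) 1) = 2 := by
  rw [Real.volume_Icc]
  norm_num

private lemma BStep_two (x : ℝ) (hx : 0 ≤ x) : ENNReal.ofReal x * 2 = ENNReal.ofReal (2 * x) := by
  rw [show (2 : ENNReal) = ENNReal.ofReal 2 by norm_num, ← ENNReal.ofReal_mul hx]
  congr 1
  ring

private lemma BStep_int {g : ℝ → ENNReal} {Z : Set ℝ} (hZ : MeasurableSet Z) {x y : ℝ}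
    (hx : 0 ≤ x) (h : ∀ b ∈ Icc (-1 : ℝ) 1, g b ≤ ENNReal.ofReal x +
      Z.indicator (fun _ => ENNReal.ofReal y) b) :
    ∫⁻ b in Icc (-1 : ℝ) 1, g b ≤ ENNReal.ofReal (2 * x) + ENNReal.ofReal y * volume Z := by
  refine (setLIntegral_mono' measurableSet_Icc h).trans ?_
  rw [lintegral_add_left measurable_const, setLIntegral_const, BStep_Icc, BStep_two x hx,
    lintegral_indicator hZ, lintegral_const, Measure.restrict_apply_univ]
  have h1 : (volume.restrict (Icc (-1 : ℝ) 1)) Z ≤ volume Z := Measure.restrict_apply_le _ _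
  exact add_le_add le_rfl (mul_le_mul_right h1 _)

theorem b_W_le (F : QM K) (w : V) (j a : ℕ) {ε : ℝ} (hε : 0 ≤ ε) :
    volume (Wd F w j a (ε * a)) ≤ ENNReal.ofReal (2 * ε) + volume (Bd F w j a ε) := by
  have h1 : volume (Wd F w j a (ε * a)) =
      ∫⁻ b, volume (Prod.mk b ⁻¹' (Wd F w j a (ε * a))) := Measure.prod_apply (b_W_meas F w j a _)
  have hB := b_Bd_meas F w j a ε
  have h2 : ∀ b : ℝ, volume (Prod.mk b ⁻¹' (Wd F w j a (ε * a))) ≤
      (Icc (-1 : ℝ) 1).indicator (fun _ => ENNReal.ofReal ε) b +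
        (Bd F w j a ε).indicator (fun _ => 1) b := by
    intro b
    by_cases hb : b ∈ Icc (-1 : ℝ) 1
    · by_cases hbd : b ∈ Bd F w j a ε
      · rw [Set.indicator_of_mem hbd]
        refine le_trans ?_ le_add_self
        have h3 : volume (Icc (0 : ℝ) 1) = 1 := by
          rw [Real.volume_Icc]
          norm_num
        rw [← h3]
        refine measure_mono ?_
        intro κ hκ
        exact hκ.2.1
      · rw [Set.indicator_of_mem hb]
        refine le_trans ?_ le_self_add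
        have h4 : UnitP F w b j a (ε * a) ∧ SpreadP F w b j a (ε * a) ε := by
          by_contra hc
          exact hbd ⟨hb, hc⟩
        refine le_trans (measure_mono ?_) h4.2
        intro κ hκ
        exact hκ.2
    · have h3 : Prod.mk b ⁻¹' (Wd F w j a (ε * a)) = ∅ := by
        ext κ
        constructor
        · intro hκ
          exact absurd hκ.1 hb
        · intro hκ
          exact hκ.elim
      rw [h3, measure_empty]
      exact bot_le
  rw [h1]
  refine (lintegral_mono h2).trans ?_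
  rw [lintegral_add_left (measurable_const.indicator measurableSet_Icc),
    lintegral_indicator measurableSet_Icc, lintegral_indicator hB, lintegral_const,
    lintegral_const, Measure.restrict_apply_univ, Measure.restrict_apply_univ, BStep_Icc,
    BStep_two ε hε, one_mul]

theorem b_step (hK : 1 ≤ K) (F : QM K) (w : V) (j a e δ : ℝ) (hj : 0 ≤ j) (ha : 0 ≤ a)
    (he : 0 ≤ e) (hδ : 0 < δ) (q : ℝ → ℍ)
    (hq : ∀ b b' : ℝ, |b - b'| ≤ Real.exp (-2 * j) → rho (q b) (q b') ≤ 2 * K)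
    (hqm : Measurable fun b => gp (q b) (F.f w (pt b (j + a))) (F.f w (pt b j))) :
    ∫⁻ b in Icc (-1 : ℝ) 1, ENNReal.ofReal (gp (q b) (F.f w (pt b (j + a))) (F.f w (pt b j))) ≤
      ENNReal.ofReal (2 * (e + 4 * K + 1)) + ENNReal.ofReal (K * a + K) *
        (ENNReal.ofReal (4 * δ) + ENNReal.ofReal (2 / δ ^ 2) * volume (Wd F w j a e)) := by
  have hK0 : 0 < K := by linarith
  obtain ⟨Z, hZ⟩ : ∃ Z : Set ℝ, Z = {b | b ∈ Icc (-1 : ℝ) 1 ∧
    e + 4 * K + 1 < gp (q b) (F.f w (pt b (j + a))) (F.f w (pt b j))} := ⟨_, rfl⟩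
  have hZm : MeasurableSet Z := by
    rw [hZ]
    exact measurableSet_Icc.inter (measurableSet_lt measurable_const hqm)
  have hZs : Z ⊆ Icc (-1) 1 := by
    rw [hZ]
    exact fun b hb => hb.1
  have hh0 : 0 < Real.exp (-2 * j) := Real.exp_pos _
  have hh1 : Real.exp (-2 * j) ≤ 1 := by
    rw [Real.exp_le_one_iff]
    linarith
  have hZW : ∀ b ∈ Z, ∀ κ ∈ Icc (0 : ℝ) 1, b + κ * Real.exp (-2 * j) ∈ Z →
      (b, κ) ∈ Wd F w j a e := by
    intro b hb κ hκ hb'
    rw [hZ] at hb hb'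
    refine ⟨hb.1, hκ, ?_⟩
    show e < gp (F.f w (pt b (j + a))) (F.f w (pt (b + κ * Real.exp (-2 * j)) (j + a)))
      (F.f w (pt b j))
    have x1 := hb.2
    have x2 := hb'.2
    obtain ⟨b', hbb⟩ : ∃ b', b' = b + κ * Real.exp (-2 * j) := ⟨_, rfl⟩
    rw [← hbb] at x2 ⊢
    have hd : |b' - b| ≤ Real.exp (-2 * j) := by
      rw [hbb, add_sub_cancel_left, abs_of_nonneg (mul_nonneg hκ.1 hh0.le)]
      nlinarith [hκ.2]
    have y1 := hq b' b hd
    have y2 := near_vert hK F w b' b j hd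
    have y3 := gp_change (q b') (q b) (F.f w (pt b' (j + a))) (F.f w (pt b' j))
    have y4 := gp_change_base (q b) (F.f w (pt b' (j + a))) (F.f w (pt b' j)) (F.f w (pt b j))
    have y5 := gp_min (F.f w (pt b (j + a))) (q b) (F.f w (pt b' (j + a))) (F.f w (pt b j))
    rw [gp_comm (F.f w (pt b (j + a))) (q b)] at y5
    have y6 : e + 1 < min (gp (q b) (F.f w (pt b (j + a))) (F.f w (pt b j)))
        (gp (q b) (F.f w (pt b' (j + a))) (F.f w (pt b j))) := by
      refine lt_min ?_ ?_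
      · linarith
      · linarith
    linarith
  have key := b_zset hZm hZs hh0 hh1 (b_W_meas F w j a e) hZW hδ
  have hbound : ∀ b : ℝ, gp (q b) (F.f w (pt b (j + a))) (F.f w (pt b j)) ≤ K * a + K := by
    intro b
    have z1 := gp_le (F.f w (pt b (j + a))) (q b) (F.f w (pt b j))
    rw [gp_comm] at z1
    have z2 := F.f_vert w b j (j + a)
    have z3 : |j - (j + a)| = a := by
      rw [sub_add_cancel_left, abs_neg, abs_of_nonneg ha]
    rw [z3] at z2
    linarith
  refine (BStep_int hZm (x := e + 4 * K + 1) (y := K * a + K) (by linarith) ?_).trans ?_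
  · intro b hb
    by_cases hbZ : b ∈ Z
    · rw [Set.indicator_of_mem hbZ]
      exact (ENNReal.ofReal_le_ofReal (hbound b)).trans le_add_self
    · refine le_trans ?_ le_self_add
      refine ENNReal.ofReal_le_ofReal ?_
      by_contra hc
      exact hbZ (by rw [hZ]; exact ⟨hb, not_le.1 hc⟩)
  · exact add_le_add le_rfl (mul_le_mul_right key _)

theorem b_len (hK : 1 ≤ K) (F : QM K) (w : V) (j a : ℕ) {ε : ℝ} (hε : 0 ≤ ε) :
    ∫⁻ b in Icc (-1 : ℝ) 1, ENNReal.ofReal
        |rho (F.f w (pt b j)) (F.f w (pt b ((j : ℝ) + a))) - a| ≤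
      ENNReal.ofReal (2 * (ε * a)) + ENNReal.ofReal (K * a + K + a) * volume (Bd F w j a ε) := by
  have hK0 : 0 < K := by linarith
  have ha : (0 : ℝ) ≤ (a : ℝ) := Nat.cast_nonneg a
  refine BStep_int (b_Bd_meas F w j a ε) (mul_nonneg hε ha) ?_
  intro b hb
  by_cases hbd : b ∈ Bd F w j a ε
  · rw [Set.indicator_of_mem hbd]
    refine le_trans (ENNReal.ofReal_le_ofReal ?_) le_add_self
    have z2 := F.f_vert w b j ((j : ℝ) + a)
    have z3 : |(j : ℝ) - ((j : ℝ) + a)| = a := by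
      rw [sub_add_cancel_left, abs_neg, abs_of_nonneg ha]
    rw [z3] at z2
    have z4 := rho_nonneg (F.f w (pt b j)) (F.f w (pt b ((j : ℝ) + a)))
    rw [abs_le]
    constructor
    · have : 0 ≤ K * a := by positivity
      linarith
    · linarith
  · refine le_trans (ENNReal.ofReal_le_ofReal ?_) le_self_add
    have h4 : UnitP F w b j a (ε * a) ∧ SpreadP F w b j a (ε * a) ε := by
      by_contra hc
      exact hbd ⟨hb, hc⟩
    have h5 := h4.1 0 a (by simpa using ha) le_rfl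
    rw [Nat.cast_zero, add_zero, zero_sub, abs_neg, abs_of_nonneg ha] at h5
    exact h5

end Pool.Agent.FIB
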