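import Pool.Agent.FIB.BCore

/-!
# Part B: unit speed

* `b_det_unit` (deterministic). `P k = pj F w j0 a k b`. `tele_rho P k (P 0)` : `rho (P 0) (P k) = Σ_{l<k} rho (P l) (P (l+1)) - 2 Σ_{l<k} gp (P 0) (P (l+1)) (P l)`, so
  `|rho (P 0) (P k) - k a| ≤ ρ` for all `k ≤ m` (partial sums of nonnegative terms). Hence for `k ≤ k' ≤ m`: `rho (P k) (P k') ≥ rho (P 0) (P k') - rho (P 0) (P k) ≥ (k' - k) a - 2ρ`,
  and `rho (P k) (P k') ≤ Σ_{l=k}^{k'-1} rho (P l) (P (l+1)) ≤ (k' - k) a + ρ`. For a natural `i ≤ n` put `k = (i - j0) / a ≤ m` (natural subtraction and division): `|i - (j0 + k a)| ≤ a`,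
  so `rho (F.f w (pt b (0 + i))) (P k) ≤ K a + K` (`F.f_vert`). Therefore
  `abs (rho (f_i) (f_i') - |i - i'|) ≤ 2ρ + 2 (K a + K) + 2 a`.
* `b_unit`. Given `ε` (w.l.o.g. `ε ≤ 1`) take `τ = ε²/24` in `b_core`, `N`; `n0` also `≥ 4 (2 (K N + K) + 2 N) / ε`, `ρ = ε n / 4`. For `u ∈ box 8` let `R u b = Σ_k (|rho .. - a| + 2 gp (pj 0 b) ..)`; by `b_core`
  (lengths, and products with `q b = pj F w j0 a 0 b`, `near_vert` at depth `j0`): `∫⁻_{b ∈ [-1,1]} ofReal (R u b) ≤ 3 Y u`, so by Markov `ofReal ρ * vol {b ∈ [-1,1] | ρ < R u b} ≤ 3 Y u`. The bad set is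
  contained in the measurable set `{(u,b) | u ∈ box 8, b ∈ [-1,1], ρ < R u b}` (`b_det_unit`; `2ρ + .. ≤ ε n`), whose measure is
  `∫⁻_{u ∈ box 8} vol {b | ..} ≤ 3 τ n / ρ = ε/2` (`Measure.prod_apply`).
-/

set_option autoImplicit false

namespace Pool.Agent.FIB

open UpperHalfPlane MeasureTheory Set

private lemma BUnit_sum_mono {g : ℕ → ℝ} (hg : ∀ l, 0 ≤ g l) {k m : ℕ} (h : k ≤ m) :
    ∑ l ∈ Finset.range k, g l ≤ ∑ l ∈ Finset.range m, g l :=
  Finset.sum_le_sum_of_subset_of_nonneg (Finset.range_mono h) (fun l _ _ => hg l)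

private lemma BUnit_sum_shift {g : ℕ → ℝ} (hg : ∀ l, 0 ≤ g l) {k d m : ℕ} (h : k + d ≤ m) :
    ∑ l ∈ Finset.range d, g (k + l) ≤ ∑ l ∈ Finset.range m, g l := by
  have h1 := BUnit_sum_mono hg h
  rw [Finset.sum_range_add] at h1
  have h2 : 0 ≤ ∑ l ∈ Finset.range k, g l := Finset.sum_nonneg (fun l _ => hg l)
  linarith

private lemma BUnit_up (P : ℕ → ℍ) (a : ℝ) (k d : ℕ) :
    rho (P k) (P (k + d)) ≤ d * a + ∑ l ∈ Finset.range d, |rho (P (k + l)) (P (k + l + 1)) - a| := by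
  induction d with
  | zero => simp [rho_self]
  | succ d ih =>
    rw [Finset.sum_range_succ]
    have h := rho_triangle (P k) (P (k + d)) (P (k + (d + 1)))
    have h1 : k + (d + 1) = k + d + 1 := by ring
    rw [h1] at h ⊢
    have h2 := le_abs_self (rho (P (k + d)) (P (k + d + 1)) - a)
    push_cast
    linarith

private lemma BUnit_zero (P : ℕ → ℍ) (a ρ : ℝ) (m : ℕ)
    (hR : ∑ k ∈ Finset.range m, (|rho (P k) (P (k + 1)) - a| +
      2 * gp (P 0) (P (k + 1)) (P k)) ≤ ρ) (k : ℕ) (hk : k ≤ m) :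
    |rho (P 0) (P k) - k * a| ≤ ρ := by
  have h := tele_rho P k (P 0)
  rw [rho_self] at h
  have h1 : rho (P 0) (P k) - k * a = ∑ l ∈ Finset.range k, ((rho (P l) (P (l + 1)) - a) -
      2 * gp (P 0) (P (l + 1)) (P l)) := by
    rw [Finset.sum_sub_distrib, Finset.sum_sub_distrib, ← Finset.mul_sum, Finset.sum_const,
      Finset.card_range, nsmul_eq_mul]
    linarith
  rw [h1]
  refine (Finset.abs_sum_le_sum_abs _ _).trans ?_
  have h2 : ∀ l ∈ Finset.range k, |(rho (P l) (P (l + 1)) - a) -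
      2 * gp (P 0) (P (l + 1)) (P l)| ≤ |rho (P l) (P (l + 1)) - a| +
      2 * gp (P 0) (P (l + 1)) (P l) := by
    intro l _
    refine (abs_sub _ _).trans ?_
    rw [abs_of_nonneg (mul_nonneg zero_le_two (gp_nonneg _ _ _))]
  refine (Finset.sum_le_sum h2).trans (le_trans ?_ hR)
  exact BUnit_sum_mono (g := fun l => |rho (P l) (P (l + 1)) - a| +
      2 * gp (P 0) (P (l + 1)) (P l))
    (fun l => add_nonneg (abs_nonneg _) (mul_nonneg zero_le_two (gp_nonneg _ _ _))) hk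

private lemma BUnit_pair (P : ℕ → ℍ) (a ρ : ℝ) (m : ℕ)
    (hR : ∑ k ∈ Finset.range m, (|rho (P k) (P (k + 1)) - a| +
      2 * gp (P 0) (P (k + 1)) (P k)) ≤ ρ) (k d : ℕ) (hk : k + d ≤ m) :
    |rho (P k) (P (k + d)) - d * a| ≤ 2 * ρ := by
  have h1 := BUnit_zero P a ρ m hR k (by omega)
  have h2 := BUnit_zero P a ρ m hR (k + d) hk
  have h3 := rho_triangle (P 0) (P k) (P (k + d))
  have h4 := BUnit_up P a k d
  have h5 : ∑ l ∈ Finset.range d, |rho (P (k + l)) (P (k + l + 1)) - a| ≤ ρ := by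
    refine le_trans ?_ hR
    refine (BUnit_sum_shift (g := fun l => |rho (P l) (P (l + 1)) - a|)
      (fun l => abs_nonneg _) hk).trans ?_
    refine Finset.sum_le_sum (fun l _ => ?_)
    have := gp_nonneg (P 0) (P (l + 1)) (P l)
    linarith
  have h6 : 0 ≤ ρ := by
    refine le_trans ?_ hR
    exact Finset.sum_nonneg (fun l _ => add_nonneg (abs_nonneg _)
      (mul_nonneg zero_le_two (gp_nonneg _ _ _)))
  rw [abs_le] at h1 h2 ⊢
  push_cast at h2
  constructor <;> nlinarith [h1.1, h1.2, h2.1, h2.2]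

private lemma BUnit_nat (n a j0 m i : ℕ) (ha : 1 ≤ a) (hj : j0 < a)
    (h2 : n < j0 + (m + 1) * a) (hi : i ≤ n) :
    (i - j0) / a ≤ m ∧ |(i : ℝ) - ((j0 + (i - j0) / a * a : ℕ) : ℝ)| ≤ a := by
  have ha' : 0 < a := ha
  constructor
  · have h3 : i - j0 < (m + 1) * a := by
      have : 0 < (m + 1) * a := Nat.mul_pos (Nat.succ_pos m) ha'
      omega
    have h4 : (i - j0) / a < m + 1 := (Nat.div_lt_iff_lt_mul ha').2 h3
    omega
  · rcases le_total i j0 with h | h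
    · have h3 : i - j0 = 0 := Nat.sub_eq_zero_of_le h
      rw [h3, Nat.zero_div, Nat.zero_mul, Nat.add_zero, abs_le]
      have h4 : (i : ℝ) ≤ j0 := by exact_mod_cast h
      have h5 : (j0 : ℝ) ≤ a := by exact_mod_cast hj.le
      have h6 : (0 : ℝ) ≤ i := Nat.cast_nonneg i
      constructor <;> linarith
    · have h3 := Nat.div_add_mod (i - j0) a
      have h4 := Nat.mod_lt (i - j0) ha'
      have h5 : i = j0 + (i - j0) / a * a + (i - j0) % a := by
        have h6 : (i - j0) / a * a = a * ((i - j0) / a) := Nat.mul_comm _ _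
        omega
      have h6 : (i : ℝ) = ((j0 + (i - j0) / a * a : ℕ) : ℝ) + (((i - j0) % a : ℕ) : ℝ) := by
        exact_mod_cast h5
      have h7 : (((i - j0) % a : ℕ) : ℝ) ≤ a := by exact_mod_cast h4.le
      have h8 : (0 : ℝ) ≤ (((i - j0) % a : ℕ) : ℝ) := Nat.cast_nonneg _
      rw [abs_le]
      constructor <;> linarith

theorem b_det_unit {K : ℝ} (hK : 1 ≤ K) (F : QM K) (w : V) (n a j0 m : ℕ) (ha : 1 ≤ a)
    (hj : j0 < a) (h1 : j0 + m * a ≤ n) (h2 : n < j0 + (m + 1) * a) (b ρ : ℝ)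
    (hR : ∑ k ∈ Finset.range m, (|rho (pj F w j0 a k b) (pj F w j0 a (k + 1) b) - a| +
      2 * gp (pj F w j0 a 0 b) (pj F w j0 a (k + 1) b) (pj F w j0 a k b)) ≤ ρ) :
    UnitP F w b 0 n (2 * ρ + 2 * (K * a + K) + 2 * a) := by
  have main : ∀ i i' : ℕ, i ≤ i' → i' ≤ n →
      abs (rho (F.f w (pt b (0 + i))) (F.f w (pt b (0 + i'))) - |(i : ℝ) - i'|) ≤
        2 * ρ + 2 * (K * a + K) + 2 * a := by
    intro i i' hii hi'
    obtain ⟨c1, c2⟩ := BUnit_nat n a j0 m i ha hj h2 (hii.trans hi')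
    obtain ⟨d1, d2⟩ := BUnit_nat n a j0 m i' ha hj h2 hi'
    have hkk : (i - j0) / a ≤ (i' - j0) / a := Nat.div_le_div_right (Nat.sub_le_sub_right hii j0)
    obtain ⟨d, hd⟩ := Nat.exists_eq_add_of_le hkk
    set k := (i - j0) / a with hk
    set k' := (i' - j0) / a with hk'
    have h3 := BUnit_pair (fun k => pj F w j0 a k b) a ρ m hR k d (by omega)
    have h3' : |rho (pj F w j0 a k b) (pj F w j0 a k' b) - d * a| ≤ 2 * ρ := by
      rw [hd]; exact h3
    have e1 : rho (F.f w (pt b (0 + i))) (pj F w j0 a k b) ≤ K * a + K := by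
      unfold pj
      refine (F.f_vert w b _ _).trans ?_
      rw [zero_add]
      have := mul_le_mul_of_nonneg_left c2 (by linarith : (0 : ℝ) ≤ K)
      linarith
    have e2 : rho (F.f w (pt b (0 + i'))) (pj F w j0 a k' b) ≤ K * a + K := by
      unfold pj
      refine (F.f_vert w b _ _).trans ?_
      rw [zero_add]
      have := mul_le_mul_of_nonneg_left d2 (by linarith : (0 : ℝ) ≤ K)
      linarith
    have t1 := rho_triangle (F.f w (pt b (0 + i))) (pj F w j0 a k b) (F.f w (pt b (0 + i')))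
    have t2 := rho_triangle (pj F w j0 a k b) (pj F w j0 a k' b) (F.f w (pt b (0 + i')))
    have t3 := rho_triangle (pj F w j0 a k b) (F.f w (pt b (0 + i))) (pj F w j0 a k' b)
    have t4 := rho_triangle (F.f w (pt b (0 + i))) (F.f w (pt b (0 + i'))) (pj F w j0 a k' b)
    have s1 := rho_comm (F.f w (pt b (0 + i))) (pj F w j0 a k b)
    have s2 := rho_comm (F.f w (pt b (0 + i'))) (pj F w j0 a k' b)
    have hd2 : ((j0 + k' * a : ℕ) : ℝ) = ((j0 + k * a : ℕ) : ℝ) + d * a := by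
      rw [hd]; push_cast; ring
    rw [hd2] at d2
    have hii2 : |(i : ℝ) - i'| = i' - i := by
      rw [abs_sub_comm, abs_of_nonneg]
      have : (i : ℝ) ≤ i' := by exact_mod_cast hii
      linarith
    rw [hii2]
    rw [abs_le] at c2 d2 h3' ⊢
    constructor
    · linarith [c2.1, c2.2, d2.1, d2.2, h3'.1, h3'.2]
    · linarith [c2.1, c2.2, d2.1, d2.2, h3'.1, h3'.2]
  intro i i' hi hi'
  have hi0 : i ≤ n := by exact_mod_cast hi
  have hi0' : i' ≤ n := by exact_mod_cast hi'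
  rcases le_total i i' with h | h
  · exact main i i' h hi0'
  · have := main i' i h hi0
    rw [rho_comm, abs_sub_comm (i : ℝ) i']
    exact this

private lemma BUnit_meas3 {K : ℝ} (F : QM K) {Ω : Type*} [MeasurableSpace Ω] (W : Ω → V)
    (B : Ω → ℝ) (hW : Measurable W) (hB : Measurable B) (x y z : ℝ)
    {β : Type*} [MeasurableSpace β] (Φ : ℍ → ℍ → ℍ → β) :
    Measurable fun ω => Φ (F.f (W ω) (pt (B ω) x)) (F.f (W ω) (pt (B ω) y))
      (F.f (W ω) (pt (B ω) z)) := by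
  have h := F.meas (ι := Fin 3) (fun _ => W)
    (fun i ω => pt (B ω) (![x, y, z] i)) (fun _ => hW)
    (fun i => measurable_pt' hB measurable_const)
    (fun g => Φ (g 0).2 (g 1).2 (g 2).2)
  exact h

theorem b_unit (K : ℝ) (hK : 1 ≤ K) (hT : StT K) (ε : ℝ) (hε : 0 < ε) :
    ∃ n0 : ℕ, ∀ (F : QM K) (n : ℕ), n0 ≤ n →
      volume {q : V × ℝ | q.1 ∈ box 8 ∧ q.2 ∈ Icc (-1) 1 ∧
        ¬ UnitP F (Real.exp n • q.1) q.2 0 n (ε * n)} ≤ ENNReal.ofReal ε := by
  obtain ⟨N, n1, hN⟩ := b_core K hK hT (ε ^ 2 / 24) (by positivity)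
  obtain ⟨n2, hn2⟩ := exists_nat_ge (4 * (2 * (K * N + K) + 2 * N) / ε)
  refine ⟨max (max n1 n2) 1, ?_⟩
  intro F n hn
  obtain ⟨a, j0, m, ha, haN, hj, h1, h2, Y, hY, hYi, H⟩ := hN F n
    ((le_max_left _ _).trans ((le_max_left _ _).trans hn))
  have hn1 : (1 : ℝ) ≤ n := by exact_mod_cast (le_max_right _ _).trans hn
  have hn2' : 4 * (2 * (K * N + K) + 2 * N) ≤ ε * n := by
    have h3 : (n2 : ℝ) ≤ n := by
      exact_mod_cast (le_max_right _ _).trans ((le_max_left _ _).trans hn)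
    have h4 := hn2.trans h3
    rw [div_le_iff₀ hε] at h4
    linarith
  have haN' : (a : ℝ) ≤ N := by exact_mod_cast haN
  have ha0 : (0 : ℝ) ≤ a := Nat.cast_nonneg a
  have hn0 : (0 : ℝ) < n := by linarith
  set ρ : ℝ := ε * n / 4 with hρ
  have hρ0 : 0 < ρ := by positivity
  let D : ℕ → V × ℝ → ℝ := fun k q =>
    |rho (pj F (Real.exp n • q.1) j0 a k q.2) (pj F (Real.exp n • q.1) j0 a (k + 1) q.2) - a|
  let G : ℕ → V × ℝ → ℝ := fun k q =>
    gp (pj F (Real.exp n • q.1) j0 a 0 q.2) (pj F (Real.exp n • q.1) j0 a (k + 1) q.2)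
      (pj F (Real.exp n • q.1) j0 a k q.2)
  let R : V × ℝ → ℝ := fun q => ∑ k ∈ Finset.range m, (D k q + 2 * G k q)
  have mW : Measurable fun q : V × ℝ => Real.exp n • q.1 :=
    (measurable_const_smul (Real.exp (n : ℝ))).comp measurable_fst
  have mD : ∀ k, Measurable (D k) := fun k =>
    BUnit_meas3 F (fun q : V × ℝ => Real.exp n • q.1) (fun q => q.2) mW measurable_snd
      ((j0 + k * a : ℕ) : ℝ) ((j0 + (k + 1) * a : ℕ) : ℝ) 0 (fun x y _ => |rho x y - a|)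
  have mG : ∀ k, Measurable (G k) := fun k =>
    BUnit_meas3 F (fun q : V × ℝ => Real.exp n • q.1) (fun q => q.2) mW measurable_snd
      ((j0 + 0 * a : ℕ) : ℝ) ((j0 + (k + 1) * a : ℕ) : ℝ) ((j0 + k * a : ℕ) : ℝ)
      (fun x y z => gp x y z)
  have mD' : ∀ (u : V) (k : ℕ), Measurable fun b : ℝ => |rho (pj F (Real.exp n • u) j0 a k b)
      (pj F (Real.exp n • u) j0 a (k + 1) b) - a| := fun u k =>
    BUnit_meas3 F (fun _ : ℝ => Real.exp n • u) (fun b => b) measurable_const measurable_id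
      ((j0 + k * a : ℕ) : ℝ) ((j0 + (k + 1) * a : ℕ) : ℝ) 0 (fun x y _ => |rho x y - a|)
  have mG' : ∀ (u : V) (k : ℕ), Measurable fun b : ℝ => gp (pj F (Real.exp n • u) j0 a 0 b)
      (pj F (Real.exp n • u) j0 a (k + 1) b) (pj F (Real.exp n • u) j0 a k b) := fun u k =>
    BUnit_meas3 F (fun _ : ℝ => Real.exp n • u) (fun b => b) measurable_const measurable_id
      ((j0 + 0 * a : ℕ) : ℝ) ((j0 + (k + 1) * a : ℕ) : ℝ) ((j0 + k * a : ℕ) : ℝ)
      (fun x y z => gp x y z)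
  have D0 : ∀ k q, 0 ≤ D k q := fun k q => abs_nonneg _
  have G0 : ∀ k q, 0 ≤ G k q := fun k q => gp_nonneg _ _ _
  have hRle : ∀ q, ENNReal.ofReal (R q) = (∑ k ∈ Finset.range m, ENNReal.ofReal (D k q)) +
      2 * ∑ k ∈ Finset.range m, ENNReal.ofReal (G k q) := by
    intro q
    show ENNReal.ofReal (∑ k ∈ Finset.range m, (D k q + 2 * G k q)) = _
    rw [ENNReal.ofReal_sum_of_nonneg (fun k _ => add_nonneg (D0 k q)
      (mul_nonneg zero_le_two (G0 k q))), Finset.mul_sum, ← Finset.sum_add_distrib]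
    refine Finset.sum_congr rfl (fun k _ => ?_)
    rw [ENNReal.ofReal_add (D0 k q) (mul_nonneg zero_le_two (G0 k q)),
      ENNReal.ofReal_mul zero_le_two, ENNReal.ofReal_ofNat]
  have mR : Measurable R := by
    refine Finset.measurable_sum _ (fun k _ => ?_)
    exact (mD k).add ((mG k).const_mul 2)
  have hfib : ∀ u : V, ∫⁻ b in Icc (-1 : ℝ) 1, ENNReal.ofReal (R (u, b)) ≤ 3 * Y u := by
    intro u
    obtain ⟨H1, H2⟩ := H u
    have H3 := H2 (fun b => pj F (Real.exp n • u) j0 a 0 b) (by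
      intro b b' hbb
      have h3 := near_vert hK F (Real.exp n • u) b b' j0 hbb
      have h4 : ((j0 + 0 * a : ℕ) : ℝ) = j0 := by push_cast; ring
      show rho (F.f (Real.exp n • u) (pt b ((j0 + 0 * a : ℕ) : ℝ)))
        (F.f (Real.exp n • u) (pt b' ((j0 + 0 * a : ℕ) : ℝ))) ≤ 2 * K
      rw [h4]
      exact h3) (fun k => mG' u k)
    have h3 : ∫⁻ b in Icc (-1 : ℝ) 1, ENNReal.ofReal (R (u, b)) =
        (∫⁻ b in Icc (-1 : ℝ) 1, ∑ k ∈ Finset.range m, ENNReal.ofReal (D k (u, b))) +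
        2 * ∫⁻ b in Icc (-1 : ℝ) 1, ∑ k ∈ Finset.range m, ENNReal.ofReal (G k (u, b)) := by
      have h4 : ∀ b : ℝ, ENNReal.ofReal (R (u, b)) =
          (∑ k ∈ Finset.range m, ENNReal.ofReal (D k (u, b))) +
          2 * ∑ k ∈ Finset.range m, ENNReal.ofReal (G k (u, b)) := fun b => hRle (u, b)
      have m1 : Measurable fun b : ℝ => ∑ k ∈ Finset.range m, ENNReal.ofReal (D k (u, b)) :=
        Finset.measurable_sum _ (fun k _ => (mD' u k).ennreal_ofReal)
      have m2 : Measurable fun b : ℝ => ∑ k ∈ Finset.range m, ENNReal.ofReal (G k (u, b)) :=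
        Finset.measurable_sum _ (fun k _ => (mG' u k).ennreal_ofReal)
      simp_rw [h4]
      rw [lintegral_add_left m1, lintegral_const_mul _ m2]
    rw [h3]
    calc _ ≤ Y u + 2 * Y u := add_le_add H1 (mul_le_mul_right H3 2)
      _ = 3 * Y u := by ring
  have hμ : (volume : Measure (V × ℝ)).restrict (box 8 ×ˢ Icc (-1 : ℝ) 1) =
      ((volume : Measure V).restrict (box 8)).prod ((volume : Measure ℝ).restrict (Icc (-1) 1)) := by
    rw [Measure.prod_restrict]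
    rfl
  have hint : ∫⁻ q in box 8 ×ˢ Icc (-1 : ℝ) 1, ENNReal.ofReal (R q) ≤
      3 * ENNReal.ofReal (ε ^ 2 / 24 * n) := by
    rw [hμ, lintegral_prod _ mR.ennreal_ofReal.aemeasurable]
    calc ∫⁻ u in box 8, ∫⁻ b in Icc (-1 : ℝ) 1, ENNReal.ofReal (R (u, b))
        ≤ ∫⁻ u in box 8, 3 * Y u := lintegral_mono (fun u => hfib u)
      _ = 3 * ∫⁻ u in box 8, Y u := lintegral_const_mul _ hY
      _ ≤ 3 * ENNReal.ofReal (ε ^ 2 / 24 * n) := mul_le_mul_right hYi 3
  have hmk := mul_meas_ge_le_lintegral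
    (μ := (volume : Measure (V × ℝ)).restrict (box 8 ×ˢ Icc (-1 : ℝ) 1))
    mR.ennreal_ofReal (ENNReal.ofReal ρ)
  have hmk2 := hmk.trans hint
  have hle : ((volume : Measure (V × ℝ)).restrict (box 8 ×ˢ Icc (-1 : ℝ) 1))
      {q | ENNReal.ofReal ρ ≤ ENNReal.ofReal (R q)} ≤ ENNReal.ofReal ε := by
    have h3 : ENNReal.ofReal ρ ≠ 0 := by
      rw [Ne, ENNReal.ofReal_eq_zero, not_le]; exact hρ0
    have h4 : 3 * ENNReal.ofReal (ε ^ 2 / 24 * n) ≤ ENNReal.ofReal ρ * ENNReal.ofReal ε := by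
      rw [← ENNReal.ofReal_mul hρ0.le]
      have h5 : (3 : ENNReal) = ENNReal.ofReal 3 := by rw [ENNReal.ofReal_ofNat]
      rw [h5, ← ENNReal.ofReal_mul (by norm_num)]
      refine ENNReal.ofReal_le_ofReal ?_
      rw [hρ]
      have h6 : 0 ≤ ε ^ 2 * n := by positivity
      nlinarith
    exact (ENNReal.mul_le_mul_iff_right h3 ENNReal.ofReal_ne_top).1 (hmk2.trans h4)
  refine le_trans ?_ hle
  have mbox : MeasurableSet (box 8) := measurableSet_Icc.prod measurableSet_Icc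
  have mset : MeasurableSet (box 8 ×ˢ Icc (-1 : ℝ) 1) := mbox.prod measurableSet_Icc
  rw [Measure.restrict_apply' mset]
  refine measure_mono ?_
  rintro q ⟨q1, q2, q3⟩
  refine ⟨?_, q1, q2⟩
  by_contra hcon
  refine q3 ?_
  have hlt : R q ≤ ρ := by
    by_contra h6
    exact hcon (ENNReal.ofReal_le_ofReal (not_le.1 h6).le)
  have h6 := b_det_unit hK F (Real.exp n • q.1) n a j0 m ha hj h1 h2 q.2 ρ hlt
  intro i i' hi hi'
  refine (h6 i i' hi hi').trans ?_
  have h7 : K * a ≤ K * N := mul_le_mul_of_nonneg_left haN' (by linarith)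
  rw [hρ]
  linarith

end Pool.Agent.FIB
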