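import Pool.Agent.FIB.Iface
import Pool.Agent.FIB.Tel

/-!
# Part D1, local step

From `StL`: for typical `(a, κ)` the path of the sheet `e^s (a, 0)` over the segment from
`pt κ 0` to `pt κ s` has length `s` up to `ε s`, and its end is seen from EVERY `q` through its
beginning.
-/

set_option autoImplicit false

namespace Pool.Agent.FIB

open UpperHalfPlane MeasureTheory Set

variable {K : ℝ}

/-- Conditions on two values of `F.f` define measurable sets. -/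
theorem D_meas2 (F : QM K) {Ω : Type*} [MeasurableSpace Ω] {w w' : Ω → V} {x x' : Ω → ℍ}
    (hw : Measurable w) (hx : Measurable x) (hw' : Measurable w') (hx' : Measurable x')
    (P : ℍ → ℍ → Prop) : MeasurableSet {ω | P (F.f (w ω) (x ω)) (F.f (w' ω) (x' ω))} := by
  have h := F.measSet (ι := Bool) (fun i => bif i then w else w') (fun i => bif i then x else x')
    (by intro i; cases i <;> assumption) (by intro i; cases i <;> assumption)
    (fun z => P (z true).2 (z false).2)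
  exact h

theorem D_prod_le {B : Set ℝ} {a b η : ℝ} (h : volume B ≤ ENNReal.ofReal η)
    (hη : 0 ≤ η) : volume {p : ℝ × ℝ | p.1 ∈ B ∧ p.2 ∈ Icc a b} ≤ ENNReal.ofReal (η * (b - a)) := by
  have h1 : {p : ℝ × ℝ | p.1 ∈ B ∧ p.2 ∈ Icc a b} = B ×ˢ Icc a b := rfl
  rw [h1, Measure.volume_eq_prod, Measure.prod_prod, Real.volume_Icc, ENNReal.ofReal_mul hη]
  exact mul_le_mul' h le_rfl

theorem D_loc (hK : 1 ≤ K) (h : StL K) (ε : ℝ) (hε : 0 < ε) : ∃ h0 : ℝ, 0 < h0 ∧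
    ∀ (F : QM K) (s : ℝ), h0 ≤ s →
      (∀ q : ℍ, volume {p : ℝ × ℝ | p.1 ∈ Icc (-2) 2 ∧ p.2 ∈ Icc (-1) 1 ∧
        ε * s < gp q (F.f (Real.exp s • ((p.1, 0) : V)) (pt p.2 s))
          (F.f (Real.exp s • ((p.1, 0) : V)) (pt p.2 0))} ≤ ENNReal.ofReal ε) ∧
      volume {p : ℝ × ℝ | p.1 ∈ Icc (-2) 2 ∧ p.2 ∈ Icc (-1) 1 ∧
        ε * s < |rho (F.f (Real.exp s • ((p.1, 0) : V)) (pt p.2 0))
          (F.f (Real.exp s • ((p.1, 0) : V)) (pt p.2 s)) - s|} ≤ ENNReal.ofReal ε := by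
  set η : ℝ := min ε 1 / 8 with hη
  have hη0 : 0 < η := by
    have : 0 < min ε 1 := lt_min hε one_pos
    rw [hη]
    linarith
  have hη1 : η ≤ 1 / 8 := by
    have := min_le_right ε 1
    rw [hη]
    linarith
  have hηε : η ≤ ε / 8 := by
    have := min_le_left ε 1
    rw [hη]
    linarith
  have hη3 : η ^ 3 ≤ η := by
    have h1 : η ^ 2 ≤ 1 := by nlinarith
    nlinarith
  have hη30 : 0 < η ^ 3 := by positivity
  obtain ⟨s0, hs0, H⟩ := h (η ^ 3) hη30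
  refine ⟨max s0 ((4 * K + 2) / ε), lt_max_of_lt_left hs0, ?_⟩
  intro F s hs
  have hs1 : s0 ≤ s := (le_max_left _ _).trans hs
  have hs2 : (4 * K + 2) / ε ≤ s := (le_max_right _ _).trans hs
  have hs3 : 4 * K + 2 ≤ ε * s := by
    rw [div_le_iff₀ hε] at hs2
    linarith
  have hspos : 0 < s := lt_of_lt_of_le hs0 hs1
  obtain ⟨t, -, H2⟩ := H F s hs1
  obtain ⟨HA, HB, HC⟩ := H2 0 ⟨by norm_num, by norm_num⟩
  have hes : η ^ 3 * s ≤ ε * s / 8 := by
    have : η ^ 3 ≤ ε / 8 := hη3.trans hηε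
    nlinarith
  -- closeness of the base points
  have hbase : ∀ a κ : ℝ, κ ∈ Icc (-1 : ℝ) 1 →
      ¬ (η ^ 3 * s < rho (F.f (Real.exp s • ((a, 0) : V)) o) t) →
      rho (F.f (Real.exp s • ((a, 0) : V)) (pt κ 0)) t ≤ ε * s / 8 + 2 * K := by
    intro a κ hκ hn
    rw [not_lt] at hn
    have h1 := near_vert hK F (Real.exp s • ((a, 0) : V)) κ 0 0 (by
      rw [sub_zero, mul_zero, Real.exp_zero]
      exact abs_le.2 hκ)
    have h2 := rho_triangle (F.f (Real.exp s • ((a, 0) : V)) (pt κ 0))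
      (F.f (Real.exp s • ((a, 0) : V)) (pt 0 0)) t
    have h3 : rho (F.f (Real.exp s • ((a, 0) : V)) (pt 0 0)) t ≤ η ^ 3 * s := hn
    linarith
  -- the exceptional `a`
  set B1 : Set ℝ := {a : ℝ | a ∈ Icc (-2) 2 ∧
    η ^ 3 * s < rho (F.f (Real.exp s • ((a, 0) : V)) o) t} with hB1
  have hB1p : volume {p : ℝ × ℝ | p.1 ∈ B1 ∧ p.2 ∈ Icc (-1) 1} ≤ ENNReal.ofReal (2 * η) := by
    refine (D_prod_le HA hη30.le).trans (ENNReal.ofReal_le_ofReal ?_)
    linarith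
  have hmw : Measurable fun p : ℝ × ℝ => (Real.exp s • ((p.1, 0) : V)) := by fun_prop
  have hmx : ∀ c : ℝ, Measurable fun p : ℝ × ℝ => pt p.2 c := fun c =>
    measurable_pt' measurable_snd measurable_const
  constructor
  · intro q
    set B3 : Set (ℝ × (ℝ × ℝ)) := {q : ℝ × ℝ × ℝ | q.1 ∈ Icc (-2) 2 ∧ q.2.1 ∈ Icc (-1) 1 ∧
      q.2.2 ∈ Icc (-1) 1 ∧ η ^ 3 * s < gp (F.f (Real.exp s • ((q.1, 0) : V)) (pt q.2.1 s))
          (F.f (Real.exp s • ((q.1, 0) : V)) (pt q.2.2 s)) t} with hB3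
    have hmB3 : MeasurableSet B3 := by
      have h1 : MeasurableSet {q : ℝ × ℝ × ℝ | η ^ 3 * s <
          gp (F.f (Real.exp s • ((q.1, 0) : V)) (pt q.2.1 s))
          (F.f (Real.exp s • ((q.1, 0) : V)) (pt q.2.2 s)) t} :=
        D_meas2 F (by fun_prop) (measurable_pt' (by fun_prop) measurable_const) (by fun_prop)
          (measurable_pt' (by fun_prop) measurable_const) (fun y z => η ^ 3 * s < gp y z t)
      have h2 : MeasurableSet {q : ℝ × ℝ × ℝ | q.1 ∈ Icc (-2 : ℝ) 2} :=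
        measurable_fst measurableSet_Icc
      have h3 : MeasurableSet {q : ℝ × ℝ × ℝ | q.2.1 ∈ Icc (-1 : ℝ) 1} :=
        (measurable_fst.comp measurable_snd) measurableSet_Icc
      have h4 : MeasurableSet {q : ℝ × ℝ × ℝ | q.2.2 ∈ Icc (-1 : ℝ) 1} :=
        (measurable_snd.comp measurable_snd) measurableSet_Icc
      exact h2.inter (h3.inter (h4.inter h1))
    set A1 : Set ℝ := {a : ℝ | ENNReal.ofReal (η ^ 2) < volume {b : ℝ × ℝ | (a, b) ∈ B3}} with hA1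
    have hmA1 : MeasurableSet A1 :=
      measurableSet_lt measurable_const (measurable_measure_prodMk_left hmB3)
    have hA1v : volume A1 ≤ ENNReal.ofReal η := by
      refine markov_fubini hmB3 (by positivity) hη0.le ?_
      have : η * η ^ 2 = η ^ 3 := by ring
      rw [this]
      exact HC
    have hA1p : volume {p : ℝ × ℝ | p.1 ∈ A1 ∧ p.2 ∈ Icc (-1) 1} ≤ ENNReal.ofReal (2 * η) := by
      refine (D_prod_le hA1v hη0.le).trans (ENNReal.ofReal_le_ofReal ?_)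
      linarith
    -- for `a ∉ A1`
    have hgood : ∀ a ∈ Icc (-2 : ℝ) 2 \ A1, volume {κ : ℝ | κ ∈ Icc (-1) 1 ∧ η ^ 3 * s + 1 <
        gp q (F.f (Real.exp s • ((a, 0) : V)) (pt κ s)) t} ≤ ENNReal.ofReal η := by
      intro a ha
      refine pairs_to_all (fun κ => F.f (Real.exp s • ((a, 0) : V)) (pt κ s)) t hη0.le ?_ q
      have h1 : ¬ (ENNReal.ofReal (η ^ 2) < volume {b : ℝ × ℝ | (a, b) ∈ B3}) := ha.2
      rw [not_lt] at h1
      refine le_trans (measure_mono ?_) h1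
      rintro ⟨κ, κ'⟩ ⟨hκ, hκ', hg⟩
      exact ⟨ha.1, hκ, hκ', hg⟩
    set S1 : Set (ℝ × ℝ) := {p : ℝ × ℝ | p.2 ∈ Icc (-1) 1 ∧ η ^ 3 * s + 1 <
        gp q (F.f (Real.exp s • ((p.1, 0) : V)) (pt p.2 s)) t} with hS1
    have hmS1 : MeasurableSet S1 := by
      have h1 : MeasurableSet {p : ℝ × ℝ | η ^ 3 * s + 1 <
          gp q (F.f (Real.exp s • ((p.1, 0) : V)) (pt p.2 s)) t} :=
        D_meas2 F hmw (hmx s) hmw (hmx s) (fun y _ => η ^ 3 * s + 1 < gp q y t)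
      exact (measurable_snd measurableSet_Icc).inter h1
    have hS1v := fiber_le hmS1 (measurableSet_Icc.diff hmA1) hgood
    have hS1v' : volume {p : ℝ × ℝ | p.1 ∈ Icc (-2 : ℝ) 2 \ A1 ∧ p ∈ S1} ≤
        ENNReal.ofReal (4 * η) := by
      refine hS1v.trans ?_
      have h1 : volume (Icc (-2 : ℝ) 2 \ A1) ≤ ENNReal.ofReal 4 := by
        refine (measure_mono sdiff_subset).trans ?_
        rw [Real.volume_Icc]
        norm_num
      refine (mul_le_mul' le_rfl h1).trans (le_of_eq ?_)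
      rw [← ENNReal.ofReal_mul hη0.le, mul_comm]
    have hsub : {p : ℝ × ℝ | p.1 ∈ Icc (-2) 2 ∧ p.2 ∈ Icc (-1) 1 ∧
        ε * s < gp q (F.f (Real.exp s • ((p.1, 0) : V)) (pt p.2 s))
          (F.f (Real.exp s • ((p.1, 0) : V)) (pt p.2 0))} ⊆
        ({p : ℝ × ℝ | p.1 ∈ B1 ∧ p.2 ∈ Icc (-1) 1} ∪ {p : ℝ × ℝ | p.1 ∈ A1 ∧ p.2 ∈ Icc (-1) 1}) ∪
          {p : ℝ × ℝ | p.1 ∈ Icc (-2 : ℝ) 2 \ A1 ∧ p ∈ S1} := by
      rintro ⟨a, κ⟩ ⟨ha, hκ, hg⟩
      simp only at ha hκ hg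
      by_cases h1 : a ∈ B1
      · exact Or.inl (Or.inl ⟨h1, hκ⟩)
      by_cases h2 : a ∈ A1
      · exact Or.inl (Or.inr ⟨h2, hκ⟩)
      refine Or.inr ⟨⟨ha, h2⟩, hκ, ?_⟩
      have h3 := hbase a κ hκ (fun h => h1 ⟨ha, h⟩)
      have h4 := gp_change_base q (F.f (Real.exp s • ((a, 0) : V)) (pt κ s))
        (F.f (Real.exp s • ((a, 0) : V)) (pt κ 0)) t
      show η ^ 3 * s + 1 < gp q (F.f (Real.exp s • ((a, 0) : V)) (pt κ s)) t
      linarith
    refine (measure_mono hsub).trans ((measure_union_le _ _).trans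
      ((add_le_add (measure_union_le _ _) le_rfl).trans ?_))
    refine (add_le_add (add_le_add hB1p hA1p) hS1v').trans ?_
    rw [← ENNReal.ofReal_add (by positivity) (by positivity),
      ← ENNReal.ofReal_add (by positivity) (by positivity)]
    exact ENNReal.ofReal_le_ofReal (by linarith)
  · have hsub : {p : ℝ × ℝ | p.1 ∈ Icc (-2) 2 ∧ p.2 ∈ Icc (-1) 1 ∧
        ε * s < |rho (F.f (Real.exp s • ((p.1, 0) : V)) (pt p.2 0))
          (F.f (Real.exp s • ((p.1, 0) : V)) (pt p.2 s)) - s|} ⊆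
        {p : ℝ × ℝ | p.1 ∈ B1 ∧ p.2 ∈ Icc (-1) 1} ∪
        {q : ℝ × ℝ | q.1 ∈ Icc (-2) 2 ∧ q.2 ∈ Icc (-1) 1 ∧
        η ^ 3 * s < |rho (F.f (Real.exp s • ((q.1, 0) : V)) (pt q.2 s)) t - s|} := by
      rintro ⟨a, κ⟩ ⟨ha, hκ, hg⟩
      simp only at ha hκ hg
      by_cases h1 : a ∈ B1
      · exact Or.inl ⟨h1, hκ⟩
      refine Or.inr ⟨ha, hκ, ?_⟩
      show η ^ 3 * s < |rho (F.f (Real.exp s • ((a, 0) : V)) (pt κ s)) t - s|
      have h3 := hbase a κ hκ (fun h => h1 ⟨ha, h⟩)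
      have h4 := rho_triangle (F.f (Real.exp s • ((a, 0) : V)) (pt κ s))
        (F.f (Real.exp s • ((a, 0) : V)) (pt κ 0)) t
      have h5 := rho_triangle (F.f (Real.exp s • ((a, 0) : V)) (pt κ s)) t
        (F.f (Real.exp s • ((a, 0) : V)) (pt κ 0))
      have h6 := rho_comm (F.f (Real.exp s • ((a, 0) : V)) (pt κ s))
        (F.f (Real.exp s • ((a, 0) : V)) (pt κ 0))
      have h7 := rho_comm t (F.f (Real.exp s • ((a, 0) : V)) (pt κ 0))
      by_contra h8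
      rw [not_lt, abs_le] at h8
      rw [lt_abs] at hg
      rcases hg with hg | hg <;> linarith
    refine (measure_mono hsub).trans ((measure_union_le _ _).trans ?_)
    refine (add_le_add hB1p HB).trans ?_
    rw [← ENNReal.ofReal_add (by positivity) (by positivity)]
    exact ENNReal.ofReal_le_ofReal (by linarith)

end Pool.Agent.FIB
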