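import Mathlib

/-!
# Quasi-isometries of `ℝ² ⋊ SL₂(ℝ)` coarsely preserve the `ℝ²` fibres: definitions

Problem `MP_84ef61_al` (Farb). The space is `X = V × ℍ`, `V = ℝ × ℝ`; the point `(w, x)` is
the point over `x` in the sheet `w`. `rho = dist / 2` on `ℍ`, and `nm x v` is the norm of the
vector `v` in the fibre over `x`: `nm x v ^ 2 = |v.1 - x v.2|^2 / im x`, so that `log (nm x v)` is
`1`-Lipschitz for `rho` and `(w, x) ↦ (w0 + act g w, g • x)` (`g ∈ SL₂(ℝ)`) is an isometry.

`pt b j = b + i e^{-2j}` is the point at depth `j` in the direction `b`; `rho (pt b j) (pt b j') = |j - j'|`,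
`nm (pt b j) (α • e1 + β • ev b) ^ 2 = α^2 e^{2j} + β^2 e^{-2j}`, where `e1 = (1, 0)`, `ev b = (b, 1)`.
`gp x y t` is the Gromov product `(x | y)_t`.

`QM K`: a (measurable) `K`-quasi-isometric embedding `(U, f)` of `X` into itself.
-/

set_option autoImplicit false

namespace Pool.Agent.FIB

open UpperHalfPlane MeasureTheory
open scoped MatrixGroups

/-- Vectors. -/
abbrev V := ℝ × ℝ

/-- Half the hyperbolic distance. -/
noncomputable def rho (x y : ℍ) : ℝ := dist x y / 2

/-- The norm of the vector `v` over the point `x`. -/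
noncomputable def nm (x : ℍ) (v : V) : ℝ :=
  Real.sqrt (((v.1 - x.re * v.2) ^ 2 + (x.im * v.2) ^ 2) / x.im)

/-- The Gromov product `(x | y)_t`. -/
noncomputable def gp (x y t : ℍ) : ℝ := (rho t x + rho t y - rho x y) / 2

/-- The point `b + i e^{-2j}`. -/
noncomputable def pt (b j : ℝ) : ℍ := ⟨⟨b, Real.exp (-2 * j)⟩, Real.exp_pos _⟩

/-- The base point `i`. -/
noncomputable def o : ℍ := pt 0 0

/-- The vector `(1, 0)`. -/
def e1 : V := (1, 0)

/-- The vector `(b, 1)`. -/
def ev (b : ℝ) : V := (b, 1)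

/-- The action of `SL₂(ℝ)` on `V`. -/
noncomputable def act (g : SL(2, ℝ)) (v : V) : V :=
  (g 0 0 * v.1 + g 0 1 * v.2, g 1 0 * v.1 + g 1 1 * v.2)

/-- The frame `fr b j`: the element of the Borel subgroup that maps `o` to `pt b j`; its columns are
`e^{-j} e1` and `e^{j} ev b`. -/
noncomputable def fr (b j : ℝ) : SL(2, ℝ) :=
  ⟨!![Real.exp (-j), b * Real.exp j; 0, Real.exp j], by
    rw [Matrix.det_fin_two_of, ← Real.exp_add]; simp⟩

/-- The quarter turn. -/
noncomputable def rot : SL(2, ℝ) := ⟨!![0, -1; 1, 0], by rw [Matrix.det_fin_two_of]; norm_num⟩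

/-- The coarse distance of `X = V × ℍ`. -/
noncomputable def dd (w : V) (x : ℍ) (w' : V) (x' : ℍ) : ℝ :=
  rho x x' + Real.log (1 + nm x (w - w'))

/-- A `K`-quasi-isometric embedding (not necessarily measurable). -/
structure QI (K : ℝ) (U : V → ℍ → V) (f : V → ℍ → ℍ) : Prop where
  upf : ∀ w x w' x', rho (f w x) (f w' x') ≤ K * dd w x w' x' + K
  upU : ∀ w x w' x', Real.log (1 + nm (f w x) (U w x - U w' x')) ≤ K * dd w x w' x' + K
  low : ∀ w x w' x', dd w x w' x' ≤ K * dd (U w x) (f w x) (U w' x') (f w' x') + K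

/-- A measurable `K`-quasi-isometric embedding of `X`: it factors through a measurable map to `ℕ`. -/
structure QM (K : ℝ) where
  U : V → ℍ → V
  f : V → ℍ → ℍ
  qi : QI K U f
  fac : ∃ c : V × ℍ → ℕ, Measurable c ∧
    ∀ p q : V × ℍ, c p = c q → U p.1 p.2 = U q.1 q.2 ∧ f p.1 p.2 = f q.1 q.2

/-- The box `[-M, M]²`. -/
def box (M : ℝ) : Set V := Set.Icc (-M) M ×ˢ Set.Icc (-M) M

end Pool.Agent.FIB
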