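import Pool.Agent.FIB.FDefs

/-!
# Averaging over the direction of the frame

`S = {(b0, β) | b0 ∈ Icc (-3) 3 ∧ β ∈ Icc (-1) 1 ∧ b0 + β * τ ∈ G}` is measurable. Integrating over `b0` first
(`Measure.prod_apply`, or `markov_fubini`/`lintegral`): `volume S ≤ 6 * ofReal η` (the slice over `b0` is contained in the set of the
hypothesis, and is empty for `b0 ∉ Icc (-3) 3`). Integrating over `β` first (`Measure.prod_apply_symm`): for
`β ∈ Icc (-1) 1` the slice contains the translate by `-β τ` of `G ∩ Icc (-2) 2` (`|β τ| ≤ 1`; `shift_le`), so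
`volume S ≥ 2 * volume (G ∩ Icc (-2) 2)`. Hence `volume (G ∩ Icc (-2) 2) ≤ 3 η`.
(`fiber_le` of `FIB/Meas` may also help.)
-/

set_option autoImplicit false

namespace Pool.Agent.FIB

open UpperHalfPlane MeasureTheory Set

theorem f_avg {G : Set ℝ} (hG : MeasurableSet G) {τ η : ℝ} (hτ : 0 ≤ τ) (hτ1 : τ ≤ 1)
    (hη : 0 ≤ η)
    (h : ∀ b0 : ℝ, volume {β : ℝ | β ∈ Icc (-1) 1 ∧ b0 + β * τ ∈ G} ≤ ENNReal.ofReal η) :
    volume (G ∩ Icc (-2) 2) ≤ ENNReal.ofReal (3 * η) := by
  set S : Set (ℝ × ℝ) := {p | p.1 ∈ Icc (-3 : ℝ) 3 ∧ p.2 ∈ Icc (-1 : ℝ) 1 ∧ p.1 + p.2 * τ ∈ G}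
    with hS
  have hSm : MeasurableSet S := by
    have h1 : MeasurableSet {p : ℝ × ℝ | p.1 ∈ Icc (-3 : ℝ) 3} :=
      measurable_fst measurableSet_Icc
    have h2 : MeasurableSet {p : ℝ × ℝ | p.2 ∈ Icc (-1 : ℝ) 1} :=
      measurable_snd measurableSet_Icc
    have h3 : MeasurableSet {p : ℝ × ℝ | p.1 + p.2 * τ ∈ G} :=
      (measurable_fst.add (measurable_snd.mul_const τ)) hG
    exact h1.inter (h2.inter h3)
  have hup : (volume : Measure (ℝ × ℝ)) S ≤ 6 * ENNReal.ofReal η := by
    rw [Measure.volume_eq_prod, Measure.prod_apply hSm]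
    calc ∫⁻ b0, volume (Prod.mk b0 ⁻¹' S)
        ≤ ∫⁻ b0, (Icc (-3 : ℝ) 3).indicator (fun _ => ENNReal.ofReal η) b0 := by
          refine lintegral_mono fun b0 => ?_
          by_cases hb : b0 ∈ Icc (-3 : ℝ) 3
          · rw [indicator_of_mem hb]
            refine le_trans (measure_mono ?_) (h b0)
            intro β hβ
            exact hβ.2
          · rw [indicator_of_notMem hb]
            have : Prod.mk b0 ⁻¹' S = ∅ := by
              ext β
              simp only [mem_preimage, mem_empty_iff_false, iff_false]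
              intro hβ
              exact hb hβ.1
            rw [this, measure_empty]
      _ = ENNReal.ofReal η * volume (Icc (-3 : ℝ) 3) := by
          rw [lintegral_indicator_const measurableSet_Icc]
      _ = 6 * ENNReal.ofReal η := by
          rw [Real.volume_Icc, mul_comm]
          norm_num
  have hlo : 2 * volume (G ∩ Icc (-2 : ℝ) 2) ≤ (volume : Measure (ℝ × ℝ)) S := by
    rw [Measure.volume_eq_prod, Measure.prod_apply_symm hSm]
    calc 2 * volume (G ∩ Icc (-2 : ℝ) 2)
        = ∫⁻ β, (Icc (-1 : ℝ) 1).indicator (fun _ => volume (G ∩ Icc (-2 : ℝ) 2)) β := by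
          rw [lintegral_indicator_const measurableSet_Icc, Real.volume_Icc, mul_comm]
          norm_num
      _ ≤ ∫⁻ β, volume ((fun x => (x, β)) ⁻¹' S) := by
          refine lintegral_mono fun β => ?_
          by_cases hb : β ∈ Icc (-1 : ℝ) 1
          · rw [indicator_of_mem hb]
            have h1 : volume ((fun x : ℝ => x + β * τ) ⁻¹' (G ∩ Icc (-2 : ℝ) 2)) =
                volume (G ∩ Icc (-2 : ℝ) 2) := measure_preimage_add_right _ _ _
            rw [← h1]
            refine measure_mono ?_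
            intro x hx
            have h2 : |β * τ| ≤ 1 := by
              rw [abs_mul]
              have h3 : |β| ≤ 1 := abs_le.mpr hb
              have h4 : |τ| ≤ 1 := by rw [abs_of_nonneg hτ]; exact hτ1
              calc |β| * |τ| ≤ 1 * 1 := mul_le_mul h3 h4 (abs_nonneg _) zero_le_one
                _ = 1 := one_mul 1
            have h5 := abs_le.mp h2
            have h6 : x + β * τ ∈ G ∩ Icc (-2 : ℝ) 2 := hx
            have h7 : -2 ≤ x + β * τ := h6.2.1
            have h8 : x + β * τ ≤ 2 := h6.2.2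
            exact ⟨⟨by linarith [h5.1, h5.2], by linarith [h5.1, h5.2]⟩, hb, h6.1⟩
          · rw [indicator_of_notMem hb]
            exact zero_le
  have hle := hlo.trans hup
  have h3 : ENNReal.ofReal (3 * η) = 3 * ENNReal.ofReal η := by
    rw [ENNReal.ofReal_mul (by norm_num)]
    norm_num
  rw [h3]
  have h4 : (6 : ENNReal) * ENNReal.ofReal η = 2 * (3 * ENNReal.ofReal η) := by
    rw [← mul_assoc]
    norm_num
  rw [h4] at hle
  exact (ENNReal.mul_le_mul_iff_right (by norm_num) (by norm_num)).mp hle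

end Pool.Agent.FIB
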