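import Pool.Agent.FIB.Four

/-!
# Tree-like geometry of `ℍ`

All from `fourpt` (constant `1`) and the triangle inequality, mostly by unfolding `gp` and
`linarith` after the case distinction in `max`.
* `gp_min`: `fourpt x y z t`... : `rho x z + rho y t ≤ max (rho x y + rho z t) (rho y z + rho x t) + 1`.
* `same_pos`: `fourpt t a t' b`: `rho t t' + rho a b ≤ max (rho t a + rho t' b) (rho a t' + rho t b) + 1`,
  and `rho t a + rho t b = rho a b + 2 gp a b t`, same for `t'`.
* `center_unique`: with `da = rho t a - rho t' a` etc., `|da + db|, |db + dc|, |da + dc| ≤ 2 e`, so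
  `|da| ≤ 3 e`; then `same_pos`.
* `gp_stable`: `gp a a' t ≥ rho t a - rho a a'`, and `gp_min a' a b` style.
* `concat3`: `fourpt x y z w`.
* `chain_left`: induction on `k`: `gp (q 0) (q (k-1)) (q k) = rho (q k) (q (k-1)) - gp (q 0) (q k) (q (k-1))
  ≥ (2 e + 4) - (e + 1/2)`, and `gp_min` at `q k` with `q (k-1), q 0, q (k+1)`.
* `chain`: apply `chain_left` to the chain and to the reversed chain, and `gp_min` once more.
* `path_near`: induction on `m`: split the path at its middle vertex; `gp_min` at `z`. For `n ≤ 1`: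
  `gp a b z ≥ rho z a - rho a b`.
* `exists_geod`: with `x = pt b j`, `y = pt b' j'` (`pt_re_im`). If `b = b'` everything is on a
  vertical line. If `b ≠ b'` put `h = - log |b - b'| / 2` (`|b - b'| e^{2 h} = 1`). If `j ≤ h`
  or `j' ≤ h` the two points are at bounded horizontal distance at the level `min j j'`
  (`rho (pt b m) (pt b' m) ≤ 1/2` for `m ≤ h`, by `rho_pt_b`): the vertical segment through the
  lower (deeper) point does it. If `j, j' ≥ h`: `rho x y ≥ j + j' - 2 h` (`le_rho_pt`) and the path
  `x → pt b h → pt b' h → y` has length `≤ j + j' - 2 h + 1/2`; take `z = pt b (j - s)` if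
  `s ≤ j - h` and `z = pt b' (j' - (rho x y - s))` otherwise (clip to `[h, j']` if necessary).
-/

set_option autoImplicit false

namespace Pool.Agent.FIB

open UpperHalfPlane

theorem gp_comm (x y t : ℍ) : gp x y t = gp y x t := by
  unfold gp
  rw [rho_comm x y]
  ring

theorem gp_nonneg (x y t : ℍ) : 0 ≤ gp x y t := by
  unfold gp
  have h := rho_triangle x t y
  rw [rho_comm x t] at h
  linarith

theorem gp_le (x y t : ℍ) : gp x y t ≤ rho t x := by
  unfold gp
  have h := rho_triangle t x y
  linarith

theorem gp_ge (x y t : ℍ) : rho t x - rho x y ≤ gp x y t := by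
  unfold gp
  have h := rho_triangle t y x
  rw [rho_comm y x] at h
  linarith

/-- Changing one of the points by `d` changes the product by at most `d`. -/
theorem gp_change (x x' y t : ℍ) : gp x y t ≤ gp x' y t + rho x x' := by
  unfold gp
  have h := rho_triangle t x' x
  have h' := rho_triangle x' x y
  rw [rho_comm x' x] at h h'
  linarith

theorem gp_change_base (x y t t' : ℍ) : gp x y t ≤ gp x y t' + rho t t' := by
  unfold gp
  have h := rho_triangle t t' x
  have h' := rho_triangle t t' y
  linarith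

theorem gp_min (x y z t : ℍ) : min (gp x y t) (gp y z t) ≤ gp x z t + 1 / 2 := by
  have h := fourpt x y z t
  rw [rho_comm y t, rho_comm z t, rho_comm x t] at h
  rcases le_total (rho x y + rho t z) (rho y z + rho t x) with h1 | h1
  · rw [max_eq_right h1] at h
    refine (min_le_right _ _).trans ?_
    unfold gp
    linarith
  · rw [max_eq_left h1] at h
    refine (min_le_left _ _).trans ?_
    unfold gp
    linarith

theorem same_pos {a b t t' : ℍ} {e d : ℝ} (h : gp a b t ≤ e) (h' : gp a b t' ≤ e)
    (hd : |rho a t - rho a t'| ≤ d) : rho t t' ≤ 2 * e + d + 1 := by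
  have h1 := fourpt t a t' b
  rw [abs_le] at hd
  obtain ⟨hd1, hd2⟩ := hd
  unfold gp at h h'
  rw [rho_comm t a] at h h1
  rw [rho_comm t' a] at h'
  rcases le_total (rho a t + rho t' b) (rho a t' + rho t b) with h2 | h2
  · rw [max_eq_right h2] at h1
    linarith
  · rw [max_eq_left h2] at h1
    linarith

theorem center_unique {a b c t t' : ℍ} {e : ℝ} (h1 : gp a b t ≤ e) (h2 : gp b c t ≤ e)
    (h3 : gp a c t ≤ e) (h1' : gp a b t' ≤ e) (h2' : gp b c t' ≤ e) (h3' : gp a c t' ≤ e) :
    rho t t' ≤ 5 * e + 1 := by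
  have k1 := gp_nonneg a b t
  have k2 := gp_nonneg b c t
  have k3 := gp_nonneg a c t
  have k1' := gp_nonneg a b t'
  have k2' := gp_nonneg b c t'
  have k3' := gp_nonneg a c t'
  have key : |rho a t - rho a t'| ≤ 3 * e := by
    unfold gp at h1 h2 h3 h1' h2' h3' k1 k2 k3 k1' k2' k3'
    rw [rho_comm a t, rho_comm a t', abs_le]
    constructor <;> linarith
  have := same_pos h1 h1' key
  linarith

theorem gp_stable {a a' b t : ℍ} {e : ℝ} (h : gp a b t ≤ e) (h' : e + 1 / 2 < rho t a - rho a a') :
    gp a' b t ≤ e + 1 / 2 := by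
  have h1 := gp_min a a' b t
  have h2 := gp_ge a a' t
  rcases min_le_iff.1 h1 with h3 | h3
  · linarith
  · linarith

theorem concat3 {x y z w : ℍ} {e : ℝ} (h : gp x z y ≤ e) (h' : gp y w z ≤ e)
    (hyz : 2 * e + 1 < rho y z) : rho x y + rho y z + rho z w - 4 * e - 1 ≤ rho x w := by
  have h1 := fourpt x y z w
  unfold gp at h h'
  rw [rho_comm y x] at h
  rw [rho_comm z y] at h'
  have h2 := rho_nonneg y z
  rcases le_total (rho x y + rho z w) (rho y z + rho x w) with h3 | h3
  · rw [max_eq_right h3] at h1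
    linarith
  · rw [max_eq_left h3] at h1
    exfalso
    have h4 : 2 * rho y z ≤ 4 * e + 1 := by linarith
    linarith

/-- The products at the two ends of a segment add up to its length. -/
theorem gp_add_gp (x y z : ℍ) : gp x y z + gp x z y = rho y z := by
  unfold gp
  rw [rho_comm z x, rho_comm z y, rho_comm y x]
  ring

theorem chain_left (q : ℕ → ℍ) (n : ℕ) (e : ℝ) (he : 0 ≤ e)
    (h : ∀ i, i + 2 ≤ n → gp (q i) (q (i + 2)) (q (i + 1)) ≤ e)
    (hd : ∀ i, i + 1 ≤ n → 2 * e + 4 ≤ rho (q i) (q (i + 1))) :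
    ∀ k, k + 1 ≤ n → gp (q 0) (q (k + 1)) (q k) ≤ e + 1 / 2 := by
  intro k
  induction k with
  | zero =>
    intro _
    have h1 := gp_le (q 0) (q (0 + 1)) (q 0)
    rw [rho_self] at h1
    linarith
  | succ k ih =>
    intro hk
    have h1 := ih (by omega)
    have h2 := hd k (by omega)
    have h3 := h k (by omega)
    have h4 := gp_add_gp (q 0) (q k) (q (k + 1))
    have h5 := gp_min (q k) (q 0) (q (k + 2)) (q (k + 1))
    rw [gp_comm (q k) (q 0)] at h5
    rcases min_le_iff.1 h5 with h6 | h6
    · linarith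
    · show gp (q 0) (q (k + 2)) (q (k + 1)) ≤ e + 1 / 2
      linarith

theorem chain (q : ℕ → ℍ) (n : ℕ) (e : ℝ) (he : 0 ≤ e)
    (h : ∀ i, i + 2 ≤ n → gp (q i) (q (i + 2)) (q (i + 1)) ≤ e)
    (hd : ∀ i, i + 1 ≤ n → 2 * e + 4 ≤ rho (q i) (q (i + 1))) :
    ∀ k, k ≤ n → gp (q 0) (q n) (q k) ≤ e + 1 := by
  intro k hk
  rcases Nat.lt_or_ge k n with hkn | hkn
  · have h1 := chain_left q n e he h hd k hkn
    have h2 : gp (q n) (q k) (q (k + 1)) ≤ e + 1 / 2 := by
      have h3 := chain_left (fun i => q (n - i)) n e he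
        (by
          intro i hi
          have h4 := h (n - (i + 2)) (by omega)
          have e1 : n - (i + 2) + 2 = n - i := by omega
          have e2 : n - (i + 2) + 1 = n - (i + 1) := by omega
          rw [e1, e2, gp_comm] at h4
          exact h4)
        (by
          intro i hi
          have h4 := hd (n - (i + 1)) (by omega)
          have e1 : n - (i + 1) + 1 = n - i := by omega
          rw [e1, rho_comm] at h4
          exact h4) (n - (k + 1)) (by omega)
      have e1 : n - (n - (k + 1)) = k + 1 := by omega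
      have e2 : n - (n - (k + 1) + 1) = k := by omega
      simp only [e1, e2, Nat.sub_zero] at h3
      exact h3
    have h3 := hd k hkn
    have h4 := gp_add_gp (q n) (q k) (q (k + 1))
    have h5 := gp_min (q 0) (q n) (q (k + 1)) (q k)
    rcases min_le_iff.1 h5 with h6 | h6
    · linarith
    · linarith
  · have hkn' : k = n := by omega
    subst hkn'
    have h1 := gp_le (q k) (q 0) (q k)
    rw [rho_self, gp_comm] at h1
    linarith

theorem path_near (p : ℕ → ℍ) (n m : ℕ) (hn : n ≤ 2 ^ m) (h : ℝ)
    (hs : ∀ k, k < n → rho (p k) (p (k + 1)) ≤ h) (hh : 0 ≤ h) (z : ℍ) :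
    ∃ k, k ≤ n ∧ rho z (p k) ≤ gp (p 0) (p n) z + m / 2 + h := by
  induction m generalizing p n with
  | zero =>
    rw [pow_zero] at hn
    refine ⟨0, Nat.zero_le _, ?_⟩
    have h1 := gp_ge (p 0) (p n) z
    have h2 : rho (p 0) (p n) ≤ h := by
      rcases Nat.lt_or_ge 0 n with h3 | h3
      · have h4 : n = 1 := by omega
        subst h4
        exact hs 0 h3
      · have h4 : n = 0 := by omega
        subst h4
        rw [rho_self]
        exact hh
    push_cast
    linarith
  | succ m ih =>
    have hpow : 2 ^ (m + 1) = 2 * 2 ^ m := by ring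
    rw [hpow] at hn
    have h1 := gp_min (p 0) (p (n / 2)) (p n) z
    push_cast
    rcases min_le_iff.1 h1 with h2 | h2
    · obtain ⟨k, hk, h3⟩ := ih p (n / 2) (by omega) (fun k hk => hs k (by omega))
      refine ⟨k, by omega, ?_⟩
      linarith
    · obtain ⟨k, hk, h3⟩ := ih (fun i => p (n / 2 + i)) (n - n / 2) (by omega)
        (fun k hk => hs (n / 2 + k) (by omega))
      refine ⟨n / 2 + k, by omega, ?_⟩
      have e1 : n / 2 + (n - n / 2) = n := by omega
      simp only [e1, add_zero] at h3
      linarith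

/-- A geodesic point on the vertical line through `b`. -/
private theorem vert (b j j' s : ℝ) (h0 : 0 ≤ s) (h1 : s ≤ |j - j'|) :
    ∃ z, rho (pt b j) z = s ∧ rho z (pt b j') = |j - j'| - s ∧
      ∃ m, z = pt b m := by
  rcases le_total j j' with h | h
  · have h2 : |j - j'| = j' - j := by rw [abs_sub_comm, abs_of_nonneg (by linarith)]
    rw [h2] at h1 ⊢
    refine ⟨pt b (j + s), ?_, ?_, _, rfl⟩
    · rw [rho_pt, abs_sub_comm, abs_of_nonneg (by linarith)]
      ring
    · rw [rho_pt, abs_sub_comm, abs_of_nonneg (by linarith)]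
      ring
  · have h2 : |j - j'| = j - j' := abs_of_nonneg (by linarith)
    rw [h2] at h1 ⊢
    refine ⟨pt b (j - s), ?_, ?_, _, rfl⟩
    · rw [rho_pt, abs_of_nonneg (by linarith)]
      ring
    · rw [rho_pt, abs_of_nonneg (by linarith)]
      ring

/-- Above the meeting level the two verticals are close. -/
private theorem hor {b b' h m : ℝ} (hbb : b ≠ b') (hh : h = -Real.log |b - b'| / 2) (hm : m ≤ h) :
    rho (pt b m) (pt b' m) ≤ 1 / 2 := by
  have h1 := rho_pt_b b b' m
  have h2 : 0 < |b - b'| := abs_pos.2 (sub_ne_zero.2 hbb)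
  have h3 : |b - b'| * Real.exp (2 * m) ≤ 1 := by
    have h4 : |b - b'| = Real.exp (-(2 * h)) := by
      rw [hh, show -(2 * (-Real.log |b - b'| / 2)) = Real.log |b - b'| by ring, Real.exp_log h2]
    rw [h4, ← Real.exp_add]
    have h5 : -(2 * h) + 2 * m ≤ 0 := by linarith
    calc Real.exp (-(2 * h) + 2 * m) ≤ Real.exp 0 := Real.exp_le_exp.2 h5
      _ = 1 := Real.exp_zero
  linarith

/-- The case of a high first point. -/
private theorem geod_high {b b' h j j' s : ℝ} (hbb : b ≠ b') (hh : h = -Real.log |b - b'| / 2)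
    (hj : j ≤ h) (h0 : 0 ≤ s) :
    ∃ z, rho (pt b j) z ≤ s + 1 / 2 ∧
      (rho z (pt b' j') ≤ rho (pt b j) (pt b' j') - s + 1 / 2 ∨ rho z (pt b' j') = 0) := by
  have h1 := hor hbb hh hj
  have h2 : rho (pt b' j) (pt b' j') ≤ 1 / 2 + rho (pt b j) (pt b' j') := by
    have h3 := rho_triangle (pt b' j) (pt b j) (pt b' j')
    rw [rho_comm (pt b' j) (pt b j)] at h3
    linarith
  rw [rho_pt] at h2
  rcases le_total s |j - j'| with hs | hs
  · obtain ⟨z, hz1, hz2, -⟩ := vert b' j j' s h0 hs
    refine ⟨z, ?_, Or.inl ?_⟩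
    · have h3 := rho_triangle (pt b j) (pt b' j) z
      linarith
    · linarith
  · refine ⟨pt b' j', ?_, Or.inr (rho_self _)⟩
    have h3 := rho_triangle (pt b j) (pt b' j) (pt b' j')
    rw [rho_pt] at h3
    linarith

/-- The path through the meeting level. -/
private theorem via {b b' h j j' : ℝ} (hbb : b ≠ b') (hh : h = -Real.log |b - b'| / 2)
    (hj : h ≤ j) (hj' : h ≤ j') :
    rho (pt b j) (pt b' j') ≤ (j - h) + 1 / 2 + (j' - h) := by
  have h1 := hor hbb hh (le_refl h)
  have h2 := rho_triangle (pt b j) (pt b h) (pt b' j')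
  have h3 := rho_triangle (pt b h) (pt b' h) (pt b' j')
  rw [rho_pt, abs_of_nonneg (by linarith)] at h2
  rw [rho_pt b' h j', abs_sub_comm, abs_of_nonneg (by linarith)] at h3
  linarith

theorem exists_geod (x y : ℍ) (s : ℝ) (h0 : 0 ≤ s) (h1 : s ≤ rho x y) :
    ∃ z, rho x z ≤ s + 1 ∧ rho z y ≤ rho x y - s + 1 := by
  rw [← pt_re_im x, ← pt_re_im y] at h1 ⊢
  generalize x.re = b at h1 ⊢
  generalize -(Real.log x.im) / 2 = j at h1 ⊢
  generalize y.re = b' at h1 ⊢
  generalize -(Real.log y.im) / 2 = j' at h1 ⊢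
  by_cases hbb : b = b'
  · subst hbb
    rw [rho_pt] at h1 ⊢
    obtain ⟨z, hz1, hz2, -⟩ := vert b j j' s h0 h1
    exact ⟨z, by linarith, by linarith⟩
  · obtain ⟨h, hh⟩ : ∃ h, h = -Real.log |b - b'| / 2 := ⟨_, rfl⟩
    rcases le_total j h with hj | hj
    · obtain ⟨z, hz1, hz2⟩ := geod_high (j' := j') hbb hh hj h0
      refine ⟨z, by linarith, ?_⟩
      rcases hz2 with hz2 | hz2 <;> linarith
    · rcases le_total j' h with hj' | hj'
      · have hh' : h = -Real.log |b' - b| / 2 := by rw [abs_sub_comm]; exact hh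
        obtain ⟨z, hz1, hz2⟩ := geod_high (j' := j) (s := rho (pt b j) (pt b' j') - s)
          (Ne.symm hbb) hh' hj' (by linarith)
        rw [rho_comm (pt b' j') z] at hz1
        rw [rho_comm z (pt b j), rho_comm (pt b' j') (pt b j)] at hz2
        refine ⟨z, ?_, by linarith⟩
        rcases hz2 with hz2 | hz2 <;> linarith
      · have h2 := le_rho_pt b b' j j' hbb
        have h3 : Real.log |b - b'| = -(2 * h) := by rw [hh]; ring
        rw [h3] at h2
        have h4 := via hbb hh hj hj'
        rcases le_total s (j - h) with hs | hs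
        · refine ⟨pt b (j - s), ?_, ?_⟩
          · rw [rho_pt, abs_of_nonneg (by linarith)]
            linarith
          · have h5 := via (j := j - s) (j' := j') hbb hh (by linarith) hj'
            linarith
        · rcases le_total (rho (pt b j) (pt b' j') - s) (j' - h) with hr | hr
          · refine ⟨pt b' (j' - (rho (pt b j) (pt b' j') - s)), ?_, ?_⟩
            · have h5 := via (j := j) (j' := j' - (rho (pt b j) (pt b' j') - s)) hbb hh hj
                (by linarith)
              linarith
            · rw [rho_pt b', abs_sub_comm, abs_of_nonneg (by linarith)]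
              linarith
          · refine ⟨pt b' h, ?_, ?_⟩
            · have h5 := via (j := j) (j' := h) hbb hh hj le_rfl
              linarith
            · rw [rho_pt b', abs_sub_comm, abs_of_nonneg (by linarith)]
              linarith

end Pool.Agent.FIB
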