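import Pool.Agent.FIB.FDefs
import Pool.Agent.FIB.Tree

/-!
# Vertical lines are uniform quasi-geodesics

`CV`, `CM` the constants of `FVert`, `FMid` for `ε = 1 / 6`; `r = ⌈2 * (CV + 2 * CM + 4)⌉₊ + 1`, `e = r / 6 + CM`, `C = e + 1`. Given `F, w, b, n` let
`q i = F.f w (pt b (((i : ℝ) - n) * r))` for `i ≤ 2 n`. `FMid` at `j = (i + 1 - n) * r` with its `n` equal to `r`: `gp (q i) (q (i+2)) (q (i+1)) ≤ e`.
`FVert`: `rho (q i) (q (i+1)) ≥ (5/6) * r - CV ≥ 2 * e + 4`. `chain q (2 n) e` at `k = n`; `q n = F.f w (pt b 0)`.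
-/

set_option autoImplicit false

namespace Pool.Agent.FIB

open UpperHalfPlane MeasureTheory Set

theorem f_chain (K : ℝ) (hK : 1 ≤ K) (hV : FVert K) (hM : FMid K) :
    ∃ (C : ℝ) (r : ℕ), 0 < C ∧ 0 < r ∧ ∀ (F : QM K) (w : V) (b : ℝ) (n : ℕ),
      gp (F.f w (pt b (-((n : ℝ) * r)))) (F.f w (pt b ((n : ℝ) * r))) (F.f w (pt b 0)) ≤ C := by
  obtain ⟨CV, hCV, hV'⟩ := hV (1 / 6) (by norm_num)
  obtain ⟨CM, hCM, hM'⟩ := hM (1 / 6) (by norm_num)
  obtain ⟨r, hr⟩ : ∃ r : ℕ, r = ⌈2 * (CV + 2 * CM + 4)⌉₊ + 1 := ⟨_, rfl⟩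
  have hr1 : 2 * (CV + 2 * CM + 4) ≤ (r : ℝ) := by
    have h1 := Nat.le_ceil (2 * (CV + 2 * CM + 4))
    rw [hr]
    push_cast
    linarith
  have hr0 : 0 < r := by rw [hr]; omega
  have hrR : (0 : ℝ) ≤ r := Nat.cast_nonneg r
  refine ⟨(r : ℝ) / 6 + CM + 1, r, by positivity, hr0, ?_⟩
  intro F w b n
  have key := chain (fun i => F.f w (pt b (((i : ℝ) - n) * r))) (2 * n) ((r : ℝ) / 6 + CM)
    (by positivity)
    (by
      intro i _
      have h1 := hM' F w b (((i : ℝ) + 1 - n) * r) r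
      have e1 : ((i : ℝ) + 1 - n) * r - r = ((i : ℝ) - n) * r := by ring
      have e2 : ((i : ℝ) + 1 - n) * r + r = (((i + 2 : ℕ) : ℝ) - n) * r := by
        push_cast
        ring
      have e3 : ((i : ℝ) + 1 - n) * r = (((i + 1 : ℕ) : ℝ) - n) * r := by
        push_cast
        ring
      rw [e1, e2, e3] at h1
      show gp (F.f w (pt b (((i : ℝ) - n) * r))) (F.f w (pt b ((((i + 2 : ℕ) : ℝ) - n) * r)))
        (F.f w (pt b ((((i + 1 : ℕ) : ℝ) - n) * r))) ≤ (r : ℝ) / 6 + CM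
      linarith)
    (by
      intro i _
      have h1 := hV' F w b (((i : ℝ) - n) * r) r hrR
      have e1 : ((i : ℝ) - n) * r + r = (((i + 1 : ℕ) : ℝ) - n) * r := by
        push_cast
        ring
      rw [e1] at h1
      show 2 * ((r : ℝ) / 6 + CM) + 4 ≤ rho (F.f w (pt b (((i : ℝ) - n) * r)))
        (F.f w (pt b ((((i + 1 : ℕ) : ℝ) - n) * r)))
      linarith)
    n (by omega)
  have e0 : (((0 : ℕ) : ℝ) - n) * r = -((n : ℝ) * r) := by
    push_cast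
    ring
  have e1 : (((2 * n : ℕ) : ℝ) - n) * r = (n : ℝ) * r := by
    push_cast
    ring
  have e2 : ((n : ℝ) - n) * r = 0 := by ring
  simp only [e0, e1, e2] at key
  exact key

end Pool.Agent.FIB
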