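import Pool.Agent.FIB.Iface
import Pool.Agent.FIB.Tel
import Pool.Agent.FIB.Vec

/-!
# Part D3: statements  (COMPLETE FILE)

`StA K → StS K → StF K`: `FUp` (upper bound), `FAvg, FOne, FTwo, FThree` (typical directions),
`FGrow` (growth, packaged), `FLowDet, FLow` (lower bound), `FVer` (vertical lower bound), `FSplit, FOver, FMidd` (the
products at the middle of vertical segments), `FChain`, `FTri`, `PartD3`.
-/

set_option autoImplicit false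

namespace Pool.Agent.FIB

open UpperHalfPlane MeasureTheory Set

/-- (F1) upper bound for the difference of two sheets. -/
def FUB (K : ℝ) : Prop :=
  ∀ ε : ℝ, 0 < ε → ∃ C : ℝ, 0 < C ∧ ∀ (F : QM K) (w w' : V) (x : ℍ),
    nm (F.f w x) (F.U w x - F.U w' x) ≤ Real.exp ((1 + ε) * Real.log (1 + nm x (w - w')) + C)

/-- (F2), one scale: from `F.f 0 o` to the typical point at depth `R`. -/
def FT1 (K : ℝ) : Prop :=
  ∀ ε : ℝ, 0 < ε → ∃ C : ℝ, 0 < C ∧ ∀ (F : QM K) (R : ℝ), 0 ≤ R →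
    (∀ q : ℍ, volume {b : ℝ | b ∈ Icc (-2) 2 ∧
      ε * R + C < gp q (F.f 0 (pt b R)) (F.f 0 o)} ≤ ENNReal.ofReal ε) ∧
    volume {b : ℝ | b ∈ Icc (-2) 2 ∧
      ε * R + C < |rho (F.f 0 (pt b R)) (F.f 0 o) - R|} ≤ ENNReal.ofReal ε

/-- (F2), one pair of depths. -/
def FT2 (K : ℝ) : Prop :=
  ∀ ε : ℝ, 0 < ε → ∃ C : ℝ, 0 < C ∧ ∀ (F : QM K) (i L : ℝ), 0 ≤ i → 0 ≤ L →
    volume {b : ℝ | b ∈ Icc (-2) 2 ∧
      ε * L + C < |rho (F.f 0 (pt b i)) (F.f 0 (pt b (i + L))) - L|} ≤ ENNReal.ofReal ε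

/-- (F2) every sheet is typical. -/
def FTy (K : ℝ) : Prop :=
  ∀ ε : ℝ, 0 < ε → ∃ C : ℝ, 0 < C ∧ ∀ (F : QM K) (R : ℝ), 0 ≤ R →
    volume {b : ℝ | b ∈ Icc (-2) 2 ∧ ¬ UnitP F 0 b 0 R (ε * R + C)} ≤ ENNReal.ofReal ε ∧
    ∀ q : ℍ, volume {b : ℝ | b ∈ Icc (-2) 2 ∧
      ε * R + C < gp q (F.f 0 (pt b R)) (F.f 0 o)} ≤ ENNReal.ofReal ε

/-- (F3) lower bound for the difference of two sheets. -/
def FLB (K : ℝ) : Prop :=
  ∀ ε : ℝ, 0 < ε → ∃ C : ℝ, 0 < C ∧ ∀ (F : QM K) (w w' : V) (x : ℍ),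
    (1 - ε) * Real.log (1 + nm x (w - w')) - C ≤
      Real.log (1 + nm (F.f w x) (F.U w x - F.U w' x))

/-- (F4) vertical lower bound. -/
def FVert (K : ℝ) : Prop :=
  ∀ ε : ℝ, 0 < ε → ∃ C : ℝ, 0 < C ∧ ∀ (F : QM K) (w : V) (b j L : ℝ), 0 ≤ L →
    (1 - ε) * L - C ≤ rho (F.f w (pt b j)) (F.f w (pt b (j + L)))

/-- (F5) the product at the middle of a vertical segment is sublinear. -/
def FMid (K : ℝ) : Prop :=
  ∀ ε : ℝ, 0 < ε → ∃ C : ℝ, 0 < C ∧ ∀ (F : QM K) (w : V) (b j : ℝ) (n : ℕ),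
    gp (F.f w (pt b (j - n))) (F.f w (pt b (j + n))) (F.f w (pt b j)) ≤ ε * n + C

end Pool.Agent.FIB
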