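import Pool.Agent.FIB.FDefs

/-!
# Growth, packaged for the pair of sheets `w, w + β • ev b`

Let `C0` be the constant of `growth K`; the constant here is `C = 4 * C0 + 20`. Put `w1 = w + β • ev b`, `t = F.f w o`,
`t0 = F.f w (pt b 0)`. Apply `growth` with `c = 1`, its `e` being `2 * e`, and
`p k = F.f w (pt b ((n - k : ℕ) : ℝ))`, `p' k = F.f w1 (pt b ((n - k : ℕ) : ℝ))`, `U k = F.U w (pt b ..)`, `U' k = F.U w1 (pt b ..)`:
* steps: `F.U_vert` (`|j - j'| = 1`) and `nm_sub_comm`;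
* `nm (p 0) (U 0 - U' 0) ≤ exp (2 K)`: `F.U_near`, as `nm (pt b n) (w - w1) = |β| * exp (-n) ≤ 1` (`nm_pt_ev`, `nm_neg`);
* `rho (p k) (p' k) ≤ e` is a hypothesis, `|rho (p k) (p l) - 1 * |k - l|| ≤ e` is `UnitP F w b 0 n e` at `i = n - k`, `i' = n - l`
  (`pt b (0 + i)`: `zero_add`);
* separation: `F.sep_fib w w1 (pt b (n - k))`: `nm (pt b (n - k)) (w - w1) = |β| * exp (-(n - k)) ≥ exp (k - e)`, so
  `k - e ≤ K * (rho + log (1 + nm ..)) + K`, and `e + K ≤ K * (2 * e)`.
Base change. `rho t0 t ≤ 2 K` and `nm t0 (F.U w (pt b 0) - F.U w o) ≤ exp (2 K)` (`F.f_hor`, `F.U_hor`, `|b| ≤ 2`, `o = pt 0 0`), and the same for the sheet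
`w1` over the point `F.f w1 (pt b 0)`, which is at distance `≤ e` from `t0` (hypothesis at `k = 0`, `nm_le`). With
`X0 = F.U w (pt b 0) - F.U w1 (pt b 0)`, `X = F.U w o - F.U w1 o`: `nm t0 (X - X0) ≤ exp (2 K) + exp (2 K + e)`, so
`nm z (X - X0) ≤ exp (rho t0 z + 2 K + e + 1)` for all `z` (`nm_le`).
Lower bound: if `g = gp (F.f w (pt b n)) z t ≤ n / 4 - e` then `gp (p 0) z t0 ≤ g + 2 K ≤ n / 4` (`gp_change_base`) and `growth` gives
`nm z X0 ≥ exp (n + rho t0 z - 2 g - 4 K - 2 C0 e)`; the exponent exceeds `rho t0 z + 2 K + e + 2`, since `n - 2 g ≥ n / 2 + 2 e` and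
`n / 2 ≥ (2 C0 + 10) e`. So `nm z X ≥ exp (n + rho t0 z - 2 g - 4 K - 2 C0 e - 1)`, and `rho t0 z ≥ rho t z - 2 K`.
Upper bound: `nm z X ≤ exp (M + 2 C0 e) + exp (M + 2 K + e + 1) ≤ exp (M + C e)`.
-/

set_option autoImplicit false

namespace Pool.Agent.FIB

open UpperHalfPlane MeasureTheory Set

private lemma FGrow_two_exp (x : ℝ) : 2 * Real.exp x ≤ Real.exp (x + 1) := by
  rw [Real.exp_add]
  have h := Real.add_one_le_exp (1 : ℝ)
  nlinarith [Real.exp_pos x]

theorem f_grow (K : ℝ) (hK : 1 ≤ K) : ∃ C : ℝ, 1 ≤ C ∧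
    ∀ (F : QM K) (w : V) (b β e : ℝ) (n : ℕ), |b| ≤ 2 → 2 * K + 2 ≤ e →
      Real.log (4 * n + 4) ≤ e → C * e ≤ n →
      Real.exp (n - e) ≤ |β| → |β| ≤ Real.exp n → UnitP F w b 0 n e →
      (∀ k : ℕ, k ≤ n → rho (F.f w (pt b k)) (F.f (w + β • ev b) (pt b k)) ≤ e) →
      (∀ z, gp (F.f w (pt b n)) z (F.f w o) ≤ n / 4 - e →
        Real.exp (n + rho (F.f w o) z - 2 * gp (F.f w (pt b n)) z (F.f w o) - C * e) ≤
          nm z (F.U w o - F.U (w + β • ev b) o)) ∧
      (∀ z M, (∀ k : ℕ, k ≤ n → rho z (F.f w (pt b k)) ≤ M) →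
        nm z (F.U w o - F.U (w + β • ev b) o) ≤ Real.exp (M + C * e)) := by
  obtain ⟨C0, hC0, hg⟩ := growth K hK
  refine ⟨4 * C0 + 20, by linarith, ?_⟩
  intro F w b β e n hb he hlog hCn hβ1 hβ2 hunit hclose
  have hK0 : 0 ≤ K := by linarith
  have he0 : 4 ≤ e := by linarith
  have hC0e : 0 ≤ C0 * e := by positivity
  have hcast : ∀ k : ℕ, k ≤ n → ((n - k : ℕ) : ℝ) = n - k := fun k hk => Nat.cast_sub hk
  -- norm of the difference of the two sheets
  have hdiff : ∀ j : ℝ, nm (pt b j) (w - (w + β • ev b)) = |β| * Real.exp (-j) := by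
    intro j
    have h1 : w - (w + β • ev b) = -(β • ev b) := by abel
    rw [h1, nm_neg, nm_pt_ev]
  have hG := hg (fun k => F.f w (pt b ((n - k : ℕ) : ℝ)))
    (fun k => F.f (w + β • ev b) (pt b ((n - k : ℕ) : ℝ)))
    (fun k => F.U w (pt b ((n - k : ℕ) : ℝ)))
    (fun k => F.U (w + β • ev b) (pt b ((n - k : ℕ) : ℝ))) n 1 (2 * e)
    (by linarith) (by linarith) (by nlinarith)
    (by rw [div_le_one (by linarith)]; linarith) (by linarith)
    (by
      intro k hk
      have h1 := F.U_vert w b ((n - k : ℕ) : ℝ) ((n - (k + 1) : ℕ) : ℝ)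
      have h2 : |((n - k : ℕ) : ℝ) - ((n - (k + 1) : ℕ) : ℝ)| = 1 := by
        rw [hcast k hk.le, hcast (k + 1) hk]
        push_cast
        rw [show (n : ℝ) - k - (n - (k + 1)) = 1 by ring, abs_one]
      rw [h2] at h1
      rw [nm_sub_comm]
      exact h1.trans (Real.exp_le_exp.2 (by linarith)))
    (by
      intro k hk
      have h1 := F.U_vert (w + β • ev b) b ((n - k : ℕ) : ℝ) ((n - (k + 1) : ℕ) : ℝ)
      have h2 : |((n - k : ℕ) : ℝ) - ((n - (k + 1) : ℕ) : ℝ)| = 1 := by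
        rw [hcast k hk.le, hcast (k + 1) hk]
        push_cast
        rw [show (n : ℝ) - k - (n - (k + 1)) = 1 by ring, abs_one]
      rw [h2] at h1
      rw [nm_sub_comm]
      exact h1.trans (Real.exp_le_exp.2 (by linarith)))
    (by
      have h1 : nm (pt b ((n - 0 : ℕ) : ℝ)) (w - (w + β • ev b)) ≤ 1 := by
        rw [hdiff, hcast 0 (Nat.zero_le n)]
        have h2 : |β| * Real.exp (-((n : ℝ) - ((0 : ℕ) : ℝ))) ≤
            Real.exp n * Real.exp (-((n : ℝ) - ((0 : ℕ) : ℝ))) :=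
          mul_le_mul_of_nonneg_right hβ2 (Real.exp_pos _).le
        rw [← Real.exp_add] at h2
        have h3 : (n : ℝ) + -((n : ℝ) - ((0 : ℕ) : ℝ)) = 0 := by
          rw [Nat.cast_zero]; ring
        rw [h3, Real.exp_zero] at h2
        exact h2
      have h2 := F.U_near hK0 w (w + β • ev b) (pt b ((n - 0 : ℕ) : ℝ)) h1
      exact h2.trans (Real.exp_le_exp.2 (by linarith)))
    (by
      intro k _
      have h1 := hclose (n - k) (Nat.sub_le n k)
      have h2 : rho (F.f w (pt b ((n - k : ℕ) : ℝ))) (F.f (w + β • ev b) (pt b ((n - k : ℕ) : ℝ))) ≤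
        2 * e := by linarith
      exact h2)
    (by
      intro k l hk hl
      have h1 := hunit (n - k) (n - l) (by exact_mod_cast Nat.sub_le n k)
        (by exact_mod_cast Nat.sub_le n l)
      rw [zero_add, zero_add] at h1
      have h2 : |((n - k : ℕ) : ℝ) - ((n - l : ℕ) : ℝ)| = |(k : ℝ) - l| := by
        rw [hcast k hk, hcast l hl, show (n : ℝ) - k - (n - l) = -((k : ℝ) - l) by ring, abs_neg]
      rw [h2] at h1
      rw [one_mul]
      exact h1.trans (by linarith))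
    (by
      intro k hk
      have h1 := F.sep_fib w (w + β • ev b) (pt b ((n - k : ℕ) : ℝ))
      rw [hdiff, hcast k hk] at h1
      have h2 : Real.exp ((k : ℝ) - e) ≤ 1 + |β| * Real.exp (-((n : ℝ) - k)) := by
        have h3 : Real.exp (n - e) * Real.exp (-((n : ℝ) - k)) ≤
            |β| * Real.exp (-((n : ℝ) - k)) :=
          mul_le_mul_of_nonneg_right hβ1 (Real.exp_pos _).le
        rw [← Real.exp_add] at h3
        rw [show (n : ℝ) - e + -((n : ℝ) - k) = k - e by ring] at h3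
        linarith
      have h3 : (k : ℝ) - e ≤ Real.log (1 + |β| * Real.exp (-((n : ℝ) - k))) := by
        rw [Real.le_log_iff_exp_le (lt_of_lt_of_le (Real.exp_pos _) h2)]
        exact h2
      have h4 : e + K ≤ K * (2 * e) := by nlinarith
      show (k : ℝ) ≤ K * (rho (F.f w (pt b ((n - k : ℕ) : ℝ)))
        (F.f (w + β • ev b) (pt b ((n - k : ℕ) : ℝ))) +
        Real.log (1 + nm (F.f w (pt b ((n - k : ℕ) : ℝ)))
          (F.U w (pt b ((n - k : ℕ) : ℝ)) - F.U (w + β • ev b) (pt b ((n - k : ℕ) : ℝ))))) + K * (2 * e)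
      rw [hcast k hk]
      linarith)
  obtain ⟨-, hlow, hup⟩ := hG
  simp only [Nat.sub_self, Nat.sub_zero, Nat.cast_zero, one_mul] at hlow hup
  -- base change
  have hbt : rho (F.f w (pt b 0)) (F.f w o) ≤ 2 * K := by
    have h1 := F.f_hor hK0 w b 0 0
    rw [sub_zero, mul_zero, Real.exp_zero, mul_one] at h1
    have h2 : K * (|b| / 2) ≤ K * 1 := mul_le_mul_of_nonneg_left (by linarith) hK0
    exact h1.trans (by linarith)
  have hU0 : nm (F.f w (pt b 0)) (F.U w (pt b 0) - F.U w o) ≤ Real.exp (2 * K) := by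
    have h1 := F.U_hor hK0 w b 0 0
    rw [sub_zero, mul_zero, Real.exp_zero, mul_one] at h1
    have h2 : K * (|b| / 2) ≤ K * 1 := mul_le_mul_of_nonneg_left (by linarith) hK0
    exact h1.trans (Real.exp_le_exp.2 (by linarith))
  have hU1 : nm (F.f (w + β • ev b) (pt b 0))
      (F.U (w + β • ev b) (pt b 0) - F.U (w + β • ev b) o) ≤ Real.exp (2 * K) := by
    have h1 := F.U_hor hK0 (w + β • ev b) b 0 0
    rw [sub_zero, mul_zero, Real.exp_zero, mul_one] at h1
    have h2 : K * (|b| / 2) ≤ K * 1 := mul_le_mul_of_nonneg_left (by linarith) hK0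
    exact h1.trans (Real.exp_le_exp.2 (by linarith))
  have hcl0 : rho (F.f w (pt b 0)) (F.f (w + β • ev b) (pt b 0)) ≤ e := by
    have h1 := hclose 0 (Nat.zero_le n)
    rwa [Nat.cast_zero] at h1
  have hU1' : nm (F.f w (pt b 0))
      (F.U (w + β • ev b) (pt b 0) - F.U (w + β • ev b) o) ≤ Real.exp (2 * K + e) := by
    have h1 := nm_le (F.f (w + β • ev b) (pt b 0)) (F.f w (pt b 0))
      (F.U (w + β • ev b) (pt b 0) - F.U (w + β • ev b) o)
    have h2 : Real.exp (rho (F.f (w + β • ev b) (pt b 0)) (F.f w (pt b 0))) ≤ Real.exp e := by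
      rw [rho_comm]
      exact Real.exp_le_exp.2 hcl0
    have h3 := mul_le_mul h2 hU1 (nm_nonneg _ _) (Real.exp_pos _).le
    rw [← Real.exp_add] at h3
    exact (h1.trans h3).trans (Real.exp_le_exp.2 (by linarith))
  have hXX : ∀ z, nm z ((F.U w o - F.U (w + β • ev b) o) -
      (F.U w (pt b 0) - F.U (w + β • ev b) (pt b 0))) ≤
      Real.exp (rho (F.f w (pt b 0)) z + 2 * K + e + 1) := by
    intro z
    have h1 : nm (F.f w (pt b 0)) ((F.U w o - F.U (w + β • ev b) o) -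
      (F.U w (pt b 0) - F.U (w + β • ev b) (pt b 0))) ≤ Real.exp (2 * K + e + 1) := by
      have h2 : (F.U w o - F.U (w + β • ev b) o) -
        (F.U w (pt b 0) - F.U (w + β • ev b) (pt b 0)) =
        (F.U (w + β • ev b) (pt b 0) - F.U (w + β • ev b) o) - (F.U w (pt b 0) - F.U w o) := by
        abel
      rw [h2]
      have h3 := nm_sub_le (F.f w (pt b 0)) (F.U (w + β • ev b) (pt b 0) - F.U (w + β • ev b) o)
        (F.U w (pt b 0) - F.U w o)
      have h4 : Real.exp (2 * K) ≤ Real.exp (2 * K + e) := Real.exp_le_exp.2 (by linarith)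
      have h5 := FGrow_two_exp (2 * K + e)
      linarith
    have h2 := nm_le (F.f w (pt b 0)) z ((F.U w o - F.U (w + β • ev b) o) -
      (F.U w (pt b 0) - F.U (w + β • ev b) (pt b 0)))
    have h3 := mul_le_mul_of_nonneg_left h1 (Real.exp_pos (rho (F.f w (pt b 0)) z)).le
    rw [← Real.exp_add] at h3
    exact (h2.trans h3).trans (Real.exp_le_exp.2 (by linarith))
  constructor
  · intro z hz
    have h1 := gp_change_base (F.f w (pt b n)) z (F.f w (pt b 0)) (F.f w o)
    have h2 := hlow z (by linarith)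
    set g := gp (F.f w (pt b n)) z (F.f w o) with hgdef
    set E : ℝ := n + rho (F.f w (pt b 0)) z - 2 * g - 4 * K - C0 * (2 * e) with hE
    have h3 : Real.exp E ≤ nm z (F.U w (pt b 0) - F.U (w + β • ev b) (pt b 0)) :=
      (Real.exp_le_exp.2 (by rw [hE]; linarith)).trans h2
    have h4 : nm z ((F.U w o - F.U (w + β • ev b) o) -
      (F.U w (pt b 0) - F.U (w + β • ev b) (pt b 0))) ≤ Real.exp (E - 1) :=
      (hXX z).trans (Real.exp_le_exp.2 (by rw [hE]; linarith))
    have h5 := FGrow_two_exp (E - 1)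
    rw [sub_add_cancel] at h5
    have h6 : nm z (F.U w (pt b 0) - F.U (w + β • ev b) (pt b 0)) ≤
      nm z (F.U w o - F.U (w + β • ev b) o) +
      nm z ((F.U w o - F.U (w + β • ev b) o) -
        (F.U w (pt b 0) - F.U (w + β • ev b) (pt b 0))) := by
      have h7 := nm_sub_le z (F.U w o - F.U (w + β • ev b) o)
        ((F.U w o - F.U (w + β • ev b) o) - (F.U w (pt b 0) - F.U (w + β • ev b) (pt b 0)))
      rwa [sub_sub_cancel] at h7
    have h7 : Real.exp (E - 1) ≤ nm z (F.U w o - F.U (w + β • ev b) o) := by linarith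
    have h8 := rho_triangle (F.f w o) (F.f w (pt b 0)) z
    rw [rho_comm (F.f w o) (F.f w (pt b 0))] at h8
    exact (Real.exp_le_exp.2 (by rw [hE]; linarith)).trans h7
  · intro z M hM
    have h1 := hup z M (fun k _ => hM (n - k) (Nat.sub_le n k))
    have h2 := hXX z
    have h3 := hM 0 (Nat.zero_le n)
    rw [Nat.cast_zero, rho_comm] at h3
    have h4 : nm z (F.U w o - F.U (w + β • ev b) o) ≤
      nm z ((F.U w o - F.U (w + β • ev b) o) -
        (F.U w (pt b 0) - F.U (w + β • ev b) (pt b 0))) +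
      nm z (F.U w (pt b 0) - F.U (w + β • ev b) (pt b 0)) := by
      have h7 := nm_add_le z ((F.U w o - F.U (w + β • ev b) o) -
        (F.U w (pt b 0) - F.U (w + β • ev b) (pt b 0)))
        (F.U w (pt b 0) - F.U (w + β • ev b) (pt b 0))
      rwa [sub_add_cancel] at h7
    have h5 : Real.exp (rho (F.f w (pt b 0)) z + 2 * K + e + 1) ≤
      Real.exp (M + C0 * (2 * e) + 2 * K + e + 1) := Real.exp_le_exp.2 (by linarith)
    have h6 : Real.exp (M + C0 * (2 * e)) ≤
      Real.exp (M + C0 * (2 * e) + 2 * K + e + 1) := Real.exp_le_exp.2 (by linarith)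
    have h7 := FGrow_two_exp (M + C0 * (2 * e) + 2 * K + e + 1)
    have h8 : Real.exp (M + C0 * (2 * e) + 2 * K + e + 1 + 1) ≤
      Real.exp (M + (4 * C0 + 20) * e) := Real.exp_le_exp.2 (by linarith)
    linarith

end Pool.Agent.FIB
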