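import Pool.Agent.FIB.FDefs

/-!
# Choice of two directions

Put `N = nm o v` (`N ^ 2 = v.1 ^ 2 + v.2 ^ 2`), `R = log N ≥ 6`.
(1) There is `c` with `N / 16 ≤ |v.1 - v.2 * x|` for all `x ∈ Icc (-2) 2` outside `Ioo (c - 1/4) (c + 1/4)`: if `N / 4 ≤ |v.2|` take
`c = v.1 / v.2`; if `|v.2| < N / 4` then `|v.1| ≥ (3/4) N` and `|v.1 - v.2 * x| ≥ N / 4` for all `x ∈ Icc (-2) 2`.
(2) `volume (Icc (-2) 2) = 4`, so there is `b ∈ Icc (-2) 2` outside `B` and `Ioo (c - 1/4) (c + 1/4)` (measure `≤ 1 + 1/2`), and then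
`b' ∈ Icc (-2) 2` outside `B' b`, `Ioo (c - 1/4) (c + 1/4)` and `Ioo (b - 1/4) (b + 1/4)` (measure `≤ 2`).
(3) `γ = (v.1 - v.2 * b') / (b - b')`, `γ' = (v.1 - v.2 * b) / (b - b')` satisfy `γ - γ' = v.2`, `γ * b - γ' * b' = v.1`. As
`1/4 ≤ |b - b'| ≤ 4` and `N / 16 ≤ |v.1 - v.2 * x| ≤ 3 * N`: `N / 64 ≤ |γ| ≤ 12 * N`, same for `γ'`. `n = ⌈log |γ|⌉₊`, `n' = ⌈log |γ'|⌉₊`;
`log 64 ≤ 4.2`, `log 12 ≤ 3` (or compare with powers of `exp 1 > 2.718`), so `1 ≤ log |γ|`, `n - 1 < log |γ| ≤ n`, `|n - R| ≤ 5`.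
-/

set_option autoImplicit false

namespace Pool.Agent.FIB

open UpperHalfPlane MeasureTheory Set

private theorem FPick_n {N g : ℝ} (hN : Real.exp 6 ≤ N) (h1 : N / 64 ≤ g) (h2 : g ≤ 12 * N) :
    ∃ n : ℕ, Real.exp ((n : ℝ) - 1) ≤ g ∧ g ≤ Real.exp n ∧ |(n : ℝ) - Real.log N| ≤ 5 := by
  have hN0 : 0 < N := lt_of_lt_of_le (Real.exp_pos 6) hN
  have hg : 0 < g := lt_of_lt_of_le (by positivity) h1
  have he : (2.7 : ℝ) ≤ Real.exp 1 := by
    have := Real.exp_one_gt_d9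
    linarith
  have h5 : (64 : ℝ) ≤ Real.exp 5 := by
    have h : Real.exp 5 = (Real.exp 1) ^ 5 := by
      rw [← Real.exp_nat_mul]
      norm_num
    rw [h]
    calc (64 : ℝ) ≤ 2.7 ^ 5 := by norm_num
      _ ≤ (Real.exp 1) ^ 5 := pow_le_pow_left₀ (by norm_num) he 5
  have h3 : (12 : ℝ) ≤ Real.exp 3 := by
    have h : Real.exp 3 = (Real.exp 1) ^ 3 := by
      rw [← Real.exp_nat_mul]
      norm_num
    rw [h]
    calc (12 : ℝ) ≤ 2.7 ^ 3 := by norm_num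
      _ ≤ (Real.exp 1) ^ 3 := pow_le_pow_left₀ (by norm_num) he 3
  have hR : 6 ≤ Real.log N := (Real.le_log_iff_exp_le hN0).2 hN
  have hl : Real.log N - 5 ≤ Real.log g := by
    have h4 : Real.log (N / 64) ≤ Real.log g := Real.log_le_log (by positivity) h1
    rw [Real.log_div hN0.ne' (by norm_num)] at h4
    have h6 : Real.log 64 ≤ 5 := (Real.log_le_iff_le_exp (by norm_num)).2 h5
    linarith
  have hu : Real.log g ≤ Real.log N + 3 := by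
    have h4 : Real.log g ≤ Real.log (12 * N) := Real.log_le_log hg h2
    rw [Real.log_mul (by norm_num) hN0.ne'] at h4
    have h6 : Real.log 12 ≤ 3 := (Real.log_le_iff_le_exp (by norm_num)).2 h3
    linarith
  have hc1 := Nat.le_ceil (Real.log g)
  have hc2 := Nat.ceil_lt_add_one (by linarith : 0 ≤ Real.log g)
  refine ⟨⌈Real.log g⌉₊, ?_, ?_, ?_⟩
  · rw [← Real.le_log_iff_exp_le hg]
    linarith
  · rw [← Real.log_le_iff_le_exp hg]
    exact hc1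
  · rw [abs_le]
    constructor <;> linarith

private theorem FPick_ex {A C : Set ℝ} (hA : volume (Icc (-2) 2 ∩ A) ≤ ENNReal.ofReal 1)
    (hC : volume C ≤ ENNReal.ofReal 1) : ∃ b ∈ Icc (-2 : ℝ) 2, b ∉ A ∧ b ∉ C := by
  by_contra hcon
  push Not at hcon
  have h1 : Icc (-2 : ℝ) 2 ⊆ (Icc (-2) 2 ∩ A) ∪ C := by
    intro x hx
    by_cases h : x ∈ A
    · exact Or.inl ⟨hx, h⟩
    · exact Or.inr (hcon x hx h)
  have h2 := (measure_mono h1).trans (measure_union_le (μ := (volume : Measure ℝ)) _ _)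
  have h3 := h2.trans (add_le_add hA hC)
  rw [Real.volume_Icc, ← ENNReal.ofReal_add (by norm_num) (by norm_num),
    ENNReal.ofReal_le_ofReal_iff (by norm_num)] at h3
  norm_num at h3

private theorem FPick_c (v : V) (hv : 0 < nm o v) : ∃ c : ℝ, ∀ x ∈ Icc (-2 : ℝ) 2,
    x ∉ Ioo (c - 1 / 4) (c + 1 / 4) → nm o v / 16 ≤ |v.1 - v.2 * x| := by
  have h1 := nm_o_le v
  by_cases h : nm o v / 4 ≤ |v.2|
  · have hv2 : v.2 ≠ 0 := by
      intro h0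
      rw [h0, abs_zero] at h
      linarith
    refine ⟨v.1 / v.2, fun x _ hx2 => ?_⟩
    have h2 : 1 / 4 ≤ |v.1 / v.2 - x| := by
      by_contra hlt
      push Not at hlt
      apply hx2
      rw [abs_lt] at hlt
      constructor <;> linarith [hlt.1, hlt.2]
    have h3 : v.1 - v.2 * x = v.2 * (v.1 / v.2 - x) := by
      field_simp
    rw [h3, abs_mul]
    calc nm o v / 16 = nm o v / 4 * (1 / 4) := by ring
      _ ≤ |v.2| * |v.1 / v.2 - x| := mul_le_mul h h2 (by norm_num) (abs_nonneg _)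
  · push Not at h
    refine ⟨0, fun x hx _ => ?_⟩
    have h2 : |v.2 * x| ≤ |v.2| * 2 := by
      rw [abs_mul]
      exact mul_le_mul_of_nonneg_left (abs_le.2 ⟨by linarith [hx.1], hx.2⟩) (abs_nonneg _)
    have h3 := abs_sub_abs_le_abs_sub v.1 (v.2 * x)
    linarith

private theorem FPick_g (v : V) {b b' x : ℝ} (hv : 0 < nm o v) (hx : x ∈ Icc (-2 : ℝ) 2)
    (h1 : nm o v / 16 ≤ |v.1 - v.2 * x|) (hb : 1 / 4 ≤ |b - b'|) (hb' : |b - b'| ≤ 4) :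
    nm o v / 64 ≤ |(v.1 - v.2 * x) / (b - b')| ∧ |(v.1 - v.2 * x) / (b - b')| ≤ 12 * nm o v := by
  have h2 := abs_fst_le_nm_o v
  have h3 := abs_snd_le_nm_o v
  have h4 : |v.2 * x| ≤ |v.2| * 2 := by
    rw [abs_mul]
    exact mul_le_mul_of_nonneg_left (abs_le.2 ⟨by linarith [hx.1], hx.2⟩) (abs_nonneg _)
  have h5 := abs_sub v.1 (v.2 * x)
  have h6 : 0 < |b - b'| := by linarith
  rw [abs_div]
  constructor
  · rw [le_div_iff₀ h6]
    nlinarith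
  · rw [div_le_iff₀ h6]
    nlinarith

theorem f_pick (v : V) (hv : Real.exp 6 ≤ nm o v) (B : Set ℝ) (B' : ℝ → Set ℝ)
    (hB : volume (Icc (-2) 2 ∩ B) ≤ ENNReal.ofReal 1)
    (hB' : ∀ b, volume (Icc (-2) 2 ∩ B' b) ≤ ENNReal.ofReal 1) :
    ∃ (b b' γ γ' : ℝ) (n n' : ℕ), b ∈ Icc (-2 : ℝ) 2 ∧ b ∉ B ∧ b' ∈ Icc (-2 : ℝ) 2 ∧ b' ∉ B' b ∧
      γ • ev b = v + γ' • ev b' ∧
      Real.exp (n - 1) ≤ |γ| ∧ |γ| ≤ Real.exp n ∧ Real.exp (n' - 1) ≤ |γ'| ∧ |γ'| ≤ Real.exp n' ∧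
      |(n : ℝ) - Real.log (nm o v)| ≤ 5 ∧ |(n' : ℝ) - Real.log (nm o v)| ≤ 5 := by
  have hN0 : 0 < nm o v := lt_of_lt_of_le (Real.exp_pos 6) hv
  obtain ⟨c, hc⟩ := FPick_c v hN0
  have hCv : volume (Ioo (c - 1 / 4) (c + 1 / 4)) ≤ ENNReal.ofReal (1 / 2) := by
    rw [Real.volume_Ioo]
    exact ENNReal.ofReal_le_ofReal (by linarith)
  obtain ⟨b, hb, hbB, hbc⟩ := FPick_ex hB
    (hCv.trans (ENNReal.ofReal_le_ofReal (by norm_num)))
  have hC2 : volume (Ioo (c - 1 / 4) (c + 1 / 4) ∪ Ioo (b - 1 / 4) (b + 1 / 4)) ≤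
      ENNReal.ofReal 1 := by
    refine (measure_union_le _ _).trans ?_
    rw [Real.volume_Ioo, Real.volume_Ioo, ← ENNReal.ofReal_add (by linarith) (by linarith)]
    exact ENNReal.ofReal_le_ofReal (by linarith)
  obtain ⟨b', hb', hbB', hbc'⟩ := FPick_ex (hB' b) hC2
  rw [Set.mem_union, not_or] at hbc'
  have hbb1 : 1 / 4 ≤ |b - b'| := by
    by_contra hlt
    push Not at hlt
    apply hbc'.2
    rw [abs_lt] at hlt
    constructor <;> linarith [hlt.1, hlt.2]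
  have hbb2 : |b - b'| ≤ 4 := by
    rw [abs_le]
    constructor <;> linarith [hb.1, hb.2, hb'.1, hb'.2]
  have hne : b - b' ≠ 0 := by
    intro h0
    rw [h0, abs_zero] at hbb1
    linarith
  obtain ⟨g1, g2⟩ := FPick_g v hN0 hb' (hc b' hb' hbc'.1) hbb1 hbb2
  obtain ⟨g1', g2'⟩ := FPick_g v hN0 hb (hc b hb hbc) hbb1 hbb2
  obtain ⟨n, n1, n2, n3⟩ := FPick_n hv g1 g2
  obtain ⟨n', n1', n2', n3'⟩ := FPick_n hv g1' g2'
  refine ⟨b, b', (v.1 - v.2 * b') / (b - b'), (v.1 - v.2 * b) / (b - b'), n, n', hb, hbB, hb', hbB',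
    ?_, n1, n2, n1', n2', n3, n3'⟩
  unfold ev
  ext
  · change (v.1 - v.2 * b') / (b - b') * b = v.1 + (v.1 - v.2 * b) / (b - b') * b'
    field_simp
    ring
  · change (v.1 - v.2 * b') / (b - b') * 1 = v.2 + (v.1 - v.2 * b) / (b - b') * 1
    field_simp
    ring

end Pool.Agent.FIB
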