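import Pool.Agent.FIB.FLowDet
import Pool.Agent.FIB.FPick

/-!
# (F3) the lower bound: `StS K → FTy K → FLB K`

Reduction to `w = 0`, `x = o`: it is enough to find for every `ε > 0` a `C > 0` with
`(1 - ε) * log (1 + nm o v) - C ≤ log (1 + nm (F.f 0 o) (F.U 0 o - F.U v o))` for all `F`, `v`. Indeed `x = pt b j` (`pt_re_im`), `g = fr b j`, `g • o = x`
(`fr_smul`, `o = pt 0 0`); apply it to `F.tr w g` and `v = act g⁻¹ (w' - w)`; `act g 0 = 0`, `act g v = w' - w` (`act_mul`, `act_one`),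
`nm o v = nm x (w' - w)` (`nm_act`, `nm_sub_comm`).
Proof. `ε0 = min ε 1`, `CD` from `f_lowdet K`, `δ = ε0 / (8 * CD)` (`≤ 1/8`), `CT` from `FTy` and `CS` from `StS` for `δ`, `C3 = δ + |log (δ / 4)|`:
`log (4 * x + 4) ≤ δ * x + C3` for `x ≥ 0` (`log y ≤ a y - 1 - log a`, `a = δ / 4`). `C2 = CT + CS + C3 + 22 * K + 20`, `R2 = 2 * (CD * C2 + 10)`,
`C = R2 + CD * C2 + 20`. If `nm o v < exp R2` the left side is `≤ log (1 + exp R2) - C ≤ 0 ≤` the right side. Let `R = log (nm o v) ≥ R2`, `R1 = R + 5`,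
`e = 2 * δ * R1 + C2`. `f_pick` with `B = {b | ¬ UnitP F 0 b 0 R1 (δ * R1 + CT)}`, `B' b = {b' | ¬ UnitP (F.tr v 1) 0 b' 0 R1 (δ * R1 + CT)} ∪
{b' | δ * R1 + CT < gp (F.f 0 (pt b R1)) (F.f 0 (pt b' R1)) (F.f 0 o)}` (measures `≤ δ`, `≤ 2 δ` by `FTy`). So `n, n' ∈ [R1 - 10, R1]`. Hypotheses of `f_lowdet`:
* `log (4 n + 4) ≤ δ R1 + C3 ≤ e`; `CD * e ≤ R1 / 4 + CD * C2 ≤ R1 - 10 ≤ n`; `|n - n'| ≤ 10 ≤ e`; `exp (n - e) ≤ exp (n - 1)`;
* `UnitP F 0 b 0 n e`, `UnitP F v b' 0 n' e`: shorter segment, larger error (`(F.tr v 1).f 0 x = F.f v x`: `act_one`, `one_smul`);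
* `StS` with `nm (pt b k) (γ • ev b) = |γ| * exp (-k) ≤ exp R1` (`nm_pt_ev`; `v - γ • ev b = -(γ' • ev b')`): `≤ δ * (R1 + 1) + CS ≤ e`;
* `rho (F.f 0 o) (F.f v o) ≤ δ * (R + 1) + CS ≤ e`;
* `nm (pt b' n') v ≤ exp (n' + 1) * exp R ≤ exp (2 * R1 - 4)` (`nm_le`, `rho_pt_b`, `rho_pt`), so `rho (F.f 0 (pt b' n')) (F.f v (pt b' n')) ≤ 2 * δ * R1 + CS`;
* `rho (F.f 0 (pt b n)) (F.f 0 (pt b R1)) ≤ 10 K + K` (`F.f_vert`), same for `b', n'`; `gp_change`, `gp_comm`: the product is `≤ δ R1 + CT + 22 K`.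
Conclusion: `log (1 + nm ..) ≥ n - CD * e ≥ R1 - 10 - (ε0 / 4) * R1 - CD * C2 ≥ (1 - ε0) * R1 - C`, and
`(1 - ε) * log (1 + nm o v) ≤ (1 - ε0) * (R + 1) ≤ (1 - ε0) * R1`.
-/

set_option autoImplicit false

namespace Pool.Agent.FIB

open UpperHalfPlane MeasureTheory Set

private lemma FLow_log {δ : ℝ} (hδ : 0 < δ) {x : ℝ} (hx : 0 ≤ x) :
    Real.log (4 * x + 4) ≤ δ * x + (δ + |Real.log (δ / 4)|) := by
  have h1 : 0 < δ / 4 * (4 * x + 4) := by positivity
  have h2 := Real.log_le_sub_one_of_pos h1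
  rw [Real.log_mul (by positivity) (by positivity)] at h2
  have h3 := neg_abs_le (Real.log (δ / 4))
  have h4 : δ / 4 * (4 * x + 4) = δ * x + δ := by ring
  linarith

private lemma FLow_log1 {y : ℝ} (hy : 0 ≤ y) : Real.log (1 + Real.exp y) ≤ y + 1 := by
  have h1 : 1 + Real.exp y ≤ Real.exp (y + 1) := by
    rw [Real.exp_add]
    have h2 : (1 : ℝ) ≤ Real.exp y := Real.one_le_exp hy
    have h3 : (2 : ℝ) ≤ Real.exp 1 := by
      have := Real.add_one_le_exp (1 : ℝ)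
      linarith
    nlinarith
  have h4 := Real.log_le_log (by positivity) h1
  rwa [Real.log_exp] at h4

private lemma FLow_log2 {y z : ℝ} (hz : 0 ≤ z) (hy : 0 ≤ y) (h : z ≤ Real.exp y) :
    Real.log (1 + z) ≤ y + 1 :=
  (Real.log_le_log (by linarith) (by linarith)).trans (FLow_log1 hy)

private lemma FLow_act_zero (g : Matrix.SpecialLinearGroup (Fin 2) ℝ) : act g 0 = 0 := by
  unfold act
  ext <;> simp

private lemma FLow_tr1 {K : ℝ} (F : QM K) (v : V) (x : ℍ) : (F.tr v 1).f 0 x = F.f v x := by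
  rw [QM.tr_f, act_one, one_smul, add_zero]

private lemma FLow_gp {K : ℝ} (F : QM K) (b b' m m' r : ℝ) (hK : 0 ≤ K) (h : |m - r| ≤ 10)
    (h' : |m' - r| ≤ 10) :
    gp (F.f 0 (pt b m)) (F.f 0 (pt b' m')) (F.f 0 o) ≤
      gp (F.f 0 (pt b r)) (F.f 0 (pt b' r)) (F.f 0 o) + 22 * K := by
  have h1 := gp_change (F.f 0 (pt b m)) (F.f 0 (pt b r)) (F.f 0 (pt b' m')) (F.f 0 o)
  have h2 := gp_change (F.f 0 (pt b' m')) (F.f 0 (pt b' r)) (F.f 0 (pt b r)) (F.f 0 o)
  rw [gp_comm (F.f 0 (pt b' m')), gp_comm (F.f 0 (pt b' r))] at h2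
  have h3 := F.f_vert 0 b m r
  have h4 := F.f_vert 0 b' m' r
  have h5 := mul_le_mul_of_nonneg_left h hK
  have h6 := mul_le_mul_of_nonneg_left h' hK
  linarith

private lemma FLow_unit {K : ℝ} (F G : QM K) (w w' : V) (b s s' e e' : ℝ)
    (hf : ∀ x, G.f w' x = F.f w x) (h : UnitP G w' b 0 s e) (hs : s' ≤ s) (he : e ≤ e') :
    UnitP F w b 0 s' e' := by
  intro i i' hi hi'
  have := h i i' (hi.trans hs) (hi'.trans hs)
  rw [hf, hf] at this
  exact this.trans he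

private lemma FLow_far {b' n' : ℝ} (hb : |b'| ≤ 2) (hn : 0 ≤ n') (v : V) :
    nm (pt b' n') v ≤ Real.exp (n' + 1) * nm o v := by
  have h1 := nm_le o (pt b' n') v
  have h2 : rho o (pt b' n') ≤ n' + 1 := by
    have h3 := rho_triangle (pt 0 0) (pt b' 0) (pt b' n')
    have h4 := rho_pt_b 0 b' 0
    have h5 := rho_pt b' 0 n'
    rw [h5] at h3
    rw [mul_zero, Real.exp_zero, mul_one, zero_sub, abs_neg] at h4
    rw [zero_sub, abs_neg, abs_of_nonneg hn] at h3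
    unfold o
    linarith
  exact h1.trans (mul_le_mul_of_nonneg_right (Real.exp_le_exp.2 h2) (nm_nonneg _ _))

private lemma FLow_base (K : ℝ) (hK : 1 ≤ K) (hS : StS K) (hT : FTy K) (ε : ℝ) (hε : 0 < ε) :
    ∃ C : ℝ, 0 < C ∧ ∀ (F : QM K) (v : V),
      (1 - ε) * Real.log (1 + nm o v) - C ≤
        Real.log (1 + nm (F.f 0 o) (F.U 0 o - F.U v o)) := by
  obtain ⟨CD, hCD, hD⟩ := f_lowdet K hK
  have hCD0 : 0 < CD := by linarith
  obtain ⟨ε0, hε0⟩ : ∃ ε0, ε0 = min ε 1 := ⟨_, rfl⟩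
  have hε1 : 0 < ε0 := by rw [hε0]; exact lt_min hε one_pos
  have hε2 : ε0 ≤ ε := by rw [hε0]; exact min_le_left _ _
  have hε3 : ε0 ≤ 1 := by rw [hε0]; exact min_le_right _ _
  obtain ⟨δ, hδ⟩ : ∃ δ, δ = ε0 / (8 * CD) := ⟨_, rfl⟩
  have hδ0 : 0 < δ := by rw [hδ]; positivity
  have hδC : CD * δ = ε0 / 8 := by
    rw [hδ]
    field_simp
  have hδ8 : δ ≤ 1 / 8 := by
    have h1 : 1 * δ ≤ CD * δ := mul_le_mul_of_nonneg_right hCD hδ0.le
    linarith
  obtain ⟨CT, hCT, hT'⟩ := hT δ hδ0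
  obtain ⟨CS, hCS, hS'⟩ := hS δ hδ0
  obtain ⟨C3, hC3⟩ : ∃ C3, C3 = δ + |Real.log (δ / 4)| := ⟨_, rfl⟩
  have hC3' : ∀ x : ℝ, 0 ≤ x → Real.log (4 * x + 4) ≤ δ * x + C3 := by
    intro x hx
    rw [hC3]
    exact FLow_log hδ0 hx
  have hC30 : 0 < C3 := by
    rw [hC3]
    have := abs_nonneg (Real.log (δ / 4))
    linarith
  clear hC3 hδ hε0
  obtain ⟨C2, hC2⟩ : ∃ C2, C2 = CT + CS + C3 + 22 * K + 20 := ⟨_, rfl⟩
  have hC20 : 42 ≤ C2 := by rw [hC2]; linarith
  have hCC : 42 ≤ CD * C2 := by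
    have h1 : 1 * C2 ≤ CD * C2 := mul_le_mul_of_nonneg_right hCD (by linarith)
    linarith
  obtain ⟨R2, hR2⟩ : ∃ R2, R2 = 2 * (CD * C2 + 10) := ⟨_, rfl⟩
  refine ⟨R2 + CD * C2 + 20, by rw [hR2]; linarith, ?_⟩
  intro F v
  have hN0 := nm_nonneg o v
  have hL0 : 0 ≤ Real.log (1 + nm o v) := Real.log_nonneg (by linarith)
  have hM0 := nm_nonneg (F.f 0 o) (F.U 0 o - F.U v o)
  have hRHS : 0 ≤ Real.log (1 + nm (F.f 0 o) (F.U 0 o - F.U v o)) :=
    Real.log_nonneg (by linarith)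
  rcases lt_or_ge (nm o v) (Real.exp R2) with hN | hN
  · have h1 := FLow_log2 hN0 (by linarith : (0 : ℝ) ≤ R2) hN.le
    have h2 : (1 - ε) * Real.log (1 + nm o v) ≤ Real.log (1 + nm o v) := by
      have : 0 ≤ ε * Real.log (1 + nm o v) := mul_nonneg hε.le hL0
      linarith
    linarith
  · have hNpos : 0 < nm o v := lt_of_lt_of_le (Real.exp_pos _) hN
    obtain ⟨R, hR⟩ : ∃ R, R = Real.log (nm o v) := ⟨_, rfl⟩
    have hRN : Real.exp R = nm o v := by rw [hR, Real.exp_log hNpos]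
    have hRR : R2 ≤ R := by
      rw [hR]
      exact (Real.le_log_iff_exp_le hNpos).2 hN
    obtain ⟨R1, hR1⟩ : ∃ R1, R1 = R + 5 := ⟨_, rfl⟩
    obtain ⟨e, he⟩ : ∃ e, e = 2 * δ * R1 + C2 := ⟨_, rfl⟩
    have hR1p : 2 * (CD * C2 + 10) ≤ R1 := by linarith
    have hR1pos : 0 < R1 := by linarith
    have hδR : 0 < δ * R1 := mul_pos hδ0 hR1pos
    have heC : C2 ≤ e := by rw [he]; linarith
    have heT : δ * R1 + CT ≤ e := by rw [he, hC2]; linarith
    have hCe : CD * e = ε0 / 4 * R1 + CD * C2 := by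
      rw [he, mul_add]
      have : CD * (2 * δ * R1) = 2 * (CD * δ) * R1 := by ring
      rw [this, hδC]
      ring
    have hCe2 : CD * e ≤ R1 - 10 := by
      rw [hCe]
      have : ε0 / 4 * R1 ≤ 1 / 4 * R1 := mul_le_mul_of_nonneg_right (by linarith) hR1pos.le
      linarith
    -- the two bad sets
    have hB : volume (Icc (-2 : ℝ) 2 ∩ {b | ¬ UnitP F 0 b 0 R1 (δ * R1 + CT)}) ≤
        ENNReal.ofReal 1 := by
      have h1 := (hT' F R1 hR1pos.le).1
      exact h1.trans (ENNReal.ofReal_le_ofReal (by linarith))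
    have hB' : ∀ b : ℝ, volume (Icc (-2 : ℝ) 2 ∩
        ({b' | ¬ UnitP (F.tr v 1) 0 b' 0 R1 (δ * R1 + CT)} ∪
          {b' | δ * R1 + CT < gp (F.f 0 (pt b R1)) (F.f 0 (pt b' R1)) (F.f 0 o)})) ≤
        ENNReal.ofReal 1 := by
      intro b
      have h1 := (hT' (F.tr v 1) R1 hR1pos.le).1
      have h2 := (hT' F R1 hR1pos.le).2 (F.f 0 (pt b R1))
      rw [inter_union_distrib_left]
      refine (measure_union_le _ _).trans ((add_le_add h1 h2).trans ?_)
      rw [← ENNReal.ofReal_add hδ0.le hδ0.le]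
      exact ENNReal.ofReal_le_ofReal (by linarith)
    have hv6 : Real.exp 6 ≤ nm o v := by
      rw [← hRN]
      exact Real.exp_le_exp.2 (by linarith)
    obtain ⟨b, b', γ, γ', n, n', hb, hbB, hb', hbB', hγ, hn1, hn2, hn1', hn2', hn3, hn3'⟩ :=
      f_pick v hv6 {b | ¬ UnitP F 0 b 0 R1 (δ * R1 + CT)}
        (fun b => {b' | ¬ UnitP (F.tr v 1) 0 b' 0 R1 (δ * R1 + CT)} ∪
          {b' | δ * R1 + CT < gp (F.f 0 (pt b R1)) (F.f 0 (pt b' R1)) (F.f 0 o)}) hB hB'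
    have hU : UnitP F 0 b 0 R1 (δ * R1 + CT) := by
      by_contra h
      exact hbB h
    have hU' : UnitP (F.tr v 1) 0 b' 0 R1 (δ * R1 + CT) := by
      by_contra h
      exact hbB' (Or.inl h)
    have hG : gp (F.f 0 (pt b R1)) (F.f 0 (pt b' R1)) (F.f 0 o) ≤ δ * R1 + CT := by
      by_contra h
      exact hbB' (Or.inr (not_le.1 h))
    rw [← hR] at hn3 hn3'
    have hn4 := abs_le.1 hn3
    have hn4' := abs_le.1 hn3'
    have hnn : |(n : ℝ) - n'| ≤ 10 := by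
      rw [abs_le]
      constructor <;> linarith [hn4.1, hn4.2, hn4'.1, hn4'.2]
    have hn0 : (0 : ℝ) ≤ n := Nat.cast_nonneg n
    have hn0' : (0 : ℝ) ≤ n' := Nat.cast_nonneg n'
    have hbb : |b| ≤ 2 := abs_le.2 hb
    have hbb' : |b'| ≤ 2 := abs_le.2 hb'
    have hK0 : (0 : ℝ) ≤ K := by linarith
    have hexp : ∀ k : ℕ, Real.exp (-(k : ℝ)) ≤ 1 := fun k =>
      Real.exp_le_one_iff.2 (neg_nonpos.2 (Nat.cast_nonneg k))
    have hSR : ∀ (w w' : V) (x : ℍ), nm x (w - w') ≤ Real.exp R1 →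
        rho (F.f w x) (F.f w' x) ≤ e := by
      intro w w' x hx
      have h1 := hS' F w w' x
      have h2 := FLow_log2 (nm_nonneg x (w - w')) hR1pos.le hx
      have h3 := mul_le_mul_of_nonneg_left h2 hδ0.le
      have h4 : e = 2 * δ * R1 + (CT + CS + C3 + 22 * K + 20) := by rw [he, hC2]
      linarith
    have hmain := hD F v b b' γ γ' e n n' hbb hbb' (by linarith)
      (by
        have h1 := hC3' n hn0
        have h2 : δ * n ≤ δ * R1 := mul_le_mul_of_nonneg_left (by linarith [hn4.2]) hδ0.le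
        rw [he, hC2]
        linarith)
      (by
        have h1 := hC3' n' hn0'
        have h2 : δ * n' ≤ δ * R1 := mul_le_mul_of_nonneg_left (by linarith [hn4'.2]) hδ0.le
        rw [he, hC2]
        linarith)
      (by linarith [hn4.1]) (by linarith [hn4'.1]) (by linarith) hγ
      ((Real.exp_le_exp.2 (by linarith)).trans hn1) hn2
      ((Real.exp_le_exp.2 (by linarith)).trans hn1') hn2'
      (FLow_unit F F 0 0 b R1 n (δ * R1 + CT) e (fun _ => rfl) hU (by linarith [hn4.2]) heT)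
      (FLow_unit F (F.tr v 1) v 0 b' R1 n' (δ * R1 + CT) e (fun x => FLow_tr1 F v x) hU'
        (by linarith [hn4'.2]) heT)
      (by
        intro k _
        apply hSR
        rw [zero_sub, nm_neg, nm_pt_ev]
        calc |γ| * Real.exp (-(k : ℝ)) ≤ |γ| * 1 :=
              mul_le_mul_of_nonneg_left (hexp k) (abs_nonneg _)
          _ ≤ Real.exp R1 := by
              rw [mul_one]
              exact hn2.trans (Real.exp_le_exp.2 (by linarith [hn4.2])))
      (by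
        intro k _
        apply hSR
        have h1 : v - γ • ev b = -(γ' • ev b') := by
          rw [hγ]
          abel
        rw [h1, nm_neg, nm_pt_ev]
        calc |γ'| * Real.exp (-(k : ℝ)) ≤ |γ'| * 1 :=
              mul_le_mul_of_nonneg_left (hexp k) (abs_nonneg _)
          _ ≤ Real.exp R1 := by
              rw [mul_one]
              exact hn2'.trans (Real.exp_le_exp.2 (by linarith [hn4'.2])))
      (by
        apply hSR
        rw [zero_sub, nm_neg, ← hRN]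
        exact Real.exp_le_exp.2 (by linarith))
      (by
        have h1 := hS' F 0 v (pt b' n')
        have h2 : nm (pt b' n') (0 - v) ≤ Real.exp (2 * R1 - 4) := by
          rw [zero_sub, nm_neg]
          refine (FLow_far hbb' hn0' v).trans ?_
          rw [← hRN, ← Real.exp_add]
          exact Real.exp_le_exp.2 (by linarith [hn4'.2])
        have h3 := FLow_log2 (nm_nonneg _ _) (by linarith : (0 : ℝ) ≤ 2 * R1 - 4) h2
        have h4 := mul_le_mul_of_nonneg_left h3 hδ0.le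
        have h5 : e = 2 * δ * R1 + (CT + CS + C3 + 22 * K + 20) := by rw [he, hC2]
        linarith)
      (by
        have h1 := FLow_gp F b b' n n' R1 hK0
          (by rw [abs_le]; constructor <;> linarith [hn4.1, hn4.2])
          (by rw [abs_le]; constructor <;> linarith [hn4'.1, hn4'.2])
        have h5 : e = 2 * δ * R1 + (CT + CS + C3 + 22 * K + 20) := by rw [he, hC2]
        linarith)
    have hlow : (n : ℝ) - CD * e ≤ Real.log (1 + nm (F.f 0 o) (F.U 0 o - F.U v o)) := by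
      rw [Real.le_log_iff_exp_le (by linarith)]
      linarith
    have h1 : Real.log (1 + nm o v) ≤ R + 1 :=
      FLow_log2 hN0 (by linarith) hRN.ge
    have h2 : (1 - ε) * Real.log (1 + nm o v) ≤ (1 - ε0) * R1 := by
      have h3 : (1 - ε) * Real.log (1 + nm o v) ≤ (1 - ε0) * Real.log (1 + nm o v) :=
        mul_le_mul_of_nonneg_right (by linarith) hL0
      have h4 : (1 - ε0) * Real.log (1 + nm o v) ≤ (1 - ε0) * R1 :=
        mul_le_mul_of_nonneg_left (by linarith) (by linarith)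
      linarith
    have h3 : 0 ≤ ε0 * R1 := mul_nonneg hε1.le hR1pos.le
    have h4 : (1 - ε0) * R1 = R1 - ε0 * R1 := by ring
    have h5 : ε0 / 4 * R1 = (ε0 * R1) / 4 := by ring
    linarith [hn4.1]

theorem f_low (K : ℝ) (hK : 1 ≤ K) (hS : StS K) (hT : FTy K) : FLB K := by
  intro ε hε
  obtain ⟨C, hC, h⟩ := FLow_base K hK hS hT ε hε
  refine ⟨C, hC, ?_⟩
  intro F w w' x
  have hx := pt_re_im x
  have hgo : fr x.re (-(Real.log x.im) / 2) • o = x := by
    unfold o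
    rw [fr_smul, zero_mul, add_zero, add_zero, hx]
  generalize fr x.re (-(Real.log x.im) / 2) = g at hgo
  have hact : act g (act g⁻¹ (w' - w)) = w' - w := by
    rw [← act_mul, mul_inv_cancel, act_one]
  have h1 := h (F.tr w g) (act g⁻¹ (w' - w))
  rw [QM.tr_f, QM.tr_U, QM.tr_U, FLow_act_zero, add_zero, hact, hgo, add_sub_cancel] at h1
  have h2 : nm o (act g⁻¹ (w' - w)) = nm x (w - w') := by
    rw [← nm_act g o, hact, hgo, nm_sub_comm]
  rw [h2] at h1
  exact h1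

end Pool.Agent.FIB
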