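import Pool.Agent.FIB.FGrow

/-!
# Lower bound, deterministic part

Let `Cg` be the constant of `f_grow K`; here `C = 2 * Cg + 20`. Put `w2 = γ • ev b = v + γ' • ev b'`, `X = F.U 0 o - F.U w2 o`,
`X' = F.U v o - F.U w2 o`, so `F.U 0 o - F.U v o = X - X'`. Put `t = F.f 0 o`, `P = F.f 0 (pt b n)`, `P' = F.f 0 (pt b' n')`,
`κ = ⌈(Cg + 7) * e⌉₊` (`≤ (Cg + 8) * e ≤ n / 2`), `z = F.f 0 (pt b κ)`. `rho t (F.f 0 (pt b 0)) ≤ 2 K ≤ e` (`F.f_hor`).
* `UnitP F 0 b 0 n e`: `κ - 2 e ≤ rho t z ≤ κ + 2 e`, `rho t P ≥ n - 2 e`, `rho P z ≤ n - κ + e`, so `gp P z t ≥ κ - 5 e / 2 > e + 1 / 2`; `gp P P' t ≤ e` and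
  `gp_min P z P' t` give `gp z P' t ≤ e + 1 / 2`.
* upper bound of `f_grow` for `(w, b, β, n) = (0, b, γ, n)` (`zero_add`): for `k ≤ n`, `rho z (F.f 0 (pt b k)) ≤ |κ - k| + e ≤ n - κ + e`, so
  `nm z X ≤ exp (n - κ + (Cg + 1) * e)`.
* lower bound of `f_grow` for `(v, b', γ', n')`: `gp (F.f v (pt b' n')) z (F.f v o) ≤ gp P' z t + 2 e ≤ 4 e ≤ n' / 4 - e` (`gp_change`,
  `gp_change_base`, `gp_comm`), `rho (F.f v o) z ≥ rho t z - e ≥ κ - 3 e`: `nm z X' ≥ exp (n' + κ - (Cg + 11) * e)`.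
* `n' ≥ n - e`, so the difference of the exponents is `≥ 2 κ - (2 Cg + 13) * e ≥ 1`, so `nm z (X - X') ≥ nm z X' - nm z X ≥
  exp (n' + κ - (Cg + 11) * e - 1)`, and `nm z Y ≤ exp (rho t z) * nm t Y` (`nm_le t z`), so `nm t (X - X') ≥ exp (n' - (Cg + 13) * e - 1)`.
-/

set_option autoImplicit false

namespace Pool.Agent.FIB

open UpperHalfPlane MeasureTheory Set

theorem f_lowdet (K : ℝ) (hK : 1 ≤ K) : ∃ C : ℝ, 1 ≤ C ∧
    ∀ (F : QM K) (v : V) (b b' γ γ' e : ℝ) (n n' : ℕ), |b| ≤ 2 → |b'| ≤ 2 →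
      2 * K + 2 ≤ e → Real.log (4 * n + 4) ≤ e → Real.log (4 * n' + 4) ≤ e →
      C * e ≤ n → C * e ≤ n' → |(n : ℝ) - n'| ≤ e →
      γ • ev b = v + γ' • ev b' →
      Real.exp (n - e) ≤ |γ| → |γ| ≤ Real.exp n →
      Real.exp (n' - e) ≤ |γ'| → |γ'| ≤ Real.exp n' →
      UnitP F 0 b 0 n e → UnitP F v b' 0 n' e →
      (∀ k : ℕ, k ≤ n → rho (F.f 0 (pt b k)) (F.f (γ • ev b) (pt b k)) ≤ e) →
      (∀ k : ℕ, k ≤ n' → rho (F.f v (pt b' k)) (F.f (γ • ev b) (pt b' k)) ≤ e) →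
      rho (F.f 0 o) (F.f v o) ≤ e →
      rho (F.f 0 (pt b' n')) (F.f v (pt b' n')) ≤ e →
      gp (F.f 0 (pt b n)) (F.f 0 (pt b' n')) (F.f 0 o) ≤ e →
      Real.exp (n - C * e) ≤ nm (F.f 0 o) (F.U 0 o - F.U v o) := by
  obtain ⟨Cg, hCg, hG⟩ := f_grow K hK
  refine ⟨2 * Cg + 20, by linarith, ?_⟩
  intro F v b b' γ γ' e n n' hb hb' he hl hl' hn hn' hnn hw hγ1 hγ2 hγ1' hγ2' hU hU' hk hk'
    h1 h2 h3
  have he4 : 4 ≤ e := by linarith
  have hCe : Cg * e ≤ (2 * Cg + 20) * e := mul_le_mul_of_nonneg_right (by linarith) (by linarith)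
  obtain ⟨-, hA⟩ := hG F 0 b γ e n hb he hl (by linarith) hγ1 hγ2 hU (by
    intro k hk1
    rw [zero_add]
    exact hk k hk1)
  obtain ⟨hB, -⟩ := hG F v b' γ' e n' hb' he hl' (by linarith) hγ1' hγ2' hU' (by
    intro k hk1
    rw [← hw]
    exact hk' k hk1)
  rw [zero_add] at hA
  rw [← hw] at hB
  -- the point `z`
  obtain ⟨κ, hκ1, hκ2⟩ : ∃ κ : ℕ, (Cg + 7) * e ≤ κ ∧ (κ : ℝ) ≤ (Cg + 8) * e := by
    have h0 : 0 ≤ (Cg + 7) * e := by
      have : 0 ≤ Cg + 7 := by linarith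
      positivity
    refine ⟨⌈(Cg + 7) * e⌉₊, Nat.le_ceil _, ?_⟩
    have h4 := Nat.ceil_lt_add_one h0
    linarith
  have hκn : 2 * (κ : ℝ) ≤ n := by
    have : 2 * ((Cg + 8) * e) ≤ (2 * Cg + 20) * e := by nlinarith
    linarith
  have hκ0 : (0 : ℝ) ≤ κ := Nat.cast_nonneg κ
  have hn0 : (0 : ℝ) ≤ n := Nat.cast_nonneg n
  obtain ⟨t, ht⟩ : ∃ t, t = F.f 0 o := ⟨_, rfl⟩
  obtain ⟨P, hP⟩ : ∃ P, P = F.f 0 (pt b n) := ⟨_, rfl⟩
  obtain ⟨P', hP'⟩ : ∃ P', P' = F.f 0 (pt b' n') := ⟨_, rfl⟩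
  obtain ⟨z, hz⟩ : ∃ z, z = F.f 0 (pt b κ) := ⟨_, rfl⟩
  obtain ⟨t0, ht0⟩ : ∃ t0, t0 = F.f 0 (pt b 0) := ⟨_, rfl⟩
  rw [← ht] at h1 h3 ⊢
  rw [← hP'] at h2
  rw [← hP, ← hP'] at h3
  have htt0 : rho t t0 ≤ e := by
    have h4 := F.f_hor (by linarith : (0 : ℝ) ≤ K) 0 0 b 0
    have h5 : |0 - b| * Real.exp (2 * 0) / 2 ≤ 1 := by
      rw [zero_sub, abs_neg, mul_zero, Real.exp_zero]
      linarith
    have h6 := mul_le_mul_of_nonneg_left h5 (by linarith : (0 : ℝ) ≤ K)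
    rw [ht, ht0]
    show rho (F.f 0 (pt 0 0)) (F.f 0 (pt b 0)) ≤ e
    linarith
  -- unit speed
  have hUz : ∀ k : ℕ, k ≤ n → abs (rho z (F.f 0 (pt b k)) - |(κ : ℝ) - k|) ≤ e := by
    intro k hk1
    have h4 := hU κ k (by linarith) (by exact_mod_cast hk1)
    simp only [zero_add] at h4
    rw [hz]
    exact h4
  have hz0 : |rho z t0 - κ| ≤ e := by
    have h4 := hUz 0 (Nat.zero_le n)
    rw [Nat.cast_zero, sub_zero, abs_of_nonneg hκ0] at h4
    rw [ht0]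
    exact h4
  have hzP : |rho z P - (n - κ)| ≤ e := by
    have h4 := hUz n le_rfl
    rw [abs_of_nonpos (by linarith : (κ : ℝ) - n ≤ 0), neg_sub] at h4
    rw [hP]
    exact h4
  have ht0P : |rho t0 P - n| ≤ e := by
    have h4 := hU 0 n (by rw [Nat.cast_zero]; exact hn0) le_rfl
    simp only [zero_add, Nat.cast_zero, zero_sub, abs_neg, abs_of_nonneg hn0] at h4
    rw [hP, ht0]
    exact h4
  rw [abs_le] at hz0 hzP ht0P
  have htz1 : rho t z ≤ κ + 2 * e := by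
    have := rho_triangle t t0 z
    rw [rho_comm t0 z] at this
    linarith
  have htz2 : κ - 2 * e ≤ rho t z := by
    have := rho_triangle z t t0
    rw [rho_comm z t] at this
    linarith
  have htP : n - 2 * e ≤ rho t P := by
    have := rho_triangle t0 t P
    rw [rho_comm t0 t] at this
    linarith
  have hg1 : e + 1 / 2 < gp P z t := by
    have h4 : κ - 5 * e / 2 ≤ gp P z t := by
      unfold gp
      rw [rho_comm P z]
      linarith
    nlinarith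
  have hg2 : gp z P' t ≤ e + 1 / 2 := by
    rcases min_le_iff.1 (gp_min P z P' t) with h4 | h4
    · linarith
    · linarith
  -- upper bound
  have hXu := hA z (n - κ + e) (by
    intro k hk1
    have h4 := (abs_le.1 (hUz k hk1)).2
    have h5 : |(κ : ℝ) - k| ≤ n - κ := by
      have hk2 : (k : ℝ) ≤ n := by exact_mod_cast hk1
      have hk3 : (0 : ℝ) ≤ k := Nat.cast_nonneg k
      rw [abs_le]
      constructor <;> linarith
    linarith)
  -- lower bound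
  have hg3 : gp (F.f v (pt b' n')) z (F.f v o) ≤ 4 * e := by
    have h4 := gp_change (F.f v (pt b' n')) P' z (F.f v o)
    have h5 := gp_change_base P' z (F.f v o) t
    rw [rho_comm (F.f v (pt b' n')) P'] at h4
    rw [rho_comm (F.f v o) t, gp_comm P' z t] at h5
    linarith
  have hXl := hB z (by nlinarith)
  have hvz : κ - 3 * e ≤ rho (F.f v o) z := by
    have := rho_triangle t (F.f v o) z
    linarith
  have hXl' : Real.exp (n' + κ - (Cg + 11) * e) ≤ nm z (F.U v o - F.U (γ • ev b) o) :=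
    (Real.exp_le_exp.2 (by linarith)).trans hXl
  have hsub : nm z (F.U v o - F.U (γ • ev b) o) ≤
      nm z (F.U 0 o - F.U v o) + nm z (F.U 0 o - F.U (γ • ev b) o) := by
    have h4 := nm_sub_le' z (F.U v o) (F.U 0 o) (F.U (γ • ev b) o)
    rw [nm_sub_comm z (F.U v o) (F.U 0 o)] at h4
    exact h4
  have hnn' := abs_le.1 hnn
  have hXu' : nm z (F.U 0 o - F.U (γ • ev b) o) ≤ Real.exp (n' + κ - (Cg + 11) * e - 1) :=
    hXu.trans (Real.exp_le_exp.2 (by linarith))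
  have hexp : 2 * Real.exp (n' + κ - (Cg + 11) * e - 1) ≤ Real.exp (n' + κ - (Cg + 11) * e) := by
    have h4 : Real.exp (n' + κ - (Cg + 11) * e) =
        Real.exp 1 * Real.exp (n' + κ - (Cg + 11) * e - 1) := by
      rw [← Real.exp_add]
      congr 1
      ring
    rw [h4]
    refine mul_le_mul_of_nonneg_right ?_ (Real.exp_pos _).le
    have := Real.exp_one_gt_d9
    linarith
  have hlow : Real.exp (n' + κ - (Cg + 11) * e - 1) ≤ nm z (F.U 0 o - F.U v o) := by linarith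
  have hmv := nm_le t z (F.U 0 o - F.U v o)
  have hfin : Real.exp (rho t z) * Real.exp (n' + κ - (Cg + 11) * e - 1 - rho t z) ≤
      Real.exp (rho t z) * nm t (F.U 0 o - F.U v o) := by
    rw [← Real.exp_add]
    refine le_trans (le_of_eq ?_) (hlow.trans hmv)
    congr 1
    ring
  have hfin' := le_of_mul_le_mul_left hfin (Real.exp_pos _)
  refine (Real.exp_le_exp.2 ?_).trans hfin'
  have h4 : 0 ≤ Cg * e := by
    have : 0 ≤ Cg := by linarith
    positivity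
  linarith

end Pool.Agent.FIB
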