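import Pool.Agent.FIB.FDefs

/-!
# (F5): `FVert K → FMid K`

Let `CV` be the constant of `FVert` for `1 / 2`. Put `t = F.f w (pt b j)`, `pm k = F.f w (pt b (j - k))`, `pp k = F.f w (pt b (j + k))` for `k : ℕ`
(`pm 0 = pp 0 = t`), `a = pm n`, `c = pp n`, `Λ = gp a c t` (`0 ≤ Λ ≤ rho t a`: `gp_nonneg`, `gp_le`).
`exists_geod t a Λ`: `z` with `rho t z ≤ Λ + 1`, `rho z a ≤ rho t a - Λ + 1`. `fourpt z t c a` (`rho_comm`) gives
`rho z c ≤ rho t c - Λ + 2`. So `gp t a z ≤ 1` and `gp t c z ≤ 3 / 2`. Let `m = Nat.log 2 n + 1` (`n ≤ 2 ^ m`); `path_near` for `pm` and for `pp`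
(steps `≤ 2 K` by `F.f_vert`): there are `h, h' ≤ n` with `rho z (pm h) ≤ E`, `rho z (pp h') ≤ E`, `E = 2 + m / 2 + 2 * K`. `FVert` at `j - h`, `L = h + h'`:
`(h + h') / 2 - CV ≤ rho (pm h) (pp h') ≤ 2 * E`, so `h ≤ 4 * E + 2 * CV`. `Λ ≤ rho t a - rho z a + 1 ≤ rho t z + 1 ≤ rho t (pm h) + E + 1 ≤
K * h + K + E + 1 ≤ 5 * K * E + 2 * K * CV + K + 1`. Finally `m ≤ 1 + 2 * log n` (`2 ^ (m - 1) ≤ n`, `log 2 ≥ 1/2`; `m = 1` for `n = 0`), and
`log n ≤ a * n + |log a|` with `a = ε / (5 * K)`: `5 * K * (m / 2) ≤ ε * n + constant`.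
-/

set_option autoImplicit false

namespace Pool.Agent.FIB

open UpperHalfPlane MeasureTheory Set

private theorem FMorse_log (n : ℕ) : ((Nat.log 2 n + 1 : ℕ) : ℝ) ≤ 1 + 2 * Real.log n := by
  rcases Nat.eq_zero_or_pos n with rfl | hn
  · simp
  · have h1 : 2 ^ Nat.log 2 n ≤ n := Nat.pow_log_le_self 2 hn.ne'
    have h2 : (2 : ℝ) ^ Nat.log 2 n ≤ n := by exact_mod_cast h1
    have h3 := Real.log_le_log (by positivity) h2
    rw [Real.log_pow] at h3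
    have h4 := Real.log_two_gt_d9
    have h5 : (0 : ℝ) ≤ (Nat.log 2 n : ℝ) := Nat.cast_nonneg _
    push_cast
    nlinarith

private theorem FMorse_log' (n : ℕ) (a : ℝ) (ha : 0 < a) : Real.log n ≤ a * n + |Real.log a| := by
  rcases Nat.eq_zero_or_pos n with rfl | hn
  · simp
  · have hn' : (0 : ℝ) < n := by exact_mod_cast hn
    have h1 := Real.log_le_sub_one_of_pos (mul_pos ha hn')
    rw [Real.log_mul ha.ne' hn'.ne'] at h1
    have h2 := neg_abs_le (Real.log a)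
    linarith

/-- the one-segment estimate -/
private theorem FMorse_det {K : ℝ} (hK : 1 ≤ K) {CV : ℝ} (F : QM K) (w : V) (b j : ℝ)
    (hCV : ∀ (j L : ℝ), 0 ≤ L →
      (1 - 1 / 2) * L - CV ≤ rho (F.f w (pt b j)) (F.f w (pt b (j + L)))) (n : ℕ) :
    gp (F.f w (pt b (j - n))) (F.f w (pt b (j + n))) (F.f w (pt b j)) ≤
      5 * K * (2 + ((Nat.log 2 n + 1 : ℕ) : ℝ) / 2 + 2 * K) + 2 * K * CV + K + 1 := by
  obtain ⟨t, ht⟩ : ∃ t, t = F.f w (pt b j) := ⟨_, rfl⟩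
  obtain ⟨pm, hpm⟩ : ∃ p : ℕ → ℍ, p = fun k : ℕ => F.f w (pt b (j - k)) := ⟨_, rfl⟩
  obtain ⟨pp, hpp⟩ : ∃ p : ℕ → ℍ, p = fun k : ℕ => F.f w (pt b (j + k)) := ⟨_, rfl⟩
  obtain ⟨a, ha⟩ : ∃ a, a = F.f w (pt b (j - n)) := ⟨_, rfl⟩
  obtain ⟨c, hc⟩ : ∃ c, c = F.f w (pt b (j + n)) := ⟨_, rfl⟩
  obtain ⟨m, hm⟩ : ∃ m : ℕ, m = Nat.log 2 n + 1 := ⟨_, rfl⟩
  rw [← ht, ← ha, ← hc, ← hm]
  obtain ⟨Λ, hΛ⟩ : ∃ Λ, Λ = gp a c t := ⟨_, rfl⟩
  obtain ⟨E, hE⟩ : ∃ E : ℝ, E = 2 + (m : ℝ) / 2 + 2 * K := ⟨_, rfl⟩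
  rw [← hΛ, ← hE]
  have hpm0 : pm 0 = t := by rw [hpm, ht]; simp
  have hpmn : pm n = a := by rw [hpm, ha]
  have hpp0 : pp 0 = t := by rw [hpp, ht]; simp
  have hppn : pp n = c := by rw [hpp, hc]
  have hΛ0 : 0 ≤ Λ := by rw [hΛ]; exact gp_nonneg _ _ _
  have hΛ1 : Λ ≤ rho t a := by rw [hΛ]; exact gp_le _ _ _
  have hΛ2 : 2 * Λ = rho t a + rho t c - rho a c := by rw [hΛ]; unfold gp; ring
  obtain ⟨z, hz1, hz2⟩ := exists_geod t a Λ hΛ0 hΛ1
  have hz3 : rho z c ≤ rho t c - Λ + 2 := by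
    have h1 := fourpt z t c a
    rw [rho_comm z t, rho_comm c a] at h1
    rcases le_total (rho t z + rho a c) (rho t c + rho z a) with hle | hle
    · rw [max_eq_right hle] at h1
      linarith
    · rw [max_eq_left hle] at h1
      linarith
  have g1 : gp t a z ≤ 1 := by
    unfold gp
    rw [rho_comm z t]
    linarith
  have g2 : gp t c z ≤ 3 / 2 := by
    unfold gp
    rw [rho_comm z t]
    linarith
  have hnm : n ≤ 2 ^ m := by
    rw [hm]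
    exact (Nat.lt_pow_succ_log_self (by norm_num) n).le
  obtain ⟨h, hh, hh'⟩ := path_near pm n m hnm (2 * K) (fun k _ => by
    rw [hpm]
    have h1 := F.f_vert w b (j - (k : ℕ)) (j - ((k + 1 : ℕ) : ℝ))
    have h2 : |j - (k : ℝ) - (j - ((k + 1 : ℕ) : ℝ))| = 1 := by
      push_cast
      rw [show j - (k : ℝ) - (j - (k + 1)) = 1 by ring]
      norm_num
    rw [h2] at h1
    simp only
    linarith) (by linarith) z
  obtain ⟨i, hi, hi'⟩ := path_near pp n m hnm (2 * K) (fun k _ => by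
    rw [hpp]
    have h1 := F.f_vert w b (j + (k : ℕ)) (j + ((k + 1 : ℕ) : ℝ))
    have h2 : |j + (k : ℝ) - (j + ((k + 1 : ℕ) : ℝ))| = 1 := by
      push_cast
      rw [show j + (k : ℝ) - (j + (k + 1)) = -1 by ring]
      norm_num
    rw [h2] at h1
    simp only
    linarith) (by linarith) z
  rw [hpm0, hpmn] at hh'
  rw [hpp0, hppn] at hi'
  have e1 : rho z (pm h) ≤ E := by rw [hE]; linarith
  have e2 : rho z (pp i) ≤ E := by rw [hE]; linarith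
  have e3 := hCV (j - (h : ℕ)) ((h : ℝ) + (i : ℝ)) (by positivity)
  have e4 : j - (h : ℝ) + ((h : ℝ) + (i : ℝ)) = j + (i : ℝ) := by ring
  rw [e4] at e3
  have e5 : rho (pm h) (pp i) ≤ 2 * E := by
    have h1 := rho_triangle (pm h) z (pp i)
    rw [rho_comm (pm h) z] at h1
    linarith
  rw [hpm, hpp] at e5
  simp only at e5
  have e6 : (h : ℝ) ≤ 4 * E + 2 * CV := by
    have : (0 : ℝ) ≤ (i : ℝ) := Nat.cast_nonneg _
    linarith
  have e7 : rho t (pm h) ≤ K * h + K := by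
    rw [ht, hpm]
    have h1 := F.f_vert w b j (j - (h : ℕ))
    have h2 : |j - (j - (h : ℝ))| = h := by
      rw [sub_sub_cancel]
      exact abs_of_nonneg (Nat.cast_nonneg _)
    rwa [h2] at h1
  have e8 : Λ ≤ rho t z + 1 := by
    have h1 := rho_triangle t z a
    linarith
  have e9 : rho t z ≤ rho t (pm h) + E := by
    have h1 := rho_triangle t (pm h) z
    rw [rho_comm (pm h) z] at h1
    linarith
  have e10 : K * h ≤ K * (4 * E + 2 * CV) := mul_le_mul_of_nonneg_left e6 (by linarith)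
  have e11 : 0 ≤ E := (rho_nonneg _ _).trans e1
  nlinarith [mul_nonneg (by linarith : (0 : ℝ) ≤ K - 1) e11]

theorem f_mid (K : ℝ) (hK : 1 ≤ K) (hV : FVert K) : FMid K := by
  intro ε hε
  obtain ⟨CV, hCV0, hCV⟩ := hV (1 / 2) (by norm_num)
  have hK0 : (0 : ℝ) < K := by linarith
  obtain ⟨a, ha⟩ : ∃ a : ℝ, a = ε / (5 * K) := ⟨_, rfl⟩
  have ha0 : 0 < a := by rw [ha]; positivity
  refine ⟨10 * K + 10 * K ^ 2 + 5 * K / 2 + 5 * K * |Real.log a| + 2 * K * CV + K + 1,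
    by positivity, ?_⟩
  intro F w b j n
  have h1 := FMorse_det hK F w b j (fun j L hL => hCV F w b j L hL) n
  have h2 := FMorse_log n
  have h3 := FMorse_log' n a ha0
  have h4 : 5 * K * (((Nat.log 2 n + 1 : ℕ) : ℝ) / 2) ≤
      5 * K / 2 + 5 * K * (a * n + |Real.log a|) := by
    have h5 : ((Nat.log 2 n + 1 : ℕ) : ℝ) / 2 ≤ 1 / 2 + (a * n + |Real.log a|) := by linarith
    have h6 := mul_le_mul_of_nonneg_left h5 (by linarith : (0 : ℝ) ≤ 5 * K)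
    linarith
  have h5 : 5 * K * (a * n) = ε * n := by
    rw [ha]
    field_simp
  have h6 : 5 * K * (2 + ((Nat.log 2 n + 1 : ℕ) : ℝ) / 2 + 2 * K) =
      10 * K + 5 * K * (((Nat.log 2 n + 1 : ℕ) : ℝ) / 2) + 10 * K ^ 2 := by ring
  rw [h6] at h1
  have h7 : 5 * K * (a * n + |Real.log a|) = ε * n + 5 * K * |Real.log a| := by
    rw [mul_add, h5]
  rw [h7] at h4
  linarith

end Pool.Agent.FIB
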