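import Pool.Agent.FIB.FDefs

/-!
# (F2), one scale: `StA K → StS K → FT1 K`

Given `ε`, take `ε1 = ε / 3` (so `ε1 ≤ ε`), `CA` from `StA` and `CS` from `StS` for `ε1`; `C = CA + CS + 1 + ε`.
For `α ∈ Icc (-1) 1` and `R ≥ 0`: `((α, 0) : V) = α • e1`, `nm (pt b R) ((α, 0) - 0) = |α| * exp R ≤ exp R` (`nm_pt_e1`), so
`log (1 + nm ..) ≤ log (2 * exp R) ≤ R + 1` and `rho (F.f (α, 0) (pt b R)) (F.f 0 (pt b R)) ≤ ε1 * (R + 1) + CS =: d`.
First clause: let `A` be the set of `b` in the claim. If `b ∈ A` and `α ∈ Icc (-1) 1` then (`gp_comm`, `gp_change`)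
`gp q (F.f (α, 0) (pt b R)) (F.f 0 o) ≥ gp q (F.f 0 (pt b R)) (F.f 0 o) - d > ε R + C - d ≥ ε1 * R + CA`. So `Icc (-1) 1 ×ˢ A` is contained in the
bad set of `StA`, and `volume (Icc (-1) 1 ×ˢ A) = 2 * volume A` (`Measure.volume_eq_prod`, `Measure.prod_prod`, valid for arbitrary sets), so
`volume A ≤ ofReal ε1 / 2 ≤ ofReal ε`. Second clause: the same with `|rho (F.f (α,0) (pt b R)) t - R| ≥ |rho (F.f 0 (pt b R)) t - R| - d`
(`rho_triangle`, `rho_comm`).
-/

set_option autoImplicit false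

namespace Pool.Agent.FIB

open UpperHalfPlane MeasureTheory Set

private theorem f_one_prod {S : Set (ℝ × ℝ)} {A : Set ℝ} {ε1 ε : ℝ} (h1 : ε1 ≤ ε)
    (hS : volume S ≤ ENNReal.ofReal ε1)
    (h : ∀ α ∈ Icc (-1 : ℝ) 1, ∀ b ∈ A, (α, b) ∈ S) : volume A ≤ ENNReal.ofReal ε := by
  have h2 : volume (Icc (-1 : ℝ) 1 ×ˢ A) = ENNReal.ofReal 2 * volume A := by
    rw [Measure.volume_eq_prod, Measure.prod_prod, Real.volume_Icc]
    norm_num
  have h3 : volume (Icc (-1 : ℝ) 1 ×ˢ A) ≤ volume S := by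
    refine measure_mono ?_
    rintro ⟨α, b⟩ ⟨ha, hb⟩
    exact h α ha b hb
  have h4 : volume A ≤ ENNReal.ofReal 2 * volume A := by
    have h5 : (1 : ENNReal) ≤ ENNReal.ofReal 2 := by
      rw [ENNReal.one_le_ofReal]
      norm_num
    calc volume A = 1 * volume A := (one_mul _).symm
      _ ≤ ENNReal.ofReal 2 * volume A := by gcongr
  exact h4.trans (h2.symm.le.trans (h3.trans (hS.trans (ENNReal.ofReal_le_ofReal h1))))

theorem f_one (K : ℝ) (hK : 1 ≤ K) (hA : StA K) (hS : StS K) : FT1 K := by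
  intro ε hε
  obtain ⟨CA, hCA, hA⟩ := hA (ε / 3) (by linarith)
  obtain ⟨CS, hCS, hS⟩ := hS (ε / 3) (by linarith)
  refine ⟨CA + CS + 1 + ε, by linarith, ?_⟩
  intro F R hR
  obtain ⟨hA1, hA2⟩ := hA F R hR
  have hd : ∀ α ∈ Icc (-1 : ℝ) 1, ∀ b : ℝ,
      rho (F.f 0 (pt b R)) (F.f ((α, 0) : V) (pt b R)) ≤ ε / 3 * (R + 1) + CS := by
    intro α hα b
    rw [rho_comm]
    refine (hS F ((α, 0) : V) 0 (pt b R)).trans ?_
    have h1 : nm (pt b R) (((α, 0) : V) - 0) ≤ Real.exp R := by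
      have h2 : (((α, 0) : V) - 0) = α • e1 := by
        rw [sub_zero]
        ext <;> simp [e1]
      rw [h2, nm_pt_e1]
      have h3 : |α| ≤ 1 := abs_le.2 hα
      calc |α| * Real.exp R ≤ 1 * Real.exp R :=
            mul_le_mul_of_nonneg_right h3 (Real.exp_pos _).le
        _ = Real.exp R := one_mul _
    have h4 := nm_nonneg (pt b R) (((α, 0) : V) - 0)
    have h5 : Real.log (1 + nm (pt b R) (((α, 0) : V) - 0)) ≤ R + 1 := by
      rw [Real.log_le_iff_le_exp (by linarith), Real.exp_add]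
      have h6 : (1 : ℝ) ≤ Real.exp R := Real.one_le_exp hR
      have h7 : (2 : ℝ) ≤ Real.exp 1 := by
        have := Real.add_one_le_exp (1 : ℝ)
        linarith
      have h8 : Real.exp R * 2 ≤ Real.exp R * Real.exp 1 :=
        mul_le_mul_of_nonneg_left h7 (Real.exp_pos _).le
      linarith
    have h9 := mul_le_mul_of_nonneg_left h5 (by linarith : (0 : ℝ) ≤ ε / 3)
    linarith
  have hR' : 0 ≤ ε * R := mul_nonneg hε.le hR
  constructor
  · intro q
    refine f_one_prod (ε1 := ε / 3) (by linarith) (hA1 q) ?_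
    rintro α hα b ⟨hb, hb'⟩
    refine ⟨hα, hb, ?_⟩
    have h1 := gp_change (F.f 0 (pt b R)) (F.f ((α, 0) : V) (pt b R)) q (F.f 0 o)
    rw [gp_comm _ q, gp_comm _ q] at h1
    have h2 := hd α hα b
    show ε / 3 * R + CA < gp q (F.f ((α, 0) : V) (pt b R)) (F.f 0 o)
    linarith
  · refine f_one_prod (ε1 := ε / 3) (by linarith) hA2 ?_
    rintro α hα b ⟨hb, hb'⟩
    refine ⟨hα, hb, ?_⟩
    have h2 := hd α hα b
    have h3 := rho_triangle (F.f 0 (pt b R)) (F.f ((α, 0) : V) (pt b R)) (F.f 0 o)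
    have h4 := rho_triangle (F.f ((α, 0) : V) (pt b R)) (F.f 0 (pt b R)) (F.f 0 o)
    rw [rho_comm (F.f ((α, 0) : V) (pt b R)) (F.f 0 (pt b R))] at h4
    show ε / 3 * R + CA < |rho (F.f ((α, 0) : V) (pt b R)) (F.f 0 o) - R|
    rw [lt_abs] at hb' ⊢
    rcases hb' with h5 | h5
    · left
      linarith
    · right
      linarith

end Pool.Agent.FIB
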