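import Pool.Agent.FIB.FDefs

/-!
# (F2): `FT1 K → FT2 K → FTy K`

The clause with `gp` is the first clause of `FT1` (take the maximum of the constants; a larger `C` makes the bad sets smaller).
Unit speed: given `ε`, `δ = ε / (16 * K)`, `N = ⌈1 / δ⌉₊ + 2`, `ε1 = ε / (2 * N ^ 2)` (so `ε1 ≤ ε / 2`), `C1` from `FT2` for
`ε1`, `C = C1 + 16 * K`. Given `R ≥ 0` let `g = ⌊δ * R⌋₊ + 1` (natural, `δ R ≤ g ≤ δ R + 1`). For naturals `a ≤ a' < N` let
`G a a' = {b | b ∈ Icc (-2) 2 ∧ ε1 * L + C1 < |rho (F.f 0 (pt b i)) (F.f 0 (pt b (i + L))) - L|}` with `i = a g`, `L = (a' - a) g`; the union of the `G a a'`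
has measure `≤ N ^ 2 * ofReal ε1 ≤ ofReal ε` (`measure_biUnion_finset_le`). If `b ∈ Icc (-2) 2` is in no `G a a'`, then `UnitP F 0 b 0 R (ε R + C)`: let
`i ≤ i' ≤ R` be naturals (symmetric in `i, i'`: `rho_comm`), `a = i / g`, `a' = i' / g` (`< N`, since `i' ≤ R` and `g ≥ δ R`, so `i'/g ≤ 1/δ`).
`|i - a g| ≤ g`, `|i' - a' g| ≤ g`; `F.f_vert`: `rho (F.f 0 (pt b i)) (F.f 0 (pt b (a g))) ≤ K g + K`, same for `i'`. So
`|rho (F.f 0 (pt b i)) (F.f 0 (pt b i')) - (i' - i)| ≤ ε1 L + C1 + 2 (K g + K) + 2 g`, `L ≤ R`, `g ≤ δ R + 1`: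
`≤ (ε/2) R + C1 + 4 K (δ R + 1) + 2 K ≤ ε R + C`. (`pt b (0 + i)`: `zero_add`.)
-/

set_option autoImplicit false

namespace Pool.Agent.FIB

open UpperHalfPlane MeasureTheory Set

private lemma f_three_core (K : ℝ) (hK : 1 ≤ K) (F : QM K) (b ε δ ε1 C1 R : ℝ) (g N : ℕ)
    (hε : 0 < ε) (hδ : δ = ε / (16 * K)) (hε1 : 0 ≤ ε1) (hε1' : ε1 ≤ ε / 2) (hC1 : 0 ≤ C1)
    (hR : 0 ≤ R) (hg1 : δ * R < g) (hg2 : (g : ℝ) ≤ δ * R + 1) (hN : 1 / δ < N)
    (H : ∀ a < N, ∀ d < N, |rho (F.f 0 (pt b ((a : ℝ) * g)))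
      (F.f 0 (pt b ((a : ℝ) * g + (d : ℝ) * g))) - (d : ℝ) * g| ≤ ε1 * ((d : ℝ) * g) + C1)
    (i i' : ℕ) (hii : i ≤ i') (hi' : (i' : ℝ) ≤ R) :
    abs (rho (F.f 0 (pt b (i : ℝ))) (F.f 0 (pt b (i' : ℝ))) - abs ((i : ℝ) - i')) ≤
      ε * R + (C1 + 16 * K) := by
  have hδ0 : 0 < δ := by rw [hδ]; positivity
  have hgpos : (0 : ℝ) < g := lt_of_le_of_lt (by positivity) hg1
  have hgpos' : 0 < g := by exact_mod_cast hgpos
  set a := i / g with ha
  set a' := i' / g with ha'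
  have haa : a ≤ a' := Nat.div_le_div_right hii
  have e1 : a * g ≤ i := Nat.div_mul_le_self i g
  have e2 : a' * g ≤ i' := Nat.div_mul_le_self i' g
  have e3 : i < a * g + g := by
    have := Nat.lt_div_mul_add (a := i) hgpos'
    rw [ha]; exact this
  have e4 : i' < a' * g + g := by
    have := Nat.lt_div_mul_add (a := i') hgpos'
    rw [ha']; exact this
  have r1 : (a : ℝ) * g ≤ i := by exact_mod_cast e1
  have r2 : (a' : ℝ) * g ≤ i' := by exact_mod_cast e2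
  have r3 : (i : ℝ) < (a : ℝ) * g + g := by exact_mod_cast e3
  have r4 : (i' : ℝ) < (a' : ℝ) * g + g := by exact_mod_cast e4
  have haN : a' < N := by
    have k1 : δ * ((a' : ℝ) * g) < g := by
      have : δ * ((a' : ℝ) * g) ≤ δ * R := by
        apply mul_le_mul_of_nonneg_left _ hδ0.le
        linarith
      linarith
    have k2 : δ * (a' : ℝ) < 1 := by
      have k3 : (δ * (a' : ℝ)) * g < 1 * g := by linarith [k1, mul_assoc δ (a' : ℝ) (g : ℝ)]
      exact lt_of_mul_lt_mul_right k3 hgpos.le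
    have k4 : (a' : ℝ) < 1 / δ := by
      rw [lt_div_iff₀ hδ0]; linarith
    exact_mod_cast k4.trans hN
  have hd : ((a' - a : ℕ) : ℝ) = (a' : ℝ) - a := by
    rw [Nat.cast_sub haa]
  have h0 := H a (lt_of_le_of_lt haa haN) (a' - a) (lt_of_le_of_lt (Nat.sub_le _ _) haN)
  rw [hd] at h0
  have e5 : (a : ℝ) * g + ((a' : ℝ) - a) * g = (a' : ℝ) * g := by ring
  rw [e5] at h0
  have v1 := F.f_vert 0 b (i : ℝ) ((a : ℝ) * g)
  have v2 := F.f_vert 0 b (i' : ℝ) ((a' : ℝ) * g)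
  have w1 : |(i : ℝ) - (a : ℝ) * g| ≤ g := by rw [abs_le]; constructor <;> linarith
  have w2 : |(i' : ℝ) - (a' : ℝ) * g| ≤ g := by rw [abs_le]; constructor <;> linarith
  have K0 : 0 ≤ K := by linarith
  have v1' : rho (F.f 0 (pt b (i : ℝ))) (F.f 0 (pt b ((a : ℝ) * g))) ≤ K * g + K :=
    v1.trans (by have := mul_le_mul_of_nonneg_left w1 K0; linarith)
  have v2' : rho (F.f 0 (pt b (i' : ℝ))) (F.f 0 (pt b ((a' : ℝ) * g))) ≤ K * g + K :=
    v2.trans (by have := mul_le_mul_of_nonneg_left w2 K0; linarith)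
  have t1 := rho_triangle (F.f 0 (pt b (i : ℝ))) (F.f 0 (pt b ((a : ℝ) * g)))
    (F.f 0 (pt b (i' : ℝ)))
  have t2 := rho_triangle (F.f 0 (pt b ((a : ℝ) * g))) (F.f 0 (pt b ((a' : ℝ) * g)))
    (F.f 0 (pt b (i' : ℝ)))
  have t3 := rho_triangle (F.f 0 (pt b ((a : ℝ) * g))) (F.f 0 (pt b (i : ℝ)))
    (F.f 0 (pt b ((a' : ℝ) * g)))
  have t4 := rho_triangle (F.f 0 (pt b (i : ℝ))) (F.f 0 (pt b (i' : ℝ)))
    (F.f 0 (pt b ((a' : ℝ) * g)))
  have c1 := rho_comm (F.f 0 (pt b (i' : ℝ))) (F.f 0 (pt b ((a' : ℝ) * g)))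
  have c2 := rho_comm (F.f 0 (pt b (i : ℝ))) (F.f 0 (pt b ((a : ℝ) * g)))
  have hii' : (i : ℝ) ≤ i' := by exact_mod_cast hii
  have e6 : |(i : ℝ) - i'| = (i' : ℝ) - i := by rw [abs_sub_comm, abs_of_nonneg (by linarith)]
  rw [e6]
  obtain ⟨h01, h02⟩ := abs_le.1 h0
  have ha0 : (0 : ℝ) ≤ (a : ℝ) * g := by positivity
  have q1 : ε1 * (((a' : ℝ) - a) * g) ≤ ε / 2 * R := by
    have q2 : ((a' : ℝ) - a) * g ≤ R := by
      have : ((a' : ℝ) - a) * g = (a' : ℝ) * g - (a : ℝ) * g := by ring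
      linarith
    have q3 : 0 ≤ ((a' : ℝ) - a) * g := by
      have : (a : ℝ) ≤ a' := by exact_mod_cast haa
      exact mul_nonneg (by linarith) hgpos.le
    calc ε1 * (((a' : ℝ) - a) * g) ≤ (ε / 2) * (((a' : ℝ) - a) * g) :=
          mul_le_mul_of_nonneg_right hε1' q3
      _ ≤ ε / 2 * R := mul_le_mul_of_nonneg_left q2 (by linarith)
  have q4 : (2 * K + 1) * (δ * R) ≤ ε / 2 * R := by
    have q5 : (2 * K + 1) * δ ≤ ε / 2 := by
      have q6 : K * δ = ε / 16 := by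
        rw [hδ]; field_simp
      have q7 : δ ≤ K * δ := by nlinarith
      have q8 : (2 * K + 1) * δ = 2 * (K * δ) + δ := by ring
      linarith
    calc (2 * K + 1) * (δ * R) = ((2 * K + 1) * δ) * R := by ring
      _ ≤ ε / 2 * R := mul_le_mul_of_nonneg_right q5 hR
  have q9 : K * g ≤ K * (δ * R) + K := by nlinarith
  have q10 : ((a' : ℝ) - a) * g = (a' : ℝ) * g - (a : ℝ) * g := by ring
  rw [q10] at h01 h02 q1
  rw [abs_le]
  constructor <;> linarith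

theorem f_three (K : ℝ) (hK : 1 ≤ K) (h1 : FT1 K) (h2 : FT2 K) : FTy K := by
  intro ε hε
  obtain ⟨C0, hC0, H0⟩ := h1 ε hε
  have hK0 : 0 < K := by linarith
  set δ : ℝ := ε / (16 * K) with hδ
  have hδ0 : 0 < δ := by positivity
  set N : ℕ := ⌈1 / δ⌉₊ + 2 with hN
  have hNlt : 1 / δ < N := by
    have := Nat.le_ceil (1 / δ)
    rw [hN]; push_cast; linarith
  have hN1 : (1 : ℝ) ≤ N := by
    rw [hN]; push_cast
    have : (0 : ℝ) ≤ (⌈1 / δ⌉₊ : ℝ) := by positivity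
    linarith
  set ε1 : ℝ := ε / (2 * (N : ℝ) ^ 2) with hε1
  have hε10 : 0 < ε1 := by positivity
  have hε11 : ε1 ≤ ε / 2 := by
    rw [hε1]
    apply div_le_div_of_nonneg_left hε.le (by norm_num)
    nlinarith
  obtain ⟨C1, hC1, H1⟩ := h2 ε1 hε10
  refine ⟨C0 + (C1 + 16 * K), by positivity, fun F R hR => ⟨?_, fun q => ?_⟩⟩
  · set g : ℕ := ⌊δ * R⌋₊ + 1 with hg
    have hg1 : δ * R < g := by
      rw [hg]; push_cast; exact Nat.lt_floor_add_one _
    have hg2 : (g : ℝ) ≤ δ * R + 1 := by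
      have := Nat.floor_le (show (0 : ℝ) ≤ δ * R by positivity)
      rw [hg]; push_cast; linarith
    set G : ℕ × ℕ → Set ℝ := fun p => {b : ℝ | b ∈ Icc (-2) 2 ∧
      ε1 * ((p.2 : ℝ) * g) + C1 < |rho (F.f 0 (pt b ((p.1 : ℝ) * g)))
        (F.f 0 (pt b ((p.1 : ℝ) * g + (p.2 : ℝ) * g))) - (p.2 : ℝ) * g|} with hG
    have hsub : {b : ℝ | b ∈ Icc (-2) 2 ∧ ¬ UnitP F 0 b 0 R (ε * R + (C0 + (C1 + 16 * K)))} ⊆
        ⋃ p ∈ (Finset.range N ×ˢ Finset.range N), G p := by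
      rintro b ⟨hb, hU⟩
      by_contra hcon
      apply hU
      have HH : ∀ a < N, ∀ d < N, |rho (F.f 0 (pt b ((a : ℝ) * g)))
          (F.f 0 (pt b ((a : ℝ) * g + (d : ℝ) * g))) - (d : ℝ) * g| ≤
          ε1 * ((d : ℝ) * g) + C1 := by
        intro a ha d hd
        by_contra hlt
        apply hcon
        rw [mem_iUnion₂]
        exact ⟨(a, d), Finset.mem_product.2 ⟨Finset.mem_range.2 ha, Finset.mem_range.2 hd⟩,
          hb, not_le.1 hlt⟩
      have core := f_three_core K hK F b ε δ ε1 C1 R g N hε hδ hε10.le hε11 hC1.le hR hg1 hg2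
        hNlt HH
      intro i i' hi hi'
      rw [zero_add, zero_add]
      rcases le_total i i' with h | h
      · have := core i i' h hi'
        linarith
      · have := core i' i h hi
        rw [rho_comm, abs_sub_comm (i : ℝ) (i' : ℝ)]
        linarith
    refine (measure_mono hsub).trans ((measure_biUnion_finset_le _ _).trans ?_)
    calc ∑ p ∈ Finset.range N ×ˢ Finset.range N, volume (G p)
        ≤ ∑ p ∈ Finset.range N ×ˢ Finset.range N, ENNReal.ofReal ε1 := by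
          apply Finset.sum_le_sum
          intro p _
          exact H1 F ((p.1 : ℝ) * g) ((p.2 : ℝ) * g) (by positivity) (by positivity)
      _ = ENNReal.ofReal ((N : ℝ) ^ 2 * ε1) := by
          rw [Finset.sum_const, Finset.card_product, Finset.card_range, nsmul_eq_mul,
            ENNReal.ofReal_mul (by positivity)]
          congr 1
          rw [← Nat.cast_pow, ENNReal.ofReal_natCast, sq]
      _ ≤ ENNReal.ofReal ε := by
          apply ENNReal.ofReal_le_ofReal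
          have : (N : ℝ) ^ 2 * ε1 = ε / 2 := by
            rw [hε1]; field_simp
          rw [this]; linarith
  · refine (measure_mono ?_).trans ((H0 F R hR).1 q)
    rintro b ⟨hb, hlt⟩
    refine ⟨hb, ?_⟩
    have : 0 ≤ C1 + 16 * K := by positivity
    linarith

end Pool.Agent.FIB
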