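import Pool.Agent.FIB.FChain

/-!
# Tripods

`C0, r` from `f_chain`; `C = C0 + 4 * K`. Put `L = n * r ≥ 0`.
(1) first product: `f_chain` with `b = 0` (`o = pt 0 0`).
(2) second product: `f_chain` with `b = 1`; `rho (F.f w (pt 1 (-L))) (F.f w (pt 0 (-L))) ≤ 2 K` and `rho (F.f w (pt 1 0)) (F.f w (pt 0 0)) ≤ 2 K`
(`near_vert`: `|1 - 0| ≤ exp (-2 * (-L))`), `gp_change`, `gp_change_base`, `rho_comm`.
(3) third product: let `g0 : SL(2, ℝ) = !![0, 1; -1, 1]` (`z ↦ 1 / (1 - z)`). `g0 • pt 1 L = pt 0 (-L)` (`1 / (- i y) = i / y`). For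
`y = exp (-2 L) ≤ 1`: `g0 • pt 0 L = (1 + i y) / (1 + y ^ 2)` and `pt 1 L = 1 + i y`, `sinh (rho ..) = |difference| / (2 sqrt (im im)) = y / 2 ≤ 1 / 2`
(`UpperHalfPlane.sinh_half_dist`, see `le_rho_pt` in `FIB/Hyp`), so `rho (g0 • pt 0 L) (pt 1 L) ≤ 1 / 2` (`Real.self_le_sinh_iff`); at `L = 0`, with
`rho (pt 1 0) (pt 0 0) ≤ 1 / 2` (`rho_pt_b`): `rho (g0 • o) o ≤ 1`. Let `F' = F.tr w g0⁻¹`; `F'.f 0 (g0 • x) = F.f w x` (`act _ 0 = 0`, `inv_smul_smul`). So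
(`F'.f_rho`) `F.f w (pt 1 L) = F'.f 0 (pt 0 (-L))`, `rho (F.f w (pt 0 L)) (F'.f 0 (pt 1 L)) ≤ 2 K`, `rho (F.f w o) (F'.f 0 o) ≤ 2 K`: by (2) for `F'` the third product is
`≤ C0 + 4 K + 4 K`. (So take `C = C0 + 8 * K`.)
-/

set_option autoImplicit false

namespace Pool.Agent.FIB

open UpperHalfPlane MeasureTheory Set
open scoped MatrixGroups

private noncomputable def FTri_g : SL(2, ℝ) :=
  ⟨!![0, 1; -1, 1], by rw [Matrix.det_fin_two_of]; norm_num⟩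

private lemma FTri_coe (x : ℍ) : ((FTri_g • x : ℍ) : ℂ) = 1 / (1 - (x : ℂ)) := by
  rw [coe_specialLinearGroup_apply]
  have h00 : FTri_g 0 0 = 0 := rfl
  have h01 : FTri_g 0 1 = 1 := rfl
  have h10 : FTri_g 1 0 = -1 := rfl
  have h11 : FTri_g 1 1 = 1 := rfl
  rw [h00, h01, h10, h11]
  push_cast
  ring

private lemma FTri_pt (b L : ℝ) :
    ((pt b L : ℍ) : ℂ) = (b : ℂ) + ((Real.exp (-2 * L) : ℝ) : ℂ) * Complex.I := by
  apply Complex.ext
  · rw [Complex.add_re, Complex.ofReal_re, Complex.re_ofReal_mul, Complex.I_re, mul_zero, add_zero]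
    rfl
  · rw [Complex.add_im, Complex.ofReal_im, Complex.im_ofReal_mul, Complex.I_im, mul_one, zero_add]
    rfl

private lemma FTri_one (L : ℝ) : FTri_g • pt 1 L = pt 0 (-L) := by
  apply UpperHalfPlane.ext
  rw [FTri_coe, FTri_pt, FTri_pt]
  have h : Real.exp (-2 * L) * Real.exp (-2 * -L) = 1 := by
    rw [← Real.exp_add]
    simp
  have h1 : ((Real.exp (-2 * L) : ℝ) : ℂ) * ((Real.exp (-2 * -L) : ℝ) : ℂ) = 1 := by
    exact_mod_cast h
  have h4 : ((Real.exp (-2 * L) : ℝ) : ℂ) ≠ 0 := by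
    exact_mod_cast (Real.exp_pos _).ne'
  rw [Complex.ofReal_one, Complex.ofReal_zero, zero_add]
  have h3 : (1 : ℂ) - (1 + ((Real.exp (-2 * L) : ℝ) : ℂ) * Complex.I) ≠ 0 := by
    rw [sub_add_cancel_left, neg_ne_zero]
    exact mul_ne_zero h4 Complex.I_ne_zero
  rw [div_eq_iff h3]
  have h5 : ((Real.exp (-2 * -L) : ℝ) : ℂ) * Complex.I *
      (1 - (1 + ((Real.exp (-2 * L) : ℝ) : ℂ) * Complex.I)) =
      -(((Real.exp (-2 * L) : ℝ) : ℂ) * ((Real.exp (-2 * -L) : ℝ) : ℂ)) *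
        (Complex.I * Complex.I) := by
    ring
  rw [h5, h1, Complex.I_mul_I]
  ring

private lemma FTri_zero (L : ℝ) (hL : 0 ≤ L) : rho (FTri_g • pt 0 L) (pt 1 L) ≤ 1 / 2 := by
  have e0 := FTri_pt 0 L
  have e1 := FTri_pt 1 L
  have him1 : (pt 1 L).im = Real.exp (-2 * L) := rfl
  have hy0 := Real.exp_pos (-2 * L)
  have hy1 : Real.exp (-2 * L) ≤ 1 := Real.exp_le_one_iff.2 (by linarith)
  generalize Real.exp (-2 * L) = y at e0 e1 him1 hy0 hy1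
  rw [Complex.ofReal_zero, zero_add] at e0
  rw [Complex.ofReal_one] at e1
  have hne : (1 : ℂ) - (y : ℂ) * Complex.I ≠ 0 := by
    intro h
    have h1 := congrArg Complex.re h
    simp at h1
  have hy2 : 0 < 1 + y ^ 2 := by positivity
  have hne2 : (1 : ℂ) + (y : ℂ) ^ 2 ≠ 0 := by
    exact_mod_cast hy2.ne'
  have e2 : ((FTri_g • pt 0 L : ℍ) : ℂ) = (1 + (y : ℂ) * Complex.I) / (1 + (y : ℂ) ^ 2) := by
    rw [FTri_coe, e0, div_eq_div_iff hne hne2]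
    have h5 : (1 + (y : ℂ) * Complex.I) * (1 - (y : ℂ) * Complex.I) =
      1 - (y : ℂ) ^ 2 * (Complex.I * Complex.I) := by ring
    rw [h5, Complex.I_mul_I]
    ring
  have e3 : ((FTri_g • pt 0 L : ℍ) : ℂ) =
      ((1 / (1 + y ^ 2) : ℝ) : ℂ) * (1 + (y : ℂ) * Complex.I) := by
    rw [e2]
    push_cast
    ring
  have him : (FTri_g • pt 0 L).im = y / (1 + y ^ 2) := by
    have h1 : (FTri_g • pt 0 L).im = ((FTri_g • pt 0 L : ℍ) : ℂ).im := rfl
    rw [h1, e3, Complex.im_ofReal_mul, Complex.add_im, Complex.one_im, Complex.im_ofReal_mul,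
      Complex.I_im]
    ring
  have h1 : Real.sinh (rho (FTri_g • pt 0 L) (pt 1 L)) =
      dist ((FTri_g • pt 0 L : ℍ) : ℂ) (pt 1 L) /
        (2 * Real.sqrt ((FTri_g • pt 0 L).im * (pt 1 L).im)) :=
    sinh_half_dist _ _
  have h2 : ((FTri_g • pt 0 L : ℍ) : ℂ) - (pt 1 L : ℍ) =
      ((-(y ^ 2 / (1 + y ^ 2)) : ℝ) : ℂ) * (1 + (y : ℂ) * Complex.I) := by
    rw [e2, e1]
    push_cast
    field_simp
    ring
  have h3 : ‖(1 : ℂ) + (y : ℂ) * Complex.I‖ = Real.sqrt (1 + y ^ 2) := by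
    rw [Complex.norm_def, Complex.normSq_apply]
    simp only [Complex.add_re, Complex.one_re, Complex.re_ofReal_mul, Complex.I_re, mul_zero,
      add_zero, Complex.add_im, Complex.one_im, Complex.im_ofReal_mul, Complex.I_im, mul_one,
      zero_add]
    congr 1
    ring
  have hs := Real.sqrt_pos.2 hy2
  have hss : Real.sqrt (1 + y ^ 2) * Real.sqrt (1 + y ^ 2) = 1 + y ^ 2 :=
    Real.mul_self_sqrt hy2.le
  have h4 : Real.sqrt ((FTri_g • pt 0 L).im * (pt 1 L).im) = y / Real.sqrt (1 + y ^ 2) := by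
    rw [him, him1]
    have : y / (1 + y ^ 2) * y = (y / Real.sqrt (1 + y ^ 2)) * (y / Real.sqrt (1 + y ^ 2)) := by
      rw [div_mul_div_comm, hss]
      ring
    rw [this, Real.sqrt_mul_self (by positivity)]
  have h5 : Real.sinh (rho (FTri_g • pt 0 L) (pt 1 L)) = y / 2 := by
    rw [h1, Complex.dist_eq, h2, norm_mul, h3, h4, Complex.norm_real, Real.norm_eq_abs, abs_neg,
      abs_of_nonneg (by positivity)]
    rw [div_eq_iff (by positivity)]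
    have h6 : y / 2 * (2 * (y / Real.sqrt (1 + y ^ 2))) = y ^ 2 / Real.sqrt (1 + y ^ 2) := by
      ring
    rw [h6, eq_div_iff hs.ne', mul_assoc, hss]
    field_simp
  have h6 := Real.self_le_sinh_iff.2 (rho_nonneg (FTri_g • pt 0 L) (pt 1 L))
  linarith

private lemma FTri_o : rho (FTri_g • o) o ≤ 1 := by
  have h1 := FTri_zero 0 le_rfl
  have h2 := rho_pt_b 1 0 0
  rw [sub_zero, abs_one, mul_zero, Real.exp_zero] at h2
  have h3 := rho_triangle (FTri_g • o) (pt 1 0) o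
  have ho : o = pt 0 0 := rfl
  rw [← ho] at h1 h2
  linarith

theorem f_tri (K : ℝ) (hK : 1 ≤ K) (hV : FVert K) (hM : FMid K) :
    ∃ (C : ℝ) (r : ℕ), 0 < C ∧ 0 < r ∧ ∀ (F : QM K) (w : V) (n : ℕ),
      gp (F.f w (pt 0 (-((n : ℝ) * r)))) (F.f w (pt 0 ((n : ℝ) * r))) (F.f w o) ≤ C ∧
      gp (F.f w (pt 0 (-((n : ℝ) * r)))) (F.f w (pt 1 ((n : ℝ) * r))) (F.f w o) ≤ C ∧
      gp (F.f w (pt 0 ((n : ℝ) * r))) (F.f w (pt 1 ((n : ℝ) * r))) (F.f w o) ≤ C := by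
  obtain ⟨C0, r, hC0, hr, h⟩ := f_chain K hK hV hM
  have hK0 : 0 ≤ K := by linarith
  have h2 : ∀ (F : QM K) (w : V) (n : ℕ),
      gp (F.f w (pt 0 (-((n : ℝ) * r)))) (F.f w (pt 1 ((n : ℝ) * r))) (F.f w o) ≤ C0 + 4 * K := by
    intro F w n
    have hL : 0 ≤ (n : ℝ) * r := by positivity
    have k1 := h F w 1 n
    have k2 := near_vert hK F w 0 1 (-((n : ℝ) * r)) (by
      rw [zero_sub, abs_neg, abs_one]
      exact Real.one_le_exp (by linarith))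
    have k3 := near_vert hK F w 0 1 0 (by norm_num)
    have k4 := gp_change (F.f w (pt 0 (-((n : ℝ) * r)))) (F.f w (pt 1 (-((n : ℝ) * r))))
      (F.f w (pt 1 ((n : ℝ) * r))) (F.f w o)
    have k5 := gp_change_base (F.f w (pt 1 (-((n : ℝ) * r)))) (F.f w (pt 1 ((n : ℝ) * r)))
      (F.f w o) (F.f w (pt 1 0))
    have ho : o = pt 0 0 := rfl
    rw [← ho] at k3
    linarith
  refine ⟨C0 + 8 * K, r, by linarith, hr, ?_⟩
  intro F w n
  have hL : 0 ≤ (n : ℝ) * r := by positivity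
  refine ⟨?_, ?_, ?_⟩
  · have := h F w 0 n
    have ho : o = pt 0 0 := rfl
    rw [← ho] at this
    linarith
  · have := h2 F w n
    linarith
  · have k1 := h2 (F.tr w FTri_g⁻¹) 0 n
    have k0 : act FTri_g⁻¹ 0 = 0 := by
      ext <;> simp [act]
    have kf : ∀ x : ℍ, (F.tr w FTri_g⁻¹).f 0 (FTri_g • x) = F.f w x := by
      intro x
      rw [QM.tr_f, k0, add_zero, inv_smul_smul]
    have k2 := kf (pt 1 ((n : ℝ) * r))
    rw [FTri_one] at k2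
    have k3 := kf (pt 0 ((n : ℝ) * r))
    have k4 := kf o
    have k5 := (F.tr w FTri_g⁻¹).f_rho 0 (FTri_g • pt 0 ((n : ℝ) * r)) (pt 1 ((n : ℝ) * r))
    have k6 := (F.tr w FTri_g⁻¹).f_rho 0 (FTri_g • o) o
    have k7 := FTri_zero _ hL
    have k8 := FTri_o
    rw [k3] at k5
    rw [k4] at k6
    rw [k2] at k1
    have k9 : K * rho (FTri_g • pt 0 ((n : ℝ) * r)) (pt 1 ((n : ℝ) * r)) ≤ K * (1 / 2) :=
      mul_le_mul_of_nonneg_left k7 hK0
    have k10 : K * rho (FTri_g • o) o ≤ K * 1 := mul_le_mul_of_nonneg_left k8 hK0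
    have k11 := gp_change (F.f w (pt 0 ((n : ℝ) * r)))
      ((F.tr w FTri_g⁻¹).f 0 (pt 1 ((n : ℝ) * r))) (F.f w (pt 1 ((n : ℝ) * r))) (F.f w o)
    have k12 := gp_change_base ((F.tr w FTri_g⁻¹).f 0 (pt 1 ((n : ℝ) * r)))
      (F.f w (pt 1 ((n : ℝ) * r))) (F.f w o) ((F.tr w FTri_g⁻¹).f 0 o)
    rw [gp_comm (F.f w (pt 1 ((n : ℝ) * r)))] at k1
    linarith

end Pool.Agent.FIB
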