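import Pool.Agent.FIB.FAvg

/-!
# (F2), one pair of depths: `FT1 K → FT2 K`

Given `ε`, take `C1` from `FT1` for `ε1 = ε / 3`; `C = C1 + 2 K`. Let
`G = {b | ε * L + C < |rho (F.f 0 (pt b i)) (F.f 0 (pt b (i + L))) - L|}` (measurable: `measSet` with the points
`(0, pt b i)`, `(0, pt b (i+L))`, see how `FIB/PartD1` or `FIB/DLoc` use it). `τ = exp (-2 * i) ∈ (0, 1]`. For `b0 : ℝ` let `F1 = F.tr 0 (fr b0 i)`:
`F1.f 0 (pt β L) = F.f 0 (pt (b0 + β * τ) (i + L))` (`tr_f`, `fr_smul`, `act` of `0` is `0`) and `F1.f 0 o = F.f 0 (pt b0 i)` (`o = pt 0 0`).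
If `β ∈ Icc (-1) 1` and `b0 + β τ ∈ G` then, as `rho (F.f 0 (pt b0 i)) (F.f 0 (pt (b0 + β τ) i)) ≤ 2 K` (`near_vert`),
`ε1 * L + C1 < |rho (F1.f 0 (pt β L)) (F1.f 0 o) - L|`: by `FT1` for `F1` these `β` form a set of measure `≤ ofReal ε1`.
`f_avg` with `η = ε1`.
-/

set_option autoImplicit false

namespace Pool.Agent.FIB

open UpperHalfPlane MeasureTheory Set

theorem f_two (K : ℝ) (hK : 1 ≤ K) (h : FT1 K) : FT2 K := by
  intro ε hε
  obtain ⟨C1, hC1, h1⟩ := h (ε / 3) (by positivity)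
  refine ⟨C1 + 2 * K, by linarith, fun F i L hi hL => ?_⟩
  have hτ : 0 < Real.exp (-2 * i) := Real.exp_pos _
  have hτ1 : Real.exp (-2 * i) ≤ 1 := by
    rw [Real.exp_le_one_iff]
    linarith
  have hG : MeasurableSet {b : ℝ | ε * L + (C1 + 2 * K) <
      |rho (F.f 0 (pt b i)) (F.f 0 (pt b (i + L))) - L|} :=
    F.measSet (ι := Bool) (fun _ _ => 0) (fun c b => pt b (if c then i + L else i))
      (fun _ => measurable_const)
      (fun c => measurable_pt' measurable_id measurable_const)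
      (fun v => ε * L + (C1 + 2 * K) < |rho (v false).2 (v true).2 - L|)
  have h2 : {b : ℝ | b ∈ Icc (-2) 2 ∧
      ε * L + (C1 + 2 * K) < |rho (F.f 0 (pt b i)) (F.f 0 (pt b (i + L))) - L|} =
      {b : ℝ | ε * L + (C1 + 2 * K) <
        |rho (F.f 0 (pt b i)) (F.f 0 (pt b (i + L))) - L|} ∩ Icc (-2) 2 := by
    ext b
    exact And.comm
  rw [h2]
  have h3 : ε = 3 * (ε / 3) := by ring
  refine (f_avg hG hτ.le hτ1 (η := ε / 3) (by positivity) fun b0 => ?_).trans (by rw [← h3])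
  refine (measure_mono ?_).trans (h1 (F.tr 0 (fr b0 i)) L hL).2
  rintro β ⟨hβ, hb⟩
  have hb' : ε * L + (C1 + 2 * K) < |rho (F.f 0 (pt (b0 + β * Real.exp (-2 * i)) i))
      (F.f 0 (pt (b0 + β * Real.exp (-2 * i)) (i + L))) - L| := hb
  refine ⟨⟨by linarith [hβ.1], by linarith [hβ.2]⟩, ?_⟩
  have hact : (0 : V) + act (fr b0 i) 0 = 0 := by
    unfold act
    ext <;> simp
  have e1 : (F.tr 0 (fr b0 i)).f 0 (pt β L) =
      F.f 0 (pt (b0 + β * Real.exp (-2 * i)) (i + L)) := by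
    rw [QM.tr_f, hact, fr_smul]
  have e2 : (F.tr 0 (fr b0 i)).f 0 o = F.f 0 (pt b0 i) := by
    rw [QM.tr_f, hact]
    unfold o
    rw [fr_smul, zero_mul, add_zero, add_zero]
  rw [e1, e2]
  have hn := near_vert hK F 0 b0 (b0 + β * Real.exp (-2 * i)) i (by
    have h4 : |β| ≤ 1 := abs_le.2 ⟨hβ.1, hβ.2⟩
    have h5 : b0 - (b0 + β * Real.exp (-2 * i)) = -(β * Real.exp (-2 * i)) := by ring
    rw [h5, abs_neg, abs_mul, abs_of_pos hτ]
    exact mul_le_of_le_one_left hτ.le h4)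
  unfold rho at hn hb' ⊢
  have t1 := dist_triangle (F.f 0 (pt (b0 + β * Real.exp (-2 * i)) (i + L)))
    (F.f 0 (pt b0 i)) (F.f 0 (pt (b0 + β * Real.exp (-2 * i)) i))
  have t2 := dist_triangle (F.f 0 (pt (b0 + β * Real.exp (-2 * i)) (i + L)))
    (F.f 0 (pt (b0 + β * Real.exp (-2 * i)) i)) (F.f 0 (pt b0 i))
  rw [dist_comm (F.f 0 (pt (b0 + β * Real.exp (-2 * i)) i)) (F.f 0 (pt b0 i))] at t2
  rw [dist_comm (F.f 0 (pt (b0 + β * Real.exp (-2 * i)) i))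
    (F.f 0 (pt (b0 + β * Real.exp (-2 * i)) (i + L)))] at hb'
  have hεL : ε / 3 * L ≤ ε * L := by nlinarith [mul_nonneg hε.le hL]
  rcases lt_abs.1 hb' with h6 | h6
  · refine lt_abs.2 (Or.inl ?_)
    linarith
  · refine lt_abs.2 (Or.inr ?_)
    linarith

end Pool.Agent.FIB
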