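import Pool.Agent.FIB.FDefs

/-!
# (F1): `StS K → FUB K`

Take `C0` from `StS` for `ε`; the constant is `C = C0 + 2 K + 1`. Put `A = nm x (w - w')`,
`n = ⌈A⌉₊ + 1`, `w_k = w + (k / n) • (w' - w)` (`w_0 = w`, `w_n = w'`). `w_k - w_{k+1} = (1 / n) • (w - w')`, so
`nm x (w_k - w_{k+1}) ≤ 1` and `F.U_near`: `nm (F.f w_k x) (F.U w_{k+1} x - F.U w_k x) ≤ exp (2 K)`. `nm x (w - w_k) = (k/n) A ≤ A` for
`k ≤ n`, so `rho (F.f w x) (F.f w_k x) ≤ M := ε * log (1 + A) + C0` (`StS`). `inc_sum` (for `p k = F.f w_k x`, `U k = F.U w_k x`, `m = 0`,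
`z = F.f w x`): `nm z (U n - U 0) ≤ n * (exp (2 K) * exp M)`, and `n ≤ A + 2 ≤ 2 (1 + A) = 2 exp (log (1 + A))`, `2 ≤ exp 1`.
(`nm_sub_comm`.)
-/

set_option autoImplicit false

namespace Pool.Agent.FIB

open UpperHalfPlane MeasureTheory Set

theorem f_ub (K : ℝ) (hK : 1 ≤ K) (hS : StS K) : FUB K := by
  intro ε hε
  obtain ⟨C0, hC0, hC⟩ := hS ε hε
  have hK0 : (0 : ℝ) ≤ K := by linarith
  refine ⟨C0 + 2 * K + 1, by linarith, ?_⟩
  intro F w w' x
  obtain ⟨A, hA⟩ : ∃ A, A = nm x (w - w') := ⟨_, rfl⟩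
  have hA0 : 0 ≤ A := by rw [hA]; exact nm_nonneg _ _
  obtain ⟨n, hn⟩ : ∃ n : ℕ, n = ⌈A⌉₊ + 1 := ⟨_, rfl⟩
  have hn1 : A + 1 ≤ (n : ℝ) := by
    rw [hn]
    push_cast
    have := Nat.le_ceil A
    linarith
  have hn2 : (n : ℝ) ≤ A + 2 := by
    rw [hn]
    push_cast
    have := Nat.ceil_lt_add_one hA0
    linarith
  have hn0 : (0 : ℝ) < n := by linarith
  obtain ⟨W, hW⟩ : ∃ W : ℕ → V, W = fun k : ℕ => w + ((k : ℝ) / n) • (w' - w) := ⟨_, rfl⟩
  have hW0 : W 0 = w := by rw [hW]; simp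
  have hWn : W n = w' := by
    rw [hW]
    simp only
    rw [div_self hn0.ne', one_smul]
    abel
  have hstep : ∀ k : ℕ, nm x (W k - W (k + 1)) ≤ 1 := by
    intro k
    have h1 : W k - W (k + 1) = ((1 : ℝ) / n) • (w - w') := by
      rw [hW]
      simp only
      push_cast
      module
    rw [h1, nm_smul, ← hA, abs_of_pos (by positivity), one_div, inv_mul_le_iff₀ hn0]
    linarith
  have hdist : ∀ k : ℕ, k < n → rho (F.f w x) (F.f (W k) x) ≤ ε * Real.log (1 + A) + C0 := by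
    intro k hk
    have h1 : w - W k = ((k : ℝ) / n) • (w - w') := by
      rw [hW]
      simp only
      rw [sub_add_cancel_left, ← smul_neg, neg_sub]
    have h2 : nm x (w - W k) ≤ A := by
      rw [h1, nm_smul, ← hA, abs_of_nonneg (by positivity)]
      have h3 : (k : ℝ) / n ≤ 1 := by
        rw [div_le_one hn0]
        exact_mod_cast hk.le
      calc (k : ℝ) / n * A ≤ 1 * A := mul_le_mul_of_nonneg_right h3 hA0
        _ = A := one_mul A
    have h4 := hC F w (W k) x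
    have h5 : Real.log (1 + nm x (w - W k)) ≤ Real.log (1 + A) :=
      Real.log_le_log (by have := nm_nonneg x (w - W k); linarith) (by linarith)
    have h6 := mul_le_mul_of_nonneg_left h5 hε.le
    linarith
  have main := inc_sum (fun k => F.f (W k) x) (fun k => F.U (W k) x) 0 n (Real.exp (2 * K))
    (ε * Real.log (1 + A) + C0) (F.f w x) (Nat.zero_le n) ?_ ?_
  · rw [hWn, hW0, nm_sub_comm, Nat.cast_zero, sub_zero] at main
    rw [← hA]
    refine main.trans ?_
    have h1 : (n : ℝ) ≤ Real.exp (Real.log (1 + A) + 1) := by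
      rw [Real.exp_add, Real.exp_log (by linarith)]
      have h2 : (2 : ℝ) ≤ Real.exp 1 := by
        have := Real.add_one_le_exp (1 : ℝ)
        linarith
      nlinarith
    have h2 := mul_le_mul_of_nonneg_right h1
      (mul_pos (Real.exp_pos (2 * K)) (Real.exp_pos (ε * Real.log (1 + A) + C0))).le
    refine h2.trans ?_
    rw [← Real.exp_add, ← Real.exp_add]
    exact Real.exp_le_exp.2 (by linarith)
  · intro k _ _
    rw [nm_sub_comm]
    exact F.U_near hK0 (W k) (W (k + 1)) x (hstep k)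
  · intro k _ hk
    exact hdist k hk

end Pool.Agent.FIB
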