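import Pool.Agent.FIB.FDefs

/-!
# (F4) the vertical lower bound: `StS K → FUB K → FLB K → FVert K`

Reduction to `w = 0`, `b = 0`, `j = 0`: apply that case to `F.tr w (fr b j)` (`fr_smul`, `act _ 0 = 0`, `o = pt 0 0`).
Given `ε`, `ε' = min ε 1 / (4 * K)`, constants `CS`, `CU`, `CL` of `StS`, `FUB`, `FLB` for `ε'`. Let `L ≥ 0`, `r = K * L`, `v = exp r • e1`, `t = F.f 0 o`,
`T = F.f 0 (pt 0 L)`, `X = F.U 0 o - F.U v o`, `Y = F.U 0 (pt 0 L) - F.U v (pt 0 L)`. `nm o v = exp r`, `nm (pt 0 L) v = exp (r + L)` (`nm_pt_e1`).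
* `nm t X ≤ exp ((1 + ε') * (r + 1) + CU)` (`log (1 + exp r) ≤ r + 1`);
* `nm t (F.U 0 o - F.U 0 (pt 0 L)) ≤ exp (K L + K)`, `nm (F.f v o) (F.U v o - F.U v (pt 0 L)) ≤ exp (K L + K)` (`F.U_vert`), `rho t (F.f v o) ≤ ε' * (r + 1) + CS`, so
  (`nm_le`) `nm t (X - Y) ≤ 2 * exp (K L + K + ε' * (r + 1) + CS)`, where `K L = r`. Hence `nm t Y ≤ exp ((1 + ε') * r + C1)`, `C1 = CU + K + CS + 6`;
* `nm T Y ≤ exp (rho t T) * nm t Y`, so `log (1 + nm T Y) ≤ 1 + rho t T + (1 + ε') * r + C1`;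
* `FLB` at `pt 0 L`: `(1 - ε') * (r + L) - CL ≤ log (1 + nm T Y)`.
So `rho t T ≥ (1 - ε') * L - 2 * ε' * r - C1 - CL - 1 ≥ (1 - ε) * L - C` as `ε' + 2 * ε' * K ≤ ε`.
-/

set_option autoImplicit false

namespace Pool.Agent.FIB

open UpperHalfPlane MeasureTheory Set

private lemma FVer_log (a : ℝ) (ha : 0 ≤ a) : Real.log (1 + Real.exp a) ≤ a + 1 := by
  have h1 : 1 ≤ Real.exp a := Real.one_le_exp ha
  have h2 : (2 : ℝ) ≤ Real.exp 1 := by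
    have := Real.add_one_le_exp (1 : ℝ)
    linarith
  have h3 : 1 + Real.exp a ≤ Real.exp (a + 1) := by
    rw [Real.exp_add]
    nlinarith
  exact (Real.log_le_iff_le_exp (by linarith)).2 h3

private lemma FVer_base (K : ℝ) (hK : 1 ≤ K) (hS : StS K) (hU : FUB K) (hL : FLB K)
    (ε : ℝ) (hε : 0 < ε) : ∃ C : ℝ, 0 < C ∧ ∀ (F : QM K) (L : ℝ), 0 ≤ L →
    (1 - ε) * L - C ≤ rho (F.f 0 (pt 0 0)) (F.f 0 (pt 0 L)) := by
  have hK0 : (0 : ℝ) < K := by linarith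
  obtain ⟨ε', hε'⟩ : ∃ ε', ε' = min ε 1 / (4 * K) := ⟨_, rfl⟩
  have hm : 0 < min ε 1 := lt_min hε one_pos
  have hε'0 : 0 < ε' := by rw [hε']; positivity
  have h4 : 4 * K * ε' = min ε 1 := by
    rw [hε']
    field_simp
  have h4a : 4 * K * ε' ≤ ε := by rw [h4]; exact min_le_left _ _
  have h4b : 4 * K * ε' ≤ 1 := by rw [h4]; exact min_le_right _ _
  have h4c : 4 * ε' ≤ 4 * K * ε' := by nlinarith
  have hε'1 : ε' ≤ 1 / 4 := by linarith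
  obtain ⟨CS, hCS, hS1⟩ := hS ε' hε'0
  obtain ⟨CU, hCU, hU1⟩ := hU ε' hε'0
  obtain ⟨CL, hCL, hL1⟩ := hL ε' hε'0
  refine ⟨CU + K + CS + CL + 5, by linarith, ?_⟩
  intro F L hL0
  obtain ⟨r, hr⟩ : ∃ r, r = K * L := ⟨_, rfl⟩
  have hr0 : 0 ≤ r := by rw [hr]; positivity
  obtain ⟨v, hv⟩ : ∃ v : V, v = Real.exp r • e1 := ⟨_, rfl⟩
  have hnm0 : nm (pt 0 0) (0 - v) = Real.exp r := by
    rw [zero_sub, nm_neg, hv, nm_pt_e1, abs_of_pos (Real.exp_pos _), Real.exp_zero, mul_one]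
  have hnmL : nm (pt 0 L) (0 - v) = Real.exp (r + L) := by
    rw [zero_sub, nm_neg, hv, nm_pt_e1, abs_of_pos (Real.exp_pos _), Real.exp_add]
  have hl0 := FVer_log r hr0
  -- the three vectors
  have hX := hU1 F 0 v (pt 0 0)
  rw [hnm0] at hX
  have hX' : nm (F.f 0 (pt 0 0)) (F.U 0 (pt 0 0) - F.U v (pt 0 0)) ≤
      Real.exp ((1 + ε') * r + (CU + K + CS + 2)) := by
    refine hX.trans (Real.exp_le_exp.2 ?_)
    have := mul_le_mul_of_nonneg_left hl0 (by linarith : (0 : ℝ) ≤ 1 + ε')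
    nlinarith
  have hrk : K * |0 - L| + K = r + K := by
    rw [zero_sub, abs_neg, abs_of_nonneg hL0, hr]
  have hA := F.U_vert 0 0 0 L
  have hB := F.U_vert v 0 0 L
  rw [hrk] at hA hB
  have hA' : nm (F.f 0 (pt 0 0)) (F.U 0 (pt 0 0) - F.U 0 (pt 0 L)) ≤
      Real.exp ((1 + ε') * r + (CU + K + CS + 2)) := by
    refine hA.trans (Real.exp_le_exp.2 ?_)
    have := mul_nonneg hε'0.le hr0
    nlinarith
  have hsub := hS1 F 0 v (pt 0 0)
  rw [hnm0] at hsub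
  have hB1 := nm_le (F.f v (pt 0 0)) (F.f 0 (pt 0 0)) (F.U v (pt 0 0) - F.U v (pt 0 L))
  have hB' : nm (F.f 0 (pt 0 0)) (F.U v (pt 0 0) - F.U v (pt 0 L)) ≤
      Real.exp ((1 + ε') * r + (CU + K + CS + 2)) := by
    refine hB1.trans ?_
    refine (mul_le_mul_of_nonneg_left hB (Real.exp_pos _).le).trans ?_
    rw [← Real.exp_add]
    refine Real.exp_le_exp.2 ?_
    rw [rho_comm]
    have := mul_le_mul_of_nonneg_left hl0 hε'0.le
    nlinarith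
  have hY : nm (F.f 0 (pt 0 0)) (F.U 0 (pt 0 L) - F.U v (pt 0 L)) ≤
      Real.exp ((1 + ε') * r + (CU + K + CS + 4)) := by
    have e1 : F.U 0 (pt 0 L) - F.U v (pt 0 L) =
        (F.U 0 (pt 0 0) - F.U v (pt 0 0)) - (F.U 0 (pt 0 0) - F.U 0 (pt 0 L)) +
          (F.U v (pt 0 0) - F.U v (pt 0 L)) := by abel
    rw [e1]
    have h1 := nm_add_le (F.f 0 (pt 0 0))
      ((F.U 0 (pt 0 0) - F.U v (pt 0 0)) - (F.U 0 (pt 0 0) - F.U 0 (pt 0 L)))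
      (F.U v (pt 0 0) - F.U v (pt 0 L))
    have h2 := nm_sub_le (F.f 0 (pt 0 0)) (F.U 0 (pt 0 0) - F.U v (pt 0 0))
      (F.U 0 (pt 0 0) - F.U 0 (pt 0 L))
    have h3 : (1 + ε') * r + (CU + K + CS + 4) = (1 + ε') * r + (CU + K + CS + 2) + 2 := by ring
    rw [h3, Real.exp_add _ 2]
    have h5 : (3 : ℝ) ≤ Real.exp 2 := by
      have := Real.add_one_le_exp (2 : ℝ)
      linarith
    have h6 := Real.exp_pos ((1 + ε') * r + (CU + K + CS + 2))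
    nlinarith
  have hT := nm_le (F.f 0 (pt 0 0)) (F.f 0 (pt 0 L)) (F.U 0 (pt 0 L) - F.U v (pt 0 L))
  have hρ := rho_nonneg (F.f 0 (pt 0 0)) (F.f 0 (pt 0 L))
  obtain ⟨ρ, hρe⟩ : ∃ ρ, ρ = rho (F.f 0 (pt 0 0)) (F.f 0 (pt 0 L)) := ⟨_, rfl⟩
  rw [← hρe] at hT hρ ⊢
  have hT' : nm (F.f 0 (pt 0 L)) (F.U 0 (pt 0 L) - F.U v (pt 0 L)) ≤
      Real.exp (ρ + ((1 + ε') * r + (CU + K + CS + 4))) := by
    refine hT.trans ?_
    rw [Real.exp_add ρ]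
    exact mul_le_mul_of_nonneg_left hY (Real.exp_pos _).le
  have hnn := nm_nonneg (F.f 0 (pt 0 L)) (F.U 0 (pt 0 L) - F.U v (pt 0 L))
  have hlog1 : Real.log (1 + nm (F.f 0 (pt 0 L)) (F.U 0 (pt 0 L) - F.U v (pt 0 L))) ≤
      ρ + ((1 + ε') * r + (CU + K + CS + 4)) + 1 := by
    refine (Real.log_le_log (by linarith) (by linarith)).trans (FVer_log _ ?_)
    have := mul_nonneg hε'0.le hr0
    nlinarith
  have hlow := hL1 F 0 v (pt 0 L)
  rw [hnmL] at hlow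
  have hlog2 : r + L ≤ Real.log (1 + Real.exp (r + L)) := by
    have h1 : Real.log (Real.exp (r + L)) ≤ Real.log (1 + Real.exp (r + L)) :=
      Real.log_le_log (Real.exp_pos _) (by linarith)
    rwa [Real.log_exp] at h1
  have hlog3 := mul_le_mul_of_nonneg_left hlog2 (by linarith : (0 : ℝ) ≤ 1 - ε')
  have h7 : 4 * K * ε' * L ≤ ε * L := mul_le_mul_of_nonneg_right h4a hL0
  have h8 : 4 * ε' * L ≤ 4 * K * ε' * L := mul_le_mul_of_nonneg_right h4c hL0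
  have h9 : ε' * r = K * ε' * L := by rw [hr]; ring
  have h10 : 0 ≤ ε' * L := mul_nonneg hε'0.le hL0
  have e2 : (1 - ε') * (r + L) = r + L - ε' * r - ε' * L := by ring
  have e3 : (1 + ε') * r = r + ε' * r := by ring
  have e4 : (1 - ε) * L = L - ε * L := by ring
  rw [e4]
  rw [e2] at hlog3
  rw [e3] at hlog1
  linarith only [hlog1, hlow, hlog3, h7, h8, h9, h10]

theorem f_ver (K : ℝ) (hK : 1 ≤ K) (hS : StS K) (hU : FUB K) (hL : FLB K) : FVert K := by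
  intro ε hε
  obtain ⟨C, hC, h⟩ := FVer_base K hK hS hU hL ε hε
  refine ⟨C, hC, ?_⟩
  intro F w b j L hL0
  have h1 := h (F.tr w (fr b j)) L hL0
  have ha0 : act (fr b j) 0 = 0 := by
    have := act_smul (fr b j) 0 0
    rwa [zero_smul, zero_smul] at this
  rw [QM.tr_f, QM.tr_f, fr_smul, fr_smul, ha0, add_zero, zero_mul, add_zero, add_zero] at h1
  exact h1

end Pool.Agent.FIB
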