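import Pool.Agent.FIB.Hyp

/-!
# The four point inequalities

Proofs. `UpperHalfPlane.sinh_half_dist`: `sinh (rho x y) = |x - y| / (2 √(im x im y))`.
* `ptolemy`: Ptolemy's inequality in the Euclidean plane `|x - z||y - w| ≤ |x - y||z - w| + |y - z||x - w|`
  (it is the triangle inequality for the identity
  `(x - z)(y - w) = (x - y)(z - w) + (y - z)(x - w)` of complex numbers), divided by
  `4 √(im x im y im z im w)`.
* `fourpt`: put `M = max (rho x y + rho z w) (rho y z + rho x w)`. By symmetry in the two factors of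
  the left side. If `rho x z ≥ 1` and `rho y w ≥ 1`: `sinh a ≥ 0.43 e^a` for `a ≥ 1` and
  `sinh c ≤ e^c / 2`, so `0.18 e^{rho x z + rho y w} ≤ e^M / 2` and
  `rho x z + rho y w ≤ M + log 2.8 ≤ M + 1.04`; to get the constant `1` use `0.4323 e^a ≤ sinh a`
  (`(1 - e^{-2})/2 = 0.4323`), `0.5 / 0.4323^2 = 2.676 < e`. If `rho x z < 1`: the triangle
  inequality gives `2 rho y w ≤ (rho y x + rho x w) + (rho y z + rho z w) ≤ 2 M`, so the left side is
  at most `1 + M`; same if `rho y w < 1`.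
* `four_vec_sinh`: Ptolemy for the three points `x, y, z` and the real number `v.1 / v.2` (or, to
  avoid division, the identity `(x - z)(p - y q) = (x - y)(p - z q) + (y - z)(p - x q)` for the
  complex numbers `p = v.1`, `q = v.2`), with `nm_eq`.
* `four_vec`: if `rho x z ≥ 1`, from `four_vec_sinh`, `e^a ≤ sinh a / 0.43` and
  `sinh c ≤ e^c / 2`. If `rho x z < 1`: `nm y v ≤ e^{rho x y} nm x v` and
  `nm y v ≤ e^{rho y z} nm z v` (`nm_le`), so `nm y v ^ 2 ≤ (e^{rho x y} nm z v) (e^{rho y z} nm x v)`, and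
  `√(ab) ≤ (a + b)/2`; `e < 4`.
* `four_vec_or`: from `four_vec`.
-/

set_option autoImplicit false

namespace Pool.Agent.FIB

open UpperHalfPlane

private theorem sinh_rho (x y : ℍ) :
    Real.sinh (rho x y) = ‖(x : ℂ) - y‖ / (2 * (√x.im * √y.im)) := by
  unfold rho
  rw [UpperHalfPlane.sinh_half_dist, Real.sqrt_mul x.im_pos.le, Complex.dist_eq]

private theorem sinh_le (a : ℝ) : Real.sinh a ≤ Real.exp a / 2 := by
  rw [Real.sinh_eq]
  have := Real.exp_pos (-a)
  linarith

private theorem mul_sinh_le {a b M : ℝ} (_ : 0 ≤ a) (hb : 0 ≤ b) (h : a + b ≤ M) :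
    Real.sinh a * Real.sinh b ≤ Real.exp M / 4 := by
  have h1 := sinh_le a
  have h2 := sinh_le b
  have h3 : Real.sinh a * Real.sinh b ≤ (Real.exp a / 2) * (Real.exp b / 2) :=
    mul_le_mul h1 h2 (Real.sinh_nonneg_iff.2 hb) (by positivity)
  have h4 : (Real.exp a / 2) * (Real.exp b / 2) = Real.exp (a + b) / 4 := by
    rw [Real.exp_add]
    ring
  have h5 : Real.exp (a + b) ≤ Real.exp M := Real.exp_le_exp.2 h
  linarith

private theorem le_sinh {a : ℝ} (ha : 1 ≤ a) : 0.4323 * Real.exp a ≤ Real.sinh a := by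
  rw [Real.sinh_eq]
  have h0 := Real.exp_one_gt_d9
  have h1 : Real.exp 1 ≤ Real.exp a := Real.exp_le_exp.2 ha
  have h2 : Real.exp (-a) * Real.exp a = 1 := by rw [← Real.exp_add]; simp
  have h3 := Real.exp_pos (-a)
  have h4 := Real.exp_pos a
  -- `exp (-a) ≤ 0.1354 * exp a`
  have h5 : (2.7182818283 : ℝ) * 2.7182818283 ≤ Real.exp a * Real.exp a :=
    mul_le_mul (by linarith) (by linarith) (by norm_num) h4.le
  have h6 : Real.exp (-a) * ((2.7182818283 : ℝ) * 2.7182818283) ≤ Real.exp a := by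
    have h7 := mul_le_mul_of_nonneg_left h5 h3.le
    have h8 : Real.exp (-a) * (Real.exp a * Real.exp a) = Real.exp a := by
      rw [← mul_assoc, h2, one_mul]
    rw [h8] at h7
    exact h7
  norm_num at h6 ⊢
  linarith

theorem ptolemy (x y z w : ℍ) :
    Real.sinh (rho x z) * Real.sinh (rho y w) ≤
      Real.sinh (rho x y) * Real.sinh (rho z w) + Real.sinh (rho y z) * Real.sinh (rho x w) := by
  have ha := Real.sqrt_pos.2 x.im_pos
  have hb := Real.sqrt_pos.2 y.im_pos
  have hc := Real.sqrt_pos.2 z.im_pos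
  have hd := Real.sqrt_pos.2 w.im_pos
  rw [sinh_rho x z, sinh_rho y w, sinh_rho x y, sinh_rho z w, sinh_rho y z, sinh_rho x w]
  have e1 : ‖(x : ℂ) - z‖ / (2 * (√x.im * √z.im)) * (‖(y : ℂ) - w‖ / (2 * (√y.im * √w.im))) =
      ‖(x : ℂ) - z‖ * ‖(y : ℂ) - w‖ / (4 * (√x.im * √y.im * √z.im * √w.im)) := by
    field_simp
    ring
  have e2 : ‖(x : ℂ) - y‖ / (2 * (√x.im * √y.im)) * (‖(z : ℂ) - w‖ / (2 * (√z.im * √w.im))) =
      ‖(x : ℂ) - y‖ * ‖(z : ℂ) - w‖ / (4 * (√x.im * √y.im * √z.im * √w.im)) := by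
    field_simp
    ring
  have e3 : ‖(y : ℂ) - z‖ / (2 * (√y.im * √z.im)) * (‖(x : ℂ) - w‖ / (2 * (√x.im * √w.im))) =
      ‖(y : ℂ) - z‖ * ‖(x : ℂ) - w‖ / (4 * (√x.im * √y.im * √z.im * √w.im)) := by
    field_simp
    ring
  rw [e1, e2, e3, ← add_div]
  refine div_le_div_of_nonneg_right ?_ (by positivity)
  rw [← norm_mul, ← norm_mul, ← norm_mul]
  have e4 : ((x : ℂ) - z) * (y - w) = (x - y) * (z - w) + (y - z) * (x - w) := by ring
  rw [e4]
  exact norm_add_le _ _

theorem fourpt (x y z w : ℍ) :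
    rho x z + rho y w ≤ max (rho x y + rho z w) (rho y z + rho x w) + 1 := by
  obtain ⟨M, hM⟩ : ∃ M, M = max (rho x y + rho z w) (rho y z + rho x w) := ⟨_, rfl⟩
  rw [← hM]
  have hM1 : rho x y + rho z w ≤ M := by rw [hM]; exact le_max_left _ _
  have hM2 : rho y z + rho x w ≤ M := by rw [hM]; exact le_max_right _ _
  by_cases h1 : 1 ≤ rho x z
  · by_cases h2 : 1 ≤ rho y w
    · have h3 := ptolemy x y z w
      have h4 := mul_sinh_le (rho_nonneg x y) (rho_nonneg z w) hM1
      have h5 := mul_sinh_le (rho_nonneg y z) (rho_nonneg x w) hM2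
      have h6 := le_sinh h1
      have h7 := le_sinh h2
      have h8 : (0.4323 * Real.exp (rho x z)) * (0.4323 * Real.exp (rho y w)) ≤
          Real.sinh (rho x z) * Real.sinh (rho y w) :=
        mul_le_mul h6 h7 (by positivity) (le_trans (by positivity) h6)
      have h9 : (0.4323 * Real.exp (rho x z)) * (0.4323 * Real.exp (rho y w)) =
          0.18688329 * Real.exp (rho x z + rho y w) := by
        rw [Real.exp_add]
        ring
      have h10 := Real.exp_one_gt_d9
      have h11 : Real.exp (rho x z + rho y w) ≤ Real.exp (M + 1) := by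
        rw [Real.exp_add M 1]
        have h12 : Real.exp M * 2.7182818283 ≤ Real.exp M * Real.exp 1 :=
          mul_le_mul_of_nonneg_left h10.le (Real.exp_pos _).le
        have h13 := Real.exp_pos M
        rw [h9] at h8
        linarith
      exact Real.exp_le_exp.1 h11
    · have h3 := rho_triangle x y z
      have h4 := rho_triangle x w z
      rw [rho_comm w z] at h4
      linarith
  · have h3 := rho_triangle y x w
    have h4 := rho_triangle y z w
    rw [rho_comm y x] at h3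
    linarith

theorem four_vec_sinh (x y z : ℍ) (v : V) :
    Real.sinh (rho x z) * nm y v ≤
      Real.sinh (rho x y) * nm z v + Real.sinh (rho y z) * nm x v := by
  have ha := Real.sqrt_pos.2 x.im_pos
  have hb := Real.sqrt_pos.2 y.im_pos
  have hc := Real.sqrt_pos.2 z.im_pos
  rw [sinh_rho x z, sinh_rho x y, sinh_rho y z, nm_eq x v, nm_eq y v, nm_eq z v]
  have e1 : ‖(x : ℂ) - z‖ / (2 * (√x.im * √z.im)) * (‖(v.1 : ℂ) - y * v.2‖ / √y.im) =
      ‖(x : ℂ) - z‖ * ‖(v.1 : ℂ) - y * v.2‖ / (2 * (√x.im * √y.im * √z.im)) := by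
    field_simp
  have e2 : ‖(x : ℂ) - y‖ / (2 * (√x.im * √y.im)) * (‖(v.1 : ℂ) - z * v.2‖ / √z.im) =
      ‖(x : ℂ) - y‖ * ‖(v.1 : ℂ) - z * v.2‖ / (2 * (√x.im * √y.im * √z.im)) := by
    field_simp
  have e3 : ‖(y : ℂ) - z‖ / (2 * (√y.im * √z.im)) * (‖(v.1 : ℂ) - x * v.2‖ / √x.im) =
      ‖(y : ℂ) - z‖ * ‖(v.1 : ℂ) - x * v.2‖ / (2 * (√x.im * √y.im * √z.im)) := by
    field_simp
  rw [e1, e2, e3, ← add_div]
  refine div_le_div_of_nonneg_right ?_ (by positivity)
  rw [← norm_mul, ← norm_mul, ← norm_mul]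
  have e4 : ((x : ℂ) - z) * (v.1 - y * v.2) =
      (x - y) * (v.1 - z * v.2) + (y - z) * (v.1 - x * v.2) := by ring
  rw [e4]
  exact norm_add_le _ _

theorem four_vec (x y z : ℍ) (v : V) :
    Real.exp (rho x z) * nm y v ≤
      2 * (Real.exp (rho x y) * nm z v + Real.exp (rho y z) * nm x v) := by
  have hx := nm_nonneg x v
  have hy := nm_nonneg y v
  have hz := nm_nonneg z v
  by_cases h1 : 1 ≤ rho x z
  · have h2 := le_sinh h1
    have h3 := four_vec_sinh x y z v
    have h4 : Real.exp (rho x z) ≤ 4 * Real.sinh (rho x z) := by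
      have := Real.exp_pos (rho x z)
      linarith
    have h5 := mul_le_mul_of_nonneg_right h4 hy
    have h6 := mul_le_mul_of_nonneg_right (sinh_le (rho x y)) hz
    have h7 := mul_le_mul_of_nonneg_right (sinh_le (rho y z)) hx
    linarith
  · have h2 : Real.exp (rho x z) ≤ 4 := by
      have h3 : Real.exp (rho x z) ≤ Real.exp 1 := Real.exp_le_exp.2 (not_le.1 h1).le
      have := Real.exp_one_lt_d9
      linarith
    have h3 := nm_le x y v
    have h4 := nm_le z y v
    rw [rho_comm z y] at h4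
    obtain ⟨A, hA⟩ : ∃ A, A = Real.exp (rho x y) * nm z v := ⟨_, rfl⟩
    obtain ⟨B, hB⟩ : ∃ B, B = Real.exp (rho y z) * nm x v := ⟨_, rfl⟩
    have hA0 : 0 ≤ A := by rw [hA]; positivity
    have hB0 : 0 ≤ B := by rw [hB]; positivity
    have h5 : nm y v * nm y v ≤ A * B := by
      have h6 := mul_le_mul h3 h4 hy (by positivity)
      rw [hA, hB]
      linarith
    rw [← hA, ← hB]
    have h6 : nm y v ≤ (A + B) / 2 := by
      by_contra hcon
      rw [not_le] at hcon
      have h7 : ((A + B) / 2) * ((A + B) / 2) < nm y v * nm y v :=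
        mul_self_lt_mul_self (by positivity) hcon
      nlinarith [sq_nonneg (A - B)]
    have h7 := mul_le_mul_of_nonneg_right h2 hy
    linarith

theorem four_vec_or (x y z : ℍ) (v : V) :
    Real.exp (rho x z) * nm y v ≤ 4 * (Real.exp (rho x y) * nm z v) ∨
      Real.exp (rho x z) * nm y v ≤ 4 * (Real.exp (rho y z) * nm x v) := by
  have h := four_vec x y z v
  rcases le_total (Real.exp (rho x y) * nm z v) (Real.exp (rho y z) * nm x v) with h1 | h1
  · right
    linarith
  · left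
    linarith

end Pool.Agent.FIB
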