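import Pool.Agent.FIB.Defs

/-!
# Basic facts on `rho`, `nm`, `pt`, the frames and the action

Proofs.
* `rho` is half of `dist`.
* `nm x v = ‖(v.1 : ℂ) - x * v.2‖ / √(im x)` (`nm_eq`), hence a norm; write `p = v.1`, `q = v.2`.
* `nm_le` (`nm y v ≤ exp (rho x y) * nm x v`): if `v.2 = 0` then `nm x v = |v.1|/√(im x)` and
  `im x ≤ im y * exp (dist x y)` (`UpperHalfPlane.im_le_im_mul_exp_dist`). If `v.2 ≠ 0` use
  invariance, or: `‖p - y q‖ ≤ ‖p - x q‖ + ‖x - y‖ |q|`, `|q| im x ≤ ‖p - x q‖`, so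
  `‖p - y q‖ ≤ ‖p - x q‖ (1 + ‖x - y‖ / im x)`; a clean way to the sharp constant is the exact
  formula `nm y v ^ 2 ≤ exp (2 * rho x y) * nm x v ^ 2`: by `nm_act` and transitivity one may take
  `x = i`; then it says `|p - y q|^2 ≤ (im y) exp (dist i y) (p^2 + q^2)`, and
  `|p - y q|^2 / im y` is a quadratic form of determinant `1` and trace `(1 + |y|^2)/im y
  = 2 cosh (dist i y)` (`UpperHalfPlane.cosh_dist`), so its largest eigenvalue is `exp (dist i y)`.
  Without transitivity: for general `x, y` and `(p, q)` prove the polynomial inequality directly, or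
  use the frame `fr x.re (-log x.im / 2)`, which maps `o` to `x` (`pt_re_im`, `fr_smul`).
* `nm_act`: `im (g • x) = im x / |c x + d|^2` (`UpperHalfPlane.im_smul_eq_div_normSq` or the
  `SL(2,ℝ)` versions) and `(a p + b q) - (g • x)(c p + d q) = (p - x q)/(c x + d)` as
  `ad - bc = 1`.
* `rho_pt`: `UpperHalfPlane.dist_of_re_eq`; `rho_pt_b`: `UpperHalfPlane.dist_le_dist_coe_div_sqrt`.
* `le_rho_pt`: `sinh (rho x y) = |x - y| / (2 √(im x im y)) ≥ |b - b'| e^{j + j'} / 2` and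
  `sinh r ≤ e^r / 2`.
* `fr_smul`, `act_fr_*`: direct computation with the Möbius action of an upper triangular matrix.
-/

set_option autoImplicit false

namespace Pool.Agent.FIB

open UpperHalfPlane
open scoped MatrixGroups

theorem rho_self (x : ℍ) : rho x x = 0 := by
  simp [rho]

theorem rho_comm (x y : ℍ) : rho x y = rho y x := by
  simp [rho, dist_comm]

theorem rho_nonneg (x y : ℍ) : 0 ≤ rho x y := by
  unfold rho
  positivity

theorem rho_triangle (x y z : ℍ) : rho x z ≤ rho x y + rho y z := by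
  unfold rho
  have h := dist_triangle x y z
  linarith

theorem nm_nonneg (x : ℍ) (v : V) : 0 ≤ nm x v := by
  exact Real.sqrt_nonneg _

theorem nm_eq (x : ℍ) (v : V) :
    nm x v = ‖(v.1 : ℂ) - (x : ℂ) * (v.2 : ℂ)‖ / Real.sqrt x.im := by
  unfold nm
  have hx : (0 : ℝ) < x.im := x.im_pos
  rw [Real.sqrt_div (by positivity)]
  congr 1
  rw [← Real.sqrt_sq (norm_nonneg ((v.1 : ℂ) - (x : ℂ) * (v.2 : ℂ)))]
  congr 1
  rw [Complex.sq_norm, Complex.normSq_apply]
  simp only [Complex.sub_re, Complex.sub_im, Complex.ofReal_re, Complex.ofReal_im, Complex.mul_re,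
    Complex.mul_im, UpperHalfPlane.coe_re, UpperHalfPlane.coe_im]
  ring

theorem nm_zero (x : ℍ) : nm x 0 = 0 := by
  simp [nm]

theorem nm_pos {x : ℍ} {v : V} (h : v ≠ 0) : 0 < nm x v := by
  unfold nm
  apply Real.sqrt_pos.2
  have hx : (0 : ℝ) < x.im := x.im_pos
  refine div_pos ?_ hx
  by_cases h2 : v.2 = 0
  · have h1 : v.1 ≠ 0 := by
      intro h1
      exact h (Prod.ext h1 h2)
    rw [h2]
    have : 0 < v.1 ^ 2 := by positivity
    nlinarith
  · have : 0 < (x.im * v.2) ^ 2 := by positivity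
    nlinarith [sq_nonneg (v.1 - x.re * v.2)]

theorem nm_neg (x : ℍ) (v : V) : nm x (-v) = nm x v := by
  unfold nm
  congr 1
  simp only [Prod.fst_neg, Prod.snd_neg]
  ring

theorem nm_sub_comm (x : ℍ) (v w : V) : nm x (v - w) = nm x (w - v) := by
  rw [← nm_neg x (w - v), neg_sub]

theorem nm_smul (x : ℍ) (c : ℝ) (v : V) : nm x (c • v) = |c| * nm x v := by
  unfold nm
  simp only [Prod.smul_fst, Prod.smul_snd, smul_eq_mul]
  rw [← Real.sqrt_sq_eq_abs, ← Real.sqrt_mul (sq_nonneg c)]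
  congr 1
  ring

theorem nm_add_le (x : ℍ) (v w : V) : nm x (v + w) ≤ nm x v + nm x w := by
  rw [nm_eq, nm_eq, nm_eq, ← add_div]
  refine div_le_div_of_nonneg_right ?_ (Real.sqrt_nonneg _)
  refine le_trans (le_of_eq ?_) (norm_add_le _ _)
  congr 1
  simp only [Prod.fst_add, Prod.snd_add, Complex.ofReal_add]
  ring

theorem nm_sub_le (x : ℍ) (v w : V) : nm x (v - w) ≤ nm x v + nm x w := by
  rw [sub_eq_add_neg, ← nm_neg x w]
  exact nm_add_le x v (-w)

theorem nm_sub_le' (x : ℍ) (u v w : V) : nm x (u - w) ≤ nm x (u - v) + nm x (v - w) := by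
  have h := nm_add_le x (u - v) (v - w)
  rwa [sub_add_sub_cancel] at h

theorem rho_smul (g : SL(2, ℝ)) (x y : ℍ) : rho (g • x) (g • y) = rho x y := by
  unfold rho
  rw [dist_smul]

theorem nm_act (g : SL(2, ℝ)) (x : ℍ) (v : V) : nm (g • x) (act g v) = nm x v := by
  have hdet : g 0 0 * g 1 1 - g 0 1 * g 1 0 = 1 := by
    have h := g.det_coe
    rw [Matrix.det_fin_two] at h
    exact h
  have hx : (0 : ℝ) < x.im := x.im_pos
  have hc : (↑(g • x) : ℂ) = (((g 0 0 : ℝ) : ℂ) * x + ((g 0 1 : ℝ) : ℂ)) /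
      (((g 1 0 : ℝ) : ℂ) * x + ((g 1 1 : ℝ) : ℂ)) := by
    rw [coe_specialLinearGroup_apply]
    simp
  set D : ℂ := ((g 1 0 : ℝ) : ℂ) * x + ((g 1 1 : ℝ) : ℂ) with hD
  have hDre : D.re = g 1 0 * x.re + g 1 1 := by simp [hD]
  have hDim : D.im = g 1 0 * x.im := by simp [hD]
  have hD0 : D ≠ 0 := by
    intro h0
    rw [h0] at hDre hDim
    simp only [Complex.zero_re, Complex.zero_im] at hDre hDim
    have h1 : g 1 0 = 0 := by
      rcases mul_eq_zero.1 hDim.symm with h | h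
      · exact h
      · exact absurd h hx.ne'
    rw [h1] at hDre hdet
    have h2 : g 1 1 = 0 := by linarith
    rw [h2] at hdet
    norm_num at hdet
  have hN : 0 < ‖D‖ := norm_pos_iff.2 hD0
  have him : (g • x).im = x.im / ‖D‖ ^ 2 := by
    have h1 : (g • x).im = (↑(g • x) : ℂ).im := rfl
    have hns : Complex.normSq D = ‖D‖ ^ 2 := (Complex.sq_norm D).symm
    rw [h1, hc, Complex.div_im, hns, hDre, hDim]
    simp only [Complex.add_im, Complex.add_re, Complex.mul_im, Complex.mul_re, Complex.ofReal_re,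
      Complex.ofReal_im, UpperHalfPlane.coe_re, UpperHalfPlane.coe_im]
    rw [← sub_div]
    congr 1
    linear_combination x.im * hdet
  have hdetC : ((g 0 0 : ℝ) : ℂ) * ((g 1 1 : ℝ) : ℂ) - ((g 0 1 : ℝ) : ℂ) * ((g 1 0 : ℝ) : ℂ) = 1 := by
    exact_mod_cast hdet
  have hkey : (((act g v).1 : ℝ) : ℂ) - (↑(g • x) : ℂ) * (((act g v).2 : ℝ) : ℂ) =
      ((v.1 : ℂ) - (x : ℂ) * (v.2 : ℂ)) / D := by
    rw [hc, eq_div_iff hD0]
    have e1' : (((((g 0 0 : ℝ) : ℂ) * x + ((g 0 1 : ℝ) : ℂ)) / D)) * D =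
      ((g 0 0 : ℝ) : ℂ) * x + ((g 0 1 : ℝ) : ℂ) := div_mul_cancel₀ _ hD0
    unfold act
    simp only [Complex.ofReal_add, Complex.ofReal_mul]
    have e2 : (((g 0 0 : ℝ) : ℂ) * (v.1 : ℂ) + ((g 0 1 : ℝ) : ℂ) * (v.2 : ℂ) -
        (((g 0 0 : ℝ) : ℂ) * x + ((g 0 1 : ℝ) : ℂ)) / D *
          (((g 1 0 : ℝ) : ℂ) * (v.1 : ℂ) + ((g 1 1 : ℝ) : ℂ) * (v.2 : ℂ))) * D =
        (((g 0 0 : ℝ) : ℂ) * (v.1 : ℂ) + ((g 0 1 : ℝ) : ℂ) * (v.2 : ℂ)) * D -
        (((((g 0 0 : ℝ) : ℂ) * x + ((g 0 1 : ℝ) : ℂ)) / D) * D) *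
          (((g 1 0 : ℝ) : ℂ) * (v.1 : ℂ) + ((g 1 1 : ℝ) : ℂ) * (v.2 : ℂ)) := by ring
    rw [e2, e1', hD]
    linear_combination ((v.1 : ℂ) - (x : ℂ) * (v.2 : ℂ)) * hdetC
  rw [nm_eq, nm_eq, hkey, him, norm_div, Real.sqrt_div hx.le, Real.sqrt_sq hN.le]
  have hs : 0 < Real.sqrt x.im := Real.sqrt_pos.2 hx
  field_simp

theorem act_add (g : SL(2, ℝ)) (v w : V) : act g (v + w) = act g v + act g w := by
  ext <;> simp only [act, Prod.fst_add, Prod.snd_add] <;> ring

theorem act_sub (g : SL(2, ℝ)) (v w : V) : act g (v - w) = act g v - act g w := by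
  ext <;> simp only [act, Prod.fst_sub, Prod.snd_sub] <;> ring

theorem act_smul (g : SL(2, ℝ)) (c : ℝ) (v : V) : act g (c • v) = c • act g v := by
  ext <;> simp only [act, Prod.smul_fst, Prod.smul_snd, smul_eq_mul] <;> ring

theorem act_one (v : V) : act 1 v = v := by
  ext <;> simp [act]

theorem act_mul (g h : SL(2, ℝ)) (v : V) : act (g * h) v = act g (act h v) := by
  ext <;> simp only [act, Matrix.SpecialLinearGroup.coe_mul, Matrix.mul_apply, Fin.sum_univ_two] <;>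
    ring

theorem nm_le (x y : ℍ) (v : V) : nm y v ≤ Real.exp (rho x y) * nm x v := by
  rw [nm_eq, nm_eq]
  have hx : (0 : ℝ) < x.im := x.im_pos
  have hy : (0 : ℝ) < y.im := y.im_pos
  have hsx : 0 < Real.sqrt x.im := Real.sqrt_pos.2 hx
  have hsy : 0 < Real.sqrt y.im := Real.sqrt_pos.2 hy
  unfold rho
  rw [exp_half_dist, Real.sqrt_mul hx.le]
  set p : ℂ := (v.1 : ℂ) with hp
  set q : ℂ := (v.2 : ℂ) with hq
  have hconj : ‖p - (starRingEnd ℂ) (x : ℂ) * q‖ = ‖p - (x : ℂ) * q‖ := by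
    rw [← Complex.norm_conj (p - (x : ℂ) * q)]
    congr 1
    simp [hp, hq]
  have hid : (p - (y : ℂ) * q) * ((x : ℂ) - (starRingEnd ℂ) (x : ℂ)) =
      (p - (x : ℂ) * q) * ((y : ℂ) - (starRingEnd ℂ) (x : ℂ)) +
        (p - (starRingEnd ℂ) (x : ℂ) * q) * ((x : ℂ) - (y : ℂ)) := by ring
  have h2 : ‖(x : ℂ) - (starRingEnd ℂ) (x : ℂ)‖ = 2 * x.im := by
    rw [Complex.sub_conj, norm_mul, Complex.norm_I, mul_one, Complex.norm_real, Real.norm_eq_abs,
      UpperHalfPlane.coe_im, abs_of_pos (by positivity)]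
  have h3 : ‖(y : ℂ) - (starRingEnd ℂ) (x : ℂ)‖ = dist (x : ℂ) ((starRingEnd ℂ) (y : ℂ)) := by
    rw [Complex.dist_eq, ← Complex.norm_conj, map_sub, Complex.conj_conj, norm_sub_rev]
  have h4 : ‖(x : ℂ) - (y : ℂ)‖ = dist (x : ℂ) (y : ℂ) := (Complex.dist_eq _ _).symm
  have h5 : ‖p - (y : ℂ) * q‖ * (2 * x.im) ≤
      ‖p - (x : ℂ) * q‖ * (dist (x : ℂ) (y : ℂ) + dist (x : ℂ) ((starRingEnd ℂ) (y : ℂ))) := by
    rw [← h2, ← norm_mul, hid]
    refine (norm_add_le _ _).trans (le_of_eq ?_)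
    rw [norm_mul, norm_mul, hconj, h3, h4]
    ring
  have h6 : Real.sqrt x.im * Real.sqrt x.im = x.im := Real.mul_self_sqrt hx.le
  rw [div_mul_div_comm, div_le_div_iff₀ hsy (by positivity)]
  calc ‖p - (y : ℂ) * q‖ * (2 * (Real.sqrt x.im * Real.sqrt y.im) * Real.sqrt x.im)
      = ‖p - (y : ℂ) * q‖ * (2 * (Real.sqrt x.im * Real.sqrt x.im)) * Real.sqrt y.im := by ring
    _ = ‖p - (y : ℂ) * q‖ * (2 * x.im) * Real.sqrt y.im := by rw [h6]
    _ ≤ ‖p - (x : ℂ) * q‖ * (dist (x : ℂ) (y : ℂ) + dist (x : ℂ) ((starRingEnd ℂ) (y : ℂ))) *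
        Real.sqrt y.im := mul_le_mul_of_nonneg_right h5 hsy.le
    _ = _ := by ring

theorem rho_pt (b j j' : ℝ) : rho (pt b j) (pt b j') = |j - j'| := by
  unfold rho
  rw [dist_of_re_eq (by rfl), Real.dist_eq]
  have e : ∀ t : ℝ, Real.log (pt b t).im = -2 * t := by
    intro t
    exact Real.log_exp _
  rw [e, e]
  have : -2 * j - -2 * j' = -(2 * (j - j')) := by ring
  rw [this, abs_neg, abs_mul, abs_two]
  ring

theorem rho_pt_b (b b' j : ℝ) : rho (pt b j) (pt b' j) ≤ |b - b'| * Real.exp (2 * j) / 2 := by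
  unfold rho
  have h := dist_le_dist_coe_div_sqrt (pt b j) (pt b' j)
  have h1 : dist ((pt b j : ℍ) : ℂ) (pt b' j) = |b - b'| := by
    rw [Complex.dist_eq]
    have : ((pt b j : ℍ) : ℂ) - ((pt b' j : ℍ) : ℂ) = ((b - b' : ℝ) : ℂ) := by
      apply Complex.ext <;> simp [pt]
    rw [this, Complex.norm_real, Real.norm_eq_abs]
  have h2 : Real.sqrt ((pt b j).im * (pt b' j).im) = Real.exp (-2 * j) :=
    Real.sqrt_mul_self (Real.exp_pos _).le
  rw [h1, h2] at h
  have h3 : |b - b'| / Real.exp (-2 * j) = |b - b'| * Real.exp (2 * j) := by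
    rw [div_eq_mul_inv, ← Real.exp_neg]
    congr 2
    ring
  rw [h3] at h
  linarith

theorem le_rho_pt (b b' j j' : ℝ) (h : b ≠ b') :
    Real.log |b - b'| + j + j' ≤ rho (pt b j) (pt b' j') := by
  have hb : 0 < |b - b'| := abs_pos.2 (sub_ne_zero.2 h)
  have h1 : Real.sinh (rho (pt b j) (pt b' j')) =
      dist ((pt b j : ℍ) : ℂ) (pt b' j') / (2 * Real.sqrt ((pt b j).im * (pt b' j').im)) :=
    sinh_half_dist _ _
  have h2 : |b - b'| ≤ dist ((pt b j : ℍ) : ℂ) (pt b' j') := by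
    rw [Complex.dist_eq]
    have := Complex.abs_re_le_norm (((pt b j : ℍ) : ℂ) - ((pt b' j' : ℍ) : ℂ))
    have e : (((pt b j : ℍ) : ℂ) - ((pt b' j' : ℍ) : ℂ)).re = b - b' := by
      simp [pt]
    rwa [e] at this
  have h3 : Real.sqrt ((pt b j).im * (pt b' j').im) = Real.exp (-(j + j')) := by
    have : (pt b j).im * (pt b' j').im = Real.exp (-(j + j')) * Real.exp (-(j + j')) := by
      change Real.exp (-2 * j) * Real.exp (-2 * j') = _
      rw [← Real.exp_add, ← Real.exp_add]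
      congr 1
      ring
    rw [this, Real.sqrt_mul_self (Real.exp_pos _).le]
  rw [h3] at h1
  have h4 : Real.sinh (rho (pt b j) (pt b' j')) ≤ Real.exp (rho (pt b j) (pt b' j')) / 2 := by
    rw [Real.sinh_eq]
    have := Real.exp_pos (-rho (pt b j) (pt b' j'))
    linarith
  have h5 : |b - b'| * Real.exp (j + j') ≤ Real.exp (rho (pt b j) (pt b' j')) := by
    have h6 : |b - b'| / (2 * Real.exp (-(j + j'))) ≤ Real.sinh (rho (pt b j) (pt b' j')) := by
      rw [h1]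
      exact div_le_div_of_nonneg_right h2 (by positivity)
    have h7 : |b - b'| / (2 * Real.exp (-(j + j'))) = |b - b'| * Real.exp (j + j') / 2 := by
      rw [Real.exp_neg]
      field_simp
    rw [h7] at h6
    linarith
  have h8 : Real.log (|b - b'| * Real.exp (j + j')) ≤ rho (pt b j) (pt b' j') := by
    rw [Real.log_le_iff_le_exp (by positivity)]
    exact h5
  rw [Real.log_mul hb.ne' (Real.exp_pos _).ne', Real.log_exp] at h8
  linarith

theorem pt_re (b j : ℝ) : (pt b j).re = b := by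
  rfl

theorem pt_im (b j : ℝ) : (pt b j).im = Real.exp (-2 * j) := by
  rfl

/-- Every point is some `pt b j`. -/
theorem pt_re_im (x : ℍ) : pt x.re (-(Real.log x.im) / 2) = x := by
  have h : Real.exp (-2 * (-(Real.log x.im) / 2)) = x.im := by
    have : -2 * (-(Real.log x.im) / 2) = Real.log x.im := by ring
    rw [this, Real.exp_log x.im_pos]
  apply UpperHalfPlane.ext
  apply Complex.ext
  · rfl
  · exact h

theorem nm_pt (b j α β : ℝ) :
    nm (pt b j) (α • e1 + β • ev b) ^ 2 =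
      α ^ 2 * Real.exp (2 * j) + β ^ 2 * Real.exp (-2 * j) := by
  unfold nm
  have him : (pt b j).im = Real.exp (-2 * j) := rfl
  have hre : (pt b j).re = b := rfl
  have hpos := Real.exp_pos (-2 * j)
  rw [him, hre, Real.sq_sqrt (by positivity)]
  simp only [e1, ev, Prod.fst_add, Prod.snd_add, Prod.smul_fst, Prod.smul_snd, smul_eq_mul]
  have h1 : Real.exp (2 * j) * Real.exp (-2 * j) = 1 := by
    rw [← Real.exp_add]
    simp
  rw [div_eq_iff hpos.ne']
  linear_combination (-(α ^ 2)) * h1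

theorem nm_pt_e1 (b j α : ℝ) : nm (pt b j) (α • e1) = |α| * Real.exp j := by
  have h := nm_pt b j α 0
  rw [zero_smul, add_zero] at h
  have h1 : (|α| * Real.exp j) ^ 2 = α ^ 2 * Real.exp (2 * j) + 0 ^ 2 * Real.exp (-2 * j) := by
    rw [mul_pow, sq_abs, ← Real.exp_nat_mul]
    push_cast
    ring
  rw [← h1] at h
  exact (sq_eq_sq₀ (nm_nonneg _ _) (by positivity)).1 h

theorem nm_pt_ev (b j β : ℝ) : nm (pt b j) (β • ev b) = |β| * Real.exp (-j) := by
  have h := nm_pt b j 0 β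
  rw [zero_smul, zero_add] at h
  have h1 : (|β| * Real.exp (-j)) ^ 2 = 0 ^ 2 * Real.exp (2 * j) + β ^ 2 * Real.exp (-2 * j) := by
    rw [mul_pow, sq_abs, ← Real.exp_nat_mul]
    push_cast
    have : (2 : ℝ) * -j = -2 * j := by ring
    rw [this]
    ring
  rw [← h1] at h
  exact (sq_eq_sq₀ (nm_nonneg _ _) (by positivity)).1 h

/-- The norm of the second vector over `pt b j`. -/
theorem nm_pt_ev' (b b' j β : ℝ) :
    nm (pt b j) (β • ev b') ≤ |β| * (|b' - b| * Real.exp j + Real.exp (-j)) := by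
  have e : β • ev b' = (β * (b' - b)) • e1 + β • ev b := by
    ext
    · simp only [ev, e1, Prod.smul_fst, Prod.fst_add, smul_eq_mul]
      ring
    · simp only [ev, e1, Prod.smul_snd, Prod.snd_add, smul_eq_mul]
      ring
  rw [e]
  refine (nm_add_le _ _ _).trans (le_of_eq ?_)
  rw [nm_pt_e1, nm_pt_ev, abs_mul]
  ring

private theorem nm_o_eq (v : V) : nm o v = Real.sqrt (v.1 ^ 2 + v.2 ^ 2) := by
  unfold nm
  have him : o.im = 1 := by
    change Real.exp (-2 * 0) = 1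
    simp
  have hre : o.re = 0 := rfl
  rw [him, hre]
  congr 1
  ring

theorem nm_o_le (v : V) : nm o v ≤ |v.1| + |v.2| := by
  have h := nm_o_eq v
  rw [h]
  apply Real.sqrt_le_iff.2
  refine ⟨by positivity, ?_⟩
  nlinarith [sq_abs v.1, sq_abs v.2, mul_nonneg (abs_nonneg v.1) (abs_nonneg v.2)]

theorem abs_fst_le_nm_o (v : V) : |v.1| ≤ nm o v := by
  rw [nm_o_eq, ← Real.sqrt_sq_eq_abs]
  exact Real.sqrt_le_sqrt (by nlinarith [sq_nonneg v.2])

theorem abs_snd_le_nm_o (v : V) : |v.2| ≤ nm o v := by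
  rw [nm_o_eq, ← Real.sqrt_sq_eq_abs]
  exact Real.sqrt_le_sqrt (by nlinarith [sq_nonneg v.1])

theorem fr_smul (b j b' j' : ℝ) :
    fr b j • pt b' j' = pt (b + b' * Real.exp (-2 * j)) (j + j') := by
  apply UpperHalfPlane.ext
  rw [coe_specialLinearGroup_apply]
  have hj := Real.exp_pos j
  have hjC : ((Real.exp j : ℝ) : ℂ) ≠ 0 := by exact_mod_cast hj.ne'
  have h00 : (fr b j) 0 0 = Real.exp (-j) := rfl
  have h01 : (fr b j) 0 1 = b * Real.exp j := rfl
  have h10 : (fr b j) 1 0 = 0 := rfl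
  have h11 : (fr b j) 1 1 = Real.exp j := rfl
  rw [h00, h01, h10, h11]
  simp only [Algebra.algebraMap_self, RingHom.id_apply, Complex.ofReal_zero, zero_mul, zero_add]
  rw [div_eq_iff hjC]
  have k1 : Real.exp (-j) = Real.exp (-2 * j) * Real.exp j := by
    rw [← Real.exp_add]
    congr 1
    ring
  have k2 : Real.exp (-2 * (j + j')) = Real.exp (-2 * j') * Real.exp (-2 * j) := by
    rw [← Real.exp_add]
    congr 1
    ring
  apply Complex.ext
  · simp only [pt, Complex.add_re, Complex.mul_re, Complex.ofReal_re, Complex.ofReal_im,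
      UpperHalfPlane.coe_mk]
    rw [k1]
    ring
  · simp only [pt, Complex.add_im, Complex.mul_im, Complex.ofReal_re, Complex.ofReal_im,
      UpperHalfPlane.coe_mk]
    rw [k1, k2]
    ring

theorem act_fr_e1 (b j : ℝ) : act (fr b j) e1 = Real.exp (-j) • e1 := by
  have h00 : (fr b j) 0 0 = Real.exp (-j) := rfl
  have h01 : (fr b j) 0 1 = b * Real.exp j := rfl
  have h10 : (fr b j) 1 0 = 0 := rfl
  have h11 : (fr b j) 1 1 = Real.exp j := rfl
  unfold act
  rw [h00, h01, h10, h11]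
  ext <;> simp [e1]

theorem act_fr_ev (b j b' : ℝ) :
    act (fr b j) (ev b') = Real.exp j • ev (b + b' * Real.exp (-2 * j)) := by
  have h00 : (fr b j) 0 0 = Real.exp (-j) := rfl
  have h01 : (fr b j) 0 1 = b * Real.exp j := rfl
  have h10 : (fr b j) 1 0 = 0 := rfl
  have h11 : (fr b j) 1 1 = Real.exp j := rfl
  unfold act
  rw [h00, h01, h10, h11]
  have k1 : Real.exp (-j) = Real.exp j * Real.exp (-2 * j) := by
    rw [← Real.exp_add]
    congr 1
    ring
  ext
  · simp only [ev, Prod.smul_fst, smul_eq_mul]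
    rw [k1]
    ring
  · simp only [ev, Prod.smul_snd, smul_eq_mul]
    ring

theorem act_fr (b j : ℝ) (v : V) :
    act (fr b j) v = (Real.exp (-j) * v.1 + b * Real.exp j * v.2, Real.exp j * v.2) := by
  have h00 : (fr b j) 0 0 = Real.exp (-j) := rfl
  have h01 : (fr b j) 0 1 = b * Real.exp j := rfl
  have h10 : (fr b j) 1 0 = 0 := rfl
  have h11 : (fr b j) 1 1 = Real.exp j := rfl
  unfold act
  rw [h00, h01, h10, h11]
  ext <;> simp

theorem rot_smul_o : rot • o = o := by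
  apply UpperHalfPlane.ext
  rw [coe_specialLinearGroup_apply]
  have h00 : rot 0 0 = 0 := rfl
  have h01 : rot 0 1 = -1 := rfl
  have h10 : rot 1 0 = 1 := rfl
  have h11 : rot 1 1 = 0 := rfl
  rw [h00, h01, h10, h11]
  have ho : ((o : ℍ) : ℂ) = Complex.I := by
    apply Complex.ext
    · simp [o, pt]
    · simp [o, pt]
  rw [ho]
  simp

theorem act_rot (v : V) : act rot v = (-v.2, v.1) := by
  have h00 : rot 0 0 = 0 := rfl
  have h01 : rot 0 1 = -1 := rfl
  have h10 : rot 1 0 = 1 := rfl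
  have h11 : rot 1 1 = 0 := rfl
  unfold act
  rw [h00, h01, h10, h11]
  ext <;> simp

end Pool.Agent.FIB
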