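import Pool.Agent.FIB.Meas

/-!
# Part C2: two measure theoretic lemmas on the line

* `l_cut`: `N = ⌈1 / h⌉₊ ≤ 2 / h`, `x k = -2 + 2 h + 4 h k` for `k < N`: the intervals
  `[x k - 2 h, x k + 2 h]` cover `[-2, 2]`. `T k = {a | a ∈ Icc (x k - 2 h) (x k + 2 h) ∧ ¬ Q a}`:
  `{x | x k + h * x ∈ T k} = {x | x ∈ Icc (-2) 2 ∧ ¬ Q (x k + h * x)}`, so by `scale_le`
  `ofReal |h⁻¹| * volume (T k) ≤ ofReal m`, `volume (T k) ≤ ofReal (h * m)`. Sum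
  (`measure_biUnion_finset_le`): `N h m ≤ 2 m`.
* `l_three_points`: `N = {b | ofReal (1/4) < volume {b' | (b, b') ∈ S}}` has measure `≤ 4 η`
  (`markov_fubini`). Choose `b1 ∈ Icc (-1) 1` outside `B ∪ N`, then `b2` outside
  `B ∪ N ∪ {b' | (b1, b') ∈ S}`, then `b3` outside `B ∪ {b' | (b1, b') ∈ S} ∪ {b' | (b2, b') ∈ S}`
  (in each case the measure of the union is `< 2`).
-/

set_option autoImplicit false

namespace Pool.Agent.FIB

open UpperHalfPlane MeasureTheory Set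

/-- the piece of the exceptional set in one interval of length `4 h` -/
theorem l_cut_piece (Q : ℝ → Prop) {h m : ℝ} (h0 : 0 < h)
    (H : ∀ x0 : ℝ, volume {x : ℝ | x ∈ Icc (-2) 2 ∧ ¬ Q (x0 + h * x)} ≤ ENNReal.ofReal m)
    (c : ℝ) :
    volume {a : ℝ | a ∈ Icc (c - 2 * h) (c + 2 * h) ∧ ¬ Q a} ≤ ENNReal.ofReal (h * m) := by
  have h1 := scale_le {a : ℝ | a ∈ Icc (c - 2 * h) (c + 2 * h) ∧ ¬ Q a} h0.ne' c
  have h2 : {x : ℝ | c + h * x ∈ {a : ℝ | a ∈ Icc (c - 2 * h) (c + 2 * h) ∧ ¬ Q a}} =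
      {x : ℝ | x ∈ Icc (-2) 2 ∧ ¬ Q (c + h * x)} := by
    ext x
    simp only [Set.mem_ofPred_eq, Set.mem_Icc]
    constructor
    · rintro ⟨⟨h3, h4⟩, h5⟩
      refine ⟨⟨?_, ?_⟩, h5⟩
      · by_contra h6
        push Not at h6
        nlinarith
      · by_contra h6
        push Not at h6
        nlinarith
    · rintro ⟨⟨h3, h4⟩, h5⟩
      refine ⟨⟨?_, ?_⟩, h5⟩
      · nlinarith
      · nlinarith
  rw [h2] at h1
  have h3 := H c
  rw [h1, abs_of_pos (inv_pos.mpr h0)] at h3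
  have h4 : ENNReal.ofReal h * (ENNReal.ofReal h⁻¹ *
      volume {a : ℝ | a ∈ Icc (c - 2 * h) (c + 2 * h) ∧ ¬ Q a}) ≤
      ENNReal.ofReal h * ENNReal.ofReal m := by gcongr
  rw [← mul_assoc, ← ENNReal.ofReal_mul h0.le, mul_inv_cancel₀ h0.ne', ENNReal.ofReal_one,
    one_mul, ← ENNReal.ofReal_mul h0.le] at h4
  exact h4

theorem l_cut_index {x : ℝ} {N : ℕ} (hN : 1 ≤ N) (h0 : 0 ≤ x) (h1 : x ≤ N) :
    ∃ k < N, (k : ℝ) ≤ x ∧ x ≤ (k : ℝ) + 1 := by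
  rcases lt_or_eq_of_le h1 with h2 | h2
  · exact ⟨⌊x⌋₊, (Nat.floor_lt h0).2 h2, Nat.floor_le h0, (Nat.lt_floor_add_one x).le⟩
  · obtain ⟨M, rfl⟩ : ∃ M, N = M + 1 := ⟨N - 1, by omega⟩
    refine ⟨M, by omega, ?_, ?_⟩
    · rw [h2]; push_cast; linarith
    · rw [h2]; push_cast; linarith

theorem l_cut (Q : ℝ → Prop) {h m : ℝ} (h0 : 0 < h) (h1 : h ≤ 1) (hm : 0 ≤ m)
    (H : ∀ x0 : ℝ, volume {x : ℝ | x ∈ Icc (-2) 2 ∧ ¬ Q (x0 + h * x)} ≤ ENNReal.ofReal m) :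
    volume {a : ℝ | a ∈ Icc (-2) 2 ∧ ¬ Q a} ≤ ENNReal.ofReal (2 * m) := by
  have hN1 : 1 / h ≤ (⌈1 / h⌉₊ : ℝ) := Nat.le_ceil _
  have hN2 : (⌈1 / h⌉₊ : ℝ) < 1 / h + 1 := Nat.ceil_lt_add_one (by positivity)
  have hN3 : 1 ≤ ⌈1 / h⌉₊ := Nat.one_le_ceil_iff.2 (by positivity)
  set N : ℕ := ⌈1 / h⌉₊ with hN
  have hh : h * (1 / h) = 1 := by field_simp
  have hsub : {a : ℝ | a ∈ Icc (-2) 2 ∧ ¬ Q a} ⊆
      ⋃ k ∈ Finset.range N, {a : ℝ | a ∈ Icc ((-2 + 2 * h + 4 * h * (k : ℝ)) - 2 * h)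
        ((-2 + 2 * h + 4 * h * (k : ℝ)) + 2 * h) ∧ ¬ Q a} := by
    rintro a ⟨⟨ha1, ha2⟩, ha3⟩
    obtain ⟨k, hk, hk1, hk2⟩ := l_cut_index (x := (a + 2) / (4 * h)) hN3
      (by apply div_nonneg <;> linarith) (by
        refine le_trans ?_ hN1
        rw [div_le_div_iff₀ (by positivity) h0]
        nlinarith)
    rw [le_div_iff₀ (by positivity)] at hk1
    rw [div_le_iff₀ (by positivity)] at hk2
    simp only [Set.mem_iUnion, Finset.mem_range]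
    refine ⟨k, hk, ⟨?_, ?_⟩, ha3⟩
    · nlinarith
    · nlinarith
  refine (measure_mono hsub).trans ?_
  refine (measure_biUnion_finset_le _ _).trans ?_
  refine (Finset.sum_le_sum (fun k _ => l_cut_piece Q h0 H _)).trans ?_
  rw [Finset.sum_const, Finset.card_range, nsmul_eq_mul]
  have h3 : ((N : ℕ) : ENNReal) = ENNReal.ofReal (N : ℝ) := (ENNReal.ofReal_natCast N).symm
  rw [h3, ← ENNReal.ofReal_mul (by positivity)]
  apply ENNReal.ofReal_le_ofReal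
  have h4 : (N : ℝ) * h ≤ 2 := by nlinarith
  calc (N : ℝ) * (h * m) = ((N : ℝ) * h) * m := by ring
    _ ≤ 2 * m := by gcongr

/-- a set of measure smaller than `2` misses a point of `[-1, 1]` -/
theorem l_exists_point {A : Set ℝ} (hA : volume A < 2) : ∃ b ∈ Icc (-1 : ℝ) 1, b ∉ A := by
  by_contra h
  push Not at h
  have h1 : volume (Icc (-1 : ℝ) 1) ≤ volume A := measure_mono h
  rw [Real.volume_Icc] at h1
  have h2 : ENNReal.ofReal (1 - -1 : ℝ) = 2 := by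
    norm_num
  rw [h2] at h1
  exact absurd (lt_of_le_of_lt h1 hA) (lt_irrefl _)

theorem l_three_points {S : Set (ℝ × ℝ)} (hS : MeasurableSet S) {B : Set ℝ} {η : ℝ} (h0 : 0 ≤ η)
    (h1 : η ≤ 1 / 50) (hSv : volume S ≤ ENNReal.ofReal η) (hB : volume B ≤ ENNReal.ofReal η) :
    ∃ b1 ∈ Icc (-1 : ℝ) 1, ∃ b2 ∈ Icc (-1 : ℝ) 1, ∃ b3 ∈ Icc (-1 : ℝ) 1, b1 ∉ B ∧ b2 ∉ B ∧ b3 ∉ B ∧
      (b1, b2) ∉ S ∧ (b1, b3) ∉ S ∧ (b2, b3) ∉ S := by
  have hN := markov_fubini hS (ε := 4 * η) (δ := 1 / 4) (by norm_num) (by positivity)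
    (by rw [show 4 * η * (1 / 4) = η by ring]; exact hSv)
  set N : Set ℝ := {a : ℝ | ENNReal.ofReal (1 / 4) < volume {b : ℝ | (a, b) ∈ S}} with hNdef
  have key : ∀ (x y z : ℝ), 0 ≤ x → 0 ≤ y → 0 ≤ z → x + y + z < 2 → ∀ A1 A2 A3 : Set ℝ,
      volume A1 ≤ ENNReal.ofReal x → volume A2 ≤ ENNReal.ofReal y →
      volume A3 ≤ ENNReal.ofReal z → volume (A1 ∪ A2 ∪ A3) < 2 := by
    intro x y z hx hy hz hxyz A1 A2 A3 h1 h2 h3
    have h4 : volume (A1 ∪ A2 ∪ A3) ≤ volume A1 + volume A2 + volume A3 :=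
      (measure_union_le _ _).trans (by gcongr; exact measure_union_le _ _)
    have h5 : volume A1 + volume A2 + volume A3 ≤ ENNReal.ofReal (x + y + z) := by
      rw [ENNReal.ofReal_add (by positivity) hz, ENNReal.ofReal_add hx hy]
      gcongr
    refine lt_of_le_of_lt (h4.trans h5) ?_
    rw [show (2 : ENNReal) = ENNReal.ofReal 2 by norm_num]
    exact (ENNReal.ofReal_lt_ofReal_iff (by norm_num)).2 hxyz
  obtain ⟨b1, hb1, hb1'⟩ := l_exists_point (key η (4 * η) (4 * η) h0 (by positivity)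
    (by positivity) (by linarith) B N N hB hN hN)
  have hb1N : volume {b : ℝ | (b1, b) ∈ S} ≤ ENNReal.ofReal (1 / 4) := by
    by_contra h
    exact hb1' (Or.inr (not_le.1 h))
  obtain ⟨b2, hb2, hb2'⟩ := l_exists_point (key η (4 * η) (1 / 4) h0 (by positivity)
    (by norm_num) (by linarith) B N {b : ℝ | (b1, b) ∈ S} hB hN hb1N)
  have hb2N : volume {b : ℝ | (b2, b) ∈ S} ≤ ENNReal.ofReal (1 / 4) := by
    by_contra h
    exact hb2' (Or.inl (Or.inr (not_le.1 h)))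
  obtain ⟨b3, hb3, hb3'⟩ := l_exists_point (key η (1 / 4) (1 / 4) h0 (by norm_num)
    (by norm_num) (by linarith) B {b : ℝ | (b1, b) ∈ S} {b : ℝ | (b2, b) ∈ S} hB hb1N hb2N)
  exact ⟨b1, hb1, b2, hb2, b3, hb3, fun h => hb1' (Or.inl (Or.inl h)),
    fun h => hb2' (Or.inl (Or.inl h)), fun h => hb3' (Or.inl (Or.inl h)),
    fun h => hb2' (Or.inr h), fun h => hb3' (Or.inl (Or.inr h)), fun h => hb3' (Or.inr h)⟩

end Pool.Agent.FIB
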