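import Pool.Agent.FIB.Tel

/-!
# Part C2: definitions

* `LineT F w s e η t`: over the points `pt b s`, `b ∈ [-1, 1]`, the sheet `w` has images at distance
  `s` from `t` and with small Gromov products at `t` (up to `e`, outside of sets of measure `η`).
* `StStar`: a form of `StB` and `StP` with a fixed reference sheet; `StL1`: the statement `StL` without
  the clause on `F.f w o`; `StLM`: `StL1` with the pointwise form of the clauses.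
The chain of Part C2 is `StB K → StP K → StStar K` (`LStar`), `StStar K → StL1 K` (`LOne`),
`StL1 K → StLM K` (`LMark`), `StLM K → StL K` (`LTwo`).
-/

set_option autoImplicit false

namespace Pool.Agent.FIB

open UpperHalfPlane MeasureTheory Set

/-- The point `t` is a centre at depth `s` for the sheet `w`. -/
def LineT {K : ℝ} (F : QM K) (w : V) (s e η : ℝ) (t : ℍ) : Prop :=
  volume {b : ℝ | b ∈ Icc (-1) 1 ∧ e < |rho (F.f w (pt b s)) t - s|} ≤ ENNReal.ofReal η ∧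
  volume {q : ℝ × ℝ | q.1 ∈ Icc (-1) 1 ∧ q.2 ∈ Icc (-1) 1 ∧
    e < gp (F.f w (pt q.1 s)) (F.f w (pt q.2 s)) t} ≤ ENNReal.ofReal η

/-- The typical sheets of a plane and a reference path `P`. -/
def StStar (K : ℝ) : Prop :=
  ∃ ν : ℝ, 0 < ν ∧ ν ≤ 1 / 2 ∧ ∀ ε : ℝ, 0 < ε → ∃ s0 : ℝ, 0 < s0 ∧
    ∀ (F : QM K) (s : ℝ), s0 ≤ s → ∃ (t : ℍ) (P : ℝ → ℍ),
      volume {u : V | u ∈ box 8 ∧ ε * s < rho (F.f (Real.exp s • u) o) t} ≤ ENNReal.ofReal ε ∧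
      volume {q : V × ℝ | q.1 ∈ box 4 ∧ q.2 ∈ Icc (-1) 1 ∧
        ¬ (|rho (F.f (Real.exp s • q.1) (pt q.2 s)) t - s| ≤ ε * s ∧
          ν * s - ε * s ≤ gp (P q.2) (F.f (Real.exp s • q.1) (pt q.2 s)) t)} ≤ ENNReal.ofReal ε ∧
      volume {q : ℝ × ℝ | q.1 ∈ Icc (-1) 1 ∧ q.2 ∈ Icc (-1) 1 ∧ ε * s < gp (P q.1) (P q.2) t}
        ≤ ENNReal.ofReal ε

/-- `StL` without the clause on the images over `o`. -/
def StL1 (K : ℝ) : Prop :=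
  ∀ ε : ℝ, 0 < ε → ∃ s0 : ℝ, 0 < s0 ∧ ∀ (F : QM K) (s : ℝ), s0 ≤ s → ∃ t : ℍ,
    volume {u : V | u ∈ box 8 ∧ ε * s < rho (F.f (Real.exp s • u) o) t} ≤ ENNReal.ofReal ε ∧
    ∀ c ∈ Icc (-2 : ℝ) 2,
      volume {q : ℝ × ℝ | q.1 ∈ Icc (-2) 2 ∧ q.2 ∈ Icc (-1) 1 ∧
        ε * s < |rho (F.f (Real.exp s • ((q.1, c) : V)) (pt q.2 s)) t - s|} ≤ ENNReal.ofReal ε ∧
      volume {q : ℝ × ℝ × ℝ | q.1 ∈ Icc (-2) 2 ∧ q.2.1 ∈ Icc (-1) 1 ∧ q.2.2 ∈ Icc (-1) 1 ∧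
        ε * s < gp (F.f (Real.exp s • ((q.1, c) : V)) (pt q.2.1 s))
          (F.f (Real.exp s • ((q.1, c) : V)) (pt q.2.2 s)) t} ≤ ENNReal.ofReal ε

/-- `StL1` with a pointwise clause. -/
def StLM (K : ℝ) : Prop :=
  ∀ η : ℝ, 0 < η → ∃ s0 : ℝ, 0 < s0 ∧ ∀ (F : QM K) (s : ℝ), s0 ≤ s → ∃ t : ℍ,
    volume {u : V | u ∈ box 8 ∧ η * s < rho (F.f (Real.exp s • u) o) t} ≤ ENNReal.ofReal η ∧
    ∀ c ∈ Icc (-2 : ℝ) 2,
      volume {q : ℝ × ℝ | q.1 ∈ Icc (-2) 2 ∧ q.2 ∈ Icc (-1) 1 ∧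
        η * s < |rho (F.f (Real.exp s • ((q.1, c) : V)) (pt q.2 s)) t - s|} ≤ ENNReal.ofReal η ∧
      volume {q : ℝ × ℝ × ℝ | q.1 ∈ Icc (-2) 2 ∧ q.2.1 ∈ Icc (-1) 1 ∧ q.2.2 ∈ Icc (-1) 1 ∧
        η * s < gp (F.f (Real.exp s • ((q.1, c) : V)) (pt q.2.1 s))
          (F.f (Real.exp s • ((q.1, c) : V)) (pt q.2.2 s)) t} ≤ ENNReal.ofReal η ∧
      volume {a : ℝ | a ∈ Icc (-2) 2 ∧
        ¬ (LineT F (Real.exp s • ((a, c) : V)) s (η * s) η t ∧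
          rho (F.f (Real.exp s • ((a, c) : V)) o) t ≤ K * (s + 5) + K + η * s)} ≤ ENNReal.ofReal η

end Pool.Agent.FIB
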