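import Pool.Agent.FIB.LShear
import Pool.Agent.FIB.LCut

/-!
# Part C2: sets in `ℝ × ℝ × ℝ`

* `l_prod3_left`: `{q | (q.1, q.2.1) ∈ A ∧ q.2.2 ∈ Icc (-1) 1}` is the preimage of `A ×ˢ Icc (-1) 1`
  under `MeasurableEquiv.prodAssoc.symm` (`volume_preserving_prodAssoc`), `Measure.prod_prod`,
  `Real.volume_Icc` (`MeasurePreserving.measure_preimage_equiv` holds for all sets).
* `l_prod3_mid`: the same after the swap of the last two coordinates, which preserves the measure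
  (`(MeasurePreserving.id volume).prod Measure.measurePreserving_swap`).
* `l_prod3_right`: the set is the product `Icc (-2) 2 ×ˢ A`.
-/

set_option autoImplicit false

namespace Pool.Agent.FIB

open UpperHalfPlane MeasureTheory Set

private theorem LMeas_assoc (A : Set (ℝ × ℝ)) (B : Set ℝ) :
    volume {q : ℝ × ℝ × ℝ | (q.1, q.2.1) ∈ A ∧ q.2.2 ∈ B} = volume A * volume B := by
  have h1 : MeasurePreserving (MeasurableEquiv.prodAssoc : (ℝ × ℝ) × ℝ ≃ᵐ ℝ × ℝ × ℝ)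
      volume volume := volume_preserving_prodAssoc
  have h2 := h1.measure_preimage_equiv {q : ℝ × ℝ × ℝ | (q.1, q.2.1) ∈ A ∧ q.2.2 ∈ B}
  rw [← h2]
  have h3 : (MeasurableEquiv.prodAssoc : (ℝ × ℝ) × ℝ ≃ᵐ ℝ × ℝ × ℝ) ⁻¹'
      {q : ℝ × ℝ × ℝ | (q.1, q.2.1) ∈ A ∧ q.2.2 ∈ B} = A ×ˢ B := by
    ext ⟨⟨x, y⟩, z⟩
    simp [MeasurableEquiv.prodAssoc]
  rw [h3, Measure.volume_eq_prod, Measure.prod_prod]

private theorem LMeas_icc1 : volume (Icc (-1 : ℝ) 1) = 2 := by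
  rw [Real.volume_Icc]
  norm_num

theorem l_prod3_left (A : Set (ℝ × ℝ)) :
    volume {q : ℝ × ℝ × ℝ | (q.1, q.2.1) ∈ A ∧ q.2.2 ∈ Icc (-1) 1} ≤ 2 * volume A := by
  rw [LMeas_assoc, LMeas_icc1, mul_comm]

theorem l_prod3_mid (A : Set (ℝ × ℝ)) :
    volume {q : ℝ × ℝ × ℝ | (q.1, q.2.2) ∈ A ∧ q.2.1 ∈ Icc (-1) 1} ≤ 2 * volume A := by
  have h1 : MeasurePreserving (Prod.swap : ℝ × ℝ → ℝ × ℝ) volume volume :=
    Measure.measurePreserving_swap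
  have h2 : MeasurePreserving (MeasurableEquiv.prodCongr (MeasurableEquiv.refl ℝ)
      (MeasurableEquiv.prodComm : ℝ × ℝ ≃ᵐ ℝ × ℝ)) (volume : Measure (ℝ × ℝ × ℝ)) volume :=
    (MeasurePreserving.id volume).prod h1
  have h3 := h2.measure_preimage_equiv
    {q : ℝ × ℝ × ℝ | (q.1, q.2.1) ∈ A ∧ q.2.2 ∈ Icc (-1) 1}
  have h4 : (MeasurableEquiv.prodCongr (MeasurableEquiv.refl ℝ)
      (MeasurableEquiv.prodComm : ℝ × ℝ ≃ᵐ ℝ × ℝ)) ⁻¹'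
      {q : ℝ × ℝ × ℝ | (q.1, q.2.1) ∈ A ∧ q.2.2 ∈ Icc (-1) 1} =
      {q : ℝ × ℝ × ℝ | (q.1, q.2.2) ∈ A ∧ q.2.1 ∈ Icc (-1) 1} := rfl
  rw [← h4, h3]
  exact l_prod3_left A

theorem l_prod3_right (A : Set (ℝ × ℝ)) :
    volume {q : ℝ × ℝ × ℝ | q.1 ∈ Icc (-2) 2 ∧ q.2 ∈ A} ≤ 4 * volume A := by
  have h1 : {q : ℝ × ℝ × ℝ | q.1 ∈ Icc (-2) 2 ∧ q.2 ∈ A} = Icc (-2 : ℝ) 2 ×ˢ A := rfl
  rw [h1, Measure.volume_eq_prod, Measure.prod_prod, Real.volume_Icc]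
  norm_num

end Pool.Agent.FIB
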