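import Pool.Agent.FIB.LDefs
import Pool.Agent.FIB.LMeas

/-!
# Part C2: `StL1 K → StLM K`

Let `η > 0`, `ε1 = min (η ^ 2 / 2) (min η 1)`, `s0` the constant of `StL1` for `ε1`; `s ≥ s0`, `t` from `StL1`. The first
three clauses follow by monotonicity (`ε1 ≤ η`). Last clause, `c ∈ [-2,2]`:
* `S1`, `S2` the two sets of `StL1` (for `ε1`, measurable by `F.measSet`), of measure `≤ ε1 ≤ (η / 2) * η`. By `markov_fubini`
  the sets `N1 = {a | ofReal η < volume {b | (a, b) ∈ S1}}`, `N2 = {a | ofReal η < volume {q | (a, q) ∈ S2}}` have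
  measure `≤ η / 2`. For `a ∈ [-2,2]` outside `N1 ∪ N2`, `LineT F (e^s (a, c)) s (η s) η t` holds by
  monotonicity (`ε1 s ≤ η s`).
* For every `a ∈ [-2,2]`: as `volume (box 8) = 256 > ε1` there is `u ∈ box 8` with `rho (F.f (e^s u) o) t ≤ ε1 s`.
  `f_fib`: `rho (F.f (e^s (a,c)) o) (F.f (e^s u) o) ≤ K log (1 + nm o (e^s (a,c) - e^s u)) + K`, and
  `nm o (e^s ((a,c) - u)) ≤ e^s (|a - u.1| + |c - u.2|) ≤ 20 e^s` (`nm_smul`, `nm_o_le`), `1 + 20 e^s ≤ e^{s+5}`.
  So the second property holds for all `a ∈ [-2,2]`.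
-/

set_option autoImplicit false

namespace Pool.Agent.FIB

open UpperHalfPlane MeasureTheory Set

private theorem LMark_box : volume (box 8) = ENNReal.ofReal 256 := by
  have h1 : (volume : Measure V) (box 8) = volume (Set.Icc (-8 : ℝ) 8) * volume (Set.Icc (-8 : ℝ) 8) :=
    Measure.prod_prod _ _
  rw [h1, Real.volume_Icc, ← ENNReal.ofReal_mul (by norm_num)]
  norm_num

private theorem LMark_log {s x : ℝ} (hx0 : 0 ≤ x) (hx : x ≤ 20) (hs : 0 < s) :
    Real.log (1 + Real.exp s * x) ≤ s + 5 := by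
  have h1 : (0 : ℝ) < Real.exp s := Real.exp_pos s
  rw [Real.log_le_iff_le_exp (by positivity), Real.exp_add]
  have h2 : (1 : ℝ) ≤ Real.exp s := Real.one_le_exp hs.le
  have h3 : (21 : ℝ) ≤ Real.exp 5 := by
    have h4 : Real.exp 5 = (Real.exp 1) ^ 5 := by
      rw [← Real.exp_nat_mul]
      norm_num
    have h5 : (2 : ℝ) ≤ Real.exp 1 := by
      have := Real.add_one_le_exp (1 : ℝ)
      linarith
    rw [h4]
    calc (21 : ℝ) ≤ 2 ^ 5 := by norm_num
      _ ≤ (Real.exp 1) ^ 5 := pow_le_pow_left₀ (by norm_num) h5 5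
  nlinarith

private theorem LMark_meas1 {K : ℝ} (F : QM K) (s c e : ℝ) (t : ℍ) :
    MeasurableSet {q : ℝ × ℝ | q.1 ∈ Icc (-2) 2 ∧ q.2 ∈ Icc (-1) 1 ∧
        e < |rho (F.f (Real.exp s • ((q.1, c) : V)) (pt q.2 s)) t - s|} := by
  have hw : Measurable (fun q : ℝ × ℝ => (Real.exp s • ((q.1, c) : V) : V)) := by fun_prop
  have hx : Measurable (fun q : ℝ × ℝ => pt q.2 s) := measurable_pt' measurable_snd measurable_const
  have h1 := F.measSet (Ω := ℝ × ℝ) (ι := Fin 1) (fun _ q => Real.exp s • ((q.1, c) : V))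
      (fun _ q => pt q.2 s) (fun _ => hw) (fun _ => hx) (fun v => e < |rho (v 0).2 t - s|)
  exact (measurable_fst measurableSet_Icc).inter ((measurable_snd measurableSet_Icc).inter h1)

private theorem LMark_meas2 {K : ℝ} (F : QM K) (s c e : ℝ) (t : ℍ) :
    MeasurableSet {q : ℝ × ℝ × ℝ | q.1 ∈ Icc (-2) 2 ∧ q.2.1 ∈ Icc (-1) 1 ∧ q.2.2 ∈ Icc (-1) 1 ∧
        e < gp (F.f (Real.exp s • ((q.1, c) : V)) (pt q.2.1 s))
          (F.f (Real.exp s • ((q.1, c) : V)) (pt q.2.2 s)) t} := by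
  have hw : Measurable (fun q : ℝ × ℝ × ℝ => (Real.exp s • ((q.1, c) : V) : V)) := by fun_prop
  have hx1 : Measurable (fun q : ℝ × ℝ × ℝ => pt q.2.1 s) :=
    measurable_pt' (measurable_fst.comp measurable_snd) measurable_const
  have hx2 : Measurable (fun q : ℝ × ℝ × ℝ => pt q.2.2 s) :=
    measurable_pt' (measurable_snd.comp measurable_snd) measurable_const
  have h1 := F.measSet (Ω := ℝ × ℝ × ℝ) (ι := Fin 2) (fun _ q => Real.exp s • ((q.1, c) : V))
      (fun i q => if i = 0 then pt q.2.1 s else pt q.2.2 s) (fun _ => hw)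
      (fun i => by
        fin_cases i
        · exact hx1
        · exact hx2) (fun v => e < gp (v 0).2 (v 1).2 t)
  have h2 : MeasurableSet {q : ℝ × ℝ × ℝ | e < gp (F.f (Real.exp s • ((q.1, c) : V)) (pt q.2.1 s))
          (F.f (Real.exp s • ((q.1, c) : V)) (pt q.2.2 s)) t} := h1
  exact (measurable_fst measurableSet_Icc).inter
    (((measurable_fst.comp measurable_snd) measurableSet_Icc).inter
      (((measurable_snd.comp measurable_snd) measurableSet_Icc).inter h2))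

theorem l_mark {K : ℝ} (hK : 1 ≤ K) (h : StL1 K) : StLM K := by
  intro η hη
  obtain ⟨ε1, hε0, hεη, hε1, hεs⟩ : ∃ ε1 : ℝ, 0 < ε1 ∧ ε1 ≤ η ∧ ε1 ≤ 1 ∧ ε1 ≤ η / 2 * η := by
    refine ⟨min (η / 2 * η) (min η 1), ?_, ?_, ?_, ?_⟩
    · exact lt_min (by positivity) (lt_min hη one_pos)
    · exact (min_le_right _ _).trans (min_le_left _ _)
    · exact (min_le_right _ _).trans (min_le_right _ _)
    · exact min_le_left _ _
  obtain ⟨s0, hs0, H⟩ := h ε1 hε0
  refine ⟨s0, hs0, fun F s hs => ?_⟩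
  obtain ⟨t, h1, h2⟩ := H F s hs
  have hspos : 0 < s := lt_of_lt_of_le hs0 hs
  have hmono : ε1 * s ≤ η * s := mul_le_mul_of_nonneg_right hεη hspos.le
  have hofR : ENNReal.ofReal ε1 ≤ ENNReal.ofReal η := ENNReal.ofReal_le_ofReal hεη
  refine ⟨t, ?_, fun c hc => ⟨?_, ?_, ?_⟩⟩
  · refine (measure_mono ?_).trans (h1.trans hofR)
    rintro u ⟨hu1, hu2⟩
    exact ⟨hu1, lt_of_le_of_lt hmono hu2⟩
  · refine (measure_mono ?_).trans ((h2 c hc).1.trans hofR)
    rintro u ⟨hu1, hu2, hu3⟩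
    exact ⟨hu1, hu2, lt_of_le_of_lt hmono hu3⟩
  · refine (measure_mono ?_).trans ((h2 c hc).2.trans hofR)
    rintro u ⟨hu1, hu2, hu3, hu4⟩
    exact ⟨hu1, hu2, hu3, lt_of_le_of_lt hmono hu4⟩
  · have hofS : ENNReal.ofReal ε1 ≤ ENNReal.ofReal (η / 2 * η) := ENNReal.ofReal_le_ofReal hεs
    have m1 := markov_fubini (LMark_meas1 F s c (ε1 * s) t) hη (by positivity)
      ((h2 c hc).1.trans hofS)
    have m2 := markov_fubini (LMark_meas2 F s c (ε1 * s) t) hη (by positivity)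
      ((h2 c hc).2.trans hofS)
    -- the second property holds for every `a`
    have hex : ∃ u ∈ box 8, rho (F.f (Real.exp s • u) o) t ≤ ε1 * s := by
      by_contra hcon
      push Not at hcon
      have h3 : box 8 ⊆ {u : V | u ∈ box 8 ∧ ε1 * s < rho (F.f (Real.exp s • u) o) t} :=
        fun u hu => ⟨hu, hcon u hu⟩
      have h4 := (measure_mono h3).trans h1
      rw [LMark_box, ENNReal.ofReal_le_ofReal_iff hε0.le] at h4
      linarith
    obtain ⟨u, hu, hut⟩ := hex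
    have hall : ∀ a ∈ Icc (-2 : ℝ) 2,
        rho (F.f (Real.exp s • ((a, c) : V)) o) t ≤ K * (s + 5) + K + η * s := by
      intro a ha
      have h3 := F.f_fib (Real.exp s • ((a, c) : V)) (Real.exp s • u) o
      have h4 : nm o (Real.exp s • ((a, c) : V) - Real.exp s • u) =
          Real.exp s * nm o (((a, c) : V) - u) := by
        rw [← smul_sub, nm_smul, abs_of_pos (Real.exp_pos s)]
      have h5 : nm o (((a, c) : V) - u) ≤ 20 := by
        refine (nm_o_le _).trans ?_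
        have hu1 : u.1 ∈ Icc (-8 : ℝ) 8 := hu.1
        have hu2 : u.2 ∈ Icc (-8 : ℝ) 8 := hu.2
        have h6 : |(((a, c) : V) - u).1| ≤ 10 := by
          change |a - u.1| ≤ 10
          rw [abs_le]
          constructor <;> linarith [ha.1, ha.2, hu1.1, hu1.2]
        have h7 : |(((a, c) : V) - u).2| ≤ 10 := by
          change |c - u.2| ≤ 10
          rw [abs_le]
          constructor <;> linarith [hc.1, hc.2, hu2.1, hu2.2]
        linarith
      rw [h4] at h3
      have h6 := LMark_log (nm_nonneg _ _) h5 hspos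
      have h7 := mul_le_mul_of_nonneg_left h6 (by linarith : (0 : ℝ) ≤ K)
      have h8 := rho_triangle (F.f (Real.exp s • ((a, c) : V)) o) (F.f (Real.exp s • u) o) t
      linarith
    have hsub : {a : ℝ | a ∈ Icc (-2) 2 ∧
        ¬ (LineT F (Real.exp s • ((a, c) : V)) s (η * s) η t ∧
          rho (F.f (Real.exp s • ((a, c) : V)) o) t ≤ K * (s + 5) + K + η * s)} ⊆
        {a : ℝ | ENNReal.ofReal η < volume {b : ℝ | (a, b) ∈ {q : ℝ × ℝ | q.1 ∈ Icc (-2) 2 ∧
          q.2 ∈ Icc (-1) 1 ∧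
          ε1 * s < |rho (F.f (Real.exp s • ((q.1, c) : V)) (pt q.2 s)) t - s|}}} ∪
        {a : ℝ | ENNReal.ofReal η < volume {b : ℝ × ℝ | (a, b) ∈ {q : ℝ × ℝ × ℝ |
          q.1 ∈ Icc (-2) 2 ∧ q.2.1 ∈ Icc (-1) 1 ∧ q.2.2 ∈ Icc (-1) 1 ∧
          ε1 * s < gp (F.f (Real.exp s • ((q.1, c) : V)) (pt q.2.1 s))
            (F.f (Real.exp s • ((q.1, c) : V)) (pt q.2.2 s)) t}}} := by
      rintro a ⟨ha, hna⟩
      by_contra hcon
      rw [Set.mem_union, not_or, Set.mem_ofPred_eq, Set.mem_ofPred_eq, not_lt, not_lt] at hcon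
      apply hna
      refine ⟨⟨(measure_mono ?_).trans hcon.1, (measure_mono ?_).trans hcon.2⟩, hall a ha⟩
      · rintro b ⟨hb1, hb2⟩
        exact ⟨ha, hb1, lt_of_le_of_lt hmono hb2⟩
      · rintro b ⟨hb1, hb2, hb3⟩
        exact ⟨ha, hb1, hb2, lt_of_le_of_lt hmono hb3⟩
    refine (measure_mono hsub).trans ((measure_union_le _ _).trans ?_)
    refine (add_le_add m1 m2).trans ?_
    rw [← ENNReal.ofReal_add (by positivity) (by positivity)]
    exact ENNReal.ofReal_le_ofReal (by linarith)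

end Pool.Agent.FIB
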