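import Pool.Agent.FIB.Tel
import Pool.Agent.FIB.Iface

/-!
# Part C2: deterministic lemmas

Proofs.
* `l_good_of_unit`. `N = ⌊s⌋₊`, `M = ⌊ν s⌋₊ ≤ N`, `g = F.f w (pt b s)`, `p = F.f w (pt b (ν s))`. By `UnitP`
  (depths `0 + i`), `rho (F.f w (pt b 0)) (F.f w (pt b N)) = N ± e`,
  `rho (F.f w (pt b 0)) (F.f w (pt b M)) = M ± e`, `rho (F.f w (pt b M)) (F.f w (pt b N)) = N - M ± e`.
  `f_vert`: `rho g (F.f w (pt b N)) ≤ 2 K`, `rho p (F.f w (pt b M)) ≤ 2 K`; `near_vert` (`o = pt 0 0`,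
  `|b| ≤ 1 = exp 0`): `rho (F.f w o) (F.f w (pt b 0)) ≤ 2 K`. So, by the triangle inequality,
  `|rho g t - s| ≤ 2 e + 4 K + 1`, `rho t p ≥ ν s - 1 - 2 e - 4 K`, `rho p g ≤ s - ν s + 1 + e + 4 K`.
  Then `gp p g t = (rho t p + rho t g - rho p g) / 2 ≥ ν s - (5 e + 12 K + 3) / 2` and
  `gp q g t ≥ gp p g t - e` (`gp_change`).
* `l_gp_two`: `gp_min q g q' t`: `min (gp q g t) (gp g q' t) ≤ gp q q' t + 1/2 ≤ e + 1/2`, so
  `gp g q' t ≤ e + 1/2`; `gp_min g g' q' t`: `min (gp g g' t) (gp g' q' t) ≤ gp g q' t + 1/2 ≤ e + 1`,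
  and `gp g' q' t > e + 1`.
* `l_tripod_shift`: `gp_stable` (twice for each pair, with `gp_comm`): `gp a1 a2' t' ≤ e + 1/2`, then
  `gp a2 a1 t' ≤ e + 1`, and so on; `center_unique` with `e + 1`.
-/

set_option autoImplicit false

namespace Pool.Agent.FIB

open UpperHalfPlane MeasureTheory Set

theorem l_good_of_unit {K : ℝ} (hK : 1 ≤ K) (F : QM K) (w : V) {b s ν e : ℝ} (hb : |b| ≤ 1)
    (hν : 0 ≤ ν) (hν1 : ν ≤ 1) (hs : 0 ≤ s) (t q : ℍ) (h1 : rho (F.f w o) t ≤ e)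
    (h2 : UnitP F w b 0 s e) (h3 : rho (F.f w (pt b (ν * s))) q ≤ e) :
    |rho (F.f w (pt b s)) t - s| ≤ 2 * e + 4 * K + 1 ∧
      ν * s - (4 * e + 6 * K + 2) ≤ gp q (F.f w (pt b s)) t := by
  have hνs : 0 ≤ ν * s := mul_nonneg hν hs
  have hνs' : ν * s ≤ s := by nlinarith
  have hN1 : ((⌊s⌋₊ : ℕ) : ℝ) ≤ s := Nat.floor_le hs
  have hN2 : s < (⌊s⌋₊ : ℕ) + 1 := Nat.lt_floor_add_one s
  have hM1 : ((⌊ν * s⌋₊ : ℕ) : ℝ) ≤ ν * s := Nat.floor_le hνs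
  have hM2 : ν * s < (⌊ν * s⌋₊ : ℕ) + 1 := Nat.lt_floor_add_one (ν * s)
  have hMN : ((⌊ν * s⌋₊ : ℕ) : ℝ) ≤ (⌊s⌋₊ : ℕ) := by
    exact_mod_cast Nat.floor_le_floor hνs'
  set N := ⌊s⌋₊ with hN
  set M := ⌊ν * s⌋₊ with hM
  have hNn : (0 : ℝ) ≤ N := Nat.cast_nonneg N
  have hMn : (0 : ℝ) ≤ M := Nat.cast_nonneg M
  have u1 := abs_le.1 (h2 0 N (by simpa using hs) hN1)
  have u2 := abs_le.1 (h2 0 M (by simpa using hs) (hM1.trans hνs'))
  have u3 := abs_le.1 (h2 M N (hM1.trans hνs') hN1)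
  rw [Nat.cast_zero, zero_sub, abs_neg, abs_of_nonneg hNn] at u1
  rw [Nat.cast_zero, zero_sub, abs_neg, abs_of_nonneg hMn] at u2
  rw [abs_sub_comm (M : ℝ) N, abs_of_nonneg (by linarith : (0 : ℝ) ≤ N - M)] at u3
  have v1 := F.f_vert w b s (0 + N)
  have v2 := F.f_vert w b (ν * s) (0 + M)
  have v3 := near_vert hK F w 0 b (0 + 0) (by
    rw [zero_sub, abs_neg, add_zero, mul_zero, Real.exp_zero]
    exact hb)
  rw [abs_of_nonneg (by linarith : (0 : ℝ) ≤ s - (0 + N))] at v1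
  rw [abs_of_nonneg (by linarith : (0 : ℝ) ≤ ν * s - (0 + M))] at v2
  have v1' : K * (s - (0 + (N : ℝ))) ≤ K * 1 :=
    mul_le_mul_of_nonneg_left (by linarith) (by linarith)
  have v2' : K * (ν * s - (0 + (M : ℝ))) ≤ K * 1 :=
    mul_le_mul_of_nonneg_left (by linarith) (by linarith)
  have ho : F.f w (pt 0 (0 + 0)) = F.f w o := by
    unfold o
    rw [add_zero]
  rw [ho] at v3
  obtain ⟨g, hg⟩ : ∃ g, g = F.f w (pt b s) := ⟨_, rfl⟩
  obtain ⟨p, hp⟩ : ∃ p, p = F.f w (pt b (ν * s)) := ⟨_, rfl⟩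
  obtain ⟨gN, hgN⟩ : ∃ p, p = F.f w (pt b (0 + N)) := ⟨_, rfl⟩
  obtain ⟨gM, hgM⟩ : ∃ p, p = F.f w (pt b (0 + M)) := ⟨_, rfl⟩
  obtain ⟨g0, hg0⟩ : ∃ p, p = F.f w (pt b (0 + 0)) := ⟨_, rfl⟩
  obtain ⟨ow, how⟩ : ∃ p, p = F.f w o := ⟨_, rfl⟩
  rw [← hg, ← hgN] at v1
  rw [← hp, ← hgM] at v2
  rw [← how, ← hg0] at v3
  rw [← hg0, ← hgN] at u1
  rw [← hg0, ← hgM] at u2
  rw [← hgM, ← hgN] at u3
  rw [← how] at h1
  rw [← hp] at h3
  rw [← hg]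
  have c1 := rho_comm g gN
  have c2 := rho_comm gN g0
  have c3 := rho_comm g0 ow
  have c4 := rho_comm g t
  have c5 := rho_comm p t
  have c6 := rho_comm p gM
  have c7 := rho_comm q t
  have c8 := rho_comm q p
  have t1 := rho_triangle g gN t
  have t2 := rho_triangle gN g0 t
  have t3 := rho_triangle g0 ow t
  have t4 := rho_triangle g0 t gN
  have t5 := rho_triangle t g gN
  have t6 := rho_triangle g0 t gM
  have t7 := rho_triangle t p gM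
  have t8 := rho_triangle p gM g
  have t9 := rho_triangle gM gN g
  have t10 := rho_triangle t q p
  have t11 := rho_triangle q p g
  have hh := rho_nonneg p q
  constructor
  · rw [abs_le]
    constructor
    · linarith [u1.1]
    · linarith [u1.2]
  · unfold gp
    linarith [u1.1, u2.1, u3.2]

theorem l_gp_two {g g' q q' t : ℍ} {e : ℝ} (h : gp q q' t ≤ e) (h1 : e + 1 < gp q g t)
    (h2 : e + 1 < gp q' g' t) : gp g g' t ≤ e + 1 := by
  have a1 := gp_min q g q' t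
  have a2 : gp g q' t ≤ e + 1 / 2 := by
    rcases min_le_iff.1 a1 with h3 | h3
    · linarith
    · linarith
  have a3 := gp_min g g' q' t
  rcases min_le_iff.1 a3 with h3 | h3
  · linarith
  · rw [gp_comm g' q' t] at h3
    linarith

theorem l_tripod_shift {a1 a2 a3 a1' a2' a3' t t' : ℍ} {e : ℝ}
    (h12 : gp a1 a2 t ≤ e) (h23 : gp a2 a3 t ≤ e) (h13 : gp a1 a3 t ≤ e)
    (h12' : gp a1' a2' t' ≤ e) (h23' : gp a2' a3' t' ≤ e) (h13' : gp a1' a3' t' ≤ e)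
    (d1 : e + 1 < rho t' a1' - rho a1' a1) (d2 : e + 1 < rho t' a2' - rho a2' a2)
    (d3 : e + 1 < rho t' a3' - rho a3' a3) : rho t t' ≤ 5 * (e + 1) + 1 := by
  have k : ∀ x x' y y' : ℍ, gp x' y' t' ≤ e → e + 1 < rho t' x' - rho x' x →
      e + 1 < rho t' y' - rho y' y → gp x y t' ≤ e + 1 := by
    intro x x' y y' h hx hy
    have b1 := gp_stable (a := x') (a' := x) (b := y') (t := t') h (by linarith)
    rw [gp_comm] at b1
    have b2 := gp_stable (a := y') (a' := y) (b := x) (t := t') b1 (by linarith)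
    rw [gp_comm] at b2
    linarith
  exact center_unique (h12.trans (by linarith)) (h23.trans (by linarith)) (h13.trans (by linarith))
    (k a1 a1' a2 a2' h12' d1 d2) (k a2 a2' a3 a3' h23' d2 d3) (k a1 a1' a3 a3' h13' d1 d3)

end Pool.Agent.FIB
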