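import Pool.Agent.FIB.LDefs
import Pool.Agent.FIB.LMeas
import Pool.Agent.FIB.LPath

/-!
# Part C2: `StStar K → StL1 K`

`ν` from `StStar`. Let `ε > 0`, `ε1 = min (ε / 20) (ν / 10)`; `s0` the maximum of the constant of
`StStar` for `ε1` and of `10 K / ε1 + 1`, so that `2 K + 1 ≤ ε1 s`. Let `s ≥ s0`, `t`, `P` from `StStar`, `c ∈ [-2,2]`.
`Bad = {q : V × ℝ | q.1 ∈ box 4 ∧ q.2 ∈ [-1,1] ∧ ¬ (..)}` the set of the second clause of `StStar`, and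
`A = {p : ℝ × ℝ | p.1 ∈ [-2,2] ∧ p.2 ∈ [-1,1] ∧ ∀ β ∈ [0,1], ((p.1 + β p.2, c + β), p.2) ∈ Bad}`:
`volume A ≤ volume Bad ≤ ofReal ε1` (`l_shear`).
* Let `(a, b) ∈ [-2,2] × [-1,1]`, `(a, b) ∉ A`: there is `β ∈ [0,1]` with `(u', b) ∉ Bad`, `u' = (a + β b, c + β)`;
  as `u' ∈ box 4`, `|rho p t - s| ≤ ε1 s` and `ν s - ε1 s ≤ gp (P b) p t` for `p = F.f (e^s u') (pt b s)`. Let
  `g = F.f (e^s (a, c)) (pt b s)`. `nm (pt b s) (e^s (a, c) - e^s u') = nm (pt b s) ((- e^s β) • ev b) = β ≤ 1`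
  (`nm_pt_ev`), so `rho g p ≤ 2 K` (`near_sheet`). So (H): `|rho g t - s| ≤ 2 ε1 s` and
  `ν s - 2 ε1 s ≤ gp (P b) g t` (`gp_change`, `gp_comm`).
* First set: contained in `A` as `2 ε1 ≤ ε`.
* Second set: `(a, b, b')` with `(a, b) ∉ A`, `(a, b') ∉ A` and `gp (P b) (P b') t ≤ ε1 s`: `l_gp_two` with `e = ε1 s`
  (`ε1 s + 1 < ν s - 2 ε1 s` as `4 ε1 s < ν s`, `1 < ε1 s`): `gp g g' t ≤ ε1 s + 1 ≤ ε s`. So the second set is
  contained in the union of `{q | (q.1, q.2.1) ∈ A ∧ q.2.2 ∈ [-1,1]}`, `{q | (q.1, q.2.2) ∈ A ∧ q.2.1 ∈ [-1,1]}`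
  and `{q | q.1 ∈ [-2,2] ∧ q.2 ∈ S3}` (`l_prod3_left`, `l_prod3_mid`, `l_prod3_right`): measure
  `≤ 2 ε1 + 2 ε1 + 4 ε1 ≤ ε`.
-/

set_option autoImplicit false

namespace Pool.Agent.FIB

open UpperHalfPlane MeasureTheory Set

private lemma LOne_key {K : ℝ} (hK : 1 ≤ K) (F : QM K) {s ε1 ν : ℝ} {t : ℍ} {P : ℝ → ℍ} {c : ℝ}
    (hc : c ∈ Icc (-2 : ℝ) 2) (hs : 2 * K + 1 ≤ ε1 * s) {a b : ℝ} (ha : a ∈ Icc (-2 : ℝ) 2)
    (hb : b ∈ Icc (-1 : ℝ) 1)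
    (hA : ¬ ∀ β ∈ Icc (0 : ℝ) 1, (((a + β * b, c + β), b) : V × ℝ) ∈
      {q : V × ℝ | q.1 ∈ box 4 ∧ q.2 ∈ Icc (-1) 1 ∧
        ¬ (|rho (F.f (Real.exp s • q.1) (pt q.2 s)) t - s| ≤ ε1 * s ∧
          ν * s - ε1 * s ≤ gp (P q.2) (F.f (Real.exp s • q.1) (pt q.2 s)) t)}) :
    |rho (F.f (Real.exp s • ((a, c) : V)) (pt b s)) t - s| ≤ 2 * (ε1 * s) ∧
      ν * s - 2 * (ε1 * s) ≤ gp (P b) (F.f (Real.exp s • ((a, c) : V)) (pt b s)) t := by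
  obtain ⟨β, hβn⟩ := not_forall.1 hA
  obtain ⟨hβ, hn⟩ := Classical.not_imp.1 hβn
  obtain ⟨hβ0, hβ1⟩ := hβ
  obtain ⟨ha0, ha1⟩ := ha
  obtain ⟨hb0, hb1⟩ := hb
  obtain ⟨hc0, hc1⟩ := hc
  have hbox : ((a + β * b, c + β) : V) ∈ box 4 := by
    refine ⟨⟨?_, ?_⟩, ⟨?_, ?_⟩⟩ <;> dsimp only <;> nlinarith
  have hgood : |rho (F.f (Real.exp s • ((a + β * b, c + β) : V)) (pt b s)) t - s| ≤ ε1 * s ∧
      ν * s - ε1 * s ≤ gp (P b) (F.f (Real.exp s • ((a + β * b, c + β) : V)) (pt b s)) t := by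
    by_contra hcon
    exact hn ⟨hbox, ⟨hb0, hb1⟩, hcon⟩
  obtain ⟨h1, h2⟩ := hgood
  have hnm : nm (pt b s) (Real.exp s • ((a, c) : V) - Real.exp s • ((a + β * b, c + β) : V)) ≤ 1 := by
    have e1 : Real.exp s • ((a, c) : V) - Real.exp s • ((a + β * b, c + β) : V) =
        (-(Real.exp s * β)) • ev b := by
      unfold ev
      ext
      · simp only [Prod.smul_mk, Prod.fst_sub, smul_eq_mul]
        ring
      · simp only [Prod.smul_mk, Prod.snd_sub, smul_eq_mul]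
        ring
    rw [e1, nm_pt_ev, abs_neg, abs_of_nonneg (by positivity), Real.exp_neg]
    have := Real.exp_pos s
    field_simp
    exact hβ1
  have h3 := (near_sheet hK F _ _ _ hnm).1
  have h4 := rho_triangle (F.f (Real.exp s • ((a, c) : V)) (pt b s))
    (F.f (Real.exp s • ((a + β * b, c + β) : V)) (pt b s)) t
  have h5 := rho_triangle (F.f (Real.exp s • ((a + β * b, c + β) : V)) (pt b s))
    (F.f (Real.exp s • ((a, c) : V)) (pt b s)) t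
  have h6 := gp_change (F.f (Real.exp s • ((a + β * b, c + β) : V)) (pt b s))
    (F.f (Real.exp s • ((a, c) : V)) (pt b s)) (P b) t
  rw [rho_comm (F.f (Real.exp s • ((a + β * b, c + β) : V)) (pt b s))
    (F.f (Real.exp s • ((a, c) : V)) (pt b s))] at h5 h6
  rw [gp_comm _ (P b), gp_comm _ (P b)] at h6
  rw [abs_le] at h1 ⊢
  refine ⟨⟨?_, ?_⟩, ?_⟩ <;> linarith [h1.1, h1.2]

theorem l_one {K : ℝ} (hK : 1 ≤ K) (h : StStar K) : StL1 K := by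
  obtain ⟨ν, hν0, hν1, H⟩ := h
  intro ε hε
  obtain ⟨ε1, hε1⟩ : ∃ ε1 : ℝ, ε1 = min (ε / 20) (ν / 10) := ⟨_, rfl⟩
  have hpos : 0 < ε1 := by
    rw [hε1]
    exact lt_min (by positivity) (by positivity)
  have hle1 : ε1 ≤ ε / 20 := by rw [hε1]; exact min_le_left _ _
  have hle2 : ε1 ≤ ν / 10 := by rw [hε1]; exact min_le_right _ _
  obtain ⟨s1, hs1, H1⟩ := H ε1 hpos
  refine ⟨max s1 (10 * K / ε1 + 1), lt_of_lt_of_le hs1 (le_max_left _ _), ?_⟩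
  intro F s hs
  have hs1' : s1 ≤ s := (le_max_left _ _).trans hs
  have hspos : 0 < s := lt_of_lt_of_le hs1 hs1'
  have hs2 : 2 * K + 1 ≤ ε1 * s := by
    have h2 : 10 * K / ε1 + 1 ≤ s := (le_max_right _ _).trans hs
    have h3 := mul_le_mul_of_nonneg_left h2 hpos.le
    have h4 : ε1 * (10 * K / ε1 + 1) = 10 * K + ε1 := by field_simp
    rw [h4] at h3
    linarith
  have hνs : 10 * (ε1 * s) ≤ ν * s := by nlinarith
  have hεs : 20 * (ε1 * s) ≤ ε * s := by nlinarith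
  have hes : 0 ≤ ε1 * s := by positivity
  obtain ⟨t, P, h1, h2, h3⟩ := H1 F s hs1'
  refine ⟨t, ?_, ?_⟩
  · refine (measure_mono ?_).trans (h1.trans (ENNReal.ofReal_le_ofReal (by linarith)))
    rintro u ⟨hu, hu2⟩
    exact ⟨hu, lt_of_le_of_lt (by linarith) hu2⟩
  intro c hc
  obtain ⟨Bad, hBad⟩ : ∃ Bad : Set (V × ℝ), Bad = {q : V × ℝ | q.1 ∈ box 4 ∧ q.2 ∈ Icc (-1) 1 ∧
        ¬ (|rho (F.f (Real.exp s • q.1) (pt q.2 s)) t - s| ≤ ε1 * s ∧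
          ν * s - ε1 * s ≤ gp (P q.2) (F.f (Real.exp s • q.1) (pt q.2 s)) t)} := ⟨_, rfl⟩
  obtain ⟨A, hA⟩ : ∃ A : Set (ℝ × ℝ), A = {p : ℝ × ℝ | p.1 ∈ Icc (-2) 2 ∧ p.2 ∈ Icc (-1) 1 ∧
      ∀ β ∈ Icc (0 : ℝ) 1, (((p.1 + β * p.2, c + β), p.2) : V × ℝ) ∈ Bad} := ⟨_, rfl⟩
  have hAv : volume A ≤ ENNReal.ofReal ε1 := by
    rw [hA]
    refine (l_shear Bad c).trans ?_
    rw [hBad]
    exact h2
  have key : ∀ a b : ℝ, a ∈ Icc (-2 : ℝ) 2 → b ∈ Icc (-1 : ℝ) 1 → ((a, b) : ℝ × ℝ) ∉ A →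
      |rho (F.f (Real.exp s • ((a, c) : V)) (pt b s)) t - s| ≤ 2 * (ε1 * s) ∧
      ν * s - 2 * (ε1 * s) ≤ gp (P b) (F.f (Real.exp s • ((a, c) : V)) (pt b s)) t := by
    intro a b ha hb hab
    refine LOne_key hK F hc hs2 ha hb ?_
    intro hcon
    apply hab
    rw [hA]
    refine ⟨ha, hb, ?_⟩
    rw [hBad]
    exact hcon
  refine ⟨?_, ?_⟩
  · refine (measure_mono ?_).trans (hAv.trans (ENNReal.ofReal_le_ofReal (by linarith)))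
    rintro ⟨a, b⟩ ⟨ha, hb, hq⟩
    by_contra hcon
    have := (key a b ha hb hcon).1
    dsimp only at hq
    linarith
  · obtain ⟨S3, hS3⟩ : ∃ S3 : Set (ℝ × ℝ), S3 = {q : ℝ × ℝ | q.1 ∈ Icc (-1) 1 ∧ q.2 ∈ Icc (-1) 1 ∧
      ε1 * s < gp (P q.1) (P q.2) t} := ⟨_, rfl⟩
    have hS3v : volume S3 ≤ ENNReal.ofReal ε1 := by
      rw [hS3]
      exact h3
    have hsub : {q : ℝ × ℝ × ℝ | q.1 ∈ Icc (-2) 2 ∧ q.2.1 ∈ Icc (-1) 1 ∧ q.2.2 ∈ Icc (-1) 1 ∧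
        ε * s < gp (F.f (Real.exp s • ((q.1, c) : V)) (pt q.2.1 s))
          (F.f (Real.exp s • ((q.1, c) : V)) (pt q.2.2 s)) t} ⊆
        ({q : ℝ × ℝ × ℝ | (q.1, q.2.1) ∈ A ∧ q.2.2 ∈ Icc (-1) 1} ∪
          {q : ℝ × ℝ × ℝ | (q.1, q.2.2) ∈ A ∧ q.2.1 ∈ Icc (-1) 1}) ∪
          {q : ℝ × ℝ × ℝ | q.1 ∈ Icc (-2) 2 ∧ q.2 ∈ S3} := by
      rintro ⟨a, b, b'⟩ ⟨ha, hb, hb', hq⟩
      dsimp only at ha hb hb' hq
      by_cases c1 : ((a, b) : ℝ × ℝ) ∈ A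
      · exact Or.inl (Or.inl ⟨c1, hb'⟩)
      by_cases c2 : ((a, b') : ℝ × ℝ) ∈ A
      · exact Or.inl (Or.inr ⟨c2, hb⟩)
      by_cases c3 : ε1 * s < gp (P b) (P b') t
      · refine Or.inr ⟨ha, ?_⟩
        rw [hS3]
        exact ⟨hb, hb', c3⟩
      exfalso
      have k1 := (key a b ha hb c1).2
      have k2 := (key a b' ha hb' c2).2
      have k3 := l_gp_two (not_lt.1 c3) (g := F.f (Real.exp s • ((a, c) : V)) (pt b s))
        (g' := F.f (Real.exp s • ((a, c) : V)) (pt b' s)) (by linarith) (by linarith)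
      linarith
    refine (measure_mono hsub).trans ?_
    refine (measure_union_le _ _).trans ?_
    refine (add_le_add ((measure_union_le _ _).trans (add_le_add (l_prod3_left A) (l_prod3_mid A)))
      (l_prod3_right S3)).trans ?_
    have e2 : (2 : ENNReal) = ENNReal.ofReal 2 := by norm_num
    have e4 : (4 : ENNReal) = ENNReal.ofReal 4 := by norm_num
    have hfin : (2 : ENNReal) * volume A + 2 * volume A + 4 * volume S3 ≤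
        2 * ENNReal.ofReal ε1 + 2 * ENNReal.ofReal ε1 + 4 * ENNReal.ofReal ε1 := by
      gcongr
    refine hfin.trans ?_
    rw [e2, e4, ← ENNReal.ofReal_mul (by norm_num), ← ENNReal.ofReal_mul (by norm_num),
      ← ENNReal.ofReal_add (by positivity) (by positivity),
      ← ENNReal.ofReal_add (by positivity) (by positivity)]
    exact ENNReal.ofReal_le_ofReal (by linarith)

end Pool.Agent.FIB
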