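import Pool.Agent.FIB.LDefs
import Pool.Agent.FIB.LMeas

/-!
# Part C2: the pieces of a line

`hs0` is the conclusion of `StLM` for `η`. Proof: `l_cut` for
`Q a = ∃ t, LineT F (e^s (a, c)) r (η r) η t ∧ rho (F.f (e^s (a, c)) o) t ≤ K (r + 5) + K + η r`, `h = e^{r - s} ≤ 1`,
`m = η`. For `x0 : ℝ` let `w0 = e^s (x0, c)` and apply `hs0` to `F.tr w0 1`, `r`, and the line `0 ∈ [-2,2]` (last
clause): `(F.tr w0 1).f (e^r (x, 0)) y = F.f (w0 + act 1 (e^r (x, 0))) (1 • y) = F.f (e^s (x0 + e^{r-s} x, c)) y`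
(`tr_f`, `act_one`, `one_smul`; `Prod.ext`, `e^s e^{r-s} = e^r`). So the set `{x ∈ [-2,2] | ¬ Q (x0 + h x)}` is contained in
the set of the last clause.
-/

set_option autoImplicit false

namespace Pool.Agent.FIB

open UpperHalfPlane MeasureTheory Set

theorem l_piece {K : ℝ} {η s0 : ℝ} (hη : 0 < η)
    (hs0 : ∀ (F : QM K) (s : ℝ), s0 ≤ s → ∃ t : ℍ, ∀ c ∈ Icc (-2 : ℝ) 2,
      volume {a : ℝ | a ∈ Icc (-2) 2 ∧
        ¬ (LineT F (Real.exp s • ((a, c) : V)) s (η * s) η t ∧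
          rho (F.f (Real.exp s • ((a, c) : V)) o) t ≤ K * (s + 5) + K + η * s)} ≤ ENNReal.ofReal η)
    (F : QM K) {r s : ℝ} (hr : s0 ≤ r) (hrs : r ≤ s) (c : ℝ) :
    volume {a : ℝ | a ∈ Icc (-2) 2 ∧
      ¬ ∃ t : ℍ, LineT F (Real.exp s • ((a, c) : V)) r (η * r) η t ∧
        rho (F.f (Real.exp s • ((a, c) : V)) o) t ≤ K * (r + 5) + K + η * r} ≤
      ENNReal.ofReal (2 * η) := by
  have hh : Real.exp (r - s) ≤ 1 := Real.exp_le_one_iff.2 (by linarith)
  refine l_cut (fun a => ∃ t : ℍ, LineT F (Real.exp s • ((a, c) : V)) r (η * r) η t ∧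
    rho (F.f (Real.exp s • ((a, c) : V)) o) t ≤ K * (r + 5) + K + η * r)
    (Real.exp_pos (r - s)) hh hη.le ?_
  intro x0
  obtain ⟨t, ht⟩ := hs0 (F.tr (Real.exp s • ((x0, c) : V)) 1) r hr
  refine (measure_mono ?_).trans (ht 0 ⟨by norm_num, by norm_num⟩)
  rintro x ⟨hx, hx2⟩
  refine ⟨hx, fun h => hx2 ⟨t, ?_⟩⟩
  have key : ∀ y : ℍ, (F.tr (Real.exp s • ((x0, c) : V)) 1).f (Real.exp r • ((x, 0) : V)) y =
      F.f (Real.exp s • ((x0 + Real.exp (r - s) * x, c) : V)) y := by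
    intro y
    rw [QM.tr_f, act_one, one_smul]
    congr 1
    have h1 : Real.exp r = Real.exp s * Real.exp (r - s) := by
      rw [← Real.exp_add]
      congr 1
      ring
    ext
    · simp only [Prod.fst_add, Prod.smul_fst, smul_eq_mul]
      rw [h1]
      ring
    · simp only [Prod.snd_add, Prod.smul_snd, smul_eq_mul]
      ring
  unfold LineT at h ⊢
  simp only [key] at h
  exact h

end Pool.Agent.FIB
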