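import Pool.Agent.FIB.Meas

/-!
# Part C2: the shear

* `l_shear`. Replace `S` by a measurable superset of the same measure (`toMeasurable volume S`,
  `subset_toMeasurable`, `measure_toMeasurable`), so let `S` be measurable. Let
  `A = {p | p.1 ∈ [-2,2] ∧ p.2 ∈ [-1,1] ∧ ∀ β ∈ [0,1], ((p.1 + β p.2, c + β), p.2) ∈ S}` and
  `T = {q : (ℝ × ℝ) × ℝ | ((q.1.1 + q.2 * q.1.2, c + q.2), q.1.2) ∈ S}` (`q = ((a, b), β)`). Then `A ×ˢ Icc 0 1 ⊆ T`, so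
  `volume A = volume A * 1 ≤ volume T` (`Measure.prod_prod` holds for all sets). And `volume T = volume S`:
  rearrange `((a, b), β) ↦ ((a, β), b)` (measure preserving: `MeasurableEquiv.prodAssoc`,
  `Measure.measurePreserving_swap`, `MeasurePreserving.prod`), then by `Measure.prod_apply_symm` it is
  `∫⁻ b, volume {p : ℝ × ℝ | ((p.1 + p.2 * b, c + p.2), b) ∈ S} = ∫⁻ b, volume {u : V | (u, b) ∈ S}`, by
  `actV_le` for the set `{u | (u, b) ∈ S}`, the matrix `!![1, b; 0, 1] = fr b 0` (`act_fr`) and the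
  translation `(0, c)`. Alternatively, compute `volume T` with `Measure.prod_apply` / `lintegral_prod` and
  `lintegral_lintegral_swap`.
-/

set_option autoImplicit false

namespace Pool.Agent.FIB

open UpperHalfPlane MeasureTheory Set
open scoped MatrixGroups

private theorem shear_vol {S : Set (V × ℝ)} (hS : MeasurableSet S) (c : ℝ) :
    volume {q : (ℝ × ℝ) × ℝ | (((q.1.1 + q.2 * q.1.2, c + q.2), q.1.2) : V × ℝ) ∈ S} = volume S := by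
  -- the rearrangement
  have hsw : MeasurePreserving (Prod.map id Prod.swap : ℝ × (ℝ × ℝ) → ℝ × (ℝ × ℝ)) volume volume :=
    (MeasurePreserving.id (volume : Measure ℝ)).prod
      (Measure.measurePreserving_swap (μ := (volume : Measure ℝ)) (ν := (volume : Measure ℝ)))
  have h1 : MeasurePreserving (MeasurableEquiv.prodAssoc : (ℝ × ℝ) × ℝ ≃ᵐ ℝ × ℝ × ℝ) volume volume :=
    volume_preserving_prodAssoc
  have hψ := (h1.symm).comp (hsw.comp h1)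
  have hT' : MeasurableSet {q : (ℝ × ℝ) × ℝ | (((q.1.1 + q.1.2 * q.2, c + q.1.2), q.2) : V × ℝ) ∈ S} := by
    have hm : Measurable fun q : (ℝ × ℝ) × ℝ => (((q.1.1 + q.1.2 * q.2, c + q.1.2), q.2) : V × ℝ) := by
      fun_prop
    exact hm hS
  have h2 := hψ.measure_preimage hT'.nullMeasurableSet
  have h3 : {q : (ℝ × ℝ) × ℝ | (((q.1.1 + q.2 * q.1.2, c + q.2), q.1.2) : V × ℝ) ∈ S} =
      ((MeasurableEquiv.prodAssoc : (ℝ × ℝ) × ℝ ≃ᵐ ℝ × ℝ × ℝ).symm ∘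
        (Prod.map id Prod.swap ∘ (MeasurableEquiv.prodAssoc : (ℝ × ℝ) × ℝ ≃ᵐ ℝ × ℝ × ℝ))) ⁻¹'
      {q : (ℝ × ℝ) × ℝ | (((q.1.1 + q.1.2 * q.2, c + q.1.2), q.2) : V × ℝ) ∈ S} := by
    rfl
  rw [h3, h2]
  have h4 : volume {q : (ℝ × ℝ) × ℝ | (((q.1.1 + q.1.2 * q.2, c + q.1.2), q.2) : V × ℝ) ∈ S} =
      ∫⁻ b, volume {p : ℝ × ℝ | (((p.1 + p.2 * b, c + p.2), b) : V × ℝ) ∈ S} :=
    Measure.prod_apply_symm hT'
  have h5 : volume S = ∫⁻ b, volume {u : V | (u, b) ∈ S} := Measure.prod_apply_symm hS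
  rw [h4, h5]
  refine lintegral_congr fun b => ?_
  have h6 := actV_le {u : V | (u, b) ∈ S} (fr b 0) (0, c)
  rw [← h6]
  refine congrArg volume ?_
  ext p
  rw [Set.mem_ofPred_eq, Set.mem_ofPred_eq, Set.mem_ofPred_eq, act_fr]
  have h7 : ((0 : ℝ), c) + (Real.exp (-0) * p.1 + b * Real.exp 0 * p.2, Real.exp 0 * p.2) =
      ((p.1 + p.2 * b, c + p.2) : V) := by
    ext
    · simp only [Prod.fst_add, neg_zero, Real.exp_zero]
      ring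
    · simp only [Prod.snd_add, Real.exp_zero]
      ring
  rw [h7]

theorem l_shear (S : Set (V × ℝ)) (c : ℝ) :
    volume {p : ℝ × ℝ | p.1 ∈ Icc (-2) 2 ∧ p.2 ∈ Icc (-1) 1 ∧
      ∀ β ∈ Icc (0 : ℝ) 1, (((p.1 + β * p.2, c + β), p.2) : V × ℝ) ∈ S} ≤ volume S := by
  rw [← measure_toMeasurable S, ← shear_vol (measurableSet_toMeasurable volume S) c]
  have h1 : volume {p : ℝ × ℝ | p.1 ∈ Icc (-2) 2 ∧ p.2 ∈ Icc (-1) 1 ∧
      ∀ β ∈ Icc (0 : ℝ) 1, (((p.1 + β * p.2, c + β), p.2) : V × ℝ) ∈ S} =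
      (volume : Measure ((ℝ × ℝ) × ℝ)) ({p : ℝ × ℝ | p.1 ∈ Icc (-2) 2 ∧ p.2 ∈ Icc (-1) 1 ∧
      ∀ β ∈ Icc (0 : ℝ) 1, (((p.1 + β * p.2, c + β), p.2) : V × ℝ) ∈ S} ×ˢ Icc (0 : ℝ) 1) := by
    have h2 : (volume : Measure ((ℝ × ℝ) × ℝ)) ({p : ℝ × ℝ | p.1 ∈ Icc (-2) 2 ∧ p.2 ∈ Icc (-1) 1 ∧
      ∀ β ∈ Icc (0 : ℝ) 1, (((p.1 + β * p.2, c + β), p.2) : V × ℝ) ∈ S} ×ˢ Icc (0 : ℝ) 1) =
      volume {p : ℝ × ℝ | p.1 ∈ Icc (-2) 2 ∧ p.2 ∈ Icc (-1) 1 ∧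
      ∀ β ∈ Icc (0 : ℝ) 1, (((p.1 + β * p.2, c + β), p.2) : V × ℝ) ∈ S} *
      volume (Icc (0 : ℝ) 1) := Measure.prod_prod _ _
    rw [h2, Real.volume_Icc, sub_zero, ENNReal.ofReal_one, mul_one]
  rw [h1]
  refine measure_mono ?_
  rintro ⟨p, β⟩ ⟨hp, hβ⟩
  exact subset_toMeasurable volume S (hp.2.2 β hβ)

end Pool.Agent.FIB
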