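import Pool.Agent.FIB.LDefs
import Pool.Agent.FIB.LMeas
import Pool.Agent.FIB.LPath

/-!
# Part C2: `StB K → StP K → StStar K`

`ν` from `StP`. Let `ε > 0`, `η = min (ε / 10) (1 / 10)`, `ε1 = η ^ 2` (`≤ η / 10`); `s0` is the maximum of
the two constants for `ε1` and of `100 K / ε + 1`. Let `s ≥ s0`, `σ = ν s ≤ s`, `t` the point of `StB`.
* `S3 = {(u, b, b') | u ∈ box 8, b, b' ∈ [-8,8], ε1 s < gp (F.f (e^s u) (pt b σ)) (F.f (e^s u) (pt b' σ)) t}`
  (`StB` with `L = σ`) has measure `≤ ε1 = η * η`: by `markov_fubini` (`V × (ℝ × ℝ)`) the set `N1` of `u` with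
  `ofReal η < volume {(b, b') | (u, b, b') ∈ S3}` has measure `≤ η`. Measurability: `F.measSet`
  (and `box`, `Icc` are measurable).
* `SP = {(u, u', b) ...}` of `StP`: the set `N2` of `u` with `ofReal η < volume {(u', b) | (u, u', b) ∈ SP}` has
  measure `≤ η`.
* `volume (box 4) = 64 > 2 η`, so there is `u* ∈ box 4` outside `N1 ∪ N2`. `P b = F.f (e^s u*) (pt b σ)`.
* Third clause: `{q | q.1 ∈ [-1,1] ∧ q.2 ∈ [-1,1] ∧ ε s < gp (P q.1) (P q.2) t} ⊆ {(b, b') | (u*, b, b') ∈ S3}`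
  as `ε1 s ≤ ε s`, `box 4 ⊆ box 8`. Measure `≤ η ≤ ε`. First clause: monotonicity.
* Second clause: let `(u, b) ∈ box 4 × [-1,1]` with `rho (F.f (e^s u) o) t ≤ ε1 s`,
  `UnitP F (e^s u) b 0 s (ε1 s)` and `rho (F.f (e^s u*) (pt b σ)) (F.f (e^s u) (pt b σ)) ≤ ε1 s`: then
  `l_good_of_unit` with `e = ε1 s`, `q = P b` gives `|rho g t - s| ≤ 2 ε1 s + 4 K + 1 ≤ ε s` and
  `gp (P b) g t ≥ ν s - (4 ε1 s + 6 K + 2) ≥ ν s - ε s`. So the bad set is contained in the union of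
  `{u | ...} ×ˢ [-1,1]` (measure `≤ 2 ε1`, `Measure.prod_prod`), of the bad set of `UnitP` (measure `≤ ε1`) and of
  `{(u', b) | (u*, u', b) ∈ SP}` (measure `≤ η`); `3 ε1 + η ≤ ε`.
-/

set_option autoImplicit false

namespace Pool.Agent.FIB

open UpperHalfPlane MeasureTheory Set

private theorem ls_box {M N : ℝ} (h : M ≤ N) {u : V} (hu : u ∈ box M) : u ∈ box N :=
  ⟨⟨(neg_le_neg h).trans hu.1.1, hu.1.2.trans h⟩, (neg_le_neg h).trans hu.2.1, hu.2.2.trans h⟩

private theorem ls_box_meas (M : ℝ) : MeasurableSet (box M) :=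
  measurableSet_Icc.prod measurableSet_Icc

private theorem ls_vol : (volume : Measure V) (box 4) = ENNReal.ofReal 64 := by
  have h1 : (volume : Measure V) (box 4) = volume (Icc (-4 : ℝ) 4) * volume (Icc (-4 : ℝ) 4) :=
    Measure.prod_prod _ _
  rw [h1, Real.volume_Icc, ← ENNReal.ofReal_mul (by norm_num)]
  norm_num

theorem l_star {K : ℝ} (hK : 1 ≤ K) (hB : StB K) (hP : StP K) : StStar K := by
  obtain ⟨ν, hν0, hν1, hP⟩ := hP
  refine ⟨ν, hν0, hν1, fun ε hε => ?_⟩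
  obtain ⟨η, hη0, hη1, hη2⟩ : ∃ η : ℝ, 0 < η ∧ η ≤ ε / 10 ∧ η ≤ 1 / 10 :=
    ⟨min (ε / 10) (1 / 10), lt_min (by linarith) (by norm_num), min_le_left _ _, min_le_right _ _⟩
  have hε1 : 0 < η ^ 2 := by positivity
  have hε2 : η ^ 2 ≤ η / 10 := by
    have := mul_le_mul_of_nonneg_left hη2 hη0.le
    calc η ^ 2 = η * η := sq η
      _ ≤ η * (1 / 10) := this
      _ = η / 10 := by ring
  obtain ⟨s1, hs1, hB⟩ := hB (η ^ 2) hε1
  obtain ⟨s2, hs2, hP⟩ := hP (η ^ 2) hε1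
  refine ⟨max (max s1 s2) (100 * K / ε + 1), lt_max_of_lt_left (lt_max_of_lt_left hs1),
    fun F s hs => ?_⟩
  have h1 : s1 ≤ s := (le_max_left _ _).trans ((le_max_left _ _).trans hs)
  have h2 : s2 ≤ s := (le_max_right _ _).trans ((le_max_left _ _).trans hs)
  have h3 : 100 * K / ε + 1 ≤ s := (le_max_right _ _).trans hs
  have hs0 : 0 < s := lt_of_lt_of_le hs1 h1
  have hKs : 100 * K ≤ ε * s := by
    have h4 : 100 * K / ε ≤ s := by linarith
    rw [div_le_iff₀ hε] at h4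
    linarith
  have hes : η ^ 2 * s ≤ ε * s / 100 := by
    have : η ^ 2 ≤ ε / 100 := by linarith
    calc η ^ 2 * s ≤ ε / 100 * s := mul_le_mul_of_nonneg_right this hs0.le
      _ = ε * s / 100 := by ring
  have hεs : 0 < ε * s := by positivity
  obtain ⟨t, hB1, hB2, hB3, -⟩ := hB F s h1
  have hP1 := hP F s h2
  have hB3' := hB3 (ν * s) (by positivity) (by nlinarith)
  -- the two bad sets
  obtain ⟨S3, hS3⟩ : ∃ S3 : Set (V × ℝ × ℝ), S3 = {q : V × ℝ × ℝ | q.1 ∈ box 8 ∧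
      q.2.1 ∈ Icc (-8) 8 ∧ q.2.2 ∈ Icc (-8) 8 ∧ η ^ 2 * s <
        gp (F.f (Real.exp s • q.1) (pt q.2.1 (ν * s))) (F.f (Real.exp s • q.1) (pt q.2.2 (ν * s)))
          t} := ⟨_, rfl⟩
  obtain ⟨SP, hSP⟩ : ∃ SP : Set (V × V × ℝ), SP = {q : V × V × ℝ | q.1 ∈ box 4 ∧
      q.2.1 ∈ box 4 ∧ q.2.2 ∈ Icc (-1) 1 ∧ η ^ 2 * s <
        rho (F.f (Real.exp s • q.1) (pt q.2.2 (ν * s)))
          (F.f (Real.exp s • q.2.1) (pt q.2.2 (ν * s)))} := ⟨_, rfl⟩
  rw [← hS3] at hB3'
  rw [← hSP] at hP1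
  have hS3m : MeasurableSet S3 := by
    rw [hS3]
    have hm := F.measSet (Ω := V × ℝ × ℝ) (ι := Bool) (fun _ q => Real.exp s • q.1)
      (fun i q => pt (if i then q.2.1 else q.2.2) (ν * s))
      (fun _ => measurable_fst.const_smul (Real.exp s))
      (fun i => measurable_pt' (by
        cases i
        · exact measurable_snd.snd
        · exact measurable_snd.fst) measurable_const)
      (fun y => η ^ 2 * s < gp (y true).2 (y false).2 t)
    exact (measurable_fst (ls_box_meas 8)).inter ((measurable_snd.fst measurableSet_Icc).inter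
      ((measurable_snd.snd measurableSet_Icc).inter hm))
  have hSPm : MeasurableSet SP := by
    rw [hSP]
    have hm := F.measSet (Ω := V × V × ℝ) (ι := Bool)
      (fun i q => Real.exp s • (if i then q.1 else q.2.1))
      (fun _ q => pt q.2.2 (ν * s))
      (fun i => (by
        cases i
        · exact measurable_snd.fst.const_smul (Real.exp s)
        · exact measurable_fst.const_smul (Real.exp s)))
      (fun _ => measurable_pt' measurable_snd.snd measurable_const)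
      (fun y => η ^ 2 * s < rho (y true).2 (y false).2)
    exact (measurable_fst (ls_box_meas 4)).inter ((measurable_snd.fst (ls_box_meas 4)).inter
      ((measurable_snd.snd measurableSet_Icc).inter hm))
  have e1 : ENNReal.ofReal (η ^ 2) = ENNReal.ofReal (η * η) := by rw [sq]
  have hN1 := markov_fubini hS3m hη0 hη0.le (by rw [← e1]; exact hB3')
  have hN2 := markov_fubini hSPm hη0 hη0.le (by rw [← e1]; exact hP1)
  -- the reference sheet
  obtain ⟨u, hu4, hu1, hu2⟩ : ∃ u ∈ box 4, u ∉ {a : V | ENNReal.ofReal η <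
      volume {b : ℝ × ℝ | (a, b) ∈ S3}} ∧ u ∉ {a : V | ENNReal.ofReal η <
      volume {b : V × ℝ | (a, b) ∈ SP}} := by
    by_contra hcon
    push Not at hcon
    have h4 : box 4 ⊆ {a : V | ENNReal.ofReal η < volume {b : ℝ × ℝ | (a, b) ∈ S3}} ∪
        {a : V | ENNReal.ofReal η < volume {b : V × ℝ | (a, b) ∈ SP}} := by
      intro u hu
      by_cases h5 : u ∈ {a : V | ENNReal.ofReal η < volume {b : ℝ × ℝ | (a, b) ∈ S3}}
      · exact Or.inl h5
      · exact Or.inr (hcon u hu h5)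
    have h5 := (measure_mono h4).trans ((measure_union_le _ _).trans (add_le_add hN1 hN2))
    rw [ls_vol, ← ENNReal.ofReal_add hη0.le hη0.le, ENNReal.ofReal_le_ofReal_iff (by linarith)]
      at h5
    linarith
  have hu1' : volume {b : ℝ × ℝ | (u, b) ∈ S3} ≤ ENNReal.ofReal η := not_lt.1 hu1
  have hu2' : volume {b : V × ℝ | (u, b) ∈ SP} ≤ ENNReal.ofReal η := not_lt.1 hu2
  refine ⟨t, fun b => F.f (Real.exp s • u) (pt b (ν * s)), ?_, ?_, ?_⟩
  · refine (measure_mono ?_).trans (hB1.trans (ENNReal.ofReal_le_ofReal (by linarith)))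
    rintro v ⟨hv1, hv2⟩
    exact ⟨hv1, lt_of_le_of_lt (by linarith) hv2⟩
  · have hsub : {q : V × ℝ | q.1 ∈ box 4 ∧ q.2 ∈ Icc (-1) 1 ∧
        ¬ (|rho (F.f (Real.exp s • q.1) (pt q.2 s)) t - s| ≤ ε * s ∧
          ν * s - ε * s ≤ gp (F.f (Real.exp s • u) (pt q.2 (ν * s)))
            (F.f (Real.exp s • q.1) (pt q.2 s)) t)} ⊆
        ({v : V | v ∈ box 8 ∧ η ^ 2 * s < rho (F.f (Real.exp s • v) o) t} ×ˢ Icc (-1 : ℝ) 1 ∪
        {q : V × ℝ | q.1 ∈ box 8 ∧ q.2 ∈ Icc (-8) 8 ∧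
          ¬ UnitP F (Real.exp s • q.1) q.2 0 s (η ^ 2 * s)}) ∪ {b : V × ℝ | (u, b) ∈ SP} := by
      rintro ⟨v, b⟩ ⟨hv, hb, hbad⟩
      by_contra hcon
      rw [mem_union, mem_union, not_or, not_or] at hcon
      obtain ⟨⟨c1, c2⟩, c3⟩ := hcon
      apply hbad
      have d1 : rho (F.f (Real.exp s • v) o) t ≤ η ^ 2 * s := by
        by_contra h
        exact c1 ⟨⟨ls_box (by norm_num) hv, not_le.1 h⟩, hb⟩
      have hb' : b ∈ Icc (-1 : ℝ) 1 := hb
      have d2 : UnitP F (Real.exp s • v) b 0 s (η ^ 2 * s) := by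
        by_contra h
        exact c2 ⟨ls_box (by norm_num) hv, ⟨by linarith [hb'.1], by linarith [hb'.2]⟩, h⟩
      have d3 : rho (F.f (Real.exp s • v) (pt b (ν * s)))
          (F.f (Real.exp s • u) (pt b (ν * s))) ≤ η ^ 2 * s := by
        by_contra h
        apply c3
        show (u, v, b) ∈ SP
        rw [hSP]
        refine ⟨hu4, hv, hb, ?_⟩
        show η ^ 2 * s < rho (F.f (Real.exp s • u) (pt b (ν * s)))
          (F.f (Real.exp s • v) (pt b (ν * s)))
        rw [rho_comm]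
        exact not_le.1 h
      obtain ⟨k1, k2⟩ := l_good_of_unit hK F (Real.exp s • v) (abs_le.2 hb') hν0.le
        (by linarith) hs0.le t (F.f (Real.exp s • u) (pt b (ν * s))) d1 d2 d3
      refine ⟨k1.trans (by linarith), le_trans (by linarith) k2⟩
    refine (measure_mono hsub).trans ((measure_union_le _ _).trans ?_)
    have g1 : (volume : Measure (V × ℝ)) ({v : V | v ∈ box 8 ∧
        η ^ 2 * s < rho (F.f (Real.exp s • v) o) t} ×ˢ Icc (-1 : ℝ) 1) =
        volume {v : V | v ∈ box 8 ∧ η ^ 2 * s < rho (F.f (Real.exp s • v) o) t} *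
          volume (Icc (-1 : ℝ) 1) := Measure.prod_prod _ _
    have g2 : (volume : Measure (V × ℝ)) ({v : V | v ∈ box 8 ∧
        η ^ 2 * s < rho (F.f (Real.exp s • v) o) t} ×ˢ Icc (-1 : ℝ) 1) ≤
        ENNReal.ofReal (η ^ 2 * 2) := by
      rw [g1, Real.volume_Icc, ENNReal.ofReal_mul hε1.le]
      norm_num
      exact mul_le_mul_left hB1 _
    refine (add_le_add ((measure_union_le _ _).trans (add_le_add g2 hB2)) hu2').trans ?_
    rw [← ENNReal.ofReal_add (by positivity) hε1.le, ← ENNReal.ofReal_add (by positivity) hη0.le]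
    exact ENNReal.ofReal_le_ofReal (by linarith)
  · refine (measure_mono ?_).trans (hu1'.trans (ENNReal.ofReal_le_ofReal (by linarith)))
    rintro ⟨b, b'⟩ ⟨hb, hb', hg⟩
    have hb1 : b ∈ Icc (-1 : ℝ) 1 := hb
    have hb1' : b' ∈ Icc (-1 : ℝ) 1 := hb'
    show (u, b, b') ∈ S3
    rw [hS3]
    refine ⟨ls_box (by norm_num) hu4, ⟨by linarith [hb1.1], by linarith [hb1.2]⟩,
      ⟨by linarith [hb1'.1], by linarith [hb1'.2]⟩, ?_⟩
    exact lt_of_le_of_lt (by linarith) hg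

end Pool.Agent.FIB
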