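import Pool.Agent.FIB.LDefs
import Pool.Agent.FIB.LMeas
import Pool.Agent.FIB.LPath

/-!
# Part C2: centres at consecutive depths

Proofs.
* `l_trip`. `δ = 1 / (4 K)`, `s' = (1 - δ) s`, so `3/4 s ≤ s' ≤ s`, `s - s' = s / (4 K)`. `g b = F.f w (pt b s)`,
  `g' b = F.f w (pt b s')`; `rho (g b) (g' b) ≤ K (s - s') + K = s / 4 + K` (`f_vert`). Apply `l_three_points` with `2 η`
  to `S = {q | q.1 ∈ [-1,1] ∧ q.2 ∈ [-1,1] ∧ (η s < gp (g q.1) (g q.2) t ∨ η s' < gp (g' q.1) (g' q.2) t')}`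
  (measurable: `F.measSet`; measure `≤ 2 η`) and `B = {b ∈ [-1,1] | η s' < |rho (g' b) t' - s'|}` (measure `≤ η`). For the
  three points: all products `≤ η s =: e`, `rho t' (g' bi) ≥ s' - η s' ≥ 3/4 (1 - η) s`, so
  `rho t' (g' bi) - rho (g' bi) (g bi) ≥ (3/4) (99/100) s - s / 4 - K > η s + 1` (`s ≥ 10 K`, `K ≥ 1`).
  `l_tripod_shift`.
* `l_chain_centres`: `s_i = (1-δ)^i s`; by `l_trip`, `rho (t i) (t (i+1)) ≤ 5 η s_i + 6` (all `s_i ≥ s_I ≥ 10 K`), and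
  `Σ_{i < I} (1-δ)^i ≤ 1 / δ` (induction on `I`: `rho (t 0) (t I) ≤ 5 η s (1 - (1-δ)^I) / δ + 6 I`, then bound).
-/

set_option autoImplicit false

namespace Pool.Agent.FIB

open UpperHalfPlane MeasureTheory Set

private lemma LTrip_meas {K : ℝ} (F : QM K) (w : V) (s e : ℝ) (t : ℍ) :
    MeasurableSet {q : ℝ × ℝ | q.1 ∈ Icc (-1) 1 ∧ q.2 ∈ Icc (-1) 1 ∧
      e < gp (F.f w (pt q.1 s)) (F.f w (pt q.2 s)) t} := by
  have h1 : MeasurableSet {q : ℝ × ℝ | e < gp (F.f w (pt q.1 s)) (F.f w (pt q.2 s)) t} :=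
    F.measSet (ι := Bool) (fun _ _ => w)
      (fun i (q : ℝ × ℝ) => pt (bif i then q.1 else q.2) s) (fun _ => measurable_const)
      (fun i => by
        cases i
        · exact measurable_pt' measurable_snd measurable_const
        · exact measurable_pt' measurable_fst measurable_const)
      (fun v => e < gp (v true).2 (v false).2 t)
  have h2 : {q : ℝ × ℝ | q.1 ∈ Icc (-1) 1 ∧ q.2 ∈ Icc (-1) 1 ∧
      e < gp (F.f w (pt q.1 s)) (F.f w (pt q.2 s)) t} =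
      (Prod.fst ⁻¹' (Icc (-1 : ℝ) 1)) ∩ ((Prod.snd ⁻¹' (Icc (-1 : ℝ) 1)) ∩
        {q : ℝ × ℝ | e < gp (F.f w (pt q.1 s)) (F.f w (pt q.2 s)) t}) := rfl
  rw [h2]
  exact (measurable_fst measurableSet_Icc).inter ((measurable_snd measurableSet_Icc).inter h1)

theorem l_trip {K : ℝ} (hK : 1 ≤ K) (F : QM K) (w : V) {s η : ℝ} (hη0 : 0 < η) (hη : η ≤ 1 / 100)
    (hs : 10 * K ≤ s) {t t' : ℍ} (h : LineT F w s (η * s) η t)
    (h' : LineT F w ((1 - 1 / (4 * K)) * s) (η * ((1 - 1 / (4 * K)) * s)) η t') :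
    rho t t' ≤ 5 * (η * s + 1) + 1 := by
  have hK0 : 0 < K := by linarith
  obtain ⟨s', hs'⟩ : ∃ s', s' = (1 - 1 / (4 * K)) * s := ⟨_, rfl⟩
  rw [← hs'] at h'
  have hs0 : 0 < s := by linarith
  have hd0 : 0 < 1 / (4 * K) := by positivity
  have hd1 : 1 / (4 * K) ≤ 1 / 4 := by
    apply div_le_div_of_nonneg_left zero_le_one (by norm_num)
    linarith
  have hs1 : 3 / 4 * s ≤ s' := by
    rw [hs']
    exact mul_le_mul_of_nonneg_right (by linarith) hs0.le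
  have hs2 : s' ≤ s := by
    rw [hs']
    nlinarith
  have hs3 : K * |s' - s| = s / 4 := by
    rw [abs_sub_comm, abs_of_nonneg (by linarith), hs']
    field_simp
    ring
  have hηs : η * s' ≤ η * s := mul_le_mul_of_nonneg_left hs2 hη0.le
  have hSv : volume ({q : ℝ × ℝ | q.1 ∈ Icc (-1) 1 ∧ q.2 ∈ Icc (-1) 1 ∧
      η * s < gp (F.f w (pt q.1 s)) (F.f w (pt q.2 s)) t} ∪
      {q : ℝ × ℝ | q.1 ∈ Icc (-1) 1 ∧ q.2 ∈ Icc (-1) 1 ∧
      η * s' < gp (F.f w (pt q.1 s')) (F.f w (pt q.2 s')) t'}) ≤ ENNReal.ofReal (2 * η) := by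
    refine (measure_union_le _ _).trans ?_
    rw [two_mul, ENNReal.ofReal_add hη0.le hη0.le]
    exact add_le_add h.2 h'.2
  have hB : volume {b : ℝ | b ∈ Icc (-1) 1 ∧ η * s' < |rho (F.f w (pt b s')) t' - s'|} ≤
      ENNReal.ofReal (2 * η) := h'.1.trans (ENNReal.ofReal_le_ofReal (by linarith))
  obtain ⟨b1, hb1, b2, hb2, b3, hb3, n1, n2, n3, n12, n13, n23⟩ := l_three_points
    ((LTrip_meas F w s (η * s) t).union (LTrip_meas F w s' (η * s') t')) (by linarith)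
    (by linarith) hSv hB
  have key1 : ∀ b ∈ Icc (-1 : ℝ) 1,
      b ∉ {b : ℝ | b ∈ Icc (-1) 1 ∧ η * s' < |rho (F.f w (pt b s')) t' - s'|} →
      η * s + 1 < rho t' (F.f w (pt b s')) - rho (F.f w (pt b s')) (F.f w (pt b s)) := by
    intro b hb hn
    have h1 : |rho (F.f w (pt b s')) t' - s'| ≤ η * s' := by
      by_contra hc
      exact hn ⟨hb, not_le.1 hc⟩
    have h2 := (abs_le.1 h1).1
    have h3 := F.f_vert w b s' s
    rw [hs3] at h3
    rw [rho_comm t' (F.f w (pt b s'))]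
    have h4 : η * s ≤ 1 / 100 * s := mul_le_mul_of_nonneg_right hη hs0.le
    linarith
  have key2 : ∀ b ∈ Icc (-1 : ℝ) 1, ∀ b' ∈ Icc (-1 : ℝ) 1,
      (b, b') ∉ ({q : ℝ × ℝ | q.1 ∈ Icc (-1) 1 ∧ q.2 ∈ Icc (-1) 1 ∧
      η * s < gp (F.f w (pt q.1 s)) (F.f w (pt q.2 s)) t} ∪
      {q : ℝ × ℝ | q.1 ∈ Icc (-1) 1 ∧ q.2 ∈ Icc (-1) 1 ∧
      η * s' < gp (F.f w (pt q.1 s')) (F.f w (pt q.2 s')) t'}) →
      gp (F.f w (pt b s)) (F.f w (pt b' s)) t ≤ η * s ∧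
        gp (F.f w (pt b s')) (F.f w (pt b' s')) t' ≤ η * s := by
    intro b hb b' hb' hn
    constructor
    · by_contra hc
      exact hn (Or.inl ⟨hb, hb', not_le.1 hc⟩)
    · by_contra hc
      exact hn (Or.inr ⟨hb, hb', lt_of_le_of_lt hηs (not_le.1 hc)⟩)
  obtain ⟨k12, k12'⟩ := key2 b1 hb1 b2 hb2 n12
  obtain ⟨k13, k13'⟩ := key2 b1 hb1 b3 hb3 n13
  obtain ⟨k23, k23'⟩ := key2 b2 hb2 b3 hb3 n23
  exact l_tripod_shift k12 k23 k13 k12' k23' k13' (key1 b1 hb1 n1) (key1 b2 hb2 n2)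
    (key1 b3 hb3 n3)

theorem l_chain_centres {K : ℝ} (hK : 1 ≤ K) (F : QM K) (w : V) {s η : ℝ} (hη0 : 0 < η)
    (hη : η ≤ 1 / 100) (I : ℕ) (hs : 10 * K ≤ (1 - 1 / (4 * K)) ^ I * s) (t : ℕ → ℍ)
    (h : ∀ i, i ≤ I → LineT F w ((1 - 1 / (4 * K)) ^ i * s) (η * ((1 - 1 / (4 * K)) ^ i * s)) η (t i)) :
    rho (t 0) (t I) ≤ 5 * η * s * (4 * K) + 6 * I := by
  have hK0 : 0 < K := by linarith
  have hd0 : 0 < 1 / (4 * K) := by positivity
  have hd1 : 1 / (4 * K) ≤ 1 / 4 := by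
    apply div_le_div_of_nonneg_left zero_le_one (by norm_num)
    linarith
  obtain ⟨r, hr⟩ : ∃ r, r = 1 - 1 / (4 * K) := ⟨_, rfl⟩
  have hr0 : 0 < r := by rw [hr]; linarith
  have hr1 : r ≤ 1 := by rw [hr]; linarith
  have hrK : 4 * K * r + 1 = 4 * K := by
    rw [hr]
    field_simp
    ring
  rw [← hr] at hs
  simp only [← hr] at h
  have hrI : 0 < r ^ I := pow_pos hr0 I
  have hs0 : 0 < s := by
    by_contra hc
    rw [not_lt] at hc
    have := mul_nonpos_of_nonneg_of_nonpos hrI.le hc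
    linarith
  have main : ∀ m : ℕ, m ≤ I →
      rho (t 0) (t m) ≤ 5 * η * s * (4 * K) * (1 - r ^ m) + 6 * m := by
    intro m
    induction m with
    | zero =>
      intro _
      rw [rho_self]
      simp
    | succ m ih =>
      intro hm
      have h1 := ih (by omega)
      have h2 : r ^ I ≤ r ^ m := pow_le_pow_of_le_one hr0.le hr1 (by omega)
      have h3 : 10 * K ≤ r ^ m * s := hs.trans (mul_le_mul_of_nonneg_right h2 hs0.le)
      have h4 := h m (by omega)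
      have h5 := h (m + 1) hm
      rw [pow_succ', mul_assoc] at h5
      have h6 := l_trip hK F w hη0 hη h3 h4 (by rw [← hr]; exact h5)
      have h7 := rho_triangle (t 0) (t m) (t (m + 1))
      have h8 : 5 * η * s * (4 * K) * (1 - r ^ (m + 1)) =
          5 * η * s * (4 * K) * (1 - r ^ m) + 5 * (η * (r ^ m * s)) := by
        rw [pow_succ]
        linear_combination (-(5 * η * s * r ^ m)) * hrK
      push_cast
      rw [h8]
      linarith
  have h1 := main I le_rfl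
  have h2 : 0 ≤ 5 * η * s * (4 * K) * r ^ I := by positivity
  nlinarith

end Pool.Agent.FIB
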