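import Pool.Agent.FIB.LStar
import Pool.Agent.FIB.LOne
import Pool.Agent.FIB.LMark
import Pool.Agent.FIB.LTrip
import Pool.Agent.FIB.LPiece

/-!
# Part C2: `StLM K → StL K`, and the assembly (helper99)

`δ = 1 / (4 K)`, `I` with `(1 - δ)^I ≤ ε / (10 K)`, `η = min (1/100) (ε δ / 20) (ε / (4 (I + 1))) ε`. For `s` large all
`s_i = (1-δ)^i s`, `i ≤ I`, are `≥ max s1 (10 K)`. `a ∈ [-2,2]` outside the bad set of `StLM` (for `F`, `s`) and of the sets of
`l_piece` for `r = s_i`, `1 ≤ i ≤ I`: `l_chain_centres` and the last property at `i = I`: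
`rho t (F.f w o) ≤ 20 K η s + 6 I + K (s_I + 5) + K + η s_I ≤ ε s`.
-/

set_option autoImplicit false

namespace Pool.Agent.FIB

open UpperHalfPlane MeasureTheory Set

theorem l_two {K : ℝ} (hK : 1 ≤ K) (h : StLM K) : StL K := by
  intro ε hε
  have hK0 : 0 < K := by linarith
  have hδ0 : 0 < 1 / (4 * K) := by positivity
  have hδ1 : 1 / (4 * K) ≤ 1 / 4 := by
    rw [div_le_div_iff₀ (by positivity) (by norm_num)]
    linarith
  set d : ℝ := 1 - 1 / (4 * K) with hd
  have hd0 : 0 < d := by rw [hd]; linarith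
  have hd1 : d < 1 := by rw [hd]; linarith
  obtain ⟨I, hI⟩ := exists_pow_lt_of_lt_one (show 0 < ε / (10 * K) by positivity) hd1
  set η : ℝ := min (min (1 / 100) (ε / (80 * K))) (min (ε / (4 * (I + 1))) ε) with hη
  have hη0 : 0 < η := by
    rw [hη]
    refine lt_min (lt_min (by norm_num) (by positivity)) (lt_min (by positivity) hε)
  have hη1 : η ≤ 1 / 100 := le_trans (min_le_left _ _) (min_le_left _ _)
  have hη2 : η ≤ ε / (80 * K) := le_trans (min_le_left _ _) (min_le_right _ _)
  have hη3 : η ≤ ε / (4 * (I + 1)) := le_trans (min_le_right _ _) (min_le_left _ _)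
  have hη4 : η ≤ ε := le_trans (min_le_right _ _) (min_le_right _ _)
  obtain ⟨s1, hs1, H⟩ := h η hη0
  have hdI : 0 < d ^ I := pow_pos hd0 I
  refine ⟨max (max s1 (10 * K) / d ^ I) ((12 * (I + K) + 12) / ε), ?_, ?_⟩
  · refine lt_of_lt_of_le ?_ (le_max_left _ _)
    have : 0 < max s1 (10 * K) := lt_of_lt_of_le hs1 (le_max_left _ _)
    positivity
  intro F s hs
  have hsa : max s1 (10 * K) ≤ d ^ I * s := by
    have h1 := (le_max_left _ _).trans hs
    rw [div_le_iff₀ hdI] at h1
    linarith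
  have hsb : 12 * (I + K) + 12 ≤ ε * s := by
    have h1 := (le_max_right _ _).trans hs
    rw [div_le_iff₀ hε] at h1
    linarith
  have hs0 : 0 < s := by
    have h1 : 0 < d ^ I * s := lt_of_lt_of_le (lt_of_lt_of_le hs1 (le_max_left _ _)) hsa
    exact (mul_pos_iff_of_pos_left hdI).1 h1
  -- the scales
  have hscale : ∀ i : ℕ, i ≤ I → max s1 (10 * K) ≤ d ^ i * s := by
    intro i hi
    refine hsa.trans ?_
    exact mul_le_mul_of_nonneg_right (pow_le_pow_of_le_one hd0.le hd1.le hi) hs0.le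
  have hscale1 : ∀ i : ℕ, d ^ i * s ≤ s := by
    intro i
    have : d ^ i ≤ 1 := pow_le_one₀ hd0.le hd1.le
    nlinarith
  have hss : s1 ≤ s := by
    have h1 := (le_max_left _ _).trans (hscale 0 (Nat.zero_le _))
    simpa using h1
  obtain ⟨t, ht1, ht2⟩ := H F s hss
  refine ⟨t, ?_, ?_⟩
  · refine (measure_mono ?_).trans (ht1.trans (ENNReal.ofReal_le_ofReal hη4))
    rintro u ⟨hu, hu'⟩
    refine ⟨hu, lt_of_le_of_lt ?_ hu'⟩
    exact mul_le_mul_of_nonneg_right hη4 hs0.le
  intro c hc
  obtain ⟨hb, hcc, ha⟩ := ht2 c hc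
  refine ⟨?_, ?_, ?_⟩
  · -- the main clause
    set Bad : ℕ → Set ℝ := fun i => {a : ℝ | a ∈ Icc (-2) 2 ∧
      ¬ ∃ t : ℍ, LineT F (Real.exp s • ((a, c) : V)) (d ^ i * s) (η * (d ^ i * s)) η t ∧
        rho (F.f (Real.exp s • ((a, c) : V)) o) t ≤ K * (d ^ i * s + 5) + K + η * (d ^ i * s)}
      with hBad
    have hBadm : ∀ i : ℕ, i ≤ I → volume (Bad i) ≤ ENNReal.ofReal (2 * η) := by
      intro i hi
      refine l_piece hη0 ?_ F ((le_max_left _ _).trans (hscale i hi)) (hscale1 i) c
      intro F' s' hs'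
      obtain ⟨t', -, ht'⟩ := H F' s' hs'
      exact ⟨t', fun c' hc' => (ht' c' hc').2.2⟩
    set Bad0 : Set ℝ := {a : ℝ | a ∈ Icc (-2) 2 ∧
        ¬ (LineT F (Real.exp s • ((a, c) : V)) s (η * s) η t ∧
          rho (F.f (Real.exp s • ((a, c) : V)) o) t ≤ K * (s + 5) + K + η * s)} with hBad0
    have hsub : {a : ℝ | a ∈ Icc (-2) 2 ∧ ε * s < rho (F.f (Real.exp s • ((a, c) : V)) o) t} ⊆
        Bad0 ∪ ⋃ i ∈ Finset.range I, Bad (i + 1) := by
      rintro a ⟨ha1, ha2⟩
      by_contra hcon
      rw [mem_union, not_or] at hcon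
      obtain ⟨hc0, hci⟩ := hcon
      have h0 : LineT F (Real.exp s • ((a, c) : V)) s (η * s) η t ∧
          rho (F.f (Real.exp s • ((a, c) : V)) o) t ≤ K * (s + 5) + K + η * s := by
        by_contra h0
        exact hc0 ⟨ha1, h0⟩
      have hi : ∀ i : ℕ, i < I → ∃ t : ℍ,
          LineT F (Real.exp s • ((a, c) : V)) (d ^ (i + 1) * s) (η * (d ^ (i + 1) * s)) η t ∧
          rho (F.f (Real.exp s • ((a, c) : V)) o) t ≤
            K * (d ^ (i + 1) * s + 5) + K + η * (d ^ (i + 1) * s) := by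
        intro i hi
        by_contra hn
        apply hci
        rw [mem_iUnion₂]
        exact ⟨i, Finset.mem_range.2 hi, ⟨ha1, hn⟩⟩
      choose! T hT using hi
      set t' : ℕ → ℍ := fun i => match i with
        | 0 => t
        | (i + 1) => T i with ht'
      have hall : ∀ i : ℕ, i ≤ I →
          LineT F (Real.exp s • ((a, c) : V)) (d ^ i * s) (η * (d ^ i * s)) η (t' i) ∧
          rho (F.f (Real.exp s • ((a, c) : V)) o) (t' i) ≤
            K * (d ^ i * s + 5) + K + η * (d ^ i * s) := by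
        intro i hi
        cases i with
        | zero => simpa [ht'] using h0
        | succ i => exact hT i (by omega)
      have hch := l_chain_centres hK F (Real.exp s • ((a, c) : V)) hη0 hη1 I
        ((le_max_right _ _).trans hsa) t' (fun i hi => (hall i hi).1)
      have hlast := (hall I le_rfl).2
      have ht0 : t' 0 = t := rfl
      rw [ht0] at hch
      have htri := rho_triangle (F.f (Real.exp s • ((a, c) : V)) o) (t' I) t
      rw [rho_comm (t' I) t] at htri
      -- numbers
      have hn1 : 5 * η * s * (4 * K) ≤ ε * s / 4 := by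
        have h1 : η * (80 * K) ≤ ε := by
          rw [le_div_iff₀ (by positivity)] at hη2
          exact hη2
        nlinarith
      have hn2 : K * (d ^ I * s) ≤ ε * s / 10 := by
        rw [lt_div_iff₀ (by positivity)] at hI
        nlinarith
      have hn3 : η * (d ^ I * s) ≤ ε * s / 80 := by
        have h1 : η * (80 * K) ≤ ε := by
          rw [le_div_iff₀ (by positivity)] at hη2
          exact hη2
        have h2 : η * 80 ≤ ε := by nlinarith
        have h3 := hscale1 I
        have h4 : η * (d ^ I * s) ≤ η * s := mul_le_mul_of_nonneg_left h3 hη0.le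
        nlinarith
      nlinarith
    refine (measure_mono hsub).trans ((measure_union_le _ _).trans ?_)
    have h2 : volume (⋃ i ∈ Finset.range I, Bad (i + 1)) ≤ ENNReal.ofReal (I * (2 * η)) := by
      refine (measure_biUnion_finset_le _ _).trans ?_
      have h3 : ∑ i ∈ Finset.range I, volume (Bad (i + 1)) ≤
          ∑ i ∈ Finset.range I, ENNReal.ofReal (2 * η) := by
        refine Finset.sum_le_sum fun i hi => hBadm (i + 1) ?_
        rw [Finset.mem_range] at hi
        omega
      refine h3.trans ?_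
      rw [Finset.sum_const, Finset.card_range, nsmul_eq_mul, ENNReal.ofReal_mul (Nat.cast_nonneg I),
        ENNReal.ofReal_natCast]
    refine (add_le_add ha h2).trans ?_
    rw [← ENNReal.ofReal_add hη0.le (by positivity)]
    refine ENNReal.ofReal_le_ofReal ?_
    rw [le_div_iff₀ (by positivity)] at hη3
    have hI0 : (0 : ℝ) ≤ I := Nat.cast_nonneg I
    nlinarith
  · refine (measure_mono ?_).trans (hb.trans (ENNReal.ofReal_le_ofReal hη4))
    rintro q ⟨hq1, hq2, hq3⟩
    exact ⟨hq1, hq2, lt_of_le_of_lt (mul_le_mul_of_nonneg_right hη4 hs0.le) hq3⟩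
  · refine (measure_mono ?_).trans (hcc.trans (ENNReal.ofReal_le_ofReal hη4))
    rintro q ⟨hq1, hq2, hq3, hq4⟩
    exact ⟨hq1, hq2, hq3, lt_of_le_of_lt (mul_le_mul_of_nonneg_right hη4 hs0.le) hq4⟩

theorem partC2 (K : ℝ) (hK : 1 ≤ K) (hB : StB K) (hP : StP K) : StL K :=
  l_two hK (l_mark hK (l_one hK (l_star hK hB hP)))

end Pool.Agent.FIB
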