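import Pool.Agent.FIB.PPos
import Pool.Agent.FIB.Vec

/-!
# Part C1, the norm of the difference vector at the middle point  (OPEN MODULE)

Keep the statement exactly; extra lemmas `private`.  `PPos`, `Vec` (`inc_sum`) may be used as they
stand.

PROOF of `vec_z`.  Notation of `PPos`; `θ = rho t t'`, `M = s/2 + 2Kσ + 27δ`.
1. Distances to `z = y m`, `m = ⌊s/2⌋₊`.  `rho t z ≤ θ + s/2 + 6δ` (`pos_y` for `m`),
   `rho z g ≤ s/2 + σ + 5δ` (`pos_zg`), `rho t g ≥ θ + s + σ - 16δ` (`gp t g t' ≤ 4δ` (`pos_gt`),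
   `rho t' g ≥ s + σ - 8δ` (`pos_tg`), definition of `gp`).  For `j ≤ s` (natural) by `fourpt z t (x j) g`:
   `rho z (x j) + rho t g ≤ max (rho z t + rho (x j) g) (rho t (x j) + rho z g) + 1`, with `pos_x`: the first
   case gives `rho z (x j) ≤ s/2 - j + 2Kσ - σ + 24δ + 1`, the second `rho z (x j) ≤ j - s/2 - θ + 24δ + 1`;
   both are `≤ s/2 + 2Kσ + 25δ`, and for `j = ⌊s⌋₊` both are `≤ s/2 + 25δ`.  So for `s < j ≤ n3` by `pos_x'`
   `rho z (x j) ≤ s/2 + 2Kσ + 26δ`.  `rho z p ≤ rho z (x ⌈σ⌉₊) + δ ≤ s/2 + 2Kσ + 26δ` (`pos_p`).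
   For `k ≤ s + σ`: `rho z (y k) ≤ |k - m| + 2δ ≤ s/2 + σ + 1 + 2δ ≤ M` (`unit'`).
2. `X = F.U w (pt b σ) - F.U w' (pt b σ)` is the sum of
   (a) `F.U w (pt b σ) - F.U w (pt b'' ⌈σ⌉₊)`: norm `≤ e^δ` at `p` (`pos_p`), so `≤ e^{M + δ}` at `z` (`nm_le`);
   (b) `F.U w (pt b'' ⌈σ⌉₊) - F.U w (pt b'' n3)`: `inc_sum` for the points `x k` and the vectors
       `F.U w (pt b'' k)`, `⌈σ⌉₊ ≤ k < n3`, steps `≤ e^{2K}` (`U_vert` and `nm_sub_comm`, the step from `k` to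
       `k + 1` measured at `x k`): `≤ (n3 - ⌈σ⌉₊) e^{2K} e^M`;
   (c) `F.U w (pt b'' n3) - F.U w' (pt b'' n3)`: norm `≤ e^{2K}` at `g = x n3` (`meet`, `U_near`):
       `≤ e^{M + 2K}` at `z`;
   (d) `F.U w' (pt b'' n3) - F.U w' (pt b'' (σ + n4))`, `n4 = ⌊s + σ⌋₊`: `n3 - σ - n4 ≤ 4`, so the norm is
       `≤ e^{5K}` at `y n4` (`U_vert`, `nm_sub_comm`) and `≤ e^{M + 5K}` at `z`;
   (e) `F.U w' (pt b'' (σ + n4)) - F.U w' (pt b'' σ)`: `inc_sum` for `y k`, `0 ≤ k < n4`: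
       `≤ n4 e^{2K} e^M`;
   (f) `F.U w' (pt b'' σ) - F.U w' (pt b σ)`: `U_hor`: norm `≤ e^{5K}` at `y 0`, `≤ e^{M + 5K}` at `z`.
   (`n3 ≤ s + 2σ + 3`, `n4 ≤ s + σ`, `σ ≤ s/100`, `5K ≤ δ`.)  The sum is
   `≤ (n3 + n4 + 4) e^{M + δ} ≤ (4s + 100) e^{M + δ} ≤ e^{M + 2δ}` (`hlog`, `Real.log_le_iff_le_exp`), and
   `M + 2δ = s/2 + 2Kσ + 29δ`.
-/

set_option autoImplicit false

namespace Pool.Agent.FIB

open UpperHalfPlane MeasureTheory Set

variable {K : ℝ} {F : QM K} {s σ b κ δ : ℝ} {w w' : V} {t t' : ℍ}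

private lemma PVec_num (hS : Sc K s σ δ) :
    K * σ = s / 100 ∧ σ ≤ s / 100 ∧ 100000 ≤ σ ∧ 100 ≤ δ ∧ 0 < s := by
  obtain ⟨hK, hσ, hδ, hs, -⟩ := hS
  have hK0 : 0 < K := by linarith
  have hd : 100 ≤ δ := by linarith
  have hs0 : 0 < s := by linarith
  have e1 : K * σ = s / 100 := by
    rw [hσ]
    field_simp
  have e2 : 100000 ≤ σ := by
    rw [hσ, le_div_iff₀ (by positivity)]
    nlinarith
  refine ⟨e1, ?_, e2, hd, hs0⟩
  have e3 : 1 * σ ≤ K * σ := mul_le_mul_of_nonneg_right hK (by linarith)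
  linarith

/-- distances of the points of the two paths to the middle point -/
theorem dist_z (hS : Sc K s σ δ) (h : SG F s σ b κ δ w w' t t') :
    (∀ j : ℕ, j ≤ ⌈s + 2 * σ + 2⌉₊ →
      rho (yP F σ b κ w' ⌊s / 2⌋₊) (xP F σ b κ w j) ≤ s / 2 + 2 * K * σ + 26 * δ) ∧
    rho (yP F σ b κ w' ⌊s / 2⌋₊) (F.f w (pt b σ)) ≤ s / 2 + 2 * K * σ + 27 * δ ∧
    ∀ k : ℕ, (k : ℝ) ≤ s + σ →
      rho (yP F σ b κ w' ⌊s / 2⌋₊) (yP F σ b κ w' k) ≤ s / 2 + 2 * K * σ + 26 * δ := by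
  obtain ⟨hKσ, hσs, hσ1, hd, hs0⟩ := PVec_num hS
  have m1 : (⌊s / 2⌋₊ : ℝ) ≤ s / 2 := Nat.floor_le (by linarith)
  have m2 : s / 2 - 1 < (⌊s / 2⌋₊ : ℝ) := Nat.sub_one_lt_floor _
  have hz1 := pos_y hS h ⌊s / 2⌋₊ (by linarith)
  have hzg := pos_zg hS h
  have htg := pos_tg hS h
  have hgt := pos_gt hS h
  -- the distances between `t`, `z`, `g`
  have a1 : rho t (yP F σ b κ w' ⌊s / 2⌋₊) ≤ rho t t' + s / 2 + 5 * δ := by
    have b1 := rho_triangle t t' (yP F σ b κ w' ⌊s / 2⌋₊)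
    have b2 := (abs_le.1 hz1).2
    linarith
  have a2 : rho t t' + s + σ - 16 * δ ≤ rho t (xP F σ b κ w ⌈s + 2 * σ + 2⌉₊) := by
    unfold gp at hgt
    have b1 := (abs_le.1 htg).1
    rw [rho_comm t' t] at hgt
    linarith
  have a3 : 0 ≤ rho t t' := rho_nonneg _ _
  have key : ∀ j : ℕ, (j : ℝ) ≤ s → rho (yP F σ b κ w' ⌊s / 2⌋₊) (xP F σ b κ w j) ≤
      max (s / 2 - j + 2 * K * σ - σ + 23 * δ + 1) (j - s / 2 + 24 * δ + 1) := by
    intro j hj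
    obtain ⟨b1, b2⟩ := pos_x hS h j hj
    have b3 := fourpt (yP F σ b κ w' ⌊s / 2⌋₊) t (xP F σ b κ w j)
      (xP F σ b κ w ⌈s + 2 * σ + 2⌉₊)
    rw [rho_comm (yP F σ b κ w' ⌊s / 2⌋₊) t] at b3
    rcases le_total (rho t (yP F σ b κ w' ⌊s / 2⌋₊) +
        rho (xP F σ b κ w j) (xP F σ b κ w ⌈s + 2 * σ + 2⌉₊))
      (rho t (xP F σ b κ w j) +
        rho (yP F σ b κ w' ⌊s / 2⌋₊) (xP F σ b κ w ⌈s + 2 * σ + 2⌉₊)) with hc | hc
    · rw [max_eq_right hc] at b3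
      refine le_max_of_le_right ?_
      linarith
    · rw [max_eq_left hc] at b3
      refine le_max_of_le_left ?_
      linarith
  have a4 : ∀ j : ℕ, (j : ℝ) ≤ s → rho (yP F σ b κ w' ⌊s / 2⌋₊) (xP F σ b κ w j) ≤
      s / 2 + 2 * K * σ + 25 * δ := by
    intro j hj
    refine (key j hj).trans (max_le ?_ ?_)
    · have : (0 : ℝ) ≤ j := Nat.cast_nonneg j
      linarith
    · linarith
  have a5 : rho (yP F σ b κ w' ⌊s / 2⌋₊) (xP F σ b κ w ⌊s⌋₊) ≤ s / 2 + 25 * δ := by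
    have b1 : (⌊s⌋₊ : ℝ) ≤ s := Nat.floor_le hs0.le
    have b2 : s - 1 < (⌊s⌋₊ : ℝ) := Nat.sub_one_lt_floor _
    refine (key _ b1).trans (max_le ?_ ?_)
    · linarith
    · linarith
  have hcs : (⌈σ⌉₊ : ℝ) ≤ s := by
    have : (⌈σ⌉₊ : ℝ) < σ + 1 := Nat.ceil_lt_add_one (by linarith)
    linarith
  refine ⟨?_, ?_, ?_⟩
  · intro j hj
    rcases le_or_gt (j : ℝ) s with hc | hc
    · have := a4 j hc
      linarith
    · have b1 := pos_x' (F := F) (b := b) (κ := κ) (w := w) hS j hc hj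
      have b2 := rho_triangle (yP F σ b κ w' ⌊s / 2⌋₊) (xP F σ b κ w ⌊s⌋₊) (xP F σ b κ w j)
      linarith
  · have b1 := (pos_p hS h).1
    rw [rho_comm] at b1
    have b2 := rho_triangle (yP F σ b κ w' ⌊s / 2⌋₊) (xP F σ b κ w ⌈σ⌉₊) (F.f w (pt b σ))
    have b3 := a4 _ hcs
    linarith
  · intro k hk
    have b1 := h.unit' ⌊s / 2⌋₊ k (by linarith) hk
    have b2 := (abs_le.1 b1).2
    have b3 : |((⌊s / 2⌋₊ : ℕ) : ℝ) - k| ≤ s / 2 + σ + 1 := by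
      have : (0 : ℝ) ≤ k := Nat.cast_nonneg k
      rw [abs_le]
      constructor <;> linarith
    unfold yP
    linarith

/-- transport of a norm bound from `x` to `z` -/
private lemma PVec_at {x z : ℍ} {v : V} {A B M : ℝ} (h1 : nm x v ≤ Real.exp A)
    (h2 : rho z x ≤ M) (h3 : A + M ≤ B) : nm z v ≤ Real.exp B := by
  have h4 := nm_le x z v
  rw [rho_comm] at h2
  refine h4.trans ((mul_le_mul (Real.exp_le_exp.2 h2) h1 (nm_nonneg _ _)
    (Real.exp_pos _).le).trans ?_)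
  rw [← Real.exp_add]
  exact Real.exp_le_exp.2 (by linarith)

theorem vec_z (hS : Sc K s σ δ) (h : SG F s σ b κ δ w w' t t') :
    nm (yP F σ b κ w' ⌊s / 2⌋₊) (F.U w (pt b σ) - F.U w' (pt b σ)) ≤
      Real.exp (s / 2 + 2 * K * σ + 30 * δ) := by
  obtain ⟨hKσ, hσs, hσ1, hd, hs0⟩ := PVec_num hS
  have hK : 1 ≤ K := hS.hK
  have hK0 : 0 ≤ K := by linarith
  have hKδ : 100 * K ≤ δ := hS.hδ
  obtain ⟨d1, d2, d3⟩ := dist_z hS h
  obtain ⟨z, hz⟩ : ∃ z, z = yP F σ b κ w' ⌊s / 2⌋₊ := ⟨_, rfl⟩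
  rw [← hz] at d1 d2 d3 ⊢
  obtain ⟨c, hc⟩ : ∃ c, c = b + κ * Real.exp (-2 * σ) := ⟨_, rfl⟩
  obtain ⟨n3, hn3⟩ : ∃ n : ℕ, n = ⌈s + 2 * σ + 2⌉₊ := ⟨_, rfl⟩
  obtain ⟨n4, hn4⟩ : ∃ n : ℕ, n = ⌊s + σ⌋₊ := ⟨_, rfl⟩
  obtain ⟨n1, hn1⟩ : ∃ n : ℕ, n = ⌈σ⌉₊ := ⟨_, rfl⟩
  have k3a : s + 2 * σ + 2 ≤ (n3 : ℝ) := by rw [hn3]; exact Nat.le_ceil _
  have k3b : (n3 : ℝ) < s + 2 * σ + 2 + 1 := by
    rw [hn3]; exact Nat.ceil_lt_add_one (by linarith)
  have k4a : (n4 : ℝ) ≤ s + σ := by rw [hn4]; exact Nat.floor_le (by linarith)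
  have k4b : s + σ - 1 < (n4 : ℝ) := by rw [hn4]; exact Nat.sub_one_lt_floor _
  have k1a : σ ≤ (n1 : ℝ) := by rw [hn1]; exact Nat.le_ceil _
  have k1b : (n1 : ℝ) < σ + 1 := by rw [hn1]; exact Nat.ceil_lt_add_one (by linarith)
  have hn13 : n1 ≤ n3 := by
    have : (n1 : ℝ) ≤ n3 := by linarith
    exact_mod_cast this
  obtain ⟨B, hB⟩ : ∃ B, B = s / 2 + 2 * K * σ + 28 * δ := ⟨_, rfl⟩
  -- (a)
  have ha : nm z (F.U w (pt b σ) - F.U w (pt c n1)) ≤ Real.exp B := by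
    have b1 := (pos_p hS h).2
    rw [← hc, ← hn1] at b1
    exact PVec_at b1 d2 (by rw [hB]; linarith)
  -- (b)
  have hb : nm z (F.U w (pt c n3) - F.U w (pt c n1)) ≤ ((n3 : ℝ) - n1) * Real.exp B := by
    have b1 := inc_sum (xP F σ b κ w) (fun k : ℕ => F.U w (pt c k)) n1 n3 (Real.exp (2 * K))
      (s / 2 + 2 * K * σ + 26 * δ) z hn13 ?_ ?_
    · refine b1.trans (mul_le_mul_of_nonneg_left ?_ (by linarith))
      rw [← Real.exp_add]
      exact Real.exp_le_exp.2 (by rw [hB]; linarith)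
    · intro k _ _
      have b2 := F.U_vert w c k ((k + 1 : ℕ) : ℝ)
      rw [nm_sub_comm] at b2
      have b3 : |(k : ℝ) - ((k + 1 : ℕ) : ℝ)| = 1 := by
        push_cast
        rw [show (k : ℝ) - (k + 1) = -1 by ring]
        norm_num
      rw [b3] at b2
      unfold xP
      rw [← hc]
      refine b2.trans (Real.exp_le_exp.2 (by linarith))
    · intro k _ hk
      exact d1 k (by rw [← hn3]; exact hk.le)
  -- (c)
  have hcc : nm z (F.U w (pt c n3) - F.U w' (pt c n3)) ≤ Real.exp B := by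
    have b1 := h.meet n3 k3a
    rw [← hc] at b1
    have b2 := F.U_near hK0 w w' (pt c n3) b1
    have b3 := d1 n3 (by rw [← hn3])
    unfold xP at b3
    rw [← hc] at b3
    exact PVec_at b2 b3 (by rw [hB]; linarith)
  -- (d)
  have hdd : nm z (F.U w' (pt c n3) - F.U w' (pt c (σ + n4))) ≤ Real.exp B := by
    have b1 := F.U_vert w' c (σ + n4) n3
    have b2 : |σ + n4 - (n3 : ℝ)| ≤ 4 := by
      rw [abs_le]
      constructor <;> linarith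
    have b3 : nm (F.f w' (pt c (σ + n4))) (F.U w' (pt c n3) - F.U w' (pt c (σ + n4))) ≤
        Real.exp (5 * K) := by
      rw [nm_sub_comm]
      refine b1.trans (Real.exp_le_exp.2 ?_)
      have := mul_le_mul_of_nonneg_left b2 hK0
      linarith
    have b4 := d3 n4 k4a
    unfold yP at b4
    rw [← hc] at b4
    exact PVec_at b3 b4 (by rw [hB]; linarith)
  -- (e)
  have he : nm z (F.U w' (pt c (σ + n4)) - F.U w' (pt c (σ + (0 : ℕ)))) ≤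
      ((n4 : ℝ) - (0 : ℕ)) * Real.exp B := by
    have b1 := inc_sum (yP F σ b κ w') (fun k : ℕ => F.U w' (pt c (σ + k))) 0 n4
      (Real.exp (2 * K)) (s / 2 + 2 * K * σ + 26 * δ) z (Nat.zero_le _) ?_ ?_
    · refine b1.trans (mul_le_mul_of_nonneg_left ?_ (by simp))
      rw [← Real.exp_add]
      exact Real.exp_le_exp.2 (by rw [hB]; linarith)
    · intro k _ _
      have b2 := F.U_vert w' c (σ + k) (σ + ((k + 1 : ℕ) : ℝ))
      rw [nm_sub_comm] at b2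
      have b3 : |σ + (k : ℝ) - (σ + ((k + 1 : ℕ) : ℝ))| = 1 := by
        push_cast
        rw [show σ + (k : ℝ) - (σ + (k + 1)) = -1 by ring]
        norm_num
      rw [b3] at b2
      unfold yP
      rw [← hc]
      refine b2.trans (Real.exp_le_exp.2 (by linarith))
    · intro k _ hk
      refine d3 k ?_
      have : (k : ℝ) ≤ n4 := by exact_mod_cast hk.le
      linarith
  -- (f)
  have hf : nm z (F.U w' (pt c (σ + (0 : ℕ))) - F.U w' (pt b σ)) ≤ Real.exp B := by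
    have b1 := F.U_hor hK0 w' c b σ
    have b2 : |c - b| * Real.exp (2 * σ) / 2 ≤ 4 := by
      have b3 : |c - b| * Real.exp (2 * σ) = |κ| := by
        rw [hc, add_sub_cancel_left, abs_mul, abs_of_pos (Real.exp_pos _), mul_assoc,
          ← Real.exp_add]
        simp
      rw [b3]
      have := h.hκ
      linarith
    have b3 : nm (F.f w' (pt c σ)) (F.U w' (pt c σ) - F.U w' (pt b σ)) ≤ Real.exp (5 * K) := by
      refine b1.trans (Real.exp_le_exp.2 ?_)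
      have := mul_le_mul_of_nonneg_left b2 hK0
      linarith
    have b4 := d3 0 (by simp; linarith)
    unfold yP at b4
    rw [← hc] at b4
    simp only [Nat.cast_zero, add_zero] at b4 ⊢
    exact PVec_at b3 b4 (by rw [hB]; linarith)
  -- the sum
  have s1 := nm_sub_le' z (F.U w (pt b σ)) (F.U w (pt c n1)) (F.U w' (pt b σ))
  have s2 := nm_sub_le' z (F.U w (pt c n1)) (F.U w (pt c n3)) (F.U w' (pt b σ))
  have s3 := nm_sub_le' z (F.U w (pt c n3)) (F.U w' (pt c n3)) (F.U w' (pt b σ))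
  have s4 := nm_sub_le' z (F.U w' (pt c n3)) (F.U w' (pt c (σ + n4))) (F.U w' (pt b σ))
  have s5 := nm_sub_le' z (F.U w' (pt c (σ + n4))) (F.U w' (pt c (σ + (0 : ℕ))))
    (F.U w' (pt b σ))
  rw [nm_sub_comm z (F.U w (pt c n1)) (F.U w (pt c n3))] at s2
  have s6 : nm z (F.U w (pt b σ) - F.U w' (pt b σ)) ≤ (4 * s + 100) * Real.exp B := by
    have t0 : (0 : ℝ) ≤ n1 := Nat.cast_nonneg n1
    have t1 : (n3 : ℝ) - n1 + (n4 - (0 : ℕ)) + 4 ≤ 4 * s + 100 := by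
      rw [Nat.cast_zero]
      linarith
    have t2 := mul_le_mul_of_nonneg_right t1 (Real.exp_pos B).le
    nlinarith [t2, s1, s2, s3, s4, s5, ha, hb, hcc, hdd, he, hf]
  have s7 : 4 * s + 100 ≤ Real.exp δ := (Real.log_le_iff_le_exp (by linarith)).1 hS.hlog
  refine s6.trans ((mul_le_mul_of_nonneg_right s7 (Real.exp_pos _).le).trans ?_)
  rw [← Real.exp_add]
  exact Real.exp_le_exp.2 (by rw [hB]; linarith)

end Pool.Agent.FIB
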