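import Pool.Agent.FIB.PCore
import Pool.Agent.FIB.PVec

/-!
# Part C1, the deterministic conclusion for two typical sheets  (OPEN MODULE)

Keep the statement exactly; extra lemmas `private`.

PROOF of `c1_pair`.  Apply `c1_core` with `e = 40 δ`, `g = xP F σ b κ w1 n3`, `g' = xP F σ b κ' w2 n3`,
`n3 = ⌈s + 2σ + 2⌉₊`, `z = yP F σ b κ w' m`, `z' = yP F σ b κ' w' m`, `m = ⌊s/2⌋₊`,
`q = yP F σ b κ' w' ⌊800 δ⌋₊`, `p, p'` the images of `w1, w2` over `pt b σ`,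
`X = F.U w1 (pt b σ) - F.U w' (pt b σ)`, `X' = F.U w2 (pt b σ) - F.U w' (pt b σ)`.
`1 ≤ e`, `1000 e = 40000 δ ≤ s`, `2Kσ = s/50`.  `a1` is `pos_tp`, `a2` is `pos_gp`, `b1` is `pos_gt`,
`b2`: `gp_change` twice (with `gp_comm`), `pos_G` twice, `hgg`: `≤ 2δ + δ + δ`.  `c1`, `d1`: `pos_y`;
`c2`: `pos_zg`; `c3`: `pos_tg`; `d2`: `unit'` for `⌊800 δ⌋₊ ≤ m`; `v5`: `vec`; `v7`: `vec_z`.
`v6`: `X - X' = (F.U w1 (pt b σ) - F.U w1 o) + (F.U w1 o - F.U w2 o) + (F.U w2 o - F.U w2 (pt b σ))`;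
the middle term has norm `≤ e^{s + δ}` at `t` (`hU`); the first has norm
`≤ exp (K rho (pt b σ) o + K) ≤ exp (K (σ + 1) + K)` at `p` (`U_rho`; `rho (pt b σ) o ≤ σ + 1` by
`rho_triangle`, `rho_pt`, `rho_pt_b`), hence `≤ exp (σ + 5δ + K σ + 2K) ≤ e^s` at `t` (`nm_le`, `pos_tp`); the same
for the third (`nm_sub_comm`).  The sum is `≤ 3 e^{s + δ} ≤ e^{s + e}`.
-/

set_option autoImplicit false

namespace Pool.Agent.FIB

open UpperHalfPlane MeasureTheory Set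

variable {K : ℝ} {F : QM K} {s σ b κ κ' δ : ℝ} {w1 w2 w' : V} {t t' : ℍ}

private lemma PDet_basic (hS : Sc K s σ δ) : 1 ≤ K ∧ 100 * K ≤ δ ∧ 100000 * δ ≤ s ∧ 0 ≤ σ ∧
    K * σ = s / 100 ∧ σ ≤ s / 100 := by
  have h1 := hS.hK
  have h2 := hS.hδ
  have h3 := hS.hs
  have h4 := hS.hσ
  have hs0 : 0 ≤ s := by linarith
  have h5 : 0 ≤ σ := by
    rw [h4]
    positivity
  have h6 : K * σ = s / 100 := by
    rw [h4]
    field_simp
  refine ⟨h1, h2, h3, h5, h6, ?_⟩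
  rw [← h6]
  nlinarith

private lemma PDet_base (hS : Sc K s σ δ) (h : SG F s σ b κ δ w1 w' t t') :
    nm t (F.U w1 (pt b σ) - F.U w1 o) ≤ Real.exp s := by
  obtain ⟨k1, k2, k3, k4, k5, k6⟩ := PDet_basic hS
  have a1 := nm_le (F.f w1 (pt b σ)) t (F.U w1 (pt b σ) - F.U w1 o)
  have a2 := F.U_rho w1 (pt b σ) o
  have a3 := abs_le.1 (pos_tp hS h)
  have a4 : rho (pt b σ) o ≤ σ + 1 := by
    have b1 := rho_triangle (pt b σ) (pt b 0) o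
    have b2 := rho_pt b σ 0
    have b3 := rho_pt_b b 0 0
    have b4 := h.hb
    rw [sub_zero, abs_of_nonneg k4] at b2
    rw [sub_zero, mul_zero, Real.exp_zero, mul_one] at b3
    have b5 : o = pt 0 0 := rfl
    rw [b5] at b1 ⊢
    linarith
  have a5 : K * rho (pt b σ) o ≤ K * (σ + 1) := mul_le_mul_of_nonneg_left a4 (by linarith)
  rw [rho_comm] at a1
  calc nm t (F.U w1 (pt b σ) - F.U w1 o)
      ≤ Real.exp (rho t (F.f w1 (pt b σ))) *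
          nm (F.f w1 (pt b σ)) (F.U w1 (pt b σ) - F.U w1 o) := a1
    _ ≤ Real.exp (rho t (F.f w1 (pt b σ))) * Real.exp (K * rho (pt b σ) o + K) :=
        mul_le_mul_of_nonneg_left a2 (Real.exp_pos _).le
    _ = Real.exp (rho t (F.f w1 (pt b σ)) + (K * rho (pt b σ) o + K)) := (Real.exp_add _ _).symm
    _ ≤ Real.exp s := by
        apply Real.exp_le_exp.2
        nlinarith [a3.2]

theorem c1_pair (hS : Sc K s σ δ) (h1 : SG F s σ b κ δ w1 w' t t')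
    (h2 : SG F s σ b κ' δ w2 w' t t')
    (hgg : gp (F.f w' (pt (b + κ * Real.exp (-2 * σ)) (s + 2 * σ)))
      (F.f w' (pt (b + κ' * Real.exp (-2 * σ)) (s + 2 * σ))) t' ≤ 2 * δ)
    (hU : nm t (F.U w1 o - F.U w2 o) ≤ Real.exp (s + δ)) :
    rho (F.f w1 (pt b σ)) (F.f w2 (pt b σ)) ≤ 1280 * δ := by
  obtain ⟨k1, k2, k3, k4, k5, k6⟩ := PDet_basic hS
  have hm : ((⌊s / 2⌋₊ : ℕ) : ℝ) ≤ s / 2 := Nat.floor_le (by linarith)
  have hm' : s / 2 - 1 < ((⌊s / 2⌋₊ : ℕ) : ℝ) := Nat.sub_one_lt_floor _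
  have hl : ((⌊800 * δ⌋₊ : ℕ) : ℝ) ≤ 800 * δ := Nat.floor_le (by linarith)
  have hl' : 800 * δ - 1 < ((⌊800 * δ⌋₊ : ℕ) : ℝ) := Nat.sub_one_lt_floor _
  have hms : ((⌊s / 2⌋₊ : ℕ) : ℝ) ≤ s + σ := by linarith
  have hls : ((⌊800 * δ⌋₊ : ℕ) : ℝ) ≤ s + σ := by linarith
  have a1 := abs_le.1 (pos_tp hS h1)
  have a1' := abs_le.1 (pos_tp hS h2)
  have a2 := pos_gp hS h1
  have a2' := pos_gp hS h2
  have b1 := pos_gt hS h1
  have b1' := pos_gt hS h2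
  have g1 := pos_G hS h1
  have g2 := pos_G hS h2
  have c1 := abs_le.1 (pos_y hS h1 ⌊s / 2⌋₊ hms)
  have c1' := abs_le.1 (pos_y hS h2 ⌊s / 2⌋₊ hms)
  have c2 := pos_zg hS h1
  have c2' := pos_zg hS h2
  have c3 := abs_le.1 (pos_tg hS h1)
  have c3' := abs_le.1 (pos_tg hS h2)
  have d1 := abs_le.1 (pos_y hS h2 ⌊800 * δ⌋₊ hls)
  have d2 := abs_le.1 (h2.unit' ⌊800 * δ⌋₊ ⌊s / 2⌋₊ hls hms)
  have v5 := h1.vec
  have v5' := h2.vec
  have v7 := vec_z hS h1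
  have v7' := vec_z hS h2
  have b2 : gp (xP F σ b κ w1 ⌈s + 2 * σ + 2⌉₊) (xP F σ b κ' w2 ⌈s + 2 * σ + 2⌉₊) t' ≤
      4 * δ := by
    have e1 := gp_change (xP F σ b κ w1 ⌈s + 2 * σ + 2⌉₊)
      (F.f w' (pt (b + κ * Real.exp (-2 * σ)) (s + 2 * σ)))
      (xP F σ b κ' w2 ⌈s + 2 * σ + 2⌉₊) t'
    have e2 := gp_change (xP F σ b κ' w2 ⌈s + 2 * σ + 2⌉₊)
      (F.f w' (pt (b + κ' * Real.exp (-2 * σ)) (s + 2 * σ)))
      (F.f w' (pt (b + κ * Real.exp (-2 * σ)) (s + 2 * σ))) t'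
    rw [gp_comm (xP F σ b κ' w2 ⌈s + 2 * σ + 2⌉₊),
      gp_comm (F.f w' (pt (b + κ' * Real.exp (-2 * σ)) (s + 2 * σ)))] at e2
    linarith
  have v6 : nm t ((F.U w1 (pt b σ) - F.U w' (pt b σ)) - (F.U w2 (pt b σ) - F.U w' (pt b σ))) ≤
      Real.exp (s + 40 * δ) := by
    have f1 := PDet_base hS h1
    have f2 := PDet_base hS h2
    rw [nm_sub_comm] at f2
    have f3 := nm_sub_le' t (F.U w1 (pt b σ)) (F.U w1 o) (F.U w2 (pt b σ))
    have f4 := nm_sub_le' t (F.U w1 o) (F.U w2 o) (F.U w2 (pt b σ))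
    rw [sub_sub_sub_cancel_right]
    have f5 : Real.exp s ≤ Real.exp (s + δ) := Real.exp_le_exp.2 (by linarith)
    have f6 : (3 : ℝ) ≤ Real.exp (39 * δ) := by
      have := Real.add_one_le_exp (39 * δ)
      linarith
    have f7 : Real.exp (s + 40 * δ) = Real.exp (39 * δ) * Real.exp (s + δ) := by
      rw [← Real.exp_add]
      congr 1
      ring
    have f8 := mul_le_mul_of_nonneg_right f6 (Real.exp_pos (s + δ)).le
    rw [f7]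
    linarith
  have key := c1_core (t := t) (t' := t') (p := F.f w1 (pt b σ)) (p' := F.f w2 (pt b σ))
    (g := xP F σ b κ w1 ⌈s + 2 * σ + 2⌉₊) (g' := xP F σ b κ' w2 ⌈s + 2 * σ + 2⌉₊)
    (z := yP F σ b κ w' ⌊s / 2⌋₊) (z' := yP F σ b κ' w' ⌊s / 2⌋₊)
    (q := yP F σ b κ' w' ⌊800 * δ⌋₊)
    (X := F.U w1 (pt b σ) - F.U w' (pt b σ)) (X' := F.U w2 (pt b σ) - F.U w' (pt b σ))
    (s := s) (σ := σ) (e := 40 * δ) (K := K)
    (by linarith) (by linarith) k4 (by nlinarith)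
    (abs_le.2 ⟨by linarith, by linarith⟩) (abs_le.2 ⟨by linarith, by linarith⟩)
    (by linarith) (by linarith) (by linarith) (by linarith) (by linarith)
    (abs_le.2 ⟨by linarith, by linarith⟩) (abs_le.2 ⟨by linarith, by linarith⟩)
    (by linarith) (by linarith)
    (abs_le.2 ⟨by linarith, by linarith⟩) (abs_le.2 ⟨by linarith, by linarith⟩)
    (abs_le.2 ⟨by linarith, by linarith⟩)
    (by
      have e1 : |((⌊800 * δ⌋₊ : ℕ) : ℝ) - ((⌊s / 2⌋₊ : ℕ) : ℝ)| =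
          ((⌊s / 2⌋₊ : ℕ) : ℝ) - ((⌊800 * δ⌋₊ : ℕ) : ℝ) := by
        rw [abs_sub_comm, abs_of_nonneg (by linarith)]
      rw [e1] at d2
      have e2 : rho (yP F σ b κ' w' ⌊800 * δ⌋₊) (yP F σ b κ' w' ⌊s / 2⌋₊) ≤
          ((⌊s / 2⌋₊ : ℕ) : ℝ) - ((⌊800 * δ⌋₊ : ℕ) : ℝ) + 2 * δ := by
        unfold yP
        linarith [d2.2]
      linarith)
    ((Real.exp_le_exp.2 (by linarith)).trans v5) ((Real.exp_le_exp.2 (by linarith)).trans v5')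
    v6
    (v7.trans (Real.exp_le_exp.2 (by linarith))) (v7'.trans (Real.exp_le_exp.2 (by linarith)))
  linarith

end Pool.Agent.FIB
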