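import Pool.Agent.FIB.PCv
import Pool.Agent.FIB.PDet
import Pool.Agent.FIB.Tel

/-!
# Part C1, typical pairs for a fixed direction  (OPEN MODULE)

Keep the statement exactly; extra lemmas `private`.
-/

set_option autoImplicit false

namespace Pool.Agent.FIB

open UpperHalfPlane MeasureTheory Set

private theorem pf_prod {S : Set V} {a : ℝ} (_ha : 0 ≤ a) (h : volume S ≤ ENNReal.ofReal a) :
    volume (S ×ˢ box 4) ≤ ENNReal.ofReal (64 * a) ∧
      volume (box 4 ×ˢ S) ≤ ENNReal.ofReal (64 * a) := by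
  have h1 : (volume : Measure (V × V)) (S ×ˢ box 4) = volume S * volume (box 4) :=
    Measure.prod_prod _ _
  have h2 : (volume : Measure (V × V)) (box 4 ×ˢ S) = volume (box 4) * volume S :=
    Measure.prod_prod _ _
  have h3 : ENNReal.ofReal (64 * a) = ENNReal.ofReal 64 * ENNReal.ofReal a :=
    ENNReal.ofReal_mul (by norm_num)
  rw [h1, h2, volume_box4, h3, mul_comm (volume S)]
  exact ⟨mul_le_mul' le_rfl h, mul_le_mul' le_rfl h⟩

private theorem pf_sc {K s σ δ : ℝ} (hS : Sc K s σ δ) : 2 ≤ σ ∧ σ ≤ s ∧ 0 ≤ s := by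
  have hK := hS.hK
  have h1 := hS.hδ
  have h2 := hS.hs
  have hs0 : 0 ≤ s := by linarith
  have h3 : 0 < 100 * K := by linarith
  refine ⟨?_, ?_, hs0⟩
  · rw [hS.hσ, le_div_iff₀ h3]
    linarith
  · rw [hS.hσ, div_le_iff₀ h3]
    nlinarith

private theorem pf_box : box 4 ⊆ box 8 := by
  rintro u ⟨h1, h2⟩
  exact ⟨⟨by linarith [h1.1], by linarith [h1.2]⟩, ⟨by linarith [h2.1], by linarith [h2.2]⟩⟩

/-- The hypotheses `SG` for one typical sheet. -/
private theorem pf_sg {K : ℝ} (F : QM K) {s σ b ε0 : ℝ} (hS : Sc K s σ (ε0 * s)) (hε0 : 0 < ε0)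
    (hb : |b| ≤ 1) {t t' : ℍ} {uh : V} (huh : uh ∈ Dh)
    (h1 : rho (F.f (wh s σ b uh) (pt b σ)) t' ≤ ε0 * (s + σ)) {u : V} (hu : u ∈ box 4)
    (ha : ¬ ε0 * s < rho (F.f (Real.exp s • u) o) t)
    (hb4 : UnitP F (Real.exp s • u) (bb σ b u uh) 0 s (ε0 * s))
    (hc : UnitP (F.tr 0 (fr b σ)) (Real.exp (s + σ) • uh) (kap σ b u uh) 0 (s + σ)
      (ε0 * (s + σ)))
    (hd : ¬ ε0 * (s + σ) + 1 < gp t ((F.tr 0 (fr b σ)).f (Real.exp (s + σ) • uh)
      (pt (kap σ b u uh) (s + σ))) t')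
    (he : ¬ nm t' (F.U (Real.exp s • u) (pt b σ) - F.U (wh s σ b uh) (pt b σ)) <
      Real.exp ((1 - ε0) * (s + σ)) / 2) :
    SG F s σ b (kap σ b u uh) (ε0 * s) (Real.exp s • u) (wh s σ b uh) t t' := by
  obtain ⟨hσ2, hσs, hs0⟩ := pf_sc hS
  have hdl : ε0 * (s + σ) ≤ 2 * (ε0 * s) := by nlinarith
  refine ⟨(kap_bound hσ2 hb hu huh).2.2.1, hb, not_lt.1 ha, hb4, h1.trans hdl, ?_, ?_, ?_, ?_⟩
  · intro i i' hi hi'
    have h2 := hc i i' hi hi'
    rw [tr_fr_f, tr_fr_f, zero_add, zero_add] at h2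
    exact h2.trans hdl
  · have h2 := not_lt.1 hd
    rw [tr_fr_f] at h2
    have h3 : s + 2 * σ = σ + (s + σ) := by ring
    rw [h3]
    linarith
  · intro j hj
    exact meet_le hσ2 hb hu huh j hj
  · refine le_trans ?_ (not_lt.1 he)
    have h2 : Real.exp (s + σ - 2 * (ε0 * s) - 1) ≤
        Real.exp ((1 - ε0) * (s + σ)) * Real.exp (-1) := by
      rw [← Real.exp_add, Real.exp_le_exp]
      have h3 : (1 - ε0) * (s + σ) = s + σ - ε0 * (s + σ) := by ring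
      rw [h3]
      linarith
    have h4 : Real.exp (-1) ≤ 1 / 2 := by
      rw [Real.exp_neg, ← one_div]
      exact one_div_le_one_div_of_le (by norm_num) (by linarith [Real.add_one_le_exp (1 : ℝ)])
    have h5 := mul_le_mul_of_nonneg_left h4 (Real.exp_pos ((1 - ε0) * (s + σ))).le
    linarith

/-- **Fixed direction.**  `b ∈ [-1, 1]` and `uh ∈ Dh` are fixed, `δ = ε0 s`.  For typical
`(u, u') ∈ box 4 × box 4` the sheets `e^s u`, `e^s u'` have the same image over `pt b σ`.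

PROOF.  The set in the conclusion is contained in the union of the sets of the pairs `(u, u')` in
`box 4 × box 4` for which one of the following fails (write `w' = wh s σ b uh`, `κ = kap σ b u uh`,
`κ' = kap σ b u' uh`; then `b + κ e^{-2σ} = bb σ b u uh`):
 (α) `rho (F.f (e^s u) o) t ≤ δ`, and the same for `u'`: measure `≤ 2 * 64 * ε0` (`hA1`, `box 4 ⊆ box 8`,
     product sets);
 (β) `UnitP F (e^s u) (bb σ b u uh) 0 s δ`, same for `u'`: `2 * 64 η` (`h4`);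
 (γ) `UnitP (F.tr 0 (fr b σ)) (e^{s+σ} uh) κ 0 (s+σ) (ε0 (s+σ))`, same for `κ'`: `2 * 64 * 32 η` (`h2`,
     `vol_kap`);
 (δ) `gp t (F.f w' (pt (bb ..) (s + 2σ))) t' ≤ ε0 (s + σ) + 1`, same for `u'`: `2 * 64 * 32 η`, by
     `pairs_to_all` with `B = Icc (-8) 8`, `g κ = (F.tr 0 (fr b σ)).f (e^{s+σ} uh) (pt κ (s+σ))`, `q = t` (`h3`),
     `vol_kap` and `tr_fr_f` (`σ + (s + σ) = s + 2σ`);
 (ε) `gp (F.f w' (pt (bb ..u) (s+2σ))) (F.f w' (pt (bb ..u') (s+2σ))) t' ≤ ε0 (s+σ)`: `4096 η` (`h3`,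
     `vol_kap2`; the set is measurable by `F.measSet` for `F.tr 0 (fr b σ)`);
 (ζ) `e^{(1-ε0)(s+σ)}/2 ≤ nm t' (..)`, same for `u'`: `2 * 64 η` (`h5`);
 (η) `nm t (F.U (e^s u) o - F.U (e^s u') o) ≤ e^{(1+ε0) s}`: `ε0` (`hA4`).
The sum is `≤ 20000 η` (`ε0 ≤ η`).  Outside these sets both `(u, uh)` and `(u', uh)` satisfy `SG` with
`δ = ε0 s` (`hκ`, `hb`: `kap_bound`; `cen'`: `h1`, `ε0 (s + σ) ≤ 2δ` since `σ ≤ s`; `unit'`: (γ), `tr_fr_f`
with `zero_add`; `gpt`: (δ); `meet`: `meet_le`; `vec`: (ζ), `(1 - ε0)(s + σ) - log 2 ≥ s + σ - 2δ - 1`),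
`hgg` is (ε), `hU` is (η), and `c1_pair` gives `rho ≤ 1280 δ`. -/
theorem fix_dir {K : ℝ} (F : QM K) {s σ b ε0 η : ℝ} (hS : Sc K s σ (ε0 * s)) (hε0 : 0 < ε0)
    (hη : 0 < η) (hεη : ε0 ≤ η) (hb : |b| ≤ 1) {t t' : ℍ} {uh : V} (huh : uh ∈ Dh)
    (hA1 : volume {u : V | u ∈ box 8 ∧ ε0 * s < rho (F.f (Real.exp s • u) o) t} ≤
      ENNReal.ofReal ε0)
    (hA4 : volume {q : V × V | q.1 ∈ box 8 ∧ q.2 ∈ box 8 ∧
      Real.exp ((1 + ε0) * s) < nm t (F.U (Real.exp s • q.1) o - F.U (Real.exp s • q.2) o)} ≤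
        ENNReal.ofReal ε0)
    (h1 : rho (F.f (wh s σ b uh) (pt b σ)) t' ≤ ε0 * (s + σ))
    (h2 : volume {κ : ℝ | κ ∈ Icc (-8) 8 ∧
      ¬ UnitP (F.tr 0 (fr b σ)) (Real.exp (s + σ) • uh) κ 0 (s + σ) (ε0 * (s + σ))} ≤
        ENNReal.ofReal η)
    (h3 : volume {q : ℝ × ℝ | q.1 ∈ Icc (-8) 8 ∧ q.2 ∈ Icc (-8) 8 ∧
      ε0 * (s + σ) < gp ((F.tr 0 (fr b σ)).f (Real.exp (s + σ) • uh) (pt q.1 (s + σ)))
        ((F.tr 0 (fr b σ)).f (Real.exp (s + σ) • uh) (pt q.2 (s + σ))) t'} ≤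
          ENNReal.ofReal (η ^ 2))
    (h4 : volume {u : V | u ∈ box 4 ∧
      ¬ UnitP F (Real.exp s • u) (bb σ b u uh) 0 s (ε0 * s)} ≤ ENNReal.ofReal η)
    (h5 : volume {u : V | u ∈ box 4 ∧ nm t' (F.U (Real.exp s • u) (pt b σ) -
      F.U (wh s σ b uh) (pt b σ)) < Real.exp ((1 - ε0) * (s + σ)) / 2} ≤ ENNReal.ofReal η) :
    volume {q : V × V | q.1 ∈ box 4 ∧ q.2 ∈ box 4 ∧
      1280 * (ε0 * s) < rho (F.f (Real.exp s • q.1) (pt b σ)) (F.f (Real.exp s • q.2) (pt b σ))} ≤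
        ENNReal.ofReal (20000 * η) := by
  obtain ⟨hσ2, hσs, hs0⟩ := pf_sc hS
  -- the bad sets for one sheet
  have hSa : volume {u : V | u ∈ box 8 ∧ ε0 * s < rho (F.f (Real.exp s • u) o) t} ≤
      ENNReal.ofReal η := hA1.trans (ENNReal.ofReal_le_ofReal hεη)
  have hSc := vol_kap hσ2 hb huh _ hη.le h2
  have hSd := vol_kap hσ2 hb huh _ hη.le (pairs_to_all (B := Icc (-8) 8)
    (fun κ => (F.tr 0 (fr b σ)).f (Real.exp (s + σ) • uh) (pt κ (s + σ))) t' hη.le h3 t)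
  have hB2m : MeasurableSet {q : ℝ × ℝ | q.1 ∈ Icc (-8 : ℝ) 8 ∧ q.2 ∈ Icc (-8 : ℝ) 8 ∧
      ε0 * (s + σ) < gp ((F.tr 0 (fr b σ)).f (Real.exp (s + σ) • uh) (pt q.1 (s + σ)))
        ((F.tr 0 (fr b σ)).f (Real.exp (s + σ) • uh) (pt q.2 (s + σ))) t'} := by
    have m1 : MeasurableSet {q : ℝ × ℝ | q.1 ∈ Icc (-8 : ℝ) 8} :=
      measurable_fst measurableSet_Icc
    have m2 : MeasurableSet {q : ℝ × ℝ | q.2 ∈ Icc (-8 : ℝ) 8} :=
      measurable_snd measurableSet_Icc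
    have m3 := (F.tr 0 (fr b σ)).measSet (Ω := ℝ × ℝ) (ι := Bool)
      (fun _ _ => Real.exp (s + σ) • uh) (fun i q => pt (if i then q.1 else q.2) (s + σ))
      (fun _ => measurable_const) (fun i => by
        cases i
        · exact measurable_pt' measurable_snd measurable_const
        · exact measurable_pt' measurable_fst measurable_const)
      (fun v => ε0 * (s + σ) < gp (v true).2 (v false).2 t')
    exact m1.inter (m2.inter m3)
  have hSe := vol_kap2 hσ2 hb huh _ hB2m hη h3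
  obtain ⟨Sall, hSall⟩ : ∃ S : Set V, S =
      {u : V | u ∈ box 8 ∧ ε0 * s < rho (F.f (Real.exp s • u) o) t} ∪
      ({u : V | u ∈ box 4 ∧ ¬ UnitP F (Real.exp s • u) (bb σ b u uh) 0 s (ε0 * s)} ∪
      ({u : V | u ∈ box 4 ∧ kap σ b u uh ∈ {κ : ℝ | κ ∈ Icc (-8) 8 ∧
        ¬ UnitP (F.tr 0 (fr b σ)) (Real.exp (s + σ) • uh) κ 0 (s + σ) (ε0 * (s + σ))}} ∪
      ({u : V | u ∈ box 4 ∧ kap σ b u uh ∈ {κ : ℝ | κ ∈ Icc (-8) 8 ∧ ε0 * (s + σ) + 1 <
        gp t ((F.tr 0 (fr b σ)).f (Real.exp (s + σ) • uh) (pt κ (s + σ))) t'}} ∪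
      {u : V | u ∈ box 4 ∧ nm t' (F.U (Real.exp s • u) (pt b σ) -
        F.U (wh s σ b uh) (pt b σ)) < Real.exp ((1 - ε0) * (s + σ)) / 2}))) := ⟨_, rfl⟩
  have hvall : volume Sall ≤ ENNReal.ofReal (67 * η) := by
    have e1 : ENNReal.ofReal (67 * η) = ENNReal.ofReal η + (ENNReal.ofReal η +
        (ENNReal.ofReal (32 * η) + (ENNReal.ofReal (32 * η) + ENNReal.ofReal η))) := by
      rw [← ENNReal.ofReal_add (by positivity) (by positivity),
        ← ENNReal.ofReal_add (by positivity) (by positivity),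
        ← ENNReal.ofReal_add (by positivity) (by positivity),
        ← ENNReal.ofReal_add (by positivity) (by positivity)]
      congr 1
      ring
    rw [e1, hSall]
    refine (measure_union_le _ _).trans (add_le_add hSa ?_)
    refine (measure_union_le _ _).trans (add_le_add h4 ?_)
    refine (measure_union_le _ _).trans (add_le_add hSc ?_)
    exact (measure_union_le _ _).trans (add_le_add hSd h5)
  obtain ⟨hp1, hp2⟩ := pf_prod (by positivity) hvall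
  have hsub : {q : V × V | q.1 ∈ box 4 ∧ q.2 ∈ box 4 ∧
      1280 * (ε0 * s) < rho (F.f (Real.exp s • q.1) (pt b σ)) (F.f (Real.exp s • q.2) (pt b σ))} ⊆
      (Sall ×ˢ box 4) ∪ ((box 4 ×ˢ Sall) ∪
      ({q : V × V | q.1 ∈ box 4 ∧ q.2 ∈ box 4 ∧ (kap σ b q.1 uh, kap σ b q.2 uh) ∈
        {q : ℝ × ℝ | q.1 ∈ Icc (-8 : ℝ) 8 ∧ q.2 ∈ Icc (-8 : ℝ) 8 ∧
      ε0 * (s + σ) < gp ((F.tr 0 (fr b σ)).f (Real.exp (s + σ) • uh) (pt q.1 (s + σ)))
        ((F.tr 0 (fr b σ)).f (Real.exp (s + σ) • uh) (pt q.2 (s + σ))) t'}} ∪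
      {q : V × V | q.1 ∈ box 8 ∧ q.2 ∈ box 8 ∧
      Real.exp ((1 + ε0) * s) < nm t (F.U (Real.exp s • q.1) o - F.U (Real.exp s • q.2) o)})) := by
    rintro ⟨u, u'⟩ ⟨hu, hu', hlt⟩
    by_contra hnot
    have n1 : (u, u') ∉ Sall ×ˢ box 4 := fun h => hnot (Or.inl h)
    have n2 : (u, u') ∉ box 4 ×ˢ Sall := fun h => hnot (Or.inr (Or.inl h))
    have n3 := fun h => hnot (Or.inr (Or.inr (Or.inl h)))
    have n4 := fun h => hnot (Or.inr (Or.inr (Or.inr h)))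
    have hu0 : u ∉ Sall := fun h => n1 ⟨h, hu'⟩
    have hu0' : u' ∉ Sall := fun h => n2 ⟨hu, h⟩
    have hsg : ∀ v : V, v ∈ box 4 → v ∉ Sall →
        SG F s σ b (kap σ b v uh) (ε0 * s) (Real.exp s • v) (wh s σ b uh) t t' := by
      intro v hv hv0
      rw [hSall] at hv0
      have hk : kap σ b v uh ∈ Icc (-8 : ℝ) 8 := by
        have := (kap_bound hσ2 hb hv huh).2.2.1
        rw [abs_le] at this
        exact this
      refine pf_sg F hS hε0 hb huh h1 hv ?_ ?_ ?_ ?_ ?_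
      · intro h
        exact hv0 (Or.inl ⟨pf_box hv, h⟩)
      · by_contra h
        exact hv0 (Or.inr (Or.inl ⟨hv, h⟩))
      · by_contra h
        exact hv0 (Or.inr (Or.inr (Or.inl ⟨hv, hk, h⟩)))
      · intro h
        exact hv0 (Or.inr (Or.inr (Or.inr (Or.inl ⟨hv, hk, h⟩))))
      · intro h
        exact hv0 (Or.inr (Or.inr (Or.inr (Or.inr ⟨hv, h⟩))))
    have hk : ∀ v : V, v ∈ box 4 → kap σ b v uh ∈ Icc (-8 : ℝ) 8 := by
      intro v hv
      have := (kap_bound hσ2 hb hv huh).2.2.1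
      rw [abs_le] at this
      exact this
    have g1 : gp (F.f (wh s σ b uh) (pt (b + kap σ b u uh * Real.exp (-2 * σ)) (s + 2 * σ)))
        (F.f (wh s σ b uh) (pt (b + kap σ b u' uh * Real.exp (-2 * σ)) (s + 2 * σ))) t' ≤
        2 * (ε0 * s) := by
      by_contra h
      rw [not_le] at h
      refine n3 ⟨hu, hu', hk u hu, hk u' hu', ?_⟩
      show ε0 * (s + σ) < gp ((F.tr 0 (fr b σ)).f (Real.exp (s + σ) • uh)
        (pt (kap σ b u uh) (s + σ))) ((F.tr 0 (fr b σ)).f (Real.exp (s + σ) • uh)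
        (pt (kap σ b u' uh) (s + σ))) t'
      rw [tr_fr_f, tr_fr_f]
      have h3 : σ + (s + σ) = s + 2 * σ := by ring
      rw [h3]
      nlinarith
    have g2 : nm t (F.U (Real.exp s • u) o - F.U (Real.exp s • u') o) ≤
        Real.exp (s + ε0 * s) := by
      by_contra h
      rw [not_le] at h
      refine n4 ⟨pf_box hu, pf_box hu', ?_⟩
      have h3 : (1 + ε0) * s = s + ε0 * s := by ring
      show Real.exp ((1 + ε0) * s) < nm t (F.U (Real.exp s • u) o - F.U (Real.exp s • u') o)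
      rw [h3]
      exact h
    have hfin := c1_pair hS (hsg u hu hu0) (hsg u' hu' hu0') g1 g2
    exact absurd hlt (not_lt.2 hfin)
  refine (measure_mono hsub).trans ?_
  have e2 : ENNReal.ofReal (64 * (67 * η)) + (ENNReal.ofReal (64 * (67 * η)) +
      (ENNReal.ofReal (4096 * η) + ENNReal.ofReal η)) ≤ ENNReal.ofReal (20000 * η) := by
    rw [← ENNReal.ofReal_add (by positivity) (by positivity),
      ← ENNReal.ofReal_add (by positivity) (by positivity),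
      ← ENNReal.ofReal_add (by positivity) (by positivity)]
    refine ENNReal.ofReal_le_ofReal ?_
    linarith
  refine le_trans ?_ e2
  refine (measure_union_le _ _).trans (add_le_add hp1 ?_)
  refine (measure_union_le _ _).trans (add_le_add hp2 ?_)
  exact (measure_union_le _ _).trans (add_le_add hSe
    (hA4.trans (ENNReal.ofReal_le_ofReal hεη)))

end Pool.Agent.FIB
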