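import Pool.Agent.FIB.PSel
import Pool.Agent.FIB.PFix

/-!
# Part C1: `StB K → StP K`  

Keep the statement exactly; extra lemmas `private`.

PROOF.  `ν = 1/(100 K)`.  Given `ε > 0` let `ρ = min ε 1 / 10000`, `η = min ε 1 / 100000`, and choose
`ε0 > 0` with `2 ε0 ≤ ρ (η/10)`, `ε0 ≤ η^2/10`, `64 √ε0 ≤ η/10`, `1280 ε0 ≤ ε`, for instance
`ε0 = (min ε 1)^2 / 10^17`  (`64 √ε0 ≤ 64 (min ε 1)/10^8 ≤ (min ε 1)/10^6`; `ρ η/20 = (min ε 1)^2/(2·10^10)`).
Let `s1` be the `s0` of `StB` for `ε0`, and `s0 ≥ s1` such that for `s ≥ s0` the scales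
`Sc K s (ν s) (ε0 s)` hold: `100 K ≤ ε0 s`; `100000 ε0 s ≤ s` as `ε0 ≤ 10^{-17}`;
`log (4 s + 100) ≤ ε0 s` for large `s` (`Real.isLittleO_log_id_atTop`, or
`log (4s + 100) ≤ 2 √(4 s + 100)`-type bound).
Let `F : QM K`, `s ≥ s0`, `σ = ν s`; take `t` from `StB` for `F, s`.  Let
`B = {q : V × ℝ | q.1 ∈ box 8 ∧ q.2 ∈ Icc (-8) 8 ∧ ¬ UnitP F (e^s q.1) q.2 0 s (ε0 s)}`, measurable
(`measurableSet_unitP`), measure `≤ ε0`.  `vol_bb` (`|bb| ≤ 2 ≤ 8` by `kap_bound`, `box 4 ⊆ box 8`) shows that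
`T = {(b, (uh, u)) | b ∈ [-1,1], uh ∈ Dh, u ∈ box 4, ¬ UnitP F (e^s u) (bb σ b u uh) 0 s (ε0 s)}` has
measure `≤ 2 ε0`; `markov_fubini` (`δ = η/10`, `ε = ρ`): the set `N` of the `b` for which the slice has
measure `> η/10` has measure `≤ ρ`.  For `b ∈ [-1,1] \ N` take `t'` from `StB` for `F.tr 0 (fr b σ)` and
`s + σ` (third clause with `L = s + σ`; the last clause contains the sets needed in `select` and
`fix_dir`), `uh` from `select`, and apply `fix_dir`: the set of the pairs has measure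
`≤ 20000 η`.  By `last_var` the set in `StP` (contained in the one with `1280 ε0 s` instead of `ε s`;
measurable by `F.measSet`) has measure `≤ 2 * 20000 η + 4096 ρ ≤ ε`
(`40000/100000 + 4096/10000 < 1`). -/

set_option autoImplicit false

namespace Pool.Agent.FIB

open UpperHalfPlane MeasureTheory Set

/-- the scales are admissible for large `s` -/
private lemma PMain_scales {K ε0 s : ℝ} (hK : 1 ≤ K) (hε0 : 0 < ε0) (hε1 : ε0 ≤ 1 / 10 ^ 17)
    (h1 : 100 * K / ε0 ≤ s) (h2 : 20 / ε0 ^ 2 ≤ s) (h3 : 100 ≤ s) :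
    Sc K s (1 / (100 * K) * s) (ε0 * s) := by
  have hs : 0 < s := by linarith
  refine ⟨hK, by ring, ?_, ?_, ?_⟩
  · rw [div_le_iff₀ hε0] at h1
    linarith
  · have := mul_le_mul_of_nonneg_right hε1 hs.le
    nlinarith
  · have hx : (0 : ℝ) < 4 * s + 100 := by linarith
    have h4 : Real.log (4 * s + 100) ≤ 2 * Real.sqrt (4 * s + 100) := by
      have h5 : Real.log (Real.sqrt (4 * s + 100)) ≤ Real.sqrt (4 * s + 100) - 1 :=
        Real.log_le_sub_one_of_pos (Real.sqrt_pos.2 hx)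
      rw [Real.log_sqrt hx.le] at h5
      linarith
    have h6 : 2 * Real.sqrt (4 * s + 100) ≤ ε0 * s := by
      have h7 : Real.sqrt (4 * s + 100) ≤ ε0 * s / 2 := by
        rw [Real.sqrt_le_left (by positivity)]
        rw [div_le_iff₀ (by positivity)] at h2
        have h8 : 20 * s ≤ s * ε0 ^ 2 * s := mul_le_mul_of_nonneg_right h2 hs.le
        nlinarith
      linarith
    linarith

private lemma PMain_box : box 4 ⊆ box 8 := by
  intro u hu
  have h1 := hu.1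
  have h2 := hu.2
  rw [Set.mem_Icc] at h1 h2
  exact ⟨Set.mem_Icc.2 ⟨by linarith [h1.1], by linarith [h1.2]⟩,
    Set.mem_Icc.2 ⟨by linarith [h2.1], by linarith [h2.2]⟩⟩

theorem partC1 (K : ℝ) (hK : 1 ≤ K) : StB K → StP K := by
  intro hStB
  refine ⟨1 / (100 * K), by positivity, ?_, ?_⟩
  · rw [div_le_div_iff₀ (by positivity) (by norm_num)]
    linarith
  intro ε hε
  obtain ⟨m, hm0, hm1, hmε⟩ : ∃ m : ℝ, 0 < m ∧ m ≤ 1 ∧ m ≤ ε :=
    ⟨min ε 1, lt_min hε one_pos, min_le_right _ _, min_le_left _ _⟩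
  obtain ⟨η, hη⟩ : ∃ η : ℝ, η = m / 100000 := ⟨_, rfl⟩
  obtain ⟨ρ, hρ⟩ : ∃ ρ : ℝ, ρ = m / 10000 := ⟨_, rfl⟩
  obtain ⟨ε0, hε0⟩ : ∃ ε0 : ℝ, ε0 = m ^ 2 / 10 ^ 17 := ⟨_, rfl⟩
  have hm2 : 0 < m ^ 2 := by positivity
  have hm3 : m ^ 2 ≤ m := by nlinarith
  have hη0 : 0 < η := by rw [hη]; positivity
  have hρ0 : 0 < ρ := by rw [hρ]; positivity
  have hε00 : 0 < ε0 := by rw [hε0]; positivity
  have hη1 : η ≤ 1 := by rw [hη]; linarith
  have e1 : 2 * ε0 ≤ ρ * (η / 10) := by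
    rw [hε0, hρ, hη]
    have : m / 10000 * (m / 100000 / 10) = m ^ 2 / 10 ^ 10 := by ring
    rw [this]
    linarith
  have e2 : ε0 ≤ η ^ 2 / 10 := by
    rw [hε0, hη]
    have : (m / 100000) ^ 2 / 10 = m ^ 2 / 10 ^ 11 := by ring
    rw [this]
    linarith
  have e3 : 64 * Real.sqrt ε0 ≤ η / 10 := by
    have h1 : Real.sqrt ε0 ≤ m / 10 ^ 8 := by
      rw [Real.sqrt_le_left (by positivity), hε0]
      have : (m / 10 ^ 8) ^ 2 = m ^ 2 / 10 ^ 16 := by ring
      rw [this]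
      linarith
    rw [hη]
    linarith
  have e4 : 1280 * ε0 ≤ ε := by rw [hε0]; linarith
  have e5 : ε0 ≤ 1 / 10 ^ 17 := by rw [hε0]; linarith
  have e6 : ε0 ≤ η := by rw [hε0, hη]; linarith
  obtain ⟨s1, hs1, hB⟩ := hStB ε0 hε00
  refine ⟨max (max s1 (100 * K / ε0)) (max (20 / ε0 ^ 2) 100), by positivity, ?_⟩
  intro F s hs
  have hsa : s1 ≤ s := le_trans (le_trans (le_max_left _ _) (le_max_left _ _)) hs
  have hsb : 100 * K / ε0 ≤ s := le_trans (le_trans (le_max_right _ _) (le_max_left _ _)) hs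
  have hsc : 20 / ε0 ^ 2 ≤ s := le_trans (le_trans (le_max_left _ _) (le_max_right _ _)) hs
  have hsd : 100 ≤ s := le_trans (le_trans (le_max_right _ _) (le_max_right _ _)) hs
  have hs0 : 0 < s := by linarith
  have hSc := PMain_scales hK hε00 e5 hsb hsc hsd
  obtain ⟨σ, hσ⟩ : ∃ σ : ℝ, σ = 1 / (100 * K) * s := ⟨_, rfl⟩
  rw [← hσ] at hSc ⊢
  have hσ2 : 2 ≤ σ := by
    have h1 := hSc.hδ
    have h2 := hSc.hs
    have h3 := hSc.hσ
    rw [h3, le_div_iff₀ (by positivity)]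
    linarith
  obtain ⟨t, hA1, -, -, hA4⟩ := hB F s hsa
  have hA4' : volume {q : V × V | q.1 ∈ box 8 ∧ q.2 ∈ box 8 ∧
      Real.exp ((1 + ε0) * s) < nm t (F.U (Real.exp s • q.1) o - F.U (Real.exp s • q.2) o)} ≤
        ENNReal.ofReal ε0 := by
    refine le_trans (measure_mono ?_) hA4
    rintro q ⟨h1, h2, h3⟩
    exact ⟨h1, h2, fun h4 => absurd h4.2 (not_le.2 h3)⟩
  obtain ⟨-, hA2, -, -⟩ := (hB F s hsa).choose_spec
  -- the bad set of the directions
  obtain ⟨B, hBdef⟩ : ∃ B : Set (V × ℝ), B = {q : V × ℝ | q.1 ∈ box 8 ∧ q.2 ∈ Icc (-8) 8 ∧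
      ¬ UnitP F (Real.exp s • q.1) q.2 0 s (ε0 * s)} := ⟨_, rfl⟩
  have hBm : MeasurableSet B := by
    rw [hBdef]
    refine (measurable_fst (measurableSet_box 8)).inter
      ((measurable_snd measurableSet_Icc).inter ?_)
    exact (measurableSet_unitP F (measurable_fst.const_smul (Real.exp s)) measurable_snd 0 s
      (ε0 * s)).compl
  have hBv : volume B ≤ ENNReal.ofReal ε0 := by rw [hBdef]; exact hA2
  obtain ⟨T, hTdef⟩ : ∃ T : Set (ℝ × (V × V)), T = {q : ℝ × (V × V) | q.1 ∈ Icc (-1 : ℝ) 1 ∧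
      q.2.1 ∈ Dh ∧ q.2.2 ∈ box 4 ∧ (q.2.2, bb σ q.1 q.2.2 q.2.1) ∈ B} := ⟨_, rfl⟩
  have hTm : MeasurableSet T := by
    rw [hTdef]
    refine (measurable_fst measurableSet_Icc).inter
      (((measurable_fst.comp measurable_snd) measurableSet_Dh).inter
        (((measurable_snd.comp measurable_snd) (measurableSet_box 4)).inter ?_))
    have hm : Measurable fun q : ℝ × (V × V) => (q.2.2, bb σ q.1 q.2.2 q.2.1) :=
      (measurable_snd.comp measurable_snd).prodMk (measurable_bb σ measurable_fst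
        (measurable_snd.comp measurable_snd) (measurable_fst.comp measurable_snd))
    exact hm hBm
  have hTv : volume T ≤ ENNReal.ofReal (ρ * (η / 10)) := by
    rw [hTdef]
    exact le_trans (vol_bb hσ2 B hBm hε00.le hBv) (ENNReal.ofReal_le_ofReal e1)
  have hN := markov_fubini hTm (by positivity : (0 : ℝ) < η / 10) hρ0.le hTv
  -- the set
  have hSm : MeasurableSet {q : V × V × ℝ | q.1 ∈ box 4 ∧ q.2.1 ∈ box 4 ∧ q.2.2 ∈ Icc (-1 : ℝ) 1 ∧
      1280 * (ε0 * s) < rho (F.f (Real.exp s • q.1) (pt q.2.2 σ))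
        (F.f (Real.exp s • q.2.1) (pt q.2.2 σ))} := by
    refine (measurable_fst (measurableSet_box 4)).inter
      (((measurable_fst.comp measurable_snd) (measurableSet_box 4)).inter
        (((measurable_snd.comp measurable_snd) measurableSet_Icc).inter ?_))
    exact F.measSet (ι := Bool) (fun i (q : V × V × ℝ) => Real.exp s • (bif i then q.1 else q.2.1))
      (fun _ q => pt q.2.2 σ)
      (fun i => by
        cases i
        · exact (measurable_fst.comp measurable_snd).const_smul (Real.exp s)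
        · exact measurable_fst.const_smul (Real.exp s))
      (fun _ => measurable_pt' (measurable_snd.comp measurable_snd) measurable_const)
      (fun v => 1280 * (ε0 * s) < rho (v true).2 (v false).2)
  have hfin := last_var hSm (c := 20000 * η) (ρ := ρ) (by positivity) hρ0.le
    (fun q hq => ⟨hq.1, hq.2.1, hq.2.2.1⟩) _ hN ?_
  · refine le_trans (measure_mono ?_) (hfin.trans (ENNReal.ofReal_le_ofReal ?_))
    · rintro q ⟨h1, h2, h3, h4⟩
      refine ⟨h1, h2, h3, lt_of_le_of_lt ?_ h4⟩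
      have := mul_le_mul_of_nonneg_right e4 hs0.le
      linarith
    · rw [hη, hρ]
      linarith
  · intro b hb hbN
    have hb1 : |b| ≤ 1 := abs_le.2 ⟨hb.1, hb.2⟩
    have hsσ : s1 ≤ s + σ := by linarith
    obtain ⟨t', hB1, hB2, hB3, hB4⟩ := hB (F.tr 0 (fr b σ)) (s + σ) hsσ
    have hB3' := hB3 (s + σ) (by linarith) le_rfl
    have hB4' : volume {q : V × V | q.1 ∈ box 8 ∧ q.2 ∈ box 8 ∧
        nm t' ((F.tr 0 (fr b σ)).U (Real.exp (s + σ) • q.1) o -
          (F.tr 0 (fr b σ)).U (Real.exp (s + σ) • q.2) o) < Real.exp ((1 - ε0) * (s + σ))} ≤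
          ENNReal.ofReal ε0 := by
      refine le_trans (measure_mono ?_) hB4
      rintro q ⟨h1, h2, h3⟩
      exact ⟨h1, h2, fun h4 => absurd h4.1 (not_le.2 h3)⟩
    have hT : volume {q : V × V | q.1 ∈ Dh ∧ q.2 ∈ box 4 ∧
        ¬ UnitP F (Real.exp s • q.2) (bb σ b q.2 q.1) 0 s (ε0 * s)} ≤
          ENNReal.ofReal (η / 10) := by
      have h1 : volume {c : V × V | (b, c) ∈ T} ≤ ENNReal.ofReal (η / 10) := by
        by_contra h2
        exact hbN (not_le.1 h2)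
      refine le_trans (measure_mono ?_) h1
      rintro q ⟨h2, h3, h4⟩
      have h5 := (kap_bound hσ2 hb1 h3 h2).2.2.2
      have h6 := abs_le.1 h5
      show (b, q) ∈ T
      rw [hTdef]
      refine ⟨hb, h2, h3, ?_⟩
      rw [hBdef]
      exact ⟨PMain_box h3, ⟨by linarith [h6.1], by linarith [h6.2]⟩, h4⟩
    obtain ⟨uh, huh, g1, g2, g3, g4, g5⟩ := select F hε00 hη0 hη1 e2 e3 t' hB1 hB2 hB3' hB4' hT
    have g6 := fix_dir F hSc hε00 hη0 e6 hb1 huh hA1 hA4' g1 g2 g3 g4 g5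
    refine le_trans (measure_mono ?_) g6
    rintro q ⟨h1, h2, -, h4⟩
    exact ⟨h1, h2, h4⟩

end Pool.Agent.FIB
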