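import Pool.Agent.FIB.B5Vec

/-!
# Part B, items B4 and B5: `StB0 K → StB K`
-/

set_option autoImplicit false

namespace Pool.Agent.FIB

open UpperHalfPlane MeasureTheory Set
open scoped MatrixGroups

theorem b_log (a : ℝ) (ha : 0 < a) : ∀ᶠ s : ℝ in Filter.atTop, Real.log (4 * s + 24) ≤ a * s := by
  have h1 : Filter.Tendsto (fun s : ℝ => 4 * s + 24) Filter.atTop Filter.atTop :=
    Filter.tendsto_atTop_add_const_right _ _ (Filter.Tendsto.const_mul_atTop (by norm_num)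
      Filter.tendsto_id)
  have h2 := (Real.isLittleO_log_id_atTop.def (c := a / 8) (by positivity))
  have h3 := h1.eventually h2
  filter_upwards [h3, Filter.eventually_ge_atTop 24] with s hs hs24
  rw [Real.norm_eq_abs, id, Real.norm_eq_abs, abs_of_nonneg (by linarith : 0 ≤ 4 * s + 24)] at hs
  have h4 := le_abs_self (Real.log (4 * s + 24))
  nlinarith

/-- The pairs near the diagonal. -/
theorem b_diag {δ : ℝ} (hδ : 0 ≤ δ) :
    volume {p : V × V | p.1 ∈ box 8 ∧ |p.2.1 - p.1.1| ≤ δ ∧ |p.2.2 - p.1.2| ≤ δ} ≤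
      ENNReal.ofReal (1024 * δ ^ 2) := by
  have hm : MeasurableSet {p : V × V | |p.2.1 - p.1.1| ≤ δ ∧ |p.2.2 - p.1.2| ≤ δ} := by
    refine MeasurableSet.inter ?_ ?_
    · exact measurableSet_le (f := fun p : V × V => |p.2.1 - p.1.1|) (g := fun _ : V × V => δ)
        (by fun_prop) (by fun_prop)
    · exact measurableSet_le (f := fun p : V × V => |p.2.2 - p.1.2|) (g := fun _ : V × V => δ)
        (by fun_prop) (by fun_prop)
  have h1 := fiber_le (ε := 4 * δ ^ 2) hm (b_box_meas 8) (by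
    intro u _
    have h2 : {v : V | (u, v) ∈ {p : V × V | |p.2.1 - p.1.1| ≤ δ ∧ |p.2.2 - p.1.2| ≤ δ}} =
        {v : V | -u + v ∈ box δ} := by
      ext v
      simp only [Set.mem_ofPred_eq, mem_box, neg_add_eq_sub, Prod.fst_sub, Prod.snd_sub]
    rw [h2, shiftV_le, b_box δ hδ])
  rw [b_box 8 (by norm_num), ← ENNReal.ofReal_mul (by positivity)] at h1
  refine le_trans (measure_mono ?_) (h1.trans (ENNReal.ofReal_le_ofReal ?_))
  · rintro p ⟨h3, h4, h5⟩
    exact ⟨h3, h4, h5⟩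
  · nlinarith [sq_nonneg δ]

theorem partB_of_StB0 (K : ℝ) (hK : 1 ≤ K) (h : StB0 K) : StB K := by
  obtain ⟨C, hC, hhalf⟩ := b5_half K hK
  intro ε hε
  have hA := Real.exp_pos 10
  obtain ⟨B1, hB1⟩ : ∃ B1 : ℝ, B1 = 6400 * (17 * Real.exp 10 + 6400) := ⟨_, rfl⟩
  have hB1p : 0 < B1 := by rw [hB1]; positivity
  obtain ⟨B, hB⟩ : ∃ B : ℝ, B = 2048 * (Real.exp 10 + 2 * B1) := ⟨_, rfl⟩
  have hBp : 0 < B := by rw [hB]; positivity
  obtain ⟨ε2, hε2⟩ : ∃ ε2 : ℝ, ε2 = min 1 (ε / (2 * B)) := ⟨_, rfl⟩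
  have e20 : 0 < ε2 := by rw [hε2]; positivity
  have e21 : ε2 ≤ 1 := by rw [hε2]; exact min_le_left _ _
  have e2B : B * ε2 ≤ ε / 2 := by
    have h1 : ε2 ≤ ε / (2 * B) := by rw [hε2]; exact min_le_right _ _
    have h2 := mul_le_mul_of_nonneg_left h1 hBp.le
    have h3 : B * (ε / (2 * B)) = ε / 2 := by field_simp
    linarith
  have e24 : ε2 ^ 4 ≤ ε2 := by
    calc ε2 ^ 4 = ε2 * ε2 ^ 3 := by ring
      _ ≤ ε2 * 1 := mul_le_mul_of_nonneg_left (pow_le_one₀ e20.le e21) e20.le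
      _ = ε2 := mul_one _
  obtain ⟨δ, hδ⟩ : ∃ δ : ℝ, δ = min 1 (ε / 2048) := ⟨_, rfl⟩
  have d0 : 0 < δ := by rw [hδ]; positivity
  have d1 : δ ≤ 1 := by rw [hδ]; exact min_le_left _ _
  have d2 : δ ≤ ε / 2048 := by rw [hδ]; exact min_le_right _ _
  obtain ⟨ε4, hε4⟩ : ∃ ε4 : ℝ, ε4 = min 1 ε / (2 * C) := ⟨_, rfl⟩
  have e40 : 0 < ε4 := by
    rw [hε4]
    have : 0 < min 1 ε := lt_min one_pos hε
    positivity
  have e4C : C * ε4 ≤ 1 / 2 := by
    rw [hε4]
    have h1 : C * (min 1 ε / (2 * C)) = min 1 ε / 2 := by field_simp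
    rw [h1]
    linarith [min_le_left 1 ε]
  have e4C' : C * ε4 ≤ ε / 2 := by
    rw [hε4]
    have h1 : C * (min 1 ε / (2 * C)) = min 1 ε / 2 := by field_simp
    rw [h1]
    linarith [min_le_right 1 ε]
  have e4ε : ε4 ≤ ε / 2 := by nlinarith
  obtain ⟨ε1, hε1⟩ : ∃ ε1 : ℝ, ε1 = min (ε2 ^ 4) (ε4 / 16) := ⟨_, rfl⟩
  have e10 : 0 < ε1 := by rw [hε1]; positivity
  have e12 : ε1 ≤ ε2 ^ 4 := by rw [hε1]; exact min_le_left _ _
  have e14 : ε1 ≤ ε4 / 16 := by rw [hε1]; exact min_le_right _ _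
  obtain ⟨s0, hs0, hmain⟩ := h ε1 e10
  have hev : ∀ᶠ s : ℝ in Filter.atTop, Real.log (4 * s + 24) ≤ ε4 * s ∧
      20 * K + 10 ≤ ε4 * s ∧ 5 - Real.log δ ≤ ε4 * s ∧ 10 ≤ ε * s ∧ s0 ≤ s ∧ 5 ≤ s := by
    have t1 : Filter.Tendsto (fun s : ℝ => ε4 * s) Filter.atTop Filter.atTop :=
      Filter.Tendsto.const_mul_atTop e40 Filter.tendsto_id
    have t2 : Filter.Tendsto (fun s : ℝ => ε * s) Filter.atTop Filter.atTop :=
      Filter.Tendsto.const_mul_atTop hε Filter.tendsto_id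
    filter_upwards [b_log ε4 e40, t1.eventually_ge_atTop (20 * K + 10),
      t1.eventually_ge_atTop (5 - Real.log δ), t2.eventually_ge_atTop 10,
      Filter.eventually_ge_atTop s0, Filter.eventually_ge_atTop 5] with s a b c d f g
    exact ⟨a, b, c, d, f, g⟩
  obtain ⟨s1, hs1⟩ := Filter.eventually_atTop.1 hev
  refine ⟨max s1 1, lt_of_lt_of_le one_pos (le_max_right _ _), ?_⟩
  intro F s hs
  obtain ⟨k1, k2, k3, k4, k5, k6⟩ := hs1 s ((le_max_left _ _).trans hs)
  obtain ⟨e, he⟩ : ∃ e : ℝ, e = ε1 * (s + 5) := ⟨_, rfl⟩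
  have hs5 : s0 ≤ s + 5 := by linarith
  have he0 : 0 ≤ e := by
    rw [he]
    have : 0 ≤ s + 5 := by linarith
    positivity
  have heε : e ≤ ε4 * s / 8 := by
    rw [he]
    have h1 : ε1 * (s + 5) ≤ ε4 / 16 * (s + 5) := mul_le_mul_of_nonneg_right e14 (by linarith)
    nlinarith
  obtain ⟨e2, he2⟩ : ∃ e2 : ℝ, e2 = ε4 * s := ⟨_, rfl⟩
  rw [← he2] at k1 k2 k3 heε
  have hee2 : 4 * e + 10 * K + 5 ≤ e2 := by linarith
  have he2ε : e2 ≤ ε * s / 2 := by
    rw [he2]
    nlinarith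
  obtain ⟨D, hD⟩ : ∃ D : ℕ, D = ⌊s + 5⌋₊ := ⟨_, rfl⟩
  have hDle : (D : ℝ) ≤ s + 5 := by
    rw [hD]
    exact Nat.floor_le (by linarith)
  have hDge : s + 4 ≤ (D : ℝ) := by
    have := Nat.lt_floor_add_one (s + 5)
    rw [← hD] at this
    linarith
  have hDlog : Real.log (4 * D + 4) ≤ e2 := by
    refine (Real.log_le_log ?_ ?_).trans k1
    · have := Nat.cast_nonneg (α := ℝ) D
      linarith
    · linarith
  have hCe2 : C * e2 ≤ s / 2 := by
    rw [he2]
    nlinarith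
  have hCe2' : C * e2 ≤ ε * s / 2 := by
    rw [he2]
    nlinarith
  -- the output of `StB0`
  have hU : ∀ F : QM K, volume {q : V × ℝ | q.1 ∈ box 8 ∧ q.2 ∈ Icc (-8) 8 ∧
      ¬ UnitP F (Real.exp (s + 5) • q.1) q.2 0 (s + 5) e} ≤ ENNReal.ofReal (ε2 ^ 4) := by
    intro F
    rw [he]
    exact (hmain F (s + 5) hs5).1.trans (ENNReal.ofReal_le_ofReal e12)
  have hPr : ∀ L : ℝ, 0 ≤ L → L ≤ s + 5 →
      volume {q : V × ℝ × ℝ | q.1 ∈ box 8 ∧ q.2.1 ∈ Icc (-8) 8 ∧ q.2.2 ∈ Icc (-8) 8 ∧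
        e < gp (F.f (Real.exp (s + 5) • q.1) (pt q.2.1 L))
          (F.f (Real.exp (s + 5) • q.1) (pt q.2.2 L)) (F.f (Real.exp (s + 5) • q.1) o)} ≤
        ENNReal.ofReal (ε2 ^ 4) := by
    intro L hL0 hL
    rw [he]
    exact ((hmain F (s + 5) hs5).2 L hL0 hL).trans (ENNReal.ofReal_le_ofReal e12)
  obtain ⟨t, ht⟩ := b4_center hK F s e ε2 D e20 e21 hDge hDle (hU F)
    (hPr D (Nat.cast_nonneg D) hDle)
  rw [← hB1] at ht
  have ht2 : volume {u : V | u ∈ box 8 ∧ e2 < rho (F.f (Real.exp s • u) o) t} ≤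
      ENNReal.ofReal (B1 * ε2) := by
    refine (measure_mono ?_).trans ht
    rintro u ⟨hu, hu'⟩
    exact ⟨hu, lt_of_le_of_lt hee2 hu'⟩
  have hB1B : B1 * ε2 ≤ B * ε2 := by
    refine mul_le_mul_of_nonneg_right ?_ e20.le
    rw [hB]
    linarith
  refine ⟨t, ?_, ?_, ?_, ?_⟩
  · -- the centre
    refine (measure_mono ?_).trans (ht2.trans (ENNReal.ofReal_le_ofReal (by linarith)))
    rintro u ⟨hu, hu'⟩
    exact ⟨hu, by linarith⟩
  · -- unit speed
    obtain ⟨T1, a1, a2, a3⟩ := b_plane1 F s e _ (hU F)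
    refine (measure_mono (t := T1) ?_).trans (a2.trans (ENNReal.ofReal_le_ofReal ?_))
    · rintro ⟨u, b⟩ ⟨hu, hb, hn⟩
      simp only at hu hb hn
      by_contra hT
      apply hn
      refine (a3 u b ?_ hb hT).mono (by linarith) (by linarith)
      rw [mem_box] at hu ⊢
      exact ⟨by linarith [hu.1], by linarith [hu.2]⟩
    · have h1 : Real.exp 10 * ε2 ^ 4 ≤ Real.exp 10 * ε2 := mul_le_mul_of_nonneg_left e24 hA.le
      have h2 : Real.exp 10 * ε2 ≤ B * ε2 := by
        refine mul_le_mul_of_nonneg_right ?_ e20.le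
        rw [hB]
        linarith
      linarith
  · -- pairs
    intro L hL0 hL
    obtain ⟨T2, b1, b2, b3⟩ := b_plane2 F s e _ L (hPr L hL0 (by linarith))
    set N := {u : V | u ∈ box 8 ∧ e2 < rho (F.f (Real.exp s • u) o) t} with hN
    have c1 : volume (N ×ˢ (Icc (-8 : ℝ) 8 ×ˢ Icc (-8 : ℝ) 8)) ≤
        ENNReal.ofReal (B1 * ε2 * 256) := by
      rw [Measure.volume_eq_prod, Measure.prod_prod, Measure.volume_eq_prod, Measure.prod_prod,
        Real.volume_Icc, ENNReal.ofReal_mul (by positivity), ← ENNReal.ofReal_mul (by norm_num)]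
      have h3 : ((8 : ℝ) - -8) * (8 - -8) = 256 := by norm_num
      rw [h3]
      exact mul_le_mul' ht2 le_rfl
    refine (measure_mono (t := T2 ∪ N ×ˢ (Icc (-8 : ℝ) 8 ×ˢ Icc (-8 : ℝ) 8)) ?_).trans
      ((measure_union_le _ _).trans ((add_le_add b2 c1).trans ?_))
    · rintro ⟨u, b, b'⟩ ⟨hu, hb, hb', hn⟩
      simp only at hu hb hb' hn
      by_contra hT
      rw [Set.mem_union, not_or] at hT
      have hu40 : u ∈ box 40 := by
        rw [mem_box] at hu ⊢
        exact ⟨by linarith [hu.1], by linarith [hu.2]⟩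
      have h1 := b3 u b b' hu40 hb hb' hT.1
      have h2 : rho (F.f (Real.exp s • u) o) t ≤ e2 := by
        by_contra h5
        exact hT.2 ⟨⟨hu, not_le.1 h5⟩, hb, hb'⟩
      have h3 := gp_change_base (F.f (Real.exp s • u) (pt b L)) (F.f (Real.exp s • u) (pt b' L)) t
        (F.f (Real.exp s • u) o)
      rw [rho_comm t] at h3
      linarith
    · rw [← ENNReal.ofReal_add (by positivity) (by positivity)]
      refine ENNReal.ofReal_le_ofReal ?_
      have h1 : Real.exp 10 * ε2 ^ 4 ≤ Real.exp 10 * ε2 := mul_le_mul_of_nonneg_left e24 hA.le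
      have h2 : (Real.exp 10 + 256 * B1) * ε2 ≤ B * ε2 := by
        refine mul_le_mul_of_nonneg_right ?_ e20.le
        rw [hB]
        linarith
      linarith
  · -- vectors
    have hVm : ∀ u v : V, (¬ (Real.exp ((1 - ε) * s) ≤
        nm t (F.U (Real.exp s • u) o - F.U (Real.exp s • v) o) ∧
        nm t (F.U (Real.exp s • u) o - F.U (Real.exp s • v) o) ≤ Real.exp ((1 + ε) * s))) ↔
        ¬ VGood F s ε t u v := fun u v => Iff.rfl
    have hF := hhalf F s e e2 ε ε2 δ (B1 * ε2) D t e20 e21 d0 (by positivity) hDge hDle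
      (by linarith) (by linarith) hDlog (by linarith) k3 (by linarith) (hU F) ht2
    have hrot : ∀ u : V, (F.tr 0 rot).f (Real.exp s • u) o = F.f (Real.exp s • act rot u) o := by
      intro u
      rw [QM.tr_f, rot_smul_o, zero_add, act_smul]
    have hrotU : ∀ u : V, (F.tr 0 rot).U (Real.exp s • u) o = F.U (Real.exp s • act rot u) o := by
      intro u
      rw [QM.tr_U, rot_smul_o, zero_add, act_smul]
    have hact : ∀ u : V, act rot u ∈ box 8 ↔ u ∈ box 8 := by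
      intro u
      rw [act_rot, mem_box, mem_box, abs_neg]
      exact and_comm
    have ht3 : volume {u : V | u ∈ box 8 ∧ e2 < rho ((F.tr 0 rot).f (Real.exp s • u) o) t} ≤
        ENNReal.ofReal (B1 * ε2) := by
      have h1 := actV_le {u : V | u ∈ box 8 ∧ e2 < rho (F.f (Real.exp s • u) o) t} rot 0
      rw [← h1] at ht2
      refine (measure_mono ?_).trans ht2
      rintro u ⟨hu, hu'⟩
      rw [Set.mem_ofPred_eq, Set.mem_ofPred_eq, zero_add, hact]
      rw [hrot] at hu'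
      exact ⟨hu, hu'⟩
    have hF' := hhalf (F.tr 0 rot) s e e2 ε ε2 δ (B1 * ε2) D t e20 e21 d0 (by positivity) hDge hDle
      (by linarith) (by linarith) hDlog (by linarith) k3 (by linarith) (hU (F.tr 0 rot)) ht3
    -- measurable hull of the second half, turned back
    have hF2 : volume {p : V × V | p.1 ∈ box 8 ∧ p.2 ∈ box 8 ∧ δ ≤ |p.2.1 - p.1.1| ∧
        |p.2.2 - p.1.2| ≤ |p.2.1 - p.1.1| ∧ ¬ VGood F s ε t p.1 p.2} ≤
        ENNReal.ofReal (1024 * (Real.exp 10 * ε2 + 2 * (B1 * ε2))) := by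
      set S := {p : V × V | p.1 ∈ box 8 ∧ p.2 ∈ box 8 ∧ δ ≤ |p.2.1 - p.1.1| ∧
        |p.2.2 - p.1.2| ≤ |p.2.1 - p.1.1| ∧ ¬ VGood F s ε t p.1 p.2} with hS
      have hSm : MeasurableSet S := by
        have m1 : MeasurableSet {p : V × V | VGood F s ε t p.1 p.2} := by
          have := F.measSet (ι := Bool)
            (fun i => bif i then (fun p : V × V => Real.exp s • p.1)
              else (fun p : V × V => Real.exp s • p.2))
            (fun _ => fun _ => o)
            (by intro i; cases i <;> simp only [cond_true, cond_false] <;> fun_prop)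
            (by intro i; exact measurable_const)
            (fun z => Real.exp ((1 - ε) * s) ≤ nm t ((z true).1 - (z false).1) ∧
              nm t ((z true).1 - (z false).1) ≤ Real.exp ((1 + ε) * s))
          exact this
        refine MeasurableSet.inter ?_ (MeasurableSet.inter ?_ (MeasurableSet.inter ?_
          (MeasurableSet.inter ?_ m1.compl)))
        · exact measurable_fst (b_box_meas 8)
        · exact measurable_snd (b_box_meas 8)
        · exact measurableSet_le (f := fun _ : V × V => δ) (g := fun p : V × V => |p.2.1 - p.1.1|)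
            (by fun_prop) (by fun_prop)
        · exact measurableSet_le (f := fun p : V × V => |p.2.2 - p.1.2|)
            (g := fun p : V × V => |p.2.1 - p.1.1|) (by fun_prop) (by fun_prop)
      rw [← b_rot_pairs S hSm]
      refine (measure_mono ?_).trans hF'
      rintro ⟨u, v⟩ ⟨hu, hv, hd, hc, hn⟩
      simp only at hu hv hd hc hn
      rw [hact] at hu hv
      rw [act_rot, act_rot] at hd hc
      simp only at hd hc
      have h1 : |-v.2 - -u.2| = |v.2 - u.2| := by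
        rw [← abs_neg]
        congr 1
        ring
      rw [h1] at hd hc
      refine ⟨hu, hv, hd, hc, ?_⟩
      intro hg
      apply hn
      unfold VGood at hg ⊢
      simp only at hg
      rw [hrotU, hrotU] at hg
      exact hg
    have hdg := b_diag d0.le
    refine (measure_mono (t := ({p : V × V | p.1 ∈ box 8 ∧ p.2 ∈ box 8 ∧ δ ≤ |p.2.2 - p.1.2| ∧
        |p.2.1 - p.1.1| ≤ |p.2.2 - p.1.2| ∧ ¬ VGood F s ε t p.1 p.2} ∪
        {p : V × V | p.1 ∈ box 8 ∧ p.2 ∈ box 8 ∧ δ ≤ |p.2.1 - p.1.1| ∧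
        |p.2.2 - p.1.2| ≤ |p.2.1 - p.1.1| ∧ ¬ VGood F s ε t p.1 p.2}) ∪
        {p : V × V | p.1 ∈ box 8 ∧ |p.2.1 - p.1.1| ≤ δ ∧ |p.2.2 - p.1.2| ≤ δ}) ?_).trans
      ((measure_union_le _ _).trans ((add_le_add ((measure_union_le _ _).trans
        (add_le_add hF hF2)) hdg).trans ?_))
    · rintro ⟨u, v⟩ ⟨hu, hv, hn⟩
      simp only at hu hv hn
      rw [hVm] at hn
      by_cases h1 : |v.1 - u.1| ≤ |v.2 - u.2|
      · by_cases h2 : δ ≤ |v.2 - u.2|
        · exact Or.inl (Or.inl ⟨hu, hv, h2, h1, hn⟩)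
        · exact Or.inr ⟨hu, by linarith, by linarith⟩
      · by_cases h2 : δ ≤ |v.1 - u.1|
        · exact Or.inl (Or.inr ⟨hu, hv, h2, (not_le.1 h1).le, hn⟩)
        · exact Or.inr ⟨hu, by linarith, by linarith⟩
    · rw [← ENNReal.ofReal_add (by positivity) (by positivity),
        ← ENNReal.ofReal_add (by positivity) (by positivity)]
      refine ENNReal.ofReal_le_ofReal ?_
      have h1 : δ ^ 2 ≤ δ := by nlinarith
      have h2 : 1024 * (Real.exp 10 * ε2 + 2 * (B1 * ε2)) +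
          1024 * (Real.exp 10 * ε2 + 2 * (B1 * ε2)) = B * ε2 := by
        rw [hB]
        ring
      linarith

end Pool.Agent.FIB
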