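import Pool.Agent.FIB.DLoc

/-!
# Part D1

Averaging of the local step over all base points, and telescoping over the last `m` of the depths
`L / 2 ^ m, …, L / 2, L`; the first part, of depth `L / 2 ^ m`, is bounded trivially.
-/

set_option autoImplicit false

namespace Pool.Agent.FIB

open UpperHalfPlane MeasureTheory Set

variable {K : ℝ}

theorem D_avg {S : Set (ℝ × ℝ)} (hS : MeasurableSet S) {r ϱ η : ℝ} (hr : |r| ≤ 1) (hϱ : |ϱ| ≤ 1)
    (hη : 0 ≤ η)
    (h : ∀ α0 ∈ Icc (-3 : ℝ) 3, ∀ b0 ∈ Icc (-3 : ℝ) 3, volume {p : ℝ × ℝ | p.1 ∈ Icc (-2) 2 ∧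
      p.2 ∈ Icc (-1) 1 ∧ (α0 + r * p.1, b0 + ϱ * p.2) ∈ S} ≤ ENNReal.ofReal η) :
    volume {p : ℝ × ℝ | p.1 ∈ Icc (-1) 1 ∧ p.2 ∈ Icc (-2) 2 ∧ p ∈ S} ≤
      ENNReal.ofReal (5 * η) := by
  set A' : Set (ℝ × ℝ) := Icc (-3 : ℝ) 3 ×ˢ Icc (-3 : ℝ) 3 with hA'
  set D : Set (ℝ × ℝ) := Icc (-2 : ℝ) 2 ×ˢ Icc (-1 : ℝ) 1 with hD
  have hmA' : MeasurableSet A' := measurableSet_Icc.prod measurableSet_Icc
  have hmD : MeasurableSet D := measurableSet_Icc.prod measurableSet_Icc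
  set W : Set (ℝ × ℝ) := {p : ℝ × ℝ | p.1 ∈ Icc (-1) 1 ∧ p.2 ∈ Icc (-2) 2 ∧ p ∈ S} with hW
  set T : Set ((ℝ × ℝ) × (ℝ × ℝ)) := {z | z.1 ∈ A' ∧ (z.2 ∈ D ∧
    ((z.1.1 + r * z.2.1, z.1.2 + ϱ * z.2.2) : ℝ × ℝ) ∈ S)} with hT
  have hmT2 : MeasurableSet {z : (ℝ × ℝ) × (ℝ × ℝ) | z.2 ∈ D ∧
      ((z.1.1 + r * z.2.1, z.1.2 + ϱ * z.2.2) : ℝ × ℝ) ∈ S} := by
    have h1 : Measurable fun z : (ℝ × ℝ) × (ℝ × ℝ) =>
        ((z.1.1 + r * z.2.1, z.1.2 + ϱ * z.2.2) : ℝ × ℝ) := by fun_prop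
    exact (measurable_snd hmD).inter (h1 hS)
  have hmT : MeasurableSet T := (measurable_fst hmA').inter hmT2
  have hA'v : volume A' = ENNReal.ofReal 36 := by
    rw [hA', Measure.volume_eq_prod, Measure.prod_prod, Real.volume_Icc,
      ← ENNReal.ofReal_mul (by norm_num)]
    norm_num
  have hDv : volume D = ENNReal.ofReal 8 := by
    rw [hD, Measure.volume_eq_prod, Measure.prod_prod, Real.volume_Icc, Real.volume_Icc,
      ← ENNReal.ofReal_mul (by norm_num)]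
    norm_num
  have hup : volume T ≤ ENNReal.ofReal (36 * η) := by
    have h1 := fiber_le hmT2 hmA' (ε := η) (by
      rintro ⟨α0, b0⟩ ⟨h1, h2⟩
      refine le_trans (measure_mono ?_) (h α0 h1 b0 h2)
      rintro ⟨a, κ⟩ ⟨⟨h3, h4⟩, h5⟩
      exact ⟨h3, h4, h5⟩)
    rw [hA'v, ← ENNReal.ofReal_mul hη, mul_comm η] at h1
    exact h1
  have hlow : ENNReal.ofReal 8 * volume W ≤ volume T := by
    have h1 : volume T = ∫⁻ p : ℝ × ℝ, volume ((fun c : ℝ × ℝ => (c, p)) ⁻¹' T) := by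
      rw [Measure.volume_eq_prod, Measure.prod_apply_symm hmT]
    rw [h1]
    calc ENNReal.ofReal 8 * volume W = ∫⁻ _ in D, volume W := by
          rw [setLIntegral_const, hDv, mul_comm]
      _ ≤ ∫⁻ p in D, volume ((fun c : ℝ × ℝ => (c, p)) ⁻¹' T) := by
          refine setLIntegral_mono' hmD ?_
          rintro ⟨a, κ⟩ ⟨ha, hκ⟩
          have h2 : volume {c : ℝ × ℝ | ((r * a, ϱ * κ) : ℝ × ℝ) + c ∈ W} = volume W :=
            measure_preimage_add volume _ W
          rw [← h2]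
          refine measure_mono ?_
          rintro ⟨α0, b0⟩ ⟨h3, h4, h5⟩
          simp only [Prod.mk_add_mk] at h3 h4 h5
          have h6 : |r * a| ≤ 2 := by
            rw [abs_mul]
            have : |a| ≤ 2 := abs_le.2 ha
            nlinarith [abs_nonneg r, abs_nonneg a]
          have h7 : |ϱ * κ| ≤ 1 := by
            rw [abs_mul]
            have : |κ| ≤ 1 := abs_le.2 hκ
            nlinarith [abs_nonneg ϱ, abs_nonneg κ]
          rw [abs_le] at h6 h7
          refine ⟨⟨⟨?_, ?_⟩, ⟨?_, ?_⟩⟩, ⟨ha, hκ⟩, ?_⟩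
          · show -3 ≤ α0
            linarith [h3.1]
          · show α0 ≤ 3
            linarith [h3.2]
          · show -3 ≤ b0
            linarith [h4.1]
          · show b0 ≤ 3
            linarith [h4.2]
          · show ((α0 + r * a, b0 + ϱ * κ) : ℝ × ℝ) ∈ S
            rw [add_comm α0, add_comm b0]
            exact h5
      _ ≤ ∫⁻ p : ℝ × ℝ, volume ((fun c : ℝ × ℝ => (c, p)) ⁻¹' T) :=
          setLIntegral_le_lintegral _ _
  have h1 : volume W = ENNReal.ofReal (1 / 8) * (ENNReal.ofReal 8 * volume W) := by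
    rw [← mul_assoc, ← ENNReal.ofReal_mul (by norm_num)]
    norm_num
  rw [h1]
  refine (mul_le_mul' le_rfl (hlow.trans hup)).trans ?_
  rw [← ENNReal.ofReal_mul (by norm_num)]
  exact ENNReal.ofReal_le_ofReal (by linarith)

private lemma D_exp_abs {s : ℝ} (hs : 0 ≤ s) : |Real.exp (-2 * s)| ≤ 1 := by
  rw [abs_of_pos (Real.exp_pos _), Real.exp_le_one_iff]
  linarith

theorem D_step (hK : 1 ≤ K) (h : StL K) (ε : ℝ) (hε : 0 < ε) : ∃ h0 : ℝ, 0 < h0 ∧
    ∀ (F : QM K) (s : ℝ), h0 ≤ s →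
      (∀ q : ℍ, volume {p : ℝ × ℝ | p.1 ∈ Icc (-1) 1 ∧ p.2 ∈ Icc (-2) 2 ∧
        ε * s < gp q (F.f ((p.1, 0) : V) (pt p.2 (2 * s)))
          (F.f ((p.1, 0) : V) (pt p.2 s))} ≤ ENNReal.ofReal ε) ∧
      volume {p : ℝ × ℝ | p.1 ∈ Icc (-1) 1 ∧ p.2 ∈ Icc (-2) 2 ∧
        ε * s < |rho (F.f ((p.1, 0) : V) (pt p.2 s))
          (F.f ((p.1, 0) : V) (pt p.2 (2 * s))) - s|} ≤ ENNReal.ofReal ε := by
  obtain ⟨h0, hh0, H⟩ := D_loc hK h (ε / 5) (by positivity)
  refine ⟨h0, hh0, ?_⟩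
  intro F s hs
  have hspos : 0 < s := lt_of_lt_of_le hh0 hs
  have hε5 : 5 * (ε / 5) = ε := by ring
  have key : ∀ (α0 b0 a κ τ : ℝ), (F.tr ((α0, 0) : V) (fr b0 s)).f (Real.exp s • ((a, 0) : V))
      (pt κ τ) = F.f ((α0 + 1 * a, 0) : V) (pt (b0 + Real.exp (-2 * s) * κ) (s + τ)) := by
    intro α0 b0 a κ τ
    rw [QM.tr_f, fr_smul, act_fr]
    congr 2
    · ext
      · simp only [Prod.smul_fst, Prod.smul_snd, Prod.fst_add, smul_eq_mul]
        rw [← mul_assoc, ← Real.exp_add]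
        simp
      · simp
    · ring
  have hmw : Measurable fun p : ℝ × ℝ => ((p.1, 0) : V) := by fun_prop
  have hmx : ∀ c : ℝ, Measurable fun p : ℝ × ℝ => pt p.2 c := fun c =>
    measurable_pt' measurable_snd measurable_const
  constructor
  · intro q
    set S : Set (ℝ × ℝ) := {p : ℝ × ℝ | ε * s < gp q (F.f ((p.1, 0) : V) (pt p.2 (2 * s)))
          (F.f ((p.1, 0) : V) (pt p.2 s))} with hS
    have hmS : MeasurableSet S :=
      D_meas2 F hmw (hmx (2 * s)) hmw (hmx s) (fun y z => ε * s < gp q y z)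
    have h1 := D_avg hmS (r := 1) (ϱ := Real.exp (-2 * s)) (η := ε / 5) (by simp)
      (D_exp_abs hspos.le) (by positivity) ?_
    · rw [hε5] at h1
      exact h1
    intro α0 _ b0 _
    refine le_trans (measure_mono ?_) ((H (F.tr ((α0, 0) : V) (fr b0 s)) s hs).1 q)
    rintro ⟨a, κ⟩ ⟨ha, hκ, hg⟩
    refine ⟨ha, hκ, ?_⟩
    simp only at ha hκ ⊢
    rw [key, key, add_zero, ← two_mul]
    have hg' : ε * s < gp q (F.f ((α0 + 1 * a, 0) : V) (pt (b0 + Real.exp (-2 * s) * κ) (2 * s)))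
      (F.f ((α0 + 1 * a, 0) : V) (pt (b0 + Real.exp (-2 * s) * κ) s)) := hg
    refine lt_of_le_of_lt ?_ hg'
    nlinarith
  · set S : Set (ℝ × ℝ) := {p : ℝ × ℝ | ε * s < |rho (F.f ((p.1, 0) : V) (pt p.2 s))
          (F.f ((p.1, 0) : V) (pt p.2 (2 * s))) - s|} with hS
    have hmS : MeasurableSet S :=
      D_meas2 F hmw (hmx s) hmw (hmx (2 * s)) (fun y z => ε * s < |rho y z - s|)
    have h1 := D_avg hmS (r := 1) (ϱ := Real.exp (-2 * s)) (η := ε / 5) (by simp)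
      (D_exp_abs hspos.le) (by positivity) ?_
    · rw [hε5] at h1
      exact h1
    intro α0 _ b0 _
    refine le_trans (measure_mono ?_) ((H (F.tr ((α0, 0) : V) (fr b0 s)) s hs).2)
    rintro ⟨a, κ⟩ ⟨ha, hκ, hg⟩
    refine ⟨ha, hκ, ?_⟩
    simp only at ha hκ ⊢
    rw [key, key, add_zero, ← two_mul]
    have hg' : ε * s < |rho (F.f ((α0 + 1 * a, 0) : V) (pt (b0 + Real.exp (-2 * s) * κ) s))
      (F.f ((α0 + 1 * a, 0) : V) (pt (b0 + Real.exp (-2 * s) * κ) (2 * s))) - s| := hg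
    refine lt_of_le_of_lt ?_ hg'
    nlinarith

/-- The trivial bound near the base point. -/
theorem D_triv (hK : 1 ≤ K) (F : QM K) {α b j : ℝ} (hα : α ∈ Icc (-1 : ℝ) 1)
    (hb : b ∈ Icc (-2 : ℝ) 2) (hj : 0 ≤ j) :
    rho (F.f ((α, 0) : V) (pt b j)) (F.f 0 o) ≤ K * j + 5 * K := by
  have h0 : (0 : ℝ) ≤ K := by linarith
  have h1 := F.f_vert ((α, 0) : V) b j 0
  rw [sub_zero, abs_of_nonneg hj] at h1
  have h2 := F.f_hor h0 ((α, 0) : V) b 0 0
  have h3 : |b - 0| * Real.exp (2 * 0) / 2 ≤ 1 := by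
    have : |b| ≤ 2 := abs_le.2 hb
    rw [sub_zero, mul_zero, Real.exp_zero]
    linarith
  have h4 := mul_le_mul_of_nonneg_left h3 h0
  have h5 := F.f_near h0 ((α, 0) : V) 0 (pt 0 0) (by
    have : ((α, 0) : V) - 0 = α • e1 := by
      ext <;> simp [e1]
    rw [this, nm_pt_e1, Real.exp_zero, mul_one]
    exact abs_le.2 hα)
  have h6 := rho_triangle (F.f ((α, 0) : V) (pt b j)) (F.f ((α, 0) : V) (pt b 0)) (F.f 0 o)
  have h7 := rho_triangle (F.f ((α, 0) : V) (pt b 0)) (F.f ((α, 0) : V) (pt 0 0)) (F.f 0 o)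
  have h8 : rho (F.f ((α, 0) : V) (pt 0 0)) (F.f 0 o) ≤ 2 * K := h5
  linarith

private lemma D_union {m : ℕ} {η : ℝ} (_hη : 0 ≤ η) (B : ℕ → Set (ℝ × ℝ))
    (h : ∀ k, k < m → volume (B k) ≤ ENNReal.ofReal η) :
    volume (⋃ k ∈ Finset.range m, B k) ≤ ENNReal.ofReal (m * η) := by
  refine (measure_biUnion_finset_le _ _).trans ?_
  refine (Finset.sum_le_sum (fun k hk => h k (Finset.mem_range.1 hk))).trans (le_of_eq ?_)
  rw [Finset.sum_const, Finset.card_range, nsmul_eq_mul, ENNReal.ofReal_mul (by positivity),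
    ENNReal.ofReal_natCast]

theorem partD1 (K : ℝ) (hK : 1 ≤ K) (h : StL K) : StA K := by
  intro ε hε
  obtain ⟨m, hm⟩ : ∃ m : ℕ, (K + 1) * (4 / ε) ≤ 2 ^ m := by
    obtain ⟨m, hm⟩ := pow_unbounded_of_one_lt ((K + 1) * (4 / ε)) (one_lt_two : (1 : ℝ) < 2)
    exact ⟨m, hm.le⟩
  set ε' : ℝ := ε / (8 * (m + 1)) with hε'
  have hm0 : (0 : ℝ) < m + 1 := by positivity
  have hε'0 : 0 < ε' := by positivity
  have hε'm : ε' * (8 * (m + 1)) = ε := by
    rw [hε']
    field_simp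
  have hε'8 : 8 * ε' ≤ ε := by
    have : (0 : ℝ) ≤ m := Nat.cast_nonneg m
    nlinarith
  have hmε' : (m : ℝ) * ε' ≤ ε := by
    have : (0 : ℝ) ≤ m := Nat.cast_nonneg m
    nlinarith
  have hmε2 : (m : ℝ) * ε' + m * ε' ≤ ε := by
    have : (0 : ℝ) ≤ m := Nat.cast_nonneg m
    nlinarith
  obtain ⟨h0, hh0, H⟩ := D_step hK h ε' hε'0
  have h2m : (0 : ℝ) < 2 ^ m := by positivity
  refine ⟨(K + 1) * (2 ^ m * h0) + 10 * K, by positivity, ?_⟩
  intro F L hL
  by_cases hs : 2 ^ m * h0 ≤ L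
  · set s : ℕ → ℝ := fun k => L / 2 ^ m * 2 ^ k with hsdef
    have hsm : s m = L := by
      simp only [hsdef]
      field_simp
    have hsucc : ∀ k, s (k + 1) = 2 * s k := by
      intro k
      simp only [hsdef]
      ring
    have hLm : h0 ≤ L / 2 ^ m := by
      rw [le_div_iff₀ h2m]
      linarith
    have hs0 : ∀ k, h0 ≤ s k := by
      intro k
      have h1 : (1 : ℝ) ≤ 2 ^ k := one_le_pow₀ one_le_two
      have h2 : L / 2 ^ m * 1 ≤ L / 2 ^ m * 2 ^ k :=
        mul_le_mul_of_nonneg_left h1 (by linarith)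
      simp only [hsdef]
      linarith
    have hsumS : ∑ k ∈ Finset.range m, s k = L - L / 2 ^ m := by
      have h1 : ∀ k, s k = s (k + 1) - s k := by
        intro k
        rw [hsucc]
        ring
      rw [Finset.sum_congr rfl (fun k _ => h1 k), Finset.sum_range_sub, hsm]
      simp only [hsdef, pow_zero, mul_one]
    -- the first part
    have hfirst : ∀ α ∈ Icc (-1 : ℝ) 1, ∀ b ∈ Icc (-2 : ℝ) 2,
        rho (F.f ((α, 0) : V) (pt b (s 0))) (F.f 0 o) ≤ ε / 4 * L + 5 * K := by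
      intro α hα b hb
      have h1 := D_triv hK F hα hb (j := s 0) (by linarith [hs0 0])
      have h2 : K * s 0 ≤ ε / 4 * L := by
        simp only [hsdef, pow_zero, mul_one]
        have h3 : K ≤ ε / 4 * 2 ^ m := by
          have h4 : (K + 1) * (4 / ε) * (ε / 4) = K + 1 := by
            field_simp
          nlinarith
        have h4 : K * (L / 2 ^ m) ≤ ε / 4 * 2 ^ m * (L / 2 ^ m) :=
          mul_le_mul_of_nonneg_right h3 (by positivity)
        have h5 : ε / 4 * 2 ^ m * (L / 2 ^ m) = ε / 4 * L := by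
          field_simp
        linarith
      linarith
    have hLm4 : L / 2 ^ m ≤ ε / 4 * L := by
      have h3 : 1 ≤ ε / 4 * 2 ^ m := by
        have h4 : (K + 1) * (4 / ε) * (ε / 4) = K + 1 := by
          field_simp
        nlinarith
      have h4 : 1 * (L / 2 ^ m) ≤ ε / 4 * 2 ^ m * (L / 2 ^ m) :=
        mul_le_mul_of_nonneg_right h3 (by positivity)
      have h5 : ε / 4 * 2 ^ m * (L / 2 ^ m) = ε / 4 * L := by
        field_simp
      linarith
    have hsumle : ε' * ∑ k ∈ Finset.range m, s k ≤ ε / 8 * L := by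
      rw [hsumS]
      have h1 : 0 ≤ L / 2 ^ m := by positivity
      nlinarith
    -- the exceptional sets
    set G : ℍ → ℕ → Set (ℝ × ℝ) := fun q k => {p : ℝ × ℝ | p.1 ∈ Icc (-1) 1 ∧ p.2 ∈ Icc (-2) 2 ∧
        ε' * s k < gp q (F.f ((p.1, 0) : V) (pt p.2 (2 * s k)))
          (F.f ((p.1, 0) : V) (pt p.2 (s k)))} with hG
    set R : ℕ → Set (ℝ × ℝ) := fun k => {p : ℝ × ℝ | p.1 ∈ Icc (-1) 1 ∧ p.2 ∈ Icc (-2) 2 ∧
        ε' * s k < |rho (F.f ((p.1, 0) : V) (pt p.2 (s k)))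
          (F.f ((p.1, 0) : V) (pt p.2 (2 * s k))) - s k|} with hR
    have hGv : ∀ q, volume (⋃ k ∈ Finset.range m, G q k) ≤ ENNReal.ofReal (m * ε') := fun q =>
      D_union hε'0.le _ (fun k _ => (H F (s k) (hs0 k)).1 q)
    have hRv : volume (⋃ k ∈ Finset.range m, R k) ≤ ENNReal.ofReal (m * ε') :=
      D_union hε'0.le _ (fun k _ => (H F (s k) (hs0 k)).2)
    -- the sum of the Gromov products
    have hgsum : ∀ (q : ℍ) (α b : ℝ), α ∈ Icc (-1 : ℝ) 1 → b ∈ Icc (-2 : ℝ) 2 →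
        ((α, b) : ℝ × ℝ) ∉ (⋃ k ∈ Finset.range m, G q k) →
        ∑ k ∈ Finset.range m, gp q (F.f ((α, 0) : V) (pt b (s (k + 1))))
          (F.f ((α, 0) : V) (pt b (s k))) ≤ ε / 8 * L := by
      intro q α b hα hb hn
      refine le_trans ?_ hsumle
      rw [Finset.mul_sum]
      refine Finset.sum_le_sum (fun k hk => ?_)
      rw [hsucc]
      by_contra h1
      rw [not_le] at h1
      refine hn ?_
      simp only [mem_iUnion]
      exact ⟨k, hk, hα, hb, h1⟩
    constructor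
    · intro q
      refine le_trans (measure_mono ?_)
        ((hGv q).trans (ENNReal.ofReal_le_ofReal hmε'))
      rintro ⟨α, b⟩ ⟨hα, hb, hg⟩
      by_contra hn
      have h1 := hgsum q α b hα hb hn
      have h2 := tele_gp (fun k => F.f ((α, 0) : V) (pt b (s k))) m q
      have h3 := gp_change_base q (F.f ((α, 0) : V) (pt b (s m))) (F.f 0 o)
        (F.f ((α, 0) : V) (pt b (s 0)))
      have h4 := hfirst α hα b hb
      have h5 := rho_comm (F.f 0 o) (F.f ((α, 0) : V) (pt b (s 0)))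
      have h6 : gp q (F.f ((α, 0) : V) (pt b (s m))) (F.f ((α, 0) : V) (pt b (s 0))) ≤
        ∑ k ∈ Finset.range m, gp q (F.f ((α, 0) : V) (pt b (s (k + 1))))
          (F.f ((α, 0) : V) (pt b (s k))) := h2
      have h7 : ε * L + ((K + 1) * (2 ^ m * h0) + 10 * K) <
        gp q (F.f ((α, 0) : V) (pt b (s m))) (F.f 0 o) := by
        rw [hsm]
        exact hg
      have h8 : 0 ≤ (K + 1) * (2 ^ m * h0) := by positivity
      have h9 : 0 ≤ ε * L := by positivity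
      linarith
    · refine le_trans (measure_mono (?_ : _ ⊆ (⋃ k ∈ Finset.range m, G (F.f 0 o) k) ∪
        (⋃ k ∈ Finset.range m, R k))) ((measure_union_le _ _).trans
        ((add_le_add (hGv _) hRv).trans ?_))
      · rintro ⟨α, b⟩ ⟨hα, hb, hg⟩
        by_contra hn
        rw [mem_union, not_or] at hn
        have h1 := hgsum (F.f 0 o) α b hα hb hn.1
        have h1' : 0 ≤ ∑ k ∈ Finset.range m, gp (F.f 0 o) (F.f ((α, 0) : V) (pt b (s (k + 1))))
          (F.f ((α, 0) : V) (pt b (s k))) := Finset.sum_nonneg (fun k _ => gp_nonneg _ _ _)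
        have h2 : rho (F.f 0 o) (F.f ((α, 0) : V) (pt b (s m))) =
            rho (F.f 0 o) (F.f ((α, 0) : V) (pt b (s 0))) + ∑ k ∈ Finset.range m,
              rho (F.f ((α, 0) : V) (pt b (s k))) (F.f ((α, 0) : V) (pt b (s (k + 1)))) -
              2 * ∑ k ∈ Finset.range m, gp (F.f 0 o) (F.f ((α, 0) : V) (pt b (s (k + 1))))
                (F.f ((α, 0) : V) (pt b (s k))) :=
          tele_rho (fun k => F.f ((α, 0) : V) (pt b (s k))) m (F.f 0 o)
        have h3 : |∑ k ∈ Finset.range m,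
              rho (F.f ((α, 0) : V) (pt b (s k))) (F.f ((α, 0) : V) (pt b (s (k + 1)))) -
              ∑ k ∈ Finset.range m, s k| ≤ ε / 8 * L := by
          rw [← Finset.sum_sub_distrib]
          refine (Finset.abs_sum_le_sum_abs _ _).trans (le_trans ?_ hsumle)
          rw [Finset.mul_sum]
          refine Finset.sum_le_sum (fun k hk => ?_)
          rw [hsucc]
          by_contra h1
          rw [not_le] at h1
          refine hn.2 ?_
          simp only [mem_iUnion]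
          exact ⟨k, hk, hα, hb, h1⟩
        have h4 := hfirst α hα b hb
        have h5 := rho_comm (F.f 0 o) (F.f ((α, 0) : V) (pt b (s 0)))
        have h6 := rho_nonneg (F.f 0 o) (F.f ((α, 0) : V) (pt b (s 0)))
        have h7 : ε * L + ((K + 1) * (2 ^ m * h0) + 10 * K) <
          |rho (F.f ((α, 0) : V) (pt b (s m))) (F.f 0 o) - L| := by
          rw [hsm]
          exact hg
        rw [rho_comm, h2] at h7
        rw [hsumS, abs_le] at h3
        have h8 : 0 ≤ (K + 1) * (2 ^ m * h0) := by positivity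
        have h9 : 0 ≤ ε * L := by positivity
        have h10 : 0 ≤ L / 2 ^ m := by positivity
        rw [lt_abs] at h7
        rcases h7 with h7 | h7 <;> linarith
      · rw [← ENNReal.ofReal_add (by positivity) (by positivity)]
        exact ENNReal.ofReal_le_ofReal hmε2
  · rw [not_le] at hs
    have hb0 : ∀ α ∈ Icc (-1 : ℝ) 1, ∀ b ∈ Icc (-2 : ℝ) 2,
        rho (F.f ((α, 0) : V) (pt b L)) (F.f 0 o) ≤ K * L + 5 * K := fun α hα b hb =>
      D_triv hK F hα hb hL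
    have hKL : K * L ≤ K * (2 ^ m * h0) := mul_le_mul_of_nonneg_left hs.le (by linarith)
    have hεL : 0 ≤ ε * L := by positivity
    constructor
    · intro q
      have : {p : ℝ × ℝ | p.1 ∈ Icc (-1) 1 ∧ p.2 ∈ Icc (-2) 2 ∧
          ε * L + ((K + 1) * (2 ^ m * h0) + 10 * K) <
            gp q (F.f ((p.1, 0) : V) (pt p.2 L)) (F.f 0 o)} = ∅ := by
        rw [eq_empty_iff_forall_notMem]
        rintro ⟨α, b⟩ ⟨hα, hb, hg⟩
        simp only at hα hb hg
        have h1 := hb0 α hα b hb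
        have h2 := gp_le (F.f ((α, 0) : V) (pt b L)) q (F.f 0 o)
        rw [gp_comm] at h2
        have h3 := rho_comm (F.f 0 o) (F.f ((α, 0) : V) (pt b L))
        have h4 : 0 ≤ 2 ^ m * h0 := by positivity
        linarith
      rw [this, measure_empty]
      exact bot_le
    · have : {p : ℝ × ℝ | p.1 ∈ Icc (-1) 1 ∧ p.2 ∈ Icc (-2) 2 ∧
          ε * L + ((K + 1) * (2 ^ m * h0) + 10 * K) <
            |rho (F.f ((p.1, 0) : V) (pt p.2 L)) (F.f 0 o) - L|} = ∅ := by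
        rw [eq_empty_iff_forall_notMem]
        rintro ⟨α, b⟩ ⟨hα, hb, hg⟩
        simp only at hα hb hg
        have h1 := hb0 α hα b hb
        have h2 := rho_nonneg (F.f ((α, 0) : V) (pt b L)) (F.f 0 o)
        rw [lt_abs] at hg
        rcases hg with hg | hg <;> nlinarith
      rw [this, measure_empty]
      exact bot_le

end Pool.Agent.FIB
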