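import Pool.Agent.FIB.SCtr
import Pool.Agent.FIB.DLoc

/-!
# Part D2

The sheets `0` and `u` over `o`. Both are joined (typically) to the points `E1`, `E2` at depth `L`, in
the same direction, which are centres of planes of size `L` whose enlargements to size `L + ϱ + 2` overlap;
so `E1`, `E2` are at distance `≤ 2 K ϱ + …`, while the concatenation `E1, F.f 0 o, F.f u o, E2` would be
of length `≥ 2 L` if `F.f 0 o` and `F.f u o` were far from each other.
-/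

set_option autoImplicit false

namespace Pool.Agent.FIB

open UpperHalfPlane MeasureTheory Set
open scoped MatrixGroups

variable {K : ℝ}

/-- The sheets of a line through `v` in the frame `fr b L`. -/
theorem S_line_f (F : QM K) (v : V) (b L a : ℝ) :
    (F.tr v (fr b L)).f (Real.exp L • ((a, 0) : V)) o = F.f (v + ((a, 0) : V)) (pt b L) := by
  rw [QM.tr_f, act_fr, o, fr_smul]
  congr 2
  · ext
    · simp only [Prod.smul_fst, Prod.smul_snd, smul_eq_mul, mul_zero, add_zero]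
      rw [← mul_assoc, ← Real.exp_add]
      simp
    · simp
  · simp
  · simp

theorem S_frames {F : QM K} {u : V} {b L : ℝ} :
    ∀ w x, (F.tr u (fr b L)).f w x = (F.tr 0 (fr b L)).f
      (((Real.exp L * (u.1 - b * u.2), Real.exp (-L) * u.2) : V) + w) x := by
  intro w x
  rw [QM.tr_f, QM.tr_f, zero_add, act_add]
  congr 2
  rw [act_fr]
  ext
  · simp only
    have h1 : Real.exp (-L) * Real.exp L = 1 := by
      rw [← Real.exp_add]
      simp
    linear_combination (-(u.1 - b * u.2) - b * u.2) * h1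
  · simp only
    have h1 : Real.exp (-L) * Real.exp L = 1 := by
      rw [← Real.exp_add]
      simp
    linear_combination (-u.2) * h1

/-- The distance of the centres of the planes of size `L` around the sheets `0` and `u` over
`pt b L`. -/
theorem S_centres (_hK : 1 ≤ K) {ε s0 : ℝ} (hε0 : 0 < ε) (hε1 : ε ≤ 1)
    (H : ∀ (F : QM K) (s : ℝ), s0 ≤ s → ∃ t : ℍ, GCtr F s ε t) {F : QM K} {u : V} {b L ϱ : ℝ}
    (hL0 : 0 ≤ L) (hL : s0 ≤ L) (hb : b ∈ Icc (-2 : ℝ) 2) (hϱ : ϱ = Real.log (1 + nm o u))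
    {t1 t2 : ℍ} (h1 : GCtr (F.tr 0 (fr b L)) L ε t1) (h2 : GCtr (F.tr u (fr b L)) L ε t2) :
    rho t1 t2 ≤ 2 * K * ϱ + 8 * K + 10 * ε * (L + ϱ + 2) := by
  have hnm := nm_nonneg o u
  have hϱ0 : 0 ≤ ϱ := by
    rw [hϱ]
    exact Real.log_nonneg (by linarith)
  have hexp : 1 + nm o u = Real.exp ϱ := by
    rw [hϱ, Real.exp_log (by linarith)]
  set h : ℝ := (ϱ + 2) / 2 with hh
  have hh0 : 0 ≤ h := by
    rw [hh]
    linarith
  have h2h : L + 2 * h = L + ϱ + 2 := by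
    rw [hh]
    ring
  obtain ⟨t1', h1'⟩ := H (F.tr 0 (fr b L)) (L + 2 * h) (by linarith)
  obtain ⟨t2', h2'⟩ := H (F.tr u (fr b L)) (L + 2 * h) (by linarith)
  obtain ⟨t1'', h1''⟩ := H ((F.tr 0 (fr b L)).tr 0 (fr 0 (-h))) (L + h) (by linarith)
  obtain ⟨t2'', h2''⟩ := H ((F.tr u (fr b L)).tr 0 (fr 0 (-h))) (L + h) (by linarith)
  have g1 := S_grow hε1 hε0 hh0 h1 h1' h1''
  have g2 := S_grow hε1 hε0 hh0 h2 h2' h2''
  have he2 : (3 : ℝ) ≤ Real.exp 2 := by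
    have := Real.add_one_le_exp (2 : ℝ)
    linarith
  have g3 : rho t1' t2' ≤ 2 * ε * (L + 2 * h) := by
    refine S_shift hε1 (F := F.tr 0 (fr b L)) (F' := F.tr u (fr b L))
      (v := (Real.exp L * (u.1 - b * u.2), Real.exp (-L) * u.2)) ?_ ?_ S_frames h1'.1 h2'.1
    · simp only
      rw [abs_mul, abs_of_pos (Real.exp_pos _)]
      have e1 := abs_fst_le_nm_o u
      have e2 := abs_snd_le_nm_o u
      have e3 : |u.1 - b * u.2| ≤ |u.1| + |b| * |u.2| := by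
        rw [← abs_mul]
        exact abs_sub _ _
      have e4 : |b| ≤ 2 := abs_le.2 hb
      have e5 : |b| * |u.2| ≤ 2 * nm o u := by
        have := abs_nonneg u.2
        have := abs_nonneg b
        nlinarith
      have e6 : |u.1 - b * u.2| ≤ 3 * Real.exp ϱ := by
        rw [← hexp]
        linarith
      rw [h2h, Real.exp_add, Real.exp_add]
      have e7 := Real.exp_pos L
      have e8 := Real.exp_pos ϱ
      have e9 : 3 * Real.exp ϱ ≤ Real.exp ϱ * Real.exp 2 := by nlinarith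
      calc Real.exp L * |u.1 - b * u.2| ≤ Real.exp L * (Real.exp ϱ * Real.exp 2) :=
            mul_le_mul_of_nonneg_left (e6.trans e9) e7.le
        _ = Real.exp L * Real.exp ϱ * Real.exp 2 := by ring
    · simp only
      rw [abs_mul, abs_of_pos (Real.exp_pos _)]
      have e2 := abs_snd_le_nm_o u
      have e6 : |u.2| ≤ Real.exp ϱ := by
        rw [← hexp]
        linarith
      have e3 : Real.exp (-L) ≤ Real.exp L := Real.exp_le_exp.2 (by linarith)
      rw [h2h, Real.exp_add, Real.exp_add]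
      have e7 := Real.exp_pos L
      have e8 := Real.exp_pos ϱ
      have e9 : Real.exp ϱ ≤ Real.exp ϱ * Real.exp 2 := by nlinarith
      calc Real.exp (-L) * |u.2| ≤ Real.exp L * (Real.exp ϱ * Real.exp 2) :=
            mul_le_mul e3 (e6.trans e9) (abs_nonneg _) e7.le
        _ = Real.exp L * Real.exp ϱ * Real.exp 2 := by ring
  have k1 := rho_triangle t1 t1' t2
  have k2 := rho_triangle t1' t2' t2
  have k3 := rho_comm t2 t2'
  have k4 : 2 * K * h = K * (ϱ + 2) := by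
    rw [hh]
    ring
  have k5 : 4 * ε * (L + h) ≤ 4 * ε * (L + 2 * h) := by
    have : 0 ≤ ε * h := by positivity
    nlinarith
  rw [k4] at g1 g2
  have k6 : 10 * ε * (L + ϱ + 2) = 10 * ε * (L + 2 * h) := by rw [h2h]
  rw [k6]
  linarith

/-- A typical pair `(α, b)`. -/
theorem S_pick {W : Set (ℝ × ℝ)} (hW : MeasurableSet W) {η : ℝ} (hη1 : η < 1 / 4)
    (hWv : volume {p : ℝ × ℝ | p.1 ∈ Icc (-1) 1 ∧ p.2 ∈ Icc (-2) 2 ∧ p ∈ W} ≤
      ENNReal.ofReal (4 * η)) :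
    ∃ b ∈ Icc (-2 : ℝ) 2, ∀ B : Set ℝ, volume B ≤ ENNReal.ofReal (1 / 2) →
      ∃ α ∈ Icc (-1 : ℝ) 1, ((α, b) : ℝ × ℝ) ∉ W ∧ α ∉ B := by
  set T : Set (ℝ × ℝ) := {p : ℝ × ℝ | p.1 ∈ Icc (-1) 1 ∧ p.2 ∈ Icc (-2) 2 ∧ p ∈ W} with hT
  have hmT : MeasurableSet T :=
    (measurable_fst measurableSet_Icc).inter ((measurable_snd measurableSet_Icc).inter hW)
  have hex : ∃ b ∈ Icc (-2 : ℝ) 2, volume ((fun α : ℝ => (α, b)) ⁻¹' T) ≤ ENNReal.ofReal 1 := by
    by_contra hn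
    push Not at hn
    have h1 : volume T = ∫⁻ b : ℝ, volume ((fun α : ℝ => (α, b)) ⁻¹' T) := by
      rw [Measure.volume_eq_prod, Measure.prod_apply_symm hmT]
    have h2 : ENNReal.ofReal 4 ≤ volume T := by
      rw [h1]
      calc ENNReal.ofReal 4 = ∫⁻ _ in Icc (-2 : ℝ) 2, ENNReal.ofReal 1 := by
            rw [setLIntegral_const, Real.volume_Icc, ← ENNReal.ofReal_mul (by norm_num)]
            norm_num
        _ ≤ ∫⁻ b in Icc (-2 : ℝ) 2, volume ((fun α : ℝ => (α, b)) ⁻¹' T) :=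
            setLIntegral_mono' measurableSet_Icc (fun b hb => (hn b hb).le)
        _ ≤ ∫⁻ b : ℝ, volume ((fun α : ℝ => (α, b)) ⁻¹' T) := setLIntegral_le_lintegral _ _
    have h3 := h2.trans hWv
    rw [ENNReal.ofReal_le_ofReal_iff'] at h3
    rcases h3 with h3 | h3 <;> linarith
  obtain ⟨b, hb, hbv⟩ := hex
  refine ⟨b, hb, ?_⟩
  intro B hB
  have h1 : volume ((fun α : ℝ => (α, b)) ⁻¹' T ∪ B) < volume (Icc (-1 : ℝ) 1) := by
    refine lt_of_le_of_lt ((measure_union_le _ _).trans (add_le_add hbv hB)) ?_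
    rw [← ENNReal.ofReal_add (by norm_num) (by norm_num), Real.volume_Icc]
    exact (ENNReal.ofReal_lt_ofReal_iff (by norm_num)).2 (by norm_num)
  obtain ⟨α, hα, hn⟩ := S_exists h1
  rw [mem_union, not_or] at hn
  exact ⟨α, hα, fun hW' => hn.1 ⟨hα, hb, hW'⟩, hn.2⟩

/-- The case `x = o`, `w = 0`. -/
theorem S_base (hK : 1 ≤ K) (hL : StL K) (hA : StA K) (ε : ℝ) (hε : 0 < ε) :
    ∃ C : ℝ, 0 < C ∧ ∀ (F : QM K) (u : V),
      rho (F.f 0 o) (F.f u o) ≤ ε * Real.log (1 + nm o u) + C := by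
  set η : ℝ := min (ε / (8 * K)) (1 / 40) with hη
  have hη0 : 0 < η := lt_min (by positivity) (by norm_num)
  have hη1 : η ≤ 1 / 40 := min_le_right _ _
  have hηε : 8 * K * η ≤ ε := by
    have h1 : η ≤ ε / (8 * K) := min_le_left _ _
    rw [le_div_iff₀ (by positivity)] at h1
    linarith
  obtain ⟨CA, hCA, HA⟩ := hA η hη0
  obtain ⟨s0, hs0, HL⟩ := S_gctr hL η hη0
  set C1 : ℝ := CA + 2 + s0 with hC1
  refine ⟨8 * K * C1 + 2 * CA + 1, by positivity, ?_⟩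
  intro F u
  have hnm := nm_nonneg o u
  set ϱ : ℝ := Real.log (1 + nm o u) with hϱ
  have hϱ0 : 0 ≤ ϱ := Real.log_nonneg (by linarith)
  set L : ℝ := 4 * K * (ϱ + C1) with hLdef
  have hLs0 : s0 ≤ L := by
    rw [hLdef, hC1]
    nlinarith
  have hL0 : 0 ≤ L := by linarith
  obtain ⟨HA1, HA2⟩ := HA F L hL0
  obtain ⟨HA3, HA4⟩ := HA (F.tr u 1) L hL0
  have hFu : ∀ w x, (F.tr u 1).f w x = F.f (u + w) x := by
    intro w x
    rw [QM.tr_f, act_one, one_smul]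
  -- the exceptional set
  set e : ℝ := η * L + CA with he
  set W : Set (ℝ × ℝ) := {p : ℝ × ℝ | e < gp (F.f u o) (F.f ((p.1, 0) : V) (pt p.2 L)) (F.f 0 o) ∨
    e < |rho (F.f ((p.1, 0) : V) (pt p.2 L)) (F.f 0 o) - L| ∨
    e < gp (F.f 0 o) (F.f (u + ((p.1, 0) : V)) (pt p.2 L)) (F.f u o) ∨
    e < |rho (F.f (u + ((p.1, 0) : V)) (pt p.2 L)) (F.f u o) - L|} with hW
  have hmW : MeasurableSet W :=
    D_meas2 F (w := fun p : ℝ × ℝ => ((p.1, 0) : V)) (w' := fun p : ℝ × ℝ => u + ((p.1, 0) : V))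
      (x := fun p => pt p.2 L) (x' := fun p => pt p.2 L)
      (by fun_prop) (measurable_pt' measurable_snd measurable_const)
      (by fun_prop) (measurable_pt' measurable_snd measurable_const)
      (fun y z => e < gp (F.f u o) y (F.f 0 o) ∨ e < |rho y (F.f 0 o) - L| ∨
        e < gp (F.f 0 o) z (F.f u o) ∨ e < |rho z (F.f u o) - L|)
  have hu0 : F.f (u + 0) o = F.f u o := by rw [add_zero]
  have hWv : volume {p : ℝ × ℝ | p.1 ∈ Icc (-1) 1 ∧ p.2 ∈ Icc (-2) 2 ∧ p ∈ W} ≤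
      ENNReal.ofReal (4 * η) := by
    have h3 := HA3 (F.f 0 o)
    have h4 := HA4
    simp only [hFu, hu0] at h3 h4
    refine le_trans (measure_mono (?_ : _ ⊆ (({p : ℝ × ℝ | p.1 ∈ Icc (-1) 1 ∧ p.2 ∈ Icc (-2) 2 ∧
        e < gp (F.f u o) (F.f ((p.1, 0) : V) (pt p.2 L)) (F.f 0 o)} ∪
      {p : ℝ × ℝ | p.1 ∈ Icc (-1) 1 ∧ p.2 ∈ Icc (-2) 2 ∧
        e < |rho (F.f ((p.1, 0) : V) (pt p.2 L)) (F.f 0 o) - L|}) ∪
      {p : ℝ × ℝ | p.1 ∈ Icc (-1) 1 ∧ p.2 ∈ Icc (-2) 2 ∧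
        e < gp (F.f 0 o) (F.f (u + ((p.1, 0) : V)) (pt p.2 L)) (F.f u o)}) ∪
      {p : ℝ × ℝ | p.1 ∈ Icc (-1) 1 ∧ p.2 ∈ Icc (-2) 2 ∧
        e < |rho (F.f (u + ((p.1, 0) : V)) (pt p.2 L)) (F.f u o) - L|})) ?_
    · rintro p ⟨hp1, hp2, hp | hp | hp | hp⟩
      · exact Or.inl (Or.inl (Or.inl ⟨hp1, hp2, hp⟩))
      · exact Or.inl (Or.inl (Or.inr ⟨hp1, hp2, hp⟩))
      · exact Or.inl (Or.inr ⟨hp1, hp2, hp⟩)
      · exact Or.inr ⟨hp1, hp2, hp⟩
    · refine (measure_union_le _ _).trans (le_trans (add_le_add ((measure_union_le _ _).trans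
        (add_le_add ((measure_union_le _ _).trans (add_le_add (HA1 (F.f u o)) HA2)) h3)) h4) ?_)
      rw [← ENNReal.ofReal_add hη0.le hη0.le, ← ENNReal.ofReal_add (by positivity) hη0.le,
        ← ENNReal.ofReal_add (by positivity) hη0.le]
      exact ENNReal.ofReal_le_ofReal (by linarith)
  obtain ⟨b, hb, hpick⟩ := S_pick hmW (by linarith) hWv
  obtain ⟨t1, ht1⟩ := HL (F.tr 0 (fr b L)) L hLs0
  obtain ⟨t2, ht2⟩ := HL (F.tr u (fr b L)) L hLs0
  have hcent := S_centres hK hη0 (by linarith) HL hL0 hLs0 hb hϱ ht1 ht2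
  obtain ⟨α, hα, hαW, hαB⟩ := hpick
    ({a : ℝ | a ∈ Icc (-2) 2 ∧
      η * L < rho ((F.tr 0 (fr b L)).f (Real.exp L • ((a, 0) : V)) o) t1} ∪
     {a : ℝ | a ∈ Icc (-2) 2 ∧
      η * L < rho ((F.tr u (fr b L)).f (Real.exp L • ((a, 0) : V)) o) t2}) (by
    refine (measure_union_le _ _).trans ((add_le_add ht1.2.1 ht2.2.1).trans ?_)
    rw [← ENNReal.ofReal_add hη0.le hη0.le]
    exact ENNReal.ofReal_le_ofReal (by linarith))
  have hα2 : α ∈ Icc (-2 : ℝ) 2 := ⟨by linarith [hα.1], by linarith [hα.2]⟩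
  rw [mem_union, not_or] at hαB
  have k1 : rho (F.f ((α, 0) : V) (pt b L)) t1 ≤ η * L := by
    by_contra h1
    refine hαB.1 ⟨hα2, ?_⟩
    rw [S_line_f, zero_add]
    exact not_le.1 h1
  have k2 : rho (F.f (u + ((α, 0) : V)) (pt b L)) t2 ≤ η * L := by
    by_contra h1
    refine hαB.2 ⟨hα2, ?_⟩
    rw [S_line_f]
    exact not_le.1 h1
  have hαW' : ¬ (e < gp (F.f u o) (F.f ((α, 0) : V) (pt b L)) (F.f 0 o) ∨
    e < |rho (F.f ((α, 0) : V) (pt b L)) (F.f 0 o) - L| ∨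
    e < gp (F.f 0 o) (F.f (u + ((α, 0) : V)) (pt b L)) (F.f u o) ∨
    e < |rho (F.f (u + ((α, 0) : V)) (pt b L)) (F.f u o) - L|) := hαW
  simp only [not_or, not_lt] at hαW'
  obtain ⟨m1, m2, m3, m4⟩ := hαW'
  set E1 := F.f ((α, 0) : V) (pt b L) with hE1
  set E2 := F.f (u + ((α, 0) : V)) (pt b L) with hE2
  have k3 : rho E1 E2 ≤ 2 * (η * L) + (2 * K * ϱ + 8 * K + 10 * η * (L + ϱ + 2)) := by
    have h1 := rho_triangle E1 t1 E2
    have h2 := rho_triangle t1 t2 E2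
    have h3 := rho_comm t2 E2
    linarith
  by_contra hcon
  rw [not_le] at hcon
  have hηL : η * L = 4 * K * η * ϱ + 4 * K * η * C1 := by
    rw [hLdef]
    ring
  have hKη : 4 * K * η * C1 ≤ 4 * K * C1 := by
    have : 0 ≤ K * C1 := by positivity
    nlinarith
  have h2e : 2 * e + 1 < rho (F.f 0 o) (F.f u o) := by
    have h1 : 8 * K * η * ϱ ≤ ε * ϱ := mul_le_mul_of_nonneg_right hηε hϱ0
    rw [he, hηL]
    linarith
  have hc := concat3 (x := E1) (y := F.f 0 o) (z := F.f u o) (w := E2) (e := e)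
    (by rw [gp_comm]; exact m1) m3 h2e
  rw [abs_le] at m2 m4
  have m5 := rho_comm E2 (F.f u o)
  have e0 : 0 ≤ e := by
    rw [he]
    positivity
  have hfin : 2 * L ≤ 2 * (η * L) + (2 * K * ϱ + 8 * K + 10 * η * (L + ϱ + 2)) + 6 * e := by
    linarith [m2.1, m4.1]
  have f1 : η * L ≤ L / 40 := by nlinarith
  have f2 : η * (L + ϱ + 2) ≤ (L + ϱ + 2) / 40 := by nlinarith
  have f3 : e ≤ L / 40 + CA := by
    rw [he]
    linarith
  have f4 : L = 4 * K * ϱ + 4 * K * C1 := by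
    rw [hLdef]
    ring
  have f5 : CA + 2 ≤ C1 := by
    rw [hC1]
    linarith
  have f6 : K * (CA + 2) ≤ K * C1 := mul_le_mul_of_nonneg_left f5 (by linarith)
  have f7 : CA ≤ K * CA := by nlinarith
  have f8 : ϱ ≤ K * ϱ := by nlinarith
  nlinarith

theorem partD2 (K : ℝ) (hK : 1 ≤ K) (hL : StL K) (hA : StA K) : StS K := by
  intro ε hε
  obtain ⟨C, hC, H⟩ := S_base hK hL hA ε hε
  refine ⟨C, hC, ?_⟩
  intro F w w' x
  set g : SL(2, ℝ) := fr x.re (-(Real.log x.im) / 2) with hg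
  have hgo : g • o = x := by
    rw [hg, o, fr_smul]
    simp only [zero_mul, add_zero]
    exact pt_re_im x
  set u : V := act g⁻¹ (w' - w) with hu
  have hgu : act g u = w' - w := by
    rw [hu, ← act_mul, mul_inv_cancel, act_one]
  have h1 := H (F.tr w g) u
  rw [QM.tr_f, QM.tr_f, hgo, hgu, add_sub_cancel] at h1
  have h2 : act g 0 = 0 := by
    rw [act]
    ext <;> simp
  rw [h2, add_zero] at h1
  have h3 : nm o u = nm x (w - w') := by
    rw [← nm_act g o u, hgo, hgu, nm_sub_comm]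
  rw [h3] at h1
  exact h1

end Pool.Agent.FIB
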