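import Pool.Agent.FIB.FUp
import Pool.Agent.FIB.FOne
import Pool.Agent.FIB.FTwo
import Pool.Agent.FIB.FThree
import Pool.Agent.FIB.FLow
import Pool.Agent.FIB.FVer
import Pool.Agent.FIB.FMorse
import Pool.Agent.FIB.FTri

/-!
# Part D3: `StA K → StS K → StF K`
-/

set_option autoImplicit false

namespace Pool.Agent.FIB

open UpperHalfPlane MeasureTheory Set
open scoped MatrixGroups

private lemma PartD3_two {a a' b b' t : ℍ} {e : ℝ} (h : gp a b t ≤ e)
    (ha : e + 1 < rho t a - rho a a') (hb : e + 1 < rho t b - rho b b') :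
    gp a' b' t ≤ e + 1 := by
  have h1 : gp a' b t ≤ e + 1 / 2 := gp_stable h (by linarith)
  rw [gp_comm] at h1
  have h2 : gp b' a' t ≤ e + 1 / 2 + 1 / 2 := gp_stable h1 (by linarith)
  rw [gp_comm]
  linarith

private lemma PartD3_far {K : ℝ} {CS : ℝ} (F : QM K) (w w' : V)
    (hS : ∀ x : ℍ, rho (F.f w x) (F.f w' x) ≤ 1 / 4 * Real.log (1 + nm x (w - w')) + CS)
    (z : ℍ) (L : ℝ) (hz : rho o z ≤ L + 1) :
    rho (F.f w z) (F.f w' z) ≤ 1 / 4 * (L + 1 + Real.log (1 + nm o (w - w'))) + CS := by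
  have h0 := nm_nonneg o (w - w')
  have h0' := nm_nonneg z (w - w')
  have h1 := nm_le o z (w - w')
  have h2 : Real.exp (rho o z) ≤ Real.exp (L + 1) := Real.exp_le_exp.2 hz
  have h3 : 1 ≤ Real.exp (rho o z) := Real.one_le_exp (rho_nonneg o z)
  have h4 : 1 + nm z (w - w') ≤ Real.exp (L + 1) * (1 + nm o (w - w')) := by
    nlinarith
  have h5 : Real.log (1 + nm z (w - w')) ≤ L + 1 + Real.log (1 + nm o (w - w')) := by
    rw [← Real.log_exp (L + 1), ← Real.log_mul (Real.exp_pos _).ne' (by linarith)]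
    exact Real.log_le_log (by linarith) h4
  have h6 := hS z
  linarith

private lemma PartD3_core (K : ℝ) (hK : 1 ≤ K) (hS : StS K) (hV : FVert K) (hM : FMid K) :
    ∃ C : ℝ, ∀ (F : QM K) (w w' : V), rho (F.f w o) (F.f w' o) ≤ C := by
  obtain ⟨C, r, hC, hr, htri⟩ := f_tri K hK hV hM
  obtain ⟨CV, hCV, hV'⟩ := hV (1 / 4) (by norm_num)
  obtain ⟨CS, hCS, hS'⟩ := hS (1 / 4) (by norm_num)
  refine ⟨5 * (C + 1) + 1, ?_⟩
  intro F w w'
  obtain ⟨n, hn⟩ := exists_nat_ge (2 * (C + 1 + CV + 2 * K + CS + 1 / 4 *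
    (1 + Real.log (1 + nm o (w - w'))) + 1))
  have hr1 : (1 : ℝ) ≤ r := by exact_mod_cast hr
  have hn0 : (0 : ℝ) ≤ n := Nat.cast_nonneg n
  obtain ⟨L, hL⟩ : ∃ L : ℝ, L = (n : ℝ) * r := ⟨_, rfl⟩
  have hLn : (n : ℝ) ≤ L := by rw [hL]; nlinarith
  have hL0 : 0 ≤ L := by linarith
  obtain ⟨t1, t2, t3⟩ := htri F w n
  obtain ⟨s1, s2, s3⟩ := htri F w' n
  rw [← hL] at t1 t2 t3 s1 s2 s3
  have key : C + 1 < 3 / 4 * L - CV - 2 * K -
      (1 / 4 * (L + 1 + Real.log (1 + nm o (w - w'))) + CS) := by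
    linarith
  have ho : o = pt 0 0 := rfl
  have z1 : rho o (pt 0 (-L)) ≤ L + 1 := by
    rw [ho, rho_pt, zero_sub, neg_neg, abs_of_nonneg hL0]
    linarith
  have z2 : rho o (pt 0 L) ≤ L + 1 := by
    rw [ho, rho_pt, zero_sub, abs_neg, abs_of_nonneg hL0]
    linarith
  have z3 : rho o (pt 1 L) ≤ L + 1 := by
    have h1 := rho_triangle o (pt 1 0) (pt 1 L)
    have h2 := rho_pt_b 0 1 0
    rw [rho_pt, zero_sub, abs_neg, abs_of_nonneg hL0] at h1
    rw [mul_zero, Real.exp_zero, zero_sub, abs_neg, abs_one, ← ho] at h2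
    linarith
  have u1 := PartD3_far F w w' (fun x => hS' F w w' x) _ L z1
  have u2 := PartD3_far F w w' (fun x => hS' F w w' x) _ L z2
  have u3 := PartD3_far F w w' (fun x => hS' F w w' x) _ L z3
  have v1 : 3 / 4 * L - CV ≤ rho (F.f w o) (F.f w (pt 0 (-L))) := by
    have h := hV' F w 0 (-L) L hL0
    rw [neg_add_cancel, ← ho, rho_comm] at h
    linarith
  have v2 : 3 / 4 * L - CV ≤ rho (F.f w o) (F.f w (pt 0 L)) := by
    have h := hV' F w 0 0 L hL0
    rw [zero_add, ← ho] at h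
    linarith
  have v3 : 3 / 4 * L - CV - 2 * K ≤ rho (F.f w o) (F.f w (pt 1 L)) := by
    have h := hV' F w 1 0 L hL0
    rw [zero_add] at h
    have h1 := near_vert hK F w 1 0 0 (by norm_num)
    have h2 := rho_triangle (F.f w (pt 1 0)) (F.f w o) (F.f w (pt 1 L))
    rw [← ho] at h1
    linarith
  have k1 : gp (F.f w' (pt 0 (-L))) (F.f w' (pt 0 L)) (F.f w o) ≤ C + 1 :=
    PartD3_two t1 (by linarith) (by linarith)
  have k2 : gp (F.f w' (pt 0 (-L))) (F.f w' (pt 1 L)) (F.f w o) ≤ C + 1 :=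
    PartD3_two t2 (by linarith) (by linarith)
  have k3 : gp (F.f w' (pt 0 L)) (F.f w' (pt 1 L)) (F.f w o) ≤ C + 1 :=
    PartD3_two t3 (by linarith) (by linarith)
  exact center_unique k1 k3 k2 (by linarith) (by linarith) (by linarith)

theorem partD3 (K : ℝ) (hK : 1 ≤ K) (hA : StA K) (hS : StS K) : StF K := by
  have h1 := f_one K hK hA hS
  have h2 := f_two K hK h1
  have hT := f_three K hK h1 h2
  have hU := f_ub K hK hS
  have hL := f_low K hK hS hT
  have hV := f_ver K hK hS hU hL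
  have hM := f_mid K hK hV
  obtain ⟨C, hC⟩ := PartD3_core K hK hS hV hM
  refine ⟨C, ?_⟩
  intro F w w' x
  obtain ⟨b, j, rfl⟩ : ∃ b j : ℝ, x = pt b j := ⟨_, _, (pt_re_im x).symm⟩
  have ho : fr b j • o = pt b j := by
    have h := fr_smul b j 0 0
    rw [zero_mul, add_zero, add_zero] at h
    exact h
  have hw : ∀ u : V, 0 + act (fr b j) (act (fr b j)⁻¹ u) = u := by
    intro u
    rw [← act_mul, mul_inv_cancel, act_one, zero_add]
  have h := hC (F.tr 0 (fr b j)) (act (fr b j)⁻¹ w) (act (fr b j)⁻¹ w')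
  rw [QM.tr_f, QM.tr_f, hw, hw, ho] at h
  exact h

end Pool.Agent.FIB
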