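import Pool.Agent.FIB.AAsm
import Pool.Agent.FIB.BNat
import Pool.Agent.FIB.BEnl
import Pool.Agent.FIB.PartBz
import Pool.Agent.FIB.PMain
import Pool.Agent.FIB.LTwo
import Pool.Agent.FIB.PartD1
import Pool.Agent.FIB.PartD2
import Pool.Agent.FIB.PartD3

/-!
# Quasi-isometric embeddings of `ℝ² ⋊ SL₂(ℝ)` into itself coarsely preserve the fibres

`stF`: for every `K ≥ 1` there is `C` such that for every measurable `K`-quasi-isometric embedding `F` of `X = V × ℍ` and all `w, w', x` the
points `F.f w x`, `F.f w' x` are at distance at most `C`.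
-/

set_option autoImplicit false

namespace Pool.Agent.FIB

theorem stF (K : ℝ) (hK : 1 ≤ K) : StF K := by
  have hT := partA K hK
  have hB := partB_of_StB0 K hK (b_enl K hK (b_nat K hK hT))
  have hP := partC1 K hK hB
  have hL := partC2 K hK hB hP
  have hA := partD1 K hK hL
  have hS := partD2 K hK hL hA
  exact partD3 K hK hA hS

end Pool.Agent.FIB
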