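import Pool.Agent.FIB.Tree

/-!
# Part C1, the geometric core  (proved)

Keep the statement exactly; extra lemmas `private`.

PROOF of `c1_core` (all logarithms avoided: compare exponentials by `Real.exp_le_exp`, absorb the
constants `4 ≤ e^{2e}`, `8 ≤ e^{3e}`, `e ≥ 1`).  Let `θ = rho t t'`, `κ0 = 20 e`.
1. `rho z q ≥ rho t' z + κ0 - 5e`.  First `rho q g' ≤ rho q z' + rho z' g' ≤ s + σ - κ0 + 2e` (`d2`, `c2'`).
   `gp_min z g' g t'`-style: `min (gp z g' t') (gp g' g t') `.. precisely: `min (gp g z t') (gp z g' t') ≤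
   gp g g' t' + 1/2 ≤ e + 1/2` and `gp z g t' = (rho t' z + rho t' g - rho z g)/2 ≥ s/2 - 3e/2 > e + 1/2`, so
   `gp z g' t' ≤ e + 1/2`.  Then `min (gp z q t') (gp q g' t') ≤ gp z g' t' + 1/2 ≤ e + 1` and
   `gp q g' t' = (rho t' q + rho t' g' - rho q g')/2 ≥ κ0 - 2e > e + 1`, so `gp z q t' ≤ e + 1 ≤ 2e`, and
   `rho z q = rho t' z + rho t' q - 2 gp z q t' ≥ rho t' z + κ0 - e - 4e`.
2. (II) `e^{κ0 - 5e} nm t' X ≤ 4 nm q X`.  `four_vec_or z t' q X`.  The second alternative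
   `e^{rho z q} nm t' X ≤ 4 e^{rho t' q} nm z X` gives, with `v5`, `v7`, `c1`, `d1` and 1,
   `e^{s/2 - e + κ0 - 5e + s + σ - e} ≤ 4 e^{κ0 + e + s/2 + 2Kσ + e}`, i.e. `s + σ ≤ 2Kσ + 9e + log 4`, excluded by
   `hKσ`, `hes`.  The first alternative is the claim (`rho z q ≥ rho z t' + κ0 - 5e`).
3. (I) `nm q X' ≤ 4 e^{-κ0 + 2e} nm t' X'`.  `four_vec_or t' q z' X'`.  First alternative:
   `e^{rho t' z'} nm q X' ≤ 4 e^{rho t' q} nm z' X'`, so `nm q X' ≤ 4 e^{κ0 + 2Kσ + 3e}`, while `nm_le q t' X'`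
   gives `nm q X' ≥ e^{-(κ0 + e)} e^{s + σ - e}`: excluded.  The second alternative is the claim
   (`rho q z' - rho t' z' ≤ -κ0 + 2e`).
4. `E = X - X'`: `nm t' E ≤ e^{θ + s + e}` (`nm_le t t'`), `nm q E ≤ e^{κ0 + e} e^{θ + s + e}` (`nm_le t' q`).
5. CLAIM `θ ≥ σ - 12e`.  Suppose `θ < σ - 12e`.  Then `nm t' E ≤ e^{s + σ - 11e} ≤ nm t' X =: N`, so
   `nm t' X' ≤ 2N` (`X' = X - E`).  `nm q X ≤ nm q X' + nm q E` gives
   `e^{15e} N / 4 ≤ 8 e^{-18e} N + e^{θ + s + 22e}`, hence (as `8 e^{-18e} ≤ e^{15e}/8`)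
   `N ≤ 8 e^{θ + s + 7e}`, and `N ≥ e^{s + σ - e}` gives `σ ≤ θ + 8e + log 8 < θ + 12e`.  Contradiction.
6. `rho t g ≥ θ + s + σ - 3e` (definition of `gp t g t'`, `b1`, `c3`);
   `rho p g ≤ rho t g - σ + 5e` (`a1`, `a2`).  `fourpt p t t' g`:
   `rho p t' + rho t g ≤ max (rho p t + rho t' g) (rho t t' + rho p g) + 1`; the first case gives
   `rho p t' ≤ σ - θ + 5e + 1 ≤ 18e`, the second `rho p t' ≤ θ - σ + 6e`; in both cases
   `rho p t' ≤ θ - σ + 30e` (by 5).  The same for `p'` (with `g'`).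
7. `fourpt p t p' t'`: `rho p p' + rho t t' ≤ max (rho p t + rho p' t') (rho t p' + rho p t') + 1 ≤
   σ + e + θ - σ + 30e + 1`, so `rho p p' ≤ 32e`.
-/

set_option autoImplicit false

namespace Pool.Agent.FIB

open UpperHalfPlane

private theorem two_le_exp {e : ℝ} (he : 1 ≤ e) : 2 ≤ Real.exp e := by
  have := Real.add_one_le_exp e
  linarith

private theorem four_le_exp {e : ℝ} (he : 1 ≤ e) : 4 ≤ Real.exp (2 * e) := by
  have h := two_le_exp he
  have h1 : Real.exp (2 * e) = Real.exp e * Real.exp e := by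
    rw [← Real.exp_add]
    congr 1
    ring
  rw [h1]
  nlinarith

private theorem eight_le_exp {e : ℝ} (he : 1 ≤ e) : 8 ≤ Real.exp (3 * e) := by
  have h := two_le_exp he
  have h2 := four_le_exp he
  have h1 : Real.exp (3 * e) = Real.exp (2 * e) * Real.exp e := by
    rw [← Real.exp_add]
    congr 1
    ring
  rw [h1]
  nlinarith

/-- step 1 -/
private theorem core_rho {t' g g' z z' q : ℍ} {s σ e : ℝ} (he : 1 ≤ e)
    (hes : 1000 * e ≤ s) (b2 : gp g g' t' ≤ e)
    (c1 : |rho t' z - s / 2| ≤ e)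
    (c2 : rho z g ≤ s / 2 + σ + e) (c2' : rho z' g' ≤ s / 2 + σ + e)
    (c3 : |rho t' g - (s + σ)| ≤ e) (c3' : |rho t' g' - (s + σ)| ≤ e)
    (d1 : |rho t' q - 20 * e| ≤ e) (d2 : rho q z' ≤ s / 2 - 20 * e + e) :
    rho t' z + 15 * e ≤ rho z q := by
  have c1l := (abs_le.1 c1).1
  have c3l := (abs_le.1 c3).1
  have c3l' := (abs_le.1 c3').1
  have d1l := (abs_le.1 d1).1
  have m1 := gp_min g z g' t'
  have m2 := gp_min z q g' t'
  have e1 : gp g z t' = (rho t' g + rho t' z - rho g z) / 2 := rfl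
  have e2 : gp q g' t' = (rho t' q + rho t' g' - rho q g') / 2 := rfl
  have e3 : gp z q t' = (rho t' z + rho t' q - rho z q) / 2 := rfl
  have t1 := rho_triangle q z' g'
  rw [rho_comm g z] at e1
  have n1 : gp z g' t' ≤ e + 1 / 2 := by
    rcases min_le_iff.1 m1 with h | h
    · linarith
    · linarith
  have n2 : gp z q t' ≤ e + 1 := by
    rcases min_le_iff.1 m2 with h | h
    · linarith
    · linarith
  linarith

/-- step 2 -/
private theorem core_II {t' z q : ℍ} {X : V} {s σ e K : ℝ} (he : 1 ≤ e)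
    (hes : 1000 * e ≤ s) (hσ : 0 ≤ σ) (hKσ : 2 * K * σ ≤ s / 4)
    (c1 : |rho t' z - s / 2| ≤ e) (d1 : |rho t' q - 20 * e| ≤ e)
    (h1 : rho t' z + 15 * e ≤ rho z q)
    (v5 : Real.exp (s + σ - e) ≤ nm t' X)
    (v7 : nm z X ≤ Real.exp (s / 2 + 2 * K * σ + e)) :
    Real.exp (15 * e) * nm t' X ≤ 4 * nm q X := by
  have c1l := (abs_le.1 c1).1
  have d1u := (abs_le.1 d1).2
  rcases four_vec_or z t' q X with h | h
  · have p0 := Real.exp_pos (rho z t')
    have p1 : Real.exp (rho z t') * Real.exp (15 * e) ≤ Real.exp (rho z q) := by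
      rw [← Real.exp_add]
      refine Real.exp_le_exp.2 ?_
      rw [rho_comm z t']
      linarith
    have p2 := mul_le_mul_of_nonneg_right p1 (nm_nonneg t' X)
    have p3 : Real.exp (rho z t') * (Real.exp (15 * e) * nm t' X) ≤
        Real.exp (rho z t') * (4 * nm q X) := by
      calc Real.exp (rho z t') * (Real.exp (15 * e) * nm t' X)
          = Real.exp (rho z t') * Real.exp (15 * e) * nm t' X := by ring
        _ ≤ Real.exp (rho z q) * nm t' X := p2
        _ ≤ 4 * (Real.exp (rho z t') * nm q X) := h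
        _ = Real.exp (rho z t') * (4 * nm q X) := by ring
    exact le_of_mul_le_mul_left p3 p0
  · exfalso
    have p1 : Real.exp (3 * s / 2 + σ + 13 * e) ≤ Real.exp (rho z q) * nm t' X := by
      have : Real.exp (3 * s / 2 + σ + 13 * e) =
          Real.exp (s / 2 + 14 * e) * Real.exp (s + σ - e) := by
        rw [← Real.exp_add]
        congr 1
        ring
      rw [this]
      refine mul_le_mul (Real.exp_le_exp.2 (by linarith)) v5 (Real.exp_pos _).le
        (Real.exp_pos _).le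
    have p2 : 4 * (Real.exp (rho t' q) * nm z X) ≤ Real.exp (s / 2 + 2 * K * σ + 24 * e) := by
      have : Real.exp (s / 2 + 2 * K * σ + 24 * e) =
          Real.exp (2 * e) * (Real.exp (21 * e) * Real.exp (s / 2 + 2 * K * σ + e)) := by
        rw [← Real.exp_add, ← Real.exp_add]
        congr 1
        ring
      rw [this]
      refine mul_le_mul (four_le_exp he) ?_ (mul_nonneg (Real.exp_pos _).le (nm_nonneg _ _))
        (Real.exp_pos _).le
      exact mul_le_mul (Real.exp_le_exp.2 (by linarith)) v7 (nm_nonneg _ _) (Real.exp_pos _).le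
    have p3 := Real.exp_le_exp.1 (p1.trans (h.trans p2))
    linarith

/-- step 3 -/
private theorem core_I {t' z' q : ℍ} {X' : V} {s σ e K : ℝ} (he : 1 ≤ e)
    (hes : 1000 * e ≤ s) (hσ : 0 ≤ σ) (hKσ : 2 * K * σ ≤ s / 4)
    (c1' : |rho t' z' - s / 2| ≤ e) (d1 : |rho t' q - 20 * e| ≤ e)
    (d2 : rho q z' ≤ s / 2 - 20 * e + e)
    (v5' : Real.exp (s + σ - e) ≤ nm t' X')
    (v7' : nm z' X' ≤ Real.exp (s / 2 + 2 * K * σ + e)) :
    nm q X' ≤ 4 * (Real.exp (-(18 * e)) * nm t' X') := by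
  have c1l := (abs_le.1 c1').1
  have d1u := (abs_le.1 d1).2
  have hb : Real.exp (s / 2 - e) * nm q X' ≤ Real.exp (rho t' z') * nm q X' :=
    mul_le_mul_of_nonneg_right (Real.exp_le_exp.2 (by linarith)) (nm_nonneg _ _)
  rcases four_vec_or t' q z' X' with h | h
  · exfalso
    have p2 : 4 * (Real.exp (rho t' q) * nm z' X') ≤ Real.exp (s / 2 + 2 * K * σ + 24 * e) := by
      have : Real.exp (s / 2 + 2 * K * σ + 24 * e) =
          Real.exp (2 * e) * (Real.exp (21 * e) * Real.exp (s / 2 + 2 * K * σ + e)) := by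
        rw [← Real.exp_add, ← Real.exp_add]
        congr 1
        ring
      rw [this]
      refine mul_le_mul (four_le_exp he) ?_ (mul_nonneg (Real.exp_pos _).le (nm_nonneg _ _))
        (Real.exp_pos _).le
      exact mul_le_mul (Real.exp_le_exp.2 (by linarith)) v7' (nm_nonneg _ _) (Real.exp_pos _).le
    have p3 : nm q X' ≤ Real.exp (2 * K * σ + 25 * e) := by
      have p4 : Real.exp (s / 2 - e) * nm q X' ≤
          Real.exp (s / 2 - e) * Real.exp (2 * K * σ + 25 * e) := by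
        have : Real.exp (s / 2 - e) * Real.exp (2 * K * σ + 25 * e) =
            Real.exp (s / 2 + 2 * K * σ + 24 * e) := by
          rw [← Real.exp_add]
          congr 1
          ring
        rw [this]
        exact hb.trans (h.trans p2)
      exact le_of_mul_le_mul_left p4 (Real.exp_pos _)
    have p5 := nm_le q t' X'
    rw [rho_comm q t'] at p5
    have p6 : Real.exp (rho t' q) * nm q X' ≤ Real.exp (2 * K * σ + 46 * e) := by
      have : Real.exp (2 * K * σ + 46 * e) =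
          Real.exp (21 * e) * Real.exp (2 * K * σ + 25 * e) := by
        rw [← Real.exp_add]
        congr 1
        ring
      rw [this]
      exact mul_le_mul (Real.exp_le_exp.2 (by linarith)) p3 (nm_nonneg _ _) (Real.exp_pos _).le
    have p7 := Real.exp_le_exp.1 (v5'.trans (p5.trans p6))
    linarith
  · have p1 : Real.exp (rho q z') ≤ Real.exp (s / 2 - e) * Real.exp (-(18 * e)) := by
      rw [← Real.exp_add]
      exact Real.exp_le_exp.2 (by linarith)
    have p2 := mul_le_mul_of_nonneg_right p1 (nm_nonneg t' X')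
    have p3 : Real.exp (s / 2 - e) * nm q X' ≤
        Real.exp (s / 2 - e) * (4 * (Real.exp (-(18 * e)) * nm t' X')) := by
      calc Real.exp (s / 2 - e) * nm q X' ≤ Real.exp (rho t' z') * nm q X' := hb
        _ ≤ 4 * (Real.exp (rho q z') * nm t' X') := h
        _ ≤ 4 * (Real.exp (s / 2 - e) * Real.exp (-(18 * e)) * nm t' X') := by linarith
        _ = Real.exp (s / 2 - e) * (4 * (Real.exp (-(18 * e)) * nm t' X')) := by ring
    exact le_of_mul_le_mul_left p3 (Real.exp_pos _)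

/-- step 5 -/
private theorem core_theta {t t' q : ℍ} {X X' : V} {s σ e : ℝ} (he : 1 ≤ e)
    (d1 : |rho t' q - 20 * e| ≤ e)
    (v5 : Real.exp (s + σ - e) ≤ nm t' X)
    (v6 : nm t (X - X') ≤ Real.exp (s + e))
    (hII : Real.exp (15 * e) * nm t' X ≤ 4 * nm q X)
    (hI : nm q X' ≤ 4 * (Real.exp (-(18 * e)) * nm t' X')) :
    σ - 12 * e ≤ rho t t' := by
  by_contra hcon
  rw [not_le] at hcon
  have d1u := (abs_le.1 d1).2
  have q1 : nm t' (X - X') ≤ Real.exp (rho t t' + s + e) := by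
    have h := nm_le t t' (X - X')
    have : Real.exp (rho t t' + s + e) = Real.exp (rho t t') * Real.exp (s + e) := by
      rw [← Real.exp_add]
      congr 1
      ring
    rw [this]
    exact h.trans (mul_le_mul_of_nonneg_left v6 (Real.exp_pos _).le)
  have q2 : nm q (X - X') ≤ Real.exp (rho t t' + s + 22 * e) := by
    have h := nm_le t' q (X - X')
    have : Real.exp (rho t t' + s + 22 * e) =
        Real.exp (21 * e) * Real.exp (rho t t' + s + e) := by
      rw [← Real.exp_add]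
      congr 1
      ring
    rw [this]
    exact h.trans (mul_le_mul (Real.exp_le_exp.2 (by linarith)) q1 (nm_nonneg _ _)
      (Real.exp_pos _).le)
  have q3 : nm t' (X - X') ≤ nm t' X :=
    q1.trans ((Real.exp_le_exp.2 (by linarith)).trans v5)
  have q4 : nm t' X' ≤ 2 * nm t' X := by
    have h := nm_sub_le t' X (X - X')
    rw [sub_sub_cancel] at h
    linarith
  have q5 : nm q X ≤ nm q X' + nm q (X - X') := by
    have h := nm_add_le q X' (X - X')
    rwa [add_sub_cancel] at h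
  have hN := nm_nonneg t' X
  have f1 : Real.exp (-(18 * e)) ≤ 1 / 8 := by
    have h := eight_le_exp he
    have h1 : Real.exp (3 * e) ≤ Real.exp (18 * e) := Real.exp_le_exp.2 (by linarith)
    rw [Real.exp_neg]
    rw [show (1 : ℝ) / 8 = 8⁻¹ by norm_num]
    exact inv_anti₀ (by norm_num) (h.trans h1)
  have f2 : 8 ≤ Real.exp (15 * e) :=
    (eight_le_exp he).trans (Real.exp_le_exp.2 (by linarith))
  have q6 : nm q X' ≤ nm t' X := by
    have g1 : Real.exp (-(18 * e)) * nm t' X' ≤ 1 / 8 * nm t' X' :=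
      mul_le_mul_of_nonneg_right f1 (nm_nonneg _ _)
    linarith
  -- `exp (15 e) N / 4 ≤ N + exp (..)`, `N ≤ exp (15 e) N / 8`
  have q7 : 8 * nm t' X ≤ Real.exp (15 * e) * nm t' X :=
    mul_le_mul_of_nonneg_right f2 hN
  have q8 : Real.exp (15 * e) * nm t' X ≤ 8 * Real.exp (rho t t' + s + 22 * e) := by
    linarith
  have q9 : Real.exp (15 * e) * nm t' X ≤ Real.exp (rho t t' + s + 25 * e) := by
    have : Real.exp (rho t t' + s + 25 * e) =
        Real.exp (3 * e) * Real.exp (rho t t' + s + 22 * e) := by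
      rw [← Real.exp_add]
      congr 1
      ring
    rw [this]
    exact q8.trans (mul_le_mul_of_nonneg_right (eight_le_exp he) (Real.exp_pos _).le)
  have q10 : Real.exp (15 * e) * Real.exp (s + σ - e) ≤ Real.exp (rho t t' + s + 25 * e) :=
    (mul_le_mul_of_nonneg_left v5 (Real.exp_pos _).le).trans q9
  rw [← Real.exp_add] at q10
  have q11 := Real.exp_le_exp.1 q10
  linarith

/-- step 6 -/
private theorem core_pt {t t' p g : ℍ} {s σ e : ℝ} (he : 1 ≤ e)
    (a1 : |rho t p - σ| ≤ e) (a2 : gp t g p ≤ 2 * e) (b1 : gp t g t' ≤ e)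
    (c3 : |rho t' g - (s + σ)| ≤ e) (hθ : σ - 12 * e ≤ rho t t') :
    rho p t' ≤ rho t t' - σ + 30 * e := by
  have a1l := (abs_le.1 a1).1
  have a1u := (abs_le.1 a1).2
  have c3l := (abs_le.1 c3).1
  have c3u := (abs_le.1 c3).2
  have e1 : gp t g p = (rho p t + rho p g - rho t g) / 2 := rfl
  have e2 : gp t g t' = (rho t' t + rho t' g - rho t g) / 2 := rfl
  have r1 := rho_comm p t
  have r2 := rho_comm t' t
  rcases le_max_iff.1 (sub_le_iff_le_add.2 (fourpt p t t' g)) with h | h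
  · linarith
  · linarith

theorem c1_core {t t' p p' g g' z z' q : ℍ} {X X' : V} {s σ e K : ℝ} (he : 1 ≤ e)
    (hes : 1000 * e ≤ s) (hσ : 0 ≤ σ) (hKσ : 2 * K * σ ≤ s / 4)
    (a1 : |rho t p - σ| ≤ e) (a1' : |rho t p' - σ| ≤ e)
    (a2 : gp t g p ≤ 2 * e) (a2' : gp t g' p' ≤ 2 * e)
    (b1 : gp t g t' ≤ e) (b1' : gp t g' t' ≤ e) (b2 : gp g g' t' ≤ e)
    (c1 : |rho t' z - s / 2| ≤ e) (c1' : |rho t' z' - s / 2| ≤ e)
    (c2 : rho z g ≤ s / 2 + σ + e) (c2' : rho z' g' ≤ s / 2 + σ + e)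
    (c3 : |rho t' g - (s + σ)| ≤ e) (c3' : |rho t' g' - (s + σ)| ≤ e)
    (d1 : |rho t' q - 20 * e| ≤ e) (d2 : rho q z' ≤ s / 2 - 20 * e + e)
    (v5 : Real.exp (s + σ - e) ≤ nm t' X) (v5' : Real.exp (s + σ - e) ≤ nm t' X')
    (v6 : nm t (X - X') ≤ Real.exp (s + e))
    (v7 : nm z X ≤ Real.exp (s / 2 + 2 * K * σ + e))
    (v7' : nm z' X' ≤ Real.exp (s / 2 + 2 * K * σ + e)) :
    rho p p' ≤ 32 * e := by
  have s1 := core_rho he hes b2 c1 c2 c2' c3 c3' d1 d2
  have s2 := core_II he hes hσ hKσ c1 d1 s1 v5 v7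
  have s3 := core_I he hes hσ hKσ c1' d1 d2 v5' v7'
  have s5 := core_theta he d1 v5 v6 s2 s3
  have s6 := core_pt he a1 a2 b1 c3 s5
  have s6' := core_pt he a1' a2' b1' c3' s5
  have a1u := (abs_le.1 a1).2
  have a1u' := (abs_le.1 a1').2
  have r1 := rho_comm p t
  have r2 := rho_comm t p'
  rcases le_max_iff.1 (sub_le_iff_le_add.2 (fourpt p t p' t')) with h | h
  · linarith
  · linarith

end Pool.Agent.FIB
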