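import Pool.Agent.FIB.PMz

/-!
# Part C1, changes of variables  (OPEN MODULE)

Keep the statements exactly; extra lemmas `private`.
-/

set_option autoImplicit false

namespace Pool.Agent.FIB

open UpperHalfPlane MeasureTheory Set

/-- For fixed `b` and `uh` the direction coordinate `kap σ b u uh` of a point `u ∈ box 4` is in a
small set with small probability.

PROOF.  Replace `B` by `toMeasurable volume B`.  For fixed `y = u.2 ∈ [-4, 4]` and
`β = uh.2 - e^{-2σ} y ∈ [1, 4]` (`kap_bound`) the map `x ↦ kap σ b (x, y) uh = (uh.1 + b y)/β - x/β` is affine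
with slope `-1/β`, so `volume {x | kap σ b (x, y) uh ∈ B} = β volume B ≤ 4 η` (`scale_le`).  Integrate over
`y ∈ [-4, 4]` (`fiber_le_symm` or `Measure.prod_apply_symm`): `≤ 8 * 4 η`. -/
theorem vol_kap {σ b : ℝ} (hσ : 2 ≤ σ) (hb : |b| ≤ 1) {uh : V} (huh : uh ∈ Dh) (B : Set ℝ)
    {η : ℝ} (hη : 0 ≤ η) (hB : volume B ≤ ENNReal.ofReal η) :
    volume {u : V | u ∈ box 4 ∧ kap σ b u uh ∈ B} ≤ ENNReal.ofReal (32 * η) := by
  set B' := toMeasurable volume B with hB'
  have hBm : MeasurableSet B' := measurableSet_toMeasurable _ _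
  have hBv : volume B' ≤ ENNReal.ofReal η := by rw [hB', measure_toMeasurable]; exact hB
  have hSm : MeasurableSet {p : ℝ × ℝ | kap σ b p uh ∈ B'} :=
    (measurable_kap σ (Ω := ℝ × ℝ) (b := fun _ => b) (u := fun p => p) (uh := fun _ => uh)
      measurable_const measurable_id measurable_const) hBm
  have h1 := fiber_le_symm hSm (A := Icc (-4 : ℝ) 4) measurableSet_Icc (ε := 4 * η) (by
    intro y hy
    have hk := kap_bound hσ hb (u := ((0, y) : V)) (uh := uh)
      ⟨⟨by norm_num, by norm_num⟩, hy⟩ huh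
    obtain ⟨hβ1, hβ2, -, -⟩ := hk
    simp only at hβ1 hβ2
    set β := uh.2 - Real.exp (-2 * σ) * y with hβ
    have hβ0 : β ≠ 0 := by linarith
    have e1 : {x : ℝ | (x, y) ∈ {p : ℝ × ℝ | kap σ b p uh ∈ B'}} =
        {x : ℝ | (uh.1 + b * y) / β + (-β⁻¹) * x ∈ B'} := by
      ext x
      rw [mem_ofPred_eq, mem_ofPred_eq, mem_ofPred_eq]
      have : kap σ b (x, y) uh = (uh.1 + b * y) / β + (-β⁻¹) * x := by
        unfold kap
        simp only
        rw [← hβ]
        field_simp
        ring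
      rw [this]
    rw [e1, scale_le B' (by simpa using hβ0) _]
    have e2 : |(-β⁻¹)⁻¹| = β := by
      rw [inv_neg, inv_inv, abs_neg, abs_of_pos (by linarith)]
    rw [e2, ENNReal.ofReal_mul (by norm_num)]
    exact mul_le_mul' (ENNReal.ofReal_le_ofReal hβ2) hBv)
  rw [Real.volume_Icc] at h1
  have h2 : ENNReal.ofReal (4 * η) * ENNReal.ofReal (4 - -4) = ENNReal.ofReal (32 * η) := by
    rw [← ENNReal.ofReal_mul (by linarith)]
    congr 1
    ring
  rw [h2] at h1
  refine (measure_mono ?_).trans h1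
  rintro u ⟨hu1, hu2⟩
  exact ⟨hu1.2, subset_toMeasurable _ _ hu2⟩

/-- The pair version, obtained from `vol_kap` twice.

PROOF.  `S = {q : V × V | q.1 ∈ box 4 ∧ q.2 ∈ box 4 ∧ (kap q.1, kap q.2) ∈ B2}` is measurable
(`measurable_kap`).  By `markov_fubini` (with `ε = δ = η`, `volume B2 ≤ η * η`) the set
`A = {κ | ofReal η < volume {κ' | (κ, κ') ∈ B2}}` has measure `≤ η`.  `S` is contained in the union of
`{q | q.1 ∈ box 4 ∧ kap q.1 ∈ A ∧ q.2 ∈ box 4}`, of measure `≤ 32 η * 64` (`vol_kap`,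
`Measure.prod_prod`; this is a product set), and of `{q | q.1 ∈ box 4 ∧ kap q.1 ∉ A ∧ q.2 ∈ box 4 ∧ ..}`,
whose slices for fixed `q.1` have measure `≤ 32 η` (`vol_kap` for `{κ' | (kap q.1, κ') ∈ B2}`), so its measure is
`≤ 32 η * 64` (`fiber_le`; to have a measurable set use `{q ∈ S | kap q.1 ∉ A'}`, where
`A' = toMeasurable volume A`, or note that `A` is measurable by `measurable_measure_prodMk_left`). -/
theorem vol_kap2 {σ b : ℝ} (hσ : 2 ≤ σ) (hb : |b| ≤ 1) {uh : V} (huh : uh ∈ Dh)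
    (B2 : Set (ℝ × ℝ)) (hB2m : MeasurableSet B2) {η : ℝ} (hη : 0 < η)
    (hB : volume B2 ≤ ENNReal.ofReal (η ^ 2)) :
    volume {q : V × V | q.1 ∈ box 4 ∧ q.2 ∈ box 4 ∧ (kap σ b q.1 uh, kap σ b q.2 uh) ∈ B2} ≤
      ENNReal.ofReal (4096 * η) := by
  set A : Set ℝ := {κ : ℝ | ENNReal.ofReal η < volume {κ' : ℝ | (κ, κ') ∈ B2}} with hA
  have hAm : MeasurableSet A :=
    (measurable_measure_prodMk_left (ν := (volume : Measure ℝ)) hB2m) measurableSet_Ioi
  have hAv : volume A ≤ ENNReal.ofReal η := by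
    refine markov_fubini hB2m hη hη.le ?_
    rw [← sq]
    exact hB
  have hbox : MeasurableSet (box 4) := measurableSet_box 4
  have hk : Measurable fun u : V => kap σ b u uh :=
    measurable_kap σ (Ω := V) (b := fun _ => b) (u := fun p => p) (uh := fun _ => uh)
      measurable_const measurable_id measurable_const
  set S : Set (V × V) := {q : V × V | q.1 ∈ box 4 ∧ q.2 ∈ box 4 ∧
    (kap σ b q.1 uh, kap σ b q.2 uh) ∈ B2} with hS
  have hSm : MeasurableSet S := by
    refine (measurable_fst hbox).inter ((measurable_snd hbox).inter ?_)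
    exact ((hk.comp measurable_fst).prodMk (hk.comp measurable_snd)) hB2m
  have h64 : (0 : ℝ) ≤ 32 * η := by linarith
  have e64 : ENNReal.ofReal (32 * η) * ENNReal.ofReal 64 = ENNReal.ofReal (2048 * η) := by
    rw [← ENNReal.ofReal_mul h64]
    congr 1
    ring
  -- the first part
  have p1 : volume ({u : V | u ∈ box 4 ∧ kap σ b u uh ∈ A} ×ˢ box 4) ≤
      ENNReal.ofReal (2048 * η) := by
    rw [Measure.volume_eq_prod, Measure.prod_prod, volume_box4, ← e64]
    exact mul_le_mul' (vol_kap hσ hb huh A hη.le hAv) le_rfl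
  -- the second part
  have hCm : MeasurableSet (box 4 ∩ {u : V | kap σ b u uh ∉ A}) := hbox.inter (hk hAm.compl)
  have p2 : volume {q : V × V | q.1 ∈ box 4 ∩ {u : V | kap σ b u uh ∉ A} ∧ q ∈ S} ≤
      ENNReal.ofReal (2048 * η) := by
    refine (fiber_le hSm hCm (ε := 32 * η) ?_).trans ?_
    · rintro u ⟨hu1, hu2⟩
      have h1 : volume {κ' : ℝ | (kap σ b u uh, κ') ∈ B2} ≤ ENNReal.ofReal η := not_lt.1 hu2
      refine (measure_mono ?_).trans (vol_kap hσ hb huh _ hη.le h1)
      rintro u' ⟨-, hu'2, hu'3⟩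
      exact ⟨hu'2, hu'3⟩
    · rw [← e64]
      refine mul_le_mul' le_rfl ?_
      rw [← volume_box4]
      exact measure_mono inter_subset_left
  have hsub : S ⊆ ({u : V | u ∈ box 4 ∧ kap σ b u uh ∈ A} ×ˢ box 4) ∪
      {q : V × V | q.1 ∈ box 4 ∩ {u : V | kap σ b u uh ∉ A} ∧ q ∈ S} := by
    intro q hq
    by_cases h : kap σ b q.1 uh ∈ A
    · exact Or.inl ⟨⟨hq.1, h⟩, hq.2.1⟩
    · exact Or.inr ⟨⟨hq.1, h⟩, hq⟩
  refine (measure_mono hsub).trans ((measure_union_le _ _).trans ?_)
  refine (add_le_add p1 p2).trans ?_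
  rw [← ENNReal.ofReal_add (by linarith) (by linarith)]
  exact ENNReal.ofReal_le_ofReal (by linarith)

/-- For typical `(b, uh, u)` the point `(u, bb σ b u uh)` is not in a small set.

PROOF.  Let `S` be the set on the left; it is measurable.  By `Measure.prod_apply_symm` (first factor
`ℝ`, second factor `V × V`) its volume is the integral over `(uh, u)` of the volume of
`{b ∈ [-1, 1] | (u, bb σ b u uh) ∈ B}`, if `uh ∈ Dh`, `u ∈ box 4` (and `0` otherwise).  For fixed
`(uh, u)`, with `β = uh.2 - e^{-2σ} u.2 ∈ [1, 4]` (`kap_bound`),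
`bb σ b u uh = b (1 + e^{-2σ} u.2/β) + e^{-2σ} (uh.1 - u.1)/β` is affine in `b` with slope in `[1/2, 2]`
(`|e^{-2σ} u.2/β| ≤ 4 e^{-4} ≤ 1/2`), so this volume is `≤ 2 volume {b'' | (u, b'') ∈ B}` (`scale_le`).  Hence
`volume S ≤ ∫ (uh, u), 1_{Dh}(uh) * (2 φ u)`, `φ u = volume {b'' | (u, b'') ∈ B}`, which is
`2 volume Dh * volume B` (`MeasureTheory.lintegral_prod_mul`, `Measure.prod_apply`). -/
theorem vol_bb {σ : ℝ} (hσ : 2 ≤ σ) (B : Set (V × ℝ)) (hBm : MeasurableSet B) {ε : ℝ}
    (hε : 0 ≤ ε) (hB : volume B ≤ ENNReal.ofReal ε) :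
    volume {q : ℝ × (V × V) | q.1 ∈ Icc (-1 : ℝ) 1 ∧ q.2.1 ∈ Dh ∧ q.2.2 ∈ box 4 ∧
      (q.2.2, bb σ q.1 q.2.2 q.2.1) ∈ B} ≤ ENNReal.ofReal (2 * ε) := by
  set S : Set (ℝ × (V × V)) := {q : ℝ × (V × V) | q.1 ∈ Icc (-1 : ℝ) 1 ∧ q.2.1 ∈ Dh ∧
    q.2.2 ∈ box 4 ∧ (q.2.2, bb σ q.1 q.2.2 q.2.1) ∈ B} with hS
  have hbbm : Measurable fun q : ℝ × (V × V) => bb σ q.1 q.2.2 q.2.1 :=
    measurable_bb σ measurable_fst (measurable_snd.comp measurable_snd)
      (measurable_fst.comp measurable_snd)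
  have hSm : MeasurableSet S := by
    refine (measurable_fst measurableSet_Icc).inter
      (((measurable_fst.comp measurable_snd) measurableSet_Dh).inter
      (((measurable_snd.comp measurable_snd) (measurableSet_box 4)).inter ?_))
    exact ((measurable_snd.comp measurable_snd).prodMk hbbm) hBm
  have h1 : volume S = ∫⁻ p : V × V, volume {b : ℝ | (b, p) ∈ S} :=
    Measure.prod_apply_symm hSm
  set φ : V → ENNReal := fun u => volume {b : ℝ | (u, b) ∈ B} with hφ
  have hφm : Measurable φ := measurable_measure_prodMk_left (ν := (volume : Measure ℝ)) hBm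
  have hφi : ∫⁻ u, φ u = volume B := (Measure.prod_apply hBm).symm
  have h2 : ∀ p : V × V, volume {b : ℝ | (b, p) ∈ S} ≤
      Dh.indicator (fun _ => (1 : ENNReal)) p.1 * (ENNReal.ofReal 2 * φ p.2) := by
    rintro ⟨uh, u⟩
    by_cases huh : uh ∈ Dh
    · by_cases hu : u ∈ box 4
      · simp only
        rw [indicator_of_mem huh, one_mul]
        have hk := kap_bound hσ (b := 0) (by rw [abs_zero]; norm_num) hu huh
        obtain ⟨hβ1, -, -, -⟩ := hk
        set β := uh.2 - Real.exp (-2 * σ) * u.2 with hβ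
        have hβ0 : β ≠ 0 := by linarith
        have hex : Real.exp (-2 * σ) ≤ 1 / 8 := by
          have h3 : Real.exp (-2 * σ) ≤ Real.exp (-4) := Real.exp_le_exp.2 (by linarith)
          have h4 : Real.exp (-4) ≤ 1 / 8 := by
            rw [Real.exp_neg, one_div]
            apply inv_anti₀ (by norm_num)
            have h5 : Real.exp 4 = Real.exp 1 ^ 4 := by
              rw [← Real.exp_nat_mul]
              norm_num
            have h6 := Real.exp_one_gt_d9
            rw [h5]
            have h7 : (2 : ℝ) ^ 4 ≤ Real.exp 1 ^ 4 := pow_le_pow_left₀ (by norm_num) (by linarith) 4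
            linarith
          linarith
        have hex0 := Real.exp_pos (-2 * σ)
        have hu2 : |u.2| ≤ 4 := abs_le.2 ⟨hu.2.1, hu.2.2⟩
        have hc : |Real.exp (-2 * σ) * u.2 / β| ≤ 1 / 2 := by
          rw [abs_div, abs_mul, abs_of_pos hex0, abs_of_pos (by linarith : (0 : ℝ) < β),
            div_le_iff₀ (by linarith)]
          have h8 : Real.exp (-2 * σ) * |u.2| ≤ 1 / 8 * 4 :=
            mul_le_mul hex hu2 (abs_nonneg _) (by norm_num)
          linarith
        set c := 1 + Real.exp (-2 * σ) * u.2 / β with hcdef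
        have hc1 : 1 / 2 ≤ c := by
          have := (abs_le.1 hc).1
          rw [hcdef]
          linarith
        have hsub : {b : ℝ | (b, (uh, u)) ∈ S} ⊆
            {b : ℝ | Real.exp (-2 * σ) * (uh.1 - u.1) / β + c * b ∈ {b : ℝ | (u, b) ∈ B}} := by
          rintro b ⟨-, -, -, hb⟩
          rw [mem_ofPred_eq, mem_ofPred_eq]
          have : Real.exp (-2 * σ) * (uh.1 - u.1) / β + c * b = bb σ b u uh := by
            unfold bb kap
            rw [← hβ, hcdef]
            field_simp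
            ring
          rw [this]
          exact hb
        refine (measure_mono hsub).trans ?_
        rw [scale_le _ (by linarith : c ≠ 0) _]
        refine mul_le_mul' (ENNReal.ofReal_le_ofReal ?_) le_rfl
        rw [abs_of_pos (inv_pos.2 (by linarith))]
        rw [inv_le_comm₀ (by linarith) (by norm_num)]
        linarith
      · have h3 : {b : ℝ | (b, ((uh, u) : V × V)) ∈ S} = ∅ := by
          ext b
          rw [mem_ofPred_eq]
          exact ⟨fun h => hu h.2.2.1, fun h => absurd h (notMem_empty _)⟩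
        rw [h3, measure_empty]
        exact bot_le
    · have h3 : {b : ℝ | (b, ((uh, u) : V × V)) ∈ S} = ∅ := by
        ext b
        rw [mem_ofPred_eq]
        exact ⟨fun h => huh h.2.1, fun h => absurd h (notMem_empty _)⟩
      rw [h3, measure_empty]
      exact bot_le
  rw [h1]
  refine (lintegral_mono h2).trans ?_
  have h3 : ∫⁻ p : V × V, Dh.indicator (fun _ => (1 : ENNReal)) p.1 * (ENNReal.ofReal 2 * φ p.2) =
      (∫⁻ x : V, Dh.indicator (fun _ => (1 : ENNReal)) x) * ∫⁻ y : V, ENNReal.ofReal 2 * φ y :=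
    lintegral_prod_mul (measurable_const.indicator measurableSet_Dh).aemeasurable
      (hφm.const_mul _).aemeasurable
  rw [h3, lintegral_indicator measurableSet_Dh, lintegral_const, one_mul,
    Measure.restrict_apply_univ, volume_Dh, one_mul, lintegral_const_mul _ hφm, hφi,
    ENNReal.ofReal_mul (by norm_num)]
  exact mul_le_mul' le_rfl hB

end Pool.Agent.FIB
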