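import Pool.Agent.FIB.Hyp

/-!
# Elementary facts about `QM K`

Proofs. `QM.tr F w0 g` is `F` precomposed with the isometry `(w, x) ↦ (w0 + act g w, g • x)` of `X`:
`dd (w0 + act g w) (g • x) (w0 + act g w') (g • x') = dd w x w' x'` (`dd_act`, from `rho_smul`,
`nm_act`, `act_sub`), and the map is measurable (continuous; the action of `SL(2,ℝ)` on `ℍ` is
continuous, on `V` linear).
The inequalities are the three fields of `QI` for special pairs of points: `dd w (pt b j) w (pt b j')
= |j - j'|` (`nm_zero`, `log 1 = 0`), etc.; for the `U` versions use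
`nm ≤ 1 + nm = exp (log (1 + nm))`.
-/

set_option autoImplicit false

namespace Pool.Agent.FIB

open UpperHalfPlane MeasureTheory
open scoped MatrixGroups

theorem dd_act (w0 : V) (g : SL(2, ℝ)) (w w' : V) (x x' : ℍ) :
    dd (w0 + act g w) (g • x) (w0 + act g w') (g • x') = dd w x w' x' := by
  unfold dd
  rw [rho_smul, add_sub_add_left_eq_sub, ← act_sub, nm_act]

theorem dd_nonneg (w w' : V) (x x' : ℍ) : 0 ≤ dd w x w' x' := by
  unfold dd
  have h1 := rho_nonneg x x'
  have h2 := Real.log_nonneg (by linarith [nm_nonneg x (w - w')] : (1 : ℝ) ≤ 1 + nm x (w - w'))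
  linarith

private lemma Step_dd_same (w : V) (x x' : ℍ) : dd w x w x' = rho x x' := by
  unfold dd
  rw [sub_self, nm_zero, add_zero, Real.log_one, add_zero]

private lemma Step_dd_fib (w w' : V) (x : ℍ) : dd w x w' x = Real.log (1 + nm x (w - w')) := by
  unfold dd
  rw [rho_self, zero_add]

private lemma Step_nm_le {x : ℍ} {v : V} {t : ℝ} (h : Real.log (1 + nm x v) ≤ t) :
    nm x v ≤ Real.exp t := by
  have h0 := nm_nonneg x v
  have h1 : 1 + nm x v ≤ Real.exp t := (Real.log_le_iff_le_exp (by linarith)).1 h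
  linarith

theorem measurable_smul_SL (g : SL(2, ℝ)) : Measurable fun x : ℍ => g • x := by
  exact (isometry_smul ℍ g).continuous.measurable

theorem measurable_act (g : SL(2, ℝ)) : Measurable (act g) := by
  unfold act
  fun_prop

namespace QM

variable {K : ℝ}

theorem tr_qi (F : QM K) (w0 : V) (g : SL(2, ℝ)) :
    QI K (fun w x => F.U (w0 + act g w) (g • x)) (fun w x => F.f (w0 + act g w) (g • x)) := by
  refine ⟨fun w x w' x' => ?_, fun w x w' x' => ?_, fun w x w' x' => ?_⟩
  · have := F.qi.upf (w0 + act g w) (g • x) (w0 + act g w') (g • x')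
    rwa [dd_act] at this
  · have := F.qi.upU (w0 + act g w) (g • x) (w0 + act g w') (g • x')
    rwa [dd_act] at this
  · have := F.qi.low (w0 + act g w) (g • x) (w0 + act g w') (g • x')
    rwa [dd_act] at this

theorem tr_fac (F : QM K) (w0 : V) (g : SL(2, ℝ)) :
    ∃ c : V × ℍ → ℕ, Measurable c ∧ ∀ p q : V × ℍ, c p = c q →
      F.U (w0 + act g p.1) (g • p.2) = F.U (w0 + act g q.1) (g • q.2) ∧
      F.f (w0 + act g p.1) (g • p.2) = F.f (w0 + act g q.1) (g • q.2) := by
  obtain ⟨c, hc, h⟩ := F.fac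
  refine ⟨fun p => c (w0 + act g p.1, g • p.2), ?_, fun p q hpq => h _ _ hpq⟩
  apply hc.comp
  exact (measurable_const.add ((measurable_act g).comp measurable_fst)).prodMk
    ((measurable_smul_SL g).comp measurable_snd)

/-- `F` precomposed with the isometry `(w, x) ↦ (w0 + act g w, g • x)`. -/
noncomputable def tr (F : QM K) (w0 : V) (g : SL(2, ℝ)) : QM K where
  U := fun w x => F.U (w0 + act g w) (g • x)
  f := fun w x => F.f (w0 + act g w) (g • x)
  qi := tr_qi F w0 g
  fac := tr_fac F w0 g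

theorem tr_U (F : QM K) (w0 : V) (g : SL(2, ℝ)) (w : V) (x : ℍ) :
    (F.tr w0 g).U w x = F.U (w0 + act g w) (g • x) := rfl

theorem tr_f (F : QM K) (w0 : V) (g : SL(2, ℝ)) (w : V) (x : ℍ) :
    (F.tr w0 g).f w x = F.f (w0 + act g w) (g • x) := rfl

theorem f_rho (F : QM K) (w : V) (x x' : ℍ) : rho (F.f w x) (F.f w x') ≤ K * rho x x' + K := by
  have := F.qi.upf w x w x'
  rwa [Step_dd_same] at this

theorem U_rho (F : QM K) (w : V) (x x' : ℍ) :
    nm (F.f w x) (F.U w x - F.U w x') ≤ Real.exp (K * rho x x' + K) := by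
  have := F.qi.upU w x w x'
  rw [Step_dd_same] at this
  exact Step_nm_le this

theorem f_vert (F : QM K) (w : V) (b j j' : ℝ) :
    rho (F.f w (pt b j)) (F.f w (pt b j')) ≤ K * |j - j'| + K := by
  have := F.f_rho w (pt b j) (pt b j')
  rwa [rho_pt] at this

theorem U_vert (F : QM K) (w : V) (b j j' : ℝ) :
    nm (F.f w (pt b j)) (F.U w (pt b j) - F.U w (pt b j')) ≤ Real.exp (K * |j - j'| + K) := by
  have := F.U_rho w (pt b j) (pt b j')
  rwa [rho_pt] at this

theorem f_hor (F : QM K) (hK : 0 ≤ K) (w : V) (b b' j : ℝ) :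
    rho (F.f w (pt b j)) (F.f w (pt b' j)) ≤ K * (|b - b'| * Real.exp (2 * j) / 2) + K := by
  have h1 := F.f_rho w (pt b j) (pt b' j)
  have h2 := mul_le_mul_of_nonneg_left (rho_pt_b b b' j) hK
  linarith

theorem U_hor (F : QM K) (hK : 0 ≤ K) (w : V) (b b' j : ℝ) :
    nm (F.f w (pt b j)) (F.U w (pt b j) - F.U w (pt b' j)) ≤
      Real.exp (K * (|b - b'| * Real.exp (2 * j) / 2) + K) := by
  have h1 := F.U_rho w (pt b j) (pt b' j)
  have h2 := mul_le_mul_of_nonneg_left (rho_pt_b b b' j) hK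
  exact h1.trans (Real.exp_le_exp.2 (by linarith))

theorem f_fib (F : QM K) (w w' : V) (x : ℍ) :
    rho (F.f w x) (F.f w' x) ≤ K * Real.log (1 + nm x (w - w')) + K := by
  have := F.qi.upf w x w' x
  rwa [Step_dd_fib] at this

theorem U_fib (F : QM K) (w w' : V) (x : ℍ) :
    nm (F.f w x) (F.U w x - F.U w' x) ≤ Real.exp (K * Real.log (1 + nm x (w - w')) + K) := by
  have := F.qi.upU w x w' x
  rw [Step_dd_fib] at this
  exact Step_nm_le this

private lemma Step_log_le {x : ℍ} {v : V} (h : nm x v ≤ 1) : Real.log (1 + nm x v) ≤ 1 := by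
  have h0 := nm_nonneg x v
  have h1 := Real.log_le_sub_one_of_pos (by linarith : (0 : ℝ) < 1 + nm x v)
  linarith

/-- Sheets at distance at most `1`. -/
theorem f_near (F : QM K) (hK : 0 ≤ K) (w w' : V) (x : ℍ) (h : nm x (w - w') ≤ 1) :
    rho (F.f w x) (F.f w' x) ≤ 2 * K := by
  have h1 := F.f_fib w w' x
  have h2 := mul_le_mul_of_nonneg_left (Step_log_le h) hK
  linarith

theorem U_near (F : QM K) (hK : 0 ≤ K) (w w' : V) (x : ℍ) (h : nm x (w - w') ≤ 1) :
    nm (F.f w x) (F.U w x - F.U w' x) ≤ Real.exp (2 * K) := by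
  have h1 := F.U_fib w w' x
  have h2 := mul_le_mul_of_nonneg_left (Step_log_le h) hK
  exact h1.trans (Real.exp_le_exp.2 (by linarith))

/-- Separation of different sheets over the same point. -/
theorem sep_fib (F : QM K) (w w' : V) (x : ℍ) :
    Real.log (1 + nm x (w - w')) ≤
      K * (rho (F.f w x) (F.f w' x) + Real.log (1 + nm (F.f w x) (F.U w x - F.U w' x))) + K := by
  have := F.qi.low w x w' x
  rw [Step_dd_fib] at this
  exact this

theorem sep_vert (F : QM K) (w : V) (b j j' : ℝ) :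
    |j - j'| ≤ K * (rho (F.f w (pt b j)) (F.f w (pt b j')) +
      Real.log (1 + nm (F.f w (pt b j)) (F.U w (pt b j) - F.U w (pt b j')))) + K := by
  have := F.qi.low w (pt b j) w (pt b j')
  rw [Step_dd_same, rho_pt] at this
  exact this

end QM

end Pool.Agent.FIB
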