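import Pool.Agent.FIB.Iface
import Pool.Agent.FIB.Step
import Pool.Agent.FIB.Tree

/-!
# Part C1, the hypotheses for one sheet  (COMPLETE FILE)
-/

set_option autoImplicit false

namespace Pool.Agent.FIB

open UpperHalfPlane MeasureTheory Set

/-- the scales of Part C1 -/
structure Sc (K s σ δ : ℝ) : Prop where
  hK : 1 ≤ K
  hσ : σ = s / (100 * K)
  hδ : 100 * K ≤ δ
  hs : 100000 * δ ≤ s
  hlog : Real.log (4 * s + 100) ≤ δ

/-- The sheets `w` (of `P`) and `w'` (of `Q`) are typical, the directions being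
`b'' = b + κ e^{-2σ}`; `t, t'` are the centres of `P, Q`. -/
structure SG {K : ℝ} (F : QM K) (s σ b κ δ : ℝ) (w w' : V) (t t' : ℍ) : Prop where
  hκ : |κ| ≤ 8
  hb : |b| ≤ 1
  cen : rho (F.f w o) t ≤ δ
  unit : UnitP F w (b + κ * Real.exp (-2 * σ)) 0 s δ
  cen' : rho (F.f w' (pt b σ)) t' ≤ 2 * δ
  unit' : ∀ i i' : ℕ, (i : ℝ) ≤ s + σ → (i' : ℝ) ≤ s + σ →
    abs (rho (F.f w' (pt (b + κ * Real.exp (-2 * σ)) (σ + i)))
      (F.f w' (pt (b + κ * Real.exp (-2 * σ)) (σ + i'))) - |(i : ℝ) - i'|) ≤ 2 * δ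
  gpt : gp t (F.f w' (pt (b + κ * Real.exp (-2 * σ)) (s + 2 * σ))) t' ≤ 2 * δ + 1
  meet : ∀ j : ℝ, s + 2 * σ + 2 ≤ j →
    nm (pt (b + κ * Real.exp (-2 * σ)) j) (w - w') ≤ 1
  vec : Real.exp (s + σ - 2 * δ - 1) ≤ nm t' (F.U w (pt b σ) - F.U w' (pt b σ))

/-- `xP i`: the image of the sheet `w` at the depth `i` in the direction `b''` -/
noncomputable def xP {K : ℝ} (F : QM K) (σ b κ : ℝ) (w : V) (i : ℕ) : ℍ :=
  F.f w (pt (b + κ * Real.exp (-2 * σ)) i)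

/-- `yP i`: the image of the sheet `w'` at the depth `σ + i` in the direction `b''` -/
noncomputable def yP {K : ℝ} (F : QM K) (σ b κ : ℝ) (w' : V) (i : ℕ) : ℍ :=
  F.f w' (pt (b + κ * Real.exp (-2 * σ)) (σ + i))

end Pool.Agent.FIB
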