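import Pool.Agent.FIB.Step
import Pool.Agent.FIB.Iface

/-!
# Part C1, frames

Part C1 (`StB K → StP K`, helper71), see `FIB/Proof.lean`.  `σ` is the depth, `b ∈ [-1, 1]` a
direction, `P` the plane of size `s` at `o`, `Q` the plane of size `s + σ` at `pt b σ`.  A vector
`uh ∈ Dh = [0,1] × [2,3]` gives the sheet `wh s σ b uh = act (fr b σ) (e^{s+σ} uh)` of `Q`, a vector
`u ∈ box 4` the sheet `e^s u` of `P`.  They differ by a multiple of `ev (bb σ b u uh)`,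
`bb σ b u uh = b + kap σ b u uh * e^{-2σ}`, hence they meet over `pt (bb σ b u uh) j` for
`j ≥ s + 2σ + 2`.

Keep the statements exactly; extra lemmas `private`.  Proofs:
* `Dh_sub`, `kap_bound`: `e^{-2σ} ≤ e^{-4} ≤ 1/50` (use `Real.exp_one_gt_d9` or
  `Real.add_one_le_exp`: `e^{-x} ≤ 1/(1+x)` gives `e^{-4} ≤ 1/5`, and `e^{-4} = (e^{-2})^2 ≤ 1/9`; with
  `|u.2| ≤ 4` and `e^{-2σ} ≤ 1/9` the denominator is `≥ 2 - 4/9 ≥ 3/2` and `≤ 3 + 4/9 ≤ 4`), numerator at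
  most `1 + 4 + 4 = 9`, so `|kap| ≤ 6 ≤ 8`; `|bb| ≤ 1 + 8 e^{-2σ} ≤ 2`.
* `wh_sub`: both coordinates, by `act_fr` and `e^{s+σ} = e^s e^σ`, `e^{-σ} e^{s+σ} = e^s`,
  `e^{σ} e^{s+σ} = e^{s+2σ}`, `e^{s + 2σ} e^{-2σ} = e^s`.
* `meet_le`: `nm_sub_comm`, `wh_sub`, `nm_pt_ev`: the norm is `e^{s+2σ} β e^{-j} ≤ 4 e^{-2} ≤ 1`.
* `tr_fr_f`, `tr_fr_U`, `tr_fr_f_o`, `tr_fr_U_o`: `QM.tr_f`, `QM.tr_U`, `fr_smul`, `o = pt 0 0`, `zero_add`.
-/

set_option autoImplicit false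

namespace Pool.Agent.FIB

open UpperHalfPlane MeasureTheory Set

/-- the coordinate (with respect to `b` and the depth `σ`) of the direction in which `u` and `uh`
meet -/
noncomputable def kap (σ b : ℝ) (u uh : V) : ℝ :=
  (uh.1 - u.1 + b * u.2) / (uh.2 - Real.exp (-2 * σ) * u.2)

/-- the direction in which `u` and `uh` meet -/
noncomputable def bb (σ b : ℝ) (u uh : V) : ℝ := b + kap σ b u uh * Real.exp (-2 * σ)

/-- the sheet of `uh` -/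
noncomputable def wh (s σ b : ℝ) (uh : V) : V := act (fr b σ) (Real.exp (s + σ) • uh)

/-- the domain of the parameter `uh` -/
def Dh : Set V := Set.Icc 0 1 ×ˢ Set.Icc 2 3

theorem Dh_sub : Dh ⊆ box 8 := by
  intro v hv
  obtain ⟨h1, h2⟩ := Set.mem_prod.1 hv
  refine Set.mem_prod.2 ⟨⟨?_, ?_⟩, ⟨?_, ?_⟩⟩
  · linarith [h1.1]
  · linarith [h1.2]
  · linarith [h2.1]
  · linarith [h2.2]

private lemma PFrame_exp {σ : ℝ} (hσ : 2 ≤ σ) :
    0 < Real.exp (-2 * σ) ∧ Real.exp (-2 * σ) ≤ 1 / 9 := by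
  refine ⟨Real.exp_pos _, ?_⟩
  have h1 : Real.exp (-2 * σ) = (Real.exp (-σ)) ^ 2 := by
    rw [← Real.exp_nat_mul]
    congr 1
    push_cast
    ring
  have h2 : σ + 1 ≤ Real.exp σ := Real.add_one_le_exp σ
  have h3 : Real.exp (-σ) * Real.exp σ = 1 := by
    rw [← Real.exp_add]; simp
  have h4 : 0 < Real.exp (-σ) := Real.exp_pos _
  have h5 : Real.exp (-σ) ≤ 1 / 3 := by
    nlinarith
  rw [h1]
  nlinarith

theorem kap_bound {σ b : ℝ} (hσ : 2 ≤ σ) (hb : |b| ≤ 1) {u uh : V} (hu : u ∈ box 4)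
    (huh : uh ∈ Dh) :
    1 ≤ uh.2 - Real.exp (-2 * σ) * u.2 ∧ uh.2 - Real.exp (-2 * σ) * u.2 ≤ 4 ∧
      |kap σ b u uh| ≤ 8 ∧ |bb σ b u uh| ≤ 2 := by
  obtain ⟨he, he'⟩ := PFrame_exp hσ
  obtain ⟨⟨hu1, hu2⟩, ⟨hu3, hu4⟩⟩ := Set.mem_prod.1 hu
  obtain ⟨⟨hv1, hv2⟩, ⟨hv3, hv4⟩⟩ := Set.mem_prod.1 huh
  obtain ⟨hb1, hb2⟩ := abs_le.1 hb
  set E := Real.exp (-2 * σ) with hE
  have hEu : |E * u.2| ≤ 4 / 9 := by
    rw [abs_mul, abs_of_pos he]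
    have : |u.2| ≤ 4 := abs_le.2 ⟨hu3, hu4⟩
    nlinarith [abs_nonneg u.2]
  obtain ⟨hE1, hE2⟩ := abs_le.1 hEu
  have hD1 : 14 / 9 ≤ uh.2 - E * u.2 := by linarith
  have hD2 : uh.2 - E * u.2 ≤ 4 := by linarith
  have hD0 : 0 < uh.2 - E * u.2 := by linarith
  have hbu : |b * u.2| ≤ 4 := by
    rw [abs_mul]
    have : |u.2| ≤ 4 := abs_le.2 ⟨hu3, hu4⟩
    nlinarith [abs_nonneg u.2, abs_nonneg b]
  obtain ⟨hbu1, hbu2⟩ := abs_le.1 hbu
  have hk : |kap σ b u uh| ≤ 8 := by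
    unfold kap
    rw [← hE, abs_div, abs_of_pos hD0, div_le_iff₀ hD0]
    rw [abs_le]
    constructor <;> linarith
  refine ⟨by linarith, hD2, hk, ?_⟩
  obtain ⟨hk1, hk2⟩ := abs_le.1 hk
  unfold bb
  rw [← hE, abs_le]
  constructor <;> nlinarith

theorem wh_sub {s σ b : ℝ} {u uh : V} (h : uh.2 - Real.exp (-2 * σ) * u.2 ≠ 0) :
    wh s σ b uh - Real.exp s • u =
      (Real.exp (s + 2 * σ) * (uh.2 - Real.exp (-2 * σ) * u.2)) • ev (bb σ b u uh) := by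
  have e1 : Real.exp (-σ) * Real.exp (s + σ) = Real.exp s := by
    rw [← Real.exp_add]; congr 1; ring
  have e2 : Real.exp σ * Real.exp (s + σ) = Real.exp (s + 2 * σ) := by
    rw [← Real.exp_add]; congr 1; ring
  have e3 : Real.exp (s + 2 * σ) * Real.exp (-2 * σ) = Real.exp s := by
    rw [← Real.exp_add]; congr 1; ring
  have hk : kap σ b u uh * (uh.2 - Real.exp (-2 * σ) * u.2) = uh.1 - u.1 + b * u.2 := by
    unfold kap
    exact div_mul_cancel₀ _ h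
  unfold wh
  rw [act_fr]
  unfold bb ev
  ext
  · simp only [Prod.fst_sub, Prod.smul_fst, smul_eq_mul, Prod.smul_snd]
    linear_combination uh.1 * e1 + b * uh.2 * e2 - b * u.2 * e3 -
      Real.exp (s + 2 * σ) * Real.exp (-2 * σ) * hk - (uh.1 - u.1 + b * u.2) * e3 +
        b * u.2 * 2 * e3
  · simp only [Prod.snd_sub, Prod.smul_snd, smul_eq_mul, mul_one]
    linear_combination uh.2 * e2 + u.2 * e3

theorem meet_le {s σ b : ℝ} (hσ : 2 ≤ σ) (hb : |b| ≤ 1) {u uh : V} (hu : u ∈ box 4)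
    (huh : uh ∈ Dh) (j : ℝ) (hj : s + 2 * σ + 2 ≤ j) :
    nm (pt (bb σ b u uh) j) (Real.exp s • u - wh s σ b uh) ≤ 1 := by
  obtain ⟨hD1, hD2, -, -⟩ := kap_bound hσ hb hu huh
  rw [nm_sub_comm, wh_sub (by linarith), nm_pt_ev, abs_mul, abs_of_pos (Real.exp_pos _),
    abs_of_pos (by linarith : (0 : ℝ) < uh.2 - Real.exp (-2 * σ) * u.2)]
  have h1 : Real.exp (s + 2 * σ) * Real.exp (-j) ≤ Real.exp (-2) := by
    rw [← Real.exp_add]
    exact Real.exp_le_exp.2 (by linarith)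
  have h2 : Real.exp (-2) ≤ 1 / 4 := by
    have h3 : Real.exp (-2) = (Real.exp (-1)) ^ 2 := by
      rw [← Real.exp_nat_mul]
      congr 1
      push_cast
      ring
    have h4 : (1 : ℝ) + 1 ≤ Real.exp 1 := Real.add_one_le_exp 1
    have h5 : Real.exp (-1) * Real.exp 1 = 1 := by
      rw [← Real.exp_add]; simp
    have h6 : 0 < Real.exp (-1) := Real.exp_pos _
    have h7 : Real.exp (-1) ≤ 1 / 2 := by nlinarith
    rw [h3]
    nlinarith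
  have h3 : 0 < Real.exp (s + 2 * σ) * Real.exp (-j) := by positivity
  calc Real.exp (s + 2 * σ) * (uh.2 - Real.exp (-2 * σ) * u.2) * Real.exp (-j)
      = Real.exp (s + 2 * σ) * Real.exp (-j) * (uh.2 - Real.exp (-2 * σ) * u.2) := by ring
    _ ≤ Real.exp (s + 2 * σ) * Real.exp (-j) * 4 := by
        exact mul_le_mul_of_nonneg_left hD2 h3.le
    _ ≤ 1 := by linarith

variable {K : ℝ}

theorem tr_fr_f (F : QM K) (s σ b κ τ : ℝ) (uh : V) :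
    (F.tr 0 (fr b σ)).f (Real.exp (s + σ) • uh) (pt κ τ) =
      F.f (wh s σ b uh) (pt (b + κ * Real.exp (-2 * σ)) (σ + τ)) := by
  rw [QM.tr_f, zero_add, fr_smul]
  rfl

theorem tr_fr_U (F : QM K) (s σ b κ τ : ℝ) (uh : V) :
    (F.tr 0 (fr b σ)).U (Real.exp (s + σ) • uh) (pt κ τ) =
      F.U (wh s σ b uh) (pt (b + κ * Real.exp (-2 * σ)) (σ + τ)) := by
  rw [QM.tr_U, zero_add, fr_smul]
  rfl

private lemma PFrame_o (σ b : ℝ) : fr b σ • o = pt b σ := by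
  unfold o
  rw [fr_smul]
  simp

theorem tr_fr_f_o (F : QM K) (s σ b : ℝ) (uh : V) :
    (F.tr 0 (fr b σ)).f (Real.exp (s + σ) • uh) o = F.f (wh s σ b uh) (pt b σ) := by
  rw [QM.tr_f, zero_add, PFrame_o]
  rfl

theorem tr_fr_U_o (F : QM K) (s σ b : ℝ) (uh : V) :
    (F.tr 0 (fr b σ)).U (Real.exp (s + σ) • uh) o = F.U (wh s σ b uh) (pt b σ) := by
  rw [QM.tr_U, zero_add, PFrame_o]
  rfl

end Pool.Agent.FIB
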