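import Pool.Agent.FIB.Meas
import Pool.Agent.FIB.PFrame

/-!
# Part C1, measure theoretic tools  (OPEN MODULE)

Keep the statements exactly; extra lemmas `private`.
-/

set_option autoImplicit false

namespace Pool.Agent.FIB

open UpperHalfPlane MeasureTheory Set

/-- PROOF.  `UnitP` is a countable conjunction (over `i, i' : ℕ`) of conditions on the two values
`F.f (w ω) (pt (b ω) (j + i))`, `F.f (w ω) (pt (b ω) (j + i'))`; each is measurable by `F.measSet`
(`ι = Fin 2` or `Bool`), `measurable_pt'`; `MeasurableSet.iInter`. -/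
theorem measurableSet_unitP {K : ℝ} (F : QM K) {Ω : Type*} [MeasurableSpace Ω] {w : Ω → V}
    {b : Ω → ℝ} (hw : Measurable w) (hb : Measurable b) (j s e : ℝ) :
    MeasurableSet {ω | UnitP F (w ω) (b ω) j s e} := by
  have h : {ω | UnitP F (w ω) (b ω) j s e} = ⋂ i : ℕ, ⋂ i' : ℕ, {ω | (i : ℝ) ≤ s → (i' : ℝ) ≤ s →
      abs (rho (F.f (w ω) (pt (b ω) (j + i))) (F.f (w ω) (pt (b ω) (j + i'))) - |(i : ℝ) - i'|)
        ≤ e} := by
    ext ω
    simp [UnitP]
  rw [h]
  refine MeasurableSet.iInter fun i => MeasurableSet.iInter fun i' => ?_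
  exact F.measSet (ι := Bool) (fun _ ω => w ω)
    (fun t ω => pt (b ω) (j + if t then (i : ℝ) else (i' : ℝ))) (fun _ => hw)
    (fun t => measurable_pt' hb measurable_const)
    (fun v => (i : ℝ) ≤ s → (i' : ℝ) ≤ s → abs (rho (v true).2 (v false).2 - |(i : ℝ) - i'|) ≤ e)

theorem measurable_kap (σ : ℝ) {Ω : Type*} [MeasurableSpace Ω] {b : Ω → ℝ} {u uh : Ω → V}
    (hb : Measurable b) (hu : Measurable u) (huh : Measurable uh) :
    Measurable fun ω => kap σ (b ω) (u ω) (uh ω) := by
  unfold kap
  exact (((measurable_fst.comp huh).sub (measurable_fst.comp hu)).add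
    (hb.mul (measurable_snd.comp hu))).div
    ((measurable_snd.comp huh).sub (measurable_const.mul (measurable_snd.comp hu)))

theorem measurable_bb (σ : ℝ) {Ω : Type*} [MeasurableSpace Ω] {b : Ω → ℝ} {u uh : Ω → V}
    (hb : Measurable b) (hu : Measurable u) (huh : Measurable uh) :
    Measurable fun ω => bb σ (b ω) (u ω) (uh ω) := by
  unfold bb
  exact hb.add ((measurable_kap σ hb hu huh).mul_const _)

theorem measurable_wh (s σ b : ℝ) : Measurable (wh s σ b) := by
  unfold wh
  exact (measurable_act _).comp (measurable_const_smul _)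

theorem measurableSet_box (M : ℝ) : MeasurableSet (box M) := by
  exact measurableSet_Icc.prod measurableSet_Icc

theorem measurableSet_Dh : MeasurableSet Dh := by
  exact measurableSet_Icc.prod measurableSet_Icc

/-- PROOF. `Real.volume_Icc`, `Measure.volume_eq_prod`, `Measure.prod_prod`: `8 * 8`. -/
theorem volume_box4 : volume (box 4) = ENNReal.ofReal 64 := by
  unfold box
  rw [Measure.volume_eq_prod, Measure.prod_prod, Real.volume_Icc, ← ENNReal.ofReal_mul (by norm_num)]
  congr 1
  norm_num

theorem volume_Dh : volume Dh = 1 := by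
  unfold Dh
  rw [Measure.volume_eq_prod, Measure.prod_prod, Real.volume_Icc, Real.volume_Icc,
    ← ENNReal.ofReal_mul (by norm_num), ← ENNReal.ofReal_one]
  congr 1
  norm_num

section tools

variable {α β : Type*} [MeasureSpace α] [MeasureSpace β] [SigmaFinite (volume : Measure α)]
  [SigmaFinite (volume : Measure β)]

/-- The version of `fiber_le` for the second factor.  PROOF.  `Measure.prod_apply_symm`. -/
theorem fiber_le_symm {S : Set (α × β)} (hS : MeasurableSet S) {A : Set β}
    (hA : MeasurableSet A) {ε : ℝ}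
    (h : ∀ b ∈ A, volume {a : α | (a, b) ∈ S} ≤ ENNReal.ofReal ε) :
    volume {p : α × β | p.2 ∈ A ∧ p ∈ S} ≤ ENNReal.ofReal ε * volume A := by
  have hm : MeasurableSet {p : α × β | p.2 ∈ A ∧ p ∈ S} := (measurable_snd hA).inter hS
  have h1 : volume {p : α × β | p.2 ∈ A ∧ p ∈ S} =
      ∫⁻ b, volume {a : α | b ∈ A ∧ (a, b) ∈ S} := Measure.prod_apply_symm hm
  rw [h1]
  have h2 : ∀ b : β, volume {a : α | b ∈ A ∧ (a, b) ∈ S} ≤
      A.indicator (fun _ => ENNReal.ofReal ε) b := by
    intro b
    by_cases hb : b ∈ A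
    · rw [Set.indicator_of_mem hb]
      refine (measure_mono ?_).trans (h b hb)
      intro a ha
      exact ha.2
    · have h3 : {a : α | b ∈ A ∧ (a, b) ∈ S} = ∅ := by
        ext a
        simp [hb]
      rw [h3, measure_empty]
      exact bot_le
  refine (lintegral_mono h2).trans ?_
  rw [lintegral_indicator hA, lintegral_const, Measure.restrict_apply_univ]

end tools

/-- Integration over the last variable.

PROOF.  By `MeasureTheory.measurePreserving_prodAssoc` (or `volume_preserving_prodAssoc`) the volume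
of `S` is that of `S' = {((u, u'), b)}` in `(V × V) × ℝ`; by `Measure.prod_apply_symm` it is
`∫ b, volume {(u, u') | (u, u', b) ∈ S}`; the integrand is `0` for `b ∉ Icc (-1) 1`, it is
`≤ volume (box 4 ×ˢ box 4) = ofReal 4096` always, and `≤ c` for `b ∉ N`.  Replace `N` by a measurable
superset of the same measure (`toMeasurable`). -/
theorem last_var {S : Set (V × V × ℝ)} (hS : MeasurableSet S) {c ρ : ℝ} (hc : 0 ≤ c) (hρ : 0 ≤ ρ)
    (hsub : ∀ q ∈ S, q.1 ∈ box 4 ∧ q.2.1 ∈ box 4 ∧ q.2.2 ∈ Icc (-1 : ℝ) 1) (N : Set ℝ)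
    (hN : volume N ≤ ENNReal.ofReal ρ)
    (h : ∀ b ∈ Icc (-1 : ℝ) 1, b ∉ N →
      volume {q : V × V | (q.1, q.2, b) ∈ S} ≤ ENNReal.ofReal c) :
    volume S ≤ ENNReal.ofReal (2 * c + 4096 * ρ) := by
  have hpres := MeasureTheory.volume_preserving_prodAssoc (α₁ := V) (β₁ := V) (γ₁ := ℝ)
  have h0 : volume S = volume ((MeasurableEquiv.prodAssoc : (V × V) × ℝ ≃ᵐ V × V × ℝ) ⁻¹' S) :=
    (hpres.measure_preimage hS.nullMeasurableSet).symm
  have hS' : MeasurableSet ((MeasurableEquiv.prodAssoc : (V × V) × ℝ ≃ᵐ V × V × ℝ) ⁻¹' S) :=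
    MeasurableEquiv.prodAssoc.measurable hS
  have h1 : volume ((MeasurableEquiv.prodAssoc : (V × V) × ℝ ≃ᵐ V × V × ℝ) ⁻¹' S) =
      ∫⁻ b, volume {q : V × V | (q.1, q.2, b) ∈ S} := Measure.prod_apply_symm hS'
  rw [h0, h1]
  have hbox : (volume : Measure (V × V)) (box 4 ×ˢ box 4) = ENNReal.ofReal 4096 := by
    rw [Measure.volume_eq_prod, Measure.prod_prod, volume_box4, ← ENNReal.ofReal_mul (by norm_num)]
    congr 1
    norm_num
  have hT : MeasurableSet (toMeasurable volume N) := measurableSet_toMeasurable _ _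
  have h2 : ∀ b : ℝ, volume {q : V × V | (q.1, q.2, b) ∈ S} ≤
      (Icc (-1 : ℝ) 1).indicator (fun _ => ENNReal.ofReal c) b +
        (toMeasurable volume N).indicator (fun _ => ENNReal.ofReal 4096) b := by
    intro b
    by_cases hb : b ∈ Icc (-1 : ℝ) 1
    · by_cases hbN : b ∈ N
      · rw [Set.indicator_of_mem (subset_toMeasurable _ _ hbN)]
        refine le_trans ?_ le_add_self
        rw [← hbox]
        refine measure_mono ?_
        intro q hq
        obtain ⟨h3, h4, -⟩ := hsub _ hq
        exact Set.mem_prod.2 ⟨h3, h4⟩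
      · rw [Set.indicator_of_mem hb]
        exact (h b hb hbN).trans le_self_add
    · have h3 : {q : V × V | (q.1, q.2, b) ∈ S} = ∅ := by
        ext q
        constructor
        · intro hq
          exact absurd (hsub _ hq).2.2 hb
        · intro hq
          exact hq.elim
      rw [h3, measure_empty]
      exact bot_le
  refine (lintegral_mono h2).trans ?_
  rw [lintegral_add_left (measurable_const.indicator measurableSet_Icc),
    lintegral_indicator measurableSet_Icc, lintegral_indicator hT, lintegral_const,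
    lintegral_const, Measure.restrict_apply_univ, Measure.restrict_apply_univ,
    measure_toMeasurable, Real.volume_Icc]
  have h5 : ENNReal.ofReal c * ENNReal.ofReal (1 - -1) = ENNReal.ofReal (2 * c) := by
    rw [← ENNReal.ofReal_mul hc]
    congr 1
    ring
  rw [h5, ENNReal.ofReal_add (by linarith) (by linarith), ENNReal.ofReal_mul (by norm_num : (0:ℝ) ≤ 4096)]
  exact add_le_add le_rfl (mul_le_mul_right hN _)

end Pool.Agent.FIB
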