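import Pool.Agent.FIB.PDefs

/-!
# Part C1, positions for one pair of sheets  (OPEN MODULE)

Keep the statements exactly; extra lemmas `private`.

Notation: `b'' = b + κ e^{-2σ}`, `x i = xP F σ b κ w i = F.f w (pt b'' i)`,
`y i = yP F σ b κ w' i = F.f w' (pt b'' (σ + i))`, `p = F.f w (pt b σ)`, `n2 = ⌊s⌋₊`,
`n3 = ⌈s + 2σ + 2⌉₊`, `m = ⌊s/2⌋₊`, `g = x n3`, `z = y m`, `G = F.f w' (pt b'' (s + 2σ))`.
From `Sc`: `K ≥ 1`, `100 K ≤ δ`, `σ = s/(100K) ≥ 100000` (so `e^{-2σ} ≤ 1/8`, `|b''| ≤ 2`),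
`2Kσ = s/50`, `σ ≤ s/100`.

* `pos_x0`: `rho t (x 0) ≤ 2δ`: `rho (F.f w o) t ≤ δ`, and `F.f_hor` for `o = pt 0 0`, `pt b'' 0`:
  `K (|b''|/2) + K ≤ 2K ≤ δ`.
* `pos_p`: `rho p (x ⌈σ⌉₊) ≤ δ`: `f_hor` from `pt b σ` to `pt b'' σ` (`|b - b''| e^{2σ}/2 = |κ|/2 ≤ 4`:
  `≤ 5K`) and `f_vert` from depth `σ` to `⌈σ⌉₊` (`≤ 2K`).
* `pos_tp`: `|rho t p - σ| ≤ 5δ` (unit speed between `x 0` and `x ⌈σ⌉₊`: `unit`, `⌈σ⌉₊ ≤ s`, and the two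
  previous).
* `pos_x`: for `j ≤ s`: `rho t (x j) ≤ j + 3δ`, and `rho (x j) (x n2) ≤ s - j + δ + 0`, and
  `rho (x n2) (x j) ≤ 2Kσ + δ` for `s < j ≤ n3` (`f_vert`: `K (n3 - n2) + K ≤ K (2σ + 4) + K`), so
  `rho (x j) g ≤ s - j + 2Kσ + 2δ` for `j ≤ s`.
* `pos_gp`: `gp t g p ≤ 7δ`: `gp t (x n2) p = (rho p t + rho p (x n2) - rho t (x n2))/2 ≤ 6δ`
  (`rho t (x n2) ≥ s - 4δ`, `rho p (x n2) ≤ s - σ + 3δ`), then `gp_stable` (with `gp_comm`), since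
  `rho p (x n2) - rho (x n2) g ≥ s - σ - 3δ - 2Kσ - δ > 7δ`.
* `pos_y0`: `rho t' (y 0) ≤ 3δ` (`cen'`, `f_hor`: `5K ≤ δ`).
* `pos_G`: `rho g G ≤ δ`: over `pt b'' n3` the sheets `w, w'` are at norm `≤ 1` (`meet`), so
  `rho g (F.f w' (pt b'' n3)) ≤ 2K` (`F.f_near`), and `f_vert` from `n3` to `s + 2σ` (`≤ 3`): `4K`.
* `pos_tg`: `|rho t' g - (s + σ)| ≤ 8δ`: `y 0`, `y ⌊s + σ⌋₊` (`unit'`), `f_vert` from `σ + ⌊s + σ⌋₊` to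
  `s + 2σ`, `pos_G`.
* `pos_z`: `|rho t' (y k) - k| ≤ 5δ` for `k ≤ s + σ`; in particular `|rho t' z - s/2| ≤ 6δ`;
  `rho (y k) (y l) ≤ |k - l| + 2δ`; `rho z g ≤ s/2 + σ + 5δ`.
* `pos_gt`: `gp t g t' ≤ 4δ`: `gpt`, `gp_comm`, `gp_change` and `pos_G`.
-/

set_option autoImplicit false

namespace Pool.Agent.FIB

open UpperHalfPlane MeasureTheory Set

variable {K : ℝ} {F : QM K} {s σ b κ δ : ℝ} {w w' : V} {t t' : ℍ}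

private theorem PPos_sc (hS : Sc K s σ δ) :
    1 ≤ K ∧ 100 * K ≤ δ ∧ 100000 * δ ≤ s ∧ K * σ = s / 100 ∧ 100000 ≤ σ ∧ σ ≤ s / 100 ∧
      Real.exp (-2 * σ) ≤ 1 / 8 := by
  have hK := hS.hK
  have hδ := hS.hδ
  have hs := hS.hs
  have hK0 : (0 : ℝ) < K := by linarith
  have h1 : K * σ = s / 100 := by
    rw [hS.hσ]
    field_simp
  have h2 : 100000 ≤ σ := by
    rw [hS.hσ, le_div_iff₀ (by positivity)]
    nlinarith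
  have h3 : σ ≤ s / 100 := by
    rw [← h1]
    nlinarith
  refine ⟨hK, hδ, hs, h1, h2, h3, ?_⟩
  have h4 : Real.exp (-2 * σ) = (Real.exp (2 * σ))⁻¹ := by
    rw [← Real.exp_neg]
    ring_nf
  have h5 : 2 * σ + 1 ≤ Real.exp (2 * σ) := Real.add_one_le_exp _
  rw [h4, inv_le_comm₀ (Real.exp_pos _) (by norm_num)]
  linarith

private theorem PPos_b2 (hS : Sc K s σ δ) (h : SG F s σ b κ δ w w' t t') :
    |b + κ * Real.exp (-2 * σ)| ≤ 2 := by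
  obtain ⟨_, _, _, _, _, _, h7⟩ := PPos_sc hS
  have h1 := h.hκ
  have h2 := h.hb
  have h3 : |κ * Real.exp (-2 * σ)| ≤ 1 := by
    rw [abs_mul, abs_of_pos (Real.exp_pos _)]
    nlinarith [abs_nonneg κ, Real.exp_pos (-2 * σ)]
  have h4 := abs_add_le b (κ * Real.exp (-2 * σ))
  linarith

private theorem PPos_hor (h : SG F s σ b κ δ w w' t t') :
    |b - (b + κ * Real.exp (-2 * σ))| * Real.exp (2 * σ) / 2 ≤ 4 := by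
  have h1 := h.hκ
  have h2 : |b - (b + κ * Real.exp (-2 * σ))| = |κ| * Real.exp (-2 * σ) := by
    rw [sub_add_cancel_left, abs_neg, abs_mul, abs_of_pos (Real.exp_pos _)]
  have h3 : Real.exp (-2 * σ) * Real.exp (2 * σ) = 1 := by
    rw [← Real.exp_add]
    simp
  rw [h2, mul_assoc, h3]
  linarith

private theorem PPos_x0 (hS : Sc K s σ δ) (h : SG F s σ b κ δ w w' t t') :
    rho t (xP F σ b κ w 0) ≤ 2 * δ := by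
  obtain ⟨hK, hδ, hs, _, _, _, _⟩ := PPos_sc hS
  have hb2 := PPos_b2 hS h
  have h1 := h.cen
  have h2 := F.f_hor (by linarith) w 0 (b + κ * Real.exp (-2 * σ)) 0
  have h3 : |0 - (b + κ * Real.exp (-2 * σ))| * Real.exp (2 * 0) / 2 ≤ 1 := by
    rw [zero_sub, abs_neg, mul_zero, Real.exp_zero, mul_one]
    linarith
  have h4 : K * (|0 - (b + κ * Real.exp (-2 * σ))| * Real.exp (2 * 0) / 2) ≤ K * 1 :=
    mul_le_mul_of_nonneg_left h3 (by linarith)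
  have h5 : xP F σ b κ w 0 = F.f w (pt (b + κ * Real.exp (-2 * σ)) 0) := by
    unfold xP
    rw [Nat.cast_zero]
  have h6 : F.f w (pt 0 0) = F.f w o := rfl
  rw [h5]
  rw [h6] at h2
  have h7 := rho_triangle t (F.f w o) (F.f w (pt (b + κ * Real.exp (-2 * σ)) 0))
  have e1 := rho_comm t (F.f w o)
  linarith

private theorem PPos_xx (h : SG F s σ b κ δ w w' t t') (i j : ℕ) (hi : (i : ℝ) ≤ s)
    (hj : (j : ℝ) ≤ s) :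
    abs (rho (xP F σ b κ w i) (xP F σ b κ w j) - |(i : ℝ) - j|) ≤ δ := by
  have h1 := h.unit i j hi hj
  simp only [zero_add] at h1
  exact h1

private theorem PPos_yy (h : SG F s σ b κ δ w w' t t') (i j : ℕ) (hi : (i : ℝ) ≤ s + σ)
    (hj : (j : ℝ) ≤ s + σ) :
    abs (rho (yP F σ b κ w' i) (yP F σ b κ w' j) - |(i : ℝ) - j|) ≤ 2 * δ :=
  h.unit' i j hi hj

private theorem PPos_xle (hS : Sc K s σ δ) (i j : ℕ) (hij : i ≤ j) (d : ℝ)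
    (hd : (j : ℝ) - i ≤ d) :
    rho (xP F σ b κ w i) (xP F σ b κ w j) ≤ K * d + K := by
  obtain ⟨hK, _, _, _, _, _, _⟩ := PPos_sc hS
  have h1 := F.f_vert w (b + κ * Real.exp (-2 * σ)) i j
  have h2 : |(i : ℝ) - j| ≤ d := by
    rw [abs_sub_comm, abs_of_nonneg]
    · exact hd
    · have : (i : ℝ) ≤ j := by exact_mod_cast hij
      linarith
  have h3 := mul_le_mul_of_nonneg_left h2 (by linarith : (0 : ℝ) ≤ K)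
  unfold xP
  linarith

private theorem PPos_y0 (hS : Sc K s σ δ) (h : SG F s σ b κ δ w w' t t') :
    rho t' (yP F σ b κ w' 0) ≤ 3 * δ := by
  obtain ⟨hK, hδ, hs, _, _, _, _⟩ := PPos_sc hS
  have h1 := h.cen'
  have h2 := F.f_hor (by linarith) w' b (b + κ * Real.exp (-2 * σ)) σ
  have h4 := mul_le_mul_of_nonneg_left (PPos_hor h) (by linarith : (0 : ℝ) ≤ K)
  have h5 : yP F σ b κ w' 0 = F.f w' (pt (b + κ * Real.exp (-2 * σ)) σ) := by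
    unfold yP
    rw [Nat.cast_zero, add_zero]
  rw [h5]
  have h7 := rho_triangle t' (F.f w' (pt b σ)) (F.f w' (pt (b + κ * Real.exp (-2 * σ)) σ))
  have e1 := rho_comm t' (F.f w' (pt b σ))
  linarith

/-- the index `⌊s⌋₊` -/
private theorem PPos_n2 (hS : Sc K s σ δ) : (⌊s⌋₊ : ℝ) ≤ s ∧ s < ⌊s⌋₊ + 1 := by
  obtain ⟨hK, hδ, hs, _, _, _, _⟩ := PPos_sc hS
  exact ⟨Nat.floor_le (by linarith), Nat.lt_floor_add_one s⟩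

private theorem PPos_n3 (hS : Sc K s σ δ) :
    s + 2 * σ + 2 ≤ (⌈s + 2 * σ + 2⌉₊ : ℝ) ∧ (⌈s + 2 * σ + 2⌉₊ : ℝ) < s + 2 * σ + 3 := by
  obtain ⟨hK, hδ, hs, _, h5, _, _⟩ := PPos_sc hS
  have h1 := Nat.le_ceil (s + 2 * σ + 2)
  have h2 := Nat.ceil_lt_add_one (by linarith : 0 ≤ s + 2 * σ + 2)
  exact ⟨h1, by linarith⟩

private theorem PPos_c (hS : Sc K s σ δ) : σ ≤ (⌈σ⌉₊ : ℝ) ∧ (⌈σ⌉₊ : ℝ) < σ + 1 := by
  obtain ⟨hK, hδ, hs, _, h5, _, _⟩ := PPos_sc hS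
  exact ⟨Nat.le_ceil σ, Nat.ceil_lt_add_one (by linarith)⟩

theorem pos_p (hS : Sc K s σ δ) (h : SG F s σ b κ δ w w' t t') :
    rho (F.f w (pt b σ)) (xP F σ b κ w ⌈σ⌉₊) ≤ δ ∧
      nm (F.f w (pt b σ)) (F.U w (pt b σ) - F.U w (pt (b + κ * Real.exp (-2 * σ)) ⌈σ⌉₊)) ≤
        Real.exp δ := by
  obtain ⟨hK, hδ, hs, _, _, _, _⟩ := PPos_sc hS
  obtain ⟨c1, c2⟩ := PPos_c hS
  have h1 := rho_pt_b b (b + κ * Real.exp (-2 * σ)) σ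
  have h2 := PPos_hor h
  have h3 : rho (pt (b + κ * Real.exp (-2 * σ)) σ) (pt (b + κ * Real.exp (-2 * σ)) ⌈σ⌉₊) ≤ 1 := by
    rw [rho_pt, abs_sub_comm, abs_of_nonneg (by linarith)]
    linarith
  have h4 := rho_triangle (pt b σ) (pt (b + κ * Real.exp (-2 * σ)) σ)
    (pt (b + κ * Real.exp (-2 * σ)) ⌈σ⌉₊)
  have h5 : rho (pt b σ) (pt (b + κ * Real.exp (-2 * σ)) ⌈σ⌉₊) ≤ 5 := by linarith
  have h6 := mul_le_mul_of_nonneg_left h5 (by linarith : (0 : ℝ) ≤ K)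
  constructor
  · have h7 := F.f_rho w (pt b σ) (pt (b + κ * Real.exp (-2 * σ)) ⌈σ⌉₊)
    unfold xP
    linarith
  · have h7 := F.U_rho w (pt b σ) (pt (b + κ * Real.exp (-2 * σ)) ⌈σ⌉₊)
    exact h7.trans (Real.exp_le_exp.2 (by linarith))

theorem pos_tp (hS : Sc K s σ δ) (h : SG F s σ b κ δ w w' t t') :
    |rho t (F.f w (pt b σ)) - σ| ≤ 5 * δ := by
  obtain ⟨hK, hδ, hs, hKσ, hσ1, hσ2, _⟩ := PPos_sc hS
  obtain ⟨c1, c2⟩ := PPos_c hS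
  have h1 := PPos_x0 hS h
  have h2 := (pos_p hS h).1
  have h3 := PPos_xx h 0 ⌈σ⌉₊ (by rw [Nat.cast_zero]; linarith) (by linarith)
  rw [Nat.cast_zero, zero_sub, abs_neg, abs_of_nonneg (by linarith : (0 : ℝ) ≤ (⌈σ⌉₊ : ℝ))] at h3
  have h3a := abs_le.1 h3
  have t1 := rho_triangle t (xP F σ b κ w 0) (F.f w (pt b σ))
  have t2 := rho_triangle (xP F σ b κ w 0) (xP F σ b κ w ⌈σ⌉₊) (F.f w (pt b σ))
  have t3 := rho_triangle (xP F σ b κ w 0) t (xP F σ b κ w ⌈σ⌉₊)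
  have t4 := rho_triangle t (F.f w (pt b σ)) (xP F σ b κ w ⌈σ⌉₊)
  have e1 := rho_comm (xP F σ b κ w ⌈σ⌉₊) (F.f w (pt b σ))
  have e2 := rho_comm (xP F σ b κ w 0) t
  rw [abs_le]
  constructor <;> linarith [h3a.1, h3a.2]

theorem pos_x (hS : Sc K s σ δ) (h : SG F s σ b κ δ w w' t t') (j : ℕ) (hj : (j : ℝ) ≤ s) :
    rho t (xP F σ b κ w j) ≤ j + 3 * δ ∧
      rho (xP F σ b κ w j) (xP F σ b κ w ⌈s + 2 * σ + 2⌉₊) ≤ s - j + 2 * K * σ + 2 * δ := by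
  obtain ⟨hK, hδ, hs, hKσ, hσ1, hσ2, _⟩ := PPos_sc hS
  obtain ⟨n1, n2⟩ := PPos_n2 hS
  obtain ⟨m1, m2⟩ := PPos_n3 hS
  constructor
  · have h1 := PPos_x0 hS h
    have h3 := PPos_xx h 0 j (by rw [Nat.cast_zero]; linarith) hj
    rw [Nat.cast_zero, zero_sub, abs_neg, Nat.abs_cast] at h3
    have h3a := abs_le.1 h3
    have t1 := rho_triangle t (xP F σ b κ w 0) (xP F σ b κ w j)
    linarith [h3a.2]
  · have hj1 : j ≤ ⌊s⌋₊ := Nat.le_floor hj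
    have hj2 : (j : ℝ) ≤ (⌊s⌋₊ : ℝ) := by exact_mod_cast hj1
    have h3 := PPos_xx h j ⌊s⌋₊ hj n1
    rw [abs_sub_comm (j : ℝ), abs_of_nonneg (by linarith : (0 : ℝ) ≤ (⌊s⌋₊ : ℝ) - j)] at h3
    have h3a := abs_le.1 h3
    have h4 : rho (xP F σ b κ w ⌊s⌋₊) (xP F σ b κ w ⌈s + 2 * σ + 2⌉₊) ≤ K * (2 * σ + 4) + K := by
      refine PPos_xle hS _ _ ?_ _ (by linarith)
      have : (⌊s⌋₊ : ℝ) ≤ (⌈s + 2 * σ + 2⌉₊ : ℝ) := by linarith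
      exact_mod_cast this
    have t1 := rho_triangle (xP F σ b κ w j) (xP F σ b κ w ⌊s⌋₊) (xP F σ b κ w ⌈s + 2 * σ + 2⌉₊)
    nlinarith [h3a.2]

theorem pos_x' (hS : Sc K s σ δ) (j : ℕ)
    (hj : s < j) (hj' : j ≤ ⌈s + 2 * σ + 2⌉₊) :
    rho (xP F σ b κ w ⌊s⌋₊) (xP F σ b κ w j) ≤ 2 * K * σ + δ := by
  obtain ⟨hK, hδ, hs, hKσ, hσ1, hσ2, _⟩ := PPos_sc hS
  obtain ⟨n1, n2⟩ := PPos_n2 hS
  obtain ⟨m1, m2⟩ := PPos_n3 hS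
  have hj2 : (j : ℝ) ≤ (⌈s + 2 * σ + 2⌉₊ : ℝ) := by exact_mod_cast hj'
  have h4 : rho (xP F σ b κ w ⌊s⌋₊) (xP F σ b κ w j) ≤ K * (2 * σ + 4) + K := by
    refine PPos_xle hS _ _ ?_ _ (by linarith)
    have : (⌊s⌋₊ : ℝ) ≤ (j : ℝ) := by linarith
    exact_mod_cast this
  nlinarith

theorem pos_gp (hS : Sc K s σ δ) (h : SG F s σ b κ δ w w' t t') :
    gp t (xP F σ b κ w ⌈s + 2 * σ + 2⌉₊) (F.f w (pt b σ)) ≤ 7 * δ := by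
  obtain ⟨hK, hδ, hs, hKσ, hσ1, hσ2, _⟩ := PPos_sc hS
  obtain ⟨n1, n2⟩ := PPos_n2 hS
  obtain ⟨c1, c2⟩ := PPos_c hS
  obtain ⟨m1, m2⟩ := PPos_n3 hS
  have hn2 : s < (⌊s⌋₊ : ℝ) + 1 := n2
  have h0 := PPos_x0 hS h
  have h1 := abs_le.1 (pos_tp hS h)
  have h2 := (pos_p hS h).1
  have h3 := PPos_xx h ⌈σ⌉₊ ⌊s⌋₊ (by linarith) n1
  rw [abs_sub_comm (⌈σ⌉₊ : ℝ), abs_of_nonneg (by linarith : (0 : ℝ) ≤ (⌊s⌋₊ : ℝ) - ⌈σ⌉₊)] at h3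
  have h3a := abs_le.1 h3
  have h4 := PPos_xx h 0 ⌊s⌋₊ (by rw [Nat.cast_zero]; linarith) n1
  rw [Nat.cast_zero, zero_sub, abs_neg, Nat.abs_cast] at h4
  have h4a := abs_le.1 h4
  have t1 := rho_triangle (F.f w (pt b σ)) (xP F σ b κ w ⌈σ⌉₊) (xP F σ b κ w ⌊s⌋₊)
  have t2 := rho_triangle (xP F σ b κ w ⌈σ⌉₊) (F.f w (pt b σ)) (xP F σ b κ w ⌊s⌋₊)
  have t3 := rho_triangle (xP F σ b κ w 0) t (xP F σ b κ w ⌊s⌋₊)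
  have e1 := rho_comm (xP F σ b κ w ⌈σ⌉₊) (F.f w (pt b σ))
  have e2 := rho_comm (xP F σ b κ w 0) t
  have e3 := rho_comm t (F.f w (pt b σ))
  have e4 := rho_comm t (xP F σ b κ w ⌊s⌋₊)
  have hg : gp (xP F σ b κ w ⌊s⌋₊) t (F.f w (pt b σ)) ≤ 6 * δ := by
    unfold gp
    rw [← e4]
    linarith [h1.2, h3a.2, h4a.1]
  have h5 : rho (xP F σ b κ w ⌊s⌋₊) (xP F σ b κ w ⌈s + 2 * σ + 2⌉₊) ≤ 2 * K * σ + δ := by
    refine pos_x' hS _ ?_ le_rfl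
    linarith
  have h6 : 2 * K * σ = s / 50 := by linarith
  have h7 := gp_stable (a' := xP F σ b κ w ⌈s + 2 * σ + 2⌉₊) hg (by linarith [h3a.1])
  rw [gp_comm] at h7
  linarith

theorem pos_G (hS : Sc K s σ δ) (h : SG F s σ b κ δ w w' t t') :
    rho (xP F σ b κ w ⌈s + 2 * σ + 2⌉₊)
      (F.f w' (pt (b + κ * Real.exp (-2 * σ)) (s + 2 * σ))) ≤ δ := by
  obtain ⟨hK, hδ, hs, hKσ, hσ1, hσ2, _⟩ := PPos_sc hS
  obtain ⟨m1, m2⟩ := PPos_n3 hS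
  have h1 := F.f_near (by linarith) w w' _ (h.meet _ m1)
  have h2 := F.f_vert w' (b + κ * Real.exp (-2 * σ)) (⌈s + 2 * σ + 2⌉₊ : ℝ) (s + 2 * σ)
  have h3 : |(⌈s + 2 * σ + 2⌉₊ : ℝ) - (s + 2 * σ)| ≤ 3 := by
    rw [abs_of_nonneg (by linarith)]
    linarith
  have h4 := mul_le_mul_of_nonneg_left h3 (by linarith : (0 : ℝ) ≤ K)
  have t1 := rho_triangle (xP F σ b κ w ⌈s + 2 * σ + 2⌉₊)
    (F.f w' (pt (b + κ * Real.exp (-2 * σ)) (⌈s + 2 * σ + 2⌉₊ : ℝ)))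
    (F.f w' (pt (b + κ * Real.exp (-2 * σ)) (s + 2 * σ)))
  have h5 : rho (xP F σ b κ w ⌈s + 2 * σ + 2⌉₊)
    (F.f w' (pt (b + κ * Real.exp (-2 * σ)) (⌈s + 2 * σ + 2⌉₊ : ℝ))) ≤ 2 * K := h1
  linarith

theorem pos_tg (hS : Sc K s σ δ) (h : SG F s σ b κ δ w w' t t') :
    |rho t' (xP F σ b κ w ⌈s + 2 * σ + 2⌉₊) - (s + σ)| ≤ 8 * δ := by
  obtain ⟨hK, hδ, hs, hKσ, hσ1, hσ2, _⟩ := PPos_sc hS
  have hN1 : (⌊s + σ⌋₊ : ℝ) ≤ s + σ := Nat.floor_le (by linarith)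
  have hN2 : s + σ < (⌊s + σ⌋₊ : ℝ) + 1 := Nat.lt_floor_add_one _
  have h1 := PPos_y0 hS h
  have h2 := PPos_yy h 0 ⌊s + σ⌋₊ (by rw [Nat.cast_zero]; linarith) hN1
  rw [Nat.cast_zero, zero_sub, abs_neg, Nat.abs_cast] at h2
  have h2a := abs_le.1 h2
  have h3 := F.f_vert w' (b + κ * Real.exp (-2 * σ)) (σ + (⌊s + σ⌋₊ : ℝ)) (s + 2 * σ)
  have h4 : |(σ + (⌊s + σ⌋₊ : ℝ)) - (s + 2 * σ)| ≤ 1 := by
    rw [abs_sub_comm, abs_of_nonneg (by linarith)]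
    linarith
  have h5 := mul_le_mul_of_nonneg_left h4 (by linarith : (0 : ℝ) ≤ K)
  have h6 : rho (yP F σ b κ w' ⌊s + σ⌋₊)
      (F.f w' (pt (b + κ * Real.exp (-2 * σ)) (s + 2 * σ))) ≤ 2 * K := by
    unfold yP
    linarith
  have h7 := pos_G hS h
  have t1 := rho_triangle (yP F σ b κ w' ⌊s + σ⌋₊)
    (F.f w' (pt (b + κ * Real.exp (-2 * σ)) (s + 2 * σ))) (xP F σ b κ w ⌈s + 2 * σ + 2⌉₊)
  have e1 := rho_comm (F.f w' (pt (b + κ * Real.exp (-2 * σ)) (s + 2 * σ)))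
    (xP F σ b κ w ⌈s + 2 * σ + 2⌉₊)
  have e2 := rho_comm (yP F σ b κ w' 0) t'
  have e3 := rho_comm (xP F σ b κ w ⌈s + 2 * σ + 2⌉₊) (yP F σ b κ w' ⌊s + σ⌋₊)
  have t2 := rho_triangle t' (yP F σ b κ w' 0) (xP F σ b κ w ⌈s + 2 * σ + 2⌉₊)
  have t3 := rho_triangle (yP F σ b κ w' 0) (yP F σ b κ w' ⌊s + σ⌋₊)
    (xP F σ b κ w ⌈s + 2 * σ + 2⌉₊)
  have t4 := rho_triangle (yP F σ b κ w' 0) t' (yP F σ b κ w' ⌊s + σ⌋₊)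
  have t5 := rho_triangle t' (xP F σ b κ w ⌈s + 2 * σ + 2⌉₊) (yP F σ b κ w' ⌊s + σ⌋₊)
  rw [abs_le]
  constructor <;> linarith [h2a.1, h2a.2]

theorem pos_y (hS : Sc K s σ δ) (h : SG F s σ b κ δ w w' t t') (k : ℕ) (hk : (k : ℝ) ≤ s + σ) :
    |rho t' (yP F σ b κ w' k) - k| ≤ 5 * δ := by
  obtain ⟨hK, hδ, hs, hKσ, hσ1, hσ2, _⟩ := PPos_sc hS
  have h1 := PPos_y0 hS h
  have h2 := PPos_yy h 0 k (by rw [Nat.cast_zero]; linarith) hk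
  rw [Nat.cast_zero, zero_sub, abs_neg, Nat.abs_cast] at h2
  have h2a := abs_le.1 h2
  have e2 := rho_comm (yP F σ b κ w' 0) t'
  have t2 := rho_triangle t' (yP F σ b κ w' 0) (yP F σ b κ w' k)
  have t4 := rho_triangle (yP F σ b κ w' 0) t' (yP F σ b κ w' k)
  rw [abs_le]
  constructor <;> linarith [h2a.1, h2a.2]

theorem pos_zg (hS : Sc K s σ δ) (h : SG F s σ b κ δ w w' t t') :
    rho (yP F σ b κ w' ⌊s / 2⌋₊) (xP F σ b κ w ⌈s + 2 * σ + 2⌉₊) ≤ s / 2 + σ + 5 * δ := by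
  obtain ⟨hK, hδ, hs, hKσ, hσ1, hσ2, _⟩ := PPos_sc hS
  have hN1 : (⌊s + σ⌋₊ : ℝ) ≤ s + σ := Nat.floor_le (by linarith)
  have hN2 : s + σ < (⌊s + σ⌋₊ : ℝ) + 1 := Nat.lt_floor_add_one _
  have hm1 : (⌊s / 2⌋₊ : ℝ) ≤ s / 2 := Nat.floor_le (by linarith)
  have hm2 : s / 2 < (⌊s / 2⌋₊ : ℝ) + 1 := Nat.lt_floor_add_one _
  have h2 := PPos_yy h ⌊s / 2⌋₊ ⌊s + σ⌋₊ (by linarith) hN1
  rw [abs_sub_comm (⌊s / 2⌋₊ : ℝ),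
    abs_of_nonneg (by linarith : (0 : ℝ) ≤ (⌊s + σ⌋₊ : ℝ) - ⌊s / 2⌋₊)] at h2
  have h2a := abs_le.1 h2
  have h3 := F.f_vert w' (b + κ * Real.exp (-2 * σ)) (σ + (⌊s + σ⌋₊ : ℝ)) (s + 2 * σ)
  have h4 : |(σ + (⌊s + σ⌋₊ : ℝ)) - (s + 2 * σ)| ≤ 1 := by
    rw [abs_sub_comm, abs_of_nonneg (by linarith)]
    linarith
  have h5 := mul_le_mul_of_nonneg_left h4 (by linarith : (0 : ℝ) ≤ K)
  have h6 : rho (yP F σ b κ w' ⌊s + σ⌋₊)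
      (F.f w' (pt (b + κ * Real.exp (-2 * σ)) (s + 2 * σ))) ≤ 2 * K := by
    unfold yP
    linarith
  have h7 := pos_G hS h
  have t1 := rho_triangle (yP F σ b κ w' ⌊s + σ⌋₊)
    (F.f w' (pt (b + κ * Real.exp (-2 * σ)) (s + 2 * σ))) (xP F σ b κ w ⌈s + 2 * σ + 2⌉₊)
  have e1 := rho_comm (F.f w' (pt (b + κ * Real.exp (-2 * σ)) (s + 2 * σ)))
    (xP F σ b κ w ⌈s + 2 * σ + 2⌉₊)
  have t3 := rho_triangle (yP F σ b κ w' ⌊s / 2⌋₊) (yP F σ b κ w' ⌊s + σ⌋₊)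
    (xP F σ b κ w ⌈s + 2 * σ + 2⌉₊)
  linarith [h2a.2]

theorem pos_gt (hS : Sc K s σ δ) (h : SG F s σ b κ δ w w' t t') :
    gp t (xP F σ b κ w ⌈s + 2 * σ + 2⌉₊) t' ≤ 4 * δ := by
  obtain ⟨hK, hδ, hs, hKσ, hσ1, hσ2, _⟩ := PPos_sc hS
  have h1 := h.gpt
  have h2 := pos_G hS h
  have h3 := gp_change (xP F σ b κ w ⌈s + 2 * σ + 2⌉₊)
    (F.f w' (pt (b + κ * Real.exp (-2 * σ)) (s + 2 * σ))) t t'
  rw [gp_comm t] at h1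
  rw [gp_comm t]
  linarith

end Pool.Agent.FIB
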