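import Pool.Agent.FIB.PMz
import Pool.Agent.FIB.Tel

/-!
# Part C1, selection of a typical sheet of the second plane

Sorry-free given the imports (helper9).
-/

set_option autoImplicit false

namespace Pool.Agent.FIB

open UpperHalfPlane MeasureTheory Set

private lemma PSel_sqrt {x : ENNReal} {ε : ℝ} (hε : 0 < ε) (h : x * x ≤ ENNReal.ofReal ε) :
    x ≤ ENNReal.ofReal (Real.sqrt ε) := by
  by_contra h3
  rw [not_le] at h3
  have h4 := ENNReal.mul_lt_mul h3 h3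
  have h5 : ENNReal.ofReal (Real.sqrt ε) * ENNReal.ofReal (Real.sqrt ε) = ENNReal.ofReal ε := by
    rw [← ENNReal.ofReal_mul (Real.sqrt_nonneg ε), Real.mul_self_sqrt hε.le]
  rw [h5] at h4
  exact absurd h (not_le.2 h4)

private lemma PSel_five {D A1 A2 A3 A4 A5 : Set V} (hD : volume D = 1)
    (h1 : volume A1 ≤ ENNReal.ofReal (1 / 10)) (h2 : volume A2 ≤ ENNReal.ofReal (1 / 10))
    (h3 : volume A3 ≤ ENNReal.ofReal (1 / 10)) (h4 : volume A4 ≤ ENNReal.ofReal (1 / 10))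
    (h5 : volume A5 ≤ ENNReal.ofReal (1 / 10)) :
    ∃ u ∈ D, u ∉ A1 ∧ u ∉ A2 ∧ u ∉ A3 ∧ u ∉ A4 ∧ u ∉ A5 := by
  by_contra hcon
  push Not at hcon
  have hsub : D ⊆ A1 ∪ (A2 ∪ (A3 ∪ (A4 ∪ A5))) := by
    intro u hu
    by_contra hu'
    simp only [Set.mem_union, not_or] at hu'
    obtain ⟨a1, a2, a3, a4, a5⟩ := hu'
    exact a5 (hcon u hu a1 a2 a3 a4)
  have hv : volume D ≤ ENNReal.ofReal (1 / 10) + (ENNReal.ofReal (1 / 10) +
      (ENNReal.ofReal (1 / 10) + (ENNReal.ofReal (1 / 10) + ENNReal.ofReal (1 / 10)))) := by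
    refine (measure_mono hsub).trans ?_
    refine (measure_union_le _ _).trans (add_le_add h1 ?_)
    refine (measure_union_le _ _).trans (add_le_add h2 ?_)
    refine (measure_union_le _ _).trans (add_le_add h3 ?_)
    exact (measure_union_le _ _).trans (add_le_add h4 h5)
  have h0 : (0 : ℝ) ≤ 1 / 10 := by norm_num
  rw [← ENNReal.ofReal_add h0 h0, ← ENNReal.ofReal_add h0 (by norm_num),
    ← ENNReal.ofReal_add h0 (by norm_num), ← ENNReal.ofReal_add h0 (by norm_num), hD,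
    ← ENNReal.ofReal_one, ENNReal.ofReal_le_ofReal_iff (by norm_num)] at hv
  norm_num at hv

/-- The Gromov product condition is measurable. -/
private lemma PSel_gp {K : ℝ} (G : QM K) (S e : ℝ) (t' : ℍ) :
    MeasurableSet {q : V × ℝ × ℝ | e < gp (G.f (Real.exp S • q.1) (pt q.2.1 S))
      (G.f (Real.exp S • q.1) (pt q.2.2 S)) t'} := by
  have h := G.measSet (Ω := V × ℝ × ℝ) (ι := Bool) (fun _ q => Real.exp S • q.1)
    (fun i q => cond i (pt q.2.1 S) (pt q.2.2 S)) (fun _ => by fun_prop)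
    (fun i => by
      cases i
      · exact measurable_pt' (measurable_snd.comp measurable_snd) measurable_const
      · exact measurable_pt' (measurable_fst.comp measurable_snd) measurable_const)
    (fun v => e < gp (v true).2 (v false).2 t')
  exact h

private lemma PSel_nm {K : ℝ} (F : QM K) (s σ b c : ℝ) (t' : ℍ) :
    MeasurableSet {q : V × V | nm t' (F.U (Real.exp s • q.2) (pt b σ) -
      F.U (wh s σ b q.1) (pt b σ)) < c} := by
  have h := F.measSet (Ω := V × V) (ι := Bool)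
    (fun i q => cond i (Real.exp s • q.2) (wh s σ b q.1))
    (fun _ _ => pt b σ)
    (fun i => by
      cases i
      · exact (measurable_wh s σ b).comp measurable_fst
      · exact measurable_snd.const_smul (Real.exp s))
    (fun _ => measurable_const)
    (fun v => nm t' ((v true).1 - (v false).1) < c)
  exact h

/-- **Selection.**  `b` is fixed, `G = F.tr 0 (fr b σ)`, `S = s + σ`.  The hypotheses `hB1`-`hB4` are the
clauses of `StB` for `G` and `S` (the last one only with the lower bound), `hT` says that `b` is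
typical for the unit speed in the first plane.  There is `uh ∈ Dh` which is typical in all
respects.

PROOF.  Each of the following five subsets of `Dh` has measure `≤ 1/10`; as `volume Dh = 1`, there is
`uh ∈ Dh` outside all of them (`measure_union_le`; if `Dh` were contained in the union its measure would
be `≤ 1/2`).
1. `{uh ∈ Dh | ε0 S < rho (G.f (e^S uh) o) t'}`: measure `≤ ε0` (`hB1`, `Dh_sub`); then use `tr_fr_f_o`.
2. `{uh ∈ Dh | ofReal η < volume {κ ∈ Icc (-8) 8 | ¬ UnitP ..}}`: `markov_fubini` for the set of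
   `hB2` intersected with `q.1 ∈ Dh` (`measurableSet_unitP`): measure `≤ 1/10` as `ε0 ≤ (1/10) η`.
3. `{uh ∈ Dh | ofReal (η^2) < volume {q : ℝ × ℝ | ..}}`: `markov_fubini` (`α = V`, `β = ℝ × ℝ`) for the set
   of `hB3`: `≤ 1/10` as `ε0 ≤ (1/10) η^2`.
4. `{uh ∈ Dh | ofReal η < volume {u ∈ box 4 | ¬ UnitP ..}}`: `markov_fubini` for the set of `hT`:
   `≤ 1/10`.
5. `{uh ∈ Dh | ofReal η < volume {u ∈ box 4 | nm t' (..) < ..}}`: For EVERY fixed `u` the set
   `A = {uh ∈ Dh | nm t' (F.U (e^s u) (pt b σ) - F.U (wh s σ b uh) (pt b σ)) < e^{(1-ε0) S}/2}` satisfies: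
   for `uh, uh' ∈ A`, `nm t' (F.U (wh uh) (pt b σ) - F.U (wh uh') (pt b σ)) < e^{(1-ε0) S}`
   (`nm_sub_le'`, `nm_sub_comm`), so (`tr_fr_U_o`) `(uh, uh')` is in the set of `hB4`; `square_le` gives
   `volume A * volume A ≤ ε0`, so `volume A ≤ √ε0`.  By `fiber_le_symm` the set
   `{(uh, u) | uh ∈ Dh, u ∈ box 4, nm t' (..) < ..}` (measurable by `F.measSet`) has measure
   `≤ √ε0 * 64 ≤ (1/10) η` (`hε2`); `markov_fubini`. -/
theorem select {K : ℝ} (F : QM K) {s σ b ε0 η : ℝ} (hε0 : 0 < ε0) (hη : 0 < η) (hη1 : η ≤ 1)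
    (hε1 : ε0 ≤ η ^ 2 / 10) (hε2 : 64 * Real.sqrt ε0 ≤ η / 10) (t' : ℍ)
    (hB1 : volume {u : V | u ∈ box 8 ∧
      ε0 * (s + σ) < rho ((F.tr 0 (fr b σ)).f (Real.exp (s + σ) • u) o) t'} ≤ ENNReal.ofReal ε0)
    (hB2 : volume {q : V × ℝ | q.1 ∈ box 8 ∧ q.2 ∈ Icc (-8) 8 ∧
      ¬ UnitP (F.tr 0 (fr b σ)) (Real.exp (s + σ) • q.1) q.2 0 (s + σ) (ε0 * (s + σ))} ≤
        ENNReal.ofReal ε0)
    (hB3 : volume {q : V × ℝ × ℝ | q.1 ∈ box 8 ∧ q.2.1 ∈ Icc (-8) 8 ∧ q.2.2 ∈ Icc (-8) 8 ∧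
      ε0 * (s + σ) < gp ((F.tr 0 (fr b σ)).f (Real.exp (s + σ) • q.1) (pt q.2.1 (s + σ)))
        ((F.tr 0 (fr b σ)).f (Real.exp (s + σ) • q.1) (pt q.2.2 (s + σ))) t'} ≤
          ENNReal.ofReal ε0)
    (hB4 : volume {q : V × V | q.1 ∈ box 8 ∧ q.2 ∈ box 8 ∧
      nm t' ((F.tr 0 (fr b σ)).U (Real.exp (s + σ) • q.1) o -
        (F.tr 0 (fr b σ)).U (Real.exp (s + σ) • q.2) o) < Real.exp ((1 - ε0) * (s + σ))} ≤
        ENNReal.ofReal ε0)
    (hT : volume {q : V × V | q.1 ∈ Dh ∧ q.2 ∈ box 4 ∧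
      ¬ UnitP F (Real.exp s • q.2) (bb σ b q.2 q.1) 0 s (ε0 * s)} ≤ ENNReal.ofReal (η / 10)) :
    ∃ uh ∈ Dh, rho (F.f (wh s σ b uh) (pt b σ)) t' ≤ ε0 * (s + σ) ∧
      volume {κ : ℝ | κ ∈ Icc (-8) 8 ∧
        ¬ UnitP (F.tr 0 (fr b σ)) (Real.exp (s + σ) • uh) κ 0 (s + σ) (ε0 * (s + σ))} ≤
          ENNReal.ofReal η ∧
      volume {q : ℝ × ℝ | q.1 ∈ Icc (-8) 8 ∧ q.2 ∈ Icc (-8) 8 ∧
        ε0 * (s + σ) < gp ((F.tr 0 (fr b σ)).f (Real.exp (s + σ) • uh) (pt q.1 (s + σ)))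
          ((F.tr 0 (fr b σ)).f (Real.exp (s + σ) • uh) (pt q.2 (s + σ))) t'} ≤
            ENNReal.ofReal (η ^ 2) ∧
      volume {u : V | u ∈ box 4 ∧ ¬ UnitP F (Real.exp s • u) (bb σ b u uh) 0 s (ε0 * s)} ≤
        ENNReal.ofReal η ∧
      volume {u : V | u ∈ box 4 ∧ nm t' (F.U (Real.exp s • u) (pt b σ) -
        F.U (wh s σ b uh) (pt b σ)) < Real.exp ((1 - ε0) * (s + σ)) / 2} ≤ ENNReal.ofReal η := by
  have hη2 : η ^ 2 ≤ η := by nlinarith
  have hη3 : 0 < η ^ 2 := by positivity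
  have h10 : (0 : ℝ) ≤ 1 / 10 := by norm_num
  have hDm : MeasurableSet Dh := measurableSet_Dh
  have h8 : MeasurableSet (Icc (-8 : ℝ) 8) := measurableSet_Icc
  -- the five sets
  have H1 : volume {u : V | u ∈ box 8 ∧
      ε0 * (s + σ) < rho ((F.tr 0 (fr b σ)).f (Real.exp (s + σ) • u) o) t'} ≤
      ENNReal.ofReal (1 / 10) :=
    hB1.trans (ENNReal.ofReal_le_ofReal (by linarith))
  have H2 : volume {a : V | ENNReal.ofReal η < volume {κ : ℝ | (a, κ) ∈
      {q : V × ℝ | q.1 ∈ Dh ∧ q.2 ∈ Icc (-8) 8 ∧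
      ¬ UnitP (F.tr 0 (fr b σ)) (Real.exp (s + σ) • q.1) q.2 0 (s + σ) (ε0 * (s + σ))}}} ≤
      ENNReal.ofReal (1 / 10) := by
    refine markov_fubini ?_ hη h10 ?_
    · refine (measurable_fst hDm).inter ((measurable_snd h8).inter ?_)
      exact (measurableSet_unitP (F.tr 0 (fr b σ)) (by fun_prop) measurable_snd 0 (s + σ)
        (ε0 * (s + σ))).compl
    · refine (measure_mono ?_).trans (hB2.trans (ENNReal.ofReal_le_ofReal (by linarith)))
      rintro q ⟨hq1, hq2, hq3⟩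
      exact ⟨Dh_sub hq1, hq2, hq3⟩
  have H3 : volume {a : V | ENNReal.ofReal (η ^ 2) < volume {p : ℝ × ℝ | (a, p) ∈
      {q : V × ℝ × ℝ | q.1 ∈ Dh ∧ q.2.1 ∈ Icc (-8) 8 ∧ q.2.2 ∈ Icc (-8) 8 ∧
      ε0 * (s + σ) < gp ((F.tr 0 (fr b σ)).f (Real.exp (s + σ) • q.1) (pt q.2.1 (s + σ)))
        ((F.tr 0 (fr b σ)).f (Real.exp (s + σ) • q.1) (pt q.2.2 (s + σ))) t'}}} ≤
      ENNReal.ofReal (1 / 10) := by
    refine markov_fubini ?_ hη3 h10 ?_
    · refine (measurable_fst hDm).inter (((measurable_fst.comp measurable_snd) h8).inter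
        (((measurable_snd.comp measurable_snd) h8).inter ?_))
      exact PSel_gp (F.tr 0 (fr b σ)) (s + σ) (ε0 * (s + σ)) t'
    · refine (measure_mono ?_).trans (hB3.trans (ENNReal.ofReal_le_ofReal (by linarith)))
      rintro q ⟨hq1, hq2, hq3⟩
      exact ⟨Dh_sub hq1, hq2, hq3⟩
  have H4 : volume {a : V | ENNReal.ofReal η < volume {u : V | (a, u) ∈
      {q : V × V | q.1 ∈ Dh ∧ q.2 ∈ box 4 ∧
      ¬ UnitP F (Real.exp s • q.2) (bb σ b q.2 q.1) 0 s (ε0 * s)}}} ≤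
      ENNReal.ofReal (1 / 10) := by
    refine markov_fubini ?_ hη h10 (hT.trans (ENNReal.ofReal_le_ofReal (by linarith)))
    refine (measurable_fst hDm).inter ((measurable_snd (measurableSet_box 4)).inter ?_)
    exact (measurableSet_unitP F (measurable_snd.const_smul (Real.exp s))
      (measurable_bb σ measurable_const measurable_snd measurable_fst) 0 s (ε0 * s)).compl
  have H5 : volume {a : V | ENNReal.ofReal η < volume {u : V | (a, u) ∈
      {q : V × V | q.2 ∈ box 4 ∧ q ∈ {q : V × V | q.1 ∈ Dh ∧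
        nm t' (F.U (Real.exp s • q.2) (pt b σ) - F.U (wh s σ b q.1) (pt b σ)) <
          Real.exp ((1 - ε0) * (s + σ)) / 2}}}} ≤ ENNReal.ofReal (1 / 10) := by
    have hSm : MeasurableSet {q : V × V | q.1 ∈ Dh ∧
        nm t' (F.U (Real.exp s • q.2) (pt b σ) - F.U (wh s σ b q.1) (pt b σ)) <
          Real.exp ((1 - ε0) * (s + σ)) / 2} :=
      (measurable_fst hDm).inter (PSel_nm F s σ b (Real.exp ((1 - ε0) * (s + σ)) / 2) t')
    refine markov_fubini ((measurable_snd (measurableSet_box 4)).inter hSm) hη h10 ?_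
    refine (fiber_le_symm hSm (measurableSet_box 4) (ε := Real.sqrt ε0) ?_).trans ?_
    · intro u _
      refine PSel_sqrt hε0 ((square_le (S := {q : V × V | q.1 ∈ box 8 ∧ q.2 ∈ box 8 ∧
        nm t' ((F.tr 0 (fr b σ)).U (Real.exp (s + σ) • q.1) o -
        (F.tr 0 (fr b σ)).U (Real.exp (s + σ) • q.2) o) < Real.exp ((1 - ε0) * (s + σ))})
        ?_).trans hB4)
      rintro a ⟨ha1, ha2⟩ c ⟨hc1, hc2⟩
      refine ⟨Dh_sub ha1, Dh_sub hc1, ?_⟩
      show nm t' ((F.tr 0 (fr b σ)).U (Real.exp (s + σ) • a) o -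
        (F.tr 0 (fr b σ)).U (Real.exp (s + σ) • c) o) < Real.exp ((1 - ε0) * (s + σ))
      rw [tr_fr_U_o, tr_fr_U_o]
      have ha3 : nm t' (F.U (Real.exp s • u) (pt b σ) - F.U (wh s σ b a) (pt b σ)) <
          Real.exp ((1 - ε0) * (s + σ)) / 2 := ha2
      have hc3 : nm t' (F.U (Real.exp s • u) (pt b σ) - F.U (wh s σ b c) (pt b σ)) <
          Real.exp ((1 - ε0) * (s + σ)) / 2 := hc2
      have h6 := nm_sub_le' t' (F.U (wh s σ b a) (pt b σ)) (F.U (Real.exp s • u) (pt b σ))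
        (F.U (wh s σ b c) (pt b σ))
      rw [nm_sub_comm t' (F.U (wh s σ b a) (pt b σ)) (F.U (Real.exp s • u) (pt b σ))] at h6
      linarith
    · rw [volume_box4, ← ENNReal.ofReal_mul (Real.sqrt_nonneg ε0)]
      exact ENNReal.ofReal_le_ofReal (by linarith)
  obtain ⟨uh, huh, g1, g2, g3, g4, g5⟩ := PSel_five volume_Dh H1 H2 H3 H4 H5
  refine ⟨uh, huh, ?_, ?_, ?_, ?_, ?_⟩
  · rw [← tr_fr_f_o]
    by_contra h
    rw [not_le] at h
    exact g1 ⟨Dh_sub huh, h⟩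
  · rw [Set.mem_ofPred_eq, not_lt] at g2
    refine (measure_mono ?_).trans g2
    rintro κ ⟨h1, h2⟩
    exact ⟨huh, h1, h2⟩
  · rw [Set.mem_ofPred_eq, not_lt] at g3
    refine (measure_mono ?_).trans g3
    rintro p ⟨h1, h2⟩
    exact ⟨huh, h1, h2⟩
  · rw [Set.mem_ofPred_eq, not_lt] at g4
    refine (measure_mono ?_).trans g4
    rintro u ⟨h1, h2⟩
    exact ⟨huh, h1, h2⟩
  · rw [Set.mem_ofPred_eq, not_lt] at g5
    refine (measure_mono ?_).trans g5
    rintro u ⟨h1, h2⟩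
    exact ⟨h1, huh, h2⟩

end Pool.Agent.FIB
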