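import Pool.Agent.FIB.BNat
import Pool.Agent.FIB.BEnl
import Pool.Agent.FIB.PartBz

/-!
# Part B of the proof for MP_84ef61_al: `StT K → StB K`  (COMPLETE FILE)
-/

set_option autoImplicit false

namespace Pool.Agent.FIB

theorem partB (K : ℝ) (hK : 1 ≤ K) (hT : StT K) : StB K :=
  partB_of_StB0 K hK (b_enl K hK (b_nat K hK hT))

end Pool.Agent.FIB
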