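import Pool.Agent.FIB.Iface

/-!
# Written proof: quasi-isometric embeddings of `X = ℝ² × ℍ` coarsely preserve the fibres `ℝ² × {x}`

(helper31, 3 Dec.)  Notation of `FIB/Defs.lean`, statements of `FIB/Iface.lean`. `K ≥ 1` is fixed. `F : QM K`.
`C` denotes constants depending on `K` only (they change from line to line), `e` an error bound, usually
`e = C ε s`, typical (parameters) = outside a set of parameters of measure `≤ C ε` (after
renaming `ε`). All classes are invariant under `F ↦ F.tr w0 g`, so everything proved at `o` and `w0 = 0`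
holds at every base point / in every frame; `F.tr w0 (fr b j)`:
`(F.tr w0 (fr b j)).f (x, y) (pt κ τ) = F.f (w0 + (e^{-j} x + b e^{j} y, e^{j} y)) (pt (b + κ e^{-2j}) (j + τ))`.
Enlarging domains: passing to `F.tr 0 (fr 0 (-h))` (base point `pt 0 (-h)` above `o`) the range `[-8,8]`
of directions at `o` becomes `[-8 e^{-2h}, 8 e^{-2h}]`, the plane `e^s box 8` becomes a subset of `e^{s+h} box 8`, depths
are shifted by `h`; with `h = 2` or `3` any of the ranges 1, 2, 4, 8 can be exchanged for another at the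
price of a constant factor in `ε`.

## 0. Tools

(4P) `fourpt`, (4PV) `four_vec_or` : for `x y z : ℍ`, `v : V`:
`rho x z + log nm y v ≤ max (rho x y + log nm z v) (rho y z + log nm x v) + log 4`. So a vector `v` behaves like
a boundary point, with `log (nm · v)` as its Busemann function. Use of (4PV): if `y` is between `x` and `z`
(`gp x z y ≤ e`) and `log nm y v` is NOT `≤ log nm x v - rho x y + (2e + C)` then `log nm z v ≥ log nm y v + rho y z - (2e + C)`
(if `v` does not contract fully from `x` to `y`, it expands fully from `y` to `z`).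

(IS) increments: if `nm (p k) (U (k+1) - U k) ≤ E` for `m ≤ k < n` and `rho z (p k) ≤ M` then
`nm z (U n - U m) ≤ (n - m) E e^M`.

(GR) growth lemma. Two sheets `(p, U), (p', U') : ℕ → ℍ × V` (position, vector), `0 ≤ k ≤ n`, which meet at `k = 0`.
Hypotheses, `e ≥ K`, `log (4n+4) ≤ e`, `C e ≤ n`:
 * unit steps: `nm (p k) (U (k+1) - U k) ≤ e^{2K}` and the same for `(p', U')`;
 * `nm (p 0) (U 0 - U' 0) ≤ e^{e}`;
 * `rho (p k) (p' k) ≤ e` for `k ≤ n`;
 * `|rho (p k) (p l) - c |k - l|| ≤ e`, `1/(4K) ≤ c ≤ 2K`;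
 * separation: `k / K - e ≤ K (rho (p k) (p' k) + log (1 + nm (p k) (U k - U' k)))`.
Conclusion for `W = U n - U' n`, `y = p n`: `nm y W ≥ exp (c n - C e)`, and for every `z` with `gp (p 0) z y ≤ c n / 4`:
`nm z W ≥ exp (c n + rho y z - 2 gp (p 0) z y - C e)`; and for every `z`: `nm z W ≤ exp (max_k rho z (p k) + C e)`.
Proof. The upper bound is (IS). Let `λ0 = C1 e` and `W_k = U k - U' k`. At `y0 = p λ0`: by separation
`log nm y0 W_λ0 ≥ C2 e` (`C2` large if `C1` is). With `x0 = p (λ0/2)`, (IS) gives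
`log nm x0 W_λ0 ≤ c λ0/2 + C e`, so (4PV) for `x0, y0, z = p n` shows (first alternative)
`log nm y W_λ0 ≥ C2 e + c (n - λ0) - C e`; the other increments give `nm y (W_n - W_λ0) ≤ e^{c (n - λ0) + C e}`, which is smaller:
`log nm y W ≥ c (n - λ0) ≥ c n - C e`. Then for general `z`: `x = p (n/2)`, `log nm x W ≤ c n/2 + C e`;
`gp x z y ≤ gp (p 0) z y + 1/2` (`gp_min`, as `gp (p 0) x y ≥ c n/2 - e`), (4PV) for `x, y, z`: the second alternative
would give `gp x z y ≥ c n/2 - C e`; so the first holds, which is the claim.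

(SP) same position: `same_pos`; `center_unique`; `gp_stable`; `concat3`; `chain`; `path_near`; `exists_geod`.

(PA) pairs to all: if `vol {(b,b') ∈ B² : gp (g b) (g b') t > e} ≤ ε^2` then for EVERY `q : ℍ`
`vol {b ∈ B : gp q (g b) t > e + 1} ≤ ε` (`gp_min` and `square_le`).

(TE) telescoping: for `p_0, …, p_m` and every `q`:
`rho q p_{k+1} = rho q p_k + rho p_k p_{k+1} - 2 gp q p_{k+1} p_k`, hence
`gp q p_m p_0 ≤ Σ_k gp q p_{k+1} p_k` and `rho q p_m = rho q p_0 + Σ_k rho p_k p_{k+1} - 2 Σ_k gp q p_{k+1} p_k`.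

## Part A (`StT K`)  (blueprint by helper31)

(A1) Differentiation. `Ω` a finite measure space (here `(u,b)`), paths `p ω : ℤ → ℍ` with
`rho (p i) (p j) ≤ K|i-j| + K`. Scales `r_m = N^m r_0`, `m ≤ M`. With `a_r(j) = (rho (p j) (p (j+r)) / r)^2`,
`S_m(j) = (1/N) Σ_{i<N} a_{r_m}(j + i r_m) - a_{r_{m+1}}(j) ≥ 0`, and `Σ_m Σ_{j<n} ∫ S_m(j) ≤ 2 n (2K)^2 μ(Ω)` if `n ≥ M r_M`. So for some `m`
the average of `S_m` is `≤ 8K²/M`. If `S_m(j) ≤ η^2` then, with `c` the mean of the `rho (..)/r_m`,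
`|rho (p k) (p l) - c |k-l|| ≤ 3 η r_{m+1} + C r_m` on the window `[j, j + r_{m+1}]`: the window is GOOD.

(A2) Speed. `c ≥ 1/(4K)` in a good window (of a sheet of `F`, error `≤ η r`, `η ≤ η0(K)`): by (IS) the vector changes by at most
`r e^{c r + e}`, and `dd` of the ends of the image is `≥ r/K - K`.

(A3) Four-cycle. Sheets `w, w + α e1, w + β ev b, w + α e1 + β ev b` over the vertical window in direction `b`, `|α| e^{τ1} ≈ 1`
(so sheets differing by `α e1` coincide at depths `≤ τ1`), `|β| e^{-τ2} ≈ 1` (those differing by `β ev b` coincide at depths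
`≥ τ2`), `2a = τ2 - τ1`, all four windows good (error `e`) on `[τ1 - a, τ2 + a]`. Then the speeds agree up to `C e / a`; let `c` be
the speed, `P_1, P_2` the images at the top `τ1`, `Q_1, Q_2` at the bottom, `rho P_i Q_j = 2 c a ± Ce`. CLAIM `rho P_1 P_2 ≤ 2 c a + C e`
(and `rho Q_1 Q_2 ≤ 2 c a + C e` by symmetry), so sheets differing by `β ev b` have the same image on the lower half, and sheets differing by
`α e1` on the upper half. Proof: suppose `rho P_1 P_2 = 2 p > 2 c a + C e`. At the time when the paths are at distance `p` from the tops all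
four are within `C e` of one point `t` (4P). Let `B_i` be the difference of the vectors of the two sheets from `P_i`,
`C_j` of the two sheets to `Q_j` (at that time): `B_1 - B_2 = C_1 - C_2`. By (GR) `log nm P_2 B_1 ≥ 2p - C e`, by (IS)
`log nm P_2 B_2 ≤ p + C e`, `log nm P_2 C_j ≤ p + (2 c a - p) + C e`. So `2p ≤ 2 c a + C e`, a contradiction.

(A4) Spread. `m = pt b j`, `b' = b + κ e^{-2j}`, `κ ∈ [κ0, 1]`, sheets `w2`, `w1 = w2 + β ev b`, `w3 = w2 + β ev b'`, `β = e^{j+a}`,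
`w4 = w2 + w3 - w1`, `w5 = w1 + w2 - w3`. (A3) for `{w1,w3,w2,w4}` in direction `b` and for `{w3,w1,w2,w5}` in direction `b'` (centre `m`): all have the
same image `t` over `m`. `p2, p3` the images of `w2` over `pt b (j+a)`, `pt b' (j+a)`, `λ = gp p2 p3 t`, `z` the point of the path at distance `λ`.
`U13 = U12 + U23` at `m`; `w1, w3` meet above: (GR) `log nm z U13 ≥ c a + λ - C e`; (IS) `log nm z U12, log nm z U23 ≤ max (c a - λ) λ + C e`. So `λ ≤ C e`.

(A5) Unit speed. At `m = o` (frame), suppose the windows of half length `8a` in the directions `0` and `1` are good for all `w` in a box of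
size `e^{4a}` up to density `ε0`. From (A3) with windows centred at `± a`: for every fixed `|α|, |β| ≤ e^a` and most `w`: the sheets `w`, `w + α e1`, `w + β ev 0`
have the same image over `pt 0 τ`, `|τ| ≤ a`. Then `Z = U(w) - U(w+α e1) - U(w+β ev 0) + U(w+α e1+β ev 0)` (over `o`) is a sum of increments at the
upper part of the path and also a sum of increments at the lower part; (4PV) at `x` = lower point, `y = t`, `z` = upper
point gives `log nm t Z ≤ C e`. Same for direction `1`. So `B(w,α) = U(w + α e1) - U(w)` satisfies, for every fixed `v` (`|v| ≤ e^a`) and most `w`,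
`B(w+v, α) = B(w, α) + O(e^{Ce})`; so there is a majority value `ψ(α)`, and `ψ(2α) = 2 ψ(α) + O(e^{Ce})` for EVERY `α`. By (GR)
`log |ψ(e^λ)| = c λ ± C e`; hence `|c - 1| a ≤ C e`.

(A6) Put together (Fubini, `markov_fubini`).

## Part B (`StT K → StB K`)

`ε1 ≪ ε`, `m0 ≥ 1/ε1`; `n = ⌈s⌉`; `(e^s box 8 ⊆ e^n box 8`, the density changes by at most `e^2`). `a ∈ R` the scale of `StT` for `(F, n)`; `s0` is large
compared with `max R / ε1`. Choose `j0 < a` with `Σ_k vol (bad_{j0 + k a}) ≤ ε1 n / a` (average over `j0`; `bad_j` = the set in `StT`).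
`p_k(u,b) = F.f (w) (pt b (j0 + k a))`, `w = e^s u`, `k ≤ m = ⌊(L - j0)/a⌋`.
(B1) CLAIM. For each `u`, every `k` and every function `q(b)` with `rho (q b) (q (b + κ e^{-2 j_k})) ≤ C` for `κ ∈ [0,1]` (`j_k = j0 + k a`; e.g. `q` constant, or
`q b = p_i(u,b)`, `i ≤ k`): `∫_{b ∈ [-4,4]} gp (q b) (p_{k+1} b) (p_k b) db ≤ Y_k(u)`, where `Y_k(u)` does not depend on `q`, and `∫_u Σ_k Y_k(u) du ≤ ε2 n` with `ε2 → 0` as
`ε1 → 0`. Proof: `∫_{b'' ∈ [-4,4]} h(b'') ≤ ∫_{b ∈ [-5,5]} ∫_{κ ∈ [0,1]} h (b + κ e^{-2 j_k})`; for fixed `b` all base points `p_k(b + κ e^{-2j_k})` are within `2K` of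
`p_k(b)` (`f_hor`) and all `q` within `C` of `q(b)`, so one has to bound `E = ∫_κ X_κ dκ`, `X_κ = gp (q b) (p_{k+1} (b + κ e^{-2j_k})) (p_k b)`. `0 ≤ X_κ ≤ M = K a + 4K`, and
`X_κ X_κ' ≤ M min(X_κ, X_κ') ≤ M (gp (p_{k+1} (b+κ..)) (p_{k+1} (b+κ'..)) (p_k b) + 1/2)` (`gp_min`), so `E ≤ √(M (G_k(u,b) + 1/2))` with
`G_k = ∫∫_{κ,κ'} gp (..) (..) (p_k b)`. Shifting `b` by `κ e^{-2j_k}` (`κ < κ'`), `∫_b G_k ≤ 2 ∫_{b} ∫_{κ''} gp (p_{k+1} b) (p_{k+1} (b + κ'' e^{-2j_k})) (p_k b) + C`, and by `SpreadP`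
this is `≤ C ε1 a + C a vol_b(bad) + C`. Cauchy-Schwarz over `u, b` and `k`: `∫_u Σ_k Y_k ≤ C a √m √(Σ_k (ε1 + vol bad_{j_k} + C/a)) ≤ C n √(ε1 + C/m0)`. (All integrals of
bounded measurable functions, `QM.meas`.)
(B2) Hence, by (TE), for typical `(u,b)` and all `i ≤ k` in a finite grid: `|rho (p_i) (p_k) - (k - i) a| ≤ ε3 s` (lengths: `Σ_k |rho p_k p_{k+1} - a|` has integral `≤ C ε1 n` by `UnitP` in
`StT`; Gromov products by (B1) with `q b = p_i(u,b)`); the grid of depths `0, ηs, 2ηs, …` has `1/η` points, interpolate with the Lipschitz bound: this is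
the `UnitP` clause. Distances from depth `0` to depth `j0 < a` are `≤ C a ≪ ε s`.
(B3) Pairs: (B1) with `q = p_m(u,b')` (constant in `b`) and (TE): `∫∫ gp (p_m b) (p_m b') (p_0 b) ≤ 8 Σ Y_k(u)`; the base point `p_0(u,b)` may be replaced by `F.f w o` (error `K(a + 8) + K`).
So for typical `u`, and EVERY `q`: `vol {b : gp q (F.f w (pt b L)) (F.f w o) > ε s} ≤ ε`. (*)
(B4) Centre. Let `q = F.f 0 o` be fixed, `w' = w + β ev b`, `|β| ≤ 2 e^s`, `b ∈ [-1,1]`; the sheets meet over `pt b (s+1)`: `g = F.f w (pt b (s+1))`, `g' = F.f w' (..)`, `rho g g' ≤ 2K`.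
For typical `(u, b, β)`: `gp q g (F.f w o) ≤ e`, `gp q g' (F.f w' o) ≤ e` by (*), both distances to `g` are `s ± e`: `same_pos` gives `rho (F.f w o) (F.f w' o) ≤ C e`. Fix (Fubini) `b1 ∈ [-1,-1/2]`,
`b2 ∈ [1/2,1]` for which this holds for typical `(u,β)`; so for typical `(u, β1, β2)` the sheets `u` and `u + β1 ev b1 + β2 ev b2` have the same image up to `2Ce`; fix a good `u* ∈ box (1/4)`, `t = F.f (e^s u*) o`. As
`(β1,β2) ↦ β1 ev b1 + β2 ev b2` is linear with determinant `≥ 1` in absolute value and the image of `[-2,2]²` contains `box 1`: typical `u ∈ box (3/4)` have `rho (F.f (e^s u) o) t ≤ Ce`. Enlarge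
the domain (use `s + 3` instead of `s`).
(B5) Last clause of `StB`. By `rot` (which maps box and `o` to themselves) it suffices to treat pairs with `|u1' - u1| ≤ |u2' - u2|`, i.e. `u' = u + β̂ ev b`, `b ∈ [-1,1]`
(the centres for `F` and `F.tr 0 rot` are within `Ce` of each other), and `|β̂| ≥ δ`. `du' = |β̂| dβ̂ db`. For typical `(u,b,β̂)` both sheets are typical in direction `b`: they meet at depth `D = ⌈s⌉ + 3`
(`|β̂| ≤ 16`), their paths are geodesics of unit speed from points near `t` to the same point, so they are within `Ce` of each other at each depth (`same_pos`); separation at depth `τ` by `sep_fib`: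
`nm (pt b τ) (β̂ e^s ev b) = |β̂| e^{s-τ}`. (GR) with `p k = F.f w (pt b (D - k))`, `c = 1`, `n = D`.

## Part C1 (`StB K → StP K`)

`ν = 1/(100 K)` (any small enough constant), `σ = ν s`. `P` = plane of size `s` at `o` (`w = e^s u`, `u ∈ box 4`), `t` its centre (`StB` for `F`, `s`). For EVERY `b ∈ [-1,1]` let `y' = pt b σ`,
`F_b = F.tr 0 (fr b σ)`, `Q` = plane of size `s + σ` at `y'` (`StB` for `F_b`, `s + σ`), `t'` its centre. A point `û ∈ box 8` of `Q` is the sheet `w_û = act (fr b σ) (e^{s+σ} û) = (e^s û1 + b e^{s+2σ} û2, e^{s+2σ} û2)`; the sheet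
`w = e^s u` has `ŵ = (u1 - b u2, e^{-2σ} u2)`. For `w` in `P` and `û` in `Q` with `β̂ = û2 - ŵ2 ∈ [1,2]`, put `κ = (û1 - ŵ1)/β̂`, `b'' = b + κ e^{-2σ}`: the sheets `w` and `û` meet over `ζ = pt b'' (s + 2σ + 1)`.
For typical `(u, u', b, û)` with `κ, κ' ∈ [-1,1]` (choose `û2 ∈ [1.5, 1.6]`, `û1` in a small interval so that this is automatic, or restrict `u, u'` to small boxes and cover), with the measure preserving changes of
variables `(ŵ1, û) ↔ (κ, û)` (`dŵ1 = β̂ dκ`), `(ŵ1, ŵ1', û) ↔ (κ, κ', û)`, `b ↔ b''` (affine with slope near `1` for fixed `u, û`), the following hold with `e = C ε s`, `p = F.f w y'`, `g = F.f w ζ`, `g0 = F.f w (pt b'' s)`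
and the same with `'` for `u'` (and the same `û`):
 1. `rho t p = σ ± e`, `rho t g0 = s ± e`, `rho p g0 = s - σ ± e` (`UnitP` of `(u, b'')`, depth up to `s`).
 2. `rho g0 g ≤ K (2σ + 1) + K`.
 3. the path `m τ` of `û` over `pt b'' (σ + τ)`, `0 ≤ τ ≤ s + σ`: unit speed from near `t'` to near `g` : `rho t' (m τ) = τ ± e`, `rho (m τ) g = s + σ - τ ± e` (`UnitP` for `F_b`, `(û, κ)`).
 4. `gp t g t' ≤ e`, `gp t g' t' ≤ e`, `gp g g' t' ≤ e` (pairs clause for `Q` with `L = s + σ`, and (PA) with `q = t`).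
 5. `X = F.U w y' - F.U w_û y'`, `X'`: `nm t' X, nm t' X' ≥ exp (s + σ - e)`: for a FIXED vector `v0` the set `A` of `û` with `nm t' (F.U w_û y' - v0) < exp ((1-ε)(s+σ))/2` satisfies
    `A × A ⊆` bad set of the last clause, so it is small.
 6. `E = X - X' = F.U w y' - F.U w' y'`: `nm t E ≤ exp (s + e)` (last clause for `P`, and the increments between `o` and `y'`, which are `≤ exp (K σ + e)` at `t`), so with `θ = rho t t'`: `nm t' E ≤ exp (s + θ + e)`.
 7. `θ ≤ 2Kσ + e` (from 1-4: `θ + s + σ ≤ rho t g + 2e ≤ s + 2Kσ + Ce`). For `z = m (s/2)`: `nm z X ≤ exp (s/2 + 2Kσ + C e)`, by (IS): the increments of `û` are at distance `≤ s/2 + σ + e` from `z`, those of `w` at depths in `[σ, s]` are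
    on the geodesic `[t, g0]`, which agrees with `[t, g]` up to distance `s - 2Kσ - Ce` from `t`: distance `≤ s/2 + 2Kσ + Ce`; those at depths `≥ s` are within `2Kσ + C` of `g0`. Same for `z' = m' (s/2)`, `X'`.
CLAIM `θ ≥ σ - C e`. Suppose `θ < σ - C1 e`. `κ0 = C0 e` (`1 ≪ C0 ≪ C1`), `q = m' κ0` (on `[t', g']`).
 (I) `log nm q X' ≤ log nm t' X' - κ0 + C e`: (4PV) for `t', q, z'`: else `log nm q X' ≤ κ0 + log nm z' X' - rho t' z' + C ≤ κ0 + 2Kσ + Ce`, but it is `≥ s + σ - κ0 - Ce`.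
 (II) `log nm q X ≥ log nm t' X + κ0 - C e`: (4PV) for `z, t', q` (`rho z q ≥ rho z t' + κ0 - Ce` since `gp g g' t' ≤ e`); else `log nm t' X ≤ κ0 + log nm z X - rho z q + C`, contradiction with 5.
 (III) `log nm q E ≤ s + θ + κ0 + e`. Now `nm t' E ≤ exp (s + θ + e) ≤ nm t' X`, so `nm t' X' ≤ 2 nm t' X =: 2 e^A`, `A ≥ s + σ - e`; at `q`: `e^{A + κ0 - Ce} ≤ nm q X ≤ nm q X' + nm q E ≤ 2 e^{A - κ0 + Ce} + e^{s+θ+κ0+e}`, so
 `A ≤ s + θ + C e`, contradiction.
Conclusion. `gp t g p ≤ C e` (1, 2, `gp_stable`), `gp t g t' ≤ e`, so `p` and `t'` are on `[t, g]` at distances `σ`, `θ ≥ σ - C1 e` from `t`: `rho p t' ≤ θ - σ + C e`, same for `p'`. (4P) for `p, p', t, t'`: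
`rho p p' + rho t t' ≤ max (rho p t + rho p' t') (rho p' t + rho p t') + 1 ≤ θ + C e`, so `rho p p' ≤ C e`.

## Part C2 (`StB K → StP K → StL K`)

(L1) Fix `c ∈ [-2,2]`, `S = {w = e^s (a, c)}`. For typical `(a, b, b', β̂, β̂', u*)`, `β̂, β̂' ∈ [0,1]`: `w' = w + e^s β̂ ev b` and `w'' = w + e^s β̂' ev b'` (the maps `(a, β̂, b) ↦ (u' = (a + β̂ b, c + β̂), b)` are measure preserving) are typical for
`F, s` (`StB`) in the directions `b`, `b'`, and by `StP` `F.f w' (pt b σ) ≈ F.f w* (pt b σ)`, `F.f w'' (pt b' σ) ≈ F.f w* (pt b' σ)`, `w* = e^s u*`, and `gp (F.f w* (pt b σ)) (F.f w* (pt b' σ)) t ≤ e` (`StB`, `L = σ`). Since `w` and `w'` meet over `pt b s`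
(`rho ≤ 2K`), `g(w,b) = F.f w (pt b s)` is within `2K` of `F.f w' (pt b s)`, which is at distance `s ± e` from `t` and on a geodesic through `F.f w' (pt b σ)`. So (`gp_min`) `gp (g(w,b)) (g(w,b')) t ≤ C e` and `|rho t g(w,b) - s| ≤ C e` for typical `(a,b,b')`: last two
clauses of `StL` (note: `F.f w o` itself is not yet controlled).
(L2) Nested tripods. `δ = 1/(4K)`, `s_i = (1-δ)^i s`, `i ≤ I` with `K (1-δ)^I ≤ ε/10`. Cut the line into pieces of length `e^{s_i}` and apply (L1) to `F.tr w_0 1` at size `s_i` for the piece with centre `w_0`; so for typical `a` and all `i ≤ I`: with `t_i` = centre of the plane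
of size `s_i` around the piece, `gp (g_i(b)) (g_i(b')) t_i ≤ e_i`, `|rho t_i g_i(b) - s_i| ≤ e_i` for typical `(b,b')`, `g_i(b) = F.f w (pt b s_i)`, `e_i = ε' s_i`. Choose `b1, b2, b3` good for all `i` and all pairs. `rho (g_i b) (g_{i+1} b) ≤ K δ s_i + K < rho t_{i+1} (g_{i+1} b) - e_{i+1} - 2`, so by
`gp_stable` `t_{i+1}` is also a centre of the tripod `g_i(b1), g_i(b2), g_i(b3)`, and `center_unique` gives `rho t_i t_{i+1} ≤ C e_i`. Sum: `rho t_0 t_I ≤ C ε' s / δ`; and `rho t_I (F.f w o) ≤ K (s_I + C) + K + e_I` (take a typical sheet of the plane of size `s_I` near `w`). So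
`rho t (F.f w o) ≤ ε s` for typical `a`: first clause on lines.

## Part D1 (`StL K → StA K`)

`s0 = s0(ε')` from `StL`, also `≥ C/(ε' δ)`; `δ` a small constant (e.g. `1/4`), `s_k = (1+δ)^k s_0'`, `s_0' ∈ [s0/δ, (1+δ) s0/δ]` with `s_n = L` (for `L ≤ 2 s0/δ` the statement is trivial with `C` large), `h_k = δ s_k = s_{k+1} - s_k ≥ s0`. `w̃ = (α, 0)`, `p_k(α,b) = F.f w̃ (pt b s_k)`.
For every `(α0, b0)` apply `StL` to `F.tr (α0,0) (fr b0 s_k)` at size `h_k`, line `c = 0`: `e^{h_k} (a,0)` is the sheet `(α0 + e^{h_k - s_k} a, 0)`. So for every `(α0,b0)`, for typical `(a, κ)`, `α = α0 + e^{h_k - s_k} a`, `b = b0 + κ e^{-2 s_k}`, and EVERY `q` (by (PA)):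
`gp q (p_{k+1}(α,b)) (p_k(α,b)) ≤ ε' h_k + C`, `|rho (p_k) (p_{k+1}) - h_k| ≤ ε' h_k + C` (base point: `F.f w̃ (pt b0 s_k) ≈ t`, and within `2K` of `p_k(α,b)`). Average over `(α0,b0) ∈ [-3,3]²`: for every `q`
`∫∫_{α ∈ [-1,1], b ∈ [-2,2]} gp q p_{k+1} p_k ≤ C ε' h_k`, `∫∫ |rho p_k p_{k+1} - h_k| ≤ C ε' h_k` (`C ≤ ε' h_k`; on the bad sets the integrands are `≤ C h_k`). Sum over `k`, (TE) with `q` resp. `q = F.f 0 o`, `rho (p_0) (F.f 0 o) ≤ C s0/δ`; Markov.

## Part D2 (`StL K → StA K → StS K`)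

(S1) Any two centres `t, t'` of the same plane (points with the first property of `StL`) are within `2 ε s`; also for overlapping planes of the same size at the same base point (`F` and `F.tr û 1`, `|û| ≤ e^s`). The centre for `F.tr 0 rot` is a centre for `F` (`rot` preserves the box and `o`), so
`StL` also holds for the lines in the direction `e2 = (0,1)`: `F.f (e^s (−c, a)) o ≈ t`.
(S2) Let `t(F,S)` be a centre. CLAIM `rho (t(F,S)) (t(F,S+2h)) ≤ 2 K h + 2K + C ε (S + 2h)`. `F'' = F.tr 0 (fr 0 (-h))` (base point `pt 0 (-h)`), `t'' = t(F'', S + h)`. The sheets `(0, e^S a)` are typical for `(F,S)` and `F''.f (0, e^{S+h} a) o = F.f (0, e^S a) (pt 0 (-h))` typical for `(F'', S+h)`: so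
`rho (t(F,S)) t'' ≤ K h + K + C ε (S+h)`. The sheets `(e^{S+2h} a, 0)`: `F''.f (e^{S+h} a, 0) o = F.f (e^{S+2h} a, 0) (pt 0 (-h))`: so `rho t'' (t(F,S+2h)) ≤ K h + K + Cε(S+2h)`.
(S3) Let `x = o`, `w = 0`, `w' = u`, `ϱ = log (1 + nm o u)`, `κ = rho (F.f 0 o) (F.f u o)`, `L = 4K (ϱ + C)`. For typical `(α,b)`: `E1 = F.f (α,0) (pt b L)`, `E2 = F.f (u + (α,0)) (pt b L)`: `gp (F.f u o) E1 (F.f 0 o) ≤ εL + C`, `gp (F.f 0 o) E2 (F.f u o) ≤ εL + C`, distances `L ± (εL + C)` (`StA` for `F`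
with `q = F.f u o` and for `F.tr u 1` with `q = F.f 0 o`). By `StL` for `F1 = F.tr 0 (fr b L)` and `F.tr u (fr b L)` at size `L`, line `c = 0` (for every `b`, typical `α`): `E1 ≈ t(F1, L)`, `E2 ≈ t(F.tr u (fr b L), L)`; by (S2) with `2h = ϱ + C` and (S1) for the planes of size `L + 2h`,
`rho E1 E2 ≤ 2 K ϱ + C + C ε (L + ϱ)`. If `κ > 2 (εL + C) + 1`, `concat3` gives `rho E1 E2 ≥ 2L + κ - 6 (εL + C) - 1`: contradiction for the chosen `L`. So `κ ≤ 2 (ε L + C) + 1 ≤ 8Kε ϱ + C`.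

## Part D3 (`StA K → StS K → StF K`)

(F1) UB. `nm (F.f w x) (F.U w x - F.U w' x) ≤ exp ((1+ε) log (1 + nm x (w-w')) + C)`: cut `[w,w']` into `n = ⌈nm x (w - w')⌉ + 1` steps of norm `≤ 1`; every intermediate sheet has its image within `ε log (1 + nm x (w - w')) + C` of `F.f w x` (`StS`).
(F2) Every sheet is typical: for all `R ≥ 0`: `vol {b ∈ [-2,2] : ¬ UnitP F 0 b 0 R (εR + C)} ≤ ε`, and for every `q`: `vol {b ∈ [-2,2] : εR + C < gp q (F.f 0 (pt b R)) (F.f 0 o)} ≤ ε`. (`StA` and `StS`: `nm (pt b R) (α,0) = |α| e^R`, so `F.f (α,0) (pt b R)` is within `ε(R+1) + C` of `F.f 0 (pt b R)`. For `UnitP`: for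
grid depths `i < i'` use `F.tr 0 (fr b0 i)`, average over `b0`, `rho (F.f 0 (pt b0 i)) (F.f 0 (pt b i)) ≤ 2K` if `|b - b0| ≤ e^{-2i}`; interpolate.)
(F3) LB. `(1-ε) log (1 + nm x (w-w')) - C ≤ log (1 + nm (F.f w x) (F.U w x - F.U w' x))`. `x = o`, `w = 0`, `w' = v`, `e^R = nm o v`. Choose `b, b' ∈ [-2,2]` typical with `|b - b'| ≥ 1/4`, `|v.1 - v.2 b|, |v.1 - v.2 b'| ≥ e^R/16`, `gp (F.f 0 (pt b D)) (F.f 0 (pt b' D)) (F.f 0 o) ≤ e`; `w2 = -β ev b = v - β' ev b'`
(`β = (v.1 - v.2 b')/(b' - b)`, `β' = (v.1 - v.2 b)/(b' - b)`). (GR) for the sheets `0, w2` in direction `b` and `v, w2` in direction `b'` (closeness by `StS`), `X = U 0 - U w2`, `X' = U v - U w2` over `o`. At `z = F.f 0 (pt b κ)`, `κ = C0 e`: `nm z X ≤ exp (D - κ + Ce)`, `nm z X' ≥ exp (D + κ - Ce)`. So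
`nm z (X - X') ≥ exp (D + κ - Ce)/2`, `nm (F.f 0 o) (X - X') ≥ exp (D - C e)`.
(F4) `rho (F.f w x) (F.f w x') ≥ (1-ε) rho x x' - C` for vertical pairs `x = pt b j, x' = pt b (j+L)`: (frame) `x = o`, `x' = pt 0 L`, `v = (e^r, 0)`, `r = 4KL + C`: `nm o v = e^r`, `nm x' v = e^{r+L}`. `W = U(v,o) - U(0,o)`, `W' = U(v,x') - U(0,x')`. `log nm (F.f 0 o) W ≤ (1+ε) r + C`, `log nm (F.f 0 x') W' ≥ (1-ε)(r+L) - C`, and
`nm (F.f 0 x') (W - W') ≤ 2 exp (K L + K + ε(r+L) + C)`, negligible. So `rho ≥ L - ε (2r+L) - C`.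
(F5) `gp (F.f 0 (pt 0 (-R))) (F.f 0 (pt 0 R)) (F.f 0 o) ≤ εR + C`. `t = F.f 0 o`, `x = pt 0 (-R)`, `x' = pt 0 R`, `λ` the Gromov product, `z` with `rho t z ≤ λ + 1`, `rho z (F.f 0 x) ≤ rho t (F.f 0 x) - λ + 1` (`exists_geod`), hence also `rho z (F.f 0 x') ≤ rho t (F.f 0 x') - λ + 2` (4P). By `path_near` (paths
`k ↦ F.f 0 (pt 0 (∓k))`) there are `h, h' ∈ [0,R]` with `z` within `εR + C` of `F.f 0 (pt 0 (-h))` and of `F.f 0 (pt 0 h')`. `R' = R + r`, `r = 4KR + C`. By (F2) choose `b'' ∈ [-1,-1/2]` typical for `R'`, with `gp z (F.f 0 (pt b'' D)) t ≤ e`. `w2 = 0`, `w3 = e^{R'} ev b''`, `w1 = e^{R'} ev 0`,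
`w1 - w3 = - b'' e^{R'} e1`. Over `o`: `U12 = U13 + U32`; `nm z U12 ≤ exp (R' - h' + e)` (UB over `pt 0 h'`, the vectors change by `≤ exp (KR + C + e)` between `o` and `pt 0 h'`, which is negligible), `nm z U13 ≤ exp (R' - h + e)`, and by (GR) in direction `b''`: `nm z U32 ≥ exp (R' + λ - C e)`. So `λ ≤ C e`, `e = C (ε R' + 1)`.
(F6) Fix `R0` large. Along a vertical geodesic the points `q_i = F.f w (pt b (i R0))` satisfy `gp q_{i-1} q_{i+1} q_i ≤ e0 = ε R0 + C`, `rho q_i q_{i+1} ≥ 2 e0 + 4` (F4, F5 in frames). `chain`: `gp q_{-n} q_n q_0 ≤ e0 + 1` for all `n`. With `z_∞ = pt 0 (-L)`, `z_0 = pt 0 L`, `z_1 = pt 1 L`, `L = n R0`: the pairs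
`(z_∞, z_0)`, `(z_∞, z_1)` are (up to bounded distance) ends of vertical geodesics through points near `o`, and `g0 = !![0, 1; -1, 1]` (`z ↦ 1/(1-z)`) maps `(z_0, z_1)` to within bounded distance of `(z_1, z_∞)` and moves `o` by a bounded amount. So for every `F`, `w`: the three Gromov products of `F.f w z_∞, F.f w z_0, F.f w z_1` at
`F.f w o` are `≤ C4`. For two sheets `w, w'`: `rho (F.f w z_i) (F.f w' z_i) ≤ ε (L + log (1 + nm o (w - w')) + C) + C`, `rho (F.f w' o) (F.f w' z_i) ≥ L/2 - C` (F4), so for `L` large `gp_stable` shows that `F.f w' o` is a centre of the tripod of `w`: `rho (F.f w o) (F.f w' o) ≤ 5 (C4 + 1) + 1`. This is `StF K`.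

## Last part

From `∀ K ≥ 1, StF K` to `S02150`: rounding (a `QI K` composed with a rounding `X → X` of countable range and displacement `≤ 1` is a `QM K'` at bounded distance), left translations of `Γ` transported to `X` are `QI K` with uniform `K`, and `FQI.final`.
-/
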