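import Pool.Agent.FIB.Iface
import Pool.Agent.FIB.Tel

/-!
# Centres of planes (S1), (S2)

`Ctr F s ε t`: `t` is a centre of the plane of size `s` at `o`. `GCtr F s ε t`: moreover the typical
sheets of the two coordinate axes have their image near `t`.
-/

set_option autoImplicit false

namespace Pool.Agent.FIB

open UpperHalfPlane MeasureTheory Set

variable {K : ℝ}

/-- `t` is a centre of the plane of size `s`. -/
def Ctr (F : QM K) (s ε : ℝ) (t : ℍ) : Prop :=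
  volume {u : V | u ∈ box 8 ∧ ε * s < rho (F.f (Real.exp s • u) o) t} ≤ ENNReal.ofReal ε

/-- `t` is a centre, also for the two coordinate axes. -/
def GCtr (F : QM K) (s ε : ℝ) (t : ℍ) : Prop :=
  Ctr F s ε t ∧
  volume {a : ℝ | a ∈ Icc (-2) 2 ∧ ε * s < rho (F.f (Real.exp s • ((a, 0) : V)) o) t}
    ≤ ENNReal.ofReal ε ∧
  volume {a : ℝ | a ∈ Icc (-2) 2 ∧ ε * s < rho (F.f (Real.exp s • ((0, a) : V)) o) t}
    ≤ ENNReal.ofReal ε

theorem S_exists {α : Type*} [MeasureSpace α] {A B : Set α} (h : volume B < volume A) :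
    ∃ a ∈ A, a ∉ B := by
  by_contra hn
  push Not at hn
  exact absurd (measure_mono (fun a ha => hn a ha)) (not_le.2 h)

theorem S_box (M : ℝ) (hM : 0 ≤ M) : volume (box M) = ENNReal.ofReal (4 * M ^ 2) := by
  unfold box
  rw [Measure.volume_eq_prod, Measure.prod_prod, Real.volume_Icc,
    ← ENNReal.ofReal_mul (by linarith)]
  congr 1
  ring

/-- Centres of overlapping planes of the same size. -/
theorem S_shift {F F' : QM K} {s ε : ℝ} (hε1 : ε ≤ 1) {t t' : ℍ} {v : V}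
    (hv1 : |v.1| ≤ Real.exp s) (hv2 : |v.2| ≤ Real.exp s)
    (hF : ∀ w x, F'.f w x = F.f (v + w) x) (h : Ctr F s ε t) (h' : Ctr F' s ε t') :
    rho t t' ≤ 2 * ε * s := by
  have hes := Real.exp_pos s
  have hbad : volume ({u : V | Real.exp (-s) • v + u ∈
      {u : V | u ∈ box 8 ∧ ε * s < rho (F.f (Real.exp s • u) o) t}} ∪
      {u : V | u ∈ box 8 ∧ ε * s < rho (F'.f (Real.exp s • u) o) t'}) < volume (box 7) := by
    refine lt_of_le_of_lt (measure_union_le _ _) ?_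
    rw [shiftV_le, S_box 7 (by norm_num)]
    refine lt_of_le_of_lt (add_le_add (h.trans (ENNReal.ofReal_le_ofReal hε1))
      (h'.trans (ENNReal.ofReal_le_ofReal hε1))) ?_
    rw [← ENNReal.ofReal_add (by norm_num) (by norm_num)]
    exact (ENNReal.ofReal_lt_ofReal_iff (by norm_num)).2 (by norm_num)
  obtain ⟨u, hu, hnu⟩ := S_exists hbad
  rw [mem_union, not_or] at hnu
  obtain ⟨hn1, hn2⟩ := hnu
  obtain ⟨⟨hu1, hu2⟩, ⟨hu3, hu4⟩⟩ := hu
  have hb1 : |Real.exp (-s) * v.1| ≤ 1 := by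
    rw [abs_mul, abs_of_pos (Real.exp_pos _)]
    have h1 := mul_le_mul_of_nonneg_left hv1 (Real.exp_pos (-s)).le
    rwa [← Real.exp_add, neg_add_cancel, Real.exp_zero] at h1
  have hb2 : |Real.exp (-s) * v.2| ≤ 1 := by
    rw [abs_mul, abs_of_pos (Real.exp_pos _)]
    have h1 := mul_le_mul_of_nonneg_left hv2 (Real.exp_pos (-s)).le
    rwa [← Real.exp_add, neg_add_cancel, Real.exp_zero] at h1
  rw [abs_le] at hb1 hb2
  have hbox : Real.exp (-s) • v + u ∈ box 8 := by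
    refine ⟨⟨?_, ?_⟩, ⟨?_, ?_⟩⟩ <;>
      simp only [Prod.fst_add, Prod.snd_add, Prod.smul_fst, Prod.smul_snd, smul_eq_mul] <;> linarith
  have hbox' : u ∈ box 8 := ⟨⟨by linarith, by linarith⟩, ⟨by linarith, by linarith⟩⟩
  have h1 : rho (F.f (Real.exp s • (Real.exp (-s) • v + u)) o) t ≤ ε * s := by
    by_contra h1
    exact hn1 ⟨hbox, not_le.1 h1⟩
  have h2 : rho (F'.f (Real.exp s • u) o) t' ≤ ε * s := by
    by_contra h2
    exact hn2 ⟨hbox', not_le.1 h2⟩
  have h3 : Real.exp s • (Real.exp (-s) • v + u) = v + Real.exp s • u := by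
    rw [smul_add, smul_smul, ← Real.exp_add, add_neg_cancel, Real.exp_zero, one_smul]
  rw [h3, ← hF] at h1
  have h4 := rho_triangle t (F'.f (Real.exp s • u) o) t'
  have h5 := rho_comm t (F'.f (Real.exp s • u) o)
  linarith

theorem S_unique {F : QM K} {s ε : ℝ} (hε1 : ε ≤ 1) {t t' : ℍ} (h : Ctr F s ε t)
    (h' : Ctr F s ε t') : rho t t' ≤ 2 * ε * s := by
  refine S_shift hε1 (v := 0) ?_ ?_ (fun w x => by rw [zero_add]) h h'
  · simp [(Real.exp_pos s).le]
  · simp [(Real.exp_pos s).le]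

theorem S_rot_f (F : QM K) (s : ℝ) (u : V) :
    (F.tr 0 rot).f (Real.exp s • u) o = F.f (Real.exp s • ((-u.2, u.1) : V)) o := by
  rw [QM.tr_f, rot_smul_o, act_smul, act_rot, zero_add]

theorem S_rot {F : QM K} {s ε : ℝ} {t : ℍ} (h : Ctr (F.tr 0 rot) s ε t) : Ctr F s ε t := by
  unfold Ctr at h ⊢
  rw [← actV_le _ rot 0]
  refine le_trans (measure_mono ?_) h
  rintro u ⟨⟨hu1, hu2⟩, hu3⟩
  rw [zero_add, act_rot] at hu1 hu2 hu3
  obtain ⟨hu4, hu5⟩ := hu1
  simp only at hu4 hu5 hu2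
  refine ⟨⟨hu2, ⟨by linarith, by linarith⟩⟩, ?_⟩
  rw [S_rot_f]
  exact hu3

theorem S_gctr (h : StL K) (ε : ℝ) (hε : 0 < ε) : ∃ s0 : ℝ, 0 < s0 ∧
    ∀ (F : QM K) (s : ℝ), s0 ≤ s → ∃ t : ℍ, GCtr F s ε t := by
  set ε' : ℝ := min ε 1 / 3 with hε'
  have hmin : 0 < min ε 1 := lt_min hε one_pos
  have hε'0 : 0 < ε' := by
    rw [hε']
    positivity
  have hε'1 : ε' ≤ 1 := by
    have := min_le_right ε 1
    rw [hε']
    linarith
  have hε'ε : 3 * ε' ≤ ε := by
    have := min_le_left ε 1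
    rw [hε']
    linarith
  obtain ⟨s0, hs0, H⟩ := h ε' hε'0
  refine ⟨s0, hs0, ?_⟩
  intro F s hs
  have hspos : 0 < s := lt_of_lt_of_le hs0 hs
  obtain ⟨t, H1, H2⟩ := H F s hs
  obtain ⟨t', H1', H2'⟩ := H (F.tr 0 rot) s hs
  have h0 : (0 : ℝ) ∈ Icc (-2 : ℝ) 2 := ⟨by norm_num, by norm_num⟩
  have hu : rho t t' ≤ 2 * ε' * s := S_unique hε'1 H1 (S_rot H1')
  have h3s : 3 * ε' * s ≤ ε * s := by nlinarith
  refine ⟨t, ?_, ?_, ?_⟩
  · refine le_trans (measure_mono ?_) (H1.trans (ENNReal.ofReal_le_ofReal (by linarith)))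
    rintro u ⟨h1, h2⟩
    refine ⟨h1, lt_of_le_of_lt ?_ h2⟩
    nlinarith
  · refine le_trans (measure_mono ?_)
      ((H2 0 h0).1.trans (ENNReal.ofReal_le_ofReal (by linarith)))
    rintro a ⟨h1, h2⟩
    refine ⟨h1, lt_of_le_of_lt ?_ h2⟩
    nlinarith
  · refine le_trans (measure_mono ?_)
      ((H2' 0 h0).1.trans (ENNReal.ofReal_le_ofReal (by linarith)))
    rintro a ⟨h1, h2⟩
    refine ⟨h1, ?_⟩
    rw [S_rot_f]
    simp only [neg_zero]
    have h4 := rho_triangle (F.f (Real.exp s • ((0, a) : V)) o) t' t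
    have h5 := rho_comm t t'
    linarith

/-- (S2): centres of planes of different sizes. -/
theorem S_grow {F : QM K} {ε S h : ℝ} (hε1 : ε ≤ 1) (hε0 : 0 < ε) (hh : 0 ≤ h) {t t' t'' : ℍ}
    (ht : GCtr F S ε t) (ht' : GCtr F (S + 2 * h) ε t')
    (ht'' : GCtr (F.tr 0 (fr 0 (-h))) (S + h) ε t'') :
    rho t t' ≤ 2 * K * h + 2 * K + 4 * ε * (S + h) := by
  have h4 : volume (Icc (-2 : ℝ) 2) = ENNReal.ofReal 4 := by
    rw [Real.volume_Icc]
    norm_num
  have hex : ∀ B1 B2 : Set ℝ, volume B1 ≤ ENNReal.ofReal ε → volume B2 ≤ ENNReal.ofReal ε →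
      ∃ a ∈ Icc (-2 : ℝ) 2, a ∉ B1 ∧ a ∉ B2 := by
    intro B1 B2 h1 h2
    have h3 : volume (B1 ∪ B2) < volume (Icc (-2 : ℝ) 2) := by
      refine lt_of_le_of_lt ((measure_union_le _ _).trans (add_le_add h1 h2)) ?_
      rw [← ENNReal.ofReal_add hε0.le hε0.le, h4]
      exact (ENNReal.ofReal_lt_ofReal_iff (by norm_num)).2 (by linarith)
    obtain ⟨a, ha, hna⟩ := S_exists h3
    rw [mem_union, not_or] at hna
    exact ⟨a, ha, hna.1, hna.2⟩
  have hv : ∀ w : V, rho (F.f w o) (F.f w (pt 0 (-h))) ≤ K * h + K := by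
    intro w
    have h1 := F.f_vert w 0 0 (-h)
    rw [sub_neg_eq_add, zero_add, abs_of_nonneg hh] at h1
    exact h1
  have htr : ∀ v : V, (F.tr 0 (fr 0 (-h))).f v o =
      F.f ((Real.exp h * v.1, Real.exp (-h) * v.2) : V) (pt 0 (-h)) := by
    intro v
    rw [QM.tr_f, act_fr, o, fr_smul]
    congr 2
    · ext <;> simp
    · simp
    · simp
  -- from `t` to `t''`
  have h1 : rho t t'' ≤ K * h + K + ε * S + ε * (S + h) := by
    obtain ⟨a, ha, hn1, hn2⟩ := hex _ _ ht.2.2 ht''.2.2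
    have e1 : rho (F.f (Real.exp S • ((0, a) : V)) o) t ≤ ε * S := by
      by_contra h1
      exact hn1 ⟨ha, not_le.1 h1⟩
    have e2 : rho ((F.tr 0 (fr 0 (-h))).f (Real.exp (S + h) • ((0, a) : V)) o) t'' ≤
        ε * (S + h) := by
      by_contra h1
      exact hn2 ⟨ha, not_le.1 h1⟩
    rw [htr] at e2
    have e3 : ((Real.exp h * (Real.exp (S + h) • ((0, a) : V)).1,
        Real.exp (-h) * (Real.exp (S + h) • ((0, a) : V)).2) : V) =
        Real.exp S • ((0, a) : V) := by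
      ext
      · simp
      · simp only [Prod.smul_snd, smul_eq_mul]
        rw [← mul_assoc, ← Real.exp_add]
        congr 2
        ring
    rw [e3] at e2
    have e4 := hv (Real.exp S • ((0, a) : V))
    have e5 := rho_triangle t (F.f (Real.exp S • ((0, a) : V)) o) t''
    have e6 := rho_triangle (F.f (Real.exp S • ((0, a) : V)) o)
      (F.f (Real.exp S • ((0, a) : V)) (pt 0 (-h))) t''
    have e7 := rho_comm t (F.f (Real.exp S • ((0, a) : V)) o)
    linarith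
  -- from `t'` to `t''`
  have h2 : rho t'' t' ≤ K * h + K + ε * (S + 2 * h) + ε * (S + h) := by
    obtain ⟨a, ha, hn1, hn2⟩ := hex _ _ ht'.2.1 ht''.2.1
    have e1 : rho (F.f (Real.exp (S + 2 * h) • ((a, 0) : V)) o) t' ≤ ε * (S + 2 * h) := by
      by_contra h1
      exact hn1 ⟨ha, not_le.1 h1⟩
    have e2 : rho ((F.tr 0 (fr 0 (-h))).f (Real.exp (S + h) • ((a, 0) : V)) o) t'' ≤
        ε * (S + h) := by
      by_contra h1
      exact hn2 ⟨ha, not_le.1 h1⟩
    rw [htr] at e2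
    have e3 : ((Real.exp h * (Real.exp (S + h) • ((a, 0) : V)).1,
        Real.exp (-h) * (Real.exp (S + h) • ((a, 0) : V)).2) : V) =
        Real.exp (S + 2 * h) • ((a, 0) : V) := by
      ext
      · simp only [Prod.smul_fst, smul_eq_mul]
        rw [← mul_assoc, ← Real.exp_add]
        congr 2
        ring
      · simp
    rw [e3] at e2
    have e4 := hv (Real.exp (S + 2 * h) • ((a, 0) : V))
    have e5 := rho_triangle t'' (F.f (Real.exp (S + 2 * h) • ((a, 0) : V)) (pt 0 (-h))) t'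
    have e6 := rho_triangle (F.f (Real.exp (S + 2 * h) • ((a, 0) : V)) (pt 0 (-h)))
      (F.f (Real.exp (S + 2 * h) • ((a, 0) : V)) o) t'
    have e7 := rho_comm t'' (F.f (Real.exp (S + 2 * h) • ((a, 0) : V)) (pt 0 (-h)))
    have e8 := rho_comm (F.f (Real.exp (S + 2 * h) • ((a, 0) : V)) (pt 0 (-h)))
      (F.f (Real.exp (S + 2 * h) • ((a, 0) : V)) o)
    linarith
  have h3 := rho_triangle t t'' t'
  linarith

end Pool.Agent.FIB
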