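import Pool.Agent.FIB.ZMat
import Pool.Agent.FQI.KBig
import Pool.Agent.FQI.KBdd

/-!
# The word metric of a compact generating set of `ℝ² ⋊ SL₂(ℝ)` and the coarse distance `ell`

`ell_le_of_mem`: `mkM u g ∈ K ^ n → ell u g ≤ A n`. `mem_of_ell`: `mkM u g ∈ K ^ n` for some
`n ≤ A (ell u g) + A`.
-/

set_option autoImplicit false

namespace Pool.Agent.FIB

open UpperHalfPlane
open scoped MatrixGroups

theorem mkM_inj {u u' : V} {g g' : SL(2, ℝ)} (h : mkM u g = mkM u' g') : u = u' ∧ g = g' := by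
  constructor
  · have h1 : FQI.up (mkM u g) = FQI.up (mkM u' g') := by rw [h]
    rw [up_mkM, up_mkM] at h1
    have e0 := congrFun h1 0
    have e1 := congrFun h1 1
    exact Prod.ext e0 e1
  · have h1 : FQI.gp (mkM u g) = FQI.gp (mkM u' g') := by rw [h]
    rw [gp_mkM, gp_mkM] at h1
    exact Subtype.ext h1

open Pointwise in
theorem ell_le_of_mem (K : Set FQI.M3) (hK : IsCompact K) (haff : ∀ M ∈ K, FQI.aff M) :
    ∃ A : ℝ, 0 ≤ A ∧ ∀ (n : ℕ) (u : V) (g : SL(2, ℝ)), mkM u g ∈ K ^ n → ell u g ≤ A * n := by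
  obtain ⟨R0, hR0⟩ := FQI.K_bdd K hK 1
  rw [pow_one] at hR0
  obtain ⟨R, hR1, hRR⟩ : ∃ R : ℝ, 1 ≤ R ∧ R0 ≤ R := ⟨max R0 1, le_max_right _ _, le_max_left _ _⟩
  have hE : 1 ≤ Real.exp R := Real.one_le_exp (by linarith)
  have hE' : 1 ≤ Real.exp R + R := by linarith
  have key : ∀ (n : ℕ) (u : V) (g : SL(2, ℝ)), mkM u g ∈ K ^ n →
      rho o (g • o) ≤ R * n ∧ 1 + nm o u ≤ (Real.exp R + R) ^ n := by
    intro n
    induction n with
    | zero =>
      intro u g h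
      rw [pow_zero, Set.mem_one, ← mkM_one] at h
      obtain ⟨rfl, rfl⟩ := mkM_inj h
      rw [one_smul, rho_self, nm_zero]
      simp
    | succ n ih =>
      intro u g h
      rw [pow_succ', Set.mem_mul] at h
      obtain ⟨x, hx, y, hy, hxy⟩ := h
      obtain ⟨u1, g1, rfl⟩ := exists_mkM (haff x hx)
      obtain ⟨u2, g2, rfl⟩ := exists_mkM (FQI.aff_of_mem_pow haff n y hy)
      rw [mkM_mul] at hxy
      obtain ⟨rfl, rfl⟩ := mkM_inj hxy
      obtain ⟨i1, i2⟩ := ih u2 g2 hy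
      obtain ⟨j1, j2⟩ := hR0 _ hx
      rw [gp_mkM] at j1
      rw [vn_up_mkM] at j2
      have r1 : rho o (g1 • o) ≤ R := (rho_le_mn g1).trans (j1.trans hRR)
      have r2 : nm o u1 ≤ R := (nm_o_le u1).trans (j2.trans hRR)
      constructor
      · have t := rho_triangle o (g1 • o) ((g1 * g2) • o)
        have t2 := rho_smul g1 o (g2 • o)
        rw [smul_smul] at t2
        push_cast
        linarith
      · have t := nm_add_le o (act g1 u2) u1
        have t1 := nm_act_le g1 u2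
        have t2 : Real.exp (rho o (g1 • o)) ≤ Real.exp R := Real.exp_le_exp.2 r1
        have t3 := mul_le_mul_of_nonneg_right t2 (nm_nonneg o u2)
        rw [pow_succ']
        have t4 : (Real.exp R + R) * (1 + nm o u2) ≤
            (Real.exp R + R) * (Real.exp R + R) ^ n := mul_le_mul_of_nonneg_left i2 (by linarith)
        have t5 := mul_nonneg (by linarith : (0 : ℝ) ≤ R) (nm_nonneg o u2)
        nlinarith
  refine ⟨R + Real.log (Real.exp R + R), by
    have := Real.log_nonneg hE'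
    linarith, fun n u g h => ?_⟩
  obtain ⟨k1, k2⟩ := key n u g h
  unfold ell
  have k3 : Real.log (1 + nm o u) ≤ n * Real.log (Real.exp R + R) := by
    rw [← Real.log_pow]
    exact Real.log_le_log (by linarith [nm_nonneg o u]) k2
  linarith

/-! ### The converse -/

theorem fr_mul (b j b' j' : ℝ) :
    fr b j * fr b' j' = fr (b + b' * Real.exp (-2 * j)) (j + j') := by
  apply Subtype.ext
  rw [Matrix.SpecialLinearGroup.coe_mul]
  have e1 : (fr b j : SL(2, ℝ)).1 = !![Real.exp (-j), b * Real.exp j; 0, Real.exp j] := rfl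
  have e2 : (fr b' j' : SL(2, ℝ)).1 = !![Real.exp (-j'), b' * Real.exp j'; 0, Real.exp j'] := rfl
  have e3 : (fr (b + b' * Real.exp (-2 * j)) (j + j') : SL(2, ℝ)).1 =
      !![Real.exp (-(j + j')), (b + b' * Real.exp (-2 * j)) * Real.exp (j + j'); 0,
        Real.exp (j + j')] := rfl
  have h1 : Real.exp (-2 * j) * Real.exp j = Real.exp (-j) := by
    rw [← Real.exp_add]; congr 1; ring
  rw [e1, e2, e3, Matrix.mul_fin_two, neg_add, Real.exp_add, Real.exp_add, ← h1]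
  ext i k
  fin_cases i <;> fin_cases k <;> (simp; try ring)

theorem fr_zero : fr 0 0 = 1 := by
  apply Subtype.ext
  have e1 : (fr 0 0 : SL(2, ℝ)).1 = !![Real.exp (-0), 0 * Real.exp 0; 0, Real.exp 0] := rfl
  rw [e1, Matrix.SpecialLinearGroup.coe_one]
  ext i k
  fin_cases i <;> fin_cases k <;> simp

theorem mn_fr (b j : ℝ) : FQI.mn (fr b j).1 =
    Real.exp (-j) + |b| * Real.exp j + Real.exp j := by
  unfold FQI.mn
  change |Real.exp (-j)| + |b * Real.exp j| + |(0 : ℝ)| + |Real.exp j| = _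
  rw [abs_mul, abs_zero, abs_of_pos (Real.exp_pos _), abs_of_pos (Real.exp_pos j)]
  ring

theorem fr_smul_o (b j : ℝ) : fr b j • o = pt b j := by
  have h := fr_smul b j 0 0
  rwa [zero_mul, add_zero, add_zero] at h

open Pointwise in
/-- `M` is a product of at most `t` elements of `K`. -/
def Len (K : Set FQI.M3) (M : FQI.M3) (t : ℝ) : Prop := ∃ n : ℕ, (n : ℝ) ≤ t ∧ M ∈ K ^ n

open Pointwise in
theorem Len.mul {K : Set FQI.M3} {M M' : FQI.M3} {t t' : ℝ} (h : Len K M t) (h' : Len K M' t') :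
    Len K (M * M') (t + t') := by
  obtain ⟨n, hn, hm⟩ := h
  obtain ⟨n', hn', hm'⟩ := h'
  refine ⟨n + n', ?_, ?_⟩
  · push_cast
    linarith
  · rw [pow_add]
    exact Set.mul_mem_mul hm hm'

theorem Len.mono {K : Set FQI.M3} {M : FQI.M3} {t t' : ℝ} (h : Len K M t) (ht : t ≤ t') :
    Len K M t' := by
  obtain ⟨n, hn, hm⟩ := h
  exact ⟨n, hn.trans ht, hm⟩

private lemma Z_mkM0_mul (g g' : SL(2, ℝ)) : mkM 0 g * mkM 0 g' = mkM 0 (g * g') := by
  rw [mkM_mul, act_zero', add_zero]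

private lemma Z_diag_pow (t : ℝ) (m : ℕ) : mkM 0 (fr 0 t) ^ m = mkM 0 (fr 0 (m * t)) := by
  induction m with
  | zero => rw [pow_zero, Nat.cast_zero, zero_mul, fr_zero, mkM_one]
  | succ m ih =>
    rw [pow_succ, ih, Z_mkM0_mul, fr_mul, zero_mul, add_zero]
    congr 2
    push_cast
    ring

open Pointwise in
private lemma Z_diag {K : Set FQI.M3} {N : ℕ}
    (hN : ∀ (u : V) (g : SL(2, ℝ)), FQI.mn g.1 ≤ 6 → |u.1| + |u.2| ≤ 6 → Len K (mkM u g) N)
    (s : ℝ) : Len K (mkM 0 (fr 0 s)) (N * (|s| + 2)) := by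
  obtain ⟨m, hm1, hm2, hm3⟩ : ∃ m : ℕ, 1 ≤ m ∧ |s| ≤ m ∧ (m : ℝ) ≤ |s| + 2 := by
    refine ⟨⌈|s|⌉₊ + 1, by omega, ?_, ?_⟩
    · push_cast
      linarith [Nat.le_ceil |s|]
    · push_cast
      linarith [Nat.ceil_lt_add_one (abs_nonneg s)]
  have hmpos : (0 : ℝ) < m := by exact_mod_cast hm1
  have hs : s = m * (s / m) := by field_simp
  have hs1 : |s / m| ≤ 1 := by
    rw [abs_div, abs_of_pos hmpos, div_le_one hmpos]
    exact hm2
  obtain ⟨h3, h4⟩ := abs_le.1 hs1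
  have he : Real.exp 1 < 3 := by linarith [Real.exp_one_lt_d9]
  obtain ⟨n, hn, hmem⟩ := hN 0 (fr 0 (s / m)) (by
    rw [mn_fr, abs_zero, zero_mul, add_zero]
    have e1 : Real.exp (-(s / m)) ≤ Real.exp 1 := Real.exp_le_exp.2 (by linarith)
    have e2 : Real.exp (s / m) ≤ Real.exp 1 := Real.exp_le_exp.2 (by linarith)
    linarith) (by simp)
  refine ⟨n * m, ?_, ?_⟩
  · push_cast
    exact mul_le_mul hn hm3 hmpos.le (by positivity)
  · rw [hs, ← Z_diag_pow, pow_mul]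
    exact Set.pow_mem_pow hmem

private lemma Z_unip {K : Set FQI.M3} {N : ℕ}
    (hN : ∀ (u : V) (g : SL(2, ℝ)), FQI.mn g.1 ≤ 6 → |u.1| + |u.2| ≤ 6 → Len K (mkM u g) N)
    (b r : ℝ) (hr : 0 ≤ r) (hb : |b| ≤ Real.exp (2 * r)) :
    Len K (mkM 0 (fr b 0)) (N * (2 * r + 5)) := by
  have e : mkM 0 (fr b 0) =
      mkM 0 (fr 0 (-r)) * mkM 0 (fr (b * Real.exp (-2 * r)) 0) * mkM 0 (fr 0 r) := by
    rw [Z_mkM0_mul, Z_mkM0_mul, fr_mul, fr_mul]
    congr 1
    have h1 : Real.exp (-2 * r) * Real.exp (-2 * -r) = 1 := by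
      rw [← Real.exp_add]; simp
    rw [zero_add, mul_assoc, h1, mul_one, zero_mul, add_zero]
    congr 1
    ring
  have h1 := Z_diag hN (-r)
  have h3 := Z_diag hN r
  have h2 := hN 0 (fr (b * Real.exp (-2 * r)) 0) (by
    rw [mn_fr, abs_mul, abs_of_pos (Real.exp_pos _)]
    have h5 : |b| * Real.exp (-2 * r) ≤ Real.exp (2 * r) * Real.exp (-2 * r) :=
      mul_le_mul_of_nonneg_right hb (Real.exp_pos _).le
    have h6 : Real.exp (2 * r) * Real.exp (-2 * r) = 1 := by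
      rw [← Real.exp_add]; simp
    rw [h6] at h5
    simp only [neg_zero, Real.exp_zero, mul_one]
    linarith) (by simp)
  rw [e]
  refine ((h1.mul h2).mul h3).mono (le_of_eq ?_)
  rw [abs_neg, abs_of_nonneg hr]
  ring

private lemma Z_tr1 {K : Set FQI.M3} {N : ℕ}
    (hN : ∀ (u : V) (g : SL(2, ℝ)), FQI.mn g.1 ≤ 6 → |u.1| + |u.2| ≤ 6 → Len K (mkM u g) N)
    (a l : ℝ) (hl : 0 ≤ l) (ha : |a| ≤ Real.exp l) :
    Len K (mkM (a, 0) 1) (N * (2 * l + 5)) := by
  have hll : Real.exp l * Real.exp (-l) = 1 := by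
    rw [← Real.exp_add]; simp
  have e : mkM (a, 0) 1 =
      mkM 0 (fr 0 (-l)) * mkM (Real.exp (-l) * a, 0) 1 * mkM 0 (fr 0 l) := by
    rw [mkM_mul, mkM_mul, mul_one, act_zero', zero_add, add_zero, fr_mul, act_fr]
    have e1 : fr (0 + 0 * Real.exp (-2 * -l)) (-l + l) = 1 := by
      rw [zero_mul, add_zero, neg_add_cancel, fr_zero]
    rw [e1, neg_neg]
    congr 1
    ext
    · change a = Real.exp l * (Real.exp (-l) * a) + 0 * Real.exp (-l) * 0
      rw [← mul_assoc, hll]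
      ring
    · change 0 = Real.exp (-l) * 0
      ring
  have h1 := Z_diag hN (-l)
  have h3 := Z_diag hN l
  have h2 := hN (Real.exp (-l) * a, 0) 1 (by
    rw [Matrix.SpecialLinearGroup.coe_one, FQI.mn_one]; norm_num) (by
    change |Real.exp (-l) * a| + |(0 : ℝ)| ≤ 6
    rw [abs_mul, abs_zero, abs_of_pos (Real.exp_pos _)]
    have h5 : Real.exp (-l) * |a| ≤ Real.exp (-l) * Real.exp l :=
      mul_le_mul_of_nonneg_left ha (Real.exp_pos _).le
    rw [mul_comm (Real.exp (-l)) (Real.exp l), hll] at h5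
    linarith)
  rw [e]
  refine ((h1.mul h2).mul h3).mono (le_of_eq ?_)
  rw [abs_neg, abs_of_nonneg hl]
  ring

private lemma Z_tr2 {K : Set FQI.M3} {N : ℕ}
    (hN : ∀ (u : V) (g : SL(2, ℝ)), FQI.mn g.1 ≤ 6 → |u.1| + |u.2| ≤ 6 → Len K (mkM u g) N)
    (a l : ℝ) (hl : 0 ≤ l) (ha : |a| ≤ Real.exp l) :
    Len K (mkM (0, a) 1) (N * (2 * l + 5)) := by
  have hll : Real.exp l * Real.exp (-l) = 1 := by
    rw [← Real.exp_add]; simp
  have e : mkM (0, a) 1 =
      mkM 0 (fr 0 l) * mkM (0, Real.exp (-l) * a) 1 * mkM 0 (fr 0 (-l)) := by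
    rw [mkM_mul, mkM_mul, mul_one, act_zero', zero_add, add_zero, fr_mul, act_fr]
    have e1 : fr (0 + 0 * Real.exp (-2 * l)) (l + -l) = 1 := by
      rw [zero_mul, add_zero, add_neg_cancel, fr_zero]
    rw [e1]
    congr 1
    ext
    · change 0 = Real.exp (-l) * 0 + 0 * Real.exp l * (Real.exp (-l) * a)
      ring
    · change a = Real.exp l * (Real.exp (-l) * a)
      rw [← mul_assoc, hll, one_mul]
  have h1 := Z_diag hN (-l)
  have h3 := Z_diag hN l
  have h2 := hN (0, Real.exp (-l) * a) 1 (by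
    rw [Matrix.SpecialLinearGroup.coe_one, FQI.mn_one]; norm_num) (by
    change |(0 : ℝ)| + |Real.exp (-l) * a| ≤ 6
    rw [abs_mul, abs_zero, abs_of_pos (Real.exp_pos _)]
    have h5 : Real.exp (-l) * |a| ≤ Real.exp (-l) * Real.exp l :=
      mul_le_mul_of_nonneg_left ha (Real.exp_pos _).le
    rw [mul_comm (Real.exp (-l)) (Real.exp l), hll] at h5
    linarith)
  rw [e]
  refine ((h3.mul h2).mul h1).mono (le_of_eq ?_)
  rw [abs_neg, abs_of_nonneg hl]
  ring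

open Pointwise in
theorem mem_of_ell (K : Set FQI.M3) (hK : IsCompact K) (h1 : (1 : FQI.M3) ∈ K)
    (hinv : ∀ M ∈ K, M⁻¹ ∈ K) (haff : ∀ M ∈ K, FQI.aff M)
    (hgen : ∀ M : FQI.M3, FQI.aff M → ∃ n : ℕ, M ∈ K ^ n) :
    ∃ A : ℝ, 0 ≤ A ∧ ∀ (u : V) (g : SL(2, ℝ)), Len K (mkM u g) (A * ell u g + A) := by
  obtain ⟨N, hN0⟩ := FQI.K_big K hK h1 hinv haff hgen 6
  have hN : ∀ (u : V) (g : SL(2, ℝ)), FQI.mn g.1 ≤ 6 → |u.1| + |u.2| ≤ 6 →
      Len K (mkM u g) N := fun u g hg hu =>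
    ⟨N, le_rfl, hN0 _ (aff_mkM u g) (by rw [gp_mkM]; exact hg) (by rw [vn_up_mkM]; exact hu)⟩
  refine ⟨19 * N, by positivity, fun u g => ?_⟩
  obtain ⟨b, j, hbj⟩ : ∃ b j : ℝ, g • o = pt b j := ⟨_, _, (pt_re_im (g • o)).symm⟩
  obtain ⟨k, hk⟩ : ∃ k : SL(2, ℝ), g = fr b j * k := ⟨(fr b j)⁻¹ * g, by
    rw [mul_inv_cancel_left]⟩
  have hko : k • o = o := by
    have e : fr b j • (k • o) = fr b j • o := by
      rw [smul_smul, ← hk, hbj, fr_smul_o]
    exact smul_left_cancel _ e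
  have hmk : FQI.mn k.1 ≤ 6 := by
    have h := mn_le_exp k
    rw [hko, rho_self, Real.exp_zero] at h
    linarith
  have hr0 : 0 ≤ rho o (g • o) := rho_nonneg _ _
  have hl0 : 0 ≤ Real.log (1 + nm o u) :=
    Real.log_nonneg (by linarith [nm_nonneg o u])
  obtain ⟨r, hr⟩ : ∃ r : ℝ, r = rho o (g • o) := ⟨_, rfl⟩
  obtain ⟨l, hl⟩ : ∃ l : ℝ, l = Real.log (1 + nm o u) := ⟨_, rfl⟩
  obtain ⟨f1, f2, f3, f4⟩ := entries_le (fr b j)
  rw [fr_smul_o, ← hbj, ← hr] at f1 f2 f3 f4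
  change |Real.exp (-j)| ≤ Real.exp r at f1
  change |b * Real.exp j| ≤ Real.exp r at f3
  change |Real.exp j| ≤ Real.exp r at f4
  rw [abs_of_pos (Real.exp_pos _)] at f1 f4
  rw [abs_mul, abs_of_pos (Real.exp_pos _)] at f3
  have g1 := Real.exp_le_exp.1 f1
  have g4 := Real.exp_le_exp.1 f4
  have hj : |j| ≤ r := abs_le.2 ⟨by linarith, g4⟩
  have hb : |b| ≤ Real.exp (2 * r) := by
    have e1 : |b| = |b| * Real.exp j * Real.exp (-j) := by
      rw [mul_assoc, ← Real.exp_add]; simp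
    have e2 : Real.exp (2 * r) = Real.exp r * Real.exp r := by
      rw [← Real.exp_add]; congr 1; ring
    rw [e1, e2]
    exact mul_le_mul f3 f1 (Real.exp_pos _).le (Real.exp_pos _).le
  have hel : 1 + nm o u = Real.exp l := by
    rw [hl, Real.exp_log (by linarith [nm_nonneg o u])]
  have hu1 : |u.1| ≤ Real.exp l := by
    have := abs_fst_le_nm_o u
    linarith
  have hu2 : |u.2| ≤ Real.exp l := by
    have := abs_snd_le_nm_o u
    linarith
  rw [← hr] at hr0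
  rw [← hl] at hl0
  have L1 := Z_tr1 hN u.1 l hl0 hu1
  have L2 := Z_tr2 hN u.2 l hl0 hu2
  have L3 := Z_unip hN b r hr0 hb
  have L4 := Z_diag hN j
  have L5 := hN 0 k hmk (by simp)
  have e : mkM u g = mkM (u.1, 0) 1 * mkM (0, u.2) 1 * mkM 0 (fr b 0) * mkM 0 (fr 0 j) *
      mkM 0 k := by
    rw [mkM_mul, mkM_mul, mkM_mul, mkM_mul, act_one, act_zero', act_zero', act_zero', zero_add,
      zero_add, zero_add, mul_one, one_mul, fr_mul, hk, zero_mul, add_zero, zero_add]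
    congr 1
    ext <;> simp
  rw [e]
  refine ((((L1.mul L2).mul L3).mul L4).mul L5).mono ?_
  unfold ell
  rw [← hr, ← hl]
  have hN1 : (0 : ℝ) ≤ N := Nat.cast_nonneg N
  have hj2 := mul_le_mul_of_nonneg_left hj hN1
  have q1 := mul_nonneg hN1 hr0
  have q2 := mul_nonneg hN1 hl0
  nlinarith

end Pool.Agent.FIB
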