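import Pool.Agent.FIB.ZRound
import Pool.Agent.FIB.ZLen
import Pool.Agent.FQI.Final

/-!
# From the preservation of the fibres to the theorem on groups

`partZ`: if `StF K` holds for all `K ≥ 1`, then no finitely generated group is quasi-isometric to
`ℝ² ⋊ SL₂(ℝ)` (the statement of `S02150`).

Proof. Write `f a = mkM (u a) (g a)`. The left translations of `Γ` are uniform coarse isometries for
`dd` (`mem_of_ell`, `ell_le_of_mem`), so they coarsely preserve the fibres (`fibres_of_StF`), which is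
the missing hypothesis of `FQI.final`.
-/

set_option autoImplicit false

namespace Pool.Agent.FIB

open UpperHalfPlane
open scoped MatrixGroups

open Pointwise in
theorem fp_of_StF (H : ∀ K : ℝ, 1 ≤ K → StF K)
    (Γ : Type) (_ : Group Γ) (S : Finset Γ) (K : Set FQI.M3) (f : Γ → FQI.M3) (L C : ℕ)
    (hK : IsCompact K) (h1 : (1 : FQI.M3) ∈ K) (hinv : ∀ M ∈ K, M⁻¹ ∈ K)
    (haff : ∀ M ∈ K, FQI.aff M) (hgen : ∀ M : FQI.M3, FQI.aff M → ∃ n : ℕ, M ∈ K ^ n)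
    (hf : ∀ a, FQI.aff (f a))
    (q1 : ∀ (a b : Γ) (n : ℕ), a⁻¹ * b ∈ ((S : Set Γ) ^ n) → (f a)⁻¹ * f b ∈ K ^ (L * n + C))
    (q2 : ∀ (a b : Γ) (n : ℕ), (f a)⁻¹ * f b ∈ K ^ n → a⁻¹ * b ∈ ((S : Set Γ) ^ (L * n + C)))
    (q3 : ∀ M : FQI.M3, FQI.aff M → ∃ a : Γ, (f a)⁻¹ * M ∈ K ^ C) :
    ∀ n : ℕ, ∃ m : ℕ, ∀ γ a b : Γ, (∃ v : FQI.V, (f a)⁻¹ * f b * FQI.mk3 v 1 ∈ K ^ n) →
      ∃ v : FQI.V, (f (γ * a))⁻¹ * f (γ * b) * FQI.mk3 v 1 ∈ K ^ m := by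
  choose u g hfu using fun a => exists_mkM (hf a)
  obtain ⟨A, hA0, hA⟩ := ell_le_of_mem K hK haff
  obtain ⟨A', hA'0, hA'⟩ := mem_of_ell K hK h1 hinv haff hgen
  have hab : ∀ a b, (f a)⁻¹ * f b = mkM (act (g a)⁻¹ (u b - u a)) ((g a)⁻¹ * g b) := by
    intro a b
    rw [hfu a, hfu b, mkM_inv_mul]
  have hL0 : (0 : ℝ) ≤ L := Nat.cast_nonneg L
  have hC0 : (0 : ℝ) ≤ C := Nat.cast_nonneg C
  have z1 : 0 ≤ A * (L * (L * A')) := by positivity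
  have z2 : 0 ≤ A * (L * C + C) := by positivity
  have z3 : 0 ≤ 2 * (A * C) := by positivity
  obtain ⟨B, hB⟩ : ∃ B : ℝ, B = 1 + A * (L * (L * A')) + A * (L * C + C) + 2 * (A * C) := ⟨_, rfl⟩
  have hB1 : 1 ≤ B := by linarith
  have hL : ∀ γ a b, dd (u (γ * a)) (g (γ * a) • o) (u (γ * b)) (g (γ * b) • o) ≤
      B * dd (u a) (g a • o) (u b) (g b • o) + B := by
    intro γ a b
    rw [dd_mkM, dd_mkM]
    obtain ⟨n, hn, hmem⟩ := hA' (act (g a)⁻¹ (u b - u a)) ((g a)⁻¹ * g b)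
    rw [← hab] at hmem
    have e1 := q2 a b n hmem
    have e2 := q1 (γ * a) (γ * b) (L * n + C) (by
      rw [mul_inv_rev, mul_assoc, inv_mul_cancel_left]
      exact e1)
    rw [hab] at e2
    have e3 := hA _ _ _ e2
    have hpos := ell_nonneg (act (g a)⁻¹ (u b - u a)) ((g a)⁻¹ * g b)
    obtain ⟨E, hE⟩ : ∃ E : ℝ, E = ell (act (g a)⁻¹ (u b - u a)) ((g a)⁻¹ * g b) := ⟨_, rfl⟩
    rw [← hE] at hn hpos ⊢
    refine e3.trans ?_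
    push_cast
    have s1 : A * (L * (L * n)) ≤ A * (L * (L * (A' * E + A'))) :=
      mul_le_mul_of_nonneg_left (mul_le_mul_of_nonneg_left (mul_le_mul_of_nonneg_left hn hL0) hL0)
        hA0
    have s2 : 0 ≤ (A * (L * C + C) + 2 * (A * C) + 1) * E := by positivity
    rw [hB]
    nlinarith
  have hco : ∀ (w : V) (y : ℍ), ∃ a, dd w y (u a) (g a • o) ≤ B := by
    intro w y
    obtain ⟨a, ha⟩ := q3 (mkM w (fr y.re (-(Real.log y.im) / 2))) (aff_mkM _ _)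
    refine ⟨a, ?_⟩
    rw [hfu a, mkM_inv_mul] at ha
    have e3 := hA _ _ _ ha
    rw [← dd_mkM, fr_smul_o, pt_re_im] at e3
    have e4 := dd_symm_le (u a) w (g a • o) y
    linarith
  intro n
  obtain ⟨R, hR⟩ := FQI.K_bdd K hK n
  obtain ⟨D', hD'⟩ := fibres_of_StF u (fun a => g a • o) B hB1 hL hco H R
  obtain ⟨m, hm⟩ := FQI.K_big K hK h1 hinv haff hgen (4 * Real.exp D')
  refine ⟨m, fun γ a b h => ?_⟩
  obtain ⟨v, hv⟩ := h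
  have hrho : ∀ a b, rho (g a • o) (g b • o) = rho o (((g a)⁻¹ * g b) • o) := by
    intro a b
    have h := rho_smul (g a)⁻¹ (g a • o) (g b • o)
    rw [inv_smul_smul, smul_smul] at h
    exact h.symm
  have h2 := (hR _ hv).1
  rw [FQI.gp_mul (FQI.aff_mk3 v 1 Matrix.det_one), FQI.gp_mk3, Matrix.mul_one, hab,
    gp_mkM] at h2
  have h3 : rho (g a • o) (g b • o) ≤ R := by
    rw [hrho]
    exact (rho_le_mn _).trans h2
  have h4 := hD' γ a b h3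
  change rho (g (γ * a) • o) (g (γ * b) • o) ≤ D' at h4
  rw [hrho] at h4
  have h5 := hab (γ * a) (γ * b)
  obtain ⟨w', hw'⟩ : ∃ w', w' = act (g (γ * a))⁻¹ (u (γ * b) - u (γ * a)) := ⟨_, rfl⟩
  obtain ⟨k, hk⟩ : ∃ k, k = (g (γ * a))⁻¹ * g (γ * b) := ⟨_, rfl⟩
  rw [← hw', ← hk] at h5
  rw [← hk] at h4
  have e : mkM w' k * mkM (-(act k⁻¹ w')) 1 = mkM 0 k := by
    rw [mkM_mul, mul_one, act_neg', ← act_mul, mul_inv_cancel, act_one, neg_add_cancel]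
  refine ⟨![(-(act k⁻¹ w')).1, (-(act k⁻¹ w')).2], ?_⟩
  rw [h5]
  have e6 : FQI.mk3 ![(-(act k⁻¹ w')).1, (-(act k⁻¹ w')).2] 1 = mkM (-(act k⁻¹ w')) 1 := by
    unfold mkM
    rw [Matrix.SpecialLinearGroup.coe_one]
  rw [e6, e]
  refine hm _ (aff_mkM 0 k) ?_ ?_
  · rw [gp_mkM]
    exact (mn_le_exp k).trans (mul_le_mul_of_nonneg_left (Real.exp_le_exp.2 h4) (by norm_num))
  · rw [vn_up_mkM]
    have := Real.exp_pos D'
    simp only [Prod.fst_zero, Prod.snd_zero, abs_zero, add_zero]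
    positivity

open Pointwise in
/-- Part Z: the statement of `S02150` from the preservation of the fibres by all `QM K`. -/
theorem partZ (H : ∀ K : ℝ, 1 ≤ K → StF K) :
    ¬ (∃ (Γ : Type) (_ : Group Γ) (S : Finset Γ) (K : Set (Matrix (Fin 3) (Fin 3) ℝ))
      (f : Γ → Matrix (Fin 3) (Fin 3) ℝ) (L C : ℕ),
      (1 : Γ) ∈ S ∧ (∀ s ∈ S, s⁻¹ ∈ S) ∧
      (∀ g : Γ, ∃ n : ℕ, g ∈ ((S : Set Γ) ^ n)) ∧
      IsCompact K ∧ (1 : Matrix (Fin 3) (Fin 3) ℝ) ∈ K ∧ (∀ M ∈ K, M⁻¹ ∈ K) ∧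
      (∀ M ∈ K, M 2 0 = 0 ∧ M 2 1 = 0 ∧ M 2 2 = 1 ∧ M.det = 1) ∧
      (∀ M : Matrix (Fin 3) (Fin 3) ℝ, (M 2 0 = 0 ∧ M 2 1 = 0 ∧ M 2 2 = 1 ∧ M.det = 1) →
        ∃ n : ℕ, M ∈ K ^ n) ∧
      (∀ a : Γ, (f a) 2 0 = 0 ∧ (f a) 2 1 = 0 ∧ (f a) 2 2 = 1 ∧ (f a).det = 1) ∧
      (∀ (a b : Γ) (n : ℕ), a⁻¹ * b ∈ ((S : Set Γ) ^ n) →
        (f a)⁻¹ * f b ∈ K ^ (L * n + C)) ∧
      (∀ (a b : Γ) (n : ℕ), (f a)⁻¹ * f b ∈ K ^ n →
        a⁻¹ * b ∈ ((S : Set Γ) ^ (L * n + C))) ∧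
      (∀ M : Matrix (Fin 3) (Fin 3) ℝ, (M 2 0 = 0 ∧ M 2 1 = 0 ∧ M 2 2 = 1 ∧ M.det = 1) →
        ∃ a : Γ, (f a)⁻¹ * M ∈ K ^ C)) := by
  rintro ⟨Γ, grp, S, K, f, L, C, -, -, hS, hK, h1, hinv, haff, hgen, hf, q1, q2, q3⟩
  exact FQI.final Γ grp S K f L C hS hK h1 hinv haff hgen hf q1 q2 q3
    (fp_of_StF H Γ grp S K f L C hK h1 hinv haff hgen hf q1 q2 q3)

end Pool.Agent.FIB
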