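import Pool.Agent.FIB.ZFinal

/-!
# Farb's question in the field's own terms

`G = ℝ² ⋊ SL₂(ℝ)` as a topological group of pairs, `GeodAdapted d`: the left invariant
pseudo-metrics of geometric group theory. `noQI_of_StF`: no finitely generated group is
quasi-isometric to `(G, d)`.
-/

set_option autoImplicit false

namespace Pool.Agent.FIB.Hedge

open scoped MatrixGroups

universe u

/-- The group `ℝ² ⋊ SL₂(ℝ)`: pairs `(v, A)` with `(v, A) (w, B) = (v + A w, A B)`. -/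
@[ext] structure G where
  v : Fin 2 → ℝ
  A : SL(2, ℝ)

noncomputable instance : Mul G := ⟨fun p q => ⟨p.v + Matrix.mulVec p.A.1 q.v, p.A * q.A⟩⟩

noncomputable instance : One G := ⟨⟨0, 1⟩⟩

noncomputable instance : Inv G := ⟨fun p => ⟨-(Matrix.mulVec (p.A⁻¹).1 p.v), p.A⁻¹⟩⟩

theorem G.mul_def (p q : G) : p * q = ⟨p.v + Matrix.mulVec p.A.1 q.v, p.A * q.A⟩ := rfl

theorem G.one_def : (1 : G) = ⟨0, 1⟩ := rfl

theorem G.inv_def (p : G) : p⁻¹ = ⟨-(Matrix.mulVec (p.A⁻¹).1 p.v), p.A⁻¹⟩ := rfl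

noncomputable instance : Group G := Group.ofLeftAxioms
  (fun p q r => by
    simp only [G.mul_def, Matrix.SpecialLinearGroup.coe_mul, Matrix.mulVec_add,
      Matrix.mulVec_mulVec, mul_assoc, add_assoc])
  (fun p => by
    simp [G.mul_def, G.one_def])
  (fun p => by
    simp [G.mul_def, G.one_def, G.inv_def])

/-- The topology of `ℝ² × SL₂(ℝ)`. -/
instance : TopologicalSpace G :=
  TopologicalSpace.induced (fun p : G => ((p.v, p.A) : (Fin 2 → ℝ) × SL(2, ℝ))) inferInstance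

/-- Left invariant pseudo-metrics on `G` whose bounded sets are the relatively compact ones and which
are geodesic on a large scale. -/
structure GeodAdapted (d : G → G → ℝ) : Prop where
  self : ∀ x, d x x = 0
  symm : ∀ x y, d x y = d y x
  triangle : ∀ x y z, d x z ≤ d x y + d y z
  left_inv : ∀ g x y, d (g * x) (g * y) = d x y
  bdd : ∀ K : Set G, IsCompact K → ∃ r : ℝ, ∀ x ∈ K, d 1 x ≤ r
  proper : ∀ r : ℝ, ∃ K : Set G, IsCompact K ∧ ∀ x, d 1 x ≤ r → x ∈ K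
  geodesic : ∃ C : ℝ, ∀ x y, ∃ (n : ℕ) (p : ℕ → G), p 0 = x ∧ p n = y ∧ (n : ℝ) ≤ C * d x y + C ∧
    ∀ i < n, d (p i) (p (i + 1)) ≤ C

/-- The word length of `g` for the generating set `S`: the least length of a word in `S` and the
inverses of the elements of `S` that represents `g`. -/
noncomputable def wl {Γ : Type u} [Group Γ] (S : Finset Γ) (g : Γ) : ℕ :=
  sInf {n : ℕ | ∃ l : List Γ, l.length = n ∧ (∀ s ∈ l, s ∈ S ∨ s⁻¹ ∈ S) ∧ l.prod = g}

/-! ### Matrices -/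

private noncomputable def Phi (p : G) : FQI.M3 := FQI.mk3 p.v p.A.1

private lemma Phi_mul (p q : G) : Phi (p * q) = Phi p * Phi q := by
  unfold Phi
  rw [FQI.mk3_mul, G.mul_def, Matrix.SpecialLinearGroup.coe_mul, add_comm]

private lemma Phi_one : Phi 1 = 1 := by
  unfold Phi
  rw [G.one_def, Matrix.SpecialLinearGroup.coe_one, FQI.mk3_one]

private lemma Phi_inv (p : G) : (Phi p)⁻¹ = Phi p⁻¹ := by
  refine Matrix.inv_eq_left_inv ?_
  rw [← Phi_mul, inv_mul_cancel, Phi_one]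

private lemma Phi_aff (p : G) : FQI.aff (Phi p) := FQI.aff_mk3 _ _ p.A.2

private lemma Phi_surj {M : FQI.M3} (h : FQI.aff M) : ∃ p : G, Phi p = M :=
  ⟨⟨FQI.up M, ⟨FQI.gp M, FQI.det_gp h⟩⟩, FQI.mk3_gp_up h⟩

private lemma Phi_inj {p q : G} (h : Phi p = Phi q) : p = q := by
  have h1 : FQI.up (Phi p) = FQI.up (Phi q) := by rw [h]
  have h2 : FQI.gp (Phi p) = FQI.gp (Phi q) := by rw [h]
  unfold Phi at h1 h2
  rw [FQI.up_mk3, FQI.up_mk3] at h1
  rw [FQI.gp_mk3, FQI.gp_mk3] at h2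
  exact G.ext h1 (Subtype.ext h2)

private lemma Phi_cont : Continuous Phi := by
  have h0 : Continuous fun p : G => ((p.v, p.A) : (Fin 2 → ℝ) × SL(2, ℝ)) := continuous_induced_dom
  have hv : Continuous fun p : G => p.v := continuous_fst.comp h0
  have hA : Continuous fun p : G => p.A := continuous_snd.comp h0
  have hA' : Continuous fun p : G => p.A.1 := continuous_subtype_val.comp hA
  have e : ∀ i j, Continuous fun p : G => p.A.1 i j := fun i j => hA'.matrix_elem i j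
  have e' : ∀ i, Continuous fun p : G => p.v i := fun i => (continuous_apply i).comp hv
  refine continuous_matrix fun i j => ?_
  fin_cases i <;> fin_cases j
  · exact e 0 0
  · exact e 0 1
  · exact e' 0
  · exact e 1 0
  · exact e 1 1
  · exact e' 1
  · exact continuous_const
  · exact continuous_const
  · exact continuous_const

/-! ### Word lengths -/

private lemma word_of_closure {Γ : Type u} [Group Γ] (S : Finset Γ)
    (hS : Subgroup.closure (S : Set Γ) = ⊤) (g : Γ) :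
    ∃ l : List Γ, (∀ s ∈ l, s ∈ S ∨ s⁻¹ ∈ S) ∧ l.prod = g := by
  have hg : g ∈ Subgroup.closure (S : Set Γ) := by rw [hS]; exact Subgroup.mem_top g
  induction hg using Subgroup.closure_induction with
  | mem x hx => exact ⟨[x], by
      intro s hs
      rw [List.mem_singleton] at hs
      rw [hs]
      exact Or.inl hx, by simp⟩
  | one => exact ⟨[], by simp, by simp⟩
  | mul x y _ _ hx hy =>
    obtain ⟨l, h1, h2⟩ := hx
    obtain ⟨l', h1', h2'⟩ := hy
    refine ⟨l ++ l', fun s hs => ?_, by rw [List.prod_append, h2, h2']⟩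
    rcases List.mem_append.1 hs with h | h
    · exact h1 s h
    · exact h1' s h
  | inv x _ hx =>
    obtain ⟨l, h1, h2⟩ := hx
    refine ⟨(l.map (·⁻¹)).reverse, fun s hs => ?_, by rw [← List.prod_inv_reverse, h2]⟩
    rw [List.mem_reverse, List.mem_map] at hs
    obtain ⟨t, ht, rfl⟩ := hs
    rw [inv_inv]
    exact (h1 t ht).symm

private lemma wl_spec {Γ : Type u} [Group Γ] (S : Finset Γ)
    (hS : Subgroup.closure (S : Set Γ) = ⊤) (g : Γ) :
    ∃ l : List Γ, l.length = wl S g ∧ (∀ s ∈ l, s ∈ S ∨ s⁻¹ ∈ S) ∧ l.prod = g := by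
  obtain ⟨l, h1, h2⟩ := word_of_closure S hS g
  have hne : {n : ℕ | ∃ l : List Γ, l.length = n ∧ (∀ s ∈ l, s ∈ S ∨ s⁻¹ ∈ S) ∧
      l.prod = g}.Nonempty := ⟨l.length, l, rfl, h1, h2⟩
  exact Nat.sInf_mem hne

open Classical in
/-- The symmetric generating set. -/
private noncomputable def sym {Γ : Type u} [Group Γ] (S : Finset Γ) : Finset Γ :=
  insert 1 (S ∪ S.image fun s => s⁻¹)

private lemma mem_sym {Γ : Type u} [Group Γ] (S : Finset Γ) (g : Γ) :
    g ∈ sym S ↔ g = 1 ∨ (g ∈ S ∨ g⁻¹ ∈ S) := by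
  classical
  unfold sym
  rw [Finset.mem_insert, Finset.mem_union, Finset.mem_image]
  constructor
  · rintro (h | h | ⟨s, hs, rfl⟩)
    · exact Or.inl h
    · exact Or.inr (Or.inl h)
    · exact Or.inr (Or.inr (by rw [inv_inv]; exact hs))
  · rintro (h | h | h)
    · exact Or.inl h
    · exact Or.inr (Or.inl h)
    · exact Or.inr (Or.inr ⟨g⁻¹, h, inv_inv g⟩)

open Pointwise in
private lemma prod_mem_pow {Γ : Type u} [Group Γ] (S : Finset Γ) (l : List Γ)
    (h : ∀ s ∈ l, s ∈ S ∨ s⁻¹ ∈ S) : l.prod ∈ (sym S : Set Γ) ^ l.length := by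
  induction l with
  | nil => rw [List.prod_nil, List.length_nil, pow_zero]; exact Set.mem_one.2 rfl
  | cons a l ih =>
    rw [List.prod_cons, List.length_cons, pow_succ']
    refine Set.mul_mem_mul ?_ (ih fun s hs => h s (List.mem_cons_of_mem a hs))
    exact (mem_sym S a).2 (Or.inr (h a List.mem_cons_self))

open Pointwise in
private lemma word_of_mem_pow {Γ : Type u} [Group Γ] (S : Finset Γ) (n : ℕ) :
    ∀ g ∈ (sym S : Set Γ) ^ n, ∃ l : List Γ, l.length ≤ n ∧ (∀ s ∈ l, s ∈ S ∨ s⁻¹ ∈ S) ∧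
      l.prod = g := by
  induction n with
  | zero =>
    intro g hg
    rw [pow_zero, Set.mem_one] at hg
    exact ⟨[], by simp, by simp, by simp [hg]⟩
  | succ n ih =>
    intro g hg
    rw [pow_succ', Set.mem_mul] at hg
    obtain ⟨a, ha, b, hb, rfl⟩ := hg
    obtain ⟨l, h1, h2, h3⟩ := ih b hb
    rcases (mem_sym S a).1 ha with h | h
    · exact ⟨l, by omega, h2, by rw [h, one_mul, h3]⟩
    · refine ⟨a :: l, by rw [List.length_cons]; omega, fun s hs => ?_, by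
        rw [List.prod_cons, h3]⟩
      rcases List.mem_cons.1 hs with h' | h'
      · rw [h']; exact h
      · exact h2 s h'

open Pointwise in
private lemma wl_le_of_mem_pow {Γ : Type u} [Group Γ] (S : Finset Γ) {n : ℕ} {g : Γ}
    (h : g ∈ (sym S : Set Γ) ^ n) : wl S g ≤ n := by
  obtain ⟨l, h1, h2, h3⟩ := word_of_mem_pow S n g h
  have h4 : l.length ∈ {n : ℕ | ∃ l : List Γ, l.length = n ∧ (∀ s ∈ l, s ∈ S ∨ s⁻¹ ∈ S) ∧
      l.prod = g} := ⟨l, rfl, h2, h3⟩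
  exact (Nat.sInf_le h4).trans h1

private lemma one_mem_sym {Γ : Type u} [Group Γ] (S : Finset Γ) : (1 : Γ) ∈ (sym S : Set Γ) :=
  (mem_sym S 1).2 (Or.inl rfl)

open Pointwise in
private lemma mem_pow_of_wl_le {Γ : Type u} [Group Γ] (S : Finset Γ)
    (hS : Subgroup.closure (S : Set Γ) = ⊤) {n : ℕ} {g : Γ}
    (h : wl S g ≤ n) : g ∈ (sym S : Set Γ) ^ n := by
  obtain ⟨l, h1, h2, h3⟩ := wl_spec S hS g
  have h4 := prod_mem_pow S l h2
  rw [h3, h1] at h4
  exact Set.pow_subset_pow_right (one_mem_sym S) h h4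

/-! ### Any universe -/

open Pointwise in
private lemma partZ_univ (H : ∀ K : ℝ, 1 ≤ K → StF K)
    (Γ : Type u) (_ : Group Γ) (S : Finset Γ) (K : Set FQI.M3) (f : Γ → FQI.M3) (L C : ℕ)
    (hS1 : (1 : Γ) ∈ S) (hSi : ∀ s ∈ S, s⁻¹ ∈ S)
    (hS : ∀ g : Γ, ∃ n : ℕ, g ∈ ((S : Set Γ) ^ n))
    (hK : IsCompact K) (h1 : (1 : FQI.M3) ∈ K) (hinv : ∀ M ∈ K, M⁻¹ ∈ K)
    (haff : ∀ M ∈ K, FQI.aff M) (hgen : ∀ M : FQI.M3, FQI.aff M → ∃ n : ℕ, M ∈ K ^ n)
    (hf : ∀ a, FQI.aff (f a))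
    (q1 : ∀ (a b : Γ) (n : ℕ), a⁻¹ * b ∈ ((S : Set Γ) ^ n) → (f a)⁻¹ * f b ∈ K ^ (L * n + C))
    (q2 : ∀ (a b : Γ) (n : ℕ), (f a)⁻¹ * f b ∈ K ^ n → a⁻¹ * b ∈ ((S : Set Γ) ^ (L * n + C)))
    (q3 : ∀ M : FQI.M3, FQI.aff M → ∃ a : Γ, (f a)⁻¹ * M ∈ K ^ C) : False := by
  classical
  have hcount : Countable Γ := by
    have h2 : (Set.univ : Set Γ) = ⋃ n : ℕ, ((S ^ n : Finset Γ) : Set Γ) := by
      ext g
      simp only [Set.mem_univ, Set.mem_iUnion, true_iff]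
      obtain ⟨n, hn⟩ := hS g
      exact ⟨n, by rw [Finset.coe_pow]; exact hn⟩
    rw [← Set.countable_univ_iff, h2]
    exact Set.countable_iUnion fun n => (Finset.finite_toSet _).countable
  have hsm : Small.{0} Γ := Countable.toSmall Γ
  let e : Shrink.{0} Γ ≃* Γ := Shrink.mulEquiv
  let T : Finset (Shrink.{0} Γ) := S.image e.symm
  have hT : ∀ n : ℕ, ∀ a : Shrink.{0} Γ, a ∈ (T : Set (Shrink.{0} Γ)) ^ n ↔
      e a ∈ (S : Set Γ) ^ n := by
    intro n a
    have h3 : (T : Set (Shrink.{0} Γ)) ^ n = e.symm '' ((S : Set Γ) ^ n) := by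
      rw [Set.image_pow, Finset.coe_image]
    rw [h3]
    constructor
    · rintro ⟨b, hb, rfl⟩
      rw [MulEquiv.apply_symm_apply]
      exact hb
    · intro h
      exact ⟨e a, h, MulEquiv.symm_apply_apply e a⟩
  refine partZ H ⟨Shrink.{0} Γ, inferInstance, T, K, fun a => f (e a), L, C, ?_, ?_, ?_, hK, h1,
    hinv, haff, hgen, fun a => hf _, ?_, ?_, ?_⟩
  · exact Finset.mem_image.2 ⟨1, hS1, map_one _⟩
  · intro s hs
    obtain ⟨t, ht, rfl⟩ := Finset.mem_image.1 hs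
    exact Finset.mem_image.2 ⟨t⁻¹, hSi t ht, map_inv _ _⟩
  · intro g
    obtain ⟨n, hn⟩ := hS (e g)
    exact ⟨n, (hT n g).2 hn⟩
  · intro a b n h
    refine q1 _ _ n ?_
    rw [← map_inv, ← map_mul]
    exact (hT n _).1 h
  · intro a b n h
    refine (hT _ _).2 ?_
    rw [map_mul, map_inv]
    exact q2 _ _ n h
  · intro M hM
    obtain ⟨a, ha⟩ := q3 M hM
    refine ⟨e.symm a, ?_⟩
    change (f (e (e.symm a)))⁻¹ * M ∈ K ^ C
    rw [MulEquiv.apply_symm_apply]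
    exact ha

/-! ### The theorem -/

private lemma d_nonneg {d : G → G → ℝ} (hd : GeodAdapted d) (x y : G) : 0 ≤ d x y := by
  have h1 := hd.triangle x y x
  rw [hd.self, hd.symm y x] at h1
  linarith

private lemma d_shift {d : G → G → ℝ} (hd : GeodAdapted d) (x y : G) : d 1 (x⁻¹ * y) = d x y := by
  have h1 := hd.left_inv x⁻¹ x y
  rwa [inv_mul_cancel] at h1

private lemma d_inv {d : G → G → ℝ} (hd : GeodAdapted d) (x : G) : d 1 x⁻¹ = d 1 x := by
  have h1 := d_shift hd x 1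
  rw [mul_one] at h1
  rw [h1, hd.symm]

open Pointwise in
theorem noQI_of_StF (H : ∀ K : ℝ, 1 ≤ K → StF K) {Γ : Type u} [Group Γ] (S : Finset Γ)
    (hS : Subgroup.closure (S : Set Γ) = ⊤) (d : G → G → ℝ) (hd : GeodAdapted d) :
    ¬ ∃ (f : Γ → G) (lam c : ℝ), 1 ≤ lam ∧ 0 ≤ c ∧
      (∀ a b, lam⁻¹ * wl S (a⁻¹ * b) - c ≤ d (f a) (f b) ∧
        d (f a) (f b) ≤ lam * wl S (a⁻¹ * b) + c) ∧
      ∀ y, ∃ a, d (f a) y ≤ c := by
  rintro ⟨f, lam, c, hlam, hc, hf, hco⟩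
  obtain ⟨C0, hC0, hgeo⟩ : ∃ C0 : ℝ, 0 ≤ C0 ∧ ∀ x y, ∃ (n : ℕ) (p : ℕ → G), p 0 = x ∧ p n = y ∧
      (n : ℝ) ≤ C0 * d x y + C0 ∧ ∀ i < n, d (p i) (p (i + 1)) ≤ C0 := by
    obtain ⟨C1, hC1⟩ := hd.geodesic
    refine ⟨|C1|, abs_nonneg _, fun x y => ?_⟩
    obtain ⟨n, p, h0, hn, h1, h2⟩ := hC1 x y
    refine ⟨n, p, h0, hn, ?_, fun i hi => (h2 i hi).trans (le_abs_self _)⟩
    have h3 := le_abs_self C1
    have h4 := mul_le_mul_of_nonneg_right h3 (d_nonneg hd x y)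
    linarith
  obtain ⟨K1, hK1c, hK1⟩ := hd.proper C0
  obtain ⟨r0, hr0⟩ := hd.bdd K1 hK1c
  obtain ⟨r, hr, hr0r⟩ : ∃ r : ℝ, 0 ≤ r ∧ r0 ≤ r := ⟨max r0 0, le_max_right _ _, le_max_left _ _⟩
  obtain ⟨K, hKdef⟩ : ∃ K : Set FQI.M3, K = Phi '' K1 ∪ (fun M => M.adjugate) '' (Phi '' K1) ∪ {1} :=
    ⟨_, rfl⟩
  have hadj : ∀ z : G, (Phi z).adjugate = Phi z⁻¹ := by
    intro z
    rw [← Phi_inv, Matrix.inv_def, (Phi_aff z).2.2.2, Ring.inverse_one, one_smul]
  have hKc : IsCompact K := by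
    rw [hKdef]
    have h1 := hK1c.image Phi_cont
    exact (h1.union (h1.image continuous_id.matrix_adjugate)).union isCompact_singleton
  have hK1' : (1 : FQI.M3) ∈ K := by
    rw [hKdef]
    exact Or.inr rfl
  have hKe : ∀ M ∈ K, ∃ z, Phi z = M ∧ (z ∈ K1 ∨ z⁻¹ ∈ K1 ∨ z = 1) := by
    intro M hM
    rw [hKdef] at hM
    rcases hM with (⟨z, hz, rfl⟩ | ⟨M', ⟨z, hz, rfl⟩, rfl⟩) | hM
    · exact ⟨z, rfl, Or.inl hz⟩
    · exact ⟨z⁻¹, (hadj z).symm, Or.inr (Or.inl (by rw [inv_inv]; exact hz))⟩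
    · refine ⟨1, ?_, Or.inr (Or.inr rfl)⟩
      rw [Phi_one]
      exact (Set.mem_singleton_iff.1 hM).symm
  have hKin : ∀ z, (z ∈ K1 ∨ z⁻¹ ∈ K1 ∨ z = 1) → Phi z ∈ K := by
    intro z hz
    rw [hKdef]
    rcases hz with h | h | h
    · exact Or.inl (Or.inl ⟨z, h, rfl⟩)
    · refine Or.inl (Or.inr ⟨Phi z⁻¹, ⟨z⁻¹, h, rfl⟩, ?_⟩)
      change (Phi z⁻¹).adjugate = Phi z
      rw [hadj, inv_inv]
    · rw [h, Phi_one]
      exact Or.inr rfl
  have hKr : ∀ M ∈ K, ∃ z, Phi z = M ∧ d 1 z ≤ r := by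
    intro M hM
    obtain ⟨z, hz, h⟩ := hKe M hM
    refine ⟨z, hz, ?_⟩
    rcases h with h | h | h
    · exact (hr0 z h).trans hr0r
    · rw [← d_inv hd z]
      exact (hr0 _ h).trans hr0r
    · rw [h, hd.self]
      exact hr
  have hA : ∀ (n : ℕ) (M : FQI.M3), M ∈ K ^ n → ∃ z, Phi z = M ∧ d 1 z ≤ r * n := by
    intro n
    induction n with
    | zero =>
      intro M hM
      rw [pow_zero, Set.mem_one] at hM
      exact ⟨1, by rw [Phi_one, hM], by rw [hd.self]; simp⟩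
    | succ n ih =>
      intro M hM
      rw [pow_succ, Set.mem_mul] at hM
      obtain ⟨x, hx, y, hy, rfl⟩ := hM
      obtain ⟨z, rfl, hz⟩ := ih x hx
      obtain ⟨z', rfl, hz'⟩ := hKr y hy
      refine ⟨z * z', Phi_mul z z', ?_⟩
      have h1 := hd.triangle 1 z (z * z')
      have h2 := hd.left_inv z 1 z'
      rw [mul_one] at h2
      push_cast
      linarith
  have hB : ∀ (z : G) (t : ℕ), C0 * d 1 z + C0 ≤ t → Phi z ∈ K ^ t := by
    intro z t ht
    obtain ⟨n, p, h0, hn, h1, h2⟩ := hgeo 1 z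
    have h3 : ∀ i ≤ n, Phi (p i) ∈ K ^ i := by
      intro i
      induction i with
      | zero =>
        intro _
        rw [h0, Phi_one, pow_zero]
        exact Set.mem_one.2 rfl
      | succ i ih =>
        intro hi
        have e : p (i + 1) = p i * ((p i)⁻¹ * p (i + 1)) := by rw [mul_inv_cancel_left]
        rw [e, Phi_mul, pow_succ]
        refine Set.mul_mem_mul (ih (by omega)) (hKin _ (Or.inl (hK1 _ ?_)))
        rw [d_shift hd]
        exact h2 i (by omega)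
    have h4 := h3 n le_rfl
    rw [hn] at h4
    have h5 : n ≤ t := by
      have : (n : ℝ) ≤ t := h1.trans ht
      exact_mod_cast this
    exact Set.pow_subset_pow_right hK1' h5 h4
  obtain ⟨L, hL⟩ : ∃ L : ℕ, C0 * lam + lam * r ≤ L := ⟨_, Nat.le_ceil _⟩
  obtain ⟨C, hC⟩ : ∃ C : ℕ, C0 * c + C0 + lam * c ≤ C := ⟨_, Nat.le_ceil _⟩
  have w1 : 0 ≤ C0 * lam := by positivity
  have w2 : 0 ≤ lam * r := by positivity
  have w3 : 0 ≤ C0 * c := by positivity
  have w4 : 0 ≤ lam * c := by positivity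
  refine partZ_univ H Γ inferInstance (sym S) K (fun a => Phi (f a)) L C (one_mem_sym S) ?_ ?_ hKc
    hK1' ?_ ?_ ?_ (fun a => Phi_aff _) ?_ ?_ ?_
  · intro s hs
    rw [mem_sym] at hs ⊢
    rcases hs with h | h | h
    · exact Or.inl (by rw [h, inv_one])
    · exact Or.inr (Or.inr (by rw [inv_inv]; exact h))
    · exact Or.inr (Or.inl h)
  · intro g
    exact ⟨wl S g, mem_pow_of_wl_le S hS le_rfl⟩
  · intro M hM
    obtain ⟨z, rfl, hz⟩ := hKe M hM
    rw [Phi_inv]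
    refine hKin _ ?_
    rcases hz with h | h | h
    · exact Or.inr (Or.inl (by rw [inv_inv]; exact h))
    · exact Or.inl h
    · exact Or.inr (Or.inr (by rw [h, inv_one]))
  · intro M hM
    obtain ⟨z, rfl, hz⟩ := hKe M hM
    exact Phi_aff z
  · intro M hM
    obtain ⟨z, rfl⟩ := Phi_surj hM
    exact ⟨_, hB z ⌈C0 * d 1 z + C0⌉₊ (Nat.le_ceil _)⟩
  · intro a b n h
    rw [Phi_inv, ← Phi_mul]
    refine hB _ _ ?_
    rw [d_shift hd]
    have h1 : (wl S (a⁻¹ * b) : ℝ) ≤ n := by exact_mod_cast wl_le_of_mem_pow S h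
    have h2 := (hf a b).2
    have h3 : lam * wl S (a⁻¹ * b) ≤ lam * n := mul_le_mul_of_nonneg_left h1 (by linarith)
    have h4 : C0 * d (f a) (f b) ≤ C0 * (lam * n + c) :=
      mul_le_mul_of_nonneg_left (by linarith) hC0
    have h5 : (C0 * lam + lam * r) * n ≤ L * n := mul_le_mul_of_nonneg_right hL (Nat.cast_nonneg n)
    have h6 : 0 ≤ lam * r * n := by positivity
    push_cast
    linarith
  · intro a b n h
    change (Phi (f a))⁻¹ * Phi (f b) ∈ K ^ n at h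
    rw [Phi_inv, ← Phi_mul] at h
    refine mem_pow_of_wl_le S hS ?_
    obtain ⟨z, hz, hz'⟩ := hA n _ h
    rw [Phi_inj hz, d_shift hd] at hz'
    have h2 := (hf a b).1
    have h3 : lam⁻¹ * wl S (a⁻¹ * b) ≤ r * n + c := by linarith
    have hlam0 : 0 < lam := by linarith
    have h4 : lam * (lam⁻¹ * wl S (a⁻¹ * b)) ≤ lam * (r * n + c) :=
      mul_le_mul_of_nonneg_left h3 hlam0.le
    rw [← mul_assoc, mul_inv_cancel₀ hlam0.ne', one_mul] at h4
    have h5 : (C0 * lam + lam * r) * n ≤ L * n := mul_le_mul_of_nonneg_right hL (Nat.cast_nonneg n)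
    have h6 : 0 ≤ C0 * lam * n := by positivity
    have h7 : (wl S (a⁻¹ * b) : ℝ) ≤ ((L * n + C : ℕ) : ℝ) := by
      push_cast
      linarith
    exact_mod_cast h7
  · intro M hM
    obtain ⟨y, rfl⟩ := Phi_surj hM
    obtain ⟨a, ha⟩ := hco y
    refine ⟨a, ?_⟩
    rw [Phi_inv, ← Phi_mul]
    refine hB _ _ ?_
    rw [d_shift hd]
    have h4 : C0 * d (f a) y ≤ C0 * c := mul_le_mul_of_nonneg_left ha hC0
    linarith

end Pool.Agent.FIB.Hedge
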