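import Pool.Agent.FIB.Step
import Pool.Agent.FQI.AffMat

/-!
# The affine group in the coordinates of `X = V × ℍ`

`mkM u g` is the element `(u, g)` of `ℝ² ⋊ SL₂(ℝ)` as a `3 × 3` matrix; its point in `X` is
`(u, g • o)`. `ell u g` is the coarse distance from the base point to `(u, g • o)`;
`dd u (g • o) u' (g' • o) = ell` of `(mkM u g)⁻¹ * mkM u' g'`.
-/

set_option autoImplicit false

namespace Pool.Agent.FIB

open UpperHalfPlane
open scoped MatrixGroups

/-- The element `(u, g)` of `ℝ² ⋊ SL₂(ℝ)` as a matrix. -/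
noncomputable def mkM (u : V) (g : SL(2, ℝ)) : FQI.M3 := FQI.mk3 ![u.1, u.2] g.1

/-- The coarse distance from `(0, o)` to `(u, g • o)`. -/
noncomputable def ell (u : V) (g : SL(2, ℝ)) : ℝ := rho o (g • o) + Real.log (1 + nm o u)

theorem aff_mkM (u : V) (g : SL(2, ℝ)) : FQI.aff (mkM u g) := FQI.aff_mk3 _ _ g.2

theorem gp_mkM (u : V) (g : SL(2, ℝ)) : FQI.gp (mkM u g) = g.1 := FQI.gp_mk3 _ _

theorem up_mkM (u : V) (g : SL(2, ℝ)) : FQI.up (mkM u g) = ![u.1, u.2] := FQI.up_mk3 _ _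

theorem vn_up_mkM (u : V) (g : SL(2, ℝ)) : FQI.vn (FQI.up (mkM u g)) = |u.1| + |u.2| := by
  rw [up_mkM]
  rfl

theorem mkM_mul (u u' : V) (g g' : SL(2, ℝ)) :
    mkM u g * mkM u' g' = mkM (act g u' + u) (g * g') := by
  unfold mkM
  rw [FQI.mk3_mul, Matrix.SpecialLinearGroup.coe_mul]
  congr 1
  ext i
  fin_cases i <;> simp [act]

theorem mkM_one : mkM 0 1 = 1 := by
  unfold mkM
  rw [Matrix.SpecialLinearGroup.coe_one, ← FQI.mk3_one]
  congr 1
  ext i
  fin_cases i <;> simp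

theorem exists_mkM {M : FQI.M3} (h : FQI.aff M) : ∃ (u : V) (g : SL(2, ℝ)), M = mkM u g := by
  refine ⟨(M 0 2, M 1 2), ⟨FQI.gp M, FQI.det_gp h⟩, ?_⟩
  exact (FQI.mk3_gp_up h).symm

theorem act_zero' (g : SL(2, ℝ)) : act g 0 = 0 := by
  have h := act_sub g 0 0
  rwa [sub_self, sub_self] at h

theorem act_neg' (g : SL(2, ℝ)) (v : V) : act g (-v) = -act g v := by
  have h := act_sub g 0 v
  rwa [zero_sub, act_zero', zero_sub] at h

theorem mkM_inv (u : V) (g : SL(2, ℝ)) : (mkM u g)⁻¹ = mkM (-(act g⁻¹ u)) g⁻¹ := by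
  refine Matrix.inv_eq_left_inv ?_
  rw [mkM_mul, inv_mul_cancel, add_neg_cancel, mkM_one]

theorem mkM_inv_mul (u u' : V) (g g' : SL(2, ℝ)) :
    (mkM u g)⁻¹ * mkM u' g' = mkM (act g⁻¹ (u' - u)) (g⁻¹ * g') := by
  rw [mkM_inv, mkM_mul, act_sub, sub_eq_add_neg]

theorem dd_mkM (u u' : V) (g g' : SL(2, ℝ)) :
    dd u (g • o) u' (g' • o) = ell (act g⁻¹ (u' - u)) (g⁻¹ * g') := by
  unfold dd ell
  have h1 := rho_smul g⁻¹ (g • o) (g' • o)
  rw [inv_smul_smul, smul_smul] at h1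
  have h2 := nm_act g⁻¹ (g • o) (u' - u)
  rw [inv_smul_smul] at h2
  rw [nm_sub_comm, h1, h2]

theorem nm_o_e (i : Bool) : nm o (if i then ((1, 0) : V) else (0, 1)) ≤ 1 := by
  have h := nm_o_le (if i then ((1, 0) : V) else (0, 1))
  refine h.trans ?_
  cases i <;> simp

theorem nm_act_le (g : SL(2, ℝ)) (v : V) :
    nm o (act g v) ≤ Real.exp (rho o (g • o)) * nm o v := by
  have h := nm_le (g • o) o (act g v)
  rwa [nm_act, rho_comm] at h

theorem entries_le (g : SL(2, ℝ)) :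
    |g 0 0| ≤ Real.exp (rho o (g • o)) ∧ |g 1 0| ≤ Real.exp (rho o (g • o)) ∧
    |g 0 1| ≤ Real.exp (rho o (g • o)) ∧ |g 1 1| ≤ Real.exp (rho o (g • o)) := by
  have hE := Real.exp_pos (rho o (g • o))
  have h1 : nm o (act g ((1, 0) : V)) ≤ Real.exp (rho o (g • o)) := by
    refine (nm_act_le g _).trans ?_
    have h := nm_o_e true
    simp only [if_true] at h
    nlinarith [nm_nonneg o ((1, 0) : V)]
  have h2 : nm o (act g ((0, 1) : V)) ≤ Real.exp (rho o (g • o)) := by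
    refine (nm_act_le g _).trans ?_
    have h := nm_o_e false
    simp only [Bool.false_eq_true, if_false] at h
    nlinarith [nm_nonneg o ((0, 1) : V)]
  have e1 : act g ((1, 0) : V) = (g 0 0, g 1 0) := by
    unfold act
    simp
  have e2 : act g ((0, 1) : V) = (g 0 1, g 1 1) := by
    unfold act
    simp
  rw [e1] at h1
  rw [e2] at h2
  exact ⟨(abs_fst_le_nm_o ((g 0 0, g 1 0) : V)).trans h1,
    (abs_snd_le_nm_o ((g 0 0, g 1 0) : V)).trans h1,
    (abs_fst_le_nm_o ((g 0 1, g 1 1) : V)).trans h2,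
    (abs_snd_le_nm_o ((g 0 1, g 1 1) : V)).trans h2⟩

theorem mn_le_exp (g : SL(2, ℝ)) : FQI.mn g.1 ≤ 4 * Real.exp (rho o (g • o)) := by
  obtain ⟨h1, h2, h3, h4⟩ := entries_le g
  unfold FQI.mn
  change |g 0 0| + |g 0 1| + |g 1 0| + |g 1 1| ≤ _
  linarith

/-- The distance is bounded by the entries. -/
theorem rho_le_mn (g : SL(2, ℝ)) : rho o (g • o) ≤ FQI.mn g.1 := by
  have him : o.im = 1 := by
    change Real.exp (-2 * 0) = 1
    simp
  have hoc : ((o : ℍ) : ℂ) = Complex.I := by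
    apply Complex.ext
    · rfl
    · exact him
  have hdet : g 0 0 * g 1 1 - g 0 1 * g 1 0 = 1 := by
    have h := g.det_coe
    rw [Matrix.det_fin_two] at h
    exact h
  set x : ℍ := g • o with hx
  have hxim : 0 < x.im := x.im_pos
  have hs : 0 < Real.sqrt x.im := Real.sqrt_pos.2 hxim
  -- the two norms
  have hi00 : g⁻¹ 0 0 = g 1 1 := by
    rw [Matrix.SpecialLinearGroup.SL2_inv_expl]; rfl
  have hi01 : g⁻¹ 0 1 = -g 0 1 := by
    rw [Matrix.SpecialLinearGroup.SL2_inv_expl]; rfl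
  have hi10 : g⁻¹ 1 0 = -g 1 0 := by
    rw [Matrix.SpecialLinearGroup.SL2_inv_expl]; rfl
  have hi11 : g⁻¹ 1 1 = g 0 0 := by
    rw [Matrix.SpecialLinearGroup.SL2_inv_expl]; rfl
  have hn : ∀ v : V, nm x v = nm o (act g⁻¹ v) := by
    intro v
    have h := nm_act g⁻¹ x v
    rw [hx, inv_smul_smul] at h
    rw [← h]
  have h1 : 1 / Real.sqrt x.im ≤ |g 1 1| + |g 1 0| := by
    have e := nm_eq x ((1, 0) : V)
    have e1 : ‖(((1, 0) : V).1 : ℂ) - (x : ℂ) * (((1, 0) : V).2 : ℂ)‖ = 1 := by simp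
    rw [e1, hn] at e
    rw [← e]
    refine (nm_o_le _).trans (le_of_eq ?_)
    unfold act
    rw [hi00, hi01, hi10, hi11]
    simp
  have h2 : ‖(x : ℂ)‖ / Real.sqrt x.im ≤ |g 0 1| + |g 0 0| := by
    have e := nm_eq x ((0, 1) : V)
    have e1 : ‖(((0, 1) : V).1 : ℂ) - (x : ℂ) * (((0, 1) : V).2 : ℂ)‖ = ‖(x : ℂ)‖ := by simp
    rw [e1, hn] at e
    rw [← e]
    refine (nm_o_le _).trans (le_of_eq ?_)
    unfold act
    rw [hi00, hi01, hi10, hi11]
    simp
  have h3 := dist_le_dist_coe_div_sqrt o x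
  rw [him, one_mul, hoc] at h3
  have h4 : dist Complex.I (x : ℂ) ≤ 1 + ‖(x : ℂ)‖ := by
    rw [dist_eq_norm]
    exact (norm_sub_le _ _).trans (by rw [Complex.norm_I])
  have h5 : dist o x ≤ 1 / Real.sqrt x.im + ‖(x : ℂ)‖ / Real.sqrt x.im := by
    refine h3.trans ?_
    rw [← add_div]
    exact div_le_div_of_nonneg_right h4 hs.le
  unfold rho FQI.mn
  change dist o x / 2 ≤ |g 0 0| + |g 0 1| + |g 1 0| + |g 1 1|
  have a1 := abs_nonneg (g 0 0)
  have a2 := abs_nonneg (g 0 1)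
  have a3 := abs_nonneg (g 1 0)
  have a4 := abs_nonneg (g 1 1)
  linarith

theorem ell_nonneg (u : V) (g : SL(2, ℝ)) : 0 ≤ ell u g := by
  unfold ell
  have h1 := rho_nonneg o (g • o)
  have h2 := Real.log_nonneg (by linarith [nm_nonneg o u] : (1 : ℝ) ≤ 1 + nm o u)
  linarith

end Pool.Agent.FIB
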