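import Pool.Agent.FIB.Step
import Pool.Agent.FIB.Iface

/-!
# The reference maps of the left translations

`Pos`: an abstract quasi-isometry of a group `Γ` to `X = V × ℍ`, `a ↦ (u a, x a)`, whose left
translations are uniform coarse isometries (`B dd + B`). For every `γ` the map
`p ↦ (u (γ a(p)), x (γ a(p)))`, where `a(p)` is an element of `Γ` near `p` (chosen through a
countable dense set, so that everything factors through a measurable map to `ℕ`), is a `QM K` with `K`
independent of `γ` (`refMap`). So `StF K` gives: left translations coarsely preserve the fibres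
(`fibres_of_StF`).
-/

set_option autoImplicit false

namespace Pool.Agent.FIB

open UpperHalfPlane MeasureTheory Set

private lemma Z_log_add_le {a b : ℝ} (ha : 0 ≤ a) (hb : 0 ≤ b) :
    Real.log (1 + (a + b)) ≤ Real.log (1 + a) + Real.log (1 + b) := by
  rw [← Real.log_mul (by positivity) (by positivity)]
  exact Real.log_le_log (by positivity) (by nlinarith [mul_nonneg ha hb])

private lemma Z_log_exp_le {r a : ℝ} (hr : 0 ≤ r) (ha : 0 ≤ a) :
    Real.log (1 + Real.exp r * a) ≤ r + Real.log (1 + a) := by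
  have h1 : r + Real.log (1 + a) = Real.log (Real.exp r * (1 + a)) := by
    rw [Real.log_mul (Real.exp_pos r).ne' (by positivity), Real.log_exp]
  rw [h1]
  refine Real.log_le_log (by positivity) ?_
  have h2 : 1 ≤ Real.exp r := Real.one_le_exp hr
  nlinarith

private lemma Z_log_nm_change (x y : ℍ) (v : V) :
    Real.log (1 + nm y v) ≤ rho x y + Real.log (1 + nm x v) := by
  have h := nm_le x y v
  have h0 := nm_nonneg y v
  refine le_trans (Real.log_le_log (by linarith) (by linarith)) (Z_log_exp_le (rho_nonneg x y)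
    (nm_nonneg x v))

private lemma Z_log_nonneg (x : ℍ) (v : V) : 0 ≤ Real.log (1 + nm x v) :=
  Real.log_nonneg (by linarith [nm_nonneg x v])

theorem dd_triangle (w w' w'' : V) (x x' x'' : ℍ) :
    dd w x w'' x'' ≤ 2 * dd w x w' x' + dd w' x' w'' x'' := by
  unfold dd
  have h1 := rho_triangle x x' x''
  have h2 := Z_log_nm_change x' x (w' - w'')
  have h3 := nm_sub_le' x w w' w''
  have h4 : Real.log (1 + nm x (w - w'')) ≤
      Real.log (1 + nm x (w - w')) + Real.log (1 + nm x (w' - w'')) := by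
    refine le_trans (Real.log_le_log (by linarith [nm_nonneg x (w - w'')]) ?_)
      (Z_log_add_le (nm_nonneg x (w - w')) (nm_nonneg x (w' - w'')))
    linarith
  have h5 := Z_log_nonneg x (w - w')
  have h6 := rho_comm x x'
  linarith

theorem dd_symm_le (w w' : V) (x x' : ℍ) : dd w' x' w x ≤ 2 * dd w x w' x' := by
  unfold dd
  have h2 := Z_log_nm_change x x' (w' - w)
  rw [nm_sub_comm x w' w] at h2
  have h5 := Z_log_nonneg x (w - w')
  have h6 := rho_comm x x'
  linarith

theorem rho_le_dd (w w' : V) (x x' : ℍ) : rho x x' ≤ dd w x w' x' := by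
  unfold dd
  linarith [Z_log_nonneg x (w - w')]

theorem log_le_dd (w w' : V) (x x' : ℍ) : Real.log (1 + nm x (w - w')) ≤ dd w x w' x' := by
  unfold dd
  linarith [rho_nonneg x x']

theorem dd_same (w : V) (x x' : ℍ) : dd w x w x' = rho x x' := by
  unfold dd
  rw [sub_self, nm_zero, add_zero, Real.log_one, add_zero]

private lemma Z_cont_nm : Continuous fun p : ℍ × V => nm p.1 p.2 := by
  unfold nm
  have h1 : Continuous fun p : ℍ × V => p.1.re := UpperHalfPlane.continuous_re.comp continuous_fst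
  have h2 : Continuous fun p : ℍ × V => p.1.im := UpperHalfPlane.continuous_im.comp continuous_fst
  have h3 : Continuous fun p : ℍ × V => p.2.1 := continuous_fst.comp continuous_snd
  have h4 : Continuous fun p : ℍ × V => p.2.2 := continuous_snd.comp continuous_snd
  exact ((((h3.sub (h1.mul h4)).pow 2).add ((h2.mul h4).pow 2)).div h2
    (fun p => p.1.im_pos.ne')).sqrt

theorem continuous_dd : Continuous fun p : (V × ℍ) × (V × ℍ) => dd p.1.1 p.1.2 p.2.1 p.2.2 := by
  unfold dd rho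
  have h1 : Continuous fun p : (V × ℍ) × (V × ℍ) => dist p.1.2 p.2.2 / 2 :=
    ((continuous_snd.comp continuous_fst).dist (continuous_snd.comp continuous_snd)).div_const 2
  have h2 : Continuous fun p : (V × ℍ) × (V × ℍ) => nm p.1.2 (p.1.1 - p.2.1) :=
    Z_cont_nm.comp ((continuous_snd.comp continuous_fst).prodMk
      ((continuous_fst.comp continuous_fst).sub (continuous_fst.comp continuous_snd)))
  refine h1.add (Continuous.log (f := fun p : (V × ℍ) × (V × ℍ) => 1 + nm p.1.2 (p.1.1 - p.2.1))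
    (continuous_const.add h2) (fun p => ?_))
  have h3 := nm_nonneg p.1.2 (p.1.1 - p.2.1)
  change 1 + nm p.1.2 (p.1.1 - p.2.1) ≠ 0
  linarith

private lemma Z_cont_r (p : V × ℍ) : Continuous fun q : V × ℍ => dd p.1 p.2 q.1 q.2 :=
  Continuous.comp (g := fun p : (V × ℍ) × (V × ℍ) => dd p.1.1 p.1.2 p.2.1 p.2.2)
    (f := fun q : V × ℍ => (p, q)) continuous_dd (Continuous.prodMk_right p)

private lemma Z_cont_l (q : V × ℍ) : Continuous fun p : V × ℍ => dd p.1 p.2 q.1 q.2 :=
  Continuous.comp (g := fun p : (V × ℍ) × (V × ℍ) => dd p.1.1 p.1.2 p.2.1 p.2.2)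
    (f := fun p : V × ℍ => (p, q)) continuous_dd (Continuous.prodMk_left q)

private lemma Z_open_r (p : V × ℍ) (r : ℝ) : IsOpen {q : V × ℍ | dd p.1 p.2 q.1 q.2 < r} :=
  (Z_cont_r p).isOpen_preimage _ isOpen_Iio

private lemma Z_open_l (q : V × ℍ) (r : ℝ) : IsOpen {p : V × ℍ | dd p.1 p.2 q.1 q.2 < r} :=
  (Z_cont_l q).isOpen_preimage _ isOpen_Iio

/-- Measurable rounding: a measurable map `c` to `ℕ` and points `d n` with `d (c p)` near `p`. -/
theorem exists_round : ∃ (c : V × ℍ → ℕ) (d : ℕ → V × ℍ), Measurable c ∧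
    ∀ p : V × ℍ, dd p.1 p.2 (d (c p)).1 (d (c p)).2 ≤ 1 := by
  classical
  have hne0 : Nonempty (V × ℍ) := ⟨(0, o)⟩
  obtain ⟨d, hdense⟩ : ∃ d : ℕ → V × ℍ, DenseRange d :=
    ⟨_, TopologicalSpace.denseRange_denseSeq (V × ℍ)⟩
  have hd : ∀ p : V × ℍ, ∃ n : ℕ, dd p.1 p.2 (d n).1 (d n).2 < 1 := by
    intro p
    have ho := Z_open_r p 1
    have hne : {q : V × ℍ | dd p.1 p.2 q.1 q.2 < 1}.Nonempty := by
      refine ⟨p, ?_⟩
      change dd p.1 p.2 p.1 p.2 < 1
      rw [dd_same, rho_self]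
      exact one_pos
    obtain ⟨n, hn⟩ := hdense.exists_mem_open ho hne
    exact ⟨n, hn⟩
  refine ⟨fun p => Nat.find (hd p), d, ?_, fun p => (Nat.find_spec (hd p)).le⟩
  refine measurable_find hd fun n => ?_
  exact (Z_open_l (d n) 1).measurableSet

/-- The main lemma of the reduction: from the preservation of fibres by all `QM K` to the preservation
of fibres by the left translations. -/
theorem fibres_of_StF {Γ : Type} [Group Γ] (u : Γ → V) (x : Γ → ℍ) (B : ℝ) (hB : 1 ≤ B)
    (hL : ∀ γ a b, dd (u (γ * a)) (x (γ * a)) (u (γ * b)) (x (γ * b)) ≤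
      B * dd (u a) (x a) (u b) (x b) + B)
    (hco : ∀ (w : V) (y : ℍ), ∃ a, dd w y (u a) (x a) ≤ B)
    (hF : ∀ K : ℝ, 1 ≤ K → StF K) (D : ℝ) :
    ∃ D' : ℝ, ∀ γ a b, rho (x a) (x b) ≤ D → rho (x (γ * a)) (x (γ * b)) ≤ D' := by
  obtain ⟨c, d, hc, hcd⟩ := exists_round
  choose α hα using fun n : ℕ => hco (d n).1 (d n).2
  -- the point of `Γ` near `p`
  have hnear : ∀ p : V × ℍ, dd p.1 p.2 (u (α (c p))) (x (α (c p))) ≤ B + 2 := by
    intro p
    have h1 := dd_triangle p.1 (d (c p)).1 (u (α (c p))) p.2 (d (c p)).2 (x (α (c p)))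
    have h2 := hcd p
    have h3 := hα (c p)
    linarith
  have hK1 : (1 : ℝ) ≤ 5 * B * (B + 2) + 2 * B + 4 * (B + 2) := by nlinarith
  set K : ℝ := 5 * B * (B + 2) + 2 * B + 4 * (B + 2) with hKdef
  have hK2 : 2 * B ≤ K := by nlinarith
  have hK3 : B * (5 * (B + 2)) + B ≤ K := by nlinarith
  have hK4 : 4 * (B + 2) + 2 * B ≤ K := by nlinarith
  obtain ⟨C0, hC0⟩ := hF K hK1
  -- the key estimates
  have hup : ∀ (γ : Γ) (p q : V × ℍ), dd (u (γ * α (c p))) (x (γ * α (c p)))
      (u (γ * α (c q))) (x (γ * α (c q))) ≤ K * dd p.1 p.2 q.1 q.2 + K := by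
    intro γ p q
    have h1 := hL γ (α (c p)) (α (c q))
    have h2 := dd_triangle (u (α (c p))) p.1 (u (α (c q))) (x (α (c p))) p.2 (x (α (c q)))
    have h3 := dd_triangle p.1 q.1 (u (α (c q))) p.2 q.2 (x (α (c q)))
    have h4 := dd_symm_le p.1 (u (α (c p))) p.2 (x (α (c p)))
    have h5 := hnear p
    have h6 := hnear q
    have h7 := dd_nonneg p.1 q.1 p.2 q.2
    have h8 : dd (u (α (c p))) (x (α (c p))) (u (α (c q))) (x (α (c q))) ≤
        2 * dd p.1 p.2 q.1 q.2 + 5 * (B + 2) := by linarith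
    have h9 : B * dd (u (α (c p))) (x (α (c p))) (u (α (c q))) (x (α (c q))) ≤
        B * (2 * dd p.1 p.2 q.1 q.2 + 5 * (B + 2)) :=
      mul_le_mul_of_nonneg_left h8 (by linarith)
    have h10 : 2 * B * dd p.1 p.2 q.1 q.2 ≤ K * dd p.1 p.2 q.1 q.2 :=
      mul_le_mul_of_nonneg_right hK2 h7
    nlinarith
  have hlow : ∀ (γ : Γ) (p q : V × ℍ), dd p.1 p.2 q.1 q.2 ≤ K * dd (u (γ * α (c p)))
      (x (γ * α (c p))) (u (γ * α (c q))) (x (γ * α (c q))) + K := by
    intro γ p q
    have h1 := hL γ⁻¹ (γ * α (c p)) (γ * α (c q))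
    rw [inv_mul_cancel_left, inv_mul_cancel_left] at h1
    have h2 := dd_triangle p.1 (u (α (c p))) q.1 p.2 (x (α (c p))) q.2
    have h3 := dd_triangle (u (α (c p))) (u (α (c q))) q.1 (x (α (c p))) (x (α (c q))) q.2
    have h4 := dd_symm_le q.1 (u (α (c q))) q.2 (x (α (c q)))
    have h5 := hnear p
    have h6 := hnear q
    have h7 := dd_nonneg (u (γ * α (c p))) (u (γ * α (c q))) (x (γ * α (c p))) (x (γ * α (c q)))
    have h10 := mul_le_mul_of_nonneg_right hK2 h7
    nlinarith
  -- the reference maps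
  have href : ∀ γ : Γ, ∃ F : QM K, ∀ w y, F.f w y = x (γ * α (c (w, y))) := by
    intro γ
    refine ⟨⟨fun w y => u (γ * α (c (w, y))), fun w y => x (γ * α (c (w, y))), ⟨?_, ?_, ?_⟩,
      ⟨c, hc, ?_⟩⟩, fun w y => rfl⟩
    · intro w y w' y'
      exact (rho_le_dd _ _ _ _).trans (hup γ (w, y) (w', y'))
    · intro w y w' y'
      exact (log_le_dd _ _ _ _).trans (hup γ (w, y) (w', y'))
    · intro w y w' y'
      exact hlow γ (w, y) (w', y')
    · rintro ⟨w, y⟩ ⟨w', y'⟩ h
      constructor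
      · change u (γ * α (c (w, y))) = u (γ * α (c (w', y')))
        rw [h]
      · change x (γ * α (c (w, y))) = x (γ * α (c (w', y')))
        rw [h]
  -- left translates of nearby points are near
  have hgam : ∀ (γ a : Γ), rho (x (γ * a)) (x (γ * α (c (u a, x a)))) ≤ B * (B + 2) + B := by
    intro γ a
    have h1 := hL γ a (α (c (u a, x a)))
    have h2 := hnear (u a, x a)
    have h3 := rho_le_dd (u (γ * a)) (u (γ * α (c (u a, x a)))) (x (γ * a))
      (x (γ * α (c (u a, x a))))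
    have h4 : B * dd (u a) (x a) (u (α (c (u a, x a)))) (x (α (c (u a, x a)))) ≤ B * (B + 2) :=
      mul_le_mul_of_nonneg_left h2 (by linarith)
    linarith
  refine ⟨2 * (B * (B + 2) + B) + C0 + (K * D + K), fun γ a b hab => ?_⟩
  obtain ⟨F, hFf⟩ := href γ
  have e1 := hgam γ a
  have e2 := hgam γ b
  have e3 := hC0 F (u a) (u b) (x a)
  have e4 := F.f_rho (u b) (x a) (x b)
  rw [hFf, hFf] at e3 e4
  have e5 : K * rho (x a) (x b) ≤ K * D := mul_le_mul_of_nonneg_left hab (by linarith)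
  have t1 := rho_triangle (x (γ * a)) (x (γ * α (c (u a, x a)))) (x (γ * b))
  have t2 := rho_triangle (x (γ * α (c (u a, x a)))) (x (γ * α (c (u b, x a)))) (x (γ * b))
  have t3 := rho_triangle (x (γ * α (c (u b, x a)))) (x (γ * α (c (u b, x b)))) (x (γ * b))
  have t4 := rho_comm (x (γ * b)) (x (γ * α (c (u b, x b))))
  linarith

end Pool.Agent.FIB
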